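import Pool.Agent.MP28e671.Surgery

set_option autoImplicit false

open Set MeasureTheory
open scoped ENNReal

namespace Pool.Agent.MP28e671

variable {n : ℕ}

/-- the left end of the long component, logarithmic form -/
theorem cmin_log (hn : 0 < n) {a : Fin n → ℝ} (ha : ∀ i, a i ∈ Icc (0:ℝ) 2) {c : ℝ} (hc : c < 0)
    (hPc : 1 ≤ P a c) :
    0 ≤ wgt a 0 * Real.log |c| + (1 - wgt a 0) * Real.log (2 + |c|) := by
  classical
  set S : Finset (Fin n) := Finset.univ.filter fun i => a i = 0 with hS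
  have hn' : (0:ℝ) < n := by exact_mod_cast hn
  have hsum : 0 ≤ ∑ i, Real.log |c - a i| := by
    rw [← Real.log_prod (fun i _ => abs_ne_zero.2 (sub_ne_zero.2 (ne_of_one_le hPc i).symm))]
    exact Real.log_nonneg hPc
  have hsplit : ∑ i, Real.log |c - a i| = ∑ i ∈ S, Real.log |c - a i| +
      ∑ i ∈ Sᶜ, Real.log |c - a i| := (Finset.sum_add_sum_compl S _).symm
  have h4 : ∑ i ∈ S, Real.log |c - a i| ≤ S.card * Real.log |c| := by
    rw [← nsmul_eq_mul]
    refine Finset.sum_le_card_nsmul _ _ _ fun i hi => ?_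
    rw [(Finset.mem_filter.1 hi).2, sub_zero]
  have h5 : ∑ i ∈ Sᶜ, Real.log |c - a i| ≤ Sᶜ.card * Real.log (2 + |c|) := by
    rw [← nsmul_eq_mul]
    refine Finset.sum_le_card_nsmul _ _ _ fun i hi => ?_
    have h7 := ha i
    simp only [mem_Icc] at h7
    rw [abs_of_neg (show c - a i < 0 by linarith), abs_of_neg hc]
    exact Real.log_le_log (by linarith) (by linarith)
  have hcard : (S.card : ℝ) + Sᶜ.card = n := by
    have := Finset.card_add_card_compl S
    rw [Fintype.card_fin] at this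
    exact_mod_cast this
  have hw : wgt a 0 = S.card / n := rfl
  have hw' : 1 - wgt a 0 = Sᶜ.card / n := by
    rw [hw, eq_div_iff hn'.ne', sub_mul, div_mul_cancel₀ _ hn'.ne']
    linarith
  rw [hw', hw]
  have : 0 ≤ (S.card * Real.log |c| + Sᶜ.card * Real.log (2 + |c|)) / n :=
    div_nonneg (by linarith) hn'.le
  calc 0 ≤ (S.card * Real.log |c| + Sᶜ.card * Real.log (2 + |c|)) / n := this
    _ = _ := by ring

/-- the left end of the long component -/
theorem cmin_bound (hn : 0 < n) {a : Fin n → ℝ} (ha : ∀ i, a i ∈ Icc (0:ℝ) 2) {c : ℝ} (hc : c < 0)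
    (hPc : 1 ≤ P a c) : 1 ≤ |c| ^ (wgt a 0) * (2 + |c|) ^ (1 - wgt a 0) := by
  have h1 := cmin_log hn ha hc hPc
  have hc' : 0 < |c| := abs_pos.2 hc.ne
  have h2 : 0 < 2 + |c| := by linarith
  rw [← Real.log_rpow hc', ← Real.log_rpow h2, ← Real.log_mul
    (Real.rpow_pos_of_pos hc' _).ne' (Real.rpow_pos_of_pos h2 _).ne'] at h1
  by_contra hcon
  push Not at hcon
  have h3 := Real.log_neg (mul_pos (Real.rpow_pos_of_pos hc' _) (Real.rpow_pos_of_pos h2 _)) hcon
  linarith

end Pool.Agent.MP28e671
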