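import Mathlib

set_option autoImplicit false

open Real

namespace Pool.Agent.MP28e671

/-- Logarithmic potential at `x` of the arcsine probability law of the interval `[u, v]`. -/
noncomputable def G (u v x : ℝ) : ℝ :=
  if x < u then 2 * log ((√(v - x) + √(u - x)) / 2)
  else if x ≤ v then log ((v - u) / 4)
  else 2 * log ((√(x - u) + √(x - v)) / 2)

/-- Green function of the complement of `[b, B]` with pole at infinity, at a real point `x ≤ b`. -/
noncomputable def gI (b B x : ℝ) : ℝ := 2 * log ((√(B - x) + √(b - x)) / √(B - b))

/-- Green function of the complement of `[b, B]` (`0 < b < B`) with pole at `0`, at a real point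
`x ≤ b`. -/
noncomputable def g0 (b B x : ℝ) : ℝ :=
  log |(√(B - x) * √b + √(b - x) * √B) / (√(B - x) * √b - √(b - x) * √B)|

/-- The mass of the atom, as a function of the parameter `g`. -/
noncomputable def mass (g : ℝ) : ℝ := log (2 * cosh g ^ 2) / (2 * g)

/-- Admissible parameters of the closed form. -/
def Adm (g a c : ℝ) : Prop :=
  0 < a ∧ a < g ∧ g < c ∧ mass g < tanh g ∧
    tanh a = tanh g * tanh (a / mass g) ∧ tanh c * tanh (c / mass g) = tanh g

/-- The closed form. -/
noncomputable def val (g a c : ℝ) : ℝ := 2 * (cosh c ^ 2 - cosh a ^ 2) / cosh g ^ 2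

/-- The set of values of the closed form. -/
def vals : Set ℝ := {y | ∃ g a c, Adm g a c ∧ y = val g a c}

/-- The exact value. -/
noncomputable def muStar : ℝ := sInf vals

end Pool.Agent.MP28e671
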