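import Mathlib
import Pool.Agent.MP28e671.Defs

set_option autoImplicit false

open Real Set

namespace Pool.Agent.MP28e671

/-- the point of the real line with Green function value `2 y` -/
noncomputable def X (B g y : ℝ) : ℝ := B * (1 - cosh y ^ 2 / cosh g ^ 2)

/-- Green function difference in the hyperbolic coordinate. -/
noncomputable def phi (al T y : ℝ) : ℝ := 2 * y - al * log |(T + tanh y) / (T - tanh y)|

theorem tanh_pos {y : ℝ} (hy : 0 < y) : 0 < tanh y := by
  rw [tanh_eq_sinh_div_cosh]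
  exact div_pos (sinh_pos_iff.2 hy) (cosh_pos y)

theorem tanh_strictMono : StrictMono tanh := by
  intro x y hxy
  by_contra h
  push Not at h
  have := artanh_le_artanh (neg_one_lt_tanh y) (tanh_lt_one x) h
  rw [artanh_tanh, artanh_tanh] at this
  linarith

theorem tanh_lt_tanh {x y : ℝ} : tanh x < tanh y ↔ x < y := tanh_strictMono.lt_iff_lt

theorem tanh_continuous : Continuous tanh := by
  have : tanh = fun x => sinh x / cosh x := by
    funext x; exact tanh_eq_sinh_div_cosh x
  rw [this]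
  exact continuous_sinh.div continuous_cosh fun x => (cosh_pos x).ne'

theorem one_sub_tanh_sq (g : ℝ) : 1 - tanh g ^ 2 = 1 / cosh g ^ 2 := by
  rw [tanh_eq_sinh_div_cosh]
  have := cosh_pos g
  field_simp
  rw [cosh_sq]; ring

section coord

variable {B g : ℝ}

theorem B_sub_b (hB : 0 < B) : B - B * tanh g ^ 2 = B / cosh g ^ 2 := by
  have := one_sub_tanh_sq g
  calc B - B * tanh g ^ 2 = B * (1 - tanh g ^ 2) := by ring
    _ = _ := by rw [this]; ring

theorem sqrt_B_sub_b (hB : 0 < B) : √(B - B * tanh g ^ 2) = √B / cosh g := by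
  rw [B_sub_b hB, sqrt_div hB.le, sqrt_sq (cosh_pos g).le]

theorem B_sub_X (y : ℝ) : B - X B g y = B * cosh y ^ 2 / cosh g ^ 2 := by
  unfold X; ring

theorem sqrt_B_sub_X (hB : 0 < B) (y : ℝ) : √(B - X B g y) = √B * cosh y / cosh g := by
  rw [B_sub_X, sqrt_div (by positivity), sqrt_sq (cosh_pos g).le, sqrt_mul hB.le,
    sqrt_sq (cosh_pos y).le]

theorem b_sub_X (y : ℝ) : B * tanh g ^ 2 - X B g y = B * sinh y ^ 2 / cosh g ^ 2 := by
  unfold X
  have h1 := one_sub_tanh_sq g
  have h2 : tanh g ^ 2 = 1 - 1 / cosh g ^ 2 := by linarith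
  rw [h2, cosh_sq y]
  have := cosh_pos g
  field_simp
  ring

theorem sqrt_b_sub_X (hB : 0 < B) {y : ℝ} (hy : 0 ≤ y) :
    √(B * tanh g ^ 2 - X B g y) = √B * sinh y / cosh g := by
  rw [b_sub_X, sqrt_div (by positivity), sqrt_sq (cosh_pos g).le, sqrt_mul hB.le,
    sqrt_sq (sinh_nonneg_iff.2 hy)]

theorem sqrt_b (hB : 0 < B) (hg : 0 < g) : √(B * tanh g ^ 2) = √B * tanh g := by
  rw [sqrt_mul hB.le, sqrt_sq (tanh_pos hg).le]

theorem gI_X (hB : 0 < B) {y : ℝ} (hy : 0 ≤ y) : gI (B * tanh g ^ 2) B (X B g y) = 2 * y := by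
  unfold gI
  rw [sqrt_B_sub_X hB, sqrt_b_sub_X hB hy, sqrt_B_sub_b hB]
  have h1 : 0 < √B := sqrt_pos.2 hB
  have h2 := cosh_pos g
  have : (√B * cosh y / cosh g + √B * sinh y / cosh g) / (√B / cosh g) = exp y := by
    rw [← cosh_add_sinh]
    field_simp
  rw [this, log_exp]

theorem X_g (g : ℝ) : X B g g = 0 := by
  unfold X
  have := cosh_pos g
  field_simp
  ring

theorem gI_zero (hB : 0 < B) (hg : 0 < g) : gI (B * tanh g ^ 2) B 0 = 2 * g := by
  have := gI_X (g := g) hB hg.le
  rwa [X_g] at this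

theorem g0_X (hB : 0 < B) (hg : 0 < g) {y : ℝ} (hy : 0 ≤ y) :
    g0 (B * tanh g ^ 2) B (X B g y) = log |(tanh g + tanh y) / (tanh g - tanh y)| := by
  unfold g0
  rw [sqrt_B_sub_X hB, sqrt_b_sub_X hB hy, sqrt_b hB hg]
  have h1 : 0 < √B := sqrt_pos.2 hB
  have h2 := cosh_pos g
  have h3 := cosh_pos y
  have e1 : √B * cosh y / cosh g * (√B * tanh g) + √B * sinh y / cosh g * √B
      = (B * cosh y / cosh g) * (tanh g + tanh y) := by
    rw [tanh_eq_sinh_div_cosh y]
    field_simp
    rw [sq_sqrt hB.le]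
    ring
  have e2 : √B * cosh y / cosh g * (√B * tanh g) - √B * sinh y / cosh g * √B
      = (B * cosh y / cosh g) * (tanh g - tanh y) := by
    rw [tanh_eq_sinh_div_cosh y]
    field_simp
    rw [sq_sqrt hB.le]
    ring
  rw [e1, e2, mul_div_mul_left _ _ (by positivity)]

theorem R_eq (hB : 0 < B) : log (4 / (B - B * tanh g ^ 2)) = log (4 * cosh g ^ 2 / B) := by
  rw [B_sub_b hB]
  congr 1
  have := cosh_pos g
  field_simp

theorem phi_eq (hB : 0 < B) (hg : 0 < g) {y : ℝ} (hy : 0 ≤ y) (al : ℝ) :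
    gI (B * tanh g ^ 2) B (X B g y) - al * g0 (B * tanh g ^ 2) B (X B g y) =
      phi al (tanh g) y := by
  rw [gI_X hB hy, g0_X hB hg hy, phi]

theorem exists_g {b : ℝ} (hB : 0 < B) (hb : 0 < b) (hbB : b < B) :
    ∃ g, 0 < g ∧ b = B * tanh g ^ 2 ∧ tanh g = √(b / B) := by
  have h1 : 0 < b / B := div_pos hb hB
  have h2 : b / B < 1 := (div_lt_one hB).2 hbB
  have h3 : 0 < √(b / B) := sqrt_pos.2 h1
  have h4 : √(b / B) < 1 := by
    rw [sqrt_lt' one_pos]; simpa using h2
  refine ⟨artanh √(b / B), artanh_pos ⟨h3, h4⟩, ?_, ?_⟩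
  · rw [tanh_artanh ⟨by linarith, h4⟩, sq_sqrt h1.le]
    field_simp
  · rw [tanh_artanh ⟨by linarith, h4⟩]

theorem exists_y (hB : 0 < B) {x : ℝ} (hx : x < B * tanh g ^ 2) :
    ∃ y, 0 < y ∧ x = X B g y := by
  have h0 := cosh_pos g
  have h1 : 1 < (1 - x / B) * cosh g ^ 2 := by
    have h2 : x / B < tanh g ^ 2 := by
      rw [div_lt_iff₀ hB]; linarith
    have h3 := one_sub_tanh_sq g
    have h4 : 1 / cosh g ^ 2 < 1 - x / B := by linarith
    rwa [div_lt_iff₀ (by positivity)] at h4
  have h2 : 1 < √((1 - x / B) * cosh g ^ 2) := by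
    rw [lt_sqrt (by norm_num)]; simpa using h1
  refine ⟨arcosh √((1 - x / B) * cosh g ^ 2), arcosh_pos h2, ?_⟩
  unfold X
  rw [cosh_arcosh h2.le, sq_sqrt (by linarith)]
  field_simp
  ring

theorem X_lt (hB : 0 < B) {y : ℝ} (hy : 0 < y) : X B g y < B * tanh g ^ 2 := by
  have := b_sub_X (B := B) (g := g) y
  have h2 := sinh_pos_iff.2 hy
  have h3 := cosh_pos g
  have : 0 < B * sinh y ^ 2 / cosh g ^ 2 := by positivity
  linarith

theorem X_anti (hB : 0 < B) {y z : ℝ} (hy : 0 ≤ y) (hyz : y < z) : X B g z < X B g y := by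
  unfold X
  have h1 : cosh y < cosh z := by
    rw [cosh_lt_cosh, abs_of_nonneg hy, abs_of_pos (lt_of_le_of_lt hy hyz)]; exact hyz
  have h0 := cosh_pos y
  have h3 := cosh_pos g
  have h4 : cosh y ^ 2 / cosh g ^ 2 < cosh z ^ 2 / cosh g ^ 2 := by
    apply div_lt_div_of_pos_right _ (by positivity)
    nlinarith
  nlinarith

theorem X_anti' (hB : 0 < B) {y z : ℝ} (hy : 0 ≤ y) (hyz : y ≤ z) : X B g z ≤ X B g y := by
  rcases hyz.eq_or_lt with h | h
  · rw [h]
  · exact (X_anti hB hy h).le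

theorem X_pos_iff (hB : 0 < B) {y : ℝ} (hg : 0 < g) (hy : 0 ≤ y) : 0 < X B g y ↔ y < g := by
  constructor
  · intro h
    by_contra hcon
    push Not at hcon
    have := X_anti' (g := g) hB hg.le hcon
    rw [X_g] at this
    linarith
  · intro h
    have := X_anti (g := g) hB hy h
    rwa [X_g] at this

theorem X_neg_iff (hB : 0 < B) {y : ℝ} (hg : 0 < g) (hy : 0 ≤ y) : X B g y < 0 ↔ g < y := by
  constructor
  · intro h
    by_contra hcon
    push Not at hcon
    have := X_anti' (g := g) hB hy hcon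
    rw [X_g] at this
    linarith
  · intro h
    have := X_anti (g := g) hB hg.le h
    rwa [X_g] at this

end coord

/-! ### The sign table -/

theorem phi_eq_left {al T y : ℝ} (hal : 0 < al) (hy : 0 < y) (hT : tanh y < T) :
    phi al T y = 2 * al * (artanh (tanh (y / al)) - artanh (tanh y / T)) := by
  have h0 := tanh_pos hy
  have hT0 : 0 < T := h0.trans hT
  have h1 : tanh y / T < 1 := (div_lt_one hT0).2 hT
  have h2 : 0 < tanh y / T := div_pos h0 hT0
  rw [artanh_tanh, artanh_eq_half_log ⟨by linarith, h1.le⟩, phi]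
  have h3 : |(T + tanh y) / (T - tanh y)| = (1 + tanh y / T) / (1 - tanh y / T) := by
    have h4 : 0 < T - tanh y := by linarith
    rw [abs_of_pos (by positivity)]
    have h5 : (1 - tanh y / T) ≠ 0 := by linarith
    field_simp
  rw [h3]
  field_simp

theorem phi_eq_right {al T y : ℝ} (hal : 0 < al) (hT0 : 0 < T) (hT : T < tanh y) :
    phi al T y = 2 * al * (artanh (tanh (y / al)) - artanh (T / tanh y)) := by
  have h0 := hT0.trans hT
  have h1 : T / tanh y < 1 := (div_lt_one h0).2 hT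
  have h2 : 0 < T / tanh y := div_pos hT0 h0
  rw [artanh_tanh, artanh_eq_half_log ⟨by linarith, h1.le⟩, phi]
  have h3 : |(T + tanh y) / (T - tanh y)| = (1 + T / tanh y) / (1 - T / tanh y) := by
    have h4 : T - tanh y < 0 := by linarith
    rw [abs_div, abs_of_pos (by positivity : 0 < T + tanh y), abs_of_neg h4]
    have h5 : (1 - T / tanh y) ≠ 0 := by linarith
    have h6 : tanh y - T ≠ 0 := by linarith
    rw [neg_sub, div_eq_div_iff h6 h5]
    field_simp
    ring
  rw [h3]
  field_simp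

theorem phi_pos_left {al T y : ℝ} (hal : 0 < al) (hy : 0 < y) (hT : tanh y < T) :
    0 < phi al T y ↔ tanh y < T * tanh (y / al) := by
  have h0 := tanh_pos hy
  have hT0 : 0 < T := h0.trans hT
  have h1 : tanh y / T < 1 := (div_lt_one hT0).2 hT
  have h2 : 0 < tanh y / T := div_pos h0 hT0
  rw [phi_eq_left hal hy hT, mul_pos_iff_of_pos_left (by positivity), sub_pos,
    artanh_lt_artanh_iff ⟨by linarith, h1⟩ ⟨neg_one_lt_tanh _, tanh_lt_one _⟩,
    div_lt_iff₀ hT0, mul_comm]

theorem phi_nonneg_left {al T y : ℝ} (hal : 0 < al) (hy : 0 < y) (hT : tanh y < T) :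
    0 ≤ phi al T y ↔ tanh y ≤ T * tanh (y / al) := by
  have h0 := tanh_pos hy
  have hT0 : 0 < T := h0.trans hT
  have h1 : tanh y / T < 1 := (div_lt_one hT0).2 hT
  have h2 : 0 < tanh y / T := div_pos h0 hT0
  rw [phi_eq_left hal hy hT, mul_nonneg_iff_of_pos_left (by positivity), sub_nonneg,
    artanh_le_artanh_iff ⟨by linarith, h1⟩ ⟨neg_one_lt_tanh _, tanh_lt_one _⟩,
    div_le_iff₀ hT0, mul_comm]

theorem phi_pos_right {al T y : ℝ} (hal : 0 < al) (hT0 : 0 < T) (hT : T < tanh y) :
    0 < phi al T y ↔ T < tanh y * tanh (y / al) := by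
  have h0 := hT0.trans hT
  have h1 : T / tanh y < 1 := (div_lt_one h0).2 hT
  have h2 : 0 < T / tanh y := div_pos hT0 h0
  rw [phi_eq_right hal hT0 hT, mul_pos_iff_of_pos_left (by positivity), sub_pos,
    artanh_lt_artanh_iff ⟨by linarith, h1⟩ ⟨neg_one_lt_tanh _, tanh_lt_one _⟩,
    div_lt_iff₀ h0, mul_comm]

theorem phi_nonneg_right {al T y : ℝ} (hal : 0 < al) (hT0 : 0 < T) (hT : T < tanh y) :
    0 ≤ phi al T y ↔ T ≤ tanh y * tanh (y / al) := by
  have h0 := hT0.trans hT
  have h1 : T / tanh y < 1 := (div_lt_one h0).2 hT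
  have h2 : 0 < T / tanh y := div_pos hT0 h0
  rw [phi_eq_right hal hT0 hT, mul_nonneg_iff_of_pos_left (by positivity), sub_nonneg,
    artanh_le_artanh_iff ⟨by linarith, h1⟩ ⟨neg_one_lt_tanh _, tanh_lt_one _⟩,
    div_le_iff₀ h0, mul_comm]

theorem mul_sinh_lt {k y : ℝ} (hk : 1 < k) (hy : 0 < y) : k * sinh y < sinh (k * y) := by
  have hmono : StrictMonoOn (fun y => sinh (k * y) - k * sinh y) (Ici 0) := by
    refine strictMonoOn_of_deriv_pos (convex_Ici 0) (by fun_prop) ?_
    intro x hx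
    rw [interior_Ici] at hx
    have hx' : 0 < x := hx
    have hd : HasDerivAt (fun y => sinh (k * y) - k * sinh y)
        (cosh (k * x) * (k * 1) - k * cosh x) x := by
      exact ((hasDerivAt_sinh _).comp x ((hasDerivAt_id x).const_mul k)).sub
        ((hasDerivAt_sinh x).const_mul k)
    rw [hd.deriv]
    have : cosh x < cosh (k * x) := by
      rw [cosh_lt_cosh, abs_of_pos hx', abs_of_pos (by positivity)]
      nlinarith
    nlinarith
  have := hmono (mem_Ici.2 le_rfl) (mem_Ici.2 hy.le) hy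
  simp only [mul_zero, sinh_zero, sub_zero] at this
  linarith

theorem ratio_anti {k : ℝ} (hk : 1 < k) :
    StrictAntiOn (fun y => tanh (k * y) / tanh y) (Ioi 0) := by
  have he : EqOn (fun y => tanh (k * y) / tanh y)
      (fun y => sinh (k * y) * cosh y / (cosh (k * y) * sinh y)) (Ioi 0) := by
    intro y hy
    have hy' : 0 < y := hy
    have h1 := cosh_pos (k * y)
    have h2 := cosh_pos y
    have h3 := sinh_pos_iff.2 hy'
    simp only [tanh_eq_sinh_div_cosh]
    field_simp
  refine StrictAntiOn.congr ?_ he.symm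
  have hd : ∀ x ∈ Ioi (0:ℝ), HasDerivAt
      (fun y => sinh (k * y) * cosh y / (cosh (k * y) * sinh y))
      (((cosh (k * x) * (k * 1) * cosh x + sinh (k * x) * sinh x) * (cosh (k * x) * sinh x) -
        (sinh (k * x) * cosh x) * (sinh (k * x) * (k * 1) * sinh x + cosh (k * x) * cosh x)) /
        (cosh (k * x) * sinh x) ^ 2) x := by
    intro x hx
    have hx' : 0 < x := hx
    have h1 := cosh_pos (k * x)
    have h3 := sinh_pos_iff.2 hx'
    have hl : HasDerivAt (fun y : ℝ => k * y) (k * 1) x := (hasDerivAt_id x).const_mul k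
    have hs : HasDerivAt (fun y : ℝ => sinh (k * y)) (cosh (k * x) * (k * 1)) x :=
      (hasDerivAt_sinh _).comp x hl
    have hc : HasDerivAt (fun y : ℝ => cosh (k * y)) (sinh (k * x) * (k * 1)) x :=
      (hasDerivAt_cosh _).comp x hl
    exact (hs.mul (hasDerivAt_cosh x)).div (hc.mul (hasDerivAt_sinh x)) (by positivity)
  refine strictAntiOn_of_deriv_neg (convex_Ioi 0)
    (fun x hx => (hd x hx).continuousAt.continuousWithinAt) ?_
  intro x hx
  rw [interior_Ioi] at hx
  have hx' : 0 < x := hx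
  rw [(hd x hx).deriv]
  have h1 := cosh_pos (k * x)
  have h3 := sinh_pos_iff.2 hx'
  refine div_neg_of_neg_of_pos ?_ (by positivity)
  have e : (cosh (k * x) * (k * 1) * cosh x + sinh (k * x) * sinh x) * (cosh (k * x) * sinh x) -
        (sinh (k * x) * cosh x) * (sinh (k * x) * (k * 1) * sinh x + cosh (k * x) * cosh x) =
      (k * sinh (2 * x) - sinh (k * (2 * x))) / 2 := by
    rw [show k * (2 * x) = 2 * (k * x) by ring, sinh_two_mul, sinh_two_mul]
    have a1 := cosh_sq (k * x)
    have a2 := cosh_sq x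
    have : (cosh (k * x) * (k * 1) * cosh x + sinh (k * x) * sinh x) * (cosh (k * x) * sinh x) -
        (sinh (k * x) * cosh x) * (sinh (k * x) * (k * 1) * sinh x + cosh (k * x) * cosh x) =
        k * cosh x * sinh x * (cosh (k * x) ^ 2 - sinh (k * x) ^ 2) -
          sinh (k * x) * cosh (k * x) * (cosh x ^ 2 - sinh x ^ 2) := by ring
    rw [this, a1, a2]
    ring
  rw [e]
  have := mul_sinh_lt hk (y := 2 * x) (by positivity)
  linarith

/-- the left sign table -/
theorem left_table {al T a y : ℝ} (hal : 0 < al) (hal1 : al < 1) (hT : 0 < T) (ha : 0 < a)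
    (hroot : tanh a = T * tanh (a / al)) (hy : 0 < y) :
    (y < a → tanh y < T * tanh (y / al)) ∧ (a < y → T * tanh (y / al) < tanh y) := by
  have hk : 1 < 1 / al := by rw [lt_div_iff₀ hal]; linarith
  have hanti := ratio_anti hk
  have e : ∀ z, z / al = 1 / al * z := fun z => by ring
  have h0 : 0 < tanh a := tanh_pos ha
  have hR : T * (tanh (1 / al * a) / tanh a) = 1 := by
    rw [← e]
    field_simp
    linarith [hroot]
  constructor
  · intro h
    have := hanti (mem_Ioi.2 hy) (mem_Ioi.2 ha) h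
    simp only at this
    have h2 : 1 < T * (tanh (1 / al * y) / tanh y) := by
      have := mul_lt_mul_of_pos_left this hT
      linarith
    have h3 := tanh_pos hy
    rw [e]
    rw [← mul_div_assoc, lt_div_iff₀ h3] at h2
    linarith
  · intro h
    have := hanti (mem_Ioi.2 ha) (mem_Ioi.2 hy) h
    simp only at this
    have h2 : T * (tanh (1 / al * y) / tanh y) < 1 := by
      have := mul_lt_mul_of_pos_left this hT
      linarith
    have h3 := tanh_pos hy
    rw [e]
    rw [← mul_div_assoc, div_lt_iff₀ h3] at h2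
    linarith

theorem prod_mono {al : ℝ} (hal : 0 < al) :
    StrictMonoOn (fun y => tanh y * tanh (y / al)) (Ici 0) := by
  intro x hx y hy hxy
  have hx' : 0 ≤ x := hx
  have h1 : tanh x < tanh y := tanh_strictMono hxy
  have h2 : tanh (x / al) < tanh (y / al) := tanh_strictMono (by gcongr)
  have h3 : 0 ≤ tanh x := by
    rcases hx'.eq_or_lt with h | h
    · rw [← h]; simp
    · exact (tanh_pos h).le
  have h4 : 0 ≤ tanh (x / al) := by
    rcases hx'.eq_or_lt with h | h
    · rw [← h]; simp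
    · exact (tanh_pos (by positivity)).le
  simp only
  exact mul_lt_mul'' h1 h2 h3 h4

theorem right_table {al T c y : ℝ} (hal : 0 < al) (hc : 0 < c)
    (hroot : tanh c * tanh (c / al) = T) (hy : 0 < y) :
    (y < c → tanh y * tanh (y / al) < T) ∧ (c < y → T < tanh y * tanh (y / al)) := by
  constructor
  · intro h
    have := prod_mono hal (mem_Ici.2 hy.le) (mem_Ici.2 hc.le) h
    simp only at this
    rwa [hroot] at this
  · intro h
    have := prod_mono hal (mem_Ici.2 hc.le) (mem_Ici.2 hy.le) h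
    simp only at this
    rwa [hroot] at this

/-- existence of the inner root -/
theorem exists_a {al g : ℝ} (hal : 0 < al) (hg : 0 < g) (h : al < tanh g) :
    ∃ a, 0 < a ∧ a < g ∧ tanh a = tanh g * tanh (a / al) := by
  set T := tanh g with hT
  have hT0 : 0 < T := tanh_pos hg
  set f : ℝ → ℝ := fun y => T * tanh (y / al) - tanh y with hf
  have hd0 : HasDerivAt tanh 1 0 := by
    have h1 : HasDerivAt (fun x => sinh x / cosh x)
        ((cosh 0 * cosh 0 - sinh 0 * sinh 0) / cosh 0 ^ 2) 0 :=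
      (hasDerivAt_sinh 0).div (hasDerivAt_cosh 0) (cosh_pos 0).ne'
    have h2 : tanh = fun x => sinh x / cosh x := by
      funext x; exact tanh_eq_sinh_div_cosh x
    rw [h2]
    convert h1 using 1
    simp
  have hder : HasDerivAt f (T * (1 * (1 / al)) - 1) 0 := by
    have h1 : HasDerivAt (fun y : ℝ => y / al) (1 / al) 0 := (hasDerivAt_id (0:ℝ)).div_const al
    have h2 : HasDerivAt tanh 1 ((fun y : ℝ => y / al) 0) := by simpa using hd0
    exact ((h2.comp (0:ℝ) h1).const_mul T).sub hd0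
  have hpos : 0 < T * (1 * (1 / al)) - 1 := by
    have : 1 < T / al := (one_lt_div hal).2 h
    have e : T * (1 * (1 / al)) = T / al := by ring
    rw [e]; linarith
  have hf0 : f 0 = 0 := by simp [hf]
  have hev : ∀ᶠ y in nhdsWithin 0 (Ioi 0), 0 < f y := by
    have h1 := (hasDerivAt_iff_tendsto_slope.1 hder).eventually (lt_mem_nhds hpos)
    have h2 : nhdsWithin (0:ℝ) (Ioi 0) ≤ nhdsWithin 0 {0}ᶜ :=
      nhdsWithin_mono _ fun x hx => by
        have : 0 < x := hx
        simpa using this.ne'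
    filter_upwards [h2 h1, self_mem_nhdsWithin] with y hy hy0
    have hy0' : 0 < y := hy0
    rw [slope_def_field, hf0] at hy
    simp only [sub_zero] at hy
    exact (div_pos_iff_of_pos_right hy0').1 hy
  have hev2 : ∀ᶠ y in nhdsWithin (0:ℝ) (Ioi 0), y < g :=
    (Iio_mem_nhds hg |> fun h => mem_nhdsWithin_of_mem_nhds h)
  obtain ⟨y, ⟨hy1, hy2⟩, hy3⟩ :=
    ((hev.and hev2).and self_mem_nhdsWithin).exists
  have hy3' : 0 < y := hy3
  have hfg : f g < 0 := by
    have : tanh (g / al) < 1 := tanh_lt_one _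
    simp only [hf]
    nlinarith
  have hcont : ContinuousOn f (Icc y g) := by
    have := tanh_continuous
    simp only [hf]
    fun_prop
  obtain ⟨a, ha1, ha2⟩ := intermediate_value_Icc' hy2.le hcont (show (0:ℝ) ∈ Icc (f g) (f y) from
    ⟨hfg.le, hy1.le⟩)
  refine ⟨a, hy3'.trans_le ha1.1, ?_, ?_⟩
  · rcases ha1.2.eq_or_lt with h | h
    · rw [h] at ha2; linarith
    · exact h
  · simp only [hf] at ha2
    linarith

/-- existence of the outer root -/
theorem exists_c {al g : ℝ} (hal : 0 < al) (hal1 : al < 1) (hg : 0 < g) :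
    ∃ c, g < c ∧ tanh c * tanh (c / al) = tanh g := by
  set T := tanh g with hT
  have hT0 : 0 < T := tanh_pos hg
  have hT1 : T < 1 := tanh_lt_one g
  have h1 : 0 < √((T + 1) / 2) := sqrt_pos.2 (by positivity)
  have h2 : √((T + 1) / 2) < 1 := by
    rw [sqrt_lt' one_pos]; linarith
  set z := artanh √((T + 1) / 2) with hz
  have hz0 : 0 < z := artanh_pos ⟨h1, h2⟩
  have htz : tanh z = √((T + 1) / 2) := tanh_artanh ⟨by linarith, h2⟩
  have hfz : T < tanh z * tanh (z / al) := by
    have h3 : tanh z ≤ tanh (z / al) := tanh_strictMono.monotone (by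
      rw [le_div_iff₀ hal]; nlinarith)
    have h4 : tanh z * tanh z = (T + 1) / 2 := by
      rw [htz, mul_self_sqrt (by positivity)]
    have h5 : tanh z * tanh z ≤ tanh z * tanh (z / al) :=
      mul_le_mul_of_nonneg_left h3 (tanh_pos hz0).le
    linarith
  have hfg : tanh g * tanh (g / al) < T := by
    have : tanh (g / al) < 1 := tanh_lt_one _
    nlinarith
  have hgz : g ≤ z := by
    by_contra hcon
    push Not at hcon
    have := prod_mono hal (mem_Ici.2 hz0.le) (mem_Ici.2 hg.le) hcon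
    simp only at this
    linarith
  have hcont : ContinuousOn (fun y => tanh y * tanh (y / al)) (Icc g z) := by
    have := tanh_continuous
    fun_prop
  obtain ⟨c, hc1, hc2⟩ := intermediate_value_Icc hgz hcont (show T ∈ Icc _ _ from
    ⟨hfg.le, hfz.le⟩)
  refine ⟨c, ?_, hc2⟩
  rcases hc1.1.eq_or_lt with h | h
  · simp only at hc2
    rw [← h] at hc2; linarith
  · exact h

theorem cosh_sq_gt_one {g : ℝ} (hg : 0 < g) : 1 < cosh g ^ 2 := by
  have : 1 < cosh g := one_lt_cosh.2 hg.ne'
  nlinarith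

theorem mass_pos {g : ℝ} (hg : 0 < g) : 0 < mass g := by
  unfold mass
  have := cosh_sq_gt_one hg
  exact div_pos (log_pos (by linarith)) (by positivity)

end Pool.Agent.MP28e671
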