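import Mathlib

set_option autoImplicit false

open Set MeasureTheory
open scoped ENNReal

namespace Pool.Agent.MP28e671

/-- absolute value of the monic polynomial with roots `a i` -/
noncomputable def P {n : ℕ} (a : Fin n → ℝ) (x : ℝ) : ℝ := ∏ i, |x - a i|

/-- the unit sublevel set -/
def E {n : ℕ} (a : Fin n → ℝ) : Set ℝ := {x | P a x < 1}

variable {n : ℕ}

theorem P_nonneg (a : Fin n → ℝ) (x : ℝ) : 0 ≤ P a x :=
  Finset.prod_nonneg fun _ _ => abs_nonneg _

theorem P_continuous (a : Fin n → ℝ) : Continuous (P a) := by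
  unfold P
  exact continuous_finsetProd _ fun i _ => (continuous_id.sub continuous_const).abs

theorem E_isOpen (a : Fin n → ℝ) : IsOpen (E a) :=
  isOpen_lt (P_continuous a) continuous_const

theorem P_root (a : Fin n → ℝ) (i : Fin n) : P a (a i) = 0 :=
  Finset.prod_eq_zero (Finset.mem_univ i) (by simp)

theorem ne_of_one_le {a : Fin n → ℝ} {x : ℝ} (h : 1 ≤ P a x) (i : Fin n) : a i ≠ x := by
  intro hi
  rw [← hi, P_root] at h
  linarith

theorem P_mono {a b : Fin n → ℝ} {x y : ℝ} (h : ∀ i, |x - a i| ≤ |y - b i|) : P a x ≤ P b y :=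
  Finset.prod_le_prod (fun _ _ => abs_nonneg _) fun i _ => h i

theorem P_large {a : Fin n → ℝ} (ha : ∀ i, a i ∈ Icc (0:ℝ) 2) {x : ℝ}
    (hx : x ≤ -1 ∨ 3 ≤ x) : 1 ≤ P a x := by
  unfold P
  have : ∀ i ∈ (Finset.univ : Finset (Fin n)), (1:ℝ) ≤ |x - a i| := by
    intro i _
    obtain ⟨h1, h2⟩ := ha i
    rcases hx with hx | hx
    · rw [abs_of_nonpos (by linarith)]; linarith
    · rw [abs_of_nonneg (by linarith)]; linarith
  calc (1:ℝ) = ∏ _i : Fin n, (1:ℝ) := by simp
    _ ≤ _ := Finset.prod_le_prod (fun _ _ => zero_le_one) this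

/-- the reflected configuration -/
theorem P_reflect (a : Fin n → ℝ) (x : ℝ) : P (fun i => 2 - a i) (2 - x) = P a x := by
  unfold P
  refine Finset.prod_congr rfl fun i _ => ?_
  rw [show 2 - x - (2 - a i) = -(x - a i) by ring, abs_neg]

theorem P_translate (a : Fin n → ℝ) (t x : ℝ) : P (fun i => a i + t) (x + t) = P a x := by
  unfold P
  refine Finset.prod_congr rfl fun i _ => ?_
  rw [show x + t - (a i + t) = x - a i by ring]

theorem vol_reflect (a : Fin n → ℝ) : volume (E fun i => 2 - a i) = volume (E a) := by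
  have h : (E fun i => 2 - a i) = (fun x => 2 - x) ⁻¹' (E a) := by
    ext x
    have := P_reflect a (2 - x)
    simp only [sub_sub_cancel] at this
    simp [E, this]
  rw [h]
  exact (Measure.measurePreserving_sub_left volume (2:ℝ)).measure_preimage
    (E_isOpen a).measurableSet.nullMeasurableSet

theorem vol_translate (a : Fin n → ℝ) (t : ℝ) : volume (E fun i => a i + t) = volume (E a) := by
  have h : (E fun i => a i + t) = (fun x => x - t) ⁻¹' (E a) := by
    ext x
    have := P_translate a t (x - t)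
    simp only [sub_add_cancel] at this
    simp [E, this]
  rw [h]
  exact (measurePreserving_sub_right volume t).measure_preimage
    (E_isOpen a).measurableSet.nullMeasurableSet

/-- moving the roots to the right of a point outside of `E` does not increase the measure -/
theorem vol_expand (a : Fin n → ℝ) (g s : ℝ) (hs : 0 ≤ s) (hg : 1 ≤ P a g) :
    volume (E fun i => if a i < g then a i else a i + s) ≤ volume (E a) := by
  set b : Fin n → ℝ := fun i => if a i < g then a i else a i + s with hb
  have hsub : E b ⊆ (E a ∩ Iio g) ∪ (fun x => x - s) ⁻¹' (E a ∩ Ioi g) := by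
    intro x hx
    by_contra hcon
    rw [mem_union, not_or] at hcon
    obtain ⟨h1, h2⟩ := hcon
    have hx1 : P b x < 1 := hx
    refine absurd hx1 (not_lt.2 ?_)
    by_cases hxg : x < g
    · -- left part
      have h3 : 1 ≤ P a x := by
        by_contra h4
        exact h1 ⟨not_le.1 h4, hxg⟩
      refine h3.trans (P_mono fun i => ?_)
      simp only [hb]
      split_ifs with h
      · exact le_rfl
      · rw [abs_of_nonpos (by linarith), abs_of_nonpos (by linarith)]; linarith
    · by_cases hxg2 : g < x - s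
      · have h3 : 1 ≤ P a (x - s) := by
          by_contra h4
          exact h2 ⟨not_le.1 h4, hxg2⟩
        refine h3.trans (P_mono fun i => ?_)
        simp only [hb]
        split_ifs with h
        · rw [abs_of_nonneg (by linarith), abs_of_nonneg (by linarith)]; linarith
        · rw [show x - (a i + s) = x - s - a i by ring]
      · refine hg.trans (P_mono fun i => ?_)
        simp only [hb]
        split_ifs with h
        · rw [abs_of_nonneg (by linarith), abs_of_nonneg (by linarith)]; linarith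
        · rw [abs_of_nonpos (by linarith), abs_of_nonpos (by linarith)]; linarith
  calc volume (E b) ≤ volume ((E a ∩ Iio g) ∪ (fun x => x - s) ⁻¹' (E a ∩ Ioi g)) :=
        measure_mono hsub
    _ ≤ volume (E a ∩ Iio g) + volume ((fun x => x - s) ⁻¹' (E a ∩ Ioi g)) := measure_union_le _ _
    _ = volume (E a ∩ Iio g) + volume (E a ∩ Ioi g) := by
        congr 1
        exact (measurePreserving_sub_right volume s).measure_preimage
          ((E_isOpen a).inter isOpen_Ioi).measurableSet.nullMeasurableSet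
    _ = volume ((E a ∩ Iio g) ∪ (E a ∩ Ioi g)) := by
        rw [measure_union]
        · rw [Set.disjoint_left]
          rintro x ⟨-, hx1⟩ ⟨-, hx2⟩
          exact lt_asymm (mem_Iio.1 hx1) (mem_Ioi.1 hx2)
        · exact ((E_isOpen a).inter isOpen_Ioi).measurableSet
    _ ≤ volume (E a) := measure_mono (by
        rintro x (⟨hx, -⟩ | ⟨hx, -⟩) <;> exact hx)

open Classical in
/-- replacing the roots in `(c,d)` by their barycentre -/
theorem P_merge_le (a : Fin n → ℝ) (S : Finset (Fin n)) (hS : S.Nonempty) (b x : ℝ)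
    (hb : b = (∑ i ∈ S, a i) / S.card) (hx : (∀ i ∈ S, a i ≤ x) ∨ (∀ i ∈ S, x ≤ a i)) :
    P a x ≤ P (fun i => if i ∈ S then b else a i) x := by
  unfold P
  have hc : (0:ℝ) < S.card := by exact_mod_cast hS.card_pos
  have h1 : ∀ (f : Fin n → ℝ), ∏ i, f i = (∏ i ∈ S, f i) * ∏ i ∈ Sᶜ, f i :=
    fun f => (Finset.prod_mul_prod_compl S f).symm
  rw [h1, h1 (fun i => |x - if i ∈ S then b else a i|)]
  have e2 : ∏ i ∈ Sᶜ, |x - if i ∈ S then b else a i| = ∏ i ∈ Sᶜ, |x - a i| := by
    refine Finset.prod_congr rfl fun i hi => ?_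
    rw [if_neg (Finset.mem_compl.1 hi)]
  have e1 : ∏ i ∈ S, |x - if i ∈ S then b else a i| = |x - b| ^ S.card := by
    rw [Finset.prod_congr rfl (g := fun _ => |x - b|), Finset.prod_const]
    intro i hi
    rw [if_pos hi]
  rw [e1, e2]
  refine mul_le_mul_of_nonneg_right ?_ (Finset.prod_nonneg fun _ _ => abs_nonneg _)
  -- the arithmetic-geometric mean inequality
  have key : ∏ i ∈ S, |x - a i| ≤ ((∑ i ∈ S, |x - a i|) / S.card) ^ S.card := by
    have h3 := Real.geom_mean_le_arith_mean S (fun _ => (1:ℝ)) (fun i => |x - a i|)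
      (fun _ _ => zero_le_one) (by simpa using hS.card_pos) (fun _ _ => abs_nonneg _)
    simp only [Finset.sum_const, nsmul_eq_mul, mul_one, Real.rpow_one, one_mul] at h3
    have hp : 0 ≤ ∏ i ∈ S, |x - a i| := Finset.prod_nonneg fun _ _ => abs_nonneg _
    calc ∏ i ∈ S, |x - a i| = ((∏ i ∈ S, |x - a i|) ^ ((S.card : ℝ)⁻¹)) ^ S.card := by
          rw [← Real.rpow_natCast, ← Real.rpow_mul hp, inv_mul_cancel₀ hc.ne', Real.rpow_one]
      _ ≤ _ := pow_le_pow_left₀ (Real.rpow_nonneg hp _) h3 _
  refine key.trans (le_of_eq ?_)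
  congr 1
  rcases hx with hx | hx
  · have h4 : ∀ i ∈ S, |x - a i| = x - a i := fun i hi => abs_of_nonneg (by linarith [hx i hi])
    rw [Finset.sum_congr rfl h4, Finset.sum_sub_distrib, Finset.sum_const, nsmul_eq_mul, hb]
    have h5 : (∑ i ∈ S, a i) / S.card ≤ x := by
      rw [div_le_iff₀ hc]
      calc ∑ i ∈ S, a i ≤ ∑ _i ∈ S, x := Finset.sum_le_sum hx
        _ = x * S.card := by rw [Finset.sum_const, nsmul_eq_mul, mul_comm]
    rw [abs_of_nonneg (by linarith)]
    field_simp
  · have h4 : ∀ i ∈ S, |x - a i| = a i - x := fun i hi => by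
      rw [abs_of_nonpos (by linarith [hx i hi])]; ring
    rw [Finset.sum_congr rfl h4, Finset.sum_sub_distrib, Finset.sum_const, nsmul_eq_mul, hb]
    have h5 : x ≤ (∑ i ∈ S, a i) / S.card := by
      rw [le_div_iff₀ hc]
      calc x * S.card = ∑ _i ∈ S, x := by rw [Finset.sum_const, nsmul_eq_mul, mul_comm]
        _ ≤ ∑ i ∈ S, a i := Finset.sum_le_sum hx
    rw [abs_of_nonpos (by linarith)]
    field_simp
    ring

end Pool.Agent.MP28e671
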