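import Mathlib
import Pool.Agent.MP28e671.Basic

set_option autoImplicit false

open Set MeasureTheory Filter ProbabilityTheory
open scoped ENNReal Topology

namespace Pool.Agent.MP28e671

theorem ae_singleton_zero (ν : Measure ℝ) [IsProbabilityMeasure ν] :
    ∀ᵐ x ∂(volume : Measure ℝ), ν {x} = 0 := by
  have hc : Set.Countable {x : ℝ | 0 < ν {x}} :=
    Measure.countable_meas_pos_of_disjoint_iUnion (μ := ν) (As := fun x : ℝ => ({x} : Set ℝ))
      (fun x => measurableSet_singleton x) (fun x y hxy => by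
        simpa [Function.onFun] using hxy)
  have h0 : volume {x : ℝ | 0 < ν {x}} = 0 := hc.measure_zero volume
  rw [ae_iff]
  convert h0 using 2
  ext x
  simp [pos_iff_ne_zero]

theorem lln_point (ν : Measure ℝ) [IsProbabilityMeasure ν] (x : ℝ)
    (hx0 : ν {x} = 0) (hint : Integrable (fun s => Real.log |x - s|) ν)
    (hpos : 0 < ∫ s, Real.log |x - s| ∂ν) :
    ∀ᵐ ω ∂(Measure.infinitePi (fun _ : ℕ => ν)), ∀ᶠ n : ℕ in atTop,
      1 ≤ ∏ i ∈ Finset.range n, |x - ω i| := by
  set P := Measure.infinitePi (fun _ : ℕ => ν) with hP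
  have hmeas : Measurable (fun s : ℝ => Real.log |x - s|) := by fun_prop
  have hid : ∀ i : ℕ, IdentDistrib (fun ω : ℕ → ℝ => Real.log |x - ω i|)
      (fun s : ℝ => Real.log |x - s|) P ν := by
    intro i
    have h1 : IdentDistrib (fun ω : ℕ → ℝ => ω i) (fun s : ℝ => s) P ν := by
      refine ⟨(measurable_pi_apply i).aemeasurable, aemeasurable_id, ?_⟩
      rw [Measure.infinitePi_map_eval, Measure.map_id']
    exact h1.comp hmeas
  have hne : ∀ᵐ ω ∂P, ∀ i : ℕ, ω i ≠ x := by
    rw [ae_all_iff]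
    intro i
    have : P ((fun ω : ℕ → ℝ => ω i) ⁻¹' {x}) = 0 := by
      rw [← Measure.map_apply (by fun_prop) (measurableSet_singleton x),
        Measure.infinitePi_map_eval]
      exact hx0
    rw [ae_iff]
    convert this using 2
    ext ω
    simp
  have hslln := strong_law_ae_real (μ := P) (fun (i : ℕ) (ω : ℕ → ℝ) => Real.log |x - ω i|)
    ((hid 0).integrable_iff.2 hint)
    (by
      have hi : iIndepFun (fun (i : ℕ) (ω : ℕ → ℝ) => Real.log |x - ω i|) P :=
        iIndepFun_infinitePi (P := fun _ : ℕ => ν) (X := fun _ s => Real.log |x - s|)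
          (fun _ => hmeas)
      intro i j hij
      exact hi.indepFun hij)
    (fun i => (hid i).trans (hid 0).symm)
  filter_upwards [hne, hslln] with ω h1 h2
  rw [(hid 0).integral_eq] at h2
  have h3 := h2.eventually (lt_mem_nhds hpos)
  filter_upwards [h3] with n hn
  have hn0 : 0 < (n : ℝ) := by
    rcases Nat.eq_zero_or_pos n with h | h
    · subst h; simp at hn
    · exact_mod_cast h
  have hs : 0 < ∑ i ∈ Finset.range n, Real.log |x - ω i| := by
    have := mul_pos hn hn0
    rwa [div_mul_cancel₀ _ hn0.ne'] at this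
  rw [← Real.log_prod (fun i _ => by
    have := h1 i
    exact abs_ne_zero.2 (sub_ne_zero.2 (Ne.symm this)))] at hs
  have hp : 0 ≤ ∏ i ∈ Finset.range n, |x - ω i| := Finset.prod_nonneg fun _ _ => abs_nonneg _
  by_contra hlt
  push Not at hlt
  exact absurd (Real.log_nonpos hp hlt.le) (not_le.2 hs)

theorem exists_roots_of_measure (ν : Measure ℝ) [IsProbabilityMeasure ν]
    (hν : ν (Icc (0:ℝ) 2)ᶜ = 0) (S : Set ℝ) (hS : MeasurableSet S)
    (hpos : ∀ᵐ x ∂(volume : Measure ℝ), x ∈ Icc (-1:ℝ) 3 → x ∉ S →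
      Integrable (fun s => Real.log |x - s|) ν ∧ 0 < ∫ s, Real.log |x - s| ∂ν)
    {ε : ℝ≥0∞} (hε : 0 < ε) :
    ∃ n, 0 < n ∧ ∃ a : Fin n → ℝ, (∀ i, a i ∈ Icc (0:ℝ) 2) ∧
      volume (E a) ≤ volume (S ∩ Icc (-1) 3) + ε := by
  set P := Measure.infinitePi (fun _ : ℕ => ν) with hP
  set Q : ℝ → (ℕ → ℝ) → Prop := fun x ω => x ∈ Icc (-1:ℝ) 3 → x ∉ S →
    ∀ᶠ n : ℕ in atTop, 1 ≤ ∏ i ∈ Finset.range n, |x - ω i| with hQ
  have h1 : ∀ᵐ x ∂(volume : Measure ℝ), ∀ᵐ ω ∂P, Q x ω := by
    filter_upwards [hpos, ae_singleton_zero ν] with x hx hx0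
    by_cases hI : x ∈ Icc (-1:ℝ) 3
    · by_cases hxS : x ∈ S
      · exact Eventually.of_forall fun ω _ h => absurd hxS h
      · obtain ⟨ha, hb⟩ := hx hI hxS
        filter_upwards [lln_point ν x hx0 ha hb] with ω hω _ _
        exact hω
    · exact Eventually.of_forall fun ω h => absurd h hI
  have hQm : MeasurableSet {p : ℝ × (ℕ → ℝ) | Q p.1 p.2} := by
    have hm : ∀ n : ℕ, MeasurableSet
        {p : ℝ × (ℕ → ℝ) | 1 ≤ ∏ i ∈ Finset.range n, |p.1 - p.2 i|} := by
      intro n
      refine measurableSet_le measurable_const ?_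
      refine Finset.measurable_prod _ fun i _ => ?_
      have : Measurable fun p : ℝ × (ℕ → ℝ) => p.1 - p.2 i := by fun_prop
      exact continuous_abs.measurable.comp this
    have hE : {p : ℝ × (ℕ → ℝ) | Q p.1 p.2} =
        ((Prod.fst ⁻¹' (Icc (-1:ℝ) 3))ᶜ ∪ Prod.fst ⁻¹' S) ∪
          ⋃ N : ℕ, ⋂ n : ℕ, ⋂ (_ : N ≤ n),
            {p : ℝ × (ℕ → ℝ) | 1 ≤ ∏ i ∈ Finset.range n, |p.1 - p.2 i|} := by
      ext p
      simp only [hQ, mem_ofPred_eq, eventually_atTop, mem_union, mem_compl_iff, mem_preimage,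
        mem_iUnion, mem_iInter]
      tauto
    rw [hE]
    refine ((measurable_fst measurableSet_Icc).compl.union (measurable_fst hS)).union ?_
    exact MeasurableSet.iUnion fun N => MeasurableSet.iInter fun n =>
      MeasurableSet.iInter fun _ => hm n
  have h2 : ∀ᵐ ω ∂P, ∀ᵐ x ∂(volume : Measure ℝ), Q x ω :=
    (Measure.ae_ae_comm hQm).1 h1
  have h3 : ∀ᵐ ω ∂P, ∀ i : ℕ, ω i ∈ Icc (0:ℝ) 2 := by
    rw [ae_all_iff]
    intro i
    have : P ((fun ω : ℕ → ℝ => ω i) ⁻¹' (Icc (0:ℝ) 2)ᶜ) = 0 := by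
      rw [← Measure.map_apply (by fun_prop) measurableSet_Icc.compl,
        Measure.infinitePi_map_eval]
      exact hν
    rw [ae_iff]
    exact this
  obtain ⟨ω, hω1, hω2⟩ := (h2.and h3).exists
  -- dominated convergence
  set F : ℕ → Set ℝ := fun n => (Icc (-1:ℝ) 3 \ S) ∩ {x | ∏ i ∈ Finset.range n, |x - ω i| < 1}
    with hF
  have hFm : ∀ n, MeasurableSet (F n) := by
    intro n
    refine (measurableSet_Icc.diff hS).inter ?_
    refine measurableSet_lt ?_ measurable_const
    refine Finset.measurable_prod _ fun i _ => ?_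
    fun_prop
  have hlim : Tendsto (fun n => ∫⁻ x, (F n).indicator (fun _ => (1:ℝ≥0∞)) x) atTop
      (𝓝 (∫⁻ _x : ℝ, (0:ℝ≥0∞))) := by
    refine tendsto_lintegral_of_dominated_convergence
      ((Icc (-1:ℝ) 3).indicator fun _ => (1:ℝ≥0∞)) ?_ ?_ ?_ ?_
    · intro n
      exact measurable_const.indicator (hFm n)
    · intro n
      refine Eventually.of_forall fun x => ?_
      refine indicator_le_indicator_of_subset ?_ (fun _ => zero_le) x
      exact fun y hy => hy.1.1
    · rw [lintegral_indicator measurableSet_Icc]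
      simp
    · filter_upwards [hω1] with x hx
      by_cases hI : x ∈ Icc (-1:ℝ) 3 \ S
      · have := hx hI.1 hI.2
        refine tendsto_const_nhds.congr' ?_
        filter_upwards [this] with n hn
        show (0:ℝ≥0∞) = (F n).indicator (fun _ => 1) x
        rw [indicator_of_notMem]
        intro h
        exact absurd h.2 (not_lt.2 hn)
      · refine tendsto_const_nhds.congr' ?_
        refine Eventually.of_forall fun n => ?_
        show (0:ℝ≥0∞) = (F n).indicator (fun _ => 1) x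
        rw [indicator_of_notMem]
        intro h
        exact hI h.1
  simp only [lintegral_const, zero_mul] at hlim
  have hlim2 : Tendsto (fun n => volume (F n)) atTop (𝓝 0) := by
    refine hlim.congr fun n => ?_
    rw [lintegral_indicator (hFm n)]
    simp
  obtain ⟨n, hn1, hn2⟩ := ((hlim2.eventually (gt_mem_nhds hε)).and (eventually_gt_atTop 0)).exists
  refine ⟨n, hn2, fun i => ω i, fun i => hω2 i, ?_⟩
  have hP' : ∀ x, Pool.Agent.MP28e671.P (fun i : Fin n => ω i) x =
      ∏ i ∈ Finset.range n, |x - ω i| := by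
    intro x
    unfold Pool.Agent.MP28e671.P
    exact Fin.prod_univ_eq_prod_range (fun i => |x - ω i|) n
  have hsub : E (fun i : Fin n => ω i) ⊆ (S ∩ Icc (-1) 3) ∪ F n := by
    intro x hx
    have hx' : Pool.Agent.MP28e671.P (fun i : Fin n => ω i) x < 1 := hx
    have hI : x ∈ Icc (-1:ℝ) 3 := by
      by_contra hcon
      have : x ≤ -1 ∨ 3 ≤ x := by
        by_contra h
        push Not at h
        exact hcon ⟨h.1.le, h.2.le⟩
      have := P_large (a := fun i : Fin n => ω i) (fun i => hω2 i) this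
      linarith
    by_cases hxS : x ∈ S
    · exact Or.inl ⟨hxS, hI⟩
    · refine Or.inr ⟨⟨hI, hxS⟩, ?_⟩
      rw [hP'] at hx'
      exact hx'
  calc volume (E fun i : Fin n => ω i) ≤ volume ((S ∩ Icc (-1) 3) ∪ F n) := measure_mono hsub
    _ ≤ volume (S ∩ Icc (-1) 3) + volume (F n) := measure_union_le _ _
    _ ≤ _ := by gcongr

end Pool.Agent.MP28e671
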