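import Mathlib
import Pool.Agent.MP28e671.Trans
import Pool.Agent.MP28e671.UpperLLN

set_option autoImplicit false

open Real Set MeasureTheory Filter
open scoped ENNReal Topology

namespace Pool.Agent.MP28e671

/-- Existence of the approximately extremal probability measures (proved in `UpperMeasure.lean`). -/
def MeasStmt : Prop :=
  ∀ {b al : ℝ}, 0 < b → b < 2 → 0 < al → al ≤ √(b / 2) →
    ∃ ν : Measure ℝ, IsProbabilityMeasure ν ∧ ν (Icc (0:ℝ) 2)ᶜ = 0 ∧ ν {2} = 0 ∧
      (∀ x, x ≠ 0 → Integrable (fun s => log |x - s|) ν) ∧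
      (∀ x, x < b → x ≠ 0 → ∫ s, log |x - s| ∂ν =
        gI b 2 x - al * g0 b 2 x + (al * gI b 2 0 - log (4 / (2 - b)))) ∧
      (∀ x ∈ Icc b 2, ∫ s, log |x - s| ∂ν = al * gI b 2 0 - log (4 / (2 - b)))

theorem Adm.g_pos {g a c : ℝ} (h : Adm g a c) : 0 < g := h.1.trans h.2.1

theorem log_R {g : ℝ} (hg : 0 < g) :
    log (4 / (2 - 2 * tanh g ^ 2)) = mass g * (2 * g) := by
  rw [R_eq two_pos, mass]
  have : (4 * cosh g ^ 2 / 2) = 2 * cosh g ^ 2 := by ring
  rw [this]
  field_simp

theorem star_pos {g a c x : ℝ} (h : Adm g a c) (hx : x < 2 * tanh g ^ 2)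
    (hout : x < X 2 g c ∨ X 2 g a < x) :
    0 < gI (2 * tanh g ^ 2) 2 x - mass g * g0 (2 * tanh g ^ 2) 2 x := by
  obtain ⟨ha, hag, hgc, hm, hra, hrc⟩ := h
  have hg : 0 < g := ha.trans hag
  have hT : 0 < tanh g := tanh_pos hg
  have hal := mass_pos hg
  have hal1 : mass g < 1 := hm.trans (tanh_lt_one g)
  obtain ⟨y, hy, rfl⟩ := exists_y two_pos hx
  rw [phi_eq two_pos hg hy.le]
  rcases hout with h | h
  · have hcy : c < y := by
      by_contra hcon
      push Not at hcon
      have := X_anti' (g := g) two_pos hy.le hcon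
      linarith
    rw [phi_pos_right hal hT (tanh_lt_tanh.2 (hgc.trans hcy))]
    exact (right_table hal (hg.trans hgc) hrc hy).2 hcy
  · have hya : y < a := by
      by_contra hcon
      push Not at hcon
      have := X_anti' (g := g) two_pos ha.le hcon
      linarith
    rw [phi_pos_left hal hy (tanh_lt_tanh.2 (hya.trans hag))]
    exact (left_table hal hal1 hT ha hra hy).1 hya

theorem val_eq (g a c : ℝ) : val g a c = X 2 g a - X 2 g c := by
  unfold val X
  ring

theorem upper_aux (hM : MeasStmt) {g a c : ℝ} (h : Adm g a c) {ε : ℝ≥0∞} (hε : 0 < ε) :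
    ∃ n, 0 < n ∧ ∃ r : Fin n → ℝ, (∀ i, r i ∈ Icc (0:ℝ) 2) ∧
      volume (E r) ≤ ENNReal.ofReal (val g a c) + ε := by
  have hg : 0 < g := h.g_pos
  have hT : 0 < tanh g := tanh_pos hg
  have hT1 : tanh g < 1 := tanh_lt_one g
  have hal := mass_pos hg
  have hmT : mass g < tanh g := h.2.2.2.1
  set b := 2 * tanh g ^ 2 with hb
  have hb0 : 0 < b := by positivity
  have hb2 : b < 2 := by nlinarith
  have hsb : √(b / 2) = tanh g := by
    rw [hb, mul_div_cancel_left₀ _ (two_ne_zero), sqrt_sq hT.le]
  -- approximating masses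
  set al : ℕ → ℝ := fun k => mass g + (tanh g - mass g) / (k + 1) with hald
  have hak : ∀ k, mass g < al k := fun k => by
    have : 0 < (tanh g - mass g) / (k + 1) := div_pos (by linarith) (by positivity)
    simp only [hald]; linarith
  have hak2 : ∀ k, al k ≤ tanh g := fun k => by
    have : (tanh g - mass g) / (k + 1) ≤ tanh g - mass g :=
      div_le_self (by linarith) (by
        have : (0:ℝ) ≤ k := Nat.cast_nonneg k
        linarith)
    simp only [hald]; linarith
  have halim : Tendsto al atTop (𝓝 (mass g)) := by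
    have h1 : Tendsto (fun k : ℕ => (tanh g - mass g) / ((k : ℝ) + 1)) atTop (𝓝 0) := by
      have := (tendsto_one_div_add_atTop_nhds_zero_nat (𝕜 := ℝ)).const_mul (tanh g - mass g)
      simpa [div_eq_mul_inv] using this
    simpa [hald] using h1.const_add (mass g)
  set U : ℝ → ℝ → ℝ := fun t x => gI b 2 x - t * g0 b 2 x + (t - mass g) * (2 * g) with hU
  set S : ℕ → Set ℝ := fun k => {x | x < b ∧ U (al k) x ≤ 0} with hS
  have hSm : ∀ k, MeasurableSet (S k) := by
    intro k
    have m1 : Measurable (fun x => gI b 2 x) := by unfold gI; fun_prop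
    have m2 : Measurable (fun x => g0 b 2 x) := by
      unfold g0
      refine measurable_log.comp (continuous_abs.measurable.comp ?_)
      fun_prop
    have m3 : Measurable (fun x => U (al k) x) := (m1.sub (m2.const_mul _)).add measurable_const
    have hs2 : MeasurableSet {x | U (al k) x ≤ 0} := measurableSet_le m3 measurable_const
    exact (measurableSet_lt measurable_id measurable_const).inter hs2
  -- dominated convergence
  set F : ℕ → Set ℝ := fun k => (Icc (-1:ℝ) 3 \ Icc (X 2 g c) (X 2 g a)) ∩ S k with hF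
  have hFm : ∀ k, MeasurableSet (F k) := fun k =>
    (measurableSet_Icc.diff measurableSet_Icc).inter (hSm k)
  have hlim : Tendsto (fun n => ∫⁻ x, (F n).indicator (fun _ => (1:ℝ≥0∞)) x) atTop
      (𝓝 (∫⁻ _x : ℝ, (0:ℝ≥0∞))) := by
    refine tendsto_lintegral_of_dominated_convergence
      ((Icc (-1:ℝ) 3).indicator fun _ => (1:ℝ≥0∞)) ?_ ?_ ?_ ?_
    · intro n
      exact measurable_const.indicator (hFm n)
    · intro n
      refine Eventually.of_forall fun x => ?_
      refine indicator_le_indicator_of_subset ?_ (fun _ => zero_le) x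
      exact fun y hy => hy.1.1
    · rw [lintegral_indicator measurableSet_Icc]
      simp
    · refine Eventually.of_forall fun x => ?_
      by_cases hI : x ∈ Icc (-1:ℝ) 3 \ Icc (X 2 g c) (X 2 g a)
      · by_cases hxb : x < b
        · have hout : x < X 2 g c ∨ X 2 g a < x := by
            by_contra hcon
            push Not at hcon
            exact hI.2 hcon
          have hpos := star_pos h hxb hout
          have hcont : Tendsto (fun k => U (al k) x) atTop (𝓝 (U (mass g) x)) := by
            have : Continuous fun t => U t x := by simp only [hU]; fun_prop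
            exact (this.tendsto _).comp halim
          have hp2 : 0 < U (mass g) x := by
            simp only [hU, sub_self, zero_mul, add_zero]; exact hpos
          refine tendsto_const_nhds.congr' ?_
          filter_upwards [hcont.eventually (lt_mem_nhds hp2)] with n hn
          show (0:ℝ≥0∞) = (F n).indicator (fun _ => 1) x
          rw [indicator_of_notMem]
          intro hh
          exact absurd hh.2.2 (not_le.2 hn)
        · refine tendsto_const_nhds.congr' ?_
          refine Eventually.of_forall fun n => ?_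
          show (0:ℝ≥0∞) = (F n).indicator (fun _ => 1) x
          rw [indicator_of_notMem]
          intro hh
          exact hxb hh.2.1
      · refine tendsto_const_nhds.congr' ?_
        refine Eventually.of_forall fun n => ?_
        show (0:ℝ≥0∞) = (F n).indicator (fun _ => 1) x
        rw [indicator_of_notMem]
        intro hh
        exact hI hh.1
  simp only [lintegral_const, zero_mul] at hlim
  have hlim2 : Tendsto (fun n => volume (F n)) atTop (𝓝 0) := by
    refine hlim.congr fun n => ?_
    rw [lintegral_indicator (hFm n)]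
    simp
  have hε2 : 0 < ε / 2 := ENNReal.div_pos hε.ne' (by simp)
  obtain ⟨k, hk⟩ := (hlim2.eventually (gt_mem_nhds hε2)).exists
  obtain ⟨ν, hν1, hν2, hν3, hν4, hν5, hν6⟩ := hM hb0 hb2 (hal.trans (hak k))
    (by rw [hsb]; exact hak2 k)
  have hgI0 : gI b 2 0 = 2 * g := gI_zero two_pos hg
  have hR : log (4 / (2 - b)) = mass g * (2 * g) := log_R hg
  have hηpos : 0 < al k * (2 * g) - mass g * (2 * g) := by
    have := hak k
    nlinarith
  have hpos : ∀ᵐ x ∂(volume : Measure ℝ), x ∈ Icc (-1:ℝ) 3 → x ∉ S k →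
      Integrable (fun s => Real.log |x - s|) ν ∧ 0 < ∫ s, Real.log |x - s| ∂ν := by
    have h0 : ∀ᵐ x ∂(volume : Measure ℝ), x ≠ 0 := by
      rw [ae_iff]; simp
    filter_upwards [h0] with x hx0 hxI hxS
    refine ⟨hν4 x hx0, ?_⟩
    rcases lt_or_ge x b with hxb | hxb
    · rw [hν5 x hxb hx0, hgI0, hR]
      have : ¬ (U (al k) x ≤ 0) := fun hh => hxS ⟨hxb, hh⟩
      push Not at this
      simp only [hU] at this
      linarith
    · rcases le_or_gt x 2 with hx2 | hx2
      · rw [hν6 x ⟨hxb, hx2⟩, hgI0, hR]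
        exact hηpos
      · have h2 : ∫ s, log |2 - s| ∂ν = al k * gI b 2 0 - log (4 / (2 - b)) :=
          hν6 2 ⟨hb2.le, le_rfl⟩
        rw [hgI0, hR] at h2
        have h3 : ∫ s, log |2 - s| ∂ν ≤ ∫ s, log |x - s| ∂ν := by
          refine integral_mono_ae (hν4 2 (by norm_num)) (hν4 x hx0) ?_
          have e1 : ∀ᵐ s ∂ν, s ∈ Icc (0:ℝ) 2 := by
            rw [ae_iff]; exact hν2
          have e2 : ∀ᵐ s ∂ν, s ≠ 2 := by
            rw [ae_iff]; simpa using hν3
          filter_upwards [e1, e2] with s hs1 hs2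
          have : s < 2 := lt_of_le_of_ne hs1.2 hs2
          rw [abs_of_pos (by linarith), abs_of_pos (by linarith)]
          exact log_le_log (by linarith) (by linarith)
        linarith
  obtain ⟨n, hn, r, hr, hvol⟩ := exists_roots_of_measure ν hν2 (S k) (hSm k) hpos hε2
  refine ⟨n, hn, r, hr, hvol.trans ?_⟩
  have hsub : S k ∩ Icc (-1) 3 ⊆ Icc (X 2 g c) (X 2 g a) ∪ F k := by
    intro x hx
    by_cases hxI : x ∈ Icc (X 2 g c) (X 2 g a)
    · exact Or.inl hxI
    · exact Or.inr ⟨⟨hx.2, hxI⟩, hx.1⟩
  calc volume (S k ∩ Icc (-1) 3) + ε / 2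
      ≤ volume (Icc (X 2 g c) (X 2 g a) ∪ F k) + ε / 2 := by gcongr
    _ ≤ volume (Icc (X 2 g c) (X 2 g a)) + volume (F k) + ε / 2 := by
        gcongr; exact measure_union_le _ _
    _ ≤ ENNReal.ofReal (val g a c) + ε / 2 + ε / 2 := by
        rw [Real.volume_Icc, ← val_eq]
        gcongr
    _ = ENNReal.ofReal (val g a c) + ε := by
        rw [add_assoc, ENNReal.add_halves]

end Pool.Agent.MP28e671
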