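import Mathlib
import Pool.Agent.MP28e671.Upper
import Pool.Agent.MP28e671.Cmin

set_option autoImplicit false

open Real Set MeasureTheory Filter
open scoped ENNReal Topology

namespace Pool.Agent.MP28e671

/-- comparison theorem (helper405, Comparison.lean) -/
def CompStmt : Prop :=
  ∀ {al d B : ℝ} {N : ℕ} (m u v : Fin N → ℝ), 0 < al → al < 1 → 0 < d → d < B →
    (∀ j, 0 ≤ m j) → ∑ j, m j = 1 - al → (∀ j, d ≤ u j) → (∀ j, u j < v j) → (∀ j, v j ≤ B) →
    (∀ x ∈ Icc d B, 0 ≤ al * log |x| + ∑ j, m j * G (u j) (v j) x) →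
    0 ≤ al * gI d B 0 - log (4 / (B - d)) ∧
    ∀ b x, d ≤ b → b < B → x ≤ d → x < b → x ≠ 0 →
      al * log |x| + ∑ j, m j * G (u j) (v j) x ≤
        gI b B x - al * g0 b B x + √((B - x) / (b - x)) * (al * gI b B 0 - log (4 / (B - b)))

/-- root choice (helper405, Comparison.lean) -/
def RootStmt : Prop :=
  ∀ {al d B : ℝ}, 0 < al → al < 1 → 0 < d → d < B → 0 ≤ al * gI d B 0 - log (4 / (B - d)) →
    ∃ b, d ≤ b ∧ b < B ∧ al * gI b B 0 = log (4 / (B - b)) ∧ al ≤ √(b / B)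

/-- the calculus theorem (helper785, Calc.lean) -/
def CalcStmt : Prop :=
  ∀ {al b B c d : ℝ}, 2 ≤ B → 1 / 2 ≤ al → al < 1 → 0 < b → b < B →
    al * gI b B 0 = log (4 / (B - b)) → al ≤ √(b / B) → c < 0 → 1 ≤ d → d ≤ b →
    0 ≤ gI b B c - al * g0 b B c → 0 ≤ gI b B d - al * g0 b B d →
    1 ≤ |c| ^ al * (2 + |c|) ^ (1 - al) → muStar ≤ (d - c) + 2 / 3 * (B - 2)

theorem gI_self {b B : ℝ} (hb : b < B) : gI b B b = 0 := by
  unfold gI
  have : 0 < √(B - b) := sqrt_pos.2 (by linarith)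
  rw [sub_self, sqrt_zero, add_zero, div_self this.ne', log_one, mul_zero]

theorem g0_self {b B : ℝ} (hb0 : 0 < b) (hb : b < B) : g0 b B b = 0 := by
  unfold g0
  have h1 : 0 < √(B - b) := sqrt_pos.2 (by linarith)
  have h2 : 0 < √b := sqrt_pos.2 hb0
  rw [sub_self, sqrt_zero, zero_mul, add_zero, sub_zero, div_self (mul_pos h1 h2).ne', abs_one,
    log_one]

theorem lower_aux (h1 : CompStmt) (h2 : RootStmt) (h3 : CalcStmt) (h4 : muStar ≤ 2)
    {n : ℕ} (hn : 0 < n) (a : Fin n → ℝ) (ha : ∀ i, a i ∈ Icc (0:ℝ) 2) :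
    ENNReal.ofReal muStar ≤ volume (E a) := by
  obtain ⟨r, hr, hvol, hcase⟩ := case_reduction hn a ha
  refine le_trans ?_ hvol
  rcases hcase with h | hG
  · refine le_trans ?_ h
    rw [show (2:ℝ≥0∞) = ENNReal.ofReal 2 by simp]
    exact ENNReal.ofReal_le_ofReal h4
  · obtain ⟨c, d, δ, B, hc, hd, hδ, hB, hBδ, hdB, hPc, hPd, hw, hw1, -, -, hE, N, m, u, v, hm, hms,
      hu, huv, hv, hUc, hUd, hU⟩ := surgery hn hr hG
    have hcm := cmin_bound hn hr hc hPc
    refine le_trans (ENNReal.ofReal_le_ofReal ?_) hE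
    have hal : 0 < wgt r 0 := by linarith
    have hd0 : 0 < d := by linarith
    obtain ⟨hI, hII⟩ := h1 m u v hal hw1 hd0 hdB hm hms hu huv hv hU
    obtain ⟨b, hdb, hbB, hroot, hadm⟩ := h2 hal hw1 hd0 hdB hI
    have hb0 : 0 < b := by linarith
    have hzero : wgt r 0 * gI b B 0 - log (4 / (B - b)) = 0 := by linarith
    have hc1 : 0 ≤ gI b B c - wgt r 0 * g0 b B c := by
      have := hII b c hdb hbB (by linarith) (by linarith) hc.ne
      rw [hzero, mul_zero, add_zero] at this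
      linarith
    have hd1 : 0 ≤ gI b B d - wgt r 0 * g0 b B d := by
      rcases hdb.eq_or_lt with h | h
      · rw [← h, gI_self hdB, g0_self hd0 hdB]; simp
      · have := hII b d hdb hbB le_rfl h hd0.ne'
        rw [hzero, mul_zero, add_zero] at this
        linarith
    have := h3 hB hw hw1 hb0 hbB hroot hadm hc hd hdb hc1 hd1 hcm
    linarith

/-! ### The final statement -/

/-- The measures of the sets `{|f| < 1}`, `f = ∏ (x - a i)` monic of degree `n ≥ 1` with all roots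
in `[-1, 1]`. -/
def measures : Set ℝ :=
  {y | ∃ n : ℕ, 1 ≤ n ∧ ∃ a : Fin n → ℝ, (∀ i, a i ∈ Icc (-1:ℝ) 1) ∧
    y = (volume {x : ℝ | |∏ i, (x - a i)| < 1}).toReal}

theorem vol_shift {n : ℕ} (a : Fin n → ℝ) :
    volume {x : ℝ | |∏ i, (x - a i)| < 1} = volume (E fun i => a i + 1) := by
  rw [vol_translate a 1]
  congr 1
  ext x
  simp only [E, P, mem_ofPred_eq, Finset.abs_prod]

theorem E_subset {n : ℕ} {a : Fin n → ℝ} (ha : ∀ i, a i ∈ Icc (0:ℝ) 2) : E a ⊆ Icc (-1) 3 := by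
  intro x hx
  have hx' : P a x < 1 := hx
  by_contra hcon
  have h : x ≤ -1 ∨ 3 ≤ x := by
    by_contra h
    push Not at h
    exact hcon ⟨h.1.le, h.2.le⟩
  have := P_large ha h
  linarith

theorem vol_E_lt_top {n : ℕ} {a : Fin n → ℝ} (ha : ∀ i, a i ∈ Icc (0:ℝ) 2) :
    volume (E a) ≠ ∞ := by
  have := measure_mono (μ := volume) (E_subset ha)
  rw [Real.volume_Icc] at this
  exact ne_top_of_le_ne_top ENNReal.ofReal_ne_top this

theorem val_pos {g a c : ℝ} (h : Adm g a c) : 0 < val g a c := by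
  unfold val
  have h1 : cosh a < cosh c := by
    have := h.1
    have h2 := h.2.1
    have h3 := h.2.2.1
    rw [cosh_lt_cosh, abs_of_pos this, abs_of_pos (by linarith)]
    linarith
  have h0 := cosh_pos a
  have h3 := cosh_pos g
  have h4 : 0 < cosh c ^ 2 - cosh a ^ 2 := by nlinarith
  positivity

theorem vals_bdd : BddBelow vals := ⟨0, by
  rintro y ⟨g, a, c, h, rfl⟩
  exact (val_pos h).le⟩

theorem main_aux (hM : MeasStmt) (h1 : CompStmt) (h2 : RootStmt) (h3 : CalcStmt)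
    (hne : vals.Nonempty) (h4 : muStar ≤ 2) : sInf measures = muStar := by
  have hmne : measures.Nonempty := ⟨_, 1, le_rfl, fun _ => 0, fun _ => by constructor <;> norm_num,
    rfl⟩
  have hshift : ∀ {n : ℕ} {a : Fin n → ℝ}, (∀ i, a i ∈ Icc (-1:ℝ) 1) →
      ∀ i, a i + 1 ∈ Icc (0:ℝ) 2 := by
    intro n a ha i
    have := ha i
    simp only [mem_Icc] at this ⊢
    constructor <;> linarith
  have hbdd : BddBelow measures := ⟨0, by
    rintro y ⟨n, hn, a, ha, rfl⟩
    exact ENNReal.toReal_nonneg⟩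
  apply le_antisymm
  · refine le_csInf hne ?_
    rintro y ⟨g, a, c, h, rfl⟩
    refine le_of_forall_pos_le_add fun ε hε => ?_
    obtain ⟨n, hn, r, hr, hvol⟩ := upper_aux hM h (ε := ENNReal.ofReal ε) (by simpa using hε)
    have hmem : (volume (E r)).toReal ∈ measures := by
      refine ⟨n, hn, fun i => r i - 1, fun i => ?_, ?_⟩
      · have := hr i
        simp only [mem_Icc] at this ⊢
        constructor <;> linarith
      · rw [vol_shift]
        simp
    refine (csInf_le hbdd hmem).trans ?_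
    rw [← ENNReal.ofReal_add (val_pos h).le hε.le] at hvol
    exact ENNReal.toReal_le_of_le_ofReal (by have := val_pos h; positivity) hvol
  · refine le_csInf hmne ?_
    rintro y ⟨n, hn, a, ha, rfl⟩
    rw [vol_shift]
    have := lower_aux h1 h2 h3 h4 (by omega : 0 < n) (fun i => a i + 1) (hshift ha)
    exact (ENNReal.ofReal_le_iff_le_toReal (vol_E_lt_top (hshift ha))).1 this

end Pool.Agent.MP28e671
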