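import Mathlib
import Pool.Agent.MP28e671.Assembly

set_option autoImplicit false

open Real Set MeasureTheory Filter
open scoped ENNReal Topology

namespace Pool.Agent.MP28e671

theorem Adm.unique {g a c a' c' : ℝ} (h : Adm g a c) (h' : Adm g a' c') : a = a' ∧ c = c' := by
  have hg := h.g_pos
  have hT := tanh_pos hg
  have hal := mass_pos hg
  have hal1 : mass g < 1 := h.2.2.2.1.trans (tanh_lt_one g)
  obtain ⟨ha, hag, hgc, hm, hra, hrc⟩ := h
  obtain ⟨ha', hag', hgc', hm', hra', hrc'⟩ := h'
  constructor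
  · rcases lt_trichotomy a a' with h | h | h
    · have := (left_table hal hal1 hT ha' hra' ha).1 h
      linarith
    · exact h
    · have := (left_table hal hal1 hT ha hra ha').1 h
      linarith
  · rcases lt_trichotomy c c' with h | h | h
    · have := (right_table hal (hg.trans hgc') hrc' (hg.trans hgc)).1 h
      linarith
    · exact h
    · have := (right_table hal (hg.trans hgc) hrc (hg.trans hgc')).1 h
      linarith

theorem Adm.exists_of {g : ℝ} (hg : 0 < g) (h : mass g < tanh g) : ∃ a c, Adm g a c := by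
  have hal := mass_pos hg
  have hal1 : mass g < 1 := h.trans (tanh_lt_one g)
  obtain ⟨a, ha, hag, hra⟩ := exists_a hal hg h
  obtain ⟨c, hgc, hrc⟩ := exists_c hal hal1 hg
  exact ⟨a, c, ha, hag, hgc, h, hra, hrc⟩

theorem val_anti_a {g a a' c : ℝ} (ha : 0 ≤ a) (h : a < a') : val g a' c < val g a c := by
  unfold val
  have h1 : cosh a < cosh a' := by
    rw [cosh_lt_cosh, abs_of_nonneg ha, abs_of_pos (by linarith)]
    exact h
  have h0 := cosh_pos a
  have h3 := cosh_pos g
  apply div_lt_div_of_pos_right _ (by positivity)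
  nlinarith

theorem mass_continuousOn : ContinuousOn mass (Ioi 0) := by
  unfold mass
  refine ContinuousOn.div ?_ (by fun_prop) ?_
  · refine ContinuousOn.log (by fun_prop) ?_
    intro x _
    have := cosh_pos x
    positivity
  · intro x hx
    have : 0 < x := hx
    positivity

/-- The minimum is attained. -/
theorem attained {g1 g2 m0 : ℝ} (h0 : 0 < g1) (h12 : g1 ≤ g2)
    (hm : ∀ g ∈ Icc g1 g2, mass g < tanh g) (hm0 : muStar < m0)
    (hout : ∀ g a c, Adm g a c → (g < g1 ∨ g2 < g) → m0 ≤ val g a c) :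
    ∃ g a c, g ∈ Icc g1 g2 ∧ Adm g a c ∧ muStar = val g a c := by
  set C := artanh √(tanh g2) with hC
  set Box : Set (ℝ × ℝ × ℝ) := Icc g1 g2 ×ˢ (Icc 0 g2 ×ˢ Icc g1 C) with hBox
  have hBoxc : IsCompact Box := isCompact_Icc.prod (isCompact_Icc.prod isCompact_Icc)
  -- continuity of mass on the box
  have hmc : ContinuousOn (fun p : ℝ × ℝ × ℝ => mass p.1) Box := by
    refine mass_continuousOn.comp continuousOn_fst ?_
    rintro p hp
    exact lt_of_lt_of_le h0 hp.1.1
  have hmp : ∀ p ∈ Box, mass p.1 ≠ 0 := fun p hp =>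
    (mass_pos (lt_of_lt_of_le h0 hp.1.1)).ne'
  have htc := tanh_continuous
  set f1 : ℝ × ℝ × ℝ → ℝ := fun p => tanh p.1 * tanh (p.2.1 / mass p.1) - tanh p.2.1 with hf1
  set f2 : ℝ × ℝ × ℝ → ℝ := fun p => tanh p.2.2 * tanh (p.2.2 / mass p.1) - tanh p.1 with hf2
  have hf1c : ContinuousOn f1 Box := by
    refine ContinuousOn.sub (ContinuousOn.mul (by fun_prop) ?_) (by fun_prop)
    exact htc.comp_continuousOn (ContinuousOn.div (by fun_prop) hmc hmp)
  have hf2c : ContinuousOn f2 Box := by
    refine ContinuousOn.sub (ContinuousOn.mul (by fun_prop) ?_) (by fun_prop)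
    exact htc.comp_continuousOn (ContinuousOn.div (by fun_prop) hmc hmp)
  set K : Set (ℝ × ℝ × ℝ) := (Box ∩ f1 ⁻¹' {0}) ∩ (Box ∩ f2 ⁻¹' {0}) with hK
  have hKc : IsCompact K := by
    have c1 : IsClosed (Box ∩ f1 ⁻¹' {0}) :=
      hf1c.preimage_isClosed_of_isClosed hBoxc.isClosed isClosed_singleton
    have c2 : IsClosed (Box ∩ f2 ⁻¹' {0}) :=
      hf2c.preimage_isClosed_of_isClosed hBoxc.isClosed isClosed_singleton
    exact hBoxc.of_isClosed_subset (c1.inter c2) fun p hp => hp.1.1
  have hAK : ∀ {g a c}, g ∈ Icc g1 g2 → Adm g a c → (g, a, c) ∈ K := by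
    intro g a c hg h
    obtain ⟨ha, hag, hgc, hmg, hra, hrc⟩ := h
    have hg0 : 0 < g := ha.trans hag
    have hal := mass_pos hg0
    have hal1 : mass g < 1 := hmg.trans (tanh_lt_one g)
    have hcC : c ≤ C := by
      have hc0 : 0 < c := hg0.trans hgc
      have h1 : tanh c * tanh c ≤ tanh g2 := by
        have h2 : tanh c ≤ tanh (c / mass g) := tanh_strictMono.monotone (by
          rw [le_div_iff₀ hal]; nlinarith)
        have h3 : tanh c * tanh c ≤ tanh c * tanh (c / mass g) :=
          mul_le_mul_of_nonneg_left h2 (tanh_pos hc0).le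
        have h4 : tanh g ≤ tanh g2 := tanh_strictMono.monotone hg.2
        linarith
      have h2 : tanh c ≤ √(tanh g2) := by
        apply le_sqrt_of_sq_le
        rw [sq]; exact h1
      have h5 : √(tanh g2) < 1 := by
        rw [sqrt_lt' one_pos]
        have := tanh_lt_one g2
        linarith
      have := artanh_le_artanh (neg_one_lt_tanh c) h5 h2
      rwa [artanh_tanh] at this
    have hbox : (g, a, c) ∈ Box := by
      refine ⟨hg, ⟨ha.le, ?_⟩, ⟨?_, hcC⟩⟩
      · exact hag.le.trans hg.2
      · exact hg.1.trans hgc.le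
    refine ⟨⟨hbox, ?_⟩, ⟨hbox, ?_⟩⟩
    · simp only [mem_preimage, hf1, mem_singleton_iff]; linarith
    · simp only [mem_preimage, hf2, mem_singleton_iff]; linarith
  have hKne : K.Nonempty := by
    obtain ⟨a, c, h⟩ := Adm.exists_of h0 (hm g1 ⟨le_rfl, h12⟩)
    exact ⟨_, hAK ⟨le_rfl, h12⟩ h⟩
  have hvc : ContinuousOn (fun p : ℝ × ℝ × ℝ => val p.1 p.2.1 p.2.2) K := by
    have : Continuous (fun p : ℝ × ℝ × ℝ => val p.1 p.2.1 p.2.2) := by
      unfold val
      refine Continuous.div (by fun_prop) (by fun_prop) ?_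
      intro p
      have := cosh_pos p.1
      positivity
    exact this.continuousOn
  obtain ⟨⟨g, a, c⟩, hp, hmin⟩ := hKc.exists_isMinOn hKne hvc
  have hg : g ∈ Icc g1 g2 := hp.1.1.1
  have hg0 : 0 < g := h0.trans_le hg.1
  obtain ⟨a', c', hadm⟩ := Adm.exists_of hg0 (hm g hg)
  have hal := mass_pos hg0
  have hT := tanh_pos hg0
  have hal1 : mass g < 1 := (hm g hg).trans (tanh_lt_one g)
  have ha0 : 0 ≤ a := hp.1.1.2.1.1
  have hc0 : 0 < c := h0.trans_le hp.1.1.2.2.1
  have e1 : f1 (g, a, c) = 0 := hp.1.2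
  have e2 : f2 (g, a, c) = 0 := hp.2.2
  simp only [hf1, hf2] at e1 e2
  obtain ⟨ha', hag', hgc', hmg', hra', hrc'⟩ := hadm
  have hc : c = c' := by
    rcases lt_trichotomy c c' with h | h | h
    · have := (right_table hal (hg0.trans hgc') hrc' hc0).1 h
      linarith
    · exact h
    · have := (right_table hal (hg0.trans hgc') hrc' hc0).2 h
      linarith
  have ha : a = a' := by
    rcases ha0.eq_or_lt with h | h
    · exfalso
      have h2 : (g, a', c') ∈ K := hAK hg ⟨ha', hag', hgc', hmg', hra', hrc'⟩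
      have h3 := hmin h2
      simp only [mem_ofPred_eq] at h3
      rw [← h, hc] at h3
      have := val_anti_a (g := g) (c := c') le_rfl ha'
      linarith
    · rcases lt_trichotomy a a' with h' | h' | h'
      · have := (left_table hal hal1 hT ha' hra' h).1 h'
        linarith
      · exact h'
      · have := (left_table hal hal1 hT ha' hra' h).2 h'
        linarith
  subst hc
  subst ha
  refine ⟨g, a, c, hg, ⟨ha', hag', hgc', hmg', hra', hrc'⟩, ?_⟩
  have hadm : Adm g a c := ⟨ha', hag', hgc', hmg', hra', hrc'⟩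
  have hle : muStar ≤ val g a c := csInf_le vals_bdd ⟨g, a, c, hadm, rfl⟩
  apply le_antisymm hle
  -- every value is either bigger than muStar strictly outside, or at least the minimum
  by_contra hcon
  push Not at hcon
  obtain ⟨y, ⟨g', a', c', h', rfl⟩, hy⟩ :=
    exists_lt_of_csInf_lt (s := vals) ⟨_, g, a, c, hadm, rfl⟩ (lt_min hcon hm0)
  by_cases hg' : g' ∈ Icc g1 g2
  · have := hmin (hAK hg' h')
    simp only [mem_ofPred_eq] at this
    have := (lt_min_iff.1 hy).1
    linarith
  · have h1 : g' < g1 ∨ g2 < g' := by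
      by_contra hc
      push Not at hc
      exact hg' hc
    have := hout g' a' c' h' h1
    have := (lt_min_iff.1 hy).2
    linarith

end Pool.Agent.MP28e671
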