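import Mathlib
import Pool.Agent.MP28e671.Attained

set_option autoImplicit false

open Real Set MeasureTheory Filter
open scoped ENNReal Topology

namespace Pool.Agent.MP28e671

/-- The function whose values at the two roots agree at the minimum. -/
noncomputable def Psi (g y : ℝ) : ℝ :=
  (cosh g ^ 2 - cosh y ^ 2) * (cosh y ^ 2 - y * sinh y * cosh y / (mass g * g)) /
    (cosh y ^ 2 - cosh g ^ 2 + mass g * sinh g * cosh g)

theorem tanh_add_sub (g y : ℝ) :
    tanh g + tanh y = sinh (g + y) / (cosh g * cosh y) ∧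
      tanh g - tanh y = sinh (g - y) / (cosh g * cosh y) := by
  have h1 := cosh_pos g
  have h2 := cosh_pos y
  constructor
  · rw [tanh_eq_sinh_div_cosh, tanh_eq_sinh_div_cosh, sinh_add]
    field_simp
  · rw [tanh_eq_sinh_div_cosh, tanh_eq_sinh_div_cosh, sinh_sub]
    field_simp

theorem phi_left_log {al g y : ℝ} (hy : 0 < y) (hyg : y < g) :
    phi al (tanh g) y = 2 * y - al * (log (sinh (g + y)) - log (sinh (g - y))) := by
  obtain ⟨h1, h2⟩ := tanh_add_sub g y
  have p1 : 0 < sinh (g + y) := sinh_pos_iff.2 (by linarith)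
  have p2 : 0 < sinh (g - y) := sinh_pos_iff.2 (by linarith)
  have h3 := cosh_pos g
  have h4 := cosh_pos y
  unfold phi
  rw [h1, h2, div_div_div_cancel_right₀ (by positivity), abs_of_pos (by positivity),
    log_div p1.ne' p2.ne']

theorem phi_right_log {al g y : ℝ} (hg : 0 < g) (hyg : g < y) :
    phi al (tanh g) y = 2 * y - al * (log (sinh (y + g)) - log (sinh (y - g))) := by
  obtain ⟨h1, h2⟩ := tanh_add_sub g y
  have p1 : 0 < sinh (y + g) := sinh_pos_iff.2 (by linarith)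
  have p2 : 0 < sinh (y - g) := sinh_pos_iff.2 (by linarith)
  have h3 := cosh_pos g
  have h4 := cosh_pos y
  unfold phi
  rw [h1, h2, div_div_div_cancel_right₀ (by positivity), add_comm g y,
    show g - y = -(y - g) by ring, sinh_neg, abs_div, abs_neg, abs_of_pos p1, abs_of_pos p2,
    log_div p1.ne' p2.ne']

theorem phi_zero_left {al T y : ℝ} (hal : 0 < al) (hy : 0 < y) (hT : tanh y < T) :
    phi al T y = 0 ↔ tanh y = T * tanh (y / al) := by
  have h1 := phi_pos_left hal hy hT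
  have h2 := phi_nonneg_left hal hy hT
  constructor
  · intro h
    have := h2.1 h.ge
    have h3 : ¬ (tanh y < T * tanh (y / al)) := fun h' => by
      have := h1.2 h'
      linarith
    linarith
  · intro h
    have := h2.2 h.le
    have h3 : ¬ (0 < phi al T y) := fun h' => by
      have := h1.1 h'
      linarith
    linarith

theorem phi_zero_right {al T y : ℝ} (hal : 0 < al) (hT0 : 0 < T) (hT : T < tanh y) :
    phi al T y = 0 ↔ tanh y * tanh (y / al) = T := by
  have h1 := phi_pos_right hal hT0 hT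
  have h2 := phi_nonneg_right hal hT0 hT
  constructor
  · intro h
    have := h2.1 h.ge
    have h3 : ¬ (T < tanh y * tanh (y / al)) := fun h' => by
      have := h1.2 h'
      linarith
    linarith
  · intro h
    have := h2.2 h.ge
    have h3 : ¬ (0 < phi al T y) := fun h' => by
      have := h1.1 h'
      linarith
    linarith

theorem adm_iff_log {g a c : ℝ} (ha : 0 < a) (hag : a < g) (hgc : g < c) (hm : mass g < tanh g) :
    Adm g a c ↔ 2 * a - mass g * (log (sinh (g + a)) - log (sinh (g - a))) = 0 ∧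
      2 * c - mass g * (log (sinh (c + g)) - log (sinh (c - g))) = 0 := by
  have hg : 0 < g := ha.trans hag
  have hal := mass_pos hg
  have hT := tanh_pos hg
  rw [← phi_left_log ha hag, ← phi_right_log hg hgc, phi_zero_left hal ha (tanh_lt_tanh.2 hag),
    phi_zero_right hal hT (tanh_lt_tanh.2 hgc)]
  unfold Adm
  tauto

theorem mass_hasDerivAt {g : ℝ} (hg : 0 < g) :
    HasDerivAt mass ((tanh g - mass g) / g) g := by
  have h1 : HasDerivAt (fun x : ℝ => 2 * cosh x ^ 2) (2 * (2 * cosh g ^ (2 - 1) * sinh g)) g := by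
    have := ((hasDerivAt_cosh g).pow 2).const_mul 2
    exact_mod_cast this
  have hpos : 2 * cosh g ^ 2 ≠ 0 := by
    have := cosh_pos g
    positivity
  have h2 := h1.log hpos
  have h3 : HasDerivAt (fun x : ℝ => 2 * x) (2 * 1) g := (hasDerivAt_id g).const_mul 2
  have h4 := h2.div h3 (by positivity)
  have h5 : HasDerivAt mass ((2 * (2 * cosh g ^ (2 - 1) * sinh g) / (2 * cosh g ^ 2) * (2 * g) -
    log (2 * cosh g ^ 2) * (2 * 1)) / (2 * g) ^ 2) g := h4
  convert h5 using 1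
  unfold mass
  rw [tanh_eq_sinh_div_cosh]
  have := cosh_pos g
  simp only [Nat.add_one_sub_one, pow_one]
  field_simp

/-- one-dimensional derivative of `log ∘ sinh` -/
theorem logsinh_hasDerivAt {f : ℝ → ℝ} {f' x : ℝ} (hf : HasDerivAt f f' x) (hx : 0 < f x) :
    HasDerivAt (fun t => log (sinh (f t))) (f' * cosh (f x) / sinh (f x)) x := by
  have h1 := (hasDerivAt_sinh (f x)).comp x hf
  have h2 := HasDerivAt.log h1 (sinh_pos_iff.2 hx).ne'
  convert h2 using 1
  simp only [Function.comp]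
  ring_nf
  rfl

/-- first constraint -/
noncomputable def e1 (p : ℝ × ℝ × ℝ) : ℝ :=
  2 * p.2.1 - mass p.1 * (log (sinh (p.1 + p.2.1)) - log (sinh (p.1 - p.2.1)))

/-- second constraint -/
noncomputable def e2 (p : ℝ × ℝ × ℝ) : ℝ :=
  2 * p.2.2 - mass p.1 * (log (sinh (p.2.2 + p.1)) - log (sinh (p.2.2 - p.1)))

/-- objective -/
noncomputable def e0 (p : ℝ × ℝ × ℝ) : ℝ :=
  2 * (cosh p.2.2 ^ 2 - cosh p.2.1 ^ 2) / cosh p.1 ^ 2

theorem mass_contDiffAt {g : ℝ} (hg : 0 < g) : ContDiffAt ℝ 1 mass g := by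
  unfold mass
  refine ContDiffAt.div ?_ (by fun_prop) (by positivity)
  refine ContDiffAt.log ?_ ?_
  · have := Real.contDiff_cosh (n := 1)
    fun_prop
  · have := cosh_pos g
    positivity

theorem e1_contDiffAt {g a c : ℝ} (hg : 0 < g) (ha : 0 < a) (hag : a < g) :
    ContDiffAt ℝ 1 e1 (g, a, c) := by
  unfold e1
  have hs := Real.contDiff_sinh (n := 1)
  have hm : ContDiffAt ℝ 1 (fun p : ℝ × ℝ × ℝ => mass p.1) (g, a, c) :=
    (mass_contDiffAt hg).comp (g, a, c) contDiffAt_fst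
  refine ContDiffAt.sub (by fun_prop) (hm.mul (ContDiffAt.sub ?_ ?_))
  · exact ContDiffAt.log (by fun_prop) (sinh_pos_iff.2 (by simpa using by linarith)).ne'
  · exact ContDiffAt.log (by fun_prop) (sinh_pos_iff.2 (by simpa using hag)).ne'

theorem e2_contDiffAt {g a c : ℝ} (hg : 0 < g) (hgc : g < c) :
    ContDiffAt ℝ 1 e2 (g, a, c) := by
  unfold e2
  have hs := Real.contDiff_sinh (n := 1)
  have hm : ContDiffAt ℝ 1 (fun p : ℝ × ℝ × ℝ => mass p.1) (g, a, c) :=
    (mass_contDiffAt hg).comp (g, a, c) contDiffAt_fst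
  refine ContDiffAt.sub (by fun_prop) (hm.mul (ContDiffAt.sub ?_ ?_))
  · exact ContDiffAt.log (by fun_prop) (sinh_pos_iff.2 (by simpa using by linarith)).ne'
  · exact ContDiffAt.log (by fun_prop) (sinh_pos_iff.2 (by simpa using hgc)).ne'

theorem e0_contDiffAt (p : ℝ × ℝ × ℝ) : ContDiffAt ℝ 1 e0 p := by
  unfold e0
  have hs := Real.contDiff_cosh (n := 1)
  refine ContDiffAt.div (by fun_prop) (by fun_prop) ?_
  have := cosh_pos p.1
  positivity


theorem sinh_mul_sinh (g y : ℝ) : sinh (g + y) * sinh (g - y) = cosh g ^ 2 - cosh y ^ 2 := by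
  rw [sinh_add, sinh_sub]
  have h1 := cosh_sq g
  have h2 := cosh_sq y
  have : (sinh g * cosh y + cosh g * sinh y) * (sinh g * cosh y - cosh g * sinh y) =
    sinh g ^ 2 * cosh y ^ 2 - cosh g ^ 2 * sinh y ^ 2 := by ring
  rw [this, h1, h2]
  ring

theorem coth_sum {g y : ℝ} (h1 : 0 < sinh (g + y)) (h2 : 0 < sinh (g - y)) :
    cosh (g + y) / sinh (g + y) + cosh (g - y) / sinh (g - y) =
      2 * sinh g * cosh g / (cosh g ^ 2 - cosh y ^ 2) := by
  rw [← sinh_mul_sinh, div_add_div _ _ h1.ne' h2.ne']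
  congr 1
  have := sinh_add (g + y) (g - y)
  rw [show g + y + (g - y) = 2 * g by ring, sinh_two_mul] at this
  linarith

theorem coth_diff {g y : ℝ} (h1 : 0 < sinh (g + y)) (h2 : 0 < sinh (g - y)) :
    cosh (g + y) / sinh (g + y) - cosh (g - y) / sinh (g - y) =
      -(2 * sinh y * cosh y) / (cosh g ^ 2 - cosh y ^ 2) := by
  rw [← sinh_mul_sinh, div_sub_div _ _ h1.ne' h2.ne']
  congr 1
  have := sinh_sub (g + y) (g - y)
  rw [show g + y - (g - y) = 2 * y by ring, sinh_two_mul] at this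
  linarith

theorem cosh_sq_lt {x y : ℝ} (hx : 0 ≤ x) (hxy : x < y) : cosh x ^ 2 < cosh y ^ 2 := by
  have h1 : cosh x < cosh y := by
    rw [cosh_lt_cosh, abs_of_nonneg hx, abs_of_pos (by linarith)]
    exact hxy
  have := cosh_pos x
  nlinarith

/-- transversality at the inner root -/
theorem trans_left {g a m : ℝ} (ha : 0 < a) (hag : a < g)
    (h : 2 * a - m * (log (sinh (g + a)) - log (sinh (g - a))) = 0) :
    cosh g ^ 2 - cosh a ^ 2 - m * sinh g * cosh g < 0 := by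
  have hder : ∀ y ∈ Icc 0 a, HasDerivAt
      (fun y => 2 * y - m * (log (sinh (g + y)) - log (sinh (g - y))))
      (2 - m * (2 * sinh g * cosh g / (cosh g ^ 2 - cosh y ^ 2))) y := by
    intro y hy
    have p1 : 0 < g + y := by linarith [hy.1]
    have p2 : 0 < g - y := by linarith [hy.2]
    have d1 : HasDerivAt (fun y : ℝ => g + y) 1 y := (hasDerivAt_id y).const_add g
    have d2 : HasDerivAt (fun y : ℝ => g - y) (-1) y := (hasDerivAt_id y).const_sub g
    have d3 := logsinh_hasDerivAt d1 p1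
    have d4 := logsinh_hasDerivAt d2 p2
    have d5 : HasDerivAt (fun y : ℝ => 2 * y) (2 * 1) y := (hasDerivAt_id y).const_mul 2
    have d6 : HasDerivAt (fun y => 2 * y - m * (log (sinh (g + y)) - log (sinh (g - y))))
      (2 * 1 - m * (1 * cosh (g + y) / sinh (g + y) - -1 * cosh (g - y) / sinh (g - y))) y :=
      d5.sub ((d3.sub d4).const_mul m)
    convert d6 using 1
    rw [← coth_sum (sinh_pos_iff.2 p1) (sinh_pos_iff.2 p2)]
    ring
  have hcont : ContinuousOn (fun y => 2 * y - m * (log (sinh (g + y)) - log (sinh (g - y))))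
      (Icc 0 a) := fun y hy => (hder y hy).continuousAt.continuousWithinAt
  obtain ⟨ξ, hξ, hξ0⟩ := exists_hasDerivAt_eq_zero ha hcont (by simp [h])
    (fun y hy => hder y ⟨hy.1.le, hy.2.le⟩)
  have hP : 0 < cosh g ^ 2 - cosh ξ ^ 2 := by
    have := cosh_sq_lt hξ.1.le (hξ.2.trans hag)
    linarith
  have h1 : cosh ξ ^ 2 < cosh a ^ 2 := cosh_sq_lt hξ.1.le hξ.2
  have h2 : m * (2 * sinh g * cosh g / (cosh g ^ 2 - cosh ξ ^ 2)) = 2 := by linarith
  have h3 : m * (2 * sinh g * cosh g) = 2 * (cosh g ^ 2 - cosh ξ ^ 2) := by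
    calc m * (2 * sinh g * cosh g) =
        m * (2 * sinh g * cosh g / (cosh g ^ 2 - cosh ξ ^ 2)) * (cosh g ^ 2 - cosh ξ ^ 2) := by
          rw [mul_assoc m, div_mul_cancel₀ _ hP.ne']
      _ = _ := by rw [h2]
  nlinarith

theorem algebra_a {C S A As m T a g : ℝ} (hC : C ^ 2 - S ^ 2 = 1) (hA : A ^ 2 - As ^ 2 = 1)
    (hT : T * C = S) (hD : C ^ 2 - A ^ 2 - m * S * C ≠ 0) :
    A * As * (m * A * As - (T - m) * a * (C ^ 2 - A ^ 2) / (m * g)) / (C ^ 2 - A ^ 2 - m * S * C) =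
      -T * A ^ 2 - (T - m) * ((C ^ 2 - A ^ 2) * (A ^ 2 - a * As * A / (m * g)) /
        (A ^ 2 - C ^ 2 + m * S * C)) := by
  have e : A ^ 2 - C ^ 2 + m * S * C = -(C ^ 2 - A ^ 2 - m * S * C) := by ring
  rw [e, div_neg, mul_neg, sub_neg_eq_add, div_eq_iff hD, add_mul,
    mul_assoc (T - m) (_ / _), div_mul_cancel₀ _ hD]
  have hS : S ^ 2 = T * (S * C) := by rw [← hT]; ring
  have hAs : As ^ 2 = A ^ 2 - 1 := by linarith
  have hS2 : C ^ 2 = 1 + T * (S * C) := by linarith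
  have key : m * A ^ 2 * As ^ 2 - (T - m) * (C ^ 2 - A ^ 2) * A ^ 2 =
      -T * A ^ 2 * (C ^ 2 - A ^ 2 - m * S * C) := by
    rw [hAs]
    have : m * A ^ 2 * (A ^ 2 - 1) - (T - m) * (C ^ 2 - A ^ 2) * A ^ 2 -
      (-T * A ^ 2 * (C ^ 2 - A ^ 2 - m * S * C)) = m * A ^ 2 * (C ^ 2 - 1 - T * (S * C)) := by ring
    have h2 : C ^ 2 - 1 - T * (S * C) = 0 := by linarith
    rw [h2, mul_zero] at this
    linarith
  have lhs : A * As * (m * A * As - (T - m) * a * (C ^ 2 - A ^ 2) / (m * g)) =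
      m * A ^ 2 * As ^ 2 - (T - m) * (C ^ 2 - A ^ 2) * (a * As * A / (m * g)) := by ring
  rw [lhs, ← key]
  ring

theorem algebra_c {C S K Ks m T c g : ℝ} (hC : C ^ 2 - S ^ 2 = 1) (hK : K ^ 2 - Ks ^ 2 = 1)
    (hT : T * C = S) (hD : K ^ 2 - C ^ 2 + m * S * C ≠ 0) :
    K * Ks * (m * K * Ks + (T - m) * c * (K ^ 2 - C ^ 2) / (m * g)) / (K ^ 2 - C ^ 2 + m * S * C) =
      T * K ^ 2 + (T - m) * ((C ^ 2 - K ^ 2) * (K ^ 2 - c * Ks * K / (m * g)) /
        (K ^ 2 - C ^ 2 + m * S * C)) := by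
  rw [div_eq_iff hD, add_mul, mul_assoc (T - m) (_ / _), div_mul_cancel₀ _ hD]
  have hS : S ^ 2 = T * (S * C) := by rw [← hT]; ring
  have hKs : Ks ^ 2 = K ^ 2 - 1 := by linarith
  have hS2 : C ^ 2 = 1 + T * (S * C) := by linarith
  have key : m * K ^ 2 * Ks ^ 2 + (T - m) * (K ^ 2 - C ^ 2) * K ^ 2 =
      T * K ^ 2 * (K ^ 2 - C ^ 2 + m * S * C) := by
    rw [hKs]
    have : m * K ^ 2 * (K ^ 2 - 1) + (T - m) * (K ^ 2 - C ^ 2) * K ^ 2 -
      (T * K ^ 2 * (K ^ 2 - C ^ 2 + m * S * C)) = m * K ^ 2 * (C ^ 2 - 1 - T * (S * C)) := by ring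
    have h2 : C ^ 2 - 1 - T * (S * C) = 0 := by linarith
    rw [h2, mul_zero] at this
    linarith
  have lhs : K * Ks * (m * K * Ks + (T - m) * c * (K ^ 2 - C ^ 2) / (m * g)) =
      m * K ^ 2 * Ks ^ 2 + (T - m) * (K ^ 2 - C ^ 2) * (c * Ks * K / (m * g)) := by ring
  rw [lhs, ← key]
  ring

/-- The stationarity equation at the minimum. -/
theorem stationary {g a c : ℝ} (h : Adm g a c)
    (hmin : ∀ g' a' c', Adm g' a' c' → val g a c ≤ val g' a' c') : Psi g a = Psi g c := by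
  have hg : 0 < g := h.g_pos
  have hadm := h
  obtain ⟨ha, hag, hgc, hmT, -, -⟩ := h
  have hm := mass_pos hg
  obtain ⟨E1, E2⟩ := (adm_iff_log ha hag hgc hmT).1 hadm
  set p : ℝ × ℝ × ℝ := (g, a, c) with hp
  have s1 : HasStrictFDerivAt e1 (fderiv ℝ e1 p) p :=
    (e1_contDiffAt hg ha hag).hasStrictFDerivAt one_ne_zero
  have s2 : HasStrictFDerivAt e2 (fderiv ℝ e2 p) p :=
    (e2_contDiffAt hg hgc).hasStrictFDerivAt one_ne_zero
  have s0 : HasStrictFDerivAt e0 (fderiv ℝ e0 p) p :=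
    (e0_contDiffAt p).hasStrictFDerivAt one_ne_zero
  have v1 : e1 p = 0 := E1
  have v2 : e2 p = 0 := E2
  have hext : IsLocalExtrOn e0 {x | ∀ i, (![e1, e2] : Fin 2 → ℝ × ℝ × ℝ → ℝ) i x =
      (![e1, e2] : Fin 2 → ℝ × ℝ × ℝ → ℝ) i p} p := by
    left
    have hc1 : ContinuousAt (fun q : ℝ × ℝ × ℝ => q.2.1) p := by fun_prop
    have hc2 : ContinuousAt (fun q : ℝ × ℝ × ℝ => q.1) p := by fun_prop
    have hc3 : ContinuousAt (fun q : ℝ × ℝ × ℝ => q.2.2) p := by fun_prop
    have hc4 : ContinuousAt (fun q : ℝ × ℝ × ℝ => mass q.1) p := by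
      have : ContinuousAt mass p.1 := (mass_contDiffAt hg).continuousAt
      exact this.comp hc2
    have hc5 : ContinuousAt (fun q : ℝ × ℝ × ℝ => tanh q.1) p := by
      have := tanh_continuous
      fun_prop
    have n1 : ∀ᶠ q in 𝓝 p, 0 < q.2.1 := hc1.eventually (lt_mem_nhds ha)
    have n2 : ∀ᶠ q : ℝ × ℝ × ℝ in 𝓝 p, q.2.1 < q.1 := hc1.eventually_lt hc2 hag
    have n3 : ∀ᶠ q : ℝ × ℝ × ℝ in 𝓝 p, q.1 < q.2.2 := hc2.eventually_lt hc3 hgc
    have n4 : ∀ᶠ q : ℝ × ℝ × ℝ in 𝓝 p, mass q.1 < tanh q.1 := hc4.eventually_lt hc5 hmT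
    have : ∀ᶠ q in 𝓝[{x | ∀ i, (![e1, e2] : Fin 2 → ℝ × ℝ × ℝ → ℝ) i x =
      (![e1, e2] : Fin 2 → ℝ × ℝ × ℝ → ℝ) i p}] p, e0 p ≤ e0 q := by
      filter_upwards [mem_nhdsWithin_of_mem_nhds n1, mem_nhdsWithin_of_mem_nhds n2,
        mem_nhdsWithin_of_mem_nhds n3, mem_nhdsWithin_of_mem_nhds n4, self_mem_nhdsWithin]
        with q q1 q2 q3 q4 q5
      have w1 : e1 q = 0 := by
        have := q5 0
        simpa [v1] using this
      have w2 : e2 q = 0 := by
        have := q5 1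
        simpa [v2] using this
      have hq : Adm q.1 q.2.1 q.2.2 := (adm_iff_log q1 q2 q3 q4).2 ⟨w1, w2⟩
      exact hmin _ _ _ hq
    exact this
  obtain ⟨Λ, Λ₀, hne, hsum⟩ := IsLocalExtrOn.exists_multipliers_of_hasStrictFDerivAt hext
    (f' := ![fderiv ℝ e1 p, fderiv ℝ e2 p]) (fun i => by
      fin_cases i
      · exact s1
      · exact s2) s0
  -- lines through `p`
  have lg : HasDerivAt (fun t : ℝ => ((t, a, c) : ℝ × ℝ × ℝ)) (1, 0, 0) g :=
    (hasDerivAt_id g).prodMk ((hasDerivAt_const g a).prodMk (hasDerivAt_const g c))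
  have la : HasDerivAt (fun t : ℝ => ((g, t, c) : ℝ × ℝ × ℝ)) (0, 1, 0) a :=
    (hasDerivAt_const a g).prodMk ((hasDerivAt_id a).prodMk (hasDerivAt_const a c))
  have lc : HasDerivAt (fun t : ℝ => ((g, a, t) : ℝ × ℝ × ℝ)) (0, 0, 1) c :=
    (hasDerivAt_const c g).prodMk ((hasDerivAt_const c a).prodMk (hasDerivAt_id c))
  -- abbreviations
  set m := mass g with hmdef
  set C := cosh g with hCdef
  set S := sinh g with hSdef
  set A := cosh a with hAdef
  set As := sinh a with hAsdef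
  set K := cosh c with hKdef
  set Ks := sinh c with hKsdef
  set T := tanh g with hTdef
  have hC0 : 0 < C := cosh_pos g
  have hA0 : 0 < A := cosh_pos a
  have hK0 : 0 < K := cosh_pos c
  have hS0 : 0 < S := sinh_pos_iff.2 hg
  have hTC : T * C = S := by
    rw [hTdef, tanh_eq_sinh_div_cosh, div_mul_cancel₀ _ hC0.ne']
  have hCS : C ^ 2 - S ^ 2 = 1 := by rw [hCdef, cosh_sq]; ring
  have hAA : A ^ 2 - As ^ 2 = 1 := by rw [hAdef, cosh_sq]; ring
  have hKK : K ^ 2 - Ks ^ 2 = 1 := by rw [hKdef, cosh_sq]; ring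
  have hP : 0 < C ^ 2 - A ^ 2 := by have := cosh_sq_lt ha.le hag; linarith
  have hQ : 0 < K ^ 2 - C ^ 2 := by have := cosh_sq_lt hg.le hgc; linarith
  have hDA : C ^ 2 - A ^ 2 - m * S * C < 0 := trans_left ha hag E1
  have hDC : 0 < K ^ 2 - C ^ 2 + m * S * C := by positivity
  have hl1 : log (sinh (g + a)) - log (sinh (g - a)) = 2 * a / m := by
    field_simp
    linarith
  have hl2 : log (sinh (c + g)) - log (sinh (c - g)) = 2 * c / m := by
    field_simp
    linarith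
  have pga : 0 < sinh (g + a) := sinh_pos_iff.2 (by linarith)
  have pga' : 0 < sinh (g - a) := sinh_pos_iff.2 (by linarith)
  have pcg : 0 < sinh (c + g) := sinh_pos_iff.2 (by linarith)
  have pcg' : 0 < sinh (c - g) := sinh_pos_iff.2 (by linarith)
  -- partial derivatives of e1
  have d1g : fderiv ℝ e1 p (1, 0, 0) =
      -((T - m) / g * (2 * a / m)) + m * (2 * As * A / (C ^ 2 - A ^ 2)) := by
    have k1 := s1.hasFDerivAt.comp_hasDerivAt g lg
    have k2 : HasDerivAt (fun t : ℝ => 2 * a - mass t * (log (sinh (t + a)) - log (sinh (t - a))))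
        (-(((T - m) / g) * (log (sinh (g + a)) - log (sinh (g - a))) +
          m * (1 * cosh (g + a) / sinh (g + a) - 1 * cosh (g - a) / sinh (g - a)))) g := by
      have b1 := logsinh_hasDerivAt ((hasDerivAt_id g).add_const a) (by simpa using by linarith)
      have b2 := logsinh_hasDerivAt ((hasDerivAt_id g).sub_const a) (by simpa using hag)
      exact ((mass_hasDerivAt hg).mul (b1.sub b2)).const_sub (2 * a)
    have k3 := k1.unique k2
    rw [k3, hl1, one_mul, one_mul, coth_diff pga pga']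
    ring
  have d1a : fderiv ℝ e1 p (0, 1, 0) = 2 * (C ^ 2 - A ^ 2 - m * S * C) / (C ^ 2 - A ^ 2) := by
    have k1 := s1.hasFDerivAt.comp_hasDerivAt a la
    have k2 : HasDerivAt (fun t : ℝ => 2 * t - m * (log (sinh (g + t)) - log (sinh (g - t))))
        (2 * 1 - m * (1 * cosh (g + a) / sinh (g + a) - (-1) * cosh (g - a) / sinh (g - a))) a := by
      have b1 := logsinh_hasDerivAt ((hasDerivAt_id a).const_add g) (by simpa using by linarith)
      have b2 := logsinh_hasDerivAt ((hasDerivAt_id a).const_sub g) (by simpa using hag)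
      exact ((hasDerivAt_id a).const_mul 2).sub ((b1.sub b2).const_mul m)
    have k3 := k1.unique k2
    have k4 := coth_sum pga pga'
    rw [k3, one_mul, neg_one_mul, neg_div, sub_neg_eq_add, k4, ← hCdef, ← hSdef, ← hAdef]
    field_simp
  have d1c : fderiv ℝ e1 p (0, 0, 1) = 0 := by
    have k1 := s1.hasFDerivAt.comp_hasDerivAt c lc
    have k2 : HasDerivAt (fun _ : ℝ => e1 (g, a, c)) 0 c := hasDerivAt_const c _
    exact k1.unique k2
  -- partial derivatives of e2
  have d2g : fderiv ℝ e2 p (1, 0, 0) =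
      -((T - m) / g * (2 * c / m)) - m * (2 * Ks * K / (K ^ 2 - C ^ 2)) := by
    have k1 := s2.hasFDerivAt.comp_hasDerivAt g lg
    have k2 : HasDerivAt (fun t : ℝ => 2 * c - mass t * (log (sinh (c + t)) - log (sinh (c - t))))
        (-(((T - m) / g) * (log (sinh (c + g)) - log (sinh (c - g))) +
          m * (1 * cosh (c + g) / sinh (c + g) - (-1) * cosh (c - g) / sinh (c - g)))) g := by
      have b1 := logsinh_hasDerivAt ((hasDerivAt_id g).const_add c) (by simpa using by linarith)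
      have b2 := logsinh_hasDerivAt ((hasDerivAt_id g).const_sub c) (by simpa using hgc)
      exact ((mass_hasDerivAt hg).mul (b1.sub b2)).const_sub (2 * c)
    have k3 := k1.unique k2
    have k4 := coth_sum pcg pcg'
    rw [k3, hl2, one_mul, neg_one_mul, neg_div, sub_neg_eq_add, k4]
    ring
  have d2a : fderiv ℝ e2 p (0, 1, 0) = 0 := by
    have k1 := s2.hasFDerivAt.comp_hasDerivAt a la
    have k2 : HasDerivAt (fun _ : ℝ => e2 (g, a, c)) 0 a := hasDerivAt_const a _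
    exact k1.unique k2
  have d2c : fderiv ℝ e2 p (0, 0, 1) = 2 * (K ^ 2 - C ^ 2 + m * S * C) / (K ^ 2 - C ^ 2) := by
    have k1 := s2.hasFDerivAt.comp_hasDerivAt c lc
    have k2 : HasDerivAt (fun t : ℝ => 2 * t - m * (log (sinh (t + g)) - log (sinh (t - g))))
        (2 * 1 - m * (1 * cosh (c + g) / sinh (c + g) - 1 * cosh (c - g) / sinh (c - g))) c := by
      have b1 := logsinh_hasDerivAt ((hasDerivAt_id c).add_const g) (by simpa using by linarith)
      have b2 := logsinh_hasDerivAt ((hasDerivAt_id c).sub_const g) (by simpa using hgc)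
      exact ((hasDerivAt_id c).const_mul 2).sub ((b1.sub b2).const_mul m)
    have k3 := k1.unique k2
    have k4 := coth_diff pcg pcg'
    rw [k3, one_mul, one_mul, k4, ← hCdef, ← hSdef, ← hKdef]
    field_simp
    ring
  -- partial derivatives of e0
  have d0g : fderiv ℝ e0 p (1, 0, 0) = -4 * (K ^ 2 - A ^ 2) * S / C ^ 3 := by
    have k1 := s0.hasFDerivAt.comp_hasDerivAt g lg
    have k2 : HasDerivAt (fun t : ℝ => 2 * (K ^ 2 - A ^ 2) / cosh t ^ 2)
        ((0 * cosh g ^ 2 - 2 * (K ^ 2 - A ^ 2) * (2 * cosh g ^ (2 - 1) * sinh g)) /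
          (cosh g ^ 2) ^ 2) g := by
      have b1 := (hasDerivAt_const g (2 * (K ^ 2 - A ^ 2)))
      have b2 := (hasDerivAt_cosh g).pow 2
      have b3 := b1.div b2 (pow_pos (cosh_pos g) 2).ne'
      exact_mod_cast b3
    have k3 := k1.unique k2
    rw [k3]
    simp only [Nat.add_one_sub_one, pow_one]
    rw [← hCdef, ← hSdef]
    field_simp
    ring
  have d0a : fderiv ℝ e0 p (0, 1, 0) = -4 * A * As / C ^ 2 := by
    have k1 := s0.hasFDerivAt.comp_hasDerivAt a la
    have k2 : HasDerivAt (fun t : ℝ => 2 * (K ^ 2 - cosh t ^ 2) / C ^ 2)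
        (2 * (-(2 * cosh a ^ (2 - 1) * sinh a)) / C ^ 2) a := by
      have b2 := (hasDerivAt_cosh a).pow 2
      have b3 := ((b2.const_sub (K ^ 2)).const_mul 2).div_const (C ^ 2)
      exact_mod_cast b3
    have k3 := k1.unique k2
    rw [k3]
    simp only [Nat.add_one_sub_one, pow_one]
    rw [← hAdef, ← hAsdef]
    ring
  have d0c : fderiv ℝ e0 p (0, 0, 1) = 4 * K * Ks / C ^ 2 := by
    have k1 := s0.hasFDerivAt.comp_hasDerivAt c lc
    have k2 : HasDerivAt (fun t : ℝ => 2 * (cosh t ^ 2 - A ^ 2) / C ^ 2)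
        (2 * ((2 * cosh c ^ (2 - 1) * sinh c)) / C ^ 2) c := by
      have b2 := (hasDerivAt_cosh c).pow 2
      have b3 := ((b2.sub_const (A ^ 2)).const_mul 2).div_const (C ^ 2)
      exact_mod_cast b3
    have k3 := k1.unique k2
    rw [k3]
    simp only [Nat.add_one_sub_one, pow_one]
    rw [← hKdef, ← hKsdef]
    ring
  have hev : ∀ w, Λ 0 * fderiv ℝ e1 p w + Λ 1 * fderiv ℝ e2 p w + Λ₀ * fderiv ℝ e0 p w = 0 := by
    intro w
    have := congrArg (fun L : (ℝ × ℝ × ℝ) →L[ℝ] ℝ => L w) hsum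
    simpa [Fin.sum_univ_two] using this
  have q1 := hev (1, 0, 0)
  have q2 := hev (0, 1, 0)
  have q3 := hev (0, 0, 1)
  rw [d1g, d2g, d0g] at q1
  rw [d1a, d2a, d0a, mul_zero, add_zero] at q2
  rw [d1c, d2c, d0c, mul_zero, zero_add] at q3
  have r1 : 2 * (C ^ 2 - A ^ 2 - m * S * C) / (C ^ 2 - A ^ 2) ≠ 0 :=
    div_ne_zero (by
      have := hDA.ne
      intro h
      apply this
      linarith) hP.ne'
  have r2 : 2 * (K ^ 2 - C ^ 2 + m * S * C) / (K ^ 2 - C ^ 2) ≠ 0 :=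
    div_ne_zero (by positivity) hQ.ne'
  have hz : Λ₀ ≠ 0 := by
    intro hz
    rw [hz, zero_mul, add_zero] at q2 q3
    have x0 := (mul_eq_zero.1 q2).resolve_right r1
    have y0 := (mul_eq_zero.1 q3).resolve_right r2
    apply hne
    ext i
    · fin_cases i
      · exact x0
      · exact y0
    · exact hz
  set DA := C ^ 2 - A ^ 2 - m * S * C with hDAdef
  set DC := K ^ 2 - C ^ 2 + m * S * C with hDCdef
  have hx : Λ 0 = Λ₀ * (4 * A * As / C ^ 2) * (C ^ 2 - A ^ 2) / (2 * DA) := by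
    have : Λ 0 * (2 * DA / (C ^ 2 - A ^ 2)) = Λ₀ * (4 * A * As / C ^ 2) := by
      have e : -4 * A * As / C ^ 2 = -(4 * A * As / C ^ 2) := by ring
      rw [e] at q2
      linarith
    rw [← this]
    have := hDA.ne
    field_simp
  have hy : Λ 1 = -(Λ₀ * (4 * K * Ks / C ^ 2) * (K ^ 2 - C ^ 2) / (2 * DC)) := by
    have : Λ 1 * (2 * DC / (K ^ 2 - C ^ 2)) = -(Λ₀ * (4 * K * Ks / C ^ 2)) := by
      linarith
    have e : Λ₀ * (4 * K * Ks / C ^ 2) = -(Λ 1 * (2 * DC / (K ^ 2 - C ^ 2))) := by linarith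
    rw [e]
    field_simp
  have hXa := algebra_a (a := a) (g := g) hCS hAA hTC hDA.ne
  have hXc := algebra_c (c := c) (g := g) hCS hKK hTC hDC.ne'
  rw [← hDAdef] at hXa
  rw [← hDCdef] at hXc
  rw [hx, hy] at q1
  have hmain : A * As * (m * A * As - (T - m) * a * (C ^ 2 - A ^ 2) / (m * g)) / DA +
      K * Ks * (m * K * Ks + (T - m) * c * (K ^ 2 - C ^ 2) / (m * g)) / DC =
      T * (K ^ 2 - A ^ 2) := by
    have e1 : Λ₀ * (4 * A * As / C ^ 2) * (C ^ 2 - A ^ 2) / (2 * DA) *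
        (-((T - m) / g * (2 * a / m)) + m * (2 * As * A / (C ^ 2 - A ^ 2))) =
        Λ₀ * (4 / C ^ 2) *
          (A * As * (m * A * As - (T - m) * a * (C ^ 2 - A ^ 2) / (m * g)) / DA) := by
      have := hDA.ne
      field_simp
      ring
    have e2 : -(Λ₀ * (4 * K * Ks / C ^ 2) * (K ^ 2 - C ^ 2) / (2 * DC)) *
        (-((T - m) / g * (2 * c / m)) - m * (2 * Ks * K / (K ^ 2 - C ^ 2))) =
        Λ₀ * (4 / C ^ 2) *
          (K * Ks * (m * K * Ks + (T - m) * c * (K ^ 2 - C ^ 2) / (m * g)) / DC) := by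
      field_simp
      ring
    have e3 : Λ₀ * (-4 * (K ^ 2 - A ^ 2) * S / C ^ 3) =
        -(Λ₀ * (4 / C ^ 2) * (T * (K ^ 2 - A ^ 2))) := by
      rw [← hTC]
      field_simp
    rw [e1, e2, e3] at q1
    have h4 : Λ₀ * (4 / C ^ 2) ≠ 0 := mul_ne_zero hz (by positivity)
    apply mul_left_cancel₀ h4
    linarith
  rw [hXa, hXc] at hmain
  have hfin : (T - m) * ((C ^ 2 - A ^ 2) * (A ^ 2 - a * As * A / (m * g)) /
        (A ^ 2 - C ^ 2 + m * S * C)) = (T - m) * ((C ^ 2 - K ^ 2) *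
        (K ^ 2 - c * Ks * K / (m * g)) / DC) := by linarith
  have hTm : T - m ≠ 0 := by linarith
  have := mul_left_cancel₀ hTm hfin
  unfold Psi
  exact this

end Pool.Agent.MP28e671
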