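import Mathlib
import Pool.Agent.MP28e671.Stationary

set_option autoImplicit false

open Real Set MeasureTheory Filter
open scoped ENNReal Topology

namespace Pool.Agent.MP28e671

theorem mass_ge {g : ℝ} (hg : 0 < g) : 0.725 ≤ mass g := by
  unfold mass
  rw [le_div_iff₀ (by positivity)]
  rw [le_log_iff_exp_le (by have := cosh_pos g; positivity)]
  -- exp (1.45 g) ≤ 2 cosh² g
  have h1 : exp (0.725 * (2 * g - log 4) + 0.275 * 0) ≤
      0.725 * exp (2 * g - log 4) + 0.275 * exp 0 := by
    have := convexOn_exp.2 (mem_univ (2 * g - log 4)) (mem_univ (0:ℝ))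
      (by norm_num : (0:ℝ) ≤ 0.725) (by norm_num : (0:ℝ) ≤ 0.275) (by norm_num)
    simpa only [smul_eq_mul] using this
  have h2 : exp (2 * g - log 4) = exp (2 * g) / 4 := by
    rw [exp_sub, exp_log (by norm_num)]
  have h3 : exp (0.725 * log 4) ≤ 2.75 := by
    have : exp (0.725 * log 4) = 2 ^ ((29:ℝ) / 20) := by
      rw [rpow_def_of_pos (by norm_num), show (4:ℝ) = 2 ^ 2 by norm_num, log_pow]
      congr 1
      push_cast
      ring
    rw [this]
    have h4 : ((2:ℝ) ^ ((29:ℝ) / 20)) ^ 20 ≤ (2.75:ℝ) ^ 20 := by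
      rw [← rpow_natCast, ← rpow_mul (by norm_num)]
      norm_num
    exact le_of_pow_le_pow_left₀ (by norm_num) (by norm_num) h4
  have h5 : exp (0.725 * (2 * g)) = exp (0.725 * log 4) * exp (0.725 * (2 * g - log 4) + 0.275 * 0) := by
    rw [← exp_add]; congr 1; ring
  have h6 : 0 < exp (2 * g) := exp_pos _
  have h7 : 0 < exp (-(2 * g)) := exp_pos _
  have h8 : 2 * cosh g ^ 2 = 1 + (exp (2 * g) + exp (-(2 * g))) / 2 := by
    rw [← cosh_eq, cosh_two_mul, sinh_sq]; ring
  rw [h5, h8]
  rw [h2, exp_zero] at h1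
  have h9 : 0 < exp (0.725 * log 4) := exp_pos _
  calc exp (0.725 * log 4) * exp (0.725 * (2 * g - log 4) + 0.275 * 0)
      ≤ exp (0.725 * log 4) * (0.725 * (exp (2 * g) / 4) + 0.275 * 1) := by gcongr
    _ ≤ 2.75 * (0.725 * (exp (2 * g) / 4) + 0.275 * 1) := by gcongr
    _ ≤ _ := by nlinarith

/-- for an admissible triple the right end of the long component is at least `1` -/
theorem adm_one_le (hM : MeasStmt) {g a c : ℝ} (h : Adm g a c) : 1 ≤ X 2 g a := by
  have hg := h.g_pos
  have hal := mass_pos hg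
  have hT := tanh_pos hg
  have hmT : mass g < tanh g := h.2.2.2.1
  have hb : 1 < 2 * tanh g ^ 2 := by
    have := mass_ge hg
    have : (0.725:ℝ) < tanh g := by linarith
    nlinarith
  by_contra hcon
  push Not at hcon
  have hpos := star_pos h hb (Or.inr hcon)
  have hb0 : 0 < 2 * tanh g ^ 2 := by linarith
  have hb2 : 2 * tanh g ^ 2 < 2 := by have := tanh_lt_one g; nlinarith
  have hsb : √(2 * tanh g ^ 2 / 2) = tanh g := by
    rw [mul_div_cancel_left₀ _ (two_ne_zero), sqrt_sq hT.le]
  obtain ⟨ν, hν1, hν2, hν3, hν4, hν5, hν6⟩ := hM hb0 hb2 hal (by rw [hsb]; exact hmT.le)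
  have h1 := hν5 1 hb one_ne_zero
  rw [gI_zero two_pos hg, log_R hg, sub_self, add_zero] at h1
  have h2 : ∫ s, log |1 - s| ∂ν ≤ 0 := by
    refine integral_nonpos_of_ae ?_
    have e1 : ∀ᵐ s ∂ν, s ∈ Icc (0:ℝ) 2 := by
      rw [ae_iff]; exact hν2
    filter_upwards [e1] with s hs
    refine log_nonpos (abs_nonneg _) ?_
    rw [abs_le]
    constructor <;> linarith [hs.1, hs.2]
  linarith

theorem log_sinh_eq {x : ℝ} (hx : 0 < x) :
    log (sinh x) = x - log 2 + log (1 - exp (-(2 * x))) := by
  have h1 : 0 < 1 - exp (-(2 * x)) := by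
    have : exp (-(2 * x)) < 1 := exp_lt_one_iff.2 (by linarith)
    linarith
  have h2 : sinh x = exp x / 2 * (1 - exp (-(2 * x))) := by
    rw [sinh_eq, mul_sub, mul_one, div_mul_eq_mul_div, ← exp_add,
      show x + -(2 * x) = -x by ring]
    ring
  rw [h2, log_mul (by positivity) h1.ne', log_div (exp_pos x).ne' (by norm_num), log_exp]

theorem log_cosh_eq (x : ℝ) :
    log (cosh x) = x - log 2 + log (1 + exp (-(2 * x))) := by
  have h2 : cosh x = exp x / 2 * (1 + exp (-(2 * x))) := by
    rw [cosh_eq, mul_add, mul_one, div_mul_eq_mul_div, ← exp_add,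
      show x + -(2 * x) = -x by ring]
    ring
  rw [h2, log_mul (by positivity) (by positivity), log_div (exp_pos x).ne' (by norm_num), log_exp]

theorem tanh_mul_exp (g : ℝ) : tanh g * (1 + exp (-(2 * g))) = 1 - exp (-(2 * g)) := by
  rw [tanh_eq]
  have e1 : exp (-(2 * g)) = exp (-g) * exp (-g) := by rw [← exp_add]; congr 1; ring
  have e2 : exp g * exp (-g) = 1 := by rw [← exp_add]; simp
  have e3 : 0 < exp g := exp_pos g
  have e4 : 0 < exp (-g) := exp_pos _
  rw [e1, div_mul_eq_mul_div, div_eq_iff (by positivity)]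
  nlinarith [e2]

/-- for an admissible triple, the lower bound for the left end of the long component -/
theorem adm_cmin {g a c : ℝ} (h : Adm g a c) :
    0 < -X 2 g c ∧ 1 ≤ (-X 2 g c) ^ (mass g) * (2 + (-X 2 g c)) ^ (1 - mass g) := by
  have hg := h.g_pos
  have hal := mass_pos hg
  have hadm := h
  obtain ⟨ha, hag, hgc, hmT, -, -⟩ := h
  obtain ⟨-, E2⟩ := (adm_iff_log ha hag hgc hmT).1 hadm
  have hc : 0 < c := hg.trans hgc
  have pC := cosh_pos g
  have pK := cosh_pos c
  have p1 : 0 < sinh (c + g) := sinh_pos_iff.2 (by linarith)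
  have p2 : 0 < sinh (c - g) := sinh_pos_iff.2 (by linarith)
  have hz : -X 2 g c = 2 * (sinh (c + g) * sinh (c - g)) / cosh g ^ 2 := by
    rw [sinh_mul_sinh, X]
    field_simp
    ring
  have hz0 : 0 < -X 2 g c := by rw [hz]; positivity
  have hz2 : 2 + -X 2 g c = 2 * cosh c ^ 2 / cosh g ^ 2 := by
    rw [X]; ring
  refine ⟨hz0, ?_⟩
  have hz20 : 0 < 2 + -X 2 g c := by linarith
  have hlz : log (-X 2 g c) = log 2 + log (sinh (c + g)) + log (sinh (c - g)) -
      2 * log (cosh g) := by
    rw [hz, log_div (by positivity) (by positivity), log_mul (by norm_num) (by positivity),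
      log_mul p1.ne' p2.ne', log_pow]
    push_cast; ring
  have hlz2 : log (2 + -X 2 g c) = log 2 + 2 * log (cosh c) - 2 * log (cosh g) := by
    rw [hz2, log_div (by positivity) (by positivity), log_mul (by norm_num) (by positivity),
      log_pow, log_pow]
    push_cast; ring
  have hm : mass g * (2 * g) = log 2 + 2 * log (cosh g) := by
    unfold mass
    rw [div_mul_cancel₀ _ (by positivity), log_mul (by norm_num) (by positivity), log_pow]
    push_cast; ring
  have hP := log_sinh_eq (x := c + g) (by linarith)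
  have hKc := log_cosh_eq c
  set m := mass g with hmdef
  set q := exp (-(2 * c)) with hq
  set t := exp (-(2 * g)) with ht
  have hqt : exp (-(2 * (c + g))) = q * t := by
    rw [hq, ht, ← exp_add]; congr 1; ring
  rw [hqt] at hP
  have hq0 : 0 < q := exp_pos _
  have ht0 : 0 < t := exp_pos _
  have ht1 : t < 1 := exp_lt_one_iff.2 (by linarith)
  have hq1 : q < 1 := exp_lt_one_iff.2 (by linarith)
  have hqt1 : 0 < 1 - q * t := by nlinarith
  have hT := tanh_mul_exp g
  rw [← ht] at hT
  have hmt : m * (1 + t) < 1 - t := by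
    rw [← hT]; exact mul_lt_mul_of_pos_right hmT (by positivity)
  have hm1 : m < 1 := hmT.trans (tanh_lt_one g)
  have L1 : -(q * t / (1 - q * t)) ≤ log (1 - q * t) := by
    have := one_sub_inv_le_log_of_pos hqt1
    have e : 1 - (1 - q * t)⁻¹ = -(q * t / (1 - q * t)) := by field_simp; ring
    linarith
  have L2 : q / (1 + q) ≤ log (1 + q) := by
    have := one_sub_inv_le_log_of_pos (show 0 < 1 + q by positivity)
    have e : 1 - (1 + q)⁻¹ = q / (1 + q) := by field_simp; ring
    linarith
  have key : m * (q * t / (1 - q * t)) ≤ (1 - m) * (q / (1 + q)) := by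
    rw [mul_div_assoc', mul_div_assoc', div_le_div_iff₀ hqt1 (by positivity)]
    have k1 : m * t * (1 + q) ≤ (1 - m) * (1 - q * t) := by
      have k2 : 0 ≤ (1 + t) * (1 - q) := by nlinarith
      -- multiply by `1 + t`
      have k3 : m * (1 + t) * (t * (1 + q)) ≤ (1 - t) * (t * (1 + q)) :=
        mul_le_mul_of_nonneg_right hmt.le (by positivity)
      have k4 : 2 * t * (1 - q * t) ≤ ((1 + t) - m * (1 + t)) * (1 - q * t) :=
        mul_le_mul_of_nonneg_right (by linarith) hqt1.le
      have k5 : (1 - t) * (t * (1 + q)) ≤ 2 * t * (1 - q * t) := by nlinarith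
      have k6 : (1 + t) * (m * t * (1 + q)) ≤ (1 + t) * ((1 - m) * (1 - q * t)) := by
        calc (1 + t) * (m * t * (1 + q)) = m * (1 + t) * (t * (1 + q)) := by ring
          _ ≤ (1 - t) * (t * (1 + q)) := k3
          _ ≤ 2 * t * (1 - q * t) := k5
          _ ≤ ((1 + t) - m * (1 + t)) * (1 - q * t) := k4
          _ = _ := by ring
      exact le_of_mul_le_mul_left k6 (by positivity)
    calc m * (q * t) * (1 + q) = q * (m * t * (1 + q)) := by ring
      _ ≤ q * ((1 - m) * (1 - q * t)) := mul_le_mul_of_nonneg_left k1 hq0.le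
      _ = _ := by ring
  have hmain : 0 ≤ m * log (-X 2 g c) + (1 - m) * log (2 + -X 2 g c) := by
    have e : m * log (-X 2 g c) + (1 - m) * log (2 + -X 2 g c) =
        2 * (m * log (1 - q * t) + (1 - m) * log (1 + q)) := by
      rw [hlz, hlz2, hKc]
      have e1 : m * (log (sinh (c + g)) - log (sinh (c - g))) = 2 * c := by linarith
      have e2 : m * log (sinh (c - g)) = m * log (sinh (c + g)) - 2 * c := by linarith
      have e3 : 2 * log (cosh g) = m * (2 * g) - log 2 := by linarith
      have e4 : m * (log 2 + log (sinh (c + g)) + log (sinh (c - g)) - 2 * log (cosh g)) =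
        m * log 2 + 2 * (m * log (sinh (c + g))) - 2 * c - m * (2 * log (cosh g)) := by
        rw [mul_sub, mul_add, mul_add, e2]; ring
      rw [e4, e3, hP]
      ring
    rw [e]
    have f1 : m * -(q * t / (1 - q * t)) ≤ m * log (1 - q * t) :=
      mul_le_mul_of_nonneg_left L1 hal.le
    have f2 : (1 - m) * (q / (1 + q)) ≤ (1 - m) * log (1 + q) :=
      mul_le_mul_of_nonneg_left L2 (by linarith)
    linarith
  rw [← log_rpow hz0, ← log_rpow hz20, ← log_mul (rpow_pos_of_pos hz0 _).ne'
    (rpow_pos_of_pos hz20 _).ne'] at hmain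
  by_contra hcon
  push Not at hcon
  have h3 := log_neg (mul_pos (rpow_pos_of_pos hz0 _) (rpow_pos_of_pos hz20 _)) hcon
  linarith

end Pool.Agent.MP28e671
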