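import Mathlib
import Pool.Agent.MP28e671.Defs

set_option autoImplicit false

open Real MeasureTheory Set intervalIntegral
open scoped Interval

namespace Pool.Agent.MP28e671

/-- closed form of `G` -/
theorem G_eq {u v : ℝ} (huv : u < v) (x : ℝ) :
    G u v x = log ((max |x - (u + v) / 2| ((v - u) / 2)
      + √((x - (u + v) / 2) ^ 2 - ((v - u) / 2) ^ 2)) / 2) := by
  unfold G
  split_ifs with h1 h2
  · have e1 : |x - (u + v) / 2| = (u + v) / 2 - x := by
      rw [abs_of_nonpos (by linarith)]; ring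
    have e2 : max |x - (u + v) / 2| ((v - u) / 2) = (u + v) / 2 - x := by
      rw [e1]; exact max_eq_left (by linarith)
    have e3 : (x - (u + v) / 2) ^ 2 - ((v - u) / 2) ^ 2 = (v - x) * (u - x) := by ring
    rw [e2, e3, Real.sqrt_mul (by linarith)]
    have h5 : 0 ≤ v - x := by linarith
    have h6 : 0 < u - x := by linarith
    have h7 : ((√(v - x) + √(u - x)) / 2) ^ 2 =
        ((u + v) / 2 - x + √(v - x) * √(u - x)) / 2 := by
      have := Real.sq_sqrt h5
      have := Real.sq_sqrt h6.le
      nlinarith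
    rw [← h7, Real.log_pow]
    norm_num
  · push Not at h1
    have e2 : max |x - (u + v) / 2| ((v - u) / 2) = (v - u) / 2 := by
      apply max_eq_right
      rw [abs_le]
      constructor <;> linarith
    have e3 : √((x - (u + v) / 2) ^ 2 - ((v - u) / 2) ^ 2) = 0 := by
      apply Real.sqrt_eq_zero_of_nonpos
      nlinarith
    rw [e2, e3]
    congr 1
    ring
  · push Not at h1 h2
    have e1 : |x - (u + v) / 2| = x - (u + v) / 2 := by
      rw [abs_of_nonneg (by linarith)]
    have e2 : max |x - (u + v) / 2| ((v - u) / 2) = x - (u + v) / 2 := by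
      rw [e1]; exact max_eq_left (by linarith)
    have e3 : (x - (u + v) / 2) ^ 2 - ((v - u) / 2) ^ 2 = (x - u) * (x - v) := by ring
    rw [e2, e3, Real.sqrt_mul (by linarith)]
    have h5 : 0 ≤ x - u := by linarith
    have h6 : 0 < x - v := by linarith
    have h7 : ((√(x - u) + √(x - v)) / 2) ^ 2 =
        (x - (u + v) / 2 + √(x - u) * √(x - v)) / 2 := by
      have := Real.sq_sqrt h5
      have := Real.sq_sqrt h6.le
      nlinarith
    rw [← h7, Real.log_pow]
    norm_num

theorem G_ge {u v : ℝ} (huv : u < v) (x : ℝ) : log ((v - u) / 4) ≤ G u v x := by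
  rw [G_eq huv]
  apply Real.log_le_log (by linarith)
  have := le_max_right |x - (u + v) / 2| ((v - u) / 2)
  have := Real.sqrt_nonneg ((x - (u + v) / 2) ^ 2 - ((v - u) / 2) ^ 2)
  linarith

theorem G_continuous {u v : ℝ} (huv : u < v) : Continuous (G u v) := by
  have : G u v = fun x => log ((max |x - (u + v) / 2| ((v - u) / 2)
      + √((x - (u + v) / 2) ^ 2 - ((v - u) / 2) ^ 2)) / 2) := by
    funext x; exact G_eq huv x
  rw [this]
  apply Continuous.log
  · fun_prop
  · intro x
    have := le_max_right |x - (u + v) / 2| ((v - u) / 2)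
    have := Real.sqrt_nonneg ((x - (u + v) / 2) ^ 2 - ((v - u) / 2) ^ 2)
    have : 0 < v - u := by linarith
    linarith

/-- the two roots of `z^2 - 2 s z + 1` -/
theorem roots_exist (s : ℝ) : ∃ w₁ w₂ : ℂ, w₁ + w₂ = 2 * s ∧ w₁ * w₂ = 1 ∧
    posLog ‖w₁‖ + posLog ‖w₂‖ = log (max |s| 1 + √(s ^ 2 - 1)) := by
  rcases le_or_gt |s| 1 with hs | hs
  · have hs2 : s ^ 2 ≤ 1 := by rw [← sq_abs]; nlinarith [abs_nonneg s]
    have hq : √(1 - s ^ 2) ^ 2 = 1 - s ^ 2 := Real.sq_sqrt (by linarith)
    have hn1 : ‖(s : ℂ) + √(1 - s ^ 2) * Complex.I‖ = 1 := by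
      rw [Complex.norm_add_mul_I, hq]; norm_num
    have hn2 : ‖(s : ℂ) - √(1 - s ^ 2) * Complex.I‖ = 1 := by
      have : (s : ℂ) - √(1 - s ^ 2) * Complex.I = (s : ℂ) + ((-√(1 - s ^ 2) : ℝ) : ℂ) * Complex.I := by
        push_cast; ring
      rw [this, Complex.norm_add_mul_I, neg_sq, hq]; norm_num
    refine ⟨s + √(1 - s ^ 2) * Complex.I, s - √(1 - s ^ 2) * Complex.I, by ring, ?_, ?_⟩
    · have : ((√(1 - s ^ 2) : ℝ) : ℂ) ^ 2 = 1 - (s : ℂ) ^ 2 := by
        rw [← Complex.ofReal_pow, hq]; push_cast; ring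
      linear_combination (-1 : ℂ) * (Complex.I ^ 2) * this - (1 - (s:ℂ)^2) * Complex.I_sq
    · rw [hn1, hn2, max_eq_right hs, Real.sqrt_eq_zero_of_nonpos (by linarith)]
      simp
  · have hs2 : 1 < s ^ 2 := by rw [← sq_abs]; nlinarith [abs_nonneg s]
    have hq : √(s ^ 2 - 1) ^ 2 = s ^ 2 - 1 := Real.sq_sqrt (by linarith)
    have hq0 : 0 < √(s ^ 2 - 1) := Real.sqrt_pos.2 (by linarith)
    set q := √(s ^ 2 - 1) with hqdef
    have hprod : (|s| - q) * (|s| + q) = 1 := by
      have := sq_abs s
      nlinarith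
    have hb : 1 < |s| + q := by linarith
    have ha0 : 0 < |s| - q := by
      by_contra hc
      push Not at hc
      nlinarith
    have ha1 : |s| - q < 1 := by
      by_contra hc
      push Not at hc
      nlinarith
    have p1 : posLog (|s| - q) = 0 := by
      apply Real.posLog_eq_zero_iff _ |>.2
      rw [abs_of_pos ha0]; exact ha1.le
    have p2 : posLog (|s| + q) = log (|s| + q) := by
      apply Real.posLog_eq_log
      rw [abs_of_pos (by linarith)]; exact hb.le
    rcases le_total 0 s with h0 | h0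
    · rw [abs_of_nonneg h0] at *
      refine ⟨((s - q : ℝ) : ℂ), ((s + q : ℝ) : ℂ), by push_cast; ring, ?_, ?_⟩
      · rw [← Complex.ofReal_mul, hprod]; simp
      · rw [Complex.norm_real, Complex.norm_real, Real.norm_eq_abs, Real.norm_eq_abs,
          abs_of_pos ha0, abs_of_pos (by linarith : 0 < s + q), p1, p2, max_eq_left hs.le, zero_add]
    · rw [abs_of_nonpos h0] at *
      refine ⟨((-(-s - q) : ℝ) : ℂ), ((-(-s + q) : ℝ) : ℂ), by push_cast; ring, ?_, ?_⟩
      · rw [← Complex.ofReal_mul]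
        have : -(-s - q) * -(-s + q) = 1 := by linarith
        rw [this]; simp
      · rw [Complex.norm_real, Complex.norm_real, Real.norm_eq_abs, Real.norm_eq_abs, abs_neg,
          abs_neg, abs_of_pos ha0, abs_of_pos (by linarith : 0 < -s + q), p1, p2,
          max_eq_left hs.le, zero_add]

/-- The integrand, written on the circle. -/
theorem integrand_circle (u v y t : ℝ) :
    ‖(y : ℂ) - ((u + v) / 2 + (v - u) / 4 * (circleMap 0 1 t + (circleMap 0 1 t)⁻¹))‖ =
      |y - ((u + v) / 2 + (v - u) / 2 * cos t)| := by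
  have h1 : circleMap 0 1 t + (circleMap 0 1 t)⁻¹ = ((2 * cos t : ℝ) : ℂ) := by
    have : (circleMap 0 1 t)⁻¹ = Complex.exp (-(t * Complex.I)) := by
      rw [circleMap_zero, Complex.ofReal_one, one_mul, Complex.exp_neg]
    rw [this, circleMap_zero, Complex.ofReal_one, one_mul]
    push_cast
    rw [Complex.cos]
    ring_nf
  rw [h1, ← Real.norm_eq_abs, ← Complex.norm_real]
  congr 1
  push_cast
  ring

theorem arc_integrable_full (u v y : ℝ) :
    IntervalIntegrable (fun t => log |y - ((u + v) / 2 + (v - u) / 2 * cos t)|) volume 0 (2 * π) := by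
  have h : MeromorphicOn (fun z : ℂ => (y : ℂ) - ((u + v) / 2 + (v - u) / 4 * (z + z⁻¹)))
      (Metric.sphere 0 |1|) := fun z _ => by fun_prop
  have h2 := h.circleIntegrable_log_norm
  unfold CircleIntegrable at h2
  refine h2.congr ?_
  intro t _
  simp only
  rw [integrand_circle]

theorem arc_integrable {u v : ℝ} (y : ℝ) (_huv : u < v) :
    IntervalIntegrable (fun t => log |y - ((u + v) / 2 + (v - u) / 2 * cos t)|) volume 0 π := by
  apply (arc_integrable_full u v y).mono_set
  rw [uIcc_of_le Real.pi_pos.le, uIcc_of_le (by positivity)]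
  exact Icc_subset_Icc le_rfl (by linarith [Real.pi_pos])

theorem arc_integral_full {u v : ℝ} (y : ℝ) (huv : u < v) :
    ∫ t in (0:ℝ)..(2 * π), log |y - ((u + v) / 2 + (v - u) / 2 * cos t)| = 2 * π * G u v y := by
  obtain ⟨w₁, w₂, hs, hp, hl⟩ := roots_exist ((y - (u + v) / 2) / ((v - u) / 2))
  have hr : 0 < (v - u) / 4 := by linarith
  have key : ∀ᵐ t ∂volume, t ∈ Ι (0:ℝ) (2 * π) →
      log |y - ((u + v) / 2 + (v - u) / 2 * cos t)| =
        log ((v - u) / 4) + (log ‖circleMap 0 1 t - w₁‖ + log ‖circleMap 0 1 t - w₂‖) := by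
    have hc : (circleMap (0:ℂ) 1 ⁻¹' {w₁, w₂}).Countable :=
      (Set.Countable.preimage_circleMap ((Set.finite_singleton w₂).insert w₁).countable 0
        one_ne_zero)
    filter_upwards [hc.ae_notMem volume] with t ht _
    simp only [mem_preimage, mem_insert_iff, mem_singleton_iff, not_or] at ht
    have hz : ‖circleMap (0:ℂ) 1 t‖ = 1 := by simp
    have hz0 : circleMap (0:ℂ) 1 t ≠ 0 := by
      intro h; rw [h] at hz; simp at hz
    rw [← integrand_circle]
    set z := circleMap (0:ℂ) 1 t with hzdef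
    have hfac : (y : ℂ) - ((u + v) / 2 + (v - u) / 4 * (z + z⁻¹)) =
        -(((v - u) / 4 : ℝ) : ℂ) * (z⁻¹ * ((z - w₁) * (z - w₂))) := by
      have hvu : ((v : ℂ) - u) ≠ 0 := by
        rw [← Complex.ofReal_sub]; exact_mod_cast (by linarith : v - u ≠ 0)
      have e : (z - w₁) * (z - w₂) =
          z ^ 2 - 2 * ((((y - (u + v) / 2) / ((v - u) / 2)) : ℝ) : ℂ) * z + 1 := by
        rw [← hs, ← hp]; ring
      rw [e]
      push_cast
      field_simp
      ring
    rw [hfac, norm_mul, norm_mul, norm_mul, norm_neg, norm_inv, hz, Complex.norm_real,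
      Real.norm_eq_abs, abs_of_pos hr, inv_one, one_mul, Real.log_mul hr.ne', Real.log_mul]
    · exact norm_ne_zero_iff.2 (sub_ne_zero.2 ht.1)
    · exact norm_ne_zero_iff.2 (sub_ne_zero.2 ht.2)
    · exact mul_ne_zero (norm_ne_zero_iff.2 (sub_ne_zero.2 ht.1))
        (norm_ne_zero_iff.2 (sub_ne_zero.2 ht.2))
  rw [intervalIntegral.integral_congr_ae key]
  have i1 : IntervalIntegrable (fun t => log ‖circleMap 0 1 t - w₁‖) volume 0 (2 * π) :=
    circleIntegrable_log_norm_sub_const (a := w₁) (c := 0) 1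
  have i2 : IntervalIntegrable (fun t => log ‖circleMap 0 1 t - w₂‖) volume 0 (2 * π) :=
    circleIntegrable_log_norm_sub_const (a := w₂) (c := 0) 1
  have c1 := circleAverage_log_norm_sub_const_eq_posLog (a := w₁)
  have c2 := circleAverage_log_norm_sub_const_eq_posLog (a := w₂)
  unfold circleAverage at c1 c2
  have hpi : (2 * π) ≠ 0 := by positivity
  rw [smul_eq_mul, inv_mul_eq_iff_eq_mul₀ hpi] at c1 c2
  rw [intervalIntegral.integral_add intervalIntegrable_const (i1.add i2),
    intervalIntegral.integral_add i1 i2, c1, c2, intervalIntegral.integral_const, ← mul_add, hl,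
    G_eq huv, smul_eq_mul, sub_zero, ← mul_add]
  congr 1
  rw [← Real.log_mul hr.ne']
  · congr 1
    have e1 : |(y - (u + v) / 2) / ((v - u) / 2)| = |y - (u + v) / 2| / ((v - u) / 2) := by
      rw [abs_div, abs_of_pos (by linarith : 0 < (v - u) / 2)]
    have e2 : √(((y - (u + v) / 2) / ((v - u) / 2)) ^ 2 - 1) =
        √((y - (u + v) / 2) ^ 2 - ((v - u) / 2) ^ 2) / ((v - u) / 2) := by
      have hr2 : 0 < (v - u) / 2 := by linarith
      have : ((y - (u + v) / 2) / ((v - u) / 2)) ^ 2 - 1 =
          ((y - (u + v) / 2) ^ 2 - ((v - u) / 2) ^ 2) / ((v - u) / 2) ^ 2 := by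
        have h9 := hr2.ne'
        generalize (v - u) / 2 = r at h9 ⊢
        generalize y - (u + v) / 2 = X
        field_simp
      rw [this, Real.sqrt_div' _ (by positivity), Real.sqrt_sq hr2.le]
    have e3 : max (|y - (u + v) / 2| / ((v - u) / 2)) 1 =
        max |y - (u + v) / 2| ((v - u) / 2) / ((v - u) / 2) := by
      rw [max_div_div_right (by linarith) _ _ |>.symm, div_self (by linarith)]
    rw [e1, e2, e3]
    have : v - u ≠ 0 := by linarith
    field_simp
    ring
  · have := le_max_right |(y - (u + v) / 2) / ((v - u) / 2)| 1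
    have := Real.sqrt_nonneg (((y - (u + v) / 2) / ((v - u) / 2)) ^ 2 - 1)
    linarith

theorem arc_integral {u v : ℝ} (y : ℝ) (huv : u < v) :
    ∫ t in (0:ℝ)..π, log |y - ((u + v) / 2 + (v - u) / 2 * cos t)| = π * G u v y := by
  have h := arc_integral_full y huv
  have hi := arc_integrable_full u v y
  have hpi := Real.pi_pos
  have h1 : IntervalIntegrable (fun t => log |y - ((u + v) / 2 + (v - u) / 2 * cos t)|) volume
      0 π := arc_integrable y huv
  have h2 : IntervalIntegrable (fun t => log |y - ((u + v) / 2 + (v - u) / 2 * cos t)|) volume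
      π (2 * π) := by
    apply hi.mono_set
    rw [uIcc_of_le (by linarith), uIcc_of_le (by linarith)]
    exact Icc_subset_Icc hpi.le le_rfl
  rw [← intervalIntegral.integral_add_adjacent_intervals h1 h2] at h
  have h3 : ∫ t in π..(2 * π), log |y - ((u + v) / 2 + (v - u) / 2 * cos t)| =
      ∫ t in (0:ℝ)..π, log |y - ((u + v) / 2 + (v - u) / 2 * cos t)| := by
    have := intervalIntegral.integral_comp_sub_left (a := 0) (b := π)
      (fun t => log |y - ((u + v) / 2 + (v - u) / 2 * cos t)|) (2 * π)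
    rw [sub_zero, show 2 * π - π = π by ring] at this
    rw [← this]
    apply intervalIntegral.integral_congr
    intro t _
    simp only
    rw [Real.cos_two_pi_sub]
  rw [h3] at h
  linarith

/-- average against the arcsine law of `[u, v]` -/
noncomputable def av (u v : ℝ) (f : ℝ → ℝ) : ℝ :=
  (1 / π) * ∫ t in (0:ℝ)..π, f ((u + v) / 2 + (v - u) / 2 * cos t)

theorem av_log {u v : ℝ} (y : ℝ) (huv : u < v) : av u v (fun t => log |y - t|) = G u v y := by
  unfold av
  rw [arc_integral y huv, ← mul_assoc, one_div, inv_mul_cancel₀ Real.pi_ne_zero, one_mul]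

end Pool.Agent.MP28e671
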