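import Mathlib
import Pool.Agent.MP28e671.Arcsine

set_option autoImplicit false

open Real MeasureTheory Set intervalIntegral
open scoped Interval

namespace Pool.Agent.MP28e671

theorem abs_log_le_of_le {x C : ℝ} (h0 : 0 ≤ x) (hC : x ≤ C) :
    |log x| ≤ 2 * log (1 + C) - log x := by
  have hC0 : 0 ≤ C := h0.trans hC
  have h1 : 0 ≤ log (1 + C) := Real.log_nonneg (by linarith)
  rcases le_total x 1 with hx | hx
  · rw [abs_of_nonpos (Real.log_nonpos h0 hx)]
    linarith
  · rw [abs_of_nonneg (Real.log_nonneg hx)]
    have : log x ≤ log (1 + C) := Real.log_le_log (by linarith) (by linarith)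
    linarith

/-- bound of the integral of `|log|` along an arc -/
theorem arc_abs_bound {u v : ℝ} (y C : ℝ) (huv : u < v)
    (hC : ∀ t, |y - ((u + v) / 2 + (v - u) / 2 * cos t)| ≤ C) :
    ∫ t in (0:ℝ)..π, |(log |y - ((u + v) / 2 + (v - u) / 2 * cos t)|)| ≤
      π * (2 * log (1 + C) - log ((v - u) / 4)) := by
  have hpi := Real.pi_pos
  have hi := arc_integrable y huv
  calc ∫ t in (0:ℝ)..π, |(log |y - ((u + v) / 2 + (v - u) / 2 * cos t)|)|
      ≤ ∫ t in (0:ℝ)..π, (2 * log (1 + C) - log |y - ((u + v) / 2 + (v - u) / 2 * cos t)|) := by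
        apply intervalIntegral.integral_mono_on hpi.le hi.abs (intervalIntegrable_const.sub hi)
        intro t _
        exact abs_log_le_of_le (abs_nonneg _) (hC t)
    _ = π * (2 * log (1 + C)) - π * G u v y := by
        rw [intervalIntegral.integral_sub intervalIntegrable_const hi, arc_integral y huv,
          intervalIntegral.integral_const]
        simp
    _ ≤ π * (2 * log (1 + C) - log ((v - u) / 4)) := by
        have := G_ge huv y
        rw [← mul_sub]
        exact mul_le_mul_of_nonneg_left (by linarith) hpi.le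

/-- joint integrability of `log |y(s) - (m + r cos t)|` for a bounded measurable `y` on a finite
measure space -/
theorem arc_prod_integrable {α : Type*} [MeasurableSpace α] (μ : Measure α) [IsFiniteMeasure μ]
    {y : α → ℝ} (hy : Measurable y) {u v M : ℝ} (huv : u < v) (hM : ∀ s, |y s| ≤ M) :
    Integrable (fun p : α × ℝ => log |y p.1 - ((u + v) / 2 + (v - u) / 2 * cos p.2)|)
      (μ.prod (volume.restrict (Ioc 0 π))) := by
  have hmeas : Measurable
      (fun p : α × ℝ => log |y p.1 - ((u + v) / 2 + (v - u) / 2 * cos p.2)|) := by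
    have := hy
    fun_prop
  have hb : ∀ s t, |y s - ((u + v) / 2 + (v - u) / 2 * cos t)| ≤
      M + (|u + v| / 2 + (v - u) / 2) := by
    intro s t
    have h1 := hM s
    have h2 := Real.abs_cos_le_one t
    have h3 : |(v - u) / 2 * cos t| ≤ (v - u) / 2 := by
      rw [abs_mul, abs_of_pos (by linarith : 0 < (v - u) / 2)]
      nlinarith
    have h4 : |(u + v) / 2| = |u + v| / 2 := by rw [abs_div, abs_of_pos (by norm_num : (0:ℝ) < 2)]
    calc |y s - ((u + v) / 2 + (v - u) / 2 * cos t)|
        ≤ |y s| + |(u + v) / 2 + (v - u) / 2 * cos t| := abs_sub _ _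
      _ ≤ |y s| + (|(u + v) / 2| + |(v - u) / 2 * cos t|) := by
          gcongr
          exact abs_add_le _ _
      _ ≤ _ := by rw [h4]; linarith
  rw [integrable_prod_iff hmeas.aestronglyMeasurable]
  constructor
  · filter_upwards with s
    have := arc_integrable (y s) huv
    rw [intervalIntegrable_iff_integrableOn_Ioc_of_le Real.pi_pos.le] at this
    exact this
  · refine Integrable.mono' (g := fun _ => π * (2 * log (1 + (M + (|u + v| / 2 + (v - u) / 2)))
      - log ((v - u) / 4))) (integrable_const _) ?_ ?_
    · have h7 : AEStronglyMeasurable (fun p : α × ℝ =>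
          ‖log |y p.1 - ((u + v) / 2 + (v - u) / 2 * cos p.2)|‖)
          (μ.prod (volume.restrict (Ioc 0 π))) := hmeas.norm.aestronglyMeasurable
      exact h7.integral_prod_right'
    · filter_upwards with s
      have h := arc_abs_bound (y s) _ huv (hb s)
      rw [intervalIntegral.integral_of_le Real.pi_pos.le] at h
      rw [Real.norm_eq_abs, abs_of_nonneg (integral_nonneg fun t => norm_nonneg _)]
      simpa only [Real.norm_eq_abs] using h

/-- Fubini for the arcsine potential -/
theorem integral_G_swap {α : Type*} [MeasurableSpace α] (μ : Measure α) [IsFiniteMeasure μ]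
    {y : α → ℝ} (hy : Measurable y) {u v M : ℝ} (huv : u < v) (hM : ∀ s, |y s| ≤ M) :
    π * ∫ s, G u v (y s) ∂μ =
      ∫ t in (0:ℝ)..π, ∫ s, log |y s - ((u + v) / 2 + (v - u) / 2 * cos t)| ∂μ := by
  have h := integral_integral_swap
    (f := fun s t => log |y s - ((u + v) / 2 + (v - u) / 2 * cos t)|)
    (arc_prod_integrable μ hy huv hM)
  rw [intervalIntegral.integral_of_le Real.pi_pos.le, ← h, ← MeasureTheory.integral_const_mul]
  apply MeasureTheory.integral_congr_ae
  filter_upwards with s
  have h2 := arc_integral (y s) huv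
  rw [intervalIntegral.integral_of_le Real.pi_pos.le] at h2
  exact h2.symm

theorem av_symm {u v u' v' : ℝ} (huv : u < v) (huv' : u' < v') :
    av u v (G u' v') = av u' v' (G u v) := by
  unfold av
  congr 1
  have hpi := Real.pi_pos
  have key : π * ∫ s in (0:ℝ)..π, G u' v' ((u + v) / 2 + (v - u) / 2 * cos s) =
      ∫ t in (0:ℝ)..π, π * G u v ((u' + v') / 2 + (v' - u') / 2 * cos t) := by
    rw [intervalIntegral.integral_of_le Real.pi_pos.le]
    rw [integral_G_swap (volume.restrict (Ioc 0 π))
      (y := fun s => (u + v) / 2 + (v - u) / 2 * cos s) (by fun_prop) huv'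
      (M := |u + v| / 2 + (v - u) / 2)]
    · apply intervalIntegral.integral_congr
      intro t _
      simp only
      rw [← arc_integral _ huv, intervalIntegral.integral_of_le Real.pi_pos.le]
      apply MeasureTheory.integral_congr_ae
      filter_upwards with s
      rw [abs_sub_comm]
    · intro t
      have h2 := Real.abs_cos_le_one t
      have h3 : |(v - u) / 2 * cos t| ≤ (v - u) / 2 := by
        rw [abs_mul, abs_of_pos (by linarith : 0 < (v - u) / 2)]
        nlinarith
      have h4 : |(u + v) / 2| = |u + v| / 2 := by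
        rw [abs_div, abs_of_pos (by norm_num : (0:ℝ) < 2)]
      calc |(u + v) / 2 + (v - u) / 2 * cos t|
          ≤ |(u + v) / 2| + |(v - u) / 2 * cos t| := abs_add_le _ _
        _ ≤ _ := by rw [h4]; linarith
  rw [intervalIntegral.integral_const_mul] at key
  exact mul_left_cancel₀ hpi.ne' key

end Pool.Agent.MP28e671
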