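import Mathlib
import Pool.Agent.MP28e671.Defs

set_option autoImplicit false

open Set MeasureTheory
open scoped ENNReal

namespace Pool.Agent.MP28e671

theorem G_translate (u v x t : ℝ) : G (u + t) (v + t) (x + t) = G u v x := by
  unfold G
  simp only [add_lt_add_iff_right, add_le_add_iff_right, add_sub_add_right_eq_sub]

theorem G_of_mem {u v x : ℝ} (h1 : u ≤ x) (h2 : x ≤ v) : G u v x = Real.log ((v - u) / 4) := by
  unfold G
  rw [if_neg (not_lt.2 h1), if_pos h2]

/-- mirror symmetry -/
theorem G_neg {u v : ℝ} (huv : u < v) (x : ℝ) : G (-v) (-u) (-x) = G u v x := by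
  unfold G
  rcases lt_or_ge x u with h | h
  · rw [if_neg (by linarith), if_neg (by linarith), if_pos h]
    rw [show -x - -v = v - x by ring, show -x - -u = u - x by ring]
  · rcases le_or_gt x v with h' | h'
    · rw [if_neg (by linarith), if_pos (by linarith), if_neg (by linarith), if_pos h']
      rw [show -u - -v = v - u by ring]
    · rw [if_pos (by linarith), if_neg (by linarith), if_neg (by linarith)]
      rw [show -u - -x = x - u by ring, show -v - -x = x - v by ring]

/-- a lower bound of the potential to the left of the interval -/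
theorem G_ge_left {u v x : ℝ} (huv : u < v) (hx : x ≤ u) :
    Real.log ((v - u) / 4 + (u - x)) ≤ G u v x := by
  rcases hx.eq_or_lt with h | h
  · subst h
    rw [G_of_mem le_rfl huv.le]
    simp
  · unfold G
    rw [if_pos h]
    have h1 : 0 < u - x := by linarith
    have h2 : 0 < v - x := by linarith
    have e1 := Real.sq_sqrt h1.le
    have e2 := Real.sq_sqrt h2.le
    have p1 := Real.sqrt_pos.2 h1
    have p2 := Real.sqrt_pos.2 h2
    have h3 : Real.sqrt (u - x) ≤ Real.sqrt (v - x) := Real.sqrt_le_sqrt (by linarith)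
    have : 2 * Real.log ((Real.sqrt (v - x) + Real.sqrt (u - x)) / 2) =
        Real.log (((Real.sqrt (v - x) + Real.sqrt (u - x)) / 2) ^ 2) := by
      rw [Real.log_pow]; norm_num
    rw [this]
    apply Real.log_le_log (by linarith)
    nlinarith

/-- monotonicity to the left of the interval -/
theorem G_anti_left {u v x y : ℝ} (huv : u < v) (hxy : x ≤ y) (hy : y ≤ u) :
    G u v y ≤ G u v x := by
  rcases hy.eq_or_lt with h | h
  · subst h
    rw [G_of_mem le_rfl huv.le]
    refine le_trans ?_ (G_ge_left huv hxy)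
    exact Real.log_le_log (by linarith) (by linarith)
  · unfold G
    rw [if_pos h, if_pos (by linarith)]
    have h1 : 0 < u - y := by linarith
    have p1 := Real.sqrt_pos.2 h1
    have p2 := Real.sqrt_nonneg (v - y)
    have h3 : Real.sqrt (u - y) ≤ Real.sqrt (u - x) := Real.sqrt_le_sqrt (by linarith)
    have h4 : Real.sqrt (v - y) ≤ Real.sqrt (v - x) := Real.sqrt_le_sqrt (by linarith)
    have : Real.log ((Real.sqrt (v - y) + Real.sqrt (u - y)) / 2) ≤
        Real.log ((Real.sqrt (v - x) + Real.sqrt (u - x)) / 2) :=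
      Real.log_le_log (by linarith) (by linarith)
    linarith

/-- the mirrored lower bound -/
theorem G_ge_right {u v x : ℝ} (huv : u < v) (hx : v ≤ x) :
    Real.log ((v - u) / 4 + (x - v)) ≤ G u v x := by
  rw [← G_neg huv]
  have h := G_ge_left (u := -v) (v := -u) (x := -x) (by linarith) (by linarith)
  rwa [show (-u - -v) / 4 + (-v - -x) = (v - u) / 4 + (x - v) by ring] at h

/-- superadditivity of the weighted geometric mean, logarithmic form -/
theorem log_superadd {A B y p : ℝ} (hA : 0 < A) (hB : 0 < B) (hy : 0 ≤ y) (hp0 : 0 ≤ p)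
    (hp1 : p ≤ 1) :
    Real.log (A ^ (1 - p) * B ^ p + y) ≤ (1 - p) * Real.log (A + y) + p * Real.log (B + y) := by
  have hAy : 0 < A + y := by linarith
  have hBy : 0 < B + y := by linarith
  have h1 := Real.geom_mean_le_arith_mean2_weighted (show 0 ≤ 1 - p by linarith) hp0
    (div_nonneg hA.le hAy.le) (div_nonneg hB.le hBy.le) (by ring)
  have h2 := Real.geom_mean_le_arith_mean2_weighted (show 0 ≤ 1 - p by linarith) hp0
    (div_nonneg hy hAy.le) (div_nonneg hy hBy.le) (by ring)
  rw [Real.div_rpow hA.le hAy.le, Real.div_rpow hB.le hBy.le] at h1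
  rw [Real.div_rpow hy hAy.le, Real.div_rpow hy hBy.le] at h2
  have hpos : 0 < (A + y) ^ (1 - p) * (B + y) ^ p :=
    mul_pos (Real.rpow_pos_of_pos hAy _) (Real.rpow_pos_of_pos hBy _)
  have hyy : y ^ (1 - p) * y ^ p = y := by
    rcases hy.eq_or_lt with h | h
    · rw [← h]
      rcases hp0.eq_or_lt with h' | h'
      · rw [← h']; simp
      · rw [Real.zero_rpow h'.ne', mul_zero]
    · rw [← Real.rpow_add h]; simp
  have h3 : A ^ (1 - p) * B ^ p + y ≤ (A + y) ^ (1 - p) * (B + y) ^ p := by
    have e1 : A ^ (1 - p) / (A + y) ^ (1 - p) * (B ^ p / (B + y) ^ p) +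
        y ^ (1 - p) / (A + y) ^ (1 - p) * (y ^ p / (B + y) ^ p) =
        (A ^ (1 - p) * B ^ p + y) / ((A + y) ^ (1 - p) * (B + y) ^ p) := by
      rw [div_mul_div_comm, div_mul_div_comm, hyy, ← add_div]
    have e2 : (1 - p) * (A / (A + y)) + p * (B / (B + y)) +
        ((1 - p) * (y / (A + y)) + p * (y / (B + y))) = 1 := by
      field_simp
      ring
    have h4 : (A ^ (1 - p) * B ^ p + y) / ((A + y) ^ (1 - p) * (B + y) ^ p) ≤ 1 := by
      calc _ = _ := e1.symm
        _ ≤ _ := add_le_add h1 h2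
        _ = 1 := e2
    rwa [div_le_one hpos] at h4
  have h5 : 0 < A ^ (1 - p) * B ^ p + y := by
    have := mul_pos (Real.rpow_pos_of_pos hA (1 - p)) (Real.rpow_pos_of_pos hB p)
    linarith
  calc Real.log (A ^ (1 - p) * B ^ p + y) ≤ Real.log ((A + y) ^ (1 - p) * (B + y) ^ p) :=
        Real.log_le_log h5 h3
    _ = _ := by
        rw [Real.log_mul (Real.rpow_pos_of_pos hAy _).ne' (Real.rpow_pos_of_pos hBy _).ne',
          Real.log_rpow hAy, Real.log_rpow hBy]

/-- the weight of the half block -/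
noncomputable def pw (θ : ℝ) : ℝ := Real.log (2 * θ) / Real.log 2

theorem pw_nonneg {θ : ℝ} (h : 1 / 2 ≤ θ) : 0 ≤ pw θ :=
  div_nonneg (Real.log_nonneg (by linarith)) (Real.log_nonneg (by norm_num))

theorem pw_le_one {θ : ℝ} (h : 1 / 2 ≤ θ) (h1 : θ ≤ 1) : pw θ ≤ 1 := by
  unfold pw
  rw [div_le_one (Real.log_pos (by norm_num))]
  exact Real.log_le_log (by linarith) (by linarith)

theorem pw_mul_log (θ : ℝ) : pw θ * Real.log 2 = Real.log (2 * θ) := by
  unfold pw
  rw [div_mul_cancel₀]
  exact (Real.log_pos (by norm_num)).ne'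

/-- potential of the law replacing the root `P + θ l` of the component `(P, P + l)` -/
noncomputable def LamR (P l θ x : ℝ) : ℝ :=
  (1 - pw θ) * G P (P + 2 * l) x + pw θ * G (P + l) (P + 2 * l) x

section right
variable {P l θ : ℝ} (hl : 0 < l) (h1 : 1 / 2 ≤ θ) (h2 : θ < 1)
include hl h1 h2

theorem LamR_left {x : ℝ} (hx : x ≤ P) : Real.log (P + θ * l - x) ≤ LamR P l θ x := by
  have hp0 := pw_nonneg h1
  have hp1 := pw_le_one h1 h2.le
  have hpl := pw_mul_log θ
  have a1 := G_ge_left (u := P) (v := P + 2 * l) (x := x) (by linarith) hx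
  have a2 := G_ge_left (u := P + l) (v := P + 2 * l) (x := x) (by linarith) (by linarith)
  rw [show (P + 2 * l - P) / 4 + (P - x) = l / 2 + (P - x) by ring] at a1
  rw [show (P + 2 * l - (P + l)) / 4 + (P + l - x) = l / 4 + l + (P - x) by ring] at a2
  have a3 : Real.log (l + (P - x)) ≤ Real.log (l / 4 + l + (P - x)) :=
    Real.log_le_log (by linarith) (by linarith)
  have a4 := log_superadd (A := l / 2) (B := l) (y := P - x) (p := pw θ) (by linarith) hl
    (by linarith) hp0 hp1
  have a5 : (l / 2) ^ (1 - pw θ) * l ^ pw θ = θ * l := by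
    have h3 : Real.log ((l / 2) ^ (1 - pw θ) * l ^ pw θ) = Real.log (θ * l) := by
      rw [Real.log_mul (Real.rpow_pos_of_pos (by linarith) _).ne'
        (Real.rpow_pos_of_pos hl _).ne', Real.log_rpow (by linarith), Real.log_rpow hl,
        Real.log_div hl.ne' (by norm_num), Real.log_mul (by linarith) hl.ne']
      rw [Real.log_mul (by norm_num) (by linarith)] at hpl
      linarith
    exact Real.log_injOn_pos (mul_pos (Real.rpow_pos_of_pos (by linarith) _)
      (Real.rpow_pos_of_pos hl _)) (show (0:ℝ) < θ * l by positivity) h3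
  rw [a5] at a4
  have a6 : P + θ * l - x = θ * l + (P - x) := by ring
  rw [a6]
  refine a4.trans ?_
  unfold LamR
  have b1 := mul_le_mul_of_nonneg_left a1 (show 0 ≤ 1 - pw θ by linarith)
  have b2 := mul_le_mul_of_nonneg_left (a3.trans a2) hp0
  linarith

theorem LamR_right {x : ℝ} (hx : P + 2 * l ≤ x) :
    Real.log (x - l - (P + θ * l)) ≤ LamR P l θ x := by
  have hp0 := pw_nonneg h1
  have hp1 := pw_le_one h1 h2.le
  have hpl := pw_mul_log θ
  have a1 := G_ge_right (u := P) (v := P + 2 * l) (x := x) (by linarith) hx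
  have a2 := G_ge_right (u := P + l) (v := P + 2 * l) (x := x) (by linarith) hx
  rw [show (P + 2 * l - P) / 4 + (x - (P + 2 * l)) = l / 2 + (x - (P + 2 * l)) by ring] at a1
  rw [show (P + 2 * l - (P + l)) / 4 + (x - (P + 2 * l)) = l / 4 + (x - (P + 2 * l)) by ring] at a2
  have a4 := log_superadd (A := l / 2) (B := l / 4) (y := x - (P + 2 * l)) (p := pw θ)
    (by linarith) (by linarith) (by linarith) hp0 hp1
  have a5 : (l / 2) ^ (1 - pw θ) * (l / 4) ^ pw θ = l / (4 * θ) := by
    have h3 : Real.log ((l / 2) ^ (1 - pw θ) * (l / 4) ^ pw θ) = Real.log (l / (4 * θ)) := by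
      rw [Real.log_mul (Real.rpow_pos_of_pos (by linarith) _).ne'
        (Real.rpow_pos_of_pos (by linarith) _).ne', Real.log_rpow (by linarith),
        Real.log_rpow (by linarith),
        Real.log_div hl.ne' (by norm_num), Real.log_div hl.ne' (by norm_num),
        Real.log_div hl.ne' (by linarith), show (4:ℝ) * θ = 2 * (2 * θ) by ring,
        Real.log_mul (by norm_num) (by linarith), ← hpl, show (4:ℝ) = 2 * 2 by norm_num,
        Real.log_mul (by norm_num) (by norm_num)]
      ring
    exact Real.log_injOn_pos (mul_pos (Real.rpow_pos_of_pos (by linarith) _)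
      (Real.rpow_pos_of_pos (by linarith) _)) (show (0:ℝ) < l / (4 * θ) by positivity) h3
  rw [a5] at a4
  have a6 : Real.log (x - l - (P + θ * l)) ≤ Real.log (l / (4 * θ) + (x - (P + 2 * l))) := by
    apply Real.log_le_log (by nlinarith)
    have : (1 - θ) * l ≤ l / (4 * θ) := by
      rw [le_div_iff₀ (by linarith)]
      nlinarith [sq_nonneg (2 * θ - 1)]
    linarith
  refine a6.trans (a4.trans ?_)
  unfold LamR
  have b1 := mul_le_mul_of_nonneg_left a1 (show 0 ≤ 1 - pw θ by linarith)
  have b2 := mul_le_mul_of_nonneg_left a2 hp0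
  linarith

theorem LamR_mid {x : ℝ} (hx1 : P ≤ x) (hx2 : x ≤ P + 2 * l) :
    ∃ τ : ℝ, 0 ≤ τ ∧ τ ≤ 1 ∧ x - l ≤ P + τ * l ∧ P + τ * l ≤ x ∧
      (1 - τ) * Real.log (θ * l) + τ * Real.log ((1 - θ) * l) ≤ LamR P l θ x := by
  have hp0 := pw_nonneg h1
  have hp1 := pw_le_one h1 h2.le
  have hpl := pw_mul_log θ
  have hG1 : G P (P + 2 * l) x = Real.log (l / 2) := by
    rw [G_of_mem hx1 hx2]; congr 1; ring
  have hl2 : Real.log (l / 2) = Real.log l - Real.log 2 := Real.log_div hl.ne' (by norm_num)
  have hlog2 : 0 < Real.log 2 := Real.log_pos (by norm_num)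
  -- log (2 (1-θ)) ≤ - log (2 θ)
  have hq : Real.log (1 - θ) + Real.log 2 ≤ -Real.log (2 * θ) := by
    rw [← Real.log_mul (by linarith) (by norm_num)]
    have h3 : Real.log ((1 - θ) * 2) + Real.log (2 * θ) ≤ 0 := by
      rw [← Real.log_mul (by linarith) (by linarith)]
      exact Real.log_nonpos (by nlinarith) (by nlinarith [sq_nonneg (2 * θ - 1)])
    linarith
  have hth : Real.log (2 * θ) = Real.log 2 + Real.log θ :=
    Real.log_mul (by norm_num) (by linarith)
  rcases le_total x (P + l) with h | h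
  · refine ⟨(x - P) / l, div_nonneg (by linarith) hl.le, ?_, ?_, ?_, ?_⟩
    · rw [div_le_one hl]; linarith
    · rw [div_mul_cancel₀ _ hl.ne']; linarith
    · rw [div_mul_cancel₀ _ hl.ne']; linarith
    · set X : ℝ := (P + l - x) / l with hX
      have hX0 : 0 ≤ X := div_nonneg (by linarith) hl.le
      have hX1 : X ≤ 1 := by rw [hX, div_le_one hl]; linarith
      have hXτ : (x - P) / l = 1 - X := by rw [hX]; field_simp; ring
      have hG2 := G_ge_left (u := P + l) (v := P + 2 * l) (x := x) (by linarith) h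
      have e1 : (P + 2 * l - (P + l)) / 4 + (P + l - x) = l / 4 * (1 + 4 * X) := by
        rw [hX]; field_simp; ring
      rw [e1, Real.log_mul (by linarith) (by linarith), Real.log_div hl.ne' (by norm_num),
        show (4:ℝ) = 2 * 2 by norm_num, Real.log_mul (by norm_num) (by norm_num)] at hG2
      have hconc : X * (2 * Real.log 2) ≤ Real.log (1 + 2 * 2 * X) := by
        have h4 := Real.geom_mean_le_arith_mean2_weighted (show 0 ≤ 1 - X by linarith) hX0
          (show (0:ℝ) ≤ 1 by norm_num) (show (0:ℝ) ≤ 4 by norm_num) (by ring)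
        rw [Real.one_rpow, one_mul] at h4
        have h5 : (4:ℝ) ^ X ≤ 1 + 2 * 2 * X := by linarith
        have h6 := Real.log_le_log (Real.rpow_pos_of_pos (by norm_num) X) h5
        rw [Real.log_rpow (by norm_num), show (4:ℝ) = 2 * 2 by norm_num,
          Real.log_mul (by norm_num) (by norm_num)] at h6
        linarith
      rw [hXτ]
      unfold LamR
      rw [hG1, hl2, Real.log_mul (by linarith) hl.ne', Real.log_mul (by linarith) hl.ne']
      have b2 := mul_le_mul_of_nonneg_left hG2 hp0
      have b3 := mul_le_mul_of_nonneg_left hconc hp0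
      have b4 := mul_le_mul_of_nonneg_left hq (show 0 ≤ 1 - X by linarith)
      rw [hth] at hpl hq b4
      have b5 : X * (pw θ * Real.log 2) = X * (Real.log 2 + Real.log θ) := by rw [hpl]
      nlinarith
  · refine ⟨1, zero_le_one, le_rfl, by linarith, by linarith, ?_⟩
    have hG2 : G (P + l) (P + 2 * l) x = Real.log (l / 4) := by
      rw [G_of_mem h hx2]; congr 1; ring
    have hl4 : Real.log (l / 4) = Real.log l - 2 * Real.log 2 := by
      rw [Real.log_div hl.ne' (by norm_num), show (4:ℝ) = 2 * 2 by norm_num,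
        Real.log_mul (by norm_num) (by norm_num)]
      ring
    have hl5 : Real.log ((1 - θ) * l) = Real.log (1 - θ) + Real.log l :=
      Real.log_mul (by linarith) hl.ne'
    unfold LamR
    rw [hG1, hG2, hl2, hl4, hl5]
    rw [hth] at hpl hq
    nlinarith

end right

theorem G_mirror {u v : ℝ} (huv : u < v) (s x : ℝ) : G (s - v) (s - u) (s - x) = G u v x := by
  rw [← G_neg huv x, ← G_translate (-v) (-u) (-x) s]
  congr 1 <;> ring

/-- weight of the half block, general position -/
noncomputable def wt (θ : ℝ) : ℝ := if 1 / 2 ≤ θ then pw θ else pw (1 - θ)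

/-- left end of the half block -/
noncomputable def hb (P l θ : ℝ) : ℝ := if 1 / 2 ≤ θ then P + l else P

/-- potential of the law replacing the root `P + θ l` of the component `(P, P + l)` -/
noncomputable def Lam (P l θ x : ℝ) : ℝ :=
  (1 - wt θ) * G P (P + 2 * l) x + wt θ * G (hb P l θ) (hb P l θ + l) x

section gen
variable {P l θ : ℝ} (hl : 0 < l) (h0 : 0 < θ) (h2 : θ < 1)

theorem wt_nonneg (h2 : θ < 1) : 0 ≤ wt θ := by
  unfold wt
  split_ifs with h
  · exact pw_nonneg h
  · exact pw_nonneg (by linarith)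

theorem wt_le_one (h0 : 0 < θ) (h2 : θ < 1) : wt θ ≤ 1 := by
  unfold wt
  split_ifs with h
  · exact pw_le_one h h2.le
  · exact pw_le_one (by linarith) (by linarith)

include hl in
theorem Lam_eq_left (h : θ < 1 / 2) (x : ℝ) :
    Lam P l θ x = LamR P l (1 - θ) (2 * P + 2 * l - x) := by
  unfold Lam LamR wt hb
  rw [if_neg (not_le.2 h), if_neg (not_le.2 h)]
  have e1 := G_mirror (u := P) (v := P + 2 * l) (by linarith) (2 * P + 2 * l) x
  have e2 := G_mirror (u := P) (v := P + l) (by linarith) (2 * P + 2 * l) x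
  rw [show 2 * P + 2 * l - (P + 2 * l) = P by ring, show 2 * P + 2 * l - P = P + 2 * l by ring]
    at e1
  rw [show 2 * P + 2 * l - (P + l) = P + l by ring, show 2 * P + 2 * l - P = P + 2 * l by ring]
    at e2
  rw [e1, e2]

theorem Lam_eq_right (h : 1 / 2 ≤ θ) (x : ℝ) : Lam P l θ x = LamR P l θ x := by
  unfold Lam LamR wt hb
  rw [if_pos h, if_pos h, show P + l + l = P + 2 * l by ring]

include hl h0 h2

theorem Lam_left {x : ℝ} (hx : x ≤ P) : Real.log (P + θ * l - x) ≤ Lam P l θ x := by
  rcases lt_or_ge θ (1/2) with h | h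
  · rw [Lam_eq_left hl h]
    have := LamR_right (P := P) (θ := 1 - θ) hl (by linarith) (by linarith)
      (x := 2 * P + 2 * l - x) (by linarith)
    refine le_trans (le_of_eq ?_) this
    congr 1; ring
  · rw [Lam_eq_right h]
    exact LamR_left hl h h2 hx

theorem Lam_right {x : ℝ} (hx : P + 2 * l ≤ x) :
    Real.log (x - l - (P + θ * l)) ≤ Lam P l θ x := by
  rcases lt_or_ge θ (1/2) with h | h
  · rw [Lam_eq_left hl h]
    have := LamR_left (P := P) (θ := 1 - θ) hl (by linarith) (by linarith)
      (x := 2 * P + 2 * l - x) (by linarith)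
    refine le_trans (le_of_eq ?_) this
    congr 1; ring
  · rw [Lam_eq_right h]
    exact LamR_right hl h h2 hx

theorem Lam_mid {x : ℝ} (hx1 : P ≤ x) (hx2 : x ≤ P + 2 * l) :
    ∃ τ : ℝ, 0 ≤ τ ∧ τ ≤ 1 ∧ x - l ≤ P + τ * l ∧ P + τ * l ≤ x ∧
      (1 - τ) * Real.log (θ * l) + τ * Real.log ((1 - θ) * l) ≤ Lam P l θ x := by
  rcases lt_or_ge θ (1/2) with h | h
  · rw [Lam_eq_left hl h]
    obtain ⟨τ, t1, t2, t3, t4, t5⟩ := LamR_mid (P := P) (θ := 1 - θ) hl (by linarith)
      (by linarith) (x := 2 * P + 2 * l - x) (by linarith) (by linarith)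
    refine ⟨1 - τ, by linarith, by linarith, by nlinarith, by nlinarith, ?_⟩
    rw [show 1 - (1 - θ) = θ by ring] at t5
    linarith
  · rw [Lam_eq_right h]
    exact LamR_mid hl h h2 hx1 hx2

end gen

end Pool.Agent.MP28e671
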