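import Mathlib
import Pool.Agent.MP28e671.Trans

set_option autoImplicit false

open Real Set

namespace Pool.Agent.MP28e671

/-! ### Elementary bounds for logarithms -/

theorem log_ratio_ge {u : ℝ} (h0 : 0 ≤ u) (h1 : u < 1) :
    2 * u + 2 / 3 * u ^ 3 ≤ log (1 + u) - log (1 - u) := by
  have h := Real.hasSum_log_sub_log_of_abs_lt_one (show |u| < 1 by rw [abs_of_nonneg h0]; exact h1)
  have h2 := sum_le_hasSum (Finset.range 2) (fun k _ => by positivity) h
  refine le_trans (le_of_eq ?_) h2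
  rw [Finset.sum_range_succ, Finset.sum_range_succ, Finset.sum_range_zero]
  norm_num

theorem log_ratio_le {u : ℝ} (h0 : 0 ≤ u) (h1 : u < 1) :
    (1 - u ^ 2) * (log (1 + u) - log (1 - u)) ≤ 2 * (u - 2 / 3 * u ^ 3) := by
  have hd : ∀ x ∈ Ico (0:ℝ) 1, HasDerivAt
      (fun x => 2 * (x - 2 / 3 * x ^ 3) - (1 - x ^ 2) * (log (1 + x) - log (1 - x)))
      (2 * (1 - 2 / 3 * (3 * x ^ 2)) - ((-(2 * x)) * (log (1 + x) - log (1 - x)) +
        (1 - x ^ 2) * (1 / (1 + x) - (-1) / (1 - x)))) x := by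
    intro x hx
    have e1 : (1 + x) ≠ 0 := by linarith [hx.1]
    have e2 : (1 - x) ≠ 0 := by linarith [hx.2]
    have d1 : HasDerivAt (fun x : ℝ => log (1 + x)) (1 / (1 + x)) x :=
      ((hasDerivAt_id x).const_add 1).log e1
    have d2 : HasDerivAt (fun x : ℝ => log (1 - x)) ((-1) / (1 - x)) x :=
      ((hasDerivAt_id x).const_sub 1).log e2
    have d3 : HasDerivAt (fun x : ℝ => x ^ 3) (3 * x ^ 2) x := by simpa using hasDerivAt_pow 3 x
    have d4 : HasDerivAt (fun x : ℝ => x ^ 2) (2 * x) x := by simpa using hasDerivAt_pow 2 x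
    have d5 : HasDerivAt (fun x : ℝ => 1 - x ^ 2) (-(2 * x)) x := by simpa using d4.const_sub 1
    exact (((hasDerivAt_id x).sub (d3.const_mul (2/3))).const_mul 2).sub (d5.mul (d1.sub d2))
  have hmono : MonotoneOn
      (fun x => 2 * (x - 2 / 3 * x ^ 3) - (1 - x ^ 2) * (log (1 + x) - log (1 - x)))
      (Ico 0 1) := by
    refine monotoneOn_of_deriv_nonneg (convex_Ico 0 1)
      (fun x hx => (hd x hx).continuousAt.continuousWithinAt)
      (fun x hx => (hd x (interior_subset hx)).differentiableAt.differentiableWithinAt) ?_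
    intro x hx
    have hx' := interior_subset hx
    rw [(hd x hx').deriv]
    have h3 := log_ratio_ge hx'.1 hx'.2
    have e1 : (1 + x) ≠ 0 := by linarith [hx'.1]
    have e2 : (1 - x) ≠ 0 := by linarith [hx'.2]
    have e3 : (1 - x ^ 2) * (1 / (1 + x) - (-1) / (1 - x)) = 2 := by
      field_simp; ring
    rw [e3]
    have h4 : 0 ≤ x := hx'.1
    have h5 : 2 * x ≤ log (1 + x) - log (1 - x) := by nlinarith [pow_nonneg h4 3]
    nlinarith
  have := hmono (mem_Ico.2 ⟨le_rfl, zero_lt_one⟩) (mem_Ico.2 ⟨h0, h1⟩) h0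
  simp only at this
  norm_num at this
  linarith

theorem entropy_aux {v : ℝ} (h0 : 0 ≤ v) (h1 : v < 1) :
    v ^ 2 + v ^ 4 / 6 ≤ (1 + v) * log (1 + v) + (1 - v) * log (1 - v) := by
  have hd : ∀ x ∈ Ico (0:ℝ) 1, HasDerivAt
      (fun x => (1 + x) * log (1 + x) + (1 - x) * log (1 - x) - (x ^ 2 + x ^ 4 / 6))
      ((1 * log (1 + x) + (1 + x) * (1 / (1 + x))) + ((-1) * log (1 - x) +
        (1 - x) * ((-1) / (1 - x))) - (2 * x + 4 * x ^ 3 / 6)) x := by
    intro x hx
    have e1 : (1 + x) ≠ 0 := by linarith [hx.1]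
    have e2 : (1 - x) ≠ 0 := by linarith [hx.2]
    have d0 : HasDerivAt (fun x : ℝ => 1 + x) 1 x := (hasDerivAt_id x).const_add 1
    have d0' : HasDerivAt (fun x : ℝ => 1 - x) (-1) x := (hasDerivAt_id x).const_sub 1
    have d1 : HasDerivAt (fun x : ℝ => log (1 + x)) (1 / (1 + x)) x := d0.log e1
    have d2 : HasDerivAt (fun x : ℝ => log (1 - x)) ((-1) / (1 - x)) x := d0'.log e2
    have d3 : HasDerivAt (fun x : ℝ => x ^ 4) (4 * x ^ 3) x := by simpa using hasDerivAt_pow 4 x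
    have d4 : HasDerivAt (fun x : ℝ => x ^ 2) (2 * x) x := by simpa using hasDerivAt_pow 2 x
    exact ((d0.mul d1).add (d0'.mul d2)).sub (d4.add (d3.div_const 6))
  have hmono : MonotoneOn
      (fun x => (1 + x) * log (1 + x) + (1 - x) * log (1 - x) - (x ^ 2 + x ^ 4 / 6))
      (Ico 0 1) := by
    refine monotoneOn_of_deriv_nonneg (convex_Ico 0 1)
      (fun x hx => (hd x hx).continuousAt.continuousWithinAt)
      (fun x hx => (hd x (interior_subset hx)).differentiableAt.differentiableWithinAt) ?_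
    intro x hx
    have hx' := interior_subset hx
    rw [(hd x hx').deriv]
    have h3 := log_ratio_ge hx'.1 hx'.2
    have e1 : (1 + x) ≠ 0 := by linarith [hx'.1]
    have e2 : (1 - x) ≠ 0 := by linarith [hx'.2]
    have e3 : (1 + x) * (1 / (1 + x)) = 1 := by field_simp
    have e4 : (1 - x) * ((-1) / (1 - x)) = -1 := by field_simp
    rw [e3, e4]
    nlinarith
  have := hmono (mem_Ico.2 ⟨le_rfl, zero_lt_one⟩) (mem_Ico.2 ⟨h0, h1⟩) h0
  simp only at this
  norm_num at this
  linarith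

theorem entropy_le {v : ℝ} (h0 : -1 < v) (h1 : v < 1) :
    v ^ 2 + v ^ 4 / 6 ≤ (1 + v) * log (1 + v) + (1 - v) * log (1 - v) := by
  rcases le_total 0 v with h | h
  · exact entropy_aux h h1
  · have := entropy_aux (v := -v) (by linarith) (by linarith)
    rw [show 1 + -v = 1 - v by ring, show 1 - -v = 1 + v by ring] at this
    nlinarith

/-- `(1 - v²) D² / 4 ≤ v²` -/
theorem D_sq_le {v : ℝ} (h0 : -1 < v) (h1 : v < 1) :
    (1 - v ^ 2) * (log (1 + v) - log (1 - v)) ^ 2 / 4 ≤ v ^ 2 := by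
  have e1 : 0 < 1 + v := by linarith
  have e2 : 0 < 1 - v := by linarith
  set D := log (1 + v) - log (1 - v) with hD
  have h3 : (D / 2) ^ 2 ≤ sinh (D / 2) ^ 2 := by
    rw [sq_le_sq, abs_sinh]
    exact Real.self_le_sinh_iff.2 (abs_nonneg _)
  have h4 : exp D = (1 + v) / (1 - v) := by
    rw [hD, exp_sub, exp_log e1, exp_log e2]
  have h5 : exp (-D) = (1 - v) / (1 + v) := by
    rw [exp_neg, h4, inv_div]
  have h6 : sinh (D / 2) ^ 2 = v ^ 2 / (1 - v ^ 2) := by
    have h7 : cosh D = 2 * sinh (D / 2) ^ 2 + 1 := by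
      have := cosh_two_mul (D / 2)
      rw [show 2 * (D / 2) = D by ring, cosh_sq] at this
      linarith
    rw [cosh_eq, h4, h5] at h7
    have h8 : sinh (D / 2) ^ 2 = (((1 + v) / (1 - v) + (1 - v) / (1 + v)) / 2 - 1) / 2 := by
      linarith
    rw [h8]
    have h9 : 1 - v ^ 2 = (1 - v) * (1 + v) := by ring
    rw [h9]
    field_simp
    ring
  rw [h6] at h3
  have h9 : 0 < 1 - v ^ 2 := by nlinarith
  rw [le_div_iff₀ h9] at h3
  linarith

/-- the quadratic form of the derivative condition, as a function of the logarithms -/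
theorem core_poly {w γ K : ℝ} (h0 : 0 < w) (h1 : w ≤ 3 / 5)
    (hγ : 0 ≤ γ) (hK : 0 ≤ K)
    (hp : ∀ v : ℝ, -1 < v → v ≤ 1 / 5 →
      0 ≤ γ ^ 2 * K * (1 - v) / 2 - γ * (0.69315 - v ^ 2 / 2 - v ^ 4 / 12) * ((1 + v) / 2 + K) +
        γ * (v - 2 / 3 * v ^ 3 - 1 / 75 * v ^ 2) - v ^ 2) :
    (γ - (-log (1 - w)) + (-log w)) ^ 2 * (w * (1 - w)) ≤
      γ * ((γ - (-log (1 - w))) * (1 - w) - w * (-log w)) * (w + K) := by
  set v := 2 * w - 1 with hv
  have hv0 : -1 < v := by rw [hv]; linarith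
  have hv1 : v ≤ 1 / 5 := by rw [hv]; linarith
  have hw : w = (1 + v) / 2 := by rw [hv]; ring
  have hw' : 1 - w = (1 - v) / 2 := by rw [hv]; ring
  have e1 : 0 < 1 + v := by linarith
  have e2 : 0 < 1 - v := by linarith
  have hl1 : log w = log (1 + v) - log 2 := by
    rw [hw, log_div e1.ne' (by norm_num)]
  have hl2 : log (1 - w) = log (1 - v) - log 2 := by
    rw [hw', log_div e2.ne' (by norm_num)]
  have hent := entropy_le hv0 (by linarith)
  have hD2 := D_sq_le hv0 (by linarith)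
  have hlog2 := Real.log_two_lt_d9
  set P := log (1 + v) with hP
  set M := log (1 - v) with hM
  -- bound of the linear term
  have hD1 : v - 2 / 3 * v ^ 3 - 1 / 75 * v ^ 2 ≤ (1 - v ^ 2) * (P - M) / 2 := by
    rcases le_total 0 v with h | h
    · have h3 := log_ratio_ge h (by linarith)
      rw [← hP, ← hM] at h3
      have h4 : 0 ≤ 1 - v ^ 2 := by nlinarith
      have h5 := mul_le_mul_of_nonneg_left h3 h4
      have h6 : v ^ 3 ≤ 1 / 25 * v := by
        have : v ^ 2 ≤ 1 / 25 := by nlinarith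
        nlinarith
      have h7 : v ^ 5 ≤ 1 / 25 * v ^ 2 := by
        have h8 : v ^ 3 ≤ 1 / 125 := by
          have : v ^ 2 ≤ 1 / 25 := by nlinarith
          nlinarith
        nlinarith [pow_nonneg h 2, pow_nonneg h 3]
      nlinarith
    · have h3 := log_ratio_le (u := -v) (by linarith) (by linarith)
      rw [show 1 + -v = 1 - v by ring, show 1 - -v = 1 + v by ring] at h3
      rw [← hP, ← hM] at h3
      nlinarith [sq_nonneg v]
  have hmain := hp v hv0 hv1
  rw [hl1, hl2]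
  -- entropy
  have hh : (1 - w) * (-(M - log 2)) + w * (-(P - log 2)) ≤ 0.69315 - v ^ 2 / 2 - v ^ 4 / 12 := by
    rw [hw, show 1 - (1 + v) / 2 = (1 - v) / 2 by ring]
    nlinarith
  have hwK : 0 ≤ w + K := by linarith
  have h5 := mul_le_mul_of_nonneg_left (mul_le_mul_of_nonneg_right hh hwK) hγ
  have h6 := mul_le_mul_of_nonneg_left hD1 hγ
  have e3 : w * (1 - w) = (1 - v ^ 2) / 4 := by rw [hw]; ring
  -- expansion
  have e4 : γ * ((γ - (-(M - log 2))) * (1 - w) - w * (-(P - log 2))) * (w + K) -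
      (γ - (-(M - log 2)) + (-(P - log 2))) ^ 2 * (w * (1 - w)) =
      γ ^ 2 * K * (1 - w) - γ * (((1 - w) * (-(M - log 2)) + w * (-(P - log 2))) * (w + K)) +
        γ * ((1 - v ^ 2) * (P - M) / 2) - (1 - v ^ 2) * (P - M) ^ 2 / 4 := by
    have e5 : (γ - (-(M - log 2)) + (-(P - log 2))) ^ 2 * (w * (1 - w)) =
        γ ^ 2 * (w * (1 - w)) - γ * ((1 - v ^ 2) * (P - M) / 2) + (1 - v ^ 2) * (P - M) ^ 2 / 4 := by
      rw [e3]; ring
    rw [e5]; ring
  have e6 : γ ^ 2 * K * (1 - w) = γ ^ 2 * K * (1 - v) / 2 := by rw [hw']; ring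
  have e7 : w + K = (1 + v) / 2 + K := by rw [hw]
  rw [e6] at e4
  rw [e7] at h5
  rw [e7] at e4 ⊢
  linarith

theorem poly1 (v : ℝ) (h0 : -1 < v) (h1 : v ≤ 1 / 5) :
    0 ≤ (3.1:ℝ) ^ 2 * 0.4246 * (1 - v) / 2 -
        3.1 * (0.69315 - v ^ 2 / 2 - v ^ 4 / 12) * ((1 + v) / 2 + 0.4246) +
        3.1 * (v - 2 / 3 * v ^ 3 - 1 / 75 * v ^ 2) - v ^ 2 := by
  rcases le_total v (-0.4) with h | h
  · nlinarith [mul_nonneg (sub_nonneg.2 h) (show 0 ≤ 1 + v by linarith), pow_two_nonneg v,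
      mul_nonneg (mul_nonneg (sub_nonneg.2 h) (show 0 ≤ 1 + v by linarith)) (pow_two_nonneg v),
      pow_two_nonneg (v ^ 2)]
  · nlinarith [mul_nonneg (sub_nonneg.2 h) (sub_nonneg.2 h1), pow_two_nonneg v,
      mul_nonneg (mul_nonneg (sub_nonneg.2 h) (sub_nonneg.2 h1)) (pow_two_nonneg v),
      pow_two_nonneg (v ^ 2), pow_two_nonneg (v - 0.05), pow_two_nonneg (v * (v - 0.1))]

theorem poly2 (v : ℝ) (h0 : -1 < v) (h1 : v ≤ 1 / 5) :
    0 ≤ (3.3:ℝ) ^ 2 * 0.395 * (1 - v) / 2 -
        3.3 * (0.69315 - v ^ 2 / 2 - v ^ 4 / 12) * ((1 + v) / 2 + 0.395) +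
        3.3 * (v - 2 / 3 * v ^ 3 - 1 / 75 * v ^ 2) - v ^ 2 := by
  rcases le_total v (-0.4) with h | h
  · nlinarith [mul_nonneg (sub_nonneg.2 h) (show 0 ≤ 1 + v by linarith), pow_two_nonneg v,
      mul_nonneg (mul_nonneg (sub_nonneg.2 h) (show 0 ≤ 1 + v by linarith)) (pow_two_nonneg v),
      pow_two_nonneg (v ^ 2)]
  · nlinarith [mul_nonneg (sub_nonneg.2 h) (sub_nonneg.2 h1), pow_two_nonneg v,
      mul_nonneg (mul_nonneg (sub_nonneg.2 h) (sub_nonneg.2 h1)) (pow_two_nonneg v),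
      pow_two_nonneg (v ^ 2), pow_two_nonneg (v - 0.05), pow_two_nonneg (v * (v - 0.1))]

/-- extension of the core inequality to larger `γ` and `K` -/
theorem core_ext {w γ γ1 K K1 L0 L1 : ℝ} (h0 : 0 < w) (h1 : w ≤ 3 / 5) (hγ1 : 0 < γ1)
    (hγ : γ1 ≤ γ) (hK1 : 0.395 ≤ K1) (hK : K1 ≤ K) (hL0 : 1 - w ≤ L0) (hL1 : w ≤ L1)
    (hD : L1 - L0 ≤ w / (1 - w) - 1)
    (hc : (γ1 - L1 + L0) ^ 2 * (w * (1 - w)) ≤ γ1 * ((γ1 - L1) * (1 - w) - w * L0) * (w + K1)) :
    (γ - L1 + L0) ^ 2 * (w * (1 - w)) ≤ γ * ((γ - L1) * (1 - w) - w * L0) * (w + K) := by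
  have hw1 : 0 < 1 - w := by linarith
  have hww : 0 < w * (1 - w) := mul_pos h0 hw1
  set D := L1 - L0 with hDd
  have hDw : D ≤ w + K1 := by
    refine hD.trans ?_
    rw [div_sub_one hw1.ne', div_le_iff₀ hw1]
    nlinarith
  set b := (L1 * (1 - w) + w * L0) * (w + K1) - 2 * D * (w * (1 - w)) with hb
  set c := D ^ 2 * (w * (1 - w)) with hcd
  have hc0 : 0 ≤ c := by positivity
  have hh : 2 * (w * (1 - w)) ≤ L1 * (1 - w) + w * L0 := by nlinarith
  have hb0 : 0 ≤ b := by
    have h2 : 2 * (w * (1 - w)) * (w + K1) ≤ (L1 * (1 - w) + w * L0) * (w + K1) :=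
      mul_le_mul_of_nonneg_right hh (by linarith)
    have h3 : 2 * D * (w * (1 - w)) ≤ 2 * (w + K1) * (w * (1 - w)) :=
      mul_le_mul_of_nonneg_right (by linarith) hww.le
    rw [hb]; linarith
  have hH : ∀ x : ℝ, x * ((x - L1) * (1 - w) - w * L0) * (w + K1) -
      (x - L1 + L0) ^ 2 * (w * (1 - w)) = x ^ 2 * ((1 - w) * K1) - x * b - c := by
    intro x
    rw [hb, hcd, hDd]; ring
  have h1' := hH γ1
  have h2' := hH γ
  have hpos1 : 0 ≤ γ1 ^ 2 * ((1 - w) * K1) - γ1 * b - c := by linarith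
  have hγ0 : 0 < γ := by linarith
  have hpos2 : 0 ≤ γ ^ 2 * ((1 - w) * K1) - γ * b - c := by
    have e : γ1 ^ 2 * (γ ^ 2 * ((1 - w) * K1) - γ * b - c) =
        γ ^ 2 * (γ1 ^ 2 * ((1 - w) * K1) - γ1 * b - c) + γ * γ1 * b * (γ - γ1) +
          c * (γ ^ 2 - γ1 ^ 2) := by ring
    have h5 : 0 ≤ γ1 ^ 2 * (γ ^ 2 * ((1 - w) * K1) - γ * b - c) := by
      rw [e]
      have a1 : 0 ≤ γ * γ1 * b * (γ - γ1) :=
        mul_nonneg (mul_nonneg (by positivity) hb0) (by linarith)
      have a2 : 0 ≤ c * (γ ^ 2 - γ1 ^ 2) := mul_nonneg hc0 (by nlinarith)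
      have a3 : 0 ≤ γ ^ 2 * (γ1 ^ 2 * ((1 - w) * K1) - γ1 * b - c) :=
        mul_nonneg (by positivity) hpos1
      linarith
    exact nonneg_of_mul_nonneg_right h5 (by positivity)
  have hfin : (γ - L1 + L0) ^ 2 * (w * (1 - w)) ≤
      γ * ((γ - L1) * (1 - w) - w * L0) * (w + K1) := by linarith
  refine hfin.trans ?_
  have hX : 0 ≤ γ * ((γ - L1) * (1 - w) - w * L0) := by
    have h6 : 0 ≤ (γ - L1 + L0) ^ 2 * (w * (1 - w)) := by positivity
    have h7 : 0 ≤ γ * ((γ - L1) * (1 - w) - w * L0) * (w + K1) := h6.trans hfin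
    exact nonneg_of_mul_nonneg_left h7 (by linarith)
  exact mul_le_mul_of_nonneg_left (by linarith) hX

theorem exp_33 : (0.0368:ℝ) ≤ exp (-3.3) := by
  have h1 := Real.exp_one_lt_d9
  have h2 : exp 3.3 ^ 10 = exp 1 ^ 33 := by
    rw [← exp_nat_mul, ← exp_nat_mul]; norm_num
  have h3 : exp 3.3 < 27.17 := by
    refine lt_of_pow_lt_pow_left₀ 10 (by norm_num) ?_
    rw [h2]
    calc exp 1 ^ 33 < 2.7182818286 ^ 33 := pow_lt_pow_left₀ h1 (exp_pos _).le (by norm_num)
      _ < 27.17 ^ 10 := by norm_num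
  rw [exp_neg, le_inv_comm₀ (by norm_num) (exp_pos _)]
  refine h3.le.trans (by norm_num)

theorem gam_ge {γ : ℝ} (h : exp (-γ) ≤ 0.045) : 3.1 ≤ γ := by
  by_contra hcon
  push Not at hcon
  have h1 := Real.exp_one_lt_d9
  have h2 : exp 3.1 ^ 10 = exp 1 ^ 31 := by
    rw [← exp_nat_mul, ← exp_nat_mul]; norm_num
  have h3 : exp 3.1 < 22.2222 := by
    refine lt_of_pow_lt_pow_left₀ 10 (by norm_num) ?_
    rw [h2]
    calc exp 1 ^ 31 < 2.7182818286 ^ 31 := pow_lt_pow_left₀ h1 (exp_pos _).le (by norm_num)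
      _ < 22.2222 ^ 10 := by norm_num
  have h4 : exp γ < 22.2222 := (exp_lt_exp.2 hcon).trans h3
  rw [exp_neg, inv_le_comm₀ (exp_pos _) (by norm_num)] at h
  norm_num at h h4
  linarith

/-- core inequality for all `γ ≥ 3.1` -/
theorem core {w γ : ℝ} (h0 : 0 < w) (h1 : w ≤ 3 / 5) (hγ : 3.1 ≤ γ) :
    (γ - (-log (1 - w)) + (-log w)) ^ 2 * (w * (1 - w)) ≤
      γ * ((γ - (-log (1 - w))) * (1 - w) - w * (-log w)) *
        (w + 0.395 * (1 + exp (-γ)) ^ 2) := by
  have hw1 : 0 < 1 - w := by linarith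
  have a1 : 1 - w ≤ -log w := by
    have := log_le_sub_one_of_pos h0
    linarith
  have a2 : w ≤ -log (1 - w) := by
    have := log_le_sub_one_of_pos hw1
    linarith
  have a3 : -log (1 - w) - -log w ≤ w / (1 - w) - 1 := by
    have h2 := log_le_sub_one_of_pos (div_pos h0 hw1)
    rw [log_div h0.ne' hw1.ne'] at h2
    linarith
  have ht := exp_pos (-γ)
  rcases le_total γ 3.3 with h | h
  · have hK : (0.4246:ℝ) ≤ 0.395 * (1 + exp (-γ)) ^ 2 := by
      have h3 : exp (-3.3) ≤ exp (-γ) := exp_le_exp.2 (by linarith)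
      have h4 := exp_33
      nlinarith
    refine core_ext (γ1 := 3.1) (K1 := 0.4246) h0 h1 (by norm_num) hγ (by norm_num) hK a1 a2 a3 ?_
    exact core_poly h0 h1 (by norm_num) (by norm_num) poly1
  · have hK : (0.395:ℝ) ≤ 0.395 * (1 + exp (-γ)) ^ 2 := by nlinarith
    refine core_ext (γ1 := 3.3) (K1 := 0.395) h0 h1 (by norm_num) h (by norm_num) hK a1 a2 a3 ?_
    exact core_poly h0 h1 (by norm_num) (by norm_num) poly2

/-- the function `l` -/
noncomputable def ell (γ y : ℝ) : ℝ := log (exp (γ + y) - 1) - log (exp γ - exp y)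

/-- its derivative -/
noncomputable def ell' (γ y : ℝ) : ℝ :=
  exp (γ + y) / (exp (γ + y) - 1) + exp y / (exp γ - exp y)

theorem ell_hasDerivAt {γ y : ℝ} (hγ : 0 < γ) (h0 : 0 < y) (h1 : y < γ) :
    HasDerivAt (ell γ) (ell' γ y) y := by
  have e1 : 0 < exp (γ + y) - 1 := by
    have := one_lt_exp_iff.2 (show 0 < γ + y by linarith)
    linarith
  have e2 : 0 < exp γ - exp y := sub_pos.2 (exp_lt_exp.2 h1)
  have d1 : HasDerivAt (fun y => exp (γ + y) - 1) (exp (γ + y)) y := by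
    have := ((hasDerivAt_id y).const_add γ).exp
    simpa using this.sub_const 1
  have d2 : HasDerivAt (fun y => exp γ - exp y) (-exp y) y := by
    simpa using (hasDerivAt_exp y).const_sub (exp γ)
  have h : HasDerivAt (fun y => log (exp (γ + y) - 1) - log (exp γ - exp y))
      (exp (γ + y) / (exp (γ + y) - 1) - -exp y / (exp γ - exp y)) y :=
    (d1.log e1.ne').sub (d2.log e2.ne')
  have e3 : ell' γ y = exp (γ + y) / (exp (γ + y) - 1) - -exp y / (exp γ - exp y) := by
    unfold ell'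
    rw [neg_div]; ring
  rw [e3]
  exact h

theorem ell_pos {γ y : ℝ} (hγ : 0 < γ) (h0 : 0 < y) (h1 : y < γ) : 0 < ell γ y := by
  have e2 : 0 < exp γ - exp y := sub_pos.2 (exp_lt_exp.2 h1)
  unfold ell
  rw [sub_pos]
  apply log_lt_log e2
  rw [exp_add]
  have h2 := one_lt_exp_iff.2 h0
  have h3 := one_lt_exp_iff.2 hγ
  nlinarith [mul_pos (sub_pos.2 h2) (sub_pos.2 h3)]

/-- bounds in terms of `w = 1 - exp (y - γ)` -/
theorem ell_le {γ y w : ℝ} (hγ : 0 < γ) (h0 : 0 < y) (h1 : y < γ) (hw : w = 1 - exp (y - γ)) :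
    ell γ y ≤ y - log w := by
  have hw0 : 0 < w := by
    rw [hw, sub_pos, ← exp_zero]; exact exp_lt_exp.2 (by linarith)
  have e1 : 0 < exp (γ + y) - 1 := by
    have := one_lt_exp_iff.2 (show 0 < γ + y by linarith)
    linarith
  have e3 : exp γ - exp y = exp γ * w := by
    rw [hw, mul_sub, mul_one, ← exp_add]; congr 2; ring
  unfold ell
  rw [e3, log_mul (exp_pos _).ne' hw0.ne', log_exp]
  have : log (exp (γ + y) - 1) ≤ γ + y :=
    calc log (exp (γ + y) - 1) ≤ log (exp (γ + y)) := log_le_log e1 (by linarith)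
      _ = γ + y := log_exp _
  linarith

theorem ell'_ge {γ y w : ℝ} (hγ : 0 < γ) (h0 : 0 < y) (h1 : y < γ) (hw : w = 1 - exp (y - γ)) :
    1 / w ≤ ell' γ y := by
  have hw0 : 0 < w := by
    rw [hw, sub_pos, ← exp_zero]; exact exp_lt_exp.2 (by linarith)
  have e1 : 0 < exp (γ + y) - 1 := by
    have := one_lt_exp_iff.2 (show 0 < γ + y by linarith)
    linarith
  have e3 : exp γ - exp y = exp γ * w := by
    rw [hw, mul_sub, mul_one, ← exp_add]; congr 2; ring
  have e4 : exp y = exp γ * (1 - w) := by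
    rw [hw, sub_sub_cancel, ← exp_add]; congr 1; ring
  unfold ell'
  rw [e3, e4, mul_div_mul_left _ _ (exp_pos γ).ne']
  have h5 : 1 ≤ exp (γ + y) / (exp (γ + y) - 1) := by
    rw [le_div_iff₀ e1]; linarith
  have h6 : (1:ℝ) / w = 1 + (1 - w) / w := by field_simp; ring
  rw [h6]; linarith

set_option maxHeartbeats 1000000 in
/-- the derivative condition -/
theorem deriv_cond {γ y : ℝ} (hγ : 3.1 ≤ γ) (hy : γ + log (2 / 5) ≤ y) (h1 : y < γ) :
    ell γ y ^ 2 * sinh y ≤
      γ * (y * ell' γ y - ell γ y) * (1.395 * (1 + cosh γ) - 1 - cosh y) := by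
  have hγ0 : 0 < γ := by linarith
  set w := 1 - exp (y - γ) with hw
  have hw0 : 0 < w := by
    rw [hw, sub_pos, ← exp_zero]; exact exp_lt_exp.2 (by linarith)
  have hw1 : w ≤ 3 / 5 := by
    have h2 : log (2 / 5) ≤ y - γ := by linarith
    have h3 := exp_le_exp.2 h2
    rw [exp_log (by norm_num)] at h3
    rw [hw]; linarith
  have hww : 0 < 1 - w := by linarith
  have hlw : log (1 - w) = y - γ := by rw [hw, sub_sub_cancel, log_exp]
  have hy0 : 0 < y := by
    have h2 : -1 ≤ log (2 / 5) := by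
      rw [← log_exp (-1)]
      apply log_le_log (exp_pos _)
      have := Real.exp_neg_one_lt_d9
      linarith
    linarith
  have hcore := core hw0 hw1 hγ
  rw [hlw] at hcore
  have e0 : γ - -(y - γ) = y := by ring
  rw [e0] at hcore
  set L0 := -log w with hL0
  set t := exp (-γ) with ht
  have ht0 : 0 < t := exp_pos _
  set K := 0.395 * (1 + t) ^ 2 with hK
  have hl := ell_le hγ0 hy0 h1 hw
  have hl' := ell'_ge hγ0 hy0 h1 hw
  have hlpos := ell_pos hγ0 hy0 h1
  -- hyperbolic functions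
  have ey : exp y = (1 - w) / t := by
    rw [hw, sub_sub_cancel, ht, ← exp_sub]; congr 1; ring
  have eny : exp (-y) = t / (1 - w) := by rw [exp_neg, ey, inv_div]
  have eg : exp γ = 1 / t := by rw [ht, exp_neg, one_div, inv_inv]
  set τ := t ^ 2 / (1 - w) with hτ
  have hS : 2 * t * (1.395 * (1 + cosh γ) - 1 - cosh y) = w + K + t ^ 2 - τ := by
    rw [cosh_eq, cosh_eq, ey, eny, eg, ← ht, hK, hτ]
    field_simp
    ring
  have hsh : 2 * t * sinh y = 1 - w - τ := by
    rw [sinh_eq, ey, eny, hτ]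
    field_simp
  have hτ0 : 0 ≤ τ := by positivity
  -- S is positive
  have hSpos : 0 < 1.395 * (1 + cosh γ) - 1 - cosh y := by
    have h2 : cosh y < cosh γ := by
      rw [cosh_lt_cosh, abs_of_pos hy0, abs_of_pos hγ0]; exact h1
    have h3 := cosh_pos γ
    linarith
  have hwK : 0 < w + K := by positivity
  have hSt : 0 < w + K + t ^ 2 - τ := by rw [← hS]; positivity
  -- first reduce to the core
  have h3 : y / w - y - L0 ≤ y * ell' γ y - ell γ y := by
    have h4 := mul_le_mul_of_nonneg_left hl' hy0.le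
    rw [mul_one_div] at h4
    have h5 : ell γ y ≤ y + L0 := by rw [hL0]; linarith
    linarith
  have hX : (y + L0) ^ 2 * (1 - w) ≤ γ * (y / w - y - L0) * (w + K) := by
    have h4 : γ * (y * (1 - w) - w * L0) * (w + K) = w * (γ * (y / w - y - L0) * (w + K)) := by
      field_simp
    rw [h4] at hcore
    have h5 : w * ((y + L0) ^ 2 * (1 - w)) ≤ w * (γ * (y / w - y - L0) * (w + K)) := by
      refine le_trans (le_of_eq ?_) hcore
      ring
    exact le_of_mul_le_mul_left h5 hw0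
  -- comparison of the correction terms
  have hcorr : (w + K) * (1 - w - τ) ≤ (1 - w) * (w + K + t ^ 2 - τ) := by
    have h4 : (1 - w) * (w + K + t ^ 2 - τ) - (w + K) * (1 - w - τ) =
        (w + K) * τ - t ^ 2 * w := by
      rw [hτ]; field_simp; ring
    have h5 : t ^ 2 * w ≤ (w + K) * τ := by
      have h6 : t ^ 2 ≤ τ := by
        rw [hτ, le_div_iff₀ hww]
        have : 0 ≤ t ^ 2 * w := by positivity
        linarith
      have h7 : t ^ 2 * w ≤ τ * w := mul_le_mul_of_nonneg_right h6 hw0.le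
      have h8 : 0 ≤ K := by positivity
      have h9 : w * τ ≤ (w + K) * τ := mul_le_mul_of_nonneg_right (by linarith) hτ0
      linarith
    linarith
  have hlsq : ell γ y ^ 2 ≤ (y + L0) ^ 2 :=
    pow_le_pow_left₀ hlpos.le (by rw [hL0]; linarith) 2
  -- multiply by 2t
  have hshpos : 0 ≤ 1 - w - τ := by
    rw [← hsh]
    have := sinh_pos_iff.2 hy0
    positivity
  have hmain : (y + L0) ^ 2 * (1 - w - τ) ≤ γ * (y / w - y - L0) * (w + K + t ^ 2 - τ) := by
    have h5 : (w + K) * ((y + L0) ^ 2 * (1 - w - τ)) ≤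
        (w + K) * (γ * (y / w - y - L0) * (w + K + t ^ 2 - τ)) := by
      calc (w + K) * ((y + L0) ^ 2 * (1 - w - τ))
          = (y + L0) ^ 2 * ((w + K) * (1 - w - τ)) := by ring
        _ ≤ (y + L0) ^ 2 * ((1 - w) * (w + K + t ^ 2 - τ)) :=
            mul_le_mul_of_nonneg_left hcorr (sq_nonneg _)
        _ = ((y + L0) ^ 2 * (1 - w)) * (w + K + t ^ 2 - τ) := by ring
        _ ≤ (γ * (y / w - y - L0) * (w + K)) * (w + K + t ^ 2 - τ) :=
            mul_le_mul_of_nonneg_right hX hSt.le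
        _ = _ := by ring
    exact le_of_mul_le_mul_left h5 hwK
  have hA : ell γ y ^ 2 * (1 - w - τ) ≤
      γ * (y * ell' γ y - ell γ y) * (w + K + t ^ 2 - τ) := by
    calc ell γ y ^ 2 * (1 - w - τ) ≤ (y + L0) ^ 2 * (1 - w - τ) :=
          mul_le_mul_of_nonneg_right hlsq hshpos
      _ ≤ _ := hmain
      _ ≤ _ := mul_le_mul_of_nonneg_right (mul_le_mul_of_nonneg_left h3 hγ0.le) hSt.le
  rw [← hsh, ← hS] at hA
  have h2t : 0 < 2 * t := by positivity
  have hB : 2 * t * (ell γ y ^ 2 * sinh y) ≤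
      2 * t * (γ * (y * ell' γ y - ell γ y) * (1.395 * (1 + cosh γ) - 1 - cosh y)) := by
    calc _ = ell γ y ^ 2 * (2 * t * sinh y) := by ring
      _ ≤ _ := hA
      _ = _ := by ring
  exact le_of_mul_le_mul_left hB h2t

/-- monotonicity of the logarithm of the length function -/
theorem Phi_mono {γ y0 y1 : ℝ} (hγ : 3.1 ≤ γ) (h0 : γ + log (2 / 5) ≤ y0) (hy0 : 0 < y0)
    (h01 : y0 ≤ y1) (h1 : y1 < γ) :
    -(γ * y0 / ell γ y0) + log (1.395 * (1 + cosh γ) - 1 - cosh y0) ≤
      -(γ * y1 / ell γ y1) + log (1.395 * (1 + cosh γ) - 1 - cosh y1) := by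
  have hγ0 : 0 < γ := by linarith
  have hS : ∀ y ∈ Icc y0 y1, 0 < 1.395 * (1 + cosh γ) - 1 - cosh y := by
    intro y hy
    have h2 : cosh y < cosh γ := by
      rw [cosh_lt_cosh, abs_of_pos (by linarith [hy.1]), abs_of_pos hγ0]; linarith [hy.2]
    have h3 := cosh_pos γ
    linarith
  have hd : ∀ y ∈ Icc y0 y1, HasDerivAt
      (fun y => -(γ * y / ell γ y) + log (1.395 * (1 + cosh γ) - 1 - cosh y))
      (-((γ * 1 * ell γ y - γ * y * ell' γ y) / ell γ y ^ 2) +
        (-sinh y) / (1.395 * (1 + cosh γ) - 1 - cosh y)) y := by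
    intro y hy
    have hy' : 0 < y := by linarith [hy.1]
    have hyγ : y < γ := by linarith [hy.2]
    have hl := ell_pos hγ0 hy' hyγ
    have d1 : HasDerivAt (fun y => γ * y) (γ * 1) y := (hasDerivAt_id y).const_mul γ
    have d2 := ell_hasDerivAt hγ0 hy' hyγ
    have d3 : HasDerivAt (fun y => 1.395 * (1 + cosh γ) - 1 - cosh y) (-sinh y) y := by
      simpa using (hasDerivAt_cosh y).const_sub (1.395 * (1 + cosh γ) - 1)
    exact ((d1.div d2 hl.ne').neg).add (d3.log (hS y hy).ne')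
  have hmono : MonotoneOn
      (fun y => -(γ * y / ell γ y) + log (1.395 * (1 + cosh γ) - 1 - cosh y)) (Icc y0 y1) := by
    refine monotoneOn_of_deriv_nonneg (convex_Icc y0 y1)
      (fun x hx => (hd x hx).continuousAt.continuousWithinAt)
      (fun x hx => (hd x (interior_subset hx)).differentiableAt.differentiableWithinAt) ?_
    intro x hx
    have hx' := interior_subset hx
    rw [(hd x hx').deriv]
    have hy' : 0 < x := by linarith [hx'.1]
    have hyγ : x < γ := by linarith [hx'.2]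
    have hl := ell_pos hγ0 hy' hyγ
    have hSx := hS x hx'
    have hc := deriv_cond hγ (by linarith [hx'.1]) hyγ
    have e : -((γ * 1 * ell γ x - γ * x * ell' γ x) / ell γ x ^ 2) +
        (-sinh x) / (1.395 * (1 + cosh γ) - 1 - cosh x) =
        (γ * (x * ell' γ x - ell γ x) * (1.395 * (1 + cosh γ) - 1 - cosh x) -
          ell γ x ^ 2 * sinh x) / (ell γ x ^ 2 * (1.395 * (1 + cosh γ) - 1 - cosh x)) := by
      have hl' := hl.ne'
      have hS' := hSx.ne'
      field_simp
      ring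
    rw [e]
    exact div_nonneg (by linarith) (by positivity)
  exact hmono ⟨le_rfl, h01⟩ ⟨h01, le_rfl⟩ h01

/-! ### Translation -/

theorem phi_ell {g yd : ℝ} (al : ℝ) (h0 : 0 < yd) (h1 : yd < g) :
    phi al (tanh g) yd = 2 * yd - al * ell (2 * g) (2 * yd) := by
  have hg : 0 < g := h0.trans h1
  have s1 : 0 < sinh (g + yd) := sinh_pos_iff.2 (by linarith)
  have s2 : 0 < sinh (g - yd) := sinh_pos_iff.2 (by linarith)
  have e1 : exp (2 * g + 2 * yd) - 1 = 2 * exp (g + yd) * sinh (g + yd) := by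
    rw [sinh_eq]
    have h2 : exp (g + yd) * exp (g + yd) = exp (2 * g + 2 * yd) := by
      rw [← exp_add]; congr 1; ring
    have h3 : exp (g + yd) * exp (-(g + yd)) = 1 := by rw [← exp_add]; simp
    calc exp (2 * g + 2 * yd) - 1 = exp (g + yd) * exp (g + yd) - exp (g + yd) * exp (-(g + yd)) := by
          rw [h2, h3]
      _ = _ := by ring
  have e2 : exp (2 * g) - exp (2 * yd) = 2 * exp (g + yd) * sinh (g - yd) := by
    rw [sinh_eq]
    have h2 : exp (g + yd) * exp (g - yd) = exp (2 * g) := by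
      rw [← exp_add]; congr 1; ring
    have h3 : exp (g + yd) * exp (-(g - yd)) = exp (2 * yd) := by
      rw [← exp_add]; congr 1; ring
    calc exp (2 * g) - exp (2 * yd) = exp (g + yd) * exp (g - yd) -
          exp (g + yd) * exp (-(g - yd)) := by rw [h2, h3]
      _ = _ := by ring
  unfold phi ell
  congr 1
  rw [e1, e2, ← log_div (by positivity) (by positivity), mul_div_mul_left _ _ (by positivity)]
  congr 2
  have c1 := cosh_pos g
  have c2 := cosh_pos yd
  have h4 : tanh g + tanh yd = sinh (g + yd) / (cosh g * cosh yd) := by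
    rw [tanh_eq_sinh_div_cosh, tanh_eq_sinh_div_cosh, sinh_add]
    field_simp
  have h5 : tanh g - tanh yd = sinh (g - yd) / (cosh g * cosh yd) := by
    rw [tanh_eq_sinh_div_cosh, tanh_eq_sinh_div_cosh, sinh_sub]
    field_simp
  rw [h4, h5]
  have h6 : 0 < cosh g * cosh yd := by positivity
  rw [div_div_div_cancel_right₀ h6.ne', abs_of_pos (div_pos s1 s2)]

theorem two_cosh_sq (x : ℝ) : 2 * cosh x ^ 2 = 1 + cosh (2 * x) := by
  rw [cosh_two_mul]
  have := cosh_sq x
  linarith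

theorem mass_mul {g : ℝ} (hg : 0 < g) : 2 * g * mass g = log (1 + cosh (2 * g)) := by
  unfold mass
  rw [two_cosh_sq]
  field_simp

theorem log_cosh_le (γ : ℝ) : log (1 + cosh γ) ≤ γ - log 2 + 2 * exp (-γ) := by
  have h1 : 1 + cosh γ = exp γ * (1 + exp (-γ)) ^ 2 / 2 := by
    rw [cosh_eq]
    have : exp γ * exp (-γ) = 1 := by rw [← exp_add]; simp
    have h2 : exp γ * (1 + exp (-γ)) ^ 2 = exp γ + 2 * (exp γ * exp (-γ)) +
        (exp γ * exp (-γ)) * exp (-γ) := by ring
    rw [h2, this]; ring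
  have h3 := exp_pos (-γ)
  rw [h1, log_div (by positivity) (by norm_num), log_mul (exp_pos _).ne' (by positivity), log_exp,
    log_pow]
  have h4 : log (1 + exp (-γ)) ≤ exp (-γ) := by
    have := log_le_sub_one_of_pos (show 0 < 1 + exp (-γ) by positivity)
    linarith
  push_cast
  linarith

theorem log_three_halves : 0.4 ≤ log (3 / 2) ∧ log (3 / 2) ≤ 0.41 := by
  constructor
  · have := Real.le_log_one_add_of_nonneg (show (0:ℝ) ≤ 1 / 2 by norm_num)
    norm_num at this ⊢
    linarith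
  · rw [Real.log_le_iff_le_exp (by norm_num)]
    have := Real.sum_le_exp_of_nonneg (show (0:ℝ) ≤ 0.41 by norm_num) 4
    refine le_trans ?_ this
    simp only [Finset.sum_range_succ, Finset.sum_range_zero, Nat.factorial]
    norm_num

theorem exp_31 : (22.19:ℝ) ≤ exp 3.1 := by
  have h1 := Real.exp_one_gt_d9
  have h2 : exp 3.1 ^ 10 = exp 1 ^ 31 := by
    rw [← exp_nat_mul, ← exp_nat_mul]; norm_num
  refine le_of_lt (lt_of_pow_lt_pow_left₀ 10 (exp_pos _).le ?_)
  rw [h2]
  calc (22.19:ℝ) ^ 10 < 2.7182818283 ^ 31 := by norm_num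
    _ < exp 1 ^ 31 := pow_lt_pow_left₀ h1 (by norm_num) (by norm_num)

set_option maxHeartbeats 2000000 in
/-- position of the root for `B = 2` -/
theorem a0_ge {g a0 : ℝ} (hγ : 3.1 ≤ 2 * g) (h0 : 0 < a0) (h1 : a0 < g) (hm : 0 < mass g)
    (hm1 : mass g < 1) (hroot : tanh a0 = tanh g * tanh (a0 / mass g)) :
    2 * g + log (2 / 5) ≤ 2 * a0 := by
  by_contra hcon
  push Not at hcon
  have hg : 0 < g := h0.trans h1
  set γ := 2 * g with hγd
  set ys := γ + log (2 / 5) with hys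
  have hl25 : log (2 / 5) < 0 := log_neg (by norm_num) (by norm_num)
  have hy : 0 < ys / 2 := by linarith
  have hyg : ys / 2 < g := by linarith
  have htab := (left_table hm hm1 (tanh_pos hg) h0 hroot hy).2 (by linarith)
  have hphi : ¬ (0 < phi (mass g) (tanh g) (ys / 2)) := by
    rw [phi_pos_left hm hy (tanh_lt_tanh.2 hyg)]
    exact not_lt.2 htab.le
  apply hphi
  rw [phi_ell _ hy hyg, show 2 * (ys / 2) = ys by ring, ← hγd]
  have hw : (3:ℝ) / 5 = 1 - exp (ys - γ) := by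
    rw [hys, add_sub_cancel_left, exp_log (by norm_num)]; norm_num
  have hell := ell_le (γ := γ) (y := ys) (w := 3 / 5) (by linarith) (by linarith) (by linarith) hw
  -- logarithms
  have ha := Real.log_two_gt_d9
  have ha' := Real.log_two_lt_d9
  have hb := log_three_halves
  have h65 : 2 / 11 ≤ log (6 / 5) := by
    have := Real.le_log_one_add_of_nonneg (show (0:ℝ) ≤ 1 / 5 by norm_num)
    norm_num at this ⊢
    linarith
  have e1 : log (2 / 5) = log (6 / 5) - log 2 - log (3 / 2) := by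
    rw [← log_div (by norm_num) (by norm_num), ← log_div (by norm_num) (by norm_num)]
    norm_num
  have e2 : -log (3 / 5) = log 2 - log (6 / 5) := by
    rw [← log_div (by norm_num) (by norm_num), ← log_inv]
    norm_num
  have hlc := log_cosh_le γ
  have hmm := mass_mul hg
  rw [← hγd] at hmm
  -- the small quantity
  have ht : exp (-γ) * (22.19 * (γ - 2.1)) ≤ 1 := by
    have h3 : exp γ = exp 3.1 * exp (γ - 3.1) := by rw [← exp_add]; congr 1; ring
    have h4 := add_one_le_exp (γ - 3.1)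
    have h5 := exp_31
    have h6 : 22.19 * (γ - 2.1) ≤ exp γ := by
      rw [h3]
      have : (0:ℝ) ≤ γ - 2.1 := by norm_num at hγ ⊢; linarith
      calc 22.19 * (γ - 2.1) ≤ exp 3.1 * (γ - 2.1) := mul_le_mul_of_nonneg_right h5 this
        _ ≤ exp 3.1 * exp (γ - 3.1) := mul_le_mul_of_nonneg_left
            (by norm_num at h4 ⊢; linarith) (exp_pos _).le
    rw [exp_neg, inv_mul_le_iff₀ (exp_pos _), mul_one]
    exact h6
  have htp := exp_pos (-γ)
  have ht2 : 2 * exp (-γ) * (γ - 0.4) ≤ 0.2434 := by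
    have h7 : γ - 0.4 ≤ 2.7 * (γ - 2.1) := by norm_num at hγ ⊢; linarith
    have h8 : exp (-γ) * (γ - 0.4) ≤ exp (-γ) * (2.7 * (γ - 2.1)) :=
      mul_le_mul_of_nonneg_left h7 htp.le
    norm_num at h8 ht ⊢
    nlinarith
  -- final inequality multiplied by γ
  have hfin : mass g * ell γ ys < ys := by
    have h9 : γ * (mass g * ell γ ys) < γ * ys := by
      have h10 : γ * (mass g * ell γ ys) = log (1 + cosh γ) * ell γ ys := by
        rw [← mul_assoc, hmm]
      rw [h10]
      have hell0 := ell_pos (γ := γ) (y := ys) (by linarith) (by linarith) (by linarith)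
      have h11 : log (1 + cosh γ) * ell γ ys ≤ (γ - log 2 + 2 * exp (-γ)) * ell γ ys :=
        mul_le_mul_of_nonneg_right hlc hell0.le
      have h12 : 0 ≤ γ - log 2 + 2 * exp (-γ) := by norm_num at hγ; linarith
      have h13 : (γ - log 2 + 2 * exp (-γ)) * ell γ ys ≤
          (γ - log 2 + 2 * exp (-γ)) * (γ - log (3 / 2)) := by
        refine mul_le_mul_of_nonneg_left ?_ h12
        have : ys - log (3 / 5) = γ - log (3 / 2) := by
          rw [hys, e1]; linarith
        linarith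
      have h14 : (γ - log 2 + 2 * exp (-γ)) * (γ - log (3 / 2)) < γ * ys := by
        rw [hys, e1]
        have h15 : 2 * exp (-γ) * (γ - log (3 / 2)) ≤ 0.2434 := by
          refine le_trans (mul_le_mul_of_nonneg_left ?_ (by positivity)) ht2
          linarith [hb.1]
        have h16 : log 2 * log (3 / 2) ≤ 0.2842 := by
          have := hb.2
          have h17 : 0 ≤ log (3 / 2) := by linarith [hb.1]
          nlinarith
        have h18 : 0.5636 ≤ γ * log (6 / 5) := by
          norm_num at hγ ⊢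
          nlinarith
        nlinarith
      linarith
    exact lt_of_mul_lt_mul_left h9 (by linarith)
  linarith

set_option maxHeartbeats 1000000 in
/-- **The `d` side of region R5.** -/
theorem R5_d {g al B yd a0 : ℝ} (ht : exp (-2 * g) ≤ 0.045)
    (hB : B = 4 * cosh g ^ 2 * exp (-2 * g * al)) (hB2 : 2 ≤ B) (hyd0 : 0 ≤ yd) (hyd : yd < g)
    (hphi : 0 ≤ phi al (tanh g) yd) (ha0 : 0 < a0) (ha0g : a0 < g) (hm : 0 < mass g)
    (hm1 : mass g < 1) (hroot : tanh a0 = tanh g * tanh (a0 / mass g)) :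
    X 2 g a0 ≤ X B g yd + 0.395 * (B - 2) := by
  have hg : 0 < g := ha0.trans ha0g
  set γ := 2 * g with hγd
  have hγ : 3.1 ≤ γ := gam_ge (by rw [hγd, ← neg_mul]; exact ht)
  have hγ0 : 0 < γ := by linarith
  have hmm := mass_mul hg
  rw [← hγd] at hmm
  have hch := cosh_pos γ
  -- the two values in the new variables
  have hBγ : B = 2 * exp (-(γ * al)) * (1 + cosh γ) := by
    rw [hB, hγd, ← two_cosh_sq, show -2 * g * al = -(2 * g * al) by ring]
    ring
  have hE0 : exp (-(γ * mass g)) * (1 + cosh γ) = 1 := by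
    rw [hmm, exp_neg, exp_log (by linarith)]
    field_simp
  have hcg := cosh_pos g
  have hX : ∀ B' y, X B' g y = B' * (cosh γ - cosh (2 * y)) / (1 + cosh γ) := by
    intro B' y
    unfold X
    have h1 := two_cosh_sq g
    have h2 := two_cosh_sq y
    rw [← hγd] at h1
    have h3 : cosh g ^ 2 = (1 + cosh γ) / 2 := by linarith
    have h4 : cosh y ^ 2 = (1 + cosh (2 * y)) / 2 := by linarith
    rw [h3, h4]
    field_simp
    ring
  set S : ℝ → ℝ := fun y => 1.395 * (1 + cosh γ) - 1 - cosh y with hS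
  have hW : X B g yd + 0.395 * (B - 2) = 2 * exp (-(γ * al)) * S (2 * yd) - 0.79 := by
    rw [hX, hBγ, hS]
    field_simp
    ring
  have hW0 : X 2 g a0 = 2 * exp (-(γ * mass g)) * S (2 * a0) - 0.79 := by
    rw [hX, hS]
    have h5 : exp (-(γ * mass g)) = 1 / (1 + cosh γ) := by
      rw [eq_div_iff (by linarith)]; exact hE0
    rw [h5]
    field_simp
    ring
  rw [hW, hW0]
  have hexp : exp (-(γ * mass g)) ≤ exp (-(γ * al)) := by
    have h6 : exp (-(γ * mass g)) * (1 + cosh γ) ≤ exp (-(γ * al)) * (1 + cosh γ) := by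
      rw [hE0]; linarith
    exact le_of_mul_le_mul_right h6 (by linarith)
  have hSpos : ∀ y, 0 ≤ y → y < γ → 0 < S y := by
    intro y hy0 hy1
    have h2 : cosh y < cosh γ := by
      rw [cosh_lt_cosh, abs_of_nonneg hy0, abs_of_pos hγ0]; exact hy1
    simp only [hS]
    linarith
  have hS0 := hSpos (2 * a0) (by linarith) (by linarith)
  have hSy := hSpos (2 * yd) (by linarith) (by linarith)
  suffices h : exp (-(γ * mass g)) * S (2 * a0) ≤ exp (-(γ * al)) * S (2 * yd) by linarith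
  rcases le_or_gt yd a0 with hle | hgt
  · have h7 : S (2 * a0) ≤ S (2 * yd) := by
      have : cosh (2 * yd) ≤ cosh (2 * a0) := by
        rw [cosh_le_cosh, abs_of_nonneg (by linarith), abs_of_pos (by linarith)]; linarith
      simp only [hS]; linarith
    exact mul_le_mul hexp h7 hS0.le (exp_pos _).le
  · have hyd' : 0 < yd := by linarith
    have hell := ell_pos (γ := γ) (y := 2 * yd) hγ0 (by linarith) (by linarith)
    have hell0 := ell_pos (γ := γ) (y := 2 * a0) hγ0 (by linarith) (by linarith)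
    -- al ≤ y / ell
    have hal : al ≤ 2 * yd / ell γ (2 * yd) := by
      rw [phi_ell _ hyd' hyd, ← hγd] at hphi
      rw [le_div_iff₀ hell]; linarith
    have hal0 : mass g = 2 * a0 / ell γ (2 * a0) := by
      have h8 : phi (mass g) (tanh g) a0 = 0 := by
        have h9 := phi_eq_left hm ha0 (tanh_lt_tanh.2 ha0g)
        rw [h9]
        have h10 : tanh a0 / tanh g = tanh (a0 / mass g) := by
          rw [hroot]
          have := tanh_pos hg
          field_simp
        rw [h10]; ring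
      rw [phi_ell _ ha0 ha0g, ← hγd] at h8
      rw [eq_div_iff hell0.ne']; linarith
    have ha0ge := a0_ge (g := g) (by rw [← hγd]; exact hγ) ha0 ha0g hm hm1 hroot
    rw [← hγd] at ha0ge
    have hmono := Phi_mono (y0 := 2 * a0) (y1 := 2 * yd) hγ ha0ge (by linarith) (by linarith)
      (by linarith)
    have h11 : exp (-(γ * mass g)) * S (2 * a0) =
        exp (-(γ * (2 * a0) / ell γ (2 * a0)) + log (S (2 * a0))) := by
      rw [exp_add, exp_log hS0]
      congr 3
      rw [hal0]; ring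
    have h12 : exp (-(γ * (2 * yd) / ell γ (2 * yd)) + log (S (2 * yd))) ≤
        exp (-(γ * al)) * S (2 * yd) := by
      rw [exp_add, exp_log hSy]
      refine mul_le_mul_of_nonneg_right (exp_le_exp.2 ?_) hSy.le
      have h13 := mul_le_mul_of_nonneg_left hal hγ0.le
      have h14 : γ * (2 * yd / ell γ (2 * yd)) = γ * (2 * yd) / ell γ (2 * yd) := by ring
      linarith
    rw [h11]
    exact (exp_le_exp.2 hmono).trans h12

end Pool.Agent.MP28e671
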