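import Mathlib

set_option autoImplicit false

open Real Set

namespace Pool.Agent.MP28e671

/-- lower bound of `z` on a cell -/
theorem z_cell {al z z0 : ℝ} (k N : ℕ) (hN : 0 < N) (hkN : k ≤ N) (hal : (k:ℝ) / N ≤ al)
    (hal1 : al ≤ 1) (hz : 0 < z) (h : 1 ≤ z ^ al * (2 + z) ^ (1 - al)) (hz0 : 0 < z0)
    (hz01 : z0 ≤ 1) (hnum : z0 ^ k * (2 + z0) ^ (N - k) ≤ 1) : z0 ≤ z := by
  by_contra hcon
  push Not at hcon
  have hN' : (0:ℝ) < N := by exact_mod_cast hN
  have hal0 : 0 ≤ al := le_trans (by positivity) hal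
  have h2z : 0 < 2 + z := by linarith
  have h2z0 : 0 < 2 + z0 := by linarith
  -- logarithmic form of the hypothesis
  have h1 : 0 ≤ al * log z + (1 - al) * log (2 + z) := by
    rw [← log_rpow hz, ← log_rpow h2z, ← log_mul (rpow_pos_of_pos hz _).ne'
      (rpow_pos_of_pos h2z _).ne']
    exact log_nonneg h
  have h2 : (k:ℝ) * log z0 + (N - k) * log (2 + z0) ≤ 0 := by
    have h3 := log_nonpos (by positivity) hnum
    rw [log_mul (by positivity) (by positivity), log_pow, log_pow, Nat.cast_sub hkN] at h3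
    exact h3
  have h3 : log z < log z0 := log_lt_log hz hcon
  have h4 : log (2 + z) < log (2 + z0) := log_lt_log h2z (by linarith)
  have h5 : log z0 ≤ 0 := log_nonpos hz0.le hz01
  have h6 : 0 ≤ log (2 + z0) := log_nonneg (by linarith)
  have h7 : (k:ℝ) ≤ al * N := by rwa [div_le_iff₀ hN'] at hal
  -- multiply by N
  have h8 : 0 < N * (al * log z0 + (1 - al) * log (2 + z0)) := by
    apply mul_pos hN'
    rcases hal0.eq_or_lt with h9 | h9
    · rw [← h9] at h1 ⊢
      simp only [zero_mul, sub_zero, one_mul, zero_add] at h1 ⊢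
      linarith
    · have : al * log z < al * log z0 := mul_lt_mul_of_pos_left h3 h9
      have : (1 - al) * log (2 + z) ≤ (1 - al) * log (2 + z0) :=
        mul_le_mul_of_nonneg_left h4.le (by linarith)
      linarith
  nlinarith

/-- lower bound of `B` on a cell -/
theorem B_cell {t al t1 b : ℝ} (j M : ℕ) (hM : 0 < M) (ht : 0 < t) (ht1 : t < 1)
    (hal : al ≤ 1 - (j:ℝ) / M) (h1 : 0 < t1)
    (hc : (t ≤ t1 ∧ 2 * t1 / (1 + t1) ≤ (j:ℝ) / M) ∨ 2 * t1 / (1 + t1) = (j:ℝ) / M)
    (hb : 0 < b) (hnum : b ^ M ≤ (1 + t1) ^ (2 * M) * (1 / t1) ^ j) :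
    b ≤ (1 + t) ^ 2 * t ^ (al - 1) := by
  have hM' : (0:ℝ) < M := by exact_mod_cast hM
  set w : ℝ := (j:ℝ) / M with hw
  have hw0 : 0 ≤ w := by positivity
  have hlt : log t < 0 := log_neg ht ht1
  have hB0 : 0 < (1 + t) ^ 2 * t ^ (al - 1) := mul_pos (by positivity) (rpow_pos_of_pos ht _)
  rw [← log_le_log_iff hb hB0, log_mul (by positivity) (rpow_pos_of_pos ht _).ne', log_pow,
    log_rpow ht]
  -- numeric bound
  have h2 : log b ≤ 2 * log (1 + t1) - w * log t1 := by
    have h3 := log_le_log (by positivity) hnum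
    rw [log_pow, log_mul (by positivity) (by positivity), log_pow, log_pow, one_div, log_inv] at h3
    have h4 : (M:ℝ) * log b ≤ M * (2 * log (1 + t1) - w * log t1) := by
      have : (M:ℝ) * (2 * log (1 + t1) - w * log t1) =
          ((2 * M : ℕ) : ℝ) * log (1 + t1) + j * -log t1 := by
        rw [hw]; push_cast; field_simp; ring
      rw [this]; exact h3
    exact le_of_mul_le_mul_left h4 hM'
  -- arithmetic-geometric mean inequality
  have h1t : 0 < 1 + t := by linarith
  have h1t1 : 0 < 1 + t1 := by linarith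
  set ρ : ℝ := t1 / (1 + t1) with hρ
  have hρ0 : 0 ≤ ρ := by positivity
  have hρ1 : 1 - ρ = 1 / (1 + t1) := by rw [hρ]; field_simp; ring
  have h3 : ρ * (log t - log t1) ≤ log (1 + t) - log (1 + t1) := by
    have h4 := Real.geom_mean_le_arith_mean2_weighted hρ0 (show 0 ≤ 1 - ρ by rw [hρ1]; positivity)
      (show 0 ≤ t / t1 by positivity) (show (0:ℝ) ≤ 1 by norm_num) (by ring)
    rw [one_rpow, mul_one, mul_one] at h4
    have h5 : ρ * (t / t1) + (1 - ρ) = (1 + t) / (1 + t1) := by
      rw [hρ1, hρ]; field_simp; ring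
    rw [h5] at h4
    have h6 := log_le_log (rpow_pos_of_pos (by positivity) _) h4
    rwa [log_rpow (by positivity), log_div ht.ne' h1.ne', log_div h1t.ne' h1t1.ne'] at h6
  have h4 : w * (log t - log t1) ≤ 2 * (log (1 + t) - log (1 + t1)) := by
    have h5 : 2 * t1 / (1 + t1) = 2 * ρ := by rw [hρ]; ring
    rw [h5] at hc
    rcases hc with ⟨hc1, hc2⟩ | hc
    · have h6 : log t - log t1 ≤ 0 := by
        have := log_le_log ht hc1
        linarith
      nlinarith
    · rw [← hc]; linarith
  have h5 : (1 - al) * log t ≤ w * log t := by nlinarith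
  push_cast
  linarith

theorem cell {t al B z z0 t1 b : ℝ} (k N j M : ℕ) (hN : 0 < N) (hkN : k ≤ N) (hM : 0 < M)
    (ht : 0 < t) (ht1 : t < 1) (hB : B = (1 + t) ^ 2 * t ^ (al - 1))
    (hal : (k:ℝ) / N ≤ al) (hal' : al ≤ 1 - (j:ℝ) / M) (hz : 0 < z)
    (h : 1 ≤ z ^ al * (2 + z) ^ (1 - al)) (hz0 : 0 < z0) (hz01 : z0 ≤ 1) (h1 : 0 < t1)
    (hc : (t ≤ t1 ∧ 2 * t1 / (1 + t1) ≤ (j:ℝ) / M) ∨ 2 * t1 / (1 + t1) = (j:ℝ) / M)
    (hb : 0 < b) (hbz : 1.8345 ≤ 1 + z0 + (2/3) * (b - 2))
    (hnumz : z0 ^ k * (2 + z0) ^ (N - k) ≤ 1)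
    (hnumb : b ^ M ≤ (1 + t1) ^ (2 * M) * (1 / t1) ^ j) :
    1.8345 ≤ 1 + z + (2/3) * (B - 2) := by
  have hal1 : al ≤ 1 := le_trans hal' (by
    have : 0 ≤ (j:ℝ) / M := by positivity
    linarith)
  have e1 := z_cell k N hN hkN hal hal1 hz h hz0 hz01 hnumz
  have e2 := B_cell j M hM ht ht1 hal' h1 hc hb hnumb
  rw [hB]
  linarith

/-- the right end in terms of `g`, where `t = exp (-2 g)` -/
theorem B_eq_t (g al : ℝ) :
    4 * cosh g ^ 2 * exp (-2 * g * al) = (1 + exp (-2 * g)) ^ 2 * exp (-2 * g) ^ (al - 1) := by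
  rw [← exp_mul, cosh_eq]
  have h1 : exp (-2 * g) = exp (-g) * exp (-g) := by rw [← exp_add]; congr 1; ring
  have h2 : exp (-2 * g * (al - 1)) = exp (-2 * g * al) * (exp g * exp g) := by
    rw [← exp_add, ← exp_add]; congr 1; ring
  have h3 : exp g * exp (-g) = 1 := by rw [← exp_add]; simp
  rw [h2, h1]
  have h4 : 4 * ((exp g + exp (-g)) / 2) ^ 2 = (1 + exp (-g) * exp (-g)) ^ 2 * (exp g * exp g) := by
    calc 4 * ((exp g + exp (-g)) / 2) ^ 2 = (exp g + exp (-g)) ^ 2 := by ring
      _ = (exp g * 1 + (exp g * exp (-g)) * exp (-g)) ^ 2 := by rw [h3]; ring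
      _ = _ := by ring
  rw [h4]; ring

/-- region `al ≤ 0.725` -/
theorem calc_R1 {t al B z : ℝ} (ht : 0 < t) (ht1 : t < 1) (hB : B = (1 + t) ^ 2 * t ^ (al - 1))
    (hal : 1 / 2 ≤ al) (hal' : al ≤ 0.725) (hz : 0 < z) (h : 1 ≤ z ^ al * (2 + z) ^ (1 - al)) :
    1.8345 ≤ 1 + z + (2/3) * (B - 2) := by
  rcases le_total al (32/53) with h1 | h1
  · exact cell (z0 := 2/5) (t1 := 21/85) (b := 10607/4000) 1 2 21 53 (by norm_num)
      (by norm_num) (by norm_num) ht ht1 hB (by push_cast; norm_num at hal ⊢; linarith)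
      (by push_cast; linarith) hz h (by norm_num) (by norm_num) (by norm_num)
      (Or.inr (by norm_num)) (by norm_num) (by norm_num) (by norm_num) (by norm_num)
  rcases le_total al (39/58) with h2 | h2
  · exact cell (z0 := 13/24) (t1 := 19/97) (b := 9757/4000) 32 53 19 58 (by norm_num)
      (by norm_num) (by norm_num) ht ht1 hB (by push_cast; linarith)
      (by push_cast; linarith) hz h (by norm_num) (by norm_num) (by norm_num)
      (Or.inr (by norm_num)) (by norm_num) (by norm_num) (by norm_num) (by norm_num)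
  rcases le_total al (26/37) with h3 | h3
  · exact cell (z0 := 33/53) (t1 := 11/63) (b := 491371/212000) 39 58 11 37 (by norm_num)
      (by norm_num) (by norm_num) ht ht1 hB (by push_cast; linarith)
      (by push_cast; linarith) hz h (by norm_num) (by norm_num) (by norm_num)
      (Or.inr (by norm_num)) (by norm_num) (by norm_num) (by norm_num) (by norm_num)
  rcases le_total al (43/60) with h4 | h4
  · exact cell (z0 := 35/53) (t1 := 17/103) (b := 479371/212000) 26 37 17 60 (by norm_num)
      (by norm_num) (by norm_num) ht ht1 hB (by push_cast; linarith)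
      (by push_cast; linarith) hz h (by norm_num) (by norm_num) (by norm_num)
      (Or.inr (by norm_num)) (by norm_num) (by norm_num) (by norm_num) (by norm_num)
  rcases le_total al (13/18) with h5 | h5
  · exact cell (z0 := 21/31) (t1 := 5/31) (b := 277217/124000) 43 60 5 18 (by norm_num)
      (by norm_num) (by norm_num) ht ht1 hB (by push_cast; linarith)
      (by push_cast; linarith) hz h (by norm_num) (by norm_num) (by norm_num)
      (Or.inr (by norm_num)) (by norm_num) (by norm_num) (by norm_num) (by norm_num)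
  · exact cell (z0 := 41/60) (t1 := 11/69) (b := 8907/4000) 13 18 11 40 (by norm_num)
      (by norm_num) (by norm_num) ht ht1 hB (by push_cast; linarith)
      (by push_cast; norm_num at hal' ⊢; linarith) hz h (by norm_num) (by norm_num) (by norm_num)
      (Or.inr (by norm_num)) (by norm_num) (by norm_num) (by norm_num) (by norm_num)

/-- region `t ≤ 0.01` -/
theorem calc_R2 {t al B z : ℝ} (ht : 0 < t) (ht1 : t ≤ 0.01)
    (hB : B = (1 + t) ^ 2 * t ^ (al - 1)) (hal : 0.725 ≤ al) (hal' : al < 1) (hB2 : 2 ≤ B)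
    (hz : 0 < z) (h : 1 ≤ z ^ al * (2 + z) ^ (1 - al)) :
    1.8345 ≤ 1 + z + (2/3) * (B - 2) := by
  have ht1' : t < 1 := by norm_num at ht1; linarith
  have ht2 : t ≤ 1 / 100 := by norm_num at ht1 ⊢; linarith
  rcases le_total al (41/50) with h1 | h1
  · exact cell (z0 := 2/3) (t1 := 1/100) (b := 9007/4000) 29 40 9 50 (by norm_num)
      (by norm_num) (by norm_num) ht ht1' hB (by push_cast; norm_num at hal ⊢; linarith)
      (by push_cast; linarith) hz h (by norm_num) (by norm_num) (by norm_num)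
      (Or.inl ⟨ht2, by norm_num⟩) (by norm_num) (by norm_num) (by norm_num) (by norm_num)
  rcases le_total al (39/46) with h2 | h2
  · exact cell (z0 := 59/74) (t1 := 1/100) (b := 304259/148000) 41 50 7 46 (by norm_num)
      (by norm_num) (by norm_num) ht ht1' hB (by push_cast; linarith)
      (by push_cast; linarith) hz h (by norm_num) (by norm_num) (by norm_num)
      (Or.inl ⟨ht2, by norm_num⟩) (by norm_num) (by norm_num) (by norm_num) (by norm_num)
  rcases le_total al (29/34) with h3 | h3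
  · exact cell (z0 := 34/41) (t1 := 1/100) (b := 329287/164000) 39 46 5 34 (by norm_num)
      (by norm_num) (by norm_num) ht ht1' hB (by push_cast; linarith)
      (by push_cast; linarith) hz h (by norm_num) (by norm_num) (by norm_num)
      (Or.inl ⟨ht2, by norm_num⟩) (by norm_num) (by norm_num) (by norm_num) (by norm_num)
  · have e1 := z_cell (z0 := 1669/2000) 29 34 (by norm_num) (by norm_num)
      (by push_cast; linarith) hal'.le hz h (by norm_num) (by norm_num) (by norm_num)
    norm_num at hB2 ⊢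
    linarith

/-- region `t ≤ 0.0526`, `B ≥ 2.13` -/
theorem calc_R3 {t al B z : ℝ} (ht : 0 < t) (ht1 : t ≤ 0.0526)
    (hB : B = (1 + t) ^ 2 * t ^ (al - 1)) (hal : 0.725 ≤ al) (hal' : al < 1) (hB2 : 2.13 ≤ B)
    (hz : 0 < z) (h : 1 ≤ z ^ al * (2 + z) ^ (1 - al)) :
    1.8345 ≤ 1 + z + (2/3) * (B - 2) := by
  have ht1' : t < 1 := by norm_num at ht1; linarith
  have ht2 : t ≤ 1 / 19 := by norm_num at ht1 ⊢; linarith
  rcases le_total al (38/51) with h1 | h1
  · exact cell (z0 := 2/3) (t1 := 1/19) (b := 9007/4000) 29 40 13 51 (by norm_num)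
      (by norm_num) (by norm_num) ht ht1' hB (by push_cast; norm_num at hal ⊢; linarith)
      (by push_cast; linarith) hz h (by norm_num) (by norm_num) (by norm_num)
      (Or.inl ⟨ht2, by norm_num⟩) (by norm_num) (by norm_num) (by norm_num) (by norm_num)
  rcases le_total al (10/13) with h2 | h2
  · exact cell (z0 := 27/38) (t1 := 1/19) (b := 166133/76000) 38 51 3 13 (by norm_num)
      (by norm_num) (by norm_num) ht ht1' hB (by push_cast; linarith)
      (by push_cast; linarith) hz h (by norm_num) (by norm_num) (by norm_num)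
      (Or.inl ⟨ht2, by norm_num⟩) (by norm_num) (by norm_num) (by norm_num) (by norm_num)
  rcases le_total al (45/58) with h3 | h3
  · exact cell (z0 := 82/111) (t1 := 1/19) (b := 317259/148000) 10 13 13 58 (by norm_num)
      (by norm_num) (by norm_num) ht ht1' hB (by push_cast; linarith)
      (by push_cast; linarith) hz h (by norm_num) (by norm_num) (by norm_num)
      (Or.inl ⟨ht2, by norm_num⟩) (by norm_num) (by norm_num) (by norm_num) (by norm_num)
  rcases le_total al (7/9) with h4 | h4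
  · exact cell (z0 := 59/79) (t1 := 1/19) (b := 673553/316000) 45 58 2 9 (by norm_num)
      (by norm_num) (by norm_num) ht ht1' hB (by push_cast; linarith)
      (by push_cast; linarith) hz h (by norm_num) (by norm_num) (by norm_num)
      (Or.inl ⟨ht2, by norm_num⟩) (by norm_num) (by norm_num) (by norm_num) (by norm_num)
  · have e1 := z_cell (z0 := 187/250) 7 9 (by norm_num) (by norm_num)
      (by push_cast; linarith) hal'.le hz h (by norm_num) (by norm_num) (by norm_num)
    norm_num at hB2 ⊢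
    linarith

end Pool.Agent.MP28e671
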