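import Mathlib
import Pool.Agent.MP28e671.Trans
import Pool.Agent.MP28e671.CalcOuter
import Pool.Agent.MP28e671.Assembly

set_option autoImplicit false

open Real Set

namespace Pool.Agent.MP28e671

/-- region R4 -/
def R4Stmt : Prop :=
  ∀ {g al B yc yd : ℝ}, 0 < g → 0.045 ≤ exp (-2 * g) → 0.725 ≤ al → al < 1 → al ≤ tanh g →
    B = 4 * cosh g ^ 2 * exp (-2 * g * al) → 2 ≤ B → g < yc → 0 ≤ yd → yd < g →
    1 ≤ X B g yd → 0 ≤ phi al (tanh g) yd → 0 ≤ phi al (tanh g) yc →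
    1 ≤ |X B g yc| ^ al * (2 + |X B g yc|) ^ (1 - al) →
    1.8345 ≤ X B g yd - X B g yc + 2 / 3 * (B - 2)

/-- region R5 -/
def NearStmt : Prop :=
  ∀ {B g al c d : ℝ}, 0 < g → 9 / 10 ≤ tanh g → tanh g ≤ 99 / 101 → 2 ≤ B → B ≤ 2.13 →
    al * (2 * g) = log (4 * cosh g ^ 2 / B) → al < 1 → c < 0 → 1 ≤ d →
    0 ≤ gI (B * tanh g ^ 2) B c - al * g0 (B * tanh g ^ 2) B c →
    0 ≤ gI (B * tanh g ^ 2) B d - al * g0 (B * tanh g ^ 2) B d →
    1 ≤ |c| ^ al * (2 + |c|) ^ (1 - al) → (d - c) + 2 / 3 * (B - 2) < 1.8345 →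
    ∃ a c', Adm g a c' ∧ val g a c' ≤ (d - c) + 2 / 3 * (B - 2)

theorem tanh_eq_t (g : ℝ) : tanh g = (1 - exp (-2 * g)) / (1 + exp (-2 * g)) := by
  rw [tanh_eq_sinh_div_cosh, sinh_eq, cosh_eq]
  have h1 : exp (-2 * g) = exp (-g) * exp (-g) := by rw [← exp_add]; congr 1; ring
  have h3 : exp g * exp (-g) = 1 := by rw [← exp_add]; simp
  have h4 := exp_pos g
  have h5 := exp_pos (-g)
  rw [h1, div_eq_div_iff (by positivity) (by positivity)]
  linear_combination (exp (-g)) * h3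

theorem calc_glue (h4 : R4Stmt) (h5 : NearStmt) (hmu : muStar < 1.8345) : CalcStmt := by
  intro al b B c d hB hal hal1 hb hbB hR hr hc hd hdb hpc hpd hcm
  have hB0 : 0 < B := by linarith
  obtain ⟨g, hg, hbg, htg⟩ := exists_g hB0 hb hbB
  subst hbg
  by_contra hcon
  push Not at hcon
  have hV : (d - c) + 2 / 3 * (B - 2) < 1.8345 := hcon.trans hmu
  rw [← htg] at hr
  rw [gI_zero hB0 hg, R_eq hB0] at hR
  set t := exp (-2 * g) with ht
  have ht0 : 0 < t := exp_pos _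
  have ht1 : t < 1 := by rw [ht, exp_lt_one_iff]; linarith
  have hBe : B = 4 * cosh g ^ 2 * exp (-2 * g * al) := by
    have h0 : 0 < 4 * cosh g ^ 2 / B := by have := cosh_pos g; positivity
    have h1 : 4 * cosh g ^ 2 / B = exp (al * (2 * g)) := by rw [hR, exp_log h0]
    have h2 : 4 * cosh g ^ 2 = exp (al * (2 * g)) * B := by
      rw [← h1]; field_simp
    rw [h2, show exp (al * (2 * g)) * B * exp (-2 * g * al) =
      (exp (al * (2 * g)) * exp (-2 * g * al)) * B by ring, ← exp_add]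
    have : al * (2 * g) + -2 * g * al = 0 := by ring
    rw [this, exp_zero, one_mul]
  have hBt : B = (1 + t) ^ 2 * t ^ (al - 1) := by rw [hBe, B_eq_t]
  have hz : 0 < |c| := abs_pos.2 hc.ne
  have hzc : |c| = -c := abs_of_neg hc
  have hge : ∀ v : ℝ, v ≤ 1 + |c| + 2 / 3 * (B - 2) → v ≤ (d - c) + 2 / 3 * (B - 2) := by
    intro v hv
    rw [hzc] at hv
    linarith
  rcases le_or_gt al 0.725 with ha | ha
  · have := hge _ (calc_R1 ht0 ht1 hBt hal ha hz hcm)
    linarith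
  rcases le_or_gt t 0.01 with ht2 | ht2
  · have := hge _ (calc_R2 ht0 ht2 hBt ha.le hal1 hB hz hcm)
    linarith
  rcases le_or_gt t 0.0526 with ht3 | ht3
  · rcases le_or_gt 2.13 B with hB3 | hB3
    · have := hge _ (calc_R3 ht0 ht3 hBt ha.le hal1 hB3 hz hcm)
      linarith
    · have hT := tanh_eq_t g
      rw [← ht] at hT
      have hT1 : 9 / 10 ≤ tanh g := by
        rw [hT, div_le_div_iff₀ (by norm_num) (by linarith)]
        norm_num at ht3 ⊢
        linarith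
      have hT2 : tanh g ≤ 99 / 101 := by
        rw [hT, div_le_div_iff₀ (by linarith) (by norm_num)]
        norm_num at ht2 ⊢
        linarith
      obtain ⟨a, c', hadm, hval⟩ := h5 hg hT1 hT2 hB hB3.le hR hal1 hc hd hpc hpd hcm hV
      have : muStar ≤ val g a c' := csInf_le vals_bdd ⟨g, a, c', hadm, rfl⟩
      linarith
  · have hlt : c < B * tanh g ^ 2 := by linarith
    obtain ⟨yc, hyc, hXc⟩ := exists_y hB0 hlt
    have hyd : ∃ yd, 0 ≤ yd ∧ d = X B g yd := by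
      rcases hdb.eq_or_lt with h | h
      · refine ⟨0, le_rfl, ?_⟩
        rw [h, X, cosh_zero]
        have := one_sub_tanh_sq g
        have e : tanh g ^ 2 = 1 - 1 / cosh g ^ 2 := by linarith
        rw [e]
        norm_num
      · obtain ⟨y, hy, hy'⟩ := exists_y hB0 h
        exact ⟨y, hy.le, hy'⟩
    obtain ⟨yd, hyd0, hXd⟩ := hyd
    subst hXc hXd
    rw [phi_eq hB0 hg hyc.le] at hpc
    rw [phi_eq hB0 hg hyd0] at hpd
    have hgc : g < yc := (X_neg_iff hB0 hg hyc.le).1 hc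
    have hgd : yd < g := (X_pos_iff hB0 hg hyd0).1 (by linarith)
    have := h4 hg (by rw [← ht]; norm_num at ht3 ⊢; linarith) ha.le hal1 hr hBe hB hgc hyd0 hgd hd hpd hpc hcm
    linarith

end Pool.Agent.MP28e671
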