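import Pool.Agent.MP28e671.Reduction

set_option autoImplicit false

open Set MeasureTheory
open scoped ENNReal

namespace Pool.Agent.MP28e671

variable {n : ℕ}

/-- the number of different roots -/
noncomputable def nroots (a : Fin n → ℝ) : ℕ := (Finset.univ.image a).card

theorem nroots_comp_le (a : Fin n → ℝ) (f : ℝ → ℝ) : nroots (fun i => f (a i)) ≤ nroots a := by
  unfold nroots
  have : (Finset.univ.image fun i => f (a i)) = (Finset.univ.image a).image f := by
    rw [Finset.image_image]; rfl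
  rw [this]
  exact Finset.card_image_le

theorem P_const (b x : ℝ) : P (fun _ : Fin n => b) x = |x - b| ^ n := by
  simp [P]

theorem vol_const (hn : 0 < n) (b : ℝ) : volume (E fun _ : Fin n => b) = 2 := by
  have : (E fun _ : Fin n => b) = Ioo (b - 1) (b + 1) := by
    ext x
    simp only [E, mem_ofPred_eq, P_const, mem_Ioo]
    rw [pow_lt_one_iff_of_nonneg (abs_nonneg _) hn.ne', abs_lt]
    constructor
    · rintro ⟨h1, h2⟩; constructor <;> linarith
    · rintro ⟨h1, h2⟩; constructor <;> linarith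
  rw [this, Real.volume_Ioo, show b + 1 - (b - 1) = 2 by ring]
  simp

/-- between two different roots there is a point outside of `E` -/
def Gap (a : Fin n → ℝ) : Prop := ∀ i j, a i < a j → ∃ x ∈ Ioo (a i) (a j), 1 ≤ P a x

theorem Gap.reflect {a : Fin n → ℝ} (h : Gap a) : Gap fun i => 2 - a i := by
  intro i j hij
  obtain ⟨x, hx, hP⟩ := h j i (by linarith)
  refine ⟨2 - x, ⟨by linarith [hx.2], by linarith [hx.1]⟩, ?_⟩
  rw [P_reflect]
  exact hP

/-- the output of the case reduction -/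
def Good (a : Fin n → ℝ) : Prop :=
  ∃ c d : ℝ, c < 0 ∧ 1 ≤ d ∧ 1 ≤ P a c ∧ 1 ≤ P a d ∧ (∀ x ∈ Ioo c d, P a x < 1) ∧
    (∃ i, a i = 0) ∧ (∃ i, a i = 2) ∧ (∀ i, a i = 0 ∨ d < a i) ∧
    n ≤ 2 * (Finset.univ.filter fun i => a i = 0).card ∧ Gap a

theorem normalise (hn : 0 < n) {a : Fin n → ℝ} (ha : ∀ i, a i ∈ Icc (0:ℝ) 2) :
    ∃ b : Fin n → ℝ, (∀ i, b i ∈ Icc (0:ℝ) 2) ∧ volume (E b) ≤ volume (E a) ∧
      nroots b ≤ nroots a ∧ (2 ≤ volume (E b) ∨ ((∃ i, b i = 0) ∧ ∃ i, b i = 2)) := by
  have : Nonempty (Fin n) := ⟨⟨0, hn⟩⟩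
  obtain ⟨i0, hi0⟩ := Finite.exists_min a
  set a0 : Fin n → ℝ := fun i => a i + (-a i0) with ha0
  have hv0 : volume (E a0) = volume (E a) := vol_translate a _
  have hn0 : nroots a0 ≤ nroots a := nroots_comp_le a (fun x => x + (-a i0))
  have hz : a0 i0 = 0 := by simp [ha0]
  have h0 : ∀ i, a0 i ∈ Icc (0:ℝ) 2 := by
    intro i
    have h1 := hi0 i
    have h2 := (ha i).2
    have h3 := (ha i0).1
    simp only [ha0, mem_Icc]
    constructor <;> linarith
  obtain ⟨i1, hi1⟩ := Finite.exists_max a0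
  set M := a0 i1 with hM
  have hM0 : 0 ≤ M := (h0 i1).1
  have hM2 : M ≤ 2 := (h0 i1).2
  by_cases hex : ∃ g ∈ Icc 0 M, 1 ≤ P a0 g
  · obtain ⟨g, ⟨hg0, hgM⟩, hg⟩ := hex
    have hg0' : 0 < g := lt_of_le_of_ne hg0 (by
      have := ne_of_one_le hg i0
      rwa [hz] at this)
    have hgM' : g < M := lt_of_le_of_ne hgM (ne_of_one_le hg i1).symm
    refine ⟨fun i => if a0 i < g then a0 i else a0 i + (2 - M), ?_, ?_, ?_, Or.inr ⟨⟨i0, ?_⟩, ⟨i1, ?_⟩⟩⟩
    · intro i
      have h1 := h0 i
      have h2 := hi1 i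
      simp only [mem_Icc] at h1 ⊢
      split_ifs with h
      · exact h1
      · constructor
        · linarith
        · linarith
    · exact (vol_expand a0 g (2 - M) (by linarith) hg).trans hv0.le
    · exact (nroots_comp_le a0 (fun x => if x < g then x else x + (2 - M))).trans hn0
    · simp only [hz, if_pos hg0']
    · have : ¬ (a0 i1 < g) := by rw [← hM]; linarith
      simp only [if_neg this]
      rw [← hM]; ring
  · push Not at hex
    refine ⟨a0, h0, hv0.le, hn0, Or.inl ?_⟩
    set b : ℝ := (∑ i ∈ (Finset.univ : Finset (Fin n)), a0 i) / (Finset.univ : Finset (Fin n)).card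
      with hb
    rw [← vol_const hn b]
    refine measure_mono fun x hx => ?_
    have hx' : P (fun _ : Fin n => b) x < 1 := hx
    show P a0 x < 1
    by_cases hxI : x ∈ Icc 0 M
    · exact hex x hxI
    · refine lt_of_le_of_lt ?_ hx'
      have h1 := P_merge_le a0 Finset.univ Finset.univ_nonempty b x hb (by
        rw [mem_Icc, not_and_or, not_le, not_le] at hxI
        rcases hxI with h | h
        · right
          intro i _
          linarith [(h0 i).1]
        · left
          intro i _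
          linarith [hi1 i])
      refine h1.trans (le_of_eq ?_)
      congr 1
      ext i
      simp

/-- at least half of the roots are in the long component -/
theorem half_le {a : Fin n → ℝ} (ha : ∀ i, a i ∈ Icc (0:ℝ) 2) {d : ℝ} (hd1 : 1 < d)
    (hd : 1 ≤ P a d) (h : ∀ i, a i = 0 ∨ d < a i) (h2 : ∃ i, a i = 2) :
    n ≤ 2 * (Finset.univ.filter fun i => a i = 0).card := by
  set S : Finset (Fin n) := Finset.univ.filter fun i => a i = 0 with hS
  have hmemS : ∀ i, a i = 0 → i ∈ S := fun i hi => by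
    rw [hS, Finset.mem_filter]; exact ⟨Finset.mem_univ _, hi⟩
  have hd2 : d < 2 := by
    obtain ⟨i, hi⟩ := h2
    rcases h i with h3 | h3
    · rw [hi] at h3; norm_num at h3
    · rwa [hi] at h3
  have hsum : 0 ≤ ∑ i, Real.log |d - a i| := by
    rw [← Real.log_prod (fun i _ => abs_ne_zero.2 (sub_ne_zero.2 (ne_of_one_le hd i).symm))]
    exact Real.log_nonneg hd
  have hsplit : ∑ i, Real.log |d - a i| = ∑ i ∈ S, Real.log |d - a i| +
      ∑ i ∈ Sᶜ, Real.log |d - a i| := (Finset.sum_add_sum_compl S _).symm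
  have h4 : ∑ i ∈ S, Real.log |d - a i| ≤ S.card * Real.log d := by
    rw [← nsmul_eq_mul]
    refine Finset.sum_le_card_nsmul _ _ _ fun i hi => ?_
    rw [(Finset.mem_filter.1 hi).2, sub_zero, abs_of_pos (by linarith)]
  have h5 : ∑ i ∈ Sᶜ, Real.log |d - a i| ≤ Sᶜ.card * Real.log (2 - d) := by
    rw [← nsmul_eq_mul]
    refine Finset.sum_le_card_nsmul _ _ _ fun i hi => ?_
    have h6 : d < a i := by
      rcases h i with h7 | h7
      · exact absurd (hmemS i h7) (Finset.mem_compl.1 hi)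
      · exact h7
    have h7 := (ha i).2
    rw [abs_of_nonpos (by linarith)]
    exact Real.log_le_log (by linarith) (by linarith)
  have h6 : Real.log (2 - d) ≤ -Real.log d := by
    have h7 : Real.log d + Real.log (2 - d) ≤ 0 := by
      rw [← Real.log_mul (by linarith) (by linarith)]
      exact Real.log_nonpos (by nlinarith) (by nlinarith [sq_nonneg (d - 1)])
    linarith
  have hld : 0 < Real.log d := Real.log_pos hd1
  have hcard : (S.card : ℝ) + Sᶜ.card = n := by
    have := Finset.card_add_card_compl S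
    rw [Fintype.card_fin] at this
    exact_mod_cast this
  have h7 : (Sᶜ.card : ℝ) * Real.log (2 - d) ≤ Sᶜ.card * (-Real.log d) :=
    mul_le_mul_of_nonneg_left h6 (by positivity)
  have h8 : 0 ≤ ((S.card : ℝ) - Sᶜ.card) * Real.log d := by nlinarith
  have h9 : 0 ≤ (S.card : ℝ) - Sᶜ.card := by
    by_contra hcon
    nlinarith
  have h10 : (n : ℝ) ≤ 2 * S.card := by linarith
  exact_mod_cast h10

/-- the case where `1` is in the component of the left extreme root -/
theorem good_of_left {a : Fin n → ℝ} (ha : ∀ i, a i ∈ Icc (0:ℝ) 2) {c d r : ℝ}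
    (h1 : (1:ℝ) ∈ Ioo c d) (hc : 1 ≤ P a c) (hd : 1 ≤ P a d) (hcd : ∀ x ∈ Ioo c d, P a x < 1)
    (hr : ∀ i, a i ∈ Ioo c d → a i = r) (h0 : ∃ i, a i = 0) (h2 : ∃ i, a i = 2)
    (hL : ¬ ∃ i, a i ≤ c) (hgap : Gap a) : Good a := by
  push Not at hL
  obtain ⟨i0, hi0⟩ := h0
  have hc0 : c < 0 := by have := hL i0; rwa [hi0] at this
  have hr0 : r = 0 := by
    rw [← hr i0 (by rw [hi0]; exact ⟨hc0, by linarith [h1.2]⟩), hi0]
  have hall : ∀ i, a i = 0 ∨ d < a i := by
    intro i
    rcases lt_or_ge (a i) d with h3 | h3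
    · left
      rw [hr i ⟨hL i, h3⟩, hr0]
    · right
      exact lt_of_le_of_ne h3 (ne_of_one_le hd i).symm
  exact ⟨c, d, hc0, h1.2.le, hc, hd, hcd, ⟨i0, hi0⟩, h2, hall,
    half_le ha h1.2 hd hall h2, hgap⟩

/-- the case where all roots are `0` or `2` -/
theorem good_of_two {a : Fin n → ℝ} (ha : ∀ i, a i = 0 ∨ a i = 2)
    (h0 : ∃ i, a i = 0) (h2 : ∃ i, a i = 2)
    (hm : n ≤ 2 * (Finset.univ.filter fun i => a i = 0).card) : Good a := by
  classical
  set S : Finset (Fin n) := Finset.univ.filter fun i => a i = 0 with hS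
  have hmemS : ∀ i, a i = 0 → i ∈ S := fun i hi => by
    rw [hS, Finset.mem_filter]; exact ⟨Finset.mem_univ _, hi⟩
  have hP : ∀ x, P a x = |x| ^ S.card * |x - 2| ^ Sᶜ.card := by
    intro x
    unfold P
    rw [← Finset.prod_mul_prod_compl S]
    congr 1
    · rw [← Finset.prod_const]
      refine Finset.prod_congr rfl fun i hi => ?_
      rw [(Finset.mem_filter.1 hi).2, sub_zero]
    · rw [← Finset.prod_const]
      refine Finset.prod_congr rfl fun i hi => ?_
      rcases ha i with h | h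
      · exact absurd (hmemS i h) (Finset.mem_compl.1 hi)
      · rw [h]
  have hcard : S.card + Sᶜ.card = n := by
    have := Finset.card_add_card_compl S
    rwa [Fintype.card_fin] at this
  have hle : Sᶜ.card ≤ S.card := by omega
  have hpos : 0 < Sᶜ.card := by
    obtain ⟨i, hi⟩ := h2
    refine Finset.card_pos.2 ⟨i, Finset.mem_compl.2 fun h => ?_⟩
    have := (Finset.mem_filter.1 h).2
    rw [hi] at this
    norm_num at this
  have hmid : ∀ x ∈ Ioo (0:ℝ) 1, P a x < 1 := by
    rintro x ⟨hx0, hx1⟩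
    rw [hP, abs_of_pos hx0, abs_of_neg (by linarith), neg_sub]
    have h3 : x ^ S.card ≤ x ^ Sᶜ.card := pow_le_pow_of_le_one hx0.le hx1.le hle
    calc x ^ S.card * (2 - x) ^ Sᶜ.card ≤ x ^ Sᶜ.card * (2 - x) ^ Sᶜ.card :=
          mul_le_mul_of_nonneg_right h3 (pow_nonneg (by linarith) _)
      _ = (x * (2 - x)) ^ Sᶜ.card := (mul_pow _ _ _).symm
      _ < 1 := pow_lt_one₀ (by nlinarith) (by nlinarith) hpos.ne'
  have h1 : P a 1 = 1 := by rw [hP]; norm_num
  have ha' : ∀ i, a i ∈ Icc (0:ℝ) 2 := by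
    intro i
    rcases ha i with h | h <;> rw [h] <;> norm_num
  obtain ⟨c, d, hc, hd, hPc, hPd, hcd⟩ := exists_component ha' (hmid (1/2) (by norm_num))
  have hd1 : d = 1 := by
    rcases lt_trichotomy d 1 with h | h | h
    · exact absurd (hmid d ⟨by linarith, h⟩) (not_lt.2 hPd)
    · exact h
    · have := hcd 1 ⟨by linarith, h⟩
      linarith
  obtain ⟨i0, hi0⟩ := h0
  have hc0 : c < 0 := by
    rcases lt_trichotomy c 0 with h | h | h
    · exact h
    · exact absurd (hi0.trans h.symm) (ne_of_one_le hPc i0)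
    · exact absurd (hmid c ⟨h, by linarith⟩) (not_lt.2 hPc)
  refine ⟨c, d, hc0, hd1.ge, hPc, hPd, hcd, ⟨i0, hi0⟩, h2, fun i => ?_, hm, ?_⟩
  · rcases ha i with h | h
    · exact Or.inl h
    · right; rw [h, hd1]; norm_num
  · intro i j hij
    have hi := ha' i
    have hj := ha' j
    refine ⟨1, ?_, h1.ge⟩
    rcases ha i with h | h
    · rcases ha j with h' | h'
      · rw [h, h'] at hij; exact absurd hij (lt_irrefl _)
      · rw [h, h']; constructor <;> norm_num
    · rw [h] at hij; exact absurd hij (not_lt.2 hj.2)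

/-- merging the roots of a component -/
theorem merge_step {a : Fin n → ℝ} (ha : ∀ i, a i ∈ Icc (0:ℝ) 2) {c d : ℝ}
    (hcd : ∀ x ∈ Ioo c d, P a x < 1) {i1 i2 : Fin n} (h1 : a i1 ∈ Ioo c d) (h2 : a i2 ∈ Ioo c d)
    (h12 : a i1 ≠ a i2) :
    ∃ b : Fin n → ℝ, (∀ i, b i ∈ Icc (0:ℝ) 2) ∧ volume (E b) ≤ volume (E a) ∧
      nroots b < nroots a := by
  classical
  set S : Finset (Fin n) := Finset.univ.filter fun i => a i ∈ Ioo c d with hS
  have hSmem : ∀ i, i ∈ S ↔ a i ∈ Ioo c d := fun i => by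
    rw [hS, Finset.mem_filter]; simp only [Finset.mem_univ, true_and]
  have hSne : S.Nonempty := ⟨i1, (hSmem _).2 h1⟩
  have hScard : (0:ℝ) < S.card := by exact_mod_cast hSne.card_pos
  set b0 : ℝ := (∑ i ∈ S, a i) / S.card with hb0
  have hb00 : 0 ≤ b0 := div_nonneg (Finset.sum_nonneg fun i _ => (ha i).1) hScard.le
  have hb02 : b0 ≤ 2 := by
    rw [hb0, div_le_iff₀ hScard]
    calc ∑ i ∈ S, a i ≤ ∑ _i ∈ S, (2:ℝ) := Finset.sum_le_sum fun i _ => (ha i).2
      _ = 2 * S.card := by rw [Finset.sum_const, nsmul_eq_mul, mul_comm]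
  refine ⟨fun i => if i ∈ S then b0 else a i, ?_, ?_, ?_⟩
  · intro i
    simp only
    split_ifs
    · exact ⟨hb00, hb02⟩
    · exact ha i
  · refine measure_mono fun x hx => ?_
    have hx' : P (fun i => if i ∈ S then b0 else a i) x < 1 := hx
    show P a x < 1
    by_cases hxI : x ∈ Ioo c d
    · exact hcd x hxI
    · refine lt_of_le_of_lt (P_merge_le a S hSne b0 x hb0 ?_) hx'
      rw [mem_Ioo, not_and_or, not_lt, not_lt] at hxI
      rcases hxI with h | h
      · right
        intro i hi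
        linarith [((hSmem i).1 hi).1]
      · left
        intro i hi
        linarith [((hSmem i).1 hi).2]
  · unfold nroots
    have hA : (Finset.univ.image fun i => if i ∈ S then b0 else a i) ⊆
        insert b0 (Sᶜ.image a) := by
      intro y hy
      obtain ⟨i, -, hi⟩ := Finset.mem_image.1 hy
      split_ifs at hi with h
      · rw [← hi]; exact Finset.mem_insert_self _ _
      · exact Finset.mem_insert_of_mem (Finset.mem_image.2 ⟨i, Finset.mem_compl.2 h, hi⟩)
    have hB : insert (a i1) (insert (a i2) (Sᶜ.image a)) ⊆ Finset.univ.image a := by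
      intro y hy
      rw [Finset.mem_insert, Finset.mem_insert] at hy
      rcases hy with h | h | h
      · rw [h]; exact Finset.mem_image_of_mem _ (Finset.mem_univ _)
      · rw [h]; exact Finset.mem_image_of_mem _ (Finset.mem_univ _)
      · obtain ⟨i, -, hi⟩ := Finset.mem_image.1 h
        rw [← hi]; exact Finset.mem_image_of_mem _ (Finset.mem_univ _)
    have hout : ∀ j, a j ∈ Ioo c d → a j ∉ Sᶜ.image a := by
      intro j hj hmem
      obtain ⟨i, hi, hij⟩ := Finset.mem_image.1 hmem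
      exact (Finset.mem_compl.1 hi) ((hSmem i).2 (by rw [hij]; exact hj))
    have hB2 : (insert (a i1) (insert (a i2) (Sᶜ.image a))).card = (Sᶜ.image a).card + 2 := by
      rw [Finset.card_insert_of_notMem, Finset.card_insert_of_notMem (hout i2 h2)]
      rw [Finset.mem_insert, not_or]
      exact ⟨h12, hout i1 h1⟩
    calc (Finset.univ.image fun i => if i ∈ S then b0 else a i).card
        ≤ (insert b0 (Sᶜ.image a)).card := Finset.card_le_card hA
      _ ≤ (Sᶜ.image a).card + 1 := Finset.card_insert_le _ _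
      _ < (Sᶜ.image a).card + 2 := by omega
      _ = _ := hB2.symm
      _ ≤ _ := Finset.card_le_card hB

theorem filter_reflect (a : Fin n → ℝ) (x y : ℝ) (h : x + y = 2) :
    (Finset.univ.filter fun i => 2 - a i ≤ x) = Finset.univ.filter fun i => y ≤ a i := by
  ext i
  simp only [Finset.mem_filter, Finset.mem_univ, true_and]
  constructor <;> intro h1 <;> linarith

theorem filter_reflect' (a : Fin n → ℝ) (x y : ℝ) (h : x + y = 2) :
    (Finset.univ.filter fun i => x ≤ 2 - a i) = Finset.univ.filter fun i => a i ≤ y := by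
  ext i
  simp only [Finset.mem_filter, Finset.mem_univ, true_and]
  constructor <;> intro h1 <;> linarith

set_option maxHeartbeats 1000000 in
/-- **Case reduction.** -/
theorem case_reduction (hn : 0 < n) (a : Fin n → ℝ) (ha : ∀ i, a i ∈ Icc (0:ℝ) 2) :
    ∃ b : Fin n → ℝ, (∀ i, b i ∈ Icc (0:ℝ) 2) ∧ volume (E b) ≤ volume (E a) ∧
      (2 ≤ volume (E b) ∨ Good b) := by
  classical
  -- strong induction on the number of different roots
  suffices H : ∀ k : ℕ, ∀ a : Fin n → ℝ, (∀ i, a i ∈ Icc (0:ℝ) 2) → nroots a = k →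
      ∃ b : Fin n → ℝ, (∀ i, b i ∈ Icc (0:ℝ) 2) ∧ volume (E b) ≤ volume (E a) ∧
      (2 ≤ volume (E b) ∨ Good b) from H _ a ha rfl
  intro k
  induction k using Nat.strong_induction_on with
  | _ k IH =>
  intro a0 ha0 hk
  obtain ⟨a, ha, hva, hna, hcase⟩ := normalise hn ha0
  rcases hcase with hcase | ⟨h0, h2⟩
  · exact ⟨a, ha, hva, Or.inl hcase⟩
  have ha' : ∀ i, 2 - a i ∈ Icc (0:ℝ) 2 := fun i => by
    have := ha i
    simp only [mem_Icc] at this ⊢
    constructor <;> linarith
  have h0' : ∃ i, 2 - a i = 0 := by obtain ⟨i, hi⟩ := h2; exact ⟨i, by rw [hi]; ring⟩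
  have h2' : ∃ i, 2 - a i = 2 := by obtain ⟨i, hi⟩ := h0; exact ⟨i, by rw [hi]; ring⟩
  have hvr : volume (E fun i => 2 - a i) ≤ volume (E a0) := (vol_reflect a).le.trans hva
  by_cases hG : ∃ i j, a i < a j ∧ ∀ x ∈ Icc (a i) (a j), P a x < 1
  · obtain ⟨i1, i2, h12, hI⟩ := hG
    obtain ⟨c, d, hc1, hd1, hPc, hPd, hcd⟩ := exists_component ha (hI (a i1) ⟨le_rfl, h12.le⟩)
    have h3 : a i2 < d := by
      by_contra h4
      exact absurd (hI d ⟨hd1.le, not_lt.1 h4⟩) (not_lt.2 hPd)
    obtain ⟨b, hb, hvb, hnb⟩ := merge_step ha hcd (i1 := i1) (i2 := i2) ⟨hc1, hd1⟩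
      ⟨by linarith, h3⟩ h12.ne
    obtain ⟨b', hb', hvb', hcase'⟩ := IH (nroots b) (by omega) b hb rfl
    exact ⟨b', hb', hvb'.trans (hvb.trans hva), hcase'⟩
  have hgap : Gap a := by
    intro i j hij
    push Not at hG
    obtain ⟨x, hx, hPx⟩ := hG i j hij
    exact ⟨x, ⟨lt_of_le_of_ne hx.1 (ne_of_one_le hPx i), lt_of_le_of_ne hx.2
      (ne_of_one_le hPx j).symm⟩, hPx⟩
  by_cases hP1 : 1 ≤ P a 1
  · -- all roots are 0 or 2
    have hle1 : ∀ i, |1 - a i| ≤ 1 := fun i => by
      rw [abs_le]; have := ha i; simp only [mem_Icc] at this; constructor <;> linarith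
    have hall : ∀ i, a i = 0 ∨ a i = 2 := by
      intro i
      have h3 : P a 1 = |1 - a i| * ∏ j ∈ Finset.univ.erase i, |1 - a j| :=
        (Finset.mul_prod_erase _ _ (Finset.mem_univ i)).symm
      have h4 : ∏ j ∈ Finset.univ.erase i, |1 - a j| ≤ 1 :=
        Finset.prod_le_one (fun _ _ => abs_nonneg _) fun j _ => hle1 j
      have h5 : 0 ≤ ∏ j ∈ Finset.univ.erase i, |1 - a j| :=
        Finset.prod_nonneg fun _ _ => abs_nonneg _
      have h6 : 1 ≤ |1 - a i| := by
        have := abs_nonneg (1 - a i)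
        nlinarith
      rcases le_abs.1 h6 with h7 | h7
      · left; linarith [(ha i).1]
      · right; linarith [(ha i).2]
    by_cases hm : n ≤ 2 * (Finset.univ.filter fun i => a i = 0).card
    · exact ⟨a, ha, hva, Or.inr (good_of_two hall h0 h2 hm)⟩
    · refine ⟨fun i => 2 - a i, ha', hvr, Or.inr (good_of_two (fun i => ?_) h0' h2' ?_)⟩
      · rcases hall i with h | h <;> rw [h]
        · right; ring
        · left; ring
      · have h3 : (Finset.univ.filter fun i => 2 - a i = 0) =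
            (Finset.univ.filter fun i => a i = 0)ᶜ := by
          ext i
          simp only [Finset.mem_filter, Finset.mem_univ, true_and, Finset.mem_compl]
          rcases hall i with h | h <;> rw [h] <;> norm_num
        have h4 := Finset.card_add_card_compl (Finset.univ.filter fun i => a i = 0)
        rw [Fintype.card_fin] at h4
        rw [h3]
        omega
  · push Not at hP1
    obtain ⟨c, d, hc1, hd1, hPc, hPd, hcd⟩ := exists_component ha hP1
    have hconst : ∀ i1 i2, a i1 ∈ Ioo c d → a i2 ∈ Ioo c d → a i1 = a i2 := by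
      intro i1 i2 h3 h4
      rcases lt_trichotomy (a i1) (a i2) with h5 | h5 | h5
      · obtain ⟨x, hx, hPx⟩ := hgap i1 i2 h5
        exact absurd (hcd x ⟨h3.1.trans hx.1, hx.2.trans h4.2⟩) (not_lt.2 hPx)
      · exact h5
      · obtain ⟨x, hx, hPx⟩ := hgap i2 i1 h5
        exact absurd (hcd x ⟨h4.1.trans hx.1, hx.2.trans h3.2⟩) (not_lt.2 hPx)
    · obtain ⟨i0, hi0⟩ := exists_root_mem hPc hPd ⟨hc1, hd1⟩ (hcd 1 ⟨hc1, hd1⟩)
      set r := a i0 with hr0
      have hr : ∀ i, a i ∈ Ioo c d → a i = r := fun i hi => hconst i i0 hi hi0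
      -- the reflected data
      have hPc' : 1 ≤ P (fun i => 2 - a i) (2 - c) := by rw [P_reflect]; exact hPc
      have hPd' : 1 ≤ P (fun i => 2 - a i) (2 - d) := by rw [P_reflect]; exact hPd
      have hcd' : ∀ x ∈ Ioo (2 - d) (2 - c), P (fun i => 2 - a i) x < 1 := by
        rintro x ⟨hx1, hx2⟩
        have h3 := P_reflect a (2 - x)
        rw [sub_sub_cancel] at h3
        rw [h3]
        exact hcd _ ⟨by linarith, by linarith⟩
      have hr' : ∀ i, 2 - a i ∈ Ioo (2 - d) (2 - c) → 2 - a i = 2 - r := by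
        rintro i ⟨hi1, hi2⟩
        rw [hr i ⟨by linarith, by linarith⟩]
      have h1' : (1:ℝ) ∈ Ioo (2 - d) (2 - c) := ⟨by linarith, by linarith⟩
      by_cases hL : ∃ i, a i ≤ c
      · by_cases hR : ∃ i, d ≤ a i
        · exfalso
          rcases le_total (Finset.univ.filter fun i => a i ≤ c).card
            (Finset.univ.filter fun i => d ≤ a i).card with hle | hle
          · exact not_interior ha ⟨hc1, hd1⟩ hPc hPd hcd hr hL hR hle
          · refine not_interior ha' h1' hPd' hPc' hcd' hr' ?_ ?_ ?_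
            · obtain ⟨i, hi⟩ := hR; exact ⟨i, by linarith⟩
            · obtain ⟨i, hi⟩ := hL; exact ⟨i, by linarith⟩
            · rw [filter_reflect a (2 - d) d (by ring), filter_reflect' a (2 - c) c (by ring)]
              exact hle
        · refine ⟨fun i => 2 - a i, ha', hvr, Or.inr ?_⟩
          refine good_of_left ha' h1' hPd' hPc' hcd' hr' h0' h2' ?_ hgap.reflect
          rintro ⟨i, hi⟩
          exact hR ⟨i, by linarith⟩
      · exact ⟨a, ha, hva, Or.inr (good_of_left ha ⟨hc1, hd1⟩ hPc hPd hcd hr h0 h2 hL hgap)⟩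

end Pool.Agent.MP28e671
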