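import Mathlib
import Pool.Agent.MP28e671.Defs

set_option autoImplicit false

open Real Set MeasureTheory Filter
open scoped Topology

namespace Pool.Agent.MP28e671

/-- density of the certificate -/
noncomputable def wq (x B s : ℝ) : ℝ := 1 / 2 * √(B - x) * (s - x) ^ (-(3 / 2) : ℝ)

theorem rpow_m32 {y : ℝ} (hy : 0 < y) : y ^ (-(3 / 2) : ℝ) = 1 / √y ^ 3 := by
  rw [rpow_neg hy.le, one_div]
  congr 1
  rw [sqrt_eq_rpow, ← rpow_natCast, ← rpow_mul hy.le]
  norm_num

theorem wq_eq {x B s : ℝ} (h : x < s) : wq x B s = √(B - x) / (2 * √(s - x) ^ 3) := by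
  unfold wq
  rw [rpow_m32 (by linarith)]
  ring

theorem wq_pos {x B s : ℝ} (h : x < s) (hB : x < B) : 0 < wq x B s := by
  rw [wq_eq h]
  have h1 : 0 < √(B - x) := sqrt_pos.2 (by linarith)
  have h2 : 0 < √(s - x) := sqrt_pos.2 (by linarith)
  positivity

theorem wq_continuousOn {x B : ℝ} : ContinuousOn (wq x B) (Ioi x) := by
  unfold wq
  apply ContinuousOn.mul continuousOn_const
  intro s hs
  have : s - x ≠ 0 := by have := hs.out; simp only [mem_Ioi] at hs; linarith
  exact ((continuous_id.sub continuous_const).continuousAt.rpow_const (Or.inl this)).continuousWithinAt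

/-- the primitive, pole on the left -/
noncomputable def Fq (x B t s : ℝ) : ℝ :=
  2 * log (√(B - x) + √(s - x)) - 2 * log (√(B - x) * √(s - t) + √(s - x) * √(B - t)) +
    2 * (√(B - x) / √(s - x)) * log ((√(B - t) + √(s - t)) / 2)

theorem hasDerivAt_sqrt_sub {a s : ℝ} (h : a < s) :
    HasDerivAt (fun s => √(s - a)) (1 / (2 * √(s - a))) s := by
  have h1 : HasDerivAt (fun s : ℝ => s - a) 1 s := (hasDerivAt_id s).sub_const a
  have h2 := h1.sqrt (by linarith : s - a ≠ 0)
  exact h2

theorem Fq_hasDerivAt {x B t s : ℝ} (hx : x < s) (ht : t < s) (hs : s ≤ B) :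
    HasDerivAt (Fq x B t) (-(wq x B s * (2 * log ((√(B - t) + √(s - t)) / 2)))) s := by
  have hp : 0 < √(s - x) := sqrt_pos.2 (by linarith)
  have hq : 0 < √(s - t) := sqrt_pos.2 (by linarith)
  have hA : 0 < √(B - x) := sqrt_pos.2 (by linarith)
  have hC : 0 < √(B - t) := sqrt_pos.2 (by linarith)
  have ep : √(s - x) ^ 2 = s - x := sq_sqrt (by linarith)
  have eq : √(s - t) ^ 2 = s - t := sq_sqrt (by linarith)
  have eA : √(B - x) ^ 2 = B - x := sq_sqrt (by linarith)
  have eC : √(B - t) ^ 2 = B - t := sq_sqrt (by linarith)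
  have d1 := hasDerivAt_sqrt_sub hx
  have d2 := hasDerivAt_sqrt_sub ht
  have n1 : √(B - x) + √(s - x) ≠ 0 := by positivity
  have n2 : √(B - x) * √(s - t) + √(s - x) * √(B - t) ≠ 0 := by positivity
  have n3 : (√(B - t) + √(s - t)) / 2 ≠ 0 := by positivity
  have D1 : HasDerivAt (fun s => 2 * log (√(B - x) + √(s - x)))
      (2 * ((1 / (2 * √(s - x))) / (√(B - x) + √(s - x)))) s :=
    ((d1.const_add _).log n1).const_mul 2
  have D2 : HasDerivAt (fun s => 2 * log (√(B - x) * √(s - t) + √(s - x) * √(B - t)))
      (2 * ((√(B - x) * (1 / (2 * √(s - t))) + 1 / (2 * √(s - x)) * √(B - t)) /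
        (√(B - x) * √(s - t) + √(s - x) * √(B - t)))) s :=
    (((d2.const_mul _).add (d1.mul_const _)).log n2).const_mul 2
  have D3 : HasDerivAt (fun s => 2 * (√(B - x) / √(s - x)))
      (2 * ((0 * √(s - x) - √(B - x) * (1 / (2 * √(s - x)))) / √(s - x) ^ 2)) s :=
    ((hasDerivAt_const s (√(B - x))).div d1 hp.ne').const_mul 2
  have D4 : HasDerivAt (fun s => log ((√(B - t) + √(s - t)) / 2))
      ((1 / (2 * √(s - t))) / 2 / ((√(B - t) + √(s - t)) / 2)) s :=
    ((d2.const_add _).div_const 2).log n3
  have D := (D1.sub D2).add (D3.mul D4)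
  refine D.congr_deriv ?_
  rw [wq_eq hx]
  set L := log ((√(B - t) + √(s - t)) / 2) with hL
  clear_value L
  set p := √(s - x)
  set q := √(s - t)
  set A := √(B - x)
  set C := √(B - t)
  have key : A ^ 2 - p ^ 2 = C ^ 2 - q ^ 2 := by rw [eA, ep, eC, eq]; ring
  have h2 : 2 * (1 / (2 * p) / (A + p)) -
      2 * ((A * (1 / (2 * q)) + 1 / (2 * p) * C) / (A * q + p * C)) +
      2 * (A / p) * (1 / (2 * q) / 2 / ((C + q) / 2)) = 0 := by
    have hn1 : A + p ≠ 0 := by positivity
    have hn2 : A * q + p * C ≠ 0 := by positivity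
    have hn3 : C + q ≠ 0 := by positivity
    field_simp
    ring_nf
    linear_combination (q * A) * key
  have h3 : 2 * ((0 * p - A * (1 / (2 * p))) / p ^ 2) * L = -(A / (2 * p ^ 3) * (2 * L)) := by
    field_simp
    ring
  linear_combination h2 + h3


theorem Fq_self {x B t : ℝ} (hx : x < B) (ht : t < B) : Fq x B t B = 0 := by
  unfold Fq
  have hA : 0 < √(B - x) := sqrt_pos.2 (by linarith)
  have hC : 0 < √(B - t) := sqrt_pos.2 (by linarith)
  rw [div_self hA.ne', show √(B - x) * √(B - t) + √(B - x) * √(B - t) =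
    (√(B - x) + √(B - x)) * √(B - t) by ring, log_mul (by positivity) hC.ne',
    show (√(B - t) + √(B - t)) / 2 = √(B - t) by ring]
  ring

theorem G_left {s B t : ℝ} (h : t < s) : G s B t = 2 * log ((√(B - t) + √(s - t)) / 2) := by
  unfold G
  rw [if_pos h]

theorem G_mid {s B t : ℝ} (h : s ≤ t) (h' : t ≤ B) : G s B t = log ((B - s) / 4) := by
  unfold G
  rw [if_neg (by linarith), if_pos h']

theorem G_right {s B t : ℝ} (h : s ≤ t) (h' : B < t) :
    G s B t = 2 * log ((√(t - s) + √(t - B)) / 2) := by
  unfold G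
  rw [if_neg (by linarith), if_neg (by linarith)]

theorem contG_left {B t : ℝ} (ht : t < B) (S : Set ℝ) :
    ContinuousOn (fun s => 2 * log ((√(B - t) + √(s - t)) / 2)) S := by
  have hC : 0 < √(B - t) := sqrt_pos.2 (by linarith)
  apply ContinuousOn.mul continuousOn_const
  apply ContinuousOn.log
  · fun_prop
  · intro s hs
    positivity

theorem contG_mid {B : ℝ} : ContinuousOn (fun s => log ((B - s) / 4)) (Iio B) := by
  apply ContinuousOn.log
  · fun_prop
  · intro s hs
    have : s < B := hs
    have : 0 < B - s := by linarith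
    positivity

/-- value of the integral, for a point on the left of the interval -/
theorem cert_left {x b B t : ℝ} (hx : x < b) (hb : b < B) (ht : t < b) :
    ∫ s in b..B, wq x B s * G s B t = Fq x B t b := by
  have h1 : ∫ s in b..B, wq x B s * G s B t =
      ∫ s in b..B, wq x B s * (2 * log ((√(B - t) + √(s - t)) / 2)) := by
    apply intervalIntegral.integral_congr
    intro s hs
    rw [uIcc_of_le hb.le] at hs
    show wq x B s * G s B t = _
    rw [G_left (by linarith [hs.1])]
  rw [h1]
  have hc : ContinuousOn (fun s => wq x B s * (2 * log ((√(B - t) + √(s - t)) / 2)))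
      (uIcc b B) := by
    apply ContinuousOn.mul
    · apply wq_continuousOn.mono
      intro s hs
      rw [uIcc_of_le hb.le] at hs
      exact lt_of_lt_of_le hx hs.1
    · exact contG_left (by linarith) _
  have h2 : ∫ s in b..B, (-(wq x B s * (2 * log ((√(B - t) + √(s - t)) / 2)))) =
      Fq x B t B - Fq x B t b := by
    refine intervalIntegral.integral_eq_sub_of_hasDerivAt (f := Fq x B t)
      (f' := fun s => -(wq x B s * (2 * log ((√(B - t) + √(s - t)) / 2)))) ?_ ?_
    · intro s hs
      rw [uIcc_of_le hb.le] at hs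
      exact Fq_hasDerivAt (by linarith [hs.1]) (by linarith [hs.1]) hs.2
    · exact hc.neg.intervalIntegrable
  rw [intervalIntegral.integral_neg, Fq_self (by linarith) (by linarith)] at h2
  linarith

/-- helper405's form at the point `0` -/
theorem cert_zero {x b B : ℝ} (hx : x < b) (hb : b < B) (h0 : 0 < b) (hx0 : x ≠ 0) :
    ∫ s in b..B, wq x B s * G s B 0 = gI b B x - g0 b B x +
      √((B - x) / (b - x)) * (gI b B 0 - log (4 / (B - b))) - log |x| := by
  rw [cert_left hx hb h0]
  unfold Fq gI g0
  simp only [sub_zero]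
  have hp : 0 < √(b - x) := sqrt_pos.2 (by linarith)
  have hq : 0 < √b := sqrt_pos.2 h0
  have hA : 0 < √(B - x) := sqrt_pos.2 (by linarith)
  have hC : 0 < √B := sqrt_pos.2 (by linarith)
  have hR : 0 < √(B - b) := sqrt_pos.2 (by linarith)
  have ep : √(b - x) ^ 2 = b - x := sq_sqrt (by linarith)
  have eq : √b ^ 2 = b := sq_sqrt (by linarith)
  have eA : √(B - x) ^ 2 = B - x := sq_sqrt (by linarith)
  have eC : √B ^ 2 = B := sq_sqrt (by linarith)
  have eR : √(B - b) ^ 2 = B - b := sq_sqrt (by linarith)
  rw [sqrt_div (by linarith : (0:ℝ) ≤ B - x)]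
  set p := √(b - x)
  set q := √b
  set A := √(B - x)
  set C := √B
  set R := √(B - b)
  have hprod : (A * q + p * C) * (A * q - p * C) = x * R ^ 2 := by
    have : (A * q + p * C) * (A * q - p * C) = A ^ 2 * q ^ 2 - p ^ 2 * C ^ 2 := by ring
    rw [this, eA, eq, ep, eC, eR]
    ring
  have hne : A * q - p * C ≠ 0 := by
    intro h
    rw [h, mul_zero] at hprod
    rcases mul_eq_zero.1 hprod.symm with h' | h'
    · exact hx0 h'
    · have : R ^ 2 ≠ 0 := by positivity
      exact this h'
  have hS : A * q + p * C ≠ 0 := by positivity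
  have hSpos : 0 < A * q + p * C := by positivity
  have e1 : |(A * q + p * C) / (A * q - p * C)| = (A * q + p * C) ^ 2 / (|x| * R ^ 2) := by
    rw [abs_div, abs_of_pos hSpos, div_eq_div_iff (abs_ne_zero.2 hne)
      (by have := abs_pos.2 hx0; positivity)]
    have h3 : |A * q + p * C| * |A * q - p * C| = |x| * R ^ 2 := by
      rw [← abs_mul, hprod, abs_mul, abs_of_pos (by positivity : 0 < R ^ 2)]
    rw [abs_of_pos hSpos] at h3
    rw [← h3]
    ring
  have e2 : log (4 / (B - b)) = log 4 - 2 * log R := by
    rw [log_div (by norm_num) (by rw [← eR]; positivity), ← eR, log_pow]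
    norm_num
  have hx' : |x| ≠ 0 := abs_ne_zero.2 hx0
  have e3 : log ((A * q + p * C) ^ 2 / (|x| * R ^ 2)) =
      2 * log (A * q + p * C) - (log |x| + 2 * log R) := by
    rw [log_div (by positivity) (by positivity), log_mul hx' (by positivity), log_pow, log_pow]
    norm_num
  rw [e1, e2, e3, log_div (by positivity) hR.ne', log_div (by positivity) hR.ne',
    log_div (by positivity) (by norm_num)]
  have e4 : log 4 = 2 * log 2 := by
    rw [show (4:ℝ) = 2 ^ 2 by norm_num, log_pow]
    norm_num
  rw [e4, add_comm C q]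
  ring

/-- the primitive on the part of the interval on the left of the point -/
noncomputable def Hq (x B s : ℝ) : ℝ :=
  2 * log (√(B - x) + √(s - x)) - log (B - s) -
    (√(B - x) / √(s - x)) * (log 4 - log (B - s))

theorem Hq_hasDerivAt {x B s : ℝ} (hx : x < s) (hs : s < B) :
    HasDerivAt (Hq x B) (-(wq x B s * log ((B - s) / 4))) s := by
  have hp : 0 < √(s - x) := sqrt_pos.2 (by linarith)
  have hA : 0 < √(B - x) := sqrt_pos.2 (by linarith)
  have hBs : 0 < B - s := by linarith
  have ep : √(s - x) ^ 2 = s - x := sq_sqrt (by linarith)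
  have eA : √(B - x) ^ 2 = B - x := sq_sqrt (by linarith)
  have d1 := hasDerivAt_sqrt_sub hx
  have n1 : √(B - x) + √(s - x) ≠ 0 := by positivity
  have D1 : HasDerivAt (fun s => 2 * log (√(B - x) + √(s - x)))
      (2 * ((1 / (2 * √(s - x))) / (√(B - x) + √(s - x)))) s :=
    ((d1.const_add _).log n1).const_mul 2
  have D2 : HasDerivAt (fun s => log (B - s)) (-1 / (B - s)) s :=
    (((hasDerivAt_id s).const_sub B).log hBs.ne')
  have D3 : HasDerivAt (fun s => (√(B - x) / √(s - x)))
      ((0 * √(s - x) - √(B - x) * (1 / (2 * √(s - x)))) / √(s - x) ^ 2) s :=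
    ((hasDerivAt_const s (√(B - x))).div d1 hp.ne')
  have D := (D1.sub D2).sub (D3.mul (D2.const_sub (log 4)))
  refine D.congr_deriv ?_
  rw [wq_eq hx, log_div hBs.ne' (by norm_num)]
  set L := log (B - s) with hL
  clear_value L
  have e1 : B - s = (√(B - x) - √(s - x)) * (√(B - x) + √(s - x)) := by
    have : (√(B - x) - √(s - x)) * (√(B - x) + √(s - x)) = √(B - x) ^ 2 - √(s - x) ^ 2 := by ring
    rw [this, eA, ep]; ring
  rw [e1]
  have hlt : √(s - x) < √(B - x) := sqrt_lt_sqrt (by linarith) (by linarith)
  set p := √(s - x)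
  set A := √(B - x)
  have hn : A - p ≠ 0 := by linarith
  field_simp
  ring

theorem Hq_continuousOn {x B : ℝ} : ContinuousOn (Hq x B) (Ioc x B) := by
  have h1 : ContinuousOn (fun s => 2 * log (√(B - x) + √(s - x)) -
      √(B - x) / √(s - x) * log 4 +
      1 / (√(s - x) * (√(B - x) + √(s - x))) * ((B - s) * log (B - s))) (Ioc x B) := by
    have hpos : ∀ s ∈ Ioc x B, 0 < √(s - x) ∧ 0 < √(B - x) := by
      intro s hs
      exact ⟨sqrt_pos.2 (by linarith [hs.1]), sqrt_pos.2 (by linarith [hs.1, hs.2])⟩
    apply ContinuousOn.add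
    · apply ContinuousOn.sub
      · apply ContinuousOn.mul continuousOn_const
        apply ContinuousOn.log
        · fun_prop
        · intro s hs
          obtain ⟨h, h'⟩ := hpos s hs
          positivity
      · apply ContinuousOn.mul _ continuousOn_const
        apply ContinuousOn.div continuousOn_const
        · fun_prop
        · intro s hs
          exact (hpos s hs).1.ne'
    · apply ContinuousOn.mul
      · apply ContinuousOn.div continuousOn_const
        · fun_prop
        · intro s hs
          obtain ⟨h, h'⟩ := hpos s hs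
          positivity
      · exact (continuous_mul_log.comp (continuous_const.sub continuous_id)).continuousOn
  refine h1.congr ?_
  intro s hs
  have hp : 0 < √(s - x) := sqrt_pos.2 (by linarith [hs.1])
  have hA : 0 < √(B - x) := sqrt_pos.2 (by linarith [hs.1, hs.2])
  have ep : √(s - x) ^ 2 = s - x := sq_sqrt (by linarith [hs.1])
  have eA : √(B - x) ^ 2 = B - x := sq_sqrt (by linarith [hs.1, hs.2])
  unfold Hq
  show _ = 2 * log (√(B - x) + √(s - x)) - √(B - x) / √(s - x) * log 4 +
      1 / (√(s - x) * (√(B - x) + √(s - x))) * ((B - s) * log (B - s))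
  set L := log (B - s) with hL
  clear_value L
  have e1 : B - s = (√(B - x) - √(s - x)) * (√(B - x) + √(s - x)) := by
    have : (√(B - x) - √(s - x)) * (√(B - x) + √(s - x)) = √(B - x) ^ 2 - √(s - x) ^ 2 := by ring
    rw [this, eA, ep]; ring
  rw [e1]
  set p := √(s - x)
  set A := √(B - x)
  field_simp
  ring

theorem Hq_self {x B : ℝ} (h : x < B) : Hq x B B = log (B - x) := by
  unfold Hq
  have hA : 0 < √(B - x) := sqrt_pos.2 (by linarith)
  rw [sub_self, log_zero, div_self hA.ne', show √(B - x) + √(B - x) = 2 * √(B - x) by ring,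
    log_mul (by norm_num) hA.ne', log_sqrt (by linarith),
    show (4:ℝ) = 2 ^ 2 by norm_num, log_pow]
  push_cast
  ring

theorem intervalIntegrable_logdiv (B a b : ℝ) :
    IntervalIntegrable (fun s => log ((B - s) / 4)) volume a b := by
  have h1 : IntervalIntegrable (fun s => log (B - s)) volume a b := by
    have := (intervalIntegral.intervalIntegrable_log' (a := B - a) (b := B - b)).comp_sub_left B
    simpa using this
  have h2 : IntervalIntegrable (fun s => log (B - s) - log 4) volume a b :=
    h1.sub intervalIntegrable_const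
  refine h2.congr_ae ?_
  have h3 : ∀ᵐ s : ℝ, s ≠ B := by
    simp [ae_iff, measure_singleton]
  refine (ae_restrict_of_ae h3).mono ?_
  intro s hs
  have : B - s ≠ 0 := sub_ne_zero.2 (Ne.symm hs)
  show log (B - s) - log 4 = log ((B - s) / 4)
  rw [log_div this (by norm_num)]

theorem wq_continuousOn_uIcc {x a b B : ℝ} (h : x < a) (hab : a ≤ b) :
    ContinuousOn (wq x B) (uIcc a b) := by
  apply wq_continuousOn.mono
  intro s hs
  rw [uIcc_of_le hab] at hs
  exact lt_of_lt_of_le h hs.1

theorem cert_int_left {x b B t : ℝ} (hb : b ≤ B) (ht : t ≤ b) (htB : t < B) (hx : x < b) :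
    IntervalIntegrable (fun s => wq x B s * G s B t) volume b B := by
  have h1 : IntervalIntegrable (fun s => wq x B s * (2 * log ((√(B - t) + √(s - t)) / 2)))
      volume b B := by
    apply ContinuousOn.intervalIntegrable
    exact (wq_continuousOn_uIcc hx hb).mul (contG_left htB _)
  refine h1.congr_uIoo ?_
  intro s hs
  rw [uIoo_of_le hb] at hs
  show _ = wq x B s * G s B t
  rw [G_left (by linarith [hs.1])]

theorem cert_int_mid {x b B t : ℝ} (hb : b ≤ t) (ht : t ≤ B) (hx : x < b) :
    IntervalIntegrable (fun s => wq x B s * G s B t) volume b t := by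
  have h1 : IntervalIntegrable (fun s => wq x B s * log ((B - s) / 4)) volume b t :=
    (intervalIntegrable_logdiv B b t).continuousOn_mul (wq_continuousOn_uIcc hx hb)
  refine h1.congr_uIoo ?_
  intro s hs
  rw [uIoo_of_le hb] at hs
  show _ = wq x B s * G s B t
  rw [G_mid (by linarith [hs.2]) ht]

theorem cert_int_right {x b B t : ℝ} (hb : b ≤ B) (ht : B < t) (hx : x < b) :
    IntervalIntegrable (fun s => wq x B s * G s B t) volume b B := by
  have h1 : IntervalIntegrable (fun s => wq x B s * (2 * log ((√(t - s) + √(t - B)) / 2)))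
      volume b B := by
    apply ContinuousOn.intervalIntegrable
    apply (wq_continuousOn_uIcc hx hb).mul
    have hC : 0 < √(t - B) := sqrt_pos.2 (by linarith)
    apply ContinuousOn.mul continuousOn_const
    apply ContinuousOn.log
    · fun_prop
    · intro s hs
      positivity
  refine h1.congr_uIoo ?_
  intro s hs
  rw [uIoo_of_le hb] at hs
  show _ = wq x B s * G s B t
  rw [G_right (by linarith [hs.2]) ht]

/-- integrability at every real point -/
theorem cert_intervalIntegrable {x b B : ℝ} (hx : x < b) (hb : b ≤ B) (t : ℝ) :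
    IntervalIntegrable (fun s => wq x B s * G s B t) volume b B := by
  rcases lt_or_ge B t with h | h
  · exact cert_int_right hb h hx
  rcases le_or_gt t b with h1 | h1
  · rcases eq_or_lt_of_le hb with h2 | h2
    · rw [h2]
    · exact cert_int_left hb h1 (by linarith) hx
  · refine (cert_int_mid h1.le h hx).trans ?_
    rcases eq_or_lt_of_le h with h2 | h2
    · rw [h2]
    · exact cert_int_left h le_rfl h2 (by linarith)

theorem Fq_continuousOn {x B t : ℝ} (hx : x < t) (ht : t < B) :
    ContinuousOn (Fq x B t) (Icc t B) := by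
  unfold Fq
  have hpos : ∀ s ∈ Icc t B, 0 < √(s - x) ∧ 0 < √(B - x) ∧ 0 < √(B - t) := by
    intro s hs
    exact ⟨sqrt_pos.2 (by linarith [hs.1]), sqrt_pos.2 (by linarith), sqrt_pos.2 (by linarith)⟩
  apply ContinuousOn.add
  · apply ContinuousOn.sub
    · apply ContinuousOn.mul continuousOn_const
      apply ContinuousOn.log
      · fun_prop
      · intro s hs
        obtain ⟨h, h', h''⟩ := hpos s hs
        positivity
    · apply ContinuousOn.mul continuousOn_const
      apply ContinuousOn.log
      · fun_prop
      · intro s hs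
        obtain ⟨h, h', h''⟩ := hpos s hs
        positivity
  · apply ContinuousOn.mul
    · apply ContinuousOn.mul continuousOn_const
      apply ContinuousOn.div continuousOn_const
      · fun_prop
      · intro s hs
        exact (hpos s hs).1.ne'
    · apply ContinuousOn.log
      · fun_prop
      · intro s hs
        obtain ⟨h, h', h''⟩ := hpos s hs
        positivity

theorem Fq_diag {x B t : ℝ} (hx : x < t) (ht : t < B) :
    Fq x B t t = Hq x B t - log (t - x) := by
  unfold Fq Hq
  have hp : 0 < √(t - x) := sqrt_pos.2 (by linarith)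
  have hC : 0 < √(B - t) := sqrt_pos.2 (by linarith)
  have e1 : log (t - x) = 2 * log √(t - x) := by
    rw [log_sqrt (by linarith)]; ring
  have e2 : log (B - t) = 2 * log √(B - t) := by
    rw [log_sqrt (by linarith)]; ring
  have e3 : log 4 = 2 * log 2 := by
    rw [show (4:ℝ) = 2 ^ 2 by norm_num, log_pow]
    norm_num
  rw [sub_self, sqrt_zero, mul_zero, zero_add, add_zero, e1, e2, e3, log_mul hp.ne' hC.ne',
    log_div hC.ne' (by norm_num)]
  ring

/-- value of the integral, for a point of the interval -/
theorem cert_mid {x b B t : ℝ} (hx : x < b) (hbt : b ≤ t) (ht : t ≤ B) :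
    ∫ s in b..B, wq x B s * G s B t = Hq x B b - log (t - x) := by
  have i1 := cert_int_mid (x := x) hbt ht hx
  have h1 : ∫ s in b..t, wq x B s * G s B t = Hq x B b - Hq x B t := by
    have h2 : ∫ s in b..t, wq x B s * G s B t = ∫ s in b..t, wq x B s * log ((B - s) / 4) := by
      apply intervalIntegral.integral_congr_uIoo
      intro s hs
      rw [uIoo_of_le hbt] at hs
      show wq x B s * G s B t = _
      rw [G_mid (by linarith [hs.2]) ht]
    rw [h2]
    have h3 : ∫ s in b..t, (-(wq x B s * log ((B - s) / 4))) = Hq x B t - Hq x B b := by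
      refine intervalIntegral.integral_eq_sub_of_hasDerivAt_of_le hbt (f := Hq x B)
        (f' := fun s => -(wq x B s * log ((B - s) / 4))) ?_ ?_ ?_
      · apply Hq_continuousOn.mono
        intro s hs
        exact ⟨by linarith [hs.1], by linarith [hs.2]⟩
      · intro s hs
        exact Hq_hasDerivAt (by linarith [hs.1]) (by linarith [hs.2])
      · exact ((intervalIntegrable_logdiv B b t).continuousOn_mul
          (wq_continuousOn_uIcc hx hbt)).neg
    rw [intervalIntegral.integral_neg] at h3
    linarith
  rcases eq_or_lt_of_le ht with h | h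
  · rw [h] at h1 ⊢
    rw [h1, Hq_self (by linarith)]
  · have i2 := cert_int_left (x := x) ht le_rfl h (by linarith)
    have h4 : ∫ s in t..B, wq x B s * G s B t = Fq x B t t := by
      have h2 : ∫ s in t..B, wq x B s * G s B t =
          ∫ s in t..B, wq x B s * (2 * log ((√(B - t) + √(s - t)) / 2)) := by
        apply intervalIntegral.integral_congr_uIoo
        intro s hs
        rw [uIoo_of_le ht] at hs
        show wq x B s * G s B t = _
        rw [G_left (by linarith [hs.1])]
      rw [h2]
      have h3 : ∫ s in t..B, (-(wq x B s * (2 * log ((√(B - t) + √(s - t)) / 2)))) =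
          Fq x B t B - Fq x B t t := by
        refine intervalIntegral.integral_eq_sub_of_hasDerivAt_of_le ht (f := Fq x B t)
          (f' := fun s => -(wq x B s * (2 * log ((√(B - t) + √(s - t)) / 2)))) ?_ ?_ ?_
        · exact Fq_continuousOn (by linarith) h
        · intro s hs
          exact Fq_hasDerivAt (by linarith [hs.1]) (by linarith [hs.1]) hs.2.le
        · apply ContinuousOn.intervalIntegrable
          exact ((wq_continuousOn_uIcc (by linarith) ht).mul (contG_left h _)).neg
      rw [intervalIntegral.integral_neg, Fq_self (by linarith) h] at h3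
      linarith
    rw [← intervalIntegral.integral_add_adjacent_intervals i1 i2, h1, h4,
      Fq_diag (by linarith) h]
    ring

theorem Hq_eq {x b B : ℝ} (hx : x < b) (hb : b < B) :
    Hq x B b = gI b B x - √((B - x) / (b - x)) * log (4 / (B - b)) := by
  unfold Hq gI
  have hp : 0 < √(b - x) := sqrt_pos.2 (by linarith)
  have hA : 0 < √(B - x) := sqrt_pos.2 (by linarith)
  have hR : 0 < √(B - b) := sqrt_pos.2 (by linarith)
  have hR' : 0 < B - b := by linarith
  have e2 : log √(B - b) = log (B - b) / 2 := log_sqrt hR'.le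
  rw [sqrt_div (by linarith : (0:ℝ) ≤ B - x), log_div (by positivity) hR.ne',
    log_div (by norm_num) hR'.ne', e2]
  ring

theorem artanh_ineq {k y : ℝ} (hk : 1 ≤ k) (hy : 0 ≤ y) (hky : k * y < 1) :
    k * (log (1 + y) - log (1 - y)) ≤ log (1 + k * y) - log (1 - k * y) := by
  have hd : ∀ z, 0 ≤ z → k * z < 1 → HasDerivAt
      (fun z => log (1 + k * z) - log (1 - k * z) - k * (log (1 + z) - log (1 - z)))
      (k / (1 + k * z) - (-k) / (1 - k * z) - k * (1 / (1 + z) - (-1) / (1 - z))) z := by
    intro z hz hkz
    have hz1 : z < 1 := by nlinarith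
    have d1 : HasDerivAt (fun z : ℝ => k * z) k z := by
      simpa using (hasDerivAt_id z).const_mul k
    have a1 : HasDerivAt (fun z : ℝ => log (1 + k * z)) (k / (1 + k * z)) z :=
      (d1.const_add 1).log (by nlinarith)
    have a2 : HasDerivAt (fun z : ℝ => log (1 - k * z)) ((-k) / (1 - k * z)) z :=
      (d1.const_sub 1).log (by linarith)
    have a3 : HasDerivAt (fun z : ℝ => log (1 + z)) (1 / (1 + z)) z :=
      ((hasDerivAt_id z).const_add 1).log (by simp only [id]; linarith)
    have a4 : HasDerivAt (fun z : ℝ => log (1 - z)) ((-1) / (1 - z)) z :=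
      ((hasDerivAt_id z).const_sub 1).log (by simp only [id]; linarith)
    exact (a1.sub a2).sub ((a3.sub a4).const_mul k)
  have hm : MonotoneOn
      (fun z => log (1 + k * z) - log (1 - k * z) - k * (log (1 + z) - log (1 - z))) (Icc 0 y) := by
    apply monotoneOn_of_deriv_nonneg (convex_Icc 0 y)
    · intro z hz
      exact (hd z hz.1 (by nlinarith [hz.2])).continuousAt.continuousWithinAt
    · intro z hz
      rw [interior_Icc] at hz
      exact (hd z hz.1.le (by nlinarith [hz.2])).differentiableAt.differentiableWithinAt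
    · intro z hz
      rw [interior_Icc] at hz
      have hkz : k * z < 1 := by nlinarith [hz.2]
      rw [(hd z hz.1.le hkz).deriv]
      have hz0 := hz.1
      have hz1 : z < 1 := by nlinarith
      have p1 : 0 < 1 + k * z := by nlinarith
      have p2 : 0 < 1 - k * z := by linarith
      have p3 : 0 < 1 + z := by linarith
      have p4 : 0 < 1 - z := by linarith
      have e : k / (1 + k * z) - (-k) / (1 - k * z) - k * (1 / (1 + z) - (-1) / (1 - z)) =
          2 * k * z ^ 2 * (k ^ 2 - 1) / ((1 + k * z) * (1 - k * z) * ((1 + z) * (1 - z))) := by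
        field_simp
        ring
      rw [e]
      have : 0 ≤ k ^ 2 - 1 := by nlinarith
      positivity
  have := hm (left_mem_Icc.2 hy) (right_mem_Icc.2 hy) hy
  simp only [mul_zero, add_zero, sub_zero, log_one, sub_self] at this
  linarith

theorem Fq_le {x b B t : ℝ} (hb : b < B) (hxt : x < t) (ht : t < b) :
    Fq x B t b ≤ Hq x B b - log (t - x) := by
  unfold Fq Hq
  have hp : 0 < √(b - x) := sqrt_pos.2 (by linarith)
  have hq : 0 < √(b - t) := sqrt_pos.2 (by linarith)
  have hA : 0 < √(B - x) := sqrt_pos.2 (by linarith)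
  have hC : 0 < √(B - t) := sqrt_pos.2 (by linarith)
  have ep : √(b - x) ^ 2 = b - x := sq_sqrt (by linarith)
  have eq : √(b - t) ^ 2 = b - t := sq_sqrt (by linarith)
  have eA : √(B - x) ^ 2 = B - x := sq_sqrt (by linarith)
  have eC : √(B - t) ^ 2 = B - t := sq_sqrt (by linarith)
  have hpA : √(b - x) < √(B - x) := sqrt_lt_sqrt (by linarith) (by linarith)
  have hqC : √(b - t) < √(B - t) := sqrt_lt_sqrt (by linarith) (by linarith)
  set p := √(b - x)
  set q := √(b - t)
  set A := √(B - x)
  set C := √(B - t)
  have hxt' : 0 < t - x := by linarith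
  have hbB : 0 < B - b := by linarith
  have hprod : (A * q + p * C) * (p * C - A * q) = (B - b) * (t - x) := by
    have : (A * q + p * C) * (p * C - A * q) = p ^ 2 * C ^ 2 - A ^ 2 * q ^ 2 := by ring
    rw [this, eA, eq, ep, eC]
    ring
  have hS : 0 < A * q + p * C := by positivity
  have hD : 0 < p * C - A * q := by
    have : 0 < (A * q + p * C) * (p * C - A * q) := by rw [hprod]; positivity
    exact (pos_iff_pos_of_mul_pos this).1 hS
  have hBb : (C + q) * (C - q) = B - b := by
    have : (C + q) * (C - q) = C ^ 2 - q ^ 2 := by ring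
    rw [this, eC, eq]; ring
  have hCq : 0 < C - q := by linarith
  have key := artanh_ineq (k := A / p) (y := q / C) (by rw [le_div_iff₀ hp]; linarith)
    (by positivity) (by
      rw [div_mul_div_comm, div_lt_one (by positivity)]; linarith)
  have f1 : 1 + q / C = (C + q) / C := by field_simp
  have f2 : 1 - q / C = (C - q) / C := by field_simp
  have f3 : 1 + A / p * (q / C) = (A * q + p * C) / (p * C) := by field_simp; ring
  have f4 : 1 - A / p * (q / C) = (p * C - A * q) / (p * C) := by field_simp
  rw [f1, f2, f3, f4, log_div (by positivity) hC.ne', log_div hCq.ne' hC.ne',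
    log_div hS.ne' (by positivity), log_div hD.ne' (by positivity)] at key
  have l1 : log (B - b) = log (C + q) + log (C - q) := by
    rw [← hBb, log_mul (by positivity) hCq.ne']
  have l2 : log (B - b) + log (t - x) = log (A * q + p * C) + log (p * C - A * q) := by
    rw [← log_mul hbB.ne' hxt'.ne', ← hprod, log_mul hS.ne' hD.ne']
  have l3 : log 4 = 2 * log 2 := by
    rw [show (4:ℝ) = 2 ^ 2 by norm_num, log_pow]
    norm_num
  rw [log_div (by positivity) (by norm_num), l3]
  have l4 : A / p * (log (C + q) - log C - (log (C - q) - log C)) =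
      A / p * (2 * log (C + q)) - A / p * log (B - b) := by rw [l1]; ring
  rw [l4] at key
  linarith

/-- helper405's form -/
theorem cert_le {x b B t : ℝ} (hx : x < b) (hb : b < B) (hxt : x < t) (ht : t ≤ B) :
    ∫ s in b..B, wq x B s * G s B t ≤
      gI b B x - √((B - x) / (b - x)) * log (4 / (B - b)) - log |x - t| := by
  rw [← Hq_eq hx hb, abs_sub_comm, abs_of_pos (by linarith : 0 < t - x)]
  rcases lt_or_ge t b with h | h
  · rw [cert_left hx hb h]
    exact Fq_le hb hxt h
  · exact (cert_mid hx h ht).le

/-- equality on the interval -/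
theorem cert_eq_mid {x b B t : ℝ} (hx : x < b) (hb : b < B) (hbt : b ≤ t) (ht : t ≤ B) :
    ∫ s in b..B, wq x B s * G s B t =
      gI b B x - √((B - x) / (b - x)) * log (4 / (B - b)) - log |x - t| := by
  rw [← Hq_eq hx hb, abs_sub_comm, abs_of_pos (by linarith : 0 < t - x)]
  exact cert_mid hx hbt ht

end Pool.Agent.MP28e671
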