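import Mathlib
import Pool.Agent.MP28e671.Block

set_option autoImplicit false

open Real Set MeasureTheory

namespace Pool.Agent.MP28e671

/-- Closed form of `∫ s in b..B, wq x B s * G s B t` for `t < b`. -/
noncomputable def PsiC (x b B t : ℝ) : ℝ :=
  2 * log ((√(B - x) + √(b - x)) / (√(B - x) * √(b - t) + √(b - x) * √(B - t))) +
    2 * (√(B - x) / √(b - x)) * log ((√(B - t) + √(b - t)) / 2)

/-- convexity of `artanh`, in the form `k * artanh q ≤ artanh (k q)`. -/
lemma artanh_super {k q : ℝ} (hk : 1 ≤ k) (hq : 0 ≤ q) (hkq : k * q < 1) :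
    k * (log (1 + q) - log (1 - q)) ≤ log (1 + k * q) - log (1 - k * q) := by
  have hq1 : q < 1 := by nlinarith
  have h1 := (Real.hasSum_log_sub_log_of_abs_lt_one (x := q)
    (by rw [abs_of_nonneg hq]; exact hq1)).mul_left k
  have h2 := Real.hasSum_log_sub_log_of_abs_lt_one (x := k * q)
    (by rw [abs_of_nonneg (by positivity)]; exact hkq)
  refine hasSum_le (fun n => ?_) h1 h2
  have h3 : k ≤ k ^ (2 * n + 1) := by
    calc k = k ^ 1 := (pow_one k).symm
      _ ≤ k ^ (2 * n + 1) := pow_le_pow_right₀ hk (by omega)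
  rw [mul_pow]
  have h4 : 0 ≤ q ^ (2 * n + 1) := by positivity
  have h5 : k * q ^ (2 * n + 1) ≤ k ^ (2 * n + 1) * q ^ (2 * n + 1) :=
    mul_le_mul_of_nonneg_right h3 h4
  have h6 : 0 ≤ 2 * (1 / (2 * (n:ℝ) + 1)) := by positivity
  calc k * (2 * (1 / (2 * (n:ℝ) + 1)) * q ^ (2 * n + 1))
      = 2 * (1 / (2 * (n:ℝ) + 1)) * (k * q ^ (2 * n + 1)) := by ring
    _ ≤ 2 * (1 / (2 * (n:ℝ) + 1)) * (k ^ (2 * n + 1) * q ^ (2 * n + 1)) :=
      mul_le_mul_of_nonneg_left h5 h6

lemma psi_le {x t b B : ℝ} (hxt : x < t) (htb : t < b) (hbB : b < B) :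
    PsiC x b B t ≤ gI b B x - √((B - x) / (b - x)) * log (4 / (B - b)) - log |x - t| := by
  set A := √(B - x) with hA
  set b' := √(b - x) with hb'
  set At := √(B - t) with hAt
  set Bt := √(b - t) with hBt
  set D := √(B - b) with hD
  have hA2 : A ^ 2 = B - x := Real.sq_sqrt (by linarith)
  have hb2 : b' ^ 2 = b - x := Real.sq_sqrt (by linarith)
  have hAt2 : At ^ 2 = B - t := Real.sq_sqrt (by linarith)
  have hBt2 : Bt ^ 2 = b - t := Real.sq_sqrt (by linarith)
  have hD2 : D ^ 2 = B - b := Real.sq_sqrt (by linarith)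
  have pA : 0 < A := Real.sqrt_pos.2 (by linarith)
  have pb : 0 < b' := Real.sqrt_pos.2 (by linarith)
  have pAt : 0 < At := Real.sqrt_pos.2 (by linarith)
  have pBt : 0 < Bt := Real.sqrt_pos.2 (by linarith)
  have pD : 0 < D := Real.sqrt_pos.2 (by linarith)
  have hk : √((B - x) / (b - x)) = A / b' := Real.sqrt_div' _ (by linarith)
  set k := A / b' with hkdef
  have hk1 : 1 ≤ k := by
    rw [hkdef, le_div_iff₀ pb, one_mul]; exact Real.sqrt_le_sqrt (by linarith)
  set q := Bt / At with hq
  have hkey : (b' * At) ^ 2 - (A * Bt) ^ 2 = D ^ 2 * (t - x) := by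
    rw [mul_pow, mul_pow, hb2, hAt2, hA2, hBt2, hD2]; ring
  have hkq : k * q < 1 := by
    rw [hkdef, hq, div_mul_div_comm, div_lt_one (by positivity)]
    have : (A * Bt) ^ 2 < (b' * At) ^ 2 := by
      have : 0 < D ^ 2 * (t - x) := mul_pos (by positivity) (by linarith)
      linarith
    exact lt_of_pow_lt_pow_left₀ 2 (by positivity) this
  have hq0 : 0 ≤ q := by positivity
  have hq1 : q < 1 := by nlinarith
  have hsup := artanh_super hk1 hq0 hkq
  -- logs
  have e1 : log (1 + q) - log (1 - q) = 2 * log (At + Bt) - 2 * log D := by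
    have h1 : (1 + q) / (1 - q) = (At + Bt) ^ 2 / D ^ 2 := by
      have h2 : D ^ 2 = (At - Bt) * (At + Bt) := by
        have : (At - Bt) * (At + Bt) = At ^ 2 - Bt ^ 2 := by ring
        rw [this, hAt2, hBt2, hD2]; ring
      have h3 : 0 < At - Bt := by
        have : q < 1 := hq1
        rw [hq, div_lt_one pAt] at this; linarith
      rw [h2, hq]
      field_simp
    rw [← Real.log_div (by linarith) (by linarith), h1, Real.log_div (by positivity) (by positivity),
      Real.log_pow, Real.log_pow]
    push_cast; ring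
  have e2 : log (1 + k * q) - log (1 - k * q) =
      2 * log (A * Bt + b' * At) - 2 * log D - log (t - x) := by
    have h1 : (1 + k * q) / (1 - k * q) = (A * Bt + b' * At) ^ 2 / (D ^ 2 * (t - x)) := by
      have h3 : 0 < b' * At - A * Bt := by
        have : k * q < 1 := hkq
        rw [hkdef, hq, div_mul_div_comm, div_lt_one (by positivity)] at this; linarith
      have h2 : D ^ 2 * (t - x) = (b' * At - A * Bt) * (A * Bt + b' * At) := by
        rw [← hkey]; ring
      have h4 : 1 - k * q = (b' * At - A * Bt) / (b' * At) := by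
        rw [hkdef, hq]; field_simp
      have h5 : 1 + k * q = (b' * At + A * Bt) / (b' * At) := by
        rw [hkdef, hq]; field_simp
      rw [h2, h4, h5]
      field_simp
      ring
    rw [← Real.log_div (by positivity) (by linarith), h1,
      Real.log_div (by positivity) (mul_pos (by positivity) (by linarith)).ne',
      Real.log_mul (by positivity) (by linarith), Real.log_pow, Real.log_pow]
    push_cast; ring
  rw [e1, e2] at hsup
  unfold PsiC gI
  rw [← hA, ← hb', ← hAt, ← hBt, ← hD, hk]
  have e3 : |x - t| = t - x := by rw [abs_sub_comm, abs_of_pos (by linarith)]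
  have e4 : log (4 / (B - b)) = 2 * log 2 - 2 * log D := by
    rw [← hD2, Real.log_div (by norm_num) (by positivity), Real.log_pow,
      show (4:ℝ) = 2 ^ 2 by norm_num, Real.log_pow]
    push_cast; ring
  rw [e3, e4, Real.log_div (by positivity) (by positivity), Real.log_div (by positivity) pD.ne',
    Real.log_div (by positivity) (by norm_num)]
  nlinarith [hsup]

lemma psi_zero {x b B : ℝ} (hxb : x < b) (hbB : b < B) (hb : 0 < b) (hx : x ≠ 0) :
    PsiC x b B 0 =
      gI b B x - g0 b B x + √((B - x) / (b - x)) * (gI b B 0 - log (4 / (B - b))) - log |x| := by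
  set A := √(B - x) with hA
  set b' := √(b - x) with hb'
  set At := √B with hAt
  set Bt := √b with hBt
  set D := √(B - b) with hD
  have hA2 : A ^ 2 = B - x := Real.sq_sqrt (by linarith)
  have hb2 : b' ^ 2 = b - x := Real.sq_sqrt (by linarith)
  have hAt2 : At ^ 2 = B := Real.sq_sqrt (by linarith)
  have hBt2 : Bt ^ 2 = b := Real.sq_sqrt (by linarith)
  have hD2 : D ^ 2 = B - b := Real.sq_sqrt (by linarith)
  have pA : 0 < A := Real.sqrt_pos.2 (by linarith)
  have pb : 0 < b' := Real.sqrt_pos.2 (by linarith)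
  have pAt : 0 < At := Real.sqrt_pos.2 (by linarith)
  have pBt : 0 < Bt := Real.sqrt_pos.2 (by linarith)
  have pD : 0 < D := Real.sqrt_pos.2 (by linarith)
  have hk : √((B - x) / (b - x)) = A / b' := Real.sqrt_div' _ (by linarith)
  have hkey : (A * Bt - b' * At) * (A * Bt + b' * At) = D ^ 2 * x := by
    have : (A * Bt - b' * At) * (A * Bt + b' * At) = (A ^ 2) * (Bt ^ 2) - (b' ^ 2) * (At ^ 2) := by
      ring
    rw [this, hb2, hAt2, hA2, hBt2, hD2]; ring
  have hP : 0 < A * Bt + b' * At := by positivity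
  have hne : A * Bt - b' * At ≠ 0 := by
    intro h
    rw [h, zero_mul] at hkey
    have := mul_ne_zero (pow_ne_zero 2 pD.ne') hx
    exact this hkey.symm
  unfold PsiC gI g0
  simp only [sub_zero]
  rw [← hA, ← hb', ← hAt, ← hBt, ← hD, hk]
  have e4 : log (4 / (B - b)) = 2 * log 2 - 2 * log D := by
    rw [← hD2, Real.log_div (by norm_num) (by positivity), Real.log_pow,
      show (4:ℝ) = 2 ^ 2 by norm_num, Real.log_pow]
    push_cast; ring
  have e5 : log |x| = log |A * Bt - b' * At| + log (A * Bt + b' * At) - 2 * log D := by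
    have h1 : |x| = |A * Bt - b' * At| * (A * Bt + b' * At) / D ^ 2 := by
      rw [eq_div_iff (by positivity), ← abs_of_pos (show 0 < D ^ 2 by positivity),
        ← abs_mul, mul_comm x, ← hkey, abs_mul, abs_of_pos hP]
    rw [h1, Real.log_div (mul_pos (abs_pos.2 hne) hP).ne' (by positivity),
      Real.log_mul (abs_pos.2 hne).ne' hP.ne', Real.log_pow]
    push_cast; ring
  rw [abs_div, abs_of_pos hP, e5, Real.log_div hP.ne' (abs_pos.2 hne).ne', e4,
    Real.log_div (by positivity) hP.ne', Real.log_div (by positivity) pD.ne',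
    Real.log_div (by positivity) pD.ne', Real.log_div (by positivity) (by norm_num)]
  ring

end Pool.Agent.MP28e671
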