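import Mathlib
import Pool.Agent.MP28e671.Defs
import Pool.Agent.MP28e671.CertAlg

set_option autoImplicit false

open Real MeasureTheory Set

namespace Pool.Agent.MP28e671

/-- the weight, in the square root form -/
theorem rpow_three_half {y : ℝ} (hy : 0 < y) : y ^ (-(3 / 2) : ℝ) = 1 / √y ^ 3 := by
  rw [Real.rpow_neg hy.le, one_div]
  congr 1
  rw [Real.sqrt_eq_rpow, ← Real.rpow_natCast, ← Real.rpow_mul hy.le]
  norm_num

theorem certR_integral {x b B t : ℝ} (hxb : x < b) (htb : t ≤ b) (hbB : b < B) :
    ∫ s in b..B, (1 / 2 * √(B - x) * (s - x) ^ (-(3 / 2) : ℝ)) *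
      (2 * log ((√(B - t) + √(s - t)) / 2)) = PsiC x b B t := by
  have pA : 0 < √(B - x) := Real.sqrt_pos.2 (by linarith)
  have pT : 0 < √(B - t) := Real.sqrt_pos.2 (by linarith)
  have hA2 : √(B - x) ^ 2 = B - x := Real.sq_sqrt (by linarith)
  have hT2 : √(B - t) ^ 2 = B - t := Real.sq_sqrt (by linarith)
  set A := √(B - x) with hA
  set T := √(B - t) with hT
  -- the primitive
  let P : ℝ → ℝ := fun s => 2 * log ((A + √(s - x)) / (A * √(s - t) + √(s - x) * T)) +
    2 * (A / √(s - x)) * log ((T + √(s - t)) / 2)
  have hPb : P b = PsiC x b B t := rfl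
  have hPB : P B = 0 := by
    simp only [P]
    rw [← hA, ← hT, div_self pA.ne']
    have e1 : (A + A) / (A * T + A * T) = T⁻¹ := by field_simp
    have e2 : (T + T) / 2 = T := by ring
    rw [e1, e2, Real.log_inv]; ring
  have hcont : ContinuousOn P (Icc b B) := by
    have hc : ∀ s ∈ Icc b B, 0 < √(s - x) := fun s hs => Real.sqrt_pos.2 (by linarith [hs.1])
    apply ContinuousOn.add
    · apply ContinuousOn.mul continuousOn_const
      apply ContinuousOn.log
      · apply ContinuousOn.div (by fun_prop) (by fun_prop)
        intro s hs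
        have := hc s hs
        have := Real.sqrt_nonneg (s - t)
        positivity
      · intro s hs
        have := hc s hs
        have := Real.sqrt_nonneg (s - t)
        positivity
    · apply ContinuousOn.mul
      · apply ContinuousOn.mul continuousOn_const
        apply ContinuousOn.div continuousOn_const (by fun_prop)
        intro s hs
        exact (hc s hs).ne'
      · apply ContinuousOn.log (by fun_prop)
        intro s hs
        have := Real.sqrt_nonneg (s - t)
        positivity
  have hderiv : ∀ s ∈ Ioo b B, HasDerivAt P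
      (-((1 / 2 * A * (s - x) ^ (-(3 / 2) : ℝ)) * (2 * log ((T + √(s - t)) / 2)))) s := by
    intro s hs
    have hsx : 0 < s - x := by linarith [hs.1]
    have hst : 0 < s - t := by linarith [hs.1]
    have pc : 0 < √(s - x) := Real.sqrt_pos.2 hsx
    have pq : 0 < √(s - t) := Real.sqrt_pos.2 hst
    have hc2 : √(s - x) ^ 2 = s - x := Real.sq_sqrt hsx.le
    have hq2 : √(s - t) ^ 2 = s - t := Real.sq_sqrt hst.le
    have dc : HasDerivAt (fun s => √(s - x)) (1 / (2 * √(s - x))) s :=
      ((hasDerivAt_id s).sub_const x).sqrt hsx.ne'
    have dq : HasDerivAt (fun s => √(s - t)) (1 / (2 * √(s - t))) s :=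
      ((hasDerivAt_id s).sub_const t).sqrt hst.ne'
    rw [rpow_three_half hsx]
    generalize hcc : √(s - x) = c at *
    generalize hqq : √(s - t) = q at *
    have d1 : HasDerivAt (fun s => A + √(s - x)) (1 / (2 * c)) s := dc.const_add A
    have d2 : HasDerivAt (fun s => A * √(s - t) + √(s - x) * T)
        (A * (1 / (2 * q)) + 1 / (2 * c) * T) s := (dq.const_mul A).add (dc.mul_const T)
    have hpos1 : 0 < A + c := by positivity
    have hpos2 : 0 < A * q + c * T := by positivity
    have d3 := ((d1.fun_div d2 (by simp only [hqq, hcc]; exact hpos2.ne')).log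
      (by simp only [hqq, hcc]; exact (div_pos hpos1 hpos2).ne')).const_mul 2
    simp only [hcc, hqq] at d3
    have d4 : HasDerivAt (fun s => A / √(s - x)) (-(A * (1 / (2 * c))) / c ^ 2) s := by
      have := (hasDerivAt_const s A).fun_div dc (by simp only [hcc]; exact pc.ne')
      simp only [hcc] at this
      refine this.congr_deriv ?_
      rw [zero_mul, zero_sub]
    have d5 : HasDerivAt (fun s => log ((T + √(s - t)) / 2)) (1 / (2 * q) / (T + q)) s := by
      have := ((dq.const_add T).div_const 2).log (by simp only [hqq]; positivity)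
      simp only [hqq] at this
      convert this using 1
      field_simp
    have d6 := (d4.const_mul 2).fun_mul d5
    have d7 := d3.fun_add d6
    simp only [P]
    refine d7.congr_deriv ?_
    simp only [hcc, hqq]
    have e : A ^ 2 - c ^ 2 = T ^ 2 - q ^ 2 := by rw [hA2, hc2, hT2, hq2]; ring
    generalize log ((T + q) / 2) = l
    have hne1 := hpos1.ne'
    have hne2 := hpos2.ne'
    have hne3 : T + q ≠ 0 := by positivity
    have key : q / (A + c) - (A * c + T * q) / (A * q + c * T) + A / (T + q) = 0 := by
      have hh : (q * (T + q) * (A * q + c * T) + A * (A + c) * (A * q + c * T)) =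
          (A * c + T * q) * (A + c) * (T + q) := by
        linear_combination (A * q) * e
      rw [← sub_eq_zero] at hh
      have hh2 : q / (A + c) - (A * c + T * q) / (A * q + c * T) + A / (T + q) =
          ((q * (T + q) * (A * q + c * T) + A * (A + c) * (A * q + c * T)) -
            (A * c + T * q) * (A + c) * (T + q)) / ((A + c) * (A * q + c * T) * (T + q)) := by
        field_simp
        ring
      rw [hh2, hh, zero_div]
    have main : 2 * (((1 / (2 * c)) * (A * q + c * T) - (A + c) * (A * (1 / (2 * q)) +
        1 / (2 * c) * T)) / (A * q + c * T) ^ 2 / ((A + c) / (A * q + c * T))) +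
        2 * (A / c) * (1 / (2 * q) / (T + q)) =
        (1 / (c * q)) * (q / (A + c) - (A * c + T * q) / (A * q + c * T) + A / (T + q)) := by
      field_simp
    rw [key, mul_zero] at main
    have hc3 : c ≠ 0 := pc.ne'
    have e8 : 2 * (-(A * (1 / (2 * c))) / c ^ 2) * l = -(1 / 2 * A * (1 / c ^ 3) * (2 * l)) := by
      field_simp
    linear_combination main + e8
  have hint : IntervalIntegrable
      (fun s => -((1 / 2 * A * (s - x) ^ (-(3 / 2) : ℝ)) * (2 * log ((T + √(s - t)) / 2))))
      volume b B := by
    apply ContinuousOn.intervalIntegrable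
    rw [uIcc_of_le hbB.le]
    apply ContinuousOn.neg
    apply ContinuousOn.mul
    · apply ContinuousOn.mul continuousOn_const
      apply ContinuousOn.rpow_const (by fun_prop)
      intro s hs
      left
      have := hs.1
      linarith
    · apply ContinuousOn.mul continuousOn_const
      apply ContinuousOn.log (by fun_prop)
      intro s hs
      have := Real.sqrt_nonneg (s - t)
      positivity
  have h := intervalIntegral.integral_eq_sub_of_hasDerivAt_of_le hbB.le hcont hderiv hint
  rw [intervalIntegral.integral_neg, hPb, hPB] at h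
  linarith

end Pool.Agent.MP28e671
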