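import Mathlib
import Pool.Agent.MP28e671.Block
import Pool.Agent.MP28e671.ArcSymm
import Pool.Agent.MP28e671.Cert

set_option autoImplicit false

open Real Set MeasureTheory

namespace Pool.Agent.MP28e671

noncomputable def pt (u v θ : ℝ) : ℝ := (u + v) / 2 + (v - u) / 2 * cos θ

theorem arc_int {u v : ℝ} (h : u < v) (y : ℝ) :
    IntervalIntegrable (fun θ => log |y - pt u v θ|) volume 0 π := arc_integrable y h

theorem arc_eq {u v : ℝ} (h : u < v) (y : ℝ) :
    ∫ θ in (0:ℝ)..π, log |y - pt u v θ| = π * G u v y := arc_integral y h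

theorem arc_symm {u v u' v' : ℝ} (h : u < v) (h' : u' < v') :
    ∫ θ in (0:ℝ)..π, G u' v' (pt u v θ) = ∫ θ in (0:ℝ)..π, G u v (pt u' v' θ) := by
  have h1 := av_symm h h'
  unfold av at h1
  have h2 : (1 / π : ℝ) ≠ 0 := by positivity
  exact mul_left_cancel₀ h2 h1

/-! ### Elementary facts on `G`, `pt`, `wq` -/

lemma pt_mem {u v θ : ℝ} (h : u < v) : pt u v θ ∈ Icc u v := by
  have h1 := neg_one_le_cos θ
  have h2 := cos_le_one θ
  constructor <;> unfold pt <;> nlinarith

lemma pt_gt {u v θ : ℝ} (h : u < v) (hθ : θ ∈ Ioo 0 π) : u < pt u v θ := by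
  have h1 : -1 < cos θ := by
    rw [← cos_pi]
    exact cos_lt_cos_of_nonneg_of_le_pi hθ.1.le le_rfl hθ.2
  unfold pt; nlinarith

lemma pt_cont (u v : ℝ) : Continuous (pt u v) := by unfold pt; fun_prop

lemma G_eq_max {u v : ℝ} (h : u < v) (x : ℝ) :
    G u v x = 2 * log (max (√(v - u)) (max (√(v - x) + √(u - x)) (√(x - u) + √(x - v))) / 2) := by
  have h0 : 0 < v - u := by linarith
  have h4 : log ((v - u) / 4) = 2 * log (√(v - u) / 2) := by
    rw [Real.log_div (by linarith) (by norm_num),
      Real.log_div (Real.sqrt_pos.2 h0).ne' (by norm_num),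
      Real.log_sqrt h0.le, show (4:ℝ) = 2 ^ 2 by norm_num, Real.log_pow]
    push_cast; ring
  unfold G
  split_ifs with h1 h2
  · have e1 : √(x - u) = 0 := Real.sqrt_eq_zero_of_nonpos (by linarith)
    have e2 : √(x - v) = 0 := Real.sqrt_eq_zero_of_nonpos (by linarith)
    have e3 : √(v - u) ≤ √(v - x) := Real.sqrt_le_sqrt (by linarith)
    have e4 := Real.sqrt_nonneg (u - x)
    have e5 := Real.sqrt_nonneg (v - x)
    rw [e1, e2, max_eq_left (a := √(v - x) + √(u - x)) (by linarith), max_eq_right (by linarith)]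
  · have e1 : √(u - x) = 0 := Real.sqrt_eq_zero_of_nonpos (by linarith)
    have e2 : √(x - v) = 0 := Real.sqrt_eq_zero_of_nonpos (by linarith)
    have e3 : √(v - x) ≤ √(v - u) := Real.sqrt_le_sqrt (by linarith)
    have e4 : √(x - u) ≤ √(v - u) := Real.sqrt_le_sqrt (by linarith)
    rw [e1, e2, add_zero, add_zero, max_eq_left (max_le e3 e4), h4]
  · push Not at h1 h2
    have e1 : √(u - x) = 0 := Real.sqrt_eq_zero_of_nonpos (by linarith)
    have e2 : √(v - x) = 0 := Real.sqrt_eq_zero_of_nonpos (by linarith)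
    have e3 : √(v - u) ≤ √(x - u) := Real.sqrt_le_sqrt (by linarith)
    have e4 := Real.sqrt_nonneg (x - v)
    have e5 := Real.sqrt_nonneg (x - u)
    rw [e1, e2, max_eq_right (a := (0:ℝ) + 0) (by linarith), max_eq_right (by linarith)]

lemma G_cont {u v : ℝ} (h : u < v) : Continuous (G u v) := by
  have h1 : G u v = fun x => 2 * log (max (√(v - u))
      (max (√(v - x) + √(u - x)) (√(x - u) + √(x - v))) / 2) := by
    funext x; exact G_eq_max h x
  rw [h1]
  refine Continuous.mul continuous_const (Continuous.log (by fun_prop) fun x => ?_)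
  have : 0 < √(v - u) := Real.sqrt_pos.2 (by linarith)
  have h2 := le_max_left (√(v - u)) (max (√(v - x) + √(u - x)) (√(x - u) + √(x - v)))
  positivity

lemma wq_nonneg {x B s : ℝ} (h : x < s) : 0 ≤ wq x B s := by
  unfold wq
  have : 0 < s - x := by linarith
  positivity

lemma wq_contOn {x b B : ℝ} (h : x < b) : ContinuousOn (wq x B) (Icc b B) := by
  unfold wq
  refine ContinuousOn.mul continuousOn_const ?_
  refine ContinuousOn.rpow_const (by fun_prop) fun s hs => Or.inl ?_
  have := hs.1; linarith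

/-- `G` between the two bounds. -/
lemma G_lower {s B t : ℝ} (hs : s < B) (ht : t ≤ B) : log ((B - s) / 4) ≤ G s B t := by
  rcases le_or_gt s t with h | h
  · rw [G_of_mem h ht]
  · unfold G
    rw [if_pos h]
    have h0 : 0 < B - s := by linarith
    have h1 : √(B - s) ≤ √(B - t) := Real.sqrt_le_sqrt (by linarith)
    have h2 : 0 ≤ √(s - t) := Real.sqrt_nonneg _
    have h3 : 0 < √(B - s) := Real.sqrt_pos.2 h0
    have h4 : log ((B - s) / 4) = 2 * log (√(B - s) / 2) := by
      rw [Real.log_div (by linarith) (by norm_num), Real.log_div h3.ne' (by norm_num),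
        Real.log_sqrt h0.le, show (4:ℝ) = 2 ^ 2 by norm_num, Real.log_pow]
      push_cast; ring
    rw [h4]
    have := Real.log_le_log (by positivity)
      (by linarith : √(B - s) / 2 ≤ (√(B - t) + √(s - t)) / 2)
    linarith

lemma G_abs_le {s B t d : ℝ} (hs : s < B) (htd : d ≤ t) (ht : t ≤ B) :
    |G s B t| ≤ |log ((B - s) / 4)| + |log (B - d)| := by
  rcases le_or_gt s t with h | h
  · rw [G_of_mem h ht]; linarith [abs_nonneg (log (B - d))]
  · have h1 := G_lower hs ht
    have h2 : G s B t ≤ log (B - d) := by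
      unfold G
      rw [if_pos h]
      have h0 : 0 < B - t := by linarith
      have h3 : √(s - t) ≤ √(B - t) := Real.sqrt_le_sqrt (by linarith)
      have h5 : 0 < √(B - t) := Real.sqrt_pos.2 h0
      have h6 : 0 ≤ √(s - t) := Real.sqrt_nonneg _
      have h4 := Real.log_le_log (by positivity)
        (by linarith : (√(B - t) + √(s - t)) / 2 ≤ √(B - t))
      rw [Real.log_sqrt h0.le] at h4
      have h7 := Real.log_le_log h0 (by linarith : B - t ≤ B - d)
      linarith
    rw [abs_le]
    constructor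
    · have := neg_abs_le (log ((B - s) / 4))
      linarith [abs_nonneg (log (B - d))]
    · have := le_abs_self (log (B - d))
      linarith [abs_nonneg (log ((B - s) / 4))]


/-! ### Integrability -/

lemma G_meas (B : ℝ) : Measurable fun p : ℝ × ℝ => G p.1 B p.2 := by
  unfold G
  refine Measurable.ite (measurableSet_lt (by fun_prop) (by fun_prop)) (by fun_prop) ?_
  exact Measurable.ite (measurableSet_le (by fun_prop) (by fun_prop)) (by fun_prop) (by fun_prop)

lemma dom_int (b B : ℝ) : IntervalIntegrable (fun s => |log ((B - s) / 4)|) volume b B := by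
  have h1 : IntervalIntegrable (fun s => log ((B - s) / 4)) volume b B := by
    have h2 : IntervalIntegrable (fun s => log (B - s)) volume b B := by
      have := (intervalIntegral.intervalIntegrable_log' (a := B - b) (b := B - B)).comp_sub_left B
      simpa using this
    have h3 : IntervalIntegrable (fun s => log (B - s) - log 4) volume b B :=
      h2.sub intervalIntegrable_const
    refine h3.congr_ae ?_
    have h4 : ∀ᵐ s : ℝ, s ≠ B := by
      have : (volume : Measure ℝ) {B} = 0 := by simp
      exact measure_eq_zero_iff_ae_notMem.1 this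
    refine ae_restrict_of_ae ?_
    filter_upwards [h4] with s hs
    rw [Real.log_div (sub_ne_zero.2 (Ne.symm hs)) (by norm_num)]
  exact h1.abs

lemma joint_int {x b B d u v : ℝ} (hxb : x < b) (hbB : b < B) (hdu : d ≤ u) (huv : u < v)
    (hvB : v ≤ B) :
    Integrable (Function.uncurry fun s θ => wq x B s * G s B (pt u v θ))
      ((volume.restrict (Ioc b B)).prod (volume.restrict (Ioc 0 π))) := by
  have hbound : ∃ M, ∀ s ∈ Icc b B, |wq x B s| ≤ M := by
    obtain ⟨M, hM⟩ := isCompact_Icc.exists_bound_of_continuousOn (wq_contOn (B := B) hxb)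
    exact ⟨M, hM⟩
  obtain ⟨M, hM⟩ := hbound
  have hK : Integrable (fun s => M * (|log ((B - s) / 4)| + |log (B - d)|))
      (volume.restrict (Ioc b B)) := by
    have h1 := dom_int b B
    rw [intervalIntegrable_iff_integrableOn_Ioc_of_le hbB.le] at h1
    exact (h1.add (integrable_const _)).const_mul M
  have hfst : Integrable (fun p : ℝ × ℝ => M * (|log ((B - p.1) / 4)| + |log (B - d)|))
      ((volume.restrict (Ioc b B)).prod (volume.restrict (Ioc 0 π))) := hK.comp_fst _
  refine hfst.mono' ?_ ?_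
  · have h1 : Measurable (fun p : ℝ × ℝ => wq x B p.1 * G p.1 B (pt u v p.2)) := by
      have h2 : Measurable fun p : ℝ × ℝ => G p.1 B (pt u v p.2) :=
        (G_meas B).comp (measurable_fst.prodMk ((pt_cont u v).measurable.comp measurable_snd))
      have h3 : Measurable fun p : ℝ × ℝ => wq x B p.1 := by
        unfold wq; fun_prop
      exact h3.mul h2
    exact h1.aestronglyMeasurable
  · have h1 : ∀ᵐ p : ℝ × ℝ ∂((volume.restrict (Ioc b B)).prod (volume.restrict (Ioc 0 π))),
        p ∈ Ioo b B ×ˢ (univ : Set ℝ) := by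
      rw [Measure.prod_restrict, ae_restrict_iff' (by measurability)]
      have h2 : ∀ᵐ p : ℝ × ℝ, p.1 ≠ B := by
        have h5 : (volume : Measure (ℝ × ℝ)) {p | p.1 = B} = 0 := by
          have : {p : ℝ × ℝ | p.1 = B} = ({B} : Set ℝ) ×ˢ (univ : Set ℝ) := by
            ext p; simp
          rw [this, Measure.volume_eq_prod, Measure.prod_prod]; simp
        exact measure_eq_zero_iff_ae_notMem.1 h5
      filter_upwards [h2] with p hp hpm
      exact ⟨⟨hpm.1.1, lt_of_le_of_ne hpm.1.2 hp⟩, mem_univ _⟩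
    filter_upwards [h1] with p hp
    have hs : p.1 < B := hp.1.2
    have hpt := pt_mem (θ := p.2) huv
    simp only [Function.uncurry]
    rw [Real.norm_eq_abs, abs_mul]
    have h2 := hM p.1 ⟨hp.1.1.le, hp.1.2.le⟩
    exact mul_le_mul h2 (G_abs_le hs (hdu.trans hpt.1) (hpt.2.trans hvB)) (abs_nonneg _)
      ((abs_nonneg _).trans h2)


/-! ### The averages of the potential over the arcsine laws -/

/-- Average of the potential over the arcsine law of `[s, B]`. -/
lemma avg_eq {al s B : ℝ} {N : ℕ} (m u v : Fin N → ℝ) (hsB : s < B) (huv : ∀ j, u j < v j) :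
    ∫ θ in (0:ℝ)..π, (al * log |pt s B θ| + ∑ j, m j * G (u j) (v j) (pt s B θ)) =
      π * (al * G s B 0) + ∑ j, m j * ∫ θ in (0:ℝ)..π, G s B (pt (u j) (v j) θ) := by
  have h0 : (fun θ => log |pt s B θ|) = fun θ => log |0 - pt s B θ| := by
    funext θ; rw [zero_sub, abs_neg]
  have h1 : IntervalIntegrable (fun θ => al * log |pt s B θ|) volume 0 π := by
    refine IntervalIntegrable.const_mul ?_ al
    rw [h0]; exact arc_int hsB 0
  have h2 : ∀ j ∈ Finset.univ, IntervalIntegrable (fun θ => m j * G (u j) (v j) (pt s B θ))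
      volume 0 π := fun j _ =>
    (((G_cont (huv j)).comp (pt_cont s B)).intervalIntegrable 0 π).const_mul (m j)
  rw [intervalIntegral.integral_add h1 (by
    have := IntervalIntegrable.sum Finset.univ h2
    simpa [Finset.sum_fn] using this)]
  rw [intervalIntegral.integral_finsetSum h2, intervalIntegral.integral_const_mul, h0,
    arc_eq hsB 0]
  congr 1
  · ring
  · refine Finset.sum_congr rfl fun j _ => ?_
    rw [intervalIntegral.integral_const_mul, arc_symm hsB (huv j)]

/-- Nonnegativity of the average. -/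
lemma avg_nonneg {al d s B : ℝ} {N : ℕ} (m u v : Fin N → ℝ) (hds : d ≤ s) (hsB : s < B)
    (huv : ∀ j, u j < v j)
    (hU : ∀ x ∈ Icc d B, 0 ≤ al * log |x| + ∑ j, m j * G (u j) (v j) x) :
    0 ≤ π * (al * G s B 0) + ∑ j, m j * ∫ θ in (0:ℝ)..π, G s B (pt (u j) (v j) θ) := by
  rw [← avg_eq m u v hsB huv]
  refine intervalIntegral.integral_nonneg pi_pos.le fun θ _ => ?_
  have := pt_mem (θ := θ) hsB
  exact hU _ ⟨hds.trans this.1, this.2⟩

lemma G_zero_eq {d B : ℝ} (hd : 0 < d) (hdB : d < B) :
    G d B 0 = gI d B 0 + log ((B - d) / 4) := by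
  unfold G gI
  rw [if_pos hd, sub_zero, sub_zero]
  have h0 : 0 < B - d := by linarith
  have h1 : 0 < √(B - d) := Real.sqrt_pos.2 h0
  have h2 : 0 < √B + √d := by
    have := Real.sqrt_pos.2 hd
    have := Real.sqrt_nonneg B
    linarith
  rw [Real.log_div h2.ne' (by norm_num), Real.log_div h2.ne' h1.ne', Real.log_div h0.ne'
    (by norm_num), Real.log_sqrt h0.le, show (4:ℝ) = 2 ^ 2 by norm_num, Real.log_pow]
  push_cast; ring

/-- First part of theorem B. -/
lemma comp_first {al d B : ℝ} {N : ℕ} (m u v : Fin N → ℝ) (hd : 0 < d) (hdB : d < B)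
    (hm1 : ∑ j, m j = 1 - al) (hu : ∀ j, d ≤ u j) (huv : ∀ j, u j < v j)
    (hv : ∀ j, v j ≤ B)
    (hU : ∀ x ∈ Icc d B, 0 ≤ al * log |x| + ∑ j, m j * G (u j) (v j) x) :
    0 ≤ al * gI d B 0 - log (4 / (B - d)) := by
  have h1 := avg_nonneg m u v le_rfl hdB huv hU
  have h2 : ∀ j, ∫ θ in (0:ℝ)..π, G d B (pt (u j) (v j) θ) = π * log ((B - d) / 4) := by
    intro j
    have : ∀ θ, G d B (pt (u j) (v j) θ) = log ((B - d) / 4) := fun θ => by
      have := pt_mem (θ := θ) (huv j)
      exact G_of_mem ((hu j).trans this.1) (this.2.trans (hv j))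
    simp only [this, intervalIntegral.integral_const, sub_zero, smul_eq_mul]
  simp only [h2] at h1
  rw [← Finset.sum_mul, hm1, G_zero_eq hd hdB] at h1
  have h3 : log (4 / (B - d)) = - log ((B - d) / 4) := by
    rw [← Real.log_inv]; congr 1; rw [inv_div]
  rw [h3]
  have h4 : 0 ≤ π * (al * gI d B 0 + log ((B - d) / 4)) := by
    calc (0:ℝ) ≤ _ := h1
      _ = _ := by ring
  have := nonneg_of_mul_nonneg_right h4 pi_pos
  linarith

/-- Second part of theorem B. -/
lemma comp_second {al d B b x : ℝ} {N : ℕ} (m u v : Fin N → ℝ) (_hal : 0 < al)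
    (hd : 0 < d) (hm : ∀ j, 0 ≤ m j)
    (hm1 : ∑ j, m j = 1 - al) (hu : ∀ j, d ≤ u j) (huv : ∀ j, u j < v j)
    (hv : ∀ j, v j ≤ B)
    (hU : ∀ x ∈ Icc d B, 0 ≤ al * log |x| + ∑ j, m j * G (u j) (v j) x)
    (hdb : d ≤ b) (hbB : b < B) (hxd : x ≤ d) (hxb : x < b) (hx : x ≠ 0) :
    al * log |x| + ∑ j, m j * G (u j) (v j) x ≤
        gI b B x - al * g0 b B x + √((B - x) / (b - x)) * (al * gI b B 0 - log (4 / (B - b))) := by
  set C : ℝ := gI b B x - √((B - x) / (b - x)) * log (4 / (B - b)) with hC
  -- the inner integrals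
  set J : Fin N → ℝ := fun j => ∫ s in b..B, wq x B s * ∫ θ in (0:ℝ)..π, G s B (pt (u j) (v j) θ)
    with hJ
  have hJ1 : ∀ j, IntervalIntegrable
      (fun s => wq x B s * ∫ θ in (0:ℝ)..π, G s B (pt (u j) (v j) θ)) volume b B := by
    intro j
    have h1 := joint_int hxb hbB (hu j) (huv j) (hv j)
    have h2 := h1.integral_prod_left
    rw [intervalIntegrable_iff_integrableOn_Ioc_of_le hbB.le]
    refine h2.congr (Filter.Eventually.of_forall fun s => ?_)
    simp only [Function.uncurry]
    rw [integral_const_mul, intervalIntegral.integral_of_le pi_pos.le]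
  have hJ2 : ∀ j, J j = ∫ θ in (0:ℝ)..π, ∫ s in b..B, wq x B s * G s B (pt (u j) (v j) θ) := by
    intro j
    have h1 := joint_int hxb hbB (hu j) (huv j) (hv j)
    have h2 := integral_integral_swap h1
    simp only [hJ]
    rw [intervalIntegral.integral_of_le hbB.le, intervalIntegral.integral_of_le pi_pos.le]
    simp only [intervalIntegral.integral_of_le pi_pos.le, intervalIntegral.integral_of_le hbB.le]
    rw [← h2]
    refine integral_congr_ae (Filter.Eventually.of_forall fun s => ?_)
    simp only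
    rw [integral_const_mul]
  have hJ3 : ∀ j, J j ≤ π * (C - G (u j) (v j) x) := by
    intro j
    rw [hJ2 j]
    have h1 := joint_int hxb hbB (hu j) (huv j) (hv j)
    have h2 : IntervalIntegrable (fun θ => ∫ s in b..B, wq x B s * G s B (pt (u j) (v j) θ))
        volume 0 π := by
      rw [intervalIntegrable_iff_integrableOn_Ioc_of_le pi_pos.le]
      refine h1.integral_prod_right.congr (Filter.Eventually.of_forall fun θ => ?_)
      simp only [Function.uncurry]
      rw [intervalIntegral.integral_of_le hbB.le]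
    have h3 : IntervalIntegrable (fun θ => C - log |x - pt (u j) (v j) θ|) volume 0 π :=
      intervalIntegrable_const.sub (arc_int (huv j) x)
    have h4 : ∫ θ in (0:ℝ)..π, (C - log |x - pt (u j) (v j) θ|) =
        π * (C - G (u j) (v j) x) := by
      rw [intervalIntegral.integral_sub intervalIntegrable_const (arc_int (huv j) x),
        arc_eq (huv j) x]
      simp only [intervalIntegral.integral_const, sub_zero, smul_eq_mul]
      ring
    rw [← h4]
    refine intervalIntegral.integral_mono_on_of_le_Ioo pi_pos.le h2 h3 fun θ hθ => ?_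
    have h5 := pt_gt (huv j) hθ
    have h6 := pt_mem (θ := θ) (huv j)
    exact cert_le hxb hbB (by linarith [hu j]) (h6.2.trans (hv j))
  -- the outer integral
  have hI0 : IntervalIntegrable (fun s => wq x B s * G s B 0) volume b B := by
    have hb : 0 < b := by linarith
    have h1 : ContinuousOn (fun s => wq x B s * (2 * log ((√(B - 0) + √(s - 0)) / 2))) (Icc b B) := by
      refine (wq_contOn hxb).mul (continuousOn_const.mul ?_)
      refine ContinuousOn.log (by fun_prop) fun s hs => ?_
      have h2 : 0 < √(s - 0) := Real.sqrt_pos.2 (by linarith [hs.1])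
      have h3 := Real.sqrt_nonneg (B - 0)
      positivity
    have h2 := h1.intervalIntegrable_of_Icc hbB.le (μ := volume)
    refine h2.congr fun s hs => ?_
    rw [uIoc_of_le hbB.le] at hs
    unfold G
    rw [if_pos (by linarith [hs.1])]
  have hmain : 0 ≤ ∫ s in b..B, (π * al * (wq x B s * G s B 0) +
      ∑ j, m j * (wq x B s * ∫ θ in (0:ℝ)..π, G s B (pt (u j) (v j) θ))) := by
    refine intervalIntegral.integral_nonneg_of_ae_restrict hbB.le ?_
    rw [Filter.EventuallyLE, ae_restrict_iff' measurableSet_Icc]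
    have h4 : ∀ᵐ s : ℝ, s ≠ B := by
      have : (volume : Measure ℝ) {B} = 0 := by simp
      exact measure_eq_zero_iff_ae_notMem.1 this
    filter_upwards [h4] with s hs hsm
    have hsB : s < B := lt_of_le_of_ne hsm.2 hs
    have h5 := avg_nonneg m u v (hdb.trans hsm.1) hsB huv hU
    have h6 := wq_nonneg (B := B) (hxb.trans_le hsm.1)
    have h7 : π * al * (wq x B s * G s B 0) +
      ∑ j, m j * (wq x B s * ∫ θ in (0:ℝ)..π, G s B (pt (u j) (v j) θ)) =
      wq x B s * (π * (al * G s B 0) + ∑ j, m j * ∫ θ in (0:ℝ)..π, G s B (pt (u j) (v j) θ)) := by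
      rw [mul_add, Finset.mul_sum]
      congr 1
      · ring
      · exact Finset.sum_congr rfl fun j _ => by ring
    rw [h7]
    exact mul_nonneg h6 h5
  have hsum : IntervalIntegrable
      (fun s => ∑ j, m j * (wq x B s * ∫ θ in (0:ℝ)..π, G s B (pt (u j) (v j) θ))) volume b B := by
    have := IntervalIntegrable.sum Finset.univ fun j _ => (hJ1 j).const_mul (m j)
    simpa [Finset.sum_fn] using this
  rw [intervalIntegral.integral_add (hI0.const_mul _) hsum,
    intervalIntegral.integral_const_mul,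
    intervalIntegral.integral_finsetSum fun j _ => (hJ1 j).const_mul (m j),
    cert_zero hxb hbB (by linarith) hx] at hmain
  simp only [intervalIntegral.integral_const_mul] at hmain
  have hle : ∑ j, m j * J j ≤ ∑ j, m j * (π * (C - G (u j) (v j) x)) :=
    Finset.sum_le_sum fun j _ => mul_le_mul_of_nonneg_left (hJ3 j) (hm j)
  have hexp : ∑ j, m j * (π * (C - G (u j) (v j) x)) =
      π * ((1 - al) * C - ∑ j, m j * G (u j) (v j) x) := by
    rw [← hm1, Finset.sum_mul, ← Finset.sum_sub_distrib, Finset.mul_sum]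
    exact Finset.sum_congr rfl fun j _ => by ring
  have hfin : 0 ≤ π * (al * (gI b B x - g0 b B x + √((B - x) / (b - x)) *
      (gI b B 0 - log (4 / (B - b))) - log |x|) +
      ((1 - al) * C - ∑ j, m j * G (u j) (v j) x)) := by
    have : 0 ≤ π * al * (gI b B x - g0 b B x + √((B - x) / (b - x)) *
      (gI b B 0 - log (4 / (B - b))) - log |x|) + ∑ j, m j * (π * (C - G (u j) (v j) x)) := by
      refine hmain.trans ?_
      simp only [hJ] at hle
      linarith
    rw [hexp] at this
    calc (0:ℝ) ≤ _ := this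
      _ = _ := by ring
  have := nonneg_of_mul_nonneg_right hfin pi_pos
  rw [hC] at this
  linarith

/-- Theorem B (comparison). -/
theorem comparison {al d B : ℝ} {N : ℕ} (m u v : Fin N → ℝ) (hal : 0 < al) (_hal1 : al < 1)
    (hd : 0 < d) (hdB : d < B) (hm : ∀ j, 0 ≤ m j) (hm1 : ∑ j, m j = 1 - al)
    (hu : ∀ j, d ≤ u j) (huv : ∀ j, u j < v j) (hv : ∀ j, v j ≤ B)
    (hU : ∀ x ∈ Icc d B, 0 ≤ al * log |x| + ∑ j, m j * G (u j) (v j) x) :
    0 ≤ al * gI d B 0 - log (4 / (B - d)) ∧
    ∀ b x, d ≤ b → b < B → x ≤ d → x < b → x ≠ 0 →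
      al * log |x| + ∑ j, m j * G (u j) (v j) x ≤
        gI b B x - al * g0 b B x + √((B - x) / (b - x)) * (al * gI b B 0 - log (4 / (B - b))) :=
  ⟨comp_first m u v hd hdB hm1 hu huv hv hU, fun _ _ hdb hbB hxd hxb hx =>
    comp_second m u v hal hd hm hm1 hu huv hv hU hdb hbB hxd hxb hx⟩

end Pool.Agent.MP28e671
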