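import Mathlib
import Pool.Agent.MP28e671.Defs

set_option autoImplicit false

open Real Set

namespace Pool.Agent.MP28e671

/-- The balance function in terms of `r = √(b/B)`. -/
lemma balance_eq {al r B : ℝ} (hr0 : 0 < r) (hr1 : r < 1) (hB : 0 < B) :
    al * gI (r ^ 2 * B) B 0 - log (4 / (B - r ^ 2 * B)) =
      (1 + al) * log (1 + r) + (1 - al) * log (1 - r) - log (4 / B) := by
  have h1 : 0 < 1 - r ^ 2 := by nlinarith
  have h2 : √(r ^ 2 * B) = r * √B := by
    rw [Real.sqrt_mul (by positivity), Real.sqrt_sq hr0.le]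
  have h3 : √(B - r ^ 2 * B) = √(1 - r ^ 2) * √B := by
    rw [← Real.sqrt_mul h1.le]; congr 1; ring
  have hsB : 0 < √B := Real.sqrt_pos.2 hB
  have hs1 : 0 < √(1 - r ^ 2) := Real.sqrt_pos.2 h1
  have h4 : gI (r ^ 2 * B) B 0 = log (1 + r) - log (1 - r) := by
    unfold gI
    rw [sub_zero, sub_zero, h2, h3]
    have h5 : (√B + r * √B) / (√(1 - r ^ 2) * √B) = (1 + r) / √(1 - r ^ 2) := by
      field_simp
    rw [h5, Real.log_div (by linarith) hs1.ne', Real.log_sqrt h1.le]
    have h6 : (1 - r ^ 2) = (1 + r) * (1 - r) := by ring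
    rw [h6, Real.log_mul (by linarith) (by linarith)]
    ring
  have h7 : log (4 / (B - r ^ 2 * B)) = log (4 / B) - log (1 + r) - log (1 - r) := by
    have h8 : 4 / (B - r ^ 2 * B) = (4 / B) / ((1 + r) * (1 - r)) := by
      have : 1 - r ≠ 0 := by linarith
      have : 1 + r ≠ 0 := by linarith
      have h9 : B - r ^ 2 * B = B * ((1 + r) * (1 - r)) := by ring
      rw [h9]
      field_simp
    rw [h8, Real.log_div (by positivity) (mul_pos (by linarith) (by linarith)).ne',
      Real.log_mul (by linarith) (by linarith)]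
    ring
  rw [h4, h7]; ring

/-- The balance function is maximal at `r = al`. -/
lemma balance_max {al r : ℝ} (ha0 : 0 < al) (ha1 : al < 1) (hr0 : 0 < r) (hr1 : r < 1) :
    (1 + al) * log (1 + r) + (1 - al) * log (1 - r) ≤
      (1 + al) * log (1 + al) + (1 - al) * log (1 - al) := by
  have h1 : log ((1 + r) / (1 + al)) ≤ (1 + r) / (1 + al) - 1 :=
    Real.log_le_sub_one_of_pos (by positivity)
  have h2 : log ((1 - r) / (1 - al)) ≤ (1 - r) / (1 - al) - 1 :=
    Real.log_le_sub_one_of_pos (div_pos (by linarith) (by linarith))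
  rw [Real.log_div (by linarith) (by linarith)] at h1 h2
  have h3 : (1 + al) * ((1 + r) / (1 + al) - 1) = r - al := by
    field_simp; ring
  have h4 : (1 - al) * ((1 - r) / (1 - al) - 1) = al - r := by
    have : 1 - al ≠ 0 := by linarith
    field_simp; ring
  have h5 : (1 + al) * (log (1 + r) - log (1 + al)) ≤ r - al := by
    rw [← h3]; exact mul_le_mul_of_nonneg_left h1 (by linarith)
  have h6 : (1 - al) * (log (1 - r) - log (1 - al)) ≤ al - r := by
    rw [← h4]; exact mul_le_mul_of_nonneg_left h2 (by linarith)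
  linarith

/-- Theorem C: choice of the left end point of the certificate. -/
theorem root_choice {al d B : ℝ} (ha0 : 0 < al) (ha1 : al < 1) (hd : 0 < d) (hdB : d < B)
    (h : 0 ≤ al * gI d B 0 - log (4 / (B - d))) :
    ∃ b, d ≤ b ∧ b < B ∧ al * gI b B 0 = log (4 / (B - b)) ∧ al ≤ √(b / B) := by
  have hB : 0 < B := hd.trans hdB
  set R : ℝ → ℝ := fun r => (1 + al) * log (1 + r) + (1 - al) * log (1 - r) - log (4 / B) with hR
  set rd : ℝ := √(d / B) with hrd
  have hrd0 : 0 < rd := Real.sqrt_pos.2 (by positivity)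
  have hrd1 : rd < 1 := by
    rw [hrd, Real.sqrt_lt' one_pos]
    rw [one_pow, div_lt_one hB]; exact hdB
  have hrdsq : rd ^ 2 * B = d := by
    rw [hrd, Real.sq_sqrt (by positivity)]; field_simp
  have hRd : 0 ≤ R rd := by
    have := balance_eq (al := al) hrd0 hrd1 hB
    rw [hrdsq] at this
    rw [hR]; simp only; rw [← this]; exact h
  set r1 : ℝ := max al rd with hr1
  have hr10 : 0 < r1 := lt_max_of_lt_left ha0
  have hr11 : r1 < 1 := max_lt ha1 hrd1
  have hR1 : 0 ≤ R r1 := by
    rcases le_total al rd with h1 | h1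
    · rw [hr1, max_eq_right h1]; exact hRd
    · rw [hr1, max_eq_left h1]
      have := balance_max ha0 ha1 hrd0 hrd1
      simp only [hR] at hRd ⊢
      linarith
  -- a point close to `1`
  set K : ℝ := (1 + al) * log 2 - log (4 / B) with hK
  set ε : ℝ := min (1 - r1) (exp (-K / (1 - al))) with hε
  have hε0 : 0 < ε := lt_min (by linarith) (exp_pos _)
  have hε1 : ε ≤ 1 - r1 := min_le_left _ _
  have hR2 : R (1 - ε) ≤ 0 := by
    simp only [hR]
    have h1 : log (1 + (1 - ε)) ≤ log 2 := Real.log_le_log (by linarith) (by linarith)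
    have h2 : log (1 - (1 - ε)) ≤ -K / (1 - al) := by
      have : 1 - (1 - ε) = ε := by ring
      rw [this, ← Real.log_exp (-K / (1 - al))]
      exact Real.log_le_log hε0 (min_le_right _ _)
    have h3 : (1 - al) * log (1 - (1 - ε)) ≤ -K := by
      have := mul_le_mul_of_nonneg_left h2 (by linarith : 0 ≤ 1 - al)
      have h4 : (1 - al) * (-K / (1 - al)) = -K := by
        have : 1 - al ≠ 0 := by linarith
        field_simp
      linarith
    have h5 : (1 + al) * log (1 + (1 - ε)) ≤ (1 + al) * log 2 :=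
      mul_le_mul_of_nonneg_left h1 (by linarith)
    linarith
  have hcont : ContinuousOn R (Icc r1 (1 - ε)) := by
    have hc1 : ContinuousOn (fun r : ℝ => log (1 + r)) (Icc r1 (1 - ε)) := by
      refine ContinuousOn.log (by fun_prop) fun x hx => ?_
      have := hx.1; linarith
    have hc2 : ContinuousOn (fun r : ℝ => log (1 - r)) (Icc r1 (1 - ε)) := by
      refine ContinuousOn.log (by fun_prop) fun x hx => ?_
      have := hx.2; linarith
    exact ((hc1.const_smul (1 + al)).add (hc2.const_smul (1 - al))).sub continuousOn_const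
  obtain ⟨r, hr, hr0⟩ := intermediate_value_Icc' (by linarith : r1 ≤ 1 - ε) hcont
    (show (0:ℝ) ∈ Icc (R (1 - ε)) (R r1) from ⟨hR2, hR1⟩)
  have hrpos : 0 < r := hr10.trans_le hr.1
  have hrlt : r < 1 := by linarith [hr.2]
  refine ⟨r ^ 2 * B, ?_, ?_, ?_, ?_⟩
  · have h1 : rd ≤ r := (le_max_right _ _).trans hr.1
    rw [← hrdsq]
    have : rd ^ 2 ≤ r ^ 2 := by nlinarith
    nlinarith
  · have : r ^ 2 < 1 := by nlinarith
    nlinarith
  · have h1 := balance_eq (al := al) hrpos hrlt hB
    simp only [hR] at hr0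
    linarith
  · have h1 : r ^ 2 * B / B = r ^ 2 := by field_simp
    rw [h1, Real.sqrt_sq hrpos.le]
    exact (le_max_left _ _).trans hr.1

end Pool.Agent.MP28e671
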