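import Mathlib
import Pool.Agent.MP28e671.Defs

set_option autoImplicit false

open Real Set MeasureTheory Filter
open scoped ENNReal NNReal Topology

namespace Pool.Agent.MP28e671

namespace UM

/-- The point of `[b, 2]` with angle `θ`. -/
noncomputable def T (b θ : ℝ) : ℝ := (b + 2) / 2 + (2 - b) / 2 * cos θ

/-- The point of `[1/2, 1/b]` with angle `φ`. -/
noncomputable def S (b φ : ℝ) : ℝ := (1 / 2 + 1 / b) / 2 + (1 / b - 1 / 2) / 2 * cos φ

/-- The change of angle. -/
noncomputable def Phi (b θ : ℝ) : ℝ := 2 * arctan (√(2 / b) * tan ((π - θ) / 2))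

variable {b : ℝ}

theorem T_pos (_hb : 0 < b) (hb2 : b < 2) (θ : ℝ) : b ≤ T b θ := by
  unfold T
  have := neg_one_le_cos θ
  nlinarith

theorem T_le (hb2 : b < 2) (θ : ℝ) : T b θ ≤ 2 := by
  unfold T
  have := cos_le_one θ
  nlinarith

theorem T_lt (hb2 : b < 2) {θ : ℝ} (hθ : θ ∈ Ioo 0 π) : T b θ < 2 := by
  unfold T
  have : cos θ < 1 := by
    have := cos_lt_cos_of_nonneg_of_le_pi (x := 0) (y := θ) le_rfl hθ.2.le hθ.1
    simpa using this
  nlinarith

theorem Phi_mem (hb : 0 < b) {θ : ℝ} (hθ : θ ∈ Ioo 0 π) : Phi b θ ∈ Ioo 0 π := by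
  have h1 : 0 < tan ((π - θ) / 2) := tan_pos_of_pos_of_lt_pi_div_two (by linarith [hθ.2]) (by linarith [hθ.1])
  have hk : 0 < √(2 / b) := by positivity
  have h2 : 0 < arctan (√(2 / b) * tan ((π - θ) / 2)) := by
    rw [← arctan_zero]; exact arctan_strictMono (by positivity)
  have h3 := arctan_lt_pi_div_two (√(2 / b) * tan ((π - θ) / 2))
  unfold Phi
  constructor <;> linarith

theorem tan_half_Phi (θ : ℝ) : tan (Phi b θ / 2) = √(2 / b) * tan ((π - θ) / 2) := by
  unfold Phi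
  rw [mul_div_cancel_left₀ _ (two_ne_zero), tan_arctan]

theorem Phi_injOn (hb : 0 < b) : InjOn (Phi b) (Ioo 0 π) := by
  intro θ hθ θ' hθ' h
  have hk : 0 < √(2 / b) := by positivity
  have h1 := tan_half_Phi (b := b) θ
  have h2 := tan_half_Phi (b := b) θ'
  rw [h, h2] at h1
  have h3 : tan ((π - θ') / 2) = tan ((π - θ) / 2) := mul_left_cancel₀ hk.ne' h1
  have h4 := injOn_tan (x₁ := (π - θ') / 2) ⟨by linarith [hθ'.2, pi_pos], by linarith [hθ'.1]⟩
    (x₂ := (π - θ) / 2) ⟨by linarith [hθ.2, pi_pos], by linarith [hθ.1]⟩ h3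
  linarith

theorem Phi_image (hb : 0 < b) : Phi b '' Ioo 0 π = Ioo 0 π := by
  apply Subset.antisymm
  · rintro _ ⟨θ, hθ, rfl⟩
    exact Phi_mem hb hθ
  · intro φ hφ
    have hk : 0 < √(2 / b) := by positivity
    have h1 : 0 < tan (φ / 2) := tan_pos_of_pos_of_lt_pi_div_two (by linarith [hφ.1]) (by linarith [hφ.2])
    have h2 : 0 < arctan ((√(2 / b))⁻¹ * tan (φ / 2)) := by
      rw [← arctan_zero]; exact arctan_strictMono (by positivity)
    have h3 := arctan_lt_pi_div_two ((√(2 / b))⁻¹ * tan (φ / 2))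
    refine ⟨π - 2 * arctan ((√(2 / b))⁻¹ * tan (φ / 2)), ⟨by linarith, by linarith⟩, ?_⟩
    unfold Phi
    have h4 : (π - (π - 2 * arctan ((√(2 / b))⁻¹ * tan (φ / 2)))) / 2 =
        arctan ((√(2 / b))⁻¹ * tan (φ / 2)) := by ring
    rw [h4, tan_arctan, ← mul_assoc, mul_inv_cancel₀ hk.ne', one_mul,
      arctan_tan (by linarith [hφ.1, pi_pos]) (by linarith [hφ.2])]
    ring

theorem sqrt_mul_b (hb : 0 < b) : √(2 / b) * b = √(2 * b) := by
  rw [show 2 * b = 2 / b * b ^ 2 by field_simp, sqrt_mul (by positivity), sqrt_sq hb.le]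

theorem sq_k (hb : 0 < b) : √(2 / b) ^ 2 = 2 / b := sq_sqrt (by positivity)

theorem cos_sq_half (θ : ℝ) : cos ((π - θ) / 2) ^ 2 = (1 - cos θ) / 2 := by
  rw [cos_sq, mul_div_cancel₀ _ (two_ne_zero), cos_pi_sub]; ring

theorem sin_sq_half (θ : ℝ) : sin ((π - θ) / 2) ^ 2 = (1 + cos θ) / 2 := by
  rw [sin_sq, cos_sq_half]; ring

theorem cos_half_pos {θ : ℝ} (hθ : θ ∈ Ioo 0 π) : 0 < cos ((π - θ) / 2) :=
  cos_pos_of_mem_Ioo ⟨by linarith [hθ.2, pi_pos], by linarith [hθ.1]⟩

theorem one_add_sq (hb : 0 < b) {θ : ℝ} (hθ : θ ∈ Ioo 0 π) :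
    (1 + (√(2 / b) * tan ((π - θ) / 2)) ^ 2) * (cos ((π - θ) / 2) ^ 2) = T b θ / b := by
  have hc := cos_half_pos hθ
  rw [tan_eq_sin_div_cos, mul_pow, div_pow, sq_k hb, sin_sq_half]
  have h := cos_sq_half θ
  have hc2 : cos ((π - θ) / 2) ^ 2 ≠ 0 := by positivity
  field_simp
  unfold T
  rw [h]
  ring

theorem Phi_deriv (hb : 0 < b) (hb2 : b < 2) {θ : ℝ} (hθ : θ ∈ Ioo 0 π) :
    HasDerivAt (Phi b) (-(√(2 * b) / T b θ)) θ := by
  have hc := cos_half_pos hθ
  have h1 : HasDerivAt (fun θ : ℝ => (π - θ) / 2) (-1 / 2) θ := by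
    simpa using ((hasDerivAt_id θ).const_sub π).div_const 2
  have h2 := (hasDerivAt_tan hc.ne').comp θ h1
  have h3 := (h2.const_mul √(2 / b)).arctan.const_mul 2
  have hT := T_pos hb hb2 θ
  have hTp : 0 < T b θ := hb.trans_le hT
  refine h3.congr_deriv ?_
  have h4 := one_add_sq hb hθ
  have hc2 : cos ((π - θ) / 2) ^ 2 ≠ 0 := by positivity
  have h5 : (1 + (√(2 / b) * tan ((π - θ) / 2)) ^ 2) ≠ 0 := by positivity
  simp only [Function.comp]
  rw [← sqrt_mul_b hb]
  have h6 : T b θ = b * ((1 + (√(2 / b) * tan ((π - θ) / 2)) ^ 2) * (cos ((π - θ) / 2) ^ 2)) := by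
    rw [h4]; field_simp
  rw [h6]
  field_simp

theorem T_eq (hb : 0 < b) (hb2 : b < 2) {θ : ℝ} (hθ : θ ∈ Ioo 0 π) :
    S b (Phi b θ) = 1 / T b θ := by
  have hc := cos_half_pos hθ
  have h4 := one_add_sq hb hθ
  have hTp : 0 < T b θ := hb.trans_le (T_pos hb hb2 θ)
  have hc2 : cos ((π - θ) / 2) ^ 2 ≠ 0 := by positivity
  have h5 : (1 + (√(2 / b) * tan ((π - θ) / 2)) ^ 2) ≠ 0 := by positivity
  have h7 : 1 / (1 + (√(2 / b) * tan ((π - θ) / 2)) ^ 2) = cos ((π - θ) / 2) ^ 2 * b / T b θ := by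
    rw [div_eq_div_iff h5 hTp.ne', one_mul]
    have : T b θ = b * ((1 + (√(2 / b) * tan ((π - θ) / 2)) ^ 2) * (cos ((π - θ) / 2) ^ 2)) := by
      rw [h4]; field_simp
    rw [this]; ring
  have h6 : cos (Phi b θ) = 2 * (cos ((π - θ) / 2) ^ 2 * b / T b θ) - 1 := by
    unfold Phi
    rw [cos_two_mul, cos_sq_arctan, h7]
  unfold S
  rw [h6, cos_sq_half]
  have : T b θ = (b + 2) / 2 + (2 - b) / 2 * cos θ := rfl
  field_simp
  rw [this]
  ring

/-- Change of variables. -/
theorem subst (hb : 0 < b) (hb2 : b < 2) (F : ℝ → ℝ) :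
    ∫ θ in Ioo 0 π, √(2 * b) / T b θ * F (T b θ) = ∫ φ in Ioo 0 π, F (1 / S b φ) := by
  conv_rhs => rw [← Phi_image hb]
  rw [integral_image_eq_integral_abs_deriv_smul measurableSet_Ioo
    (fun θ hθ => (Phi_deriv hb hb2 hθ).hasDerivWithinAt) (Phi_injOn hb)]
  refine setIntegral_congr_fun measurableSet_Ioo fun θ hθ => ?_
  have hTp : 0 < T b θ := hb.trans_le (T_pos hb hb2 θ)
  simp only [smul_eq_mul]
  rw [T_eq hb hb2 hθ, one_div_one_div, abs_neg, abs_of_pos (by positivity)]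

theorem subst_integrable (hb : 0 < b) (hb2 : b < 2) (F : ℝ → ℝ) :
    IntegrableOn (fun θ => √(2 * b) / T b θ * F (T b θ)) (Ioo 0 π) ↔
      IntegrableOn (fun φ => F (1 / S b φ)) (Ioo 0 π) := by
  conv_rhs => rw [← Phi_image hb]
  rw [integrableOn_image_iff_integrableOn_abs_deriv_smul measurableSet_Ioo
    (fun θ hθ => (Phi_deriv hb hb2 hθ).hasDerivWithinAt) (Phi_injOn hb)]
  refine integrableOn_congr_fun (fun θ hθ => ?_) measurableSet_Ioo
  have hTp : 0 < T b θ := hb.trans_le (T_pos hb hb2 θ)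
  simp only [smul_eq_mul]
  rw [T_eq hb hb2 hθ, one_div_one_div, abs_neg, abs_of_pos (by positivity)]

theorem S_eq (φ : ℝ) : S b φ = (1 / 2 + 1 / b) / 2 + (1 / b - 1 / 2) / 2 * cos φ := rfl

theorem S_pos (hb : 0 < b) (hb2 : b < 2) (φ : ℝ) : 0 < S b φ := by
  unfold S
  have h1 := neg_one_le_cos φ
  have h2 : 1 / 2 < 1 / b := one_div_lt_one_div_of_lt hb hb2
  nlinarith

theorem T_cont : Continuous (T b) := by unfold T; fun_prop

/-- Density (with respect to the angle) of the swept measure. -/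
noncomputable def dens (b al θ : ℝ) : ℝ≥0 := Real.toNNReal ((1 - al * (√(2 * b) / T b θ)) / π)

theorem dens_meas (b al : ℝ) : Measurable (dens b al) := by
  unfold dens
  have : Measurable (T b) := T_cont.measurable
  fun_prop

theorem dens_nonneg {al : ℝ} (hb : 0 < b) (hb2 : b < 2) (_h0 : 0 < al) (hr : al ≤ √(b / 2)) (θ : ℝ) :
    0 ≤ (1 - al * (√(2 * b) / T b θ)) / π := by
  have hT := T_pos hb hb2 θ
  have hTp : 0 < T b θ := hb.trans_le hT
  have h1 : √(2 * b) / T b θ ≤ √(2 * b) / b := div_le_div_of_nonneg_left (by positivity) hb hT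
  have h2 : √(b / 2) * (√(2 * b) / b) = 1 := by
    rw [← mul_div_assoc, ← sqrt_mul (by positivity), show b / 2 * (2 * b) = b ^ 2 by ring,
      sqrt_sq hb.le, div_self hb.ne']
  have h3 : al * (√(2 * b) / T b θ) ≤ √(b / 2) * (√(2 * b) / b) :=
    mul_le_mul hr h1 (by positivity) (by positivity)
  apply div_nonneg _ pi_pos.le
  linarith

theorem dens_coe {al : ℝ} (hb : 0 < b) (hb2 : b < 2) (h0 : 0 < al) (hr : al ≤ √(b / 2)) (θ : ℝ) :
    ((dens b al θ : ℝ≥0) : ℝ) = (1 - al * (√(2 * b) / T b θ)) / π :=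
  Real.coe_toNNReal _ (dens_nonneg hb hb2 h0 hr θ)

/-- The part of the measure on `[b, 2]`. -/
noncomputable def rho (b al : ℝ) : Measure ℝ :=
  Measure.map (T b) ((volume.restrict (Ioo 0 π)).withDensity fun θ => (dens b al θ : ℝ≥0∞))

theorem rho_integral {al : ℝ} (hb : 0 < b) (hb2 : b < 2) (h0 : 0 < al) (hr : al ≤ √(b / 2))
    {f : ℝ → ℝ} (hf : Measurable f) :
    ∫ s, f s ∂(rho b al) = ∫ θ in Ioo 0 π, (1 - al * (√(2 * b) / T b θ)) / π * f (T b θ) := by
  unfold rho
  rw [integral_map T_cont.measurable.aemeasurable hf.aestronglyMeasurable,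
    integral_withDensity_eq_integral_smul (dens_meas b al)]
  refine integral_congr_ae (Eventually.of_forall fun θ => ?_)
  simp only [NNReal.smul_def, smul_eq_mul, dens_coe hb hb2 h0 hr]

theorem rho_integrable {al : ℝ} (hb : 0 < b) (hb2 : b < 2) (h0 : 0 < al) (hr : al ≤ √(b / 2))
    {f : ℝ → ℝ} (hf : Measurable f)
    (h : IntegrableOn (fun θ => (1 - al * (√(2 * b) / T b θ)) / π * f (T b θ)) (Ioo 0 π)) :
    Integrable f (rho b al) := by
  unfold rho
  rw [integrable_map_measure hf.aestronglyMeasurable T_cont.measurable.aemeasurable,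
    integrable_withDensity_iff_integrable_smul (dens_meas b al)]
  refine h.congr (Eventually.of_forall fun θ => ?_)
  simp only [NNReal.smul_def, smul_eq_mul, dens_coe hb hb2 h0 hr, Function.comp]

theorem w_integrable (hb : 0 < b) (hb2 : b < 2) :
    IntegrableOn (fun θ => √(2 * b) / T b θ) (Ioo 0 π) := by
  have h := (subst_integrable hb hb2 (fun _ => 1)).2
    (by simp [IntegrableOn])
  simpa using h

theorem w_integral (hb : 0 < b) (hb2 : b < 2) :
    ∫ θ in Ioo 0 π, √(2 * b) / T b θ = π := by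
  have h := subst hb hb2 (fun _ => 1)
  simpa [pi_pos.le] using h

theorem rho_univ {al : ℝ} (hb : 0 < b) (hb2 : b < 2) (h0 : 0 < al) (hr : al ≤ √(b / 2)) :
    rho b al univ = ENNReal.ofReal (1 - al) := by
  unfold rho
  rw [Measure.map_apply T_cont.measurable MeasurableSet.univ, preimage_univ,
    withDensity_apply _ MeasurableSet.univ, Measure.restrict_univ]
  have h1 : ∀ θ, (dens b al θ : ℝ≥0∞) = ENNReal.ofReal ((1 - al * (√(2 * b) / T b θ)) / π) :=
    fun θ => rfl
  simp only [h1]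
  have hi : IntegrableOn (fun θ => (1 - al * (√(2 * b) / T b θ)) / π) (Ioo 0 π) := by
    refine Integrable.div_const (Integrable.sub ?_ ?_) π
    · simp
    · exact (w_integrable hb hb2).const_mul al
  rw [← ofReal_integral_eq_lintegral_ofReal hi
    (Eventually.of_forall fun θ => dens_nonneg hb hb2 h0 hr θ)]
  congr 1
  rw [integral_div, integral_sub (by simp)
    ((w_integrable hb hb2).const_mul al), integral_const_mul, w_integral hb hb2]
  simp [pi_pos.le]
  field_simp

/-- The measure. -/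
noncomputable def nu (b al : ℝ) : Measure ℝ := ENNReal.ofReal al • Measure.dirac 0 + rho b al

/-- Integrability of the logarithmic kernel along the arcsine law. -/
def ArcInt : Prop := ∀ u v y : ℝ, u < v →
  IntervalIntegrable (fun th => log |y - ((u + v) / 2 + (v - u) / 2 * cos th)|) volume 0 π

/-- Value of the logarithmic potential of the arcsine law. -/
def ArcVal : Prop := ∀ u v y : ℝ, u < v →
  ∫ th in (0:ℝ)..π, log |y - ((u + v) / 2 + (v - u) / 2 * cos th)| = π * G u v y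

theorem intT (hI : ArcInt) (hb2 : b < 2) (x : ℝ) :
    IntegrableOn (fun θ => log |x - T b θ|) (Ioo 0 π) := by
  have h := hI b 2 x hb2
  rw [intervalIntegrable_iff_integrableOn_Ioo_of_le pi_pos.le] at h
  exact h

theorem valT (hV : ArcVal) (hb2 : b < 2) (x : ℝ) :
    ∫ θ in Ioo 0 π, log |x - T b θ| = π * G b 2 x := by
  have h := hV b 2 x hb2
  rw [intervalIntegral.integral_of_le pi_pos.le, integral_Ioc_eq_integral_Ioo] at h
  exact h

theorem intS (hI : ArcInt) (hb : 0 < b) (hb2 : b < 2) (y : ℝ) :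
    IntegrableOn (fun θ => log |y - S b θ|) (Ioo 0 π) := by
  have h := hI (1 / 2) (1 / b) y (one_div_lt_one_div_of_lt hb hb2)
  rw [intervalIntegrable_iff_integrableOn_Ioo_of_le pi_pos.le] at h
  exact h

theorem valS (hV : ArcVal) (hb : 0 < b) (hb2 : b < 2) (y : ℝ) :
    ∫ θ in Ioo 0 π, log |y - S b θ| = π * G (1 / 2) (1 / b) y := by
  have h := hV (1 / 2) (1 / b) y (one_div_lt_one_div_of_lt hb hb2)
  rw [intervalIntegral.integral_of_le pi_pos.le, integral_Ioc_eq_integral_Ioo] at h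
  exact h

theorem S_ne (hb : 0 < b) (hb2 : b < 2) (y : ℝ) :
    ∀ᵐ φ ∂(volume.restrict (Ioo 0 π)), S b φ ≠ y := by
  rw [ae_restrict_iff' measurableSet_Ioo, ae_iff]
  refine Set.Subsingleton.measure_zero ?_ _
  intro φ hφ φ' hφ'
  simp only [Set.mem_ofPred_eq, Classical.not_imp, not_not] at hφ hφ'
  obtain ⟨h1, h2⟩ := hφ
  obtain ⟨h3, h4⟩ := hφ'
  have h5 : S b φ = S b φ' := by rw [h2, h4]
  unfold S at h5
  have h6 : 1 / 2 < 1 / b := one_div_lt_one_div_of_lt hb hb2
  have h7 : (1 / b - 1 / 2) / 2 * (cos φ - cos φ') = 0 := by linarith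
  have h8 : cos φ - cos φ' = 0 := by
    rcases mul_eq_zero.1 h7 with h | h
    · linarith
    · exact h
  exact injOn_cos ⟨h1.1.le, h1.2.le⟩ ⟨h3.1.le, h3.2.le⟩ (by linarith)

theorem log_split (hb : 0 < b) (hb2 : b < 2) {x : ℝ} (hx : x ≠ 0) :
    (fun φ => log |x - 1 / S b φ|) =ᵐ[volume.restrict (Ioo 0 π)]
      fun φ => log |x| + log |1 / x - S b φ| - log |0 - S b φ| := by
  filter_upwards [S_ne hb hb2 (1 / x)] with φ hφ
  have hS := S_pos hb hb2 φ
  have h1 : 1 / x - S b φ ≠ 0 := fun h => hφ (by linarith)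
  have h2 : x - 1 / S b φ = x * (1 / x - S b φ) / (0 - S b φ) := by
    rw [zero_sub]
    field_simp
    ring
  rw [h2, abs_div, abs_mul, log_div (by positivity) (by rw [zero_sub, abs_neg]; positivity),
    log_mul (by positivity) (by positivity)]

theorem w_log_integrable (hI : ArcInt) (hb : 0 < b) (hb2 : b < 2) {x : ℝ} (hx : x ≠ 0) :
    IntegrableOn (fun θ => √(2 * b) / T b θ * log |x - T b θ|) (Ioo 0 π) := by
  refine (subst_integrable hb hb2 (fun t => log |x - t|)).2 ?_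
  have h : IntegrableOn (fun φ => log |x| + log |1 / x - S b φ| - log |0 - S b φ|) (Ioo 0 π) := by
    refine Integrable.sub (Integrable.add ?_ (intS hI hb hb2 _)) (intS hI hb hb2 _)
    simp
  exact h.congr (log_split hb hb2 hx).symm

theorem w_log_integral (hI : ArcInt) (hV : ArcVal) (hb : 0 < b) (hb2 : b < 2) {x : ℝ}
    (hx : x ≠ 0) :
    ∫ θ in Ioo 0 π, √(2 * b) / T b θ * log |x - T b θ| =
      π * (log |x| + G (1 / 2) (1 / b) (1 / x) - G (1 / 2) (1 / b) 0) := by
  have i1 : IntegrableOn (fun _ : ℝ => log |x|) (Ioo 0 π) := by simp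
  have i2 : IntegrableOn (fun φ => log |x| + log |1 / x - S b φ|) (Ioo 0 π) :=
    Integrable.add i1 (intS hI hb hb2 _)
  rw [subst hb hb2 (fun t => log |x - t|), integral_congr_ae (log_split hb hb2 hx),
    integral_sub i2 (intS hI hb hb2 _),
    integral_add i1 (intS hI hb hb2 _), valS hV hb hb2, valS hV hb hb2]
  simp [pi_pos.le]
  ring

theorem log_meas (x : ℝ) : Measurable fun s : ℝ => log |x - s| :=
  measurable_log.comp (continuous_abs.measurable.comp (measurable_const.sub measurable_id))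

theorem rho_log_integrable {al : ℝ} (hI : ArcInt) (hb : 0 < b) (hb2 : b < 2) (h0 : 0 < al)
    (hr : al ≤ √(b / 2)) {x : ℝ} (hx : x ≠ 0) :
    Integrable (fun s => log |x - s|) (rho b al) := by
  refine rho_integrable hb hb2 h0 hr (log_meas x) ?_
  have h : IntegrableOn (fun θ => 1 / π * log |x - T b θ| -
      al / π * (√(2 * b) / T b θ * log |x - T b θ|)) (Ioo 0 π) :=
    Integrable.sub ((intT hI hb2 x).const_mul _) ((w_log_integrable hI hb hb2 hx).const_mul _)
  refine h.congr (Eventually.of_forall fun θ => ?_)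
  simp only
  ring

theorem rho_log_integral {al : ℝ} (hI : ArcInt) (hV : ArcVal) (hb : 0 < b) (hb2 : b < 2)
    (h0 : 0 < al) (hr : al ≤ √(b / 2)) {x : ℝ} (hx : x ≠ 0) :
    ∫ s, log |x - s| ∂(rho b al) =
      G b 2 x - al * (log |x| + G (1 / 2) (1 / b) (1 / x) - G (1 / 2) (1 / b) 0) := by
  rw [rho_integral hb hb2 h0 hr (log_meas x)]
  have h : ∀ θ, (1 - al * (√(2 * b) / T b θ)) / π * log |x - T b θ| = 1 / π * log |x - T b θ| -
      al / π * (√(2 * b) / T b θ * log |x - T b θ|) := fun θ => by ring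
  simp only [h]
  rw [integral_sub ((intT hI hb2 x).const_mul _) ((w_log_integrable hI hb hb2 hx).const_mul _),
    integral_const_mul, integral_const_mul, valT hV hb2, w_log_integral hI hV hb hb2 hx]
  have := pi_pos
  field_simp

theorem nu_log_integrable {al : ℝ} (hI : ArcInt) (hb : 0 < b) (hb2 : b < 2) (h0 : 0 < al)
    (hr : al ≤ √(b / 2)) {x : ℝ} (hx : x ≠ 0) :
    Integrable (fun s => log |x - s|) (nu b al) := by
  unfold nu
  refine Integrable.add_measure (Integrable.smul_measure ?_ ENNReal.ofReal_ne_top)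
    (rho_log_integrable hI hb hb2 h0 hr hx)
  exact integrable_dirac (by simp)

theorem nu_log_integral {al : ℝ} (hI : ArcInt) (hV : ArcVal) (hb : 0 < b) (hb2 : b < 2)
    (h0 : 0 < al) (hr : al ≤ √(b / 2)) {x : ℝ} (hx : x ≠ 0) :
    ∫ s, log |x - s| ∂(nu b al) =
      G b 2 x - al * (G (1 / 2) (1 / b) (1 / x) - G (1 / 2) (1 / b) 0) := by
  unfold nu
  rw [integral_add_measure (Integrable.smul_measure (integrable_dirac (by simp))
    ENNReal.ofReal_ne_top) (rho_log_integrable hI hb hb2 h0 hr hx), integral_smul_measure,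
    integral_dirac, rho_log_integral hI hV hb hb2 h0 hr hx, ENNReal.toReal_ofReal h0.le,
    smul_eq_mul, sub_zero]
  ring

theorem nu_prob {al : ℝ} (hb : 0 < b) (hb2 : b < 2) (h0 : 0 < al) (hr : al ≤ √(b / 2)) :
    IsProbabilityMeasure (nu b al) := by
  constructor
  have h1 : √(b / 2) ≤ 1 := by
    rw [sqrt_le_one]; linarith
  simp only [nu, Measure.add_apply, Measure.smul_apply, Measure.dirac_apply_of_mem (mem_univ _),
    rho_univ hb hb2 h0 hr, smul_eq_mul, mul_one]
  rw [← ENNReal.ofReal_add h0.le (by linarith)]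
  simp

theorem nu_compl {al : ℝ} (hb : 0 < b) (hb2 : b < 2) : nu b al (Icc (0:ℝ) 2)ᶜ = 0 := by
  have h1 : Measure.dirac (0:ℝ) (Icc (0:ℝ) 2)ᶜ = 0 := by
    rw [Measure.dirac_apply' _ measurableSet_Icc.compl]
    simp
  have h2 : rho b al (Icc (0:ℝ) 2)ᶜ = 0 := by
    unfold rho
    rw [Measure.map_apply T_cont.measurable measurableSet_Icc.compl]
    have : T b ⁻¹' (Icc (0:ℝ) 2)ᶜ = ∅ := by
      ext θ
      simp only [mem_preimage, mem_compl_iff, mem_Icc, not_and, not_le, mem_empty_iff_false,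
        iff_false, not_forall, not_lt]
      exact ⟨hb.le.trans (T_pos hb hb2 θ), T_le hb2 θ⟩
    rw [this, measure_empty]
  simp [nu, h1, h2]

theorem nu_two {al : ℝ} (hb2 : b < 2) : nu b al {2} = 0 := by
  have h1 : Measure.dirac (0:ℝ) ({2} : Set ℝ) = 0 := by
    rw [Measure.dirac_apply' _ (measurableSet_singleton _)]
    simp
  have h2 : rho b al {2} = 0 := by
    unfold rho
    rw [Measure.map_apply T_cont.measurable (measurableSet_singleton _)]
    refine (withDensity_absolutelyContinuous _ _) ?_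
    rw [Measure.restrict_apply (T_cont.measurable (measurableSet_singleton _))]
    have : T b ⁻¹' {2} ∩ Ioo 0 π = ∅ := by
      ext θ
      simp only [mem_inter_iff, mem_preimage, mem_singleton_iff, mem_empty_iff_false, iff_false,
        not_and]
      intro h hθ
      exact (T_lt hb2 hθ).ne h
    rw [this, measure_empty]
  simp [nu, h1, h2]

theorem G_inv {x : ℝ} (hb : 0 < b) (hb2 : b < 2) (hxb : x < b) (hx : x ≠ 0) :
    G (1 / 2) (1 / b) (1 / x) =
      2 * log ((√(2 - x) * √b + √(b - x) * √2) / (2 * (√2 * √b) * √|x|)) := by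
  have hA : 0 < 2 - x := by linarith
  have hB : 0 < b - x := by linarith
  rcases lt_or_gt_of_ne hx with h | h
  · have h1 : 1 / x < 1 / 2 := (one_div_neg.2 h).trans (by norm_num)
    unfold G
    rw [if_pos h1, abs_of_neg h]
    have e1 : 1 / b - 1 / x = (b - x) / (b * (-x)) := by
      have : x ≠ 0 := hx
      field_simp
      ring
    have e2 : 1 / 2 - 1 / x = (2 - x) / (2 * (-x)) := by
      have : x ≠ 0 := hx
      field_simp
      ring
    have hnx : 0 < -x := by linarith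
    rw [e1, e2, sqrt_div hB.le, sqrt_div hA.le, sqrt_mul hb.le, sqrt_mul (by norm_num : (0:ℝ) ≤ 2)]
    congr 2
    have : 0 < √(-x) := sqrt_pos.2 hnx
    have : 0 < √b := sqrt_pos.2 hb
    field_simp
    ring
  · have h0 : 1 / b < 1 / x := one_div_lt_one_div_of_lt h hxb
    have h2 : 1 / 2 < 1 / b := one_div_lt_one_div_of_lt hb hb2
    unfold G
    rw [if_neg (by linarith), if_neg (by linarith), abs_of_pos h]
    have e1 : 1 / x - 1 / b = (b - x) / (b * x) := by
      field_simp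
    have e2 : 1 / x - 1 / 2 = (2 - x) / (2 * x) := by
      field_simp
    rw [e1, e2, sqrt_div hB.le, sqrt_div hA.le, sqrt_mul hb.le, sqrt_mul (by norm_num : (0:ℝ) ≤ 2)]
    congr 2
    have : 0 < √x := sqrt_pos.2 h
    have : 0 < √b := sqrt_pos.2 hb
    field_simp

theorem G_zero (hb : 0 < b) (_hb2 : b < 2) :
    G (1 / 2) (1 / b) 0 = 2 * log ((√2 + √b) / (2 * (√2 * √b))) := by
  unfold G
  rw [if_pos (by norm_num), sub_zero, sub_zero, sqrt_div zero_le_one, sqrt_div zero_le_one, sqrt_one]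
  congr 2
  have : 0 < √b := sqrt_pos.2 hb
  field_simp

theorem G_diff {x : ℝ} (hb : 0 < b) (hb2 : b < 2) (hxb : x < b) (hx : x ≠ 0) :
    G (1 / 2) (1 / b) (1 / x) - G (1 / 2) (1 / b) 0 = g0 b 2 x - gI b 2 0 := by
  have hA : 0 < √(2 - x) := sqrt_pos.2 (by linarith)
  have hB : 0 < √(b - x) := sqrt_pos.2 (by linarith)
  have hb' : 0 < √b := sqrt_pos.2 hb
  have h2' : 0 < √2 := by positivity
  have hax : 0 < |x| := abs_pos.2 hx
  have hsx : 0 < √|x| := sqrt_pos.2 hax
  have hd : 0 < 2 - b := by linarith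
  rw [G_inv hb hb2 hxb hx, G_zero hb hb2]
  unfold g0 gI
  have hprod : (√(2 - x) * √b + √(b - x) * √2) * (√(2 - x) * √b - √(b - x) * √2) = x * (2 - b) := by
    have a1 := sq_sqrt (show (0:ℝ) ≤ 2 - x by linarith)
    have a2 := sq_sqrt (show (0:ℝ) ≤ b - x by linarith)
    have a3 := sq_sqrt hb.le
    have a4 := sq_sqrt (show (0:ℝ) ≤ 2 by norm_num)
    calc _ = √(2 - x) ^ 2 * √b ^ 2 - √(b - x) ^ 2 * √2 ^ 2 := by ring
      _ = _ := by rw [a1, a2, a3, a4]; ring
  have hP : 0 < √(2 - x) * √b + √(b - x) * √2 := by positivity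
  have hN : √(2 - x) * √b - √(b - x) * √2 = x * (2 - b) / (√(2 - x) * √b + √(b - x) * √2) := by
    rw [eq_div_iff hP.ne', mul_comm]; exact hprod
  rw [hN]
  have e1 : (√(2 - x) * √b + √(b - x) * √2) / (x * (2 - b) / (√(2 - x) * √b + √(b - x) * √2)) =
      (√(2 - x) * √b + √(b - x) * √2) ^ 2 / (x * (2 - b)) := by
    field_simp
  rw [e1, abs_div, abs_mul, abs_of_pos hd, abs_of_pos (by positivity : 0 < (√(2 - x) * √b + √(b - x) * √2) ^ 2)]
  rw [log_div (by positivity) (by positivity), log_div (by positivity) (by positivity),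
    log_div (by positivity) (by positivity), log_div (by positivity) (by positivity),
    log_mul (by positivity) (by positivity), log_mul hax.ne' hd.ne', log_pow, sub_zero, sub_zero,
    log_sqrt hax.le, log_sqrt hd.le]
  push_cast
  ring

theorem G_diff_in {x : ℝ} (hb : 0 < b) (hb2 : b < 2) (hx1 : b ≤ x) (hx2 : x ≤ 2) :
    G (1 / 2) (1 / b) (1 / x) - G (1 / 2) (1 / b) 0 = - gI b 2 0 := by
  have hx : 0 < x := hb.trans_le hx1
  have hb' : 0 < √b := sqrt_pos.2 hb
  have h2' : 0 < √2 := by positivity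
  have hd : 0 < 2 - b := by linarith
  rw [G_zero hb hb2]
  unfold gI
  have h1 : G (1 / 2) (1 / b) (1 / x) = log ((1 / b - 1 / 2) / 4) := by
    unfold G
    rw [if_neg (not_lt.2 (one_div_le_one_div_of_le hx hx2)),
      if_pos (one_div_le_one_div_of_le hb hx1)]
  have e1 : (1 / b - 1 / 2) / 4 = (2 - b) / (2 * (√2 * √b)) ^ 2 := by
    rw [mul_pow, mul_pow, sq_sqrt hb.le, sq_sqrt (by norm_num : (0:ℝ) ≤ 2)]
    field_simp
    norm_num
  rw [h1, e1, sub_zero, sub_zero]
  rw [log_div (by positivity) (by positivity), log_div (by positivity) (by positivity),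
    log_div (by positivity) (by positivity), log_pow, log_sqrt hd.le]
  push_cast
  ring

end UM

open UM in
/-- The measures, from the arcsine integral. -/
theorem measStmt_of (hI : ArcInt) (hV : ArcVal) {b al : ℝ} (hb : 0 < b) (hb2 : b < 2)
    (h0 : 0 < al) (hr : al ≤ √(b / 2)) :
    ∃ ν : Measure ℝ, IsProbabilityMeasure ν ∧ ν (Icc (0:ℝ) 2)ᶜ = 0 ∧ ν {2} = 0 ∧
      (∀ x, x ≠ 0 → Integrable (fun s => log |x - s|) ν) ∧
      (∀ x, x < b → x ≠ 0 → ∫ s, log |x - s| ∂ν =
        gI b 2 x - al * g0 b 2 x + (al * gI b 2 0 - log (4 / (2 - b)))) ∧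
      (∀ x ∈ Icc b 2, ∫ s, log |x - s| ∂ν = al * gI b 2 0 - log (4 / (2 - b))) := by
  have hd : 0 < 2 - b := by linarith
  refine ⟨nu b al, nu_prob hb hb2 h0 hr, nu_compl hb hb2, nu_two hb2,
    fun x hx => nu_log_integrable hI hb hb2 h0 hr hx, fun x hxb hx => ?_, fun x hx => ?_⟩
  · rw [nu_log_integral hI hV hb hb2 h0 hr hx, G_diff hb hb2 hxb hx]
    have hA : 0 < √(2 - x) := sqrt_pos.2 (by linarith)
    have hB : 0 < √(b - x) := sqrt_pos.2 (by linarith)
    have h1 : G b 2 x = gI b 2 x - log (4 / (2 - b)) := by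
      unfold G gI
      rw [if_pos hxb, log_div (by positivity) (by positivity),
        log_div (by positivity) (by positivity), log_div (by positivity) (by positivity),
        log_sqrt hd.le, show (4:ℝ) = 2 ^ 2 by norm_num, log_pow]
      push_cast
      ring
    rw [h1]
    ring
  · have hx0 : x ≠ 0 := (hb.trans_le hx.1).ne'
    rw [nu_log_integral hI hV hb hb2 h0 hr hx0, G_diff_in hb hb2 hx.1 hx.2]
    have h1 : G b 2 x = - log (4 / (2 - b)) := by
      unfold G
      rw [if_neg (not_lt.2 hx.1), if_pos hx.2, ← log_inv, inv_div]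
    rw [h1]
    ring

end Pool.Agent.MP28e671
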