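import Mathlib
import Pool.Agent.MP28e671.Upper
import Pool.Agent.MP28e671.UpperMeasure
import Pool.Agent.MP28e671.Arcsine

set_option autoImplicit false

open Real Set MeasureTheory Filter

namespace Pool.Agent.MP28e671

theorem measStmt : MeasStmt := by
  intro b al hb hb2 h0 hr
  exact measStmt_of (fun u v y h => arc_integrable y h) (fun u v y h => arc_integral y h)
    hb hb2 h0 hr

end Pool.Agent.MP28e671
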