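import Mathlib
import Pool.Agent.MP28e671.AdmFacts
import Pool.Agent.MP28e671.Comparison
import Pool.Agent.MP28e671.RootChoice
import Pool.Agent.MP28e671.UpperMeasureFinal
import Pool.Agent.MP28e671.CalcOuter

set_option autoImplicit false

open Real Set MeasureTheory Filter
open scoped ENNReal Topology

namespace Pool.Agent.MP28e671

theorem compStmt : CompStmt := fun m u v h1 h2 h3 h4 h5 h6 h7 h8 h9 h10 =>
  comparison m u v h1 h2 h3 h4 h5 h6 h7 h8 h9 h10

theorem rootStmt : RootStmt := fun h1 h2 h3 h4 h5 => root_choice h1 h2 h3 h4 h5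

theorem main_of (h3 : CalcStmt) (hne : vals.Nonempty) (h4 : muStar ≤ 2) :
    sInf measures = muStar := main_aux measStmt compStmt rootStmt h3 hne h4

/-- the explicit value `B = 2` in the form used by the calculus lemmas -/
theorem two_eq {g : ℝ} (hg : 0 < g) : (2:ℝ) = 4 * cosh g ^ 2 * exp (-2 * g * mass g) := by
  have h1 : 2 * g * mass g = log (2 * cosh g ^ 2) := by
    unfold mass; field_simp
  have h2 : -2 * g * mass g = -log (2 * cosh g ^ 2) := by rw [← h1]; ring
  have h3 := cosh_pos g
  rw [h2, exp_neg, exp_log (by positivity)]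
  field_simp
  norm_num

/-- values for very large `g` are large -/
theorem val_large {g a c : ℝ} (h : Adm g a c) (hg : exp (-2 * g) ≤ 0.01) :
    1.8345 ≤ val g a c := by
  have hg0 := h.g_pos
  obtain ⟨hz, hzz⟩ := adm_cmin h
  have h1 := adm_one_le measStmt h
  have h2 := calc_R2 (t := exp (-2 * g)) (al := mass g) (B := 2) (z := -X 2 g c) (exp_pos _) hg
    (by rw [← B_eq_t]; exact two_eq hg0) (mass_ge hg0) (h.2.2.2.1.trans (tanh_lt_one g))
    le_rfl hz hzz
  rw [val_eq]
  linarith

end Pool.Agent.MP28e671
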