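import Mathlib
import Pool.Agent.MP28e671.Defs
import Pool.Agent.MP28e671.Trans

set_option autoImplicit false

open Real Set

namespace Pool.Agent.MP28e671

/-- scaled Green function with pole at infinity -/
noncomputable def hI (T x : ℝ) : ℝ := 2 * log (√(1 - x) + √(T ^ 2 - x)) - log (1 - T ^ 2)

/-- scaled Green function with pole at zero -/
noncomputable def h0 (T x : ℝ) : ℝ :=
  2 * log (T * √(1 - x) + √(T ^ 2 - x)) - log x - log (1 - T ^ 2)

theorem hI_eq {T B x : ℝ} (hB : 0 < B) (hT1 : T ^ 2 < 1) (hx : x < T ^ 2) :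
    gI (B * T ^ 2) B (B * x) = hI T x := by
  unfold gI hI
  have h1 : 0 < √B := sqrt_pos.2 hB
  have h2 : 0 < √(1 - T ^ 2) := sqrt_pos.2 (by linarith)
  have h3 : 0 < √(1 - x) := sqrt_pos.2 (by linarith)
  have h4 : 0 < √(T ^ 2 - x) := sqrt_pos.2 (by linarith)
  have e1 : B - B * x = B * (1 - x) := by ring
  have e2 : B * T ^ 2 - B * x = B * (T ^ 2 - x) := by ring
  have e3 : B - B * T ^ 2 = B * (1 - T ^ 2) := by ring
  rw [e1, e2, e3, sqrt_mul hB.le, sqrt_mul hB.le, sqrt_mul hB.le, ← mul_add,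
    mul_div_mul_left _ _ h1.ne', log_div (by positivity) h2.ne', log_sqrt (by linarith)]
  ring

theorem h0_eq {T B x : ℝ} (hB : 0 < B) (hT0 : 0 < T) (hT1 : T ^ 2 < 1) (hx : x < T ^ 2)
    (hx0 : x ≠ 0) : g0 (B * T ^ 2) B (B * x) = h0 T x := by
  unfold g0 h0
  have h1 : 0 < √B := sqrt_pos.2 hB
  have h3 : 0 < √(1 - x) := sqrt_pos.2 (by linarith)
  have h4 : 0 < √(T ^ 2 - x) := sqrt_pos.2 (by linarith)
  have e1 : B - B * x = B * (1 - x) := by ring
  have e2 : B * T ^ 2 - B * x = B * (T ^ 2 - x) := by ring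
  have e4 : √(B * T ^ 2) = √B * T := by rw [sqrt_mul hB.le, sqrt_sq hT0.le]
  have hs1 : √(1 - x) ^ 2 = 1 - x := sq_sqrt (by linarith)
  have hs2 : √(T ^ 2 - x) ^ 2 = T ^ 2 - x := sq_sqrt (by linarith)
  rw [e1, e2, e4, sqrt_mul hB.le, sqrt_mul hB.le]
  set q := √(1 - x) with hq
  set p := √(T ^ 2 - x) with hp
  have hprod : (T * q + p) * (T * q - p) = x * (1 - T ^ 2) := by
    have : (T * q + p) * (T * q - p) = T ^ 2 * q ^ 2 - p ^ 2 := by ring
    rw [this, hs1, hs2]; ring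
  have hpos : 0 < T * q + p := by positivity
  have hne : T * q - p ≠ 0 := by
    intro h
    rw [h, mul_zero] at hprod
    have : x * (1 - T ^ 2) ≠ 0 := mul_ne_zero hx0 (by linarith)
    exact this hprod.symm
  have hfrac : (√B * q * (√B * T) + √B * p * √B) / (√B * q * (√B * T) - √B * p * √B)
      = (T * q + p) ^ 2 / (x * (1 - T ^ 2)) := by
    rw [← hprod]
    have e5 : √B * q * (√B * T) + √B * p * √B = (√B * √B) * (T * q + p) := by ring
    have e6 : √B * q * (√B * T) - √B * p * √B = (√B * √B) * (T * q - p) := by ring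
    rw [e5, e6, mul_div_mul_left _ _ (by positivity)]
    field_simp
  rw [hfrac, log_abs, log_div (by positivity) (mul_ne_zero hx0 (by linarith)), log_pow,
    log_mul hx0 (by linarith)]
  push_cast
  ring

theorem hasDerivAt_hI {T x : ℝ} (hT1 : T ^ 2 < 1) (hx : x < T ^ 2) :
    HasDerivAt (hI T) (-(1 / (√(T ^ 2 - x) * √(1 - x)))) x := by
  have h3 : 0 < √(1 - x) := sqrt_pos.2 (by linarith)
  have h4 : 0 < √(T ^ 2 - x) := sqrt_pos.2 (by linarith)
  have d1 : HasDerivAt (fun x : ℝ => √(1 - x)) ((-1) / (2 * √(1 - x))) x :=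
    ((hasDerivAt_id x).const_sub 1).sqrt (by simp; linarith)
  have d2 : HasDerivAt (fun x : ℝ => √(T ^ 2 - x)) ((-1) / (2 * √(T ^ 2 - x))) x :=
    ((hasDerivAt_id x).const_sub (T ^ 2)).sqrt (by simp; linarith)
  have d3 := (((d1.add d2).log (by simp only [Pi.add_apply]; positivity)).const_mul 2).sub_const (log (1 - T ^ 2))
  refine (d3.congr_deriv ?_)
  simp only [Pi.add_apply]
  field_simp
  ring

theorem hasDerivAt_h0 {T x : ℝ} (hT0 : 0 < T) (hT1 : T ^ 2 < 1) (hx : x < T ^ 2) (hx0 : x ≠ 0) :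
    HasDerivAt (h0 T) (-(T / (x * (√(T ^ 2 - x) * √(1 - x))))) x := by
  have h3 : 0 < √(1 - x) := sqrt_pos.2 (by linarith)
  have h4 : 0 < √(T ^ 2 - x) := sqrt_pos.2 (by linarith)
  have d1 : HasDerivAt (fun x : ℝ => √(1 - x)) ((-1) / (2 * √(1 - x))) x :=
    ((hasDerivAt_id x).const_sub 1).sqrt (by simp; linarith)
  have d2 : HasDerivAt (fun x : ℝ => √(T ^ 2 - x)) ((-1) / (2 * √(T ^ 2 - x))) x :=
    ((hasDerivAt_id x).const_sub (T ^ 2)).sqrt (by simp; linarith)
  have d3 := (((((d1.const_mul T).add d2).log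
    (by simp only [Pi.add_apply]; positivity)).const_mul 2).sub
    (hasDerivAt_log hx0)).sub_const (log (1 - T ^ 2))
  refine (d3.congr_deriv ?_)
  simp only [Pi.add_apply]
  have hs1 : √(1 - x) ^ 2 = 1 - x := sq_sqrt (by linarith)
  have hs2 : √(T ^ 2 - x) ^ 2 = T ^ 2 - x := sq_sqrt (by linarith)
  set q := √(1 - x) with hq
  set p := √(T ^ 2 - x) with hp
  have hpos : 0 < T * q + p := by positivity
  have hx' : x = 1 - q ^ 2 := by linarith
  have hrel : T ^ 2 = p ^ 2 + 1 - q ^ 2 := by linarith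
  field_simp
  rw [hx']
  have : (T * q + p) * (p * q) ≠ 0 := by positivity
  linear_combination q * hrel

end Pool.Agent.MP28e671
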