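import Mathlib
import Pool.Agent.MP28e671.NearDeriv

set_option autoImplicit false

open Real Set

namespace Pool.Agent.MP28e671

theorem sqrt_mul_le {a b w : ℝ} (ha : 0 ≤ a) (hb : 0 ≤ b) (hw : 0 < w) :
    √a * √b ≤ (a / w + b * w) / 2 := by
  have h1 := sq_sqrt ha
  have h2 := sq_sqrt hb
  have h3 : (a / w + b * w) / 2 - √a * √b = (√a - w * √b) ^ 2 / (2 * w) := by
    rw [← h1, ← h2]
    field_simp
    rw [sqrt_sq (sqrt_nonneg a), sqrt_sq (sqrt_nonneg b)]
    ring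
  have h4 : 0 ≤ (√a - w * √b) ^ 2 / (2 * w) := by positivity
  linarith

/-- common form of the logarithm. -/
theorem h0_expand {T x γ : ℝ} (hT0 : 0 < T) (hT1 : T < 1) (hx : x < T ^ 2) (_hx0 : x ≠ 0)
    (hγ : γ = log ((1 + T) / (1 - T))) :
    h0 T x = γ + (log (1 - x) - log x) +
      2 * log ((T + √(T ^ 2 - x) / √(1 - x)) / (1 + T)) := by
  have hT2 : T ^ 2 < 1 := by nlinarith
  have h3 : 0 < √(1 - x) := sqrt_pos.2 (by linarith)
  have h4 : 0 < √(T ^ 2 - x) := sqrt_pos.2 (by linarith)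
  have h5 : 0 < 1 - T := by linarith
  unfold h0
  have e1 : T * √(1 - x) + √(T ^ 2 - x) =
      √(1 - x) * ((1 + T) * ((T + √(T ^ 2 - x) / √(1 - x)) / (1 + T))) := by
    field_simp
  have e2 : γ = log (1 + T) - log (1 - T) := by
    rw [hγ, log_div (by positivity) (by positivity)]
  have e3 : log (1 - T ^ 2) = log (1 - T) + log (1 + T) := by
    rw [← log_mul (by positivity) (by positivity)]
    congr 1
    ring
  rw [e1, log_mul h3.ne' (by positivity), log_mul (by positivity) (by positivity),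
    log_sqrt (by linarith), e2, e3]
  ring

/-- Pointwise inequality, positive side. -/
theorem Rd_core {T x al γ T0 T1 A w G k : ℝ} (hT0 : 0 < T0) (h1 : T0 ≤ T) (h2 : T ≤ T1)
    (h3 : T1 < 1) (hx0 : 0 < x) (hxT : x < T ^ 2) (hA : A ≤ al) (hA0 : 0 ≤ A) (hw : 0 < w)
    (hk : 0 ≤ k) (hγ : γ = log ((1 + T) / (1 - T))) (hγ0 : 0 < γ) (hG : 0 < G)
    (hbr : (((1 - 2 * x) / x - 2 / (1 + T1) +
      2 * (((T1 ^ 2 - x) / w + (1 - x) * w) / 2) / ((1 - x) * (1 + T1))) / γ ≤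
      ((1 - 2 * x) / x - 2 / (1 + T1) +
      2 * (((T1 ^ 2 - x) / w + (1 - x) * w) / 2) / ((1 - x) * (1 + T1))) / G))
    (hpos : 0 ≤ 1 + ((1 - 2 * x) / x - 2 / (1 + T1) +
      2 * (((T1 ^ 2 - x) / w + (1 - x) * w) / 2) / ((1 - x) * (1 + T1))) / G)
    (hP : x * (((T1 ^ 2 - x) / w + (1 - x) * w) / 2) *
      (1 + ((1 - 2 * x) / x - 2 / (1 + T1) +
      2 * (((T1 ^ 2 - x) / w + (1 - x) * w) / 2) / ((1 - x) * (1 + T1))) / G) ≤
      (k + x) * (A * T0 - x)) :
    h0 T x / γ ≤ (k + x) * ((al * T / x - 1) / (√(T ^ 2 - x) * √(1 - x))) := by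
  have hT : 0 < T := hT0.trans_le h1
  have hT1' : T < 1 := h2.trans_lt h3
  have hT2 : T ^ 2 < 1 := by nlinarith
  have hT12 : T ^ 2 ≤ T1 ^ 2 := by nlinarith
  have h4 : 0 < √(1 - x) := sqrt_pos.2 (by linarith)
  have h5 : 0 < √(T ^ 2 - x) := sqrt_pos.2 (by linarith)
  set S : ℝ := ((T1 ^ 2 - x) / w + (1 - x) * w) / 2 with hS
  set br : ℝ := (1 - 2 * x) / x - 2 / (1 + T1) + 2 * S / ((1 - x) * (1 + T1)) with hbrdef
  have hx1 : 0 < 1 - x := by linarith
  -- product of square roots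
  have hpq : √(T ^ 2 - x) * √(1 - x) ≤ S := by
    refine (sqrt_mul_le (by linarith) hx1.le hw).trans ?_
    rw [hS]
    gcongr
  have hS0 : 0 < S := lt_of_lt_of_le (by positivity) hpq
  -- bound of h0
  have hs : √(T ^ 2 - x) / √(1 - x) ≤ S / (1 - x) := by
    rw [div_le_div_iff₀ h4 hx1]
    have : √(T ^ 2 - x) * (1 - x) = (√(T ^ 2 - x) * √(1 - x)) * √(1 - x) := by
      rw [mul_assoc, mul_self_sqrt hx1.le]
    rw [this]
    gcongr
  have hs1 : √(T ^ 2 - x) / √(1 - x) ≤ 1 := by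
    rw [div_le_one h4]
    exact sqrt_le_sqrt (by linarith)
  have hlog1 : log (1 - x) - log x ≤ (1 - 2 * x) / x := by
    rw [← log_div hx1.ne' hx0.ne']
    have := log_le_sub_one_of_pos (div_pos hx1 hx0)
    have e : (1 - x) / x - 1 = (1 - 2 * x) / x := by field_simp; ring
    linarith
  have hlog2 : log ((T + √(T ^ 2 - x) / √(1 - x)) / (1 + T)) ≤
      -(1 - √(T ^ 2 - x) / √(1 - x)) / (1 + T) := by
    have h6 : 0 < (T + √(T ^ 2 - x) / √(1 - x)) / (1 + T) := by positivity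
    have := log_le_sub_one_of_pos h6
    have e : (T + √(T ^ 2 - x) / √(1 - x)) / (1 + T) - 1 =
      -(1 - √(T ^ 2 - x) / √(1 - x)) / (1 + T) := by field_simp; ring
    linarith
  have hlog3 : -(1 - √(T ^ 2 - x) / √(1 - x)) / (1 + T) ≤ -(1 - S / (1 - x)) / (1 + T1) := by
    have h7 : (1 - √(T ^ 2 - x) / √(1 - x)) / (1 + T1) ≤
        (1 - √(T ^ 2 - x) / √(1 - x)) / (1 + T) := by
      apply div_le_div_of_nonneg_left (by linarith) (by linarith) (by linarith)
    have h8 : (1 - S / (1 - x)) / (1 + T1) ≤ (1 - √(T ^ 2 - x) / √(1 - x)) / (1 + T1) := by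
      apply div_le_div_of_nonneg_right (by linarith) (by linarith)
    rw [neg_div, neg_div]
    linarith
  have hh0 : h0 T x ≤ γ + br := by
    rw [h0_expand hT hT1' hxT hx0.ne' hγ]
    have : br = (1 - 2 * x) / x + 2 * (-(1 - S / (1 - x)) / (1 + T1)) := by
      rw [hbrdef]
      field_simp
      ring
    rw [this]
    linarith
  have hh1 : h0 T x / γ ≤ 1 + br / G := by
    have : h0 T x / γ ≤ (γ + br) / γ := by gcongr
    have e : (γ + br) / γ = 1 + br / γ := by field_simp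
    linarith
  -- left side
  have hL : (k + x) * (A * T0 - x) / x ≤ (k + x) * (al * T / x - 1) := by
    have h9 : A * T0 ≤ al * T := by
      have : 0 ≤ al := hA0.trans hA
      nlinarith
    have e : (k + x) * (al * T / x - 1) = (k + x) * (al * T - x) / x := by field_simp
    rw [e]
    gcongr
  have hmain : (1 + br / G) * (√(T ^ 2 - x) * √(1 - x)) ≤ (k + x) * (al * T / x - 1) := by
    refine le_trans ?_ hL
    rw [le_div_iff₀ hx0]
    calc (1 + br / G) * (√(T ^ 2 - x) * √(1 - x)) * x ≤ (1 + br / G) * S * x := by gcongr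
      _ = x * S * (1 + br / G) := by ring
      _ ≤ _ := hP
  have h10 : 0 < √(T ^ 2 - x) * √(1 - x) := by positivity
  calc h0 T x / γ ≤ 1 + br / G := hh1
    _ = (1 + br / G) * (√(T ^ 2 - x) * √(1 - x)) / (√(T ^ 2 - x) * √(1 - x)) := by
        field_simp
    _ ≤ ((k + x) * (al * T / x - 1)) / (√(T ^ 2 - x) * √(1 - x)) := by gcongr
    _ = _ := by ring

/-- Pointwise inequality, negative side (`x = -y`). -/
theorem Rc_core {T y al γ T0 T1 A w G k K lK : ℝ} (hT0 : 0 < T0) (h1 : T0 ≤ T) (h2 : T ≤ T1)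
    (h3 : T1 < 1) (hy0 : 0 < y) (hA : A ≤ al) (hA0 : 0 ≤ A) (hw : 0 < w)
    (hk : 0 ≤ k) (hγ : γ = log ((1 + T) / (1 - T))) (hG : 0 < G) (hGγ : G ≤ γ)
    (hK : 0 < K) (hlK : log K ≤ lK)
    (hbr0 : 0 ≤ (lK + (1 + y) / (K * y) - 1) - 2 / (1 + T1) +
      2 * (((T1 ^ 2 + y) / w + (1 + y) * w) / 2) / ((1 + y) * (1 + T1)))
    (hP : y * (((T1 ^ 2 + y) / w + (1 + y) * w) / 2) *
      (1 + ((lK + (1 + y) / (K * y) - 1) - 2 / (1 + T1) +
      2 * (((T1 ^ 2 + y) / w + (1 + y) * w) / 2) / ((1 + y) * (1 + T1))) / G) ≤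
      (k + y) * (A * T0 + y)) :
    h0 T (-y) / γ ≤ (-k + -y) * ((al * T / (-y) - 1) / (√(T ^ 2 - -y) * √(1 - -y))) := by
  have hT : 0 < T := hT0.trans_le h1
  have hT1' : T < 1 := h2.trans_lt h3
  have hT2 : T ^ 2 < 1 := by nlinarith
  have hT12 : T ^ 2 ≤ T1 ^ 2 := by nlinarith
  have hγ0 : 0 < γ := hG.trans_le hGγ
  rw [sub_neg_eq_add, sub_neg_eq_add]
  have h4 : 0 < √(1 + y) := sqrt_pos.2 (by linarith)
  have h5 : 0 < √(T ^ 2 + y) := sqrt_pos.2 (by positivity)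
  set S : ℝ := ((T1 ^ 2 + y) / w + (1 + y) * w) / 2 with hS
  set br : ℝ := (lK + (1 + y) / (K * y) - 1) - 2 / (1 + T1) + 2 * S / ((1 + y) * (1 + T1))
    with hbrdef
  have hx1 : 0 < 1 + y := by linarith
  have hpq : √(T ^ 2 + y) * √(1 + y) ≤ S := by
    refine (sqrt_mul_le (by positivity) hx1.le hw).trans ?_
    rw [hS]
    gcongr
  have hS0 : 0 < S := lt_of_lt_of_le (by positivity) hpq
  have hs : √(T ^ 2 + y) / √(1 + y) ≤ S / (1 + y) := by
    rw [div_le_div_iff₀ h4 hx1]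
    have : √(T ^ 2 + y) * (1 + y) = (√(T ^ 2 + y) * √(1 + y)) * √(1 + y) := by
      rw [mul_assoc, mul_self_sqrt hx1.le]
    rw [this]
    gcongr
  have hs1 : √(T ^ 2 + y) / √(1 + y) ≤ 1 := by
    rw [div_le_one h4]
    exact sqrt_le_sqrt (by linarith)
  have hlog1 : log (1 + y) - log y ≤ lK + (1 + y) / (K * y) - 1 := by
    rw [← log_div hx1.ne' hy0.ne']
    have h6 : (1 + y) / y = K * ((1 + y) / (K * y)) := by field_simp
    rw [h6, log_mul hK.ne' (by positivity)]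
    have := log_le_sub_one_of_pos (show 0 < (1 + y) / (K * y) by positivity)
    linarith
  have hlog2 : log ((T + √(T ^ 2 + y) / √(1 + y)) / (1 + T)) ≤
      -(1 - √(T ^ 2 + y) / √(1 + y)) / (1 + T) := by
    have h6 : 0 < (T + √(T ^ 2 + y) / √(1 + y)) / (1 + T) := by positivity
    have := log_le_sub_one_of_pos h6
    have e : (T + √(T ^ 2 + y) / √(1 + y)) / (1 + T) - 1 =
      -(1 - √(T ^ 2 + y) / √(1 + y)) / (1 + T) := by field_simp; ring
    linarith
  have hlog3 : -(1 - √(T ^ 2 + y) / √(1 + y)) / (1 + T) ≤ -(1 - S / (1 + y)) / (1 + T1) := by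
    have h7 : (1 - √(T ^ 2 + y) / √(1 + y)) / (1 + T1) ≤
        (1 - √(T ^ 2 + y) / √(1 + y)) / (1 + T) := by
      apply div_le_div_of_nonneg_left (by linarith) (by linarith) (by linarith)
    have h8 : (1 - S / (1 + y)) / (1 + T1) ≤ (1 - √(T ^ 2 + y) / √(1 + y)) / (1 + T1) := by
      apply div_le_div_of_nonneg_right (by linarith) (by linarith)
    rw [neg_div, neg_div]
    linarith
  have hh0 : h0 T (-y) ≤ γ + br := by
    have hexp := h0_expand hT hT1' (show -y < T ^ 2 by nlinarith [sq_nonneg T])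
      (show -y ≠ 0 by linarith) hγ
    rw [sub_neg_eq_add, sub_neg_eq_add, log_neg_eq_log] at hexp
    rw [hexp]
    have : br = (lK + (1 + y) / (K * y) - 1) + 2 * (-(1 - S / (1 + y)) / (1 + T1)) := by
      rw [hbrdef]
      field_simp
      ring
    rw [this]
    linarith
  have hh1 : h0 T (-y) / γ ≤ 1 + br / G := by
    have h6 : h0 T (-y) / γ ≤ (γ + br) / γ := by gcongr
    have e : (γ + br) / γ = 1 + br / γ := by field_simp
    have h7 : br / γ ≤ br / G := by gcongr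
    linarith
  have hL : (k + y) * (A * T0 + y) / y ≤ (k + y) * (al * T / y + 1) := by
    have h9 : A * T0 ≤ al * T := by
      have : 0 ≤ al := hA0.trans hA
      nlinarith
    have e : (k + y) * (al * T / y + 1) = (k + y) * (al * T + y) / y := by field_simp
    rw [e]
    gcongr
  have hbG : 0 ≤ 1 + br / G := by positivity
  have hmain : (1 + br / G) * (√(T ^ 2 + y) * √(1 + y)) ≤ (k + y) * (al * T / y + 1) := by
    refine le_trans ?_ hL
    rw [le_div_iff₀ hy0]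
    calc (1 + br / G) * (√(T ^ 2 + y) * √(1 + y)) * y ≤ (1 + br / G) * S * y := by gcongr
      _ = y * S * (1 + br / G) := by ring
      _ ≤ _ := hP
  have h10 : 0 < √(T ^ 2 + y) * √(1 + y) := by positivity
  calc h0 T (-y) / γ ≤ 1 + br / G := hh1
    _ = (1 + br / G) * (√(T ^ 2 + y) * √(1 + y)) / (√(T ^ 2 + y) * √(1 + y)) := by
        field_simp
    _ ≤ ((k + y) * (al * T / y + 1)) / (√(T ^ 2 + y) * √(1 + y)) := by gcongr
    _ = _ := by
        rw [div_neg]
        ring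

end Pool.Agent.MP28e671
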