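import Mathlib
import Pool.Agent.MP28e671.NearCore

set_option autoImplicit false

open Real Set

namespace Pool.Agent.MP28e671

/-- polynomial form of `Rd_core` -/
theorem Rd_poly {T x al γ T0 T1 A w G k S N : ℝ} (hT0 : 0 < T0) (h1 : T0 ≤ T) (h2 : T ≤ T1)
    (h3 : T1 < 1) (hx0 : 0 < x) (hxT : x < T ^ 2) (hA : A ≤ al) (hA0 : 0 ≤ A) (hw : 0 < w)
    (hk : 0 ≤ k) (hγ : γ = log ((1 + T) / (1 - T))) (hγ0 : 0 < γ) (hG : 0 < G)
    (hS : S = ((T1 ^ 2 - x) / w + (1 - x) * w) / 2)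
    (hN : N = (1 - 2 * x) * (1 - x) - 2 / (1 + T1) * x * (1 - x) + 2 / (1 + T1) * x * S)
    (hsign : (N ≤ 0 ∧ γ ≤ G) ∨ (0 ≤ N ∧ G ≤ γ))
    (hpos : 0 ≤ x * (1 - x) + N / G)
    (hP : S * (x * (1 - x) + N / G) ≤ (k + x) * (A * T0 - x) * (1 - x)) :
    h0 T x / γ ≤ (k + x) * ((al * T / x - 1) / (√(T ^ 2 - x) * √(1 - x))) := by
  have hT : 0 < T := hT0.trans_le h1
  have hT2 : T ^ 2 < 1 := by nlinarith
  have hx1 : 0 < 1 - x := by linarith
  have hT1p : 0 < 1 + T1 := by linarith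
  have hbr : (1 - 2 * x) / x - 2 / (1 + T1) + 2 * S / ((1 - x) * (1 + T1)) =
      N / (x * (1 - x)) := by
    rw [hN]
    field_simp
  have hx01 : 0 < x * (1 - x) := by positivity
  refine Rd_core hT0 h1 h2 h3 hx0 hxT hA hA0 hw hk hγ hγ0 hG ?_ ?_ ?_
  · rw [← hS, hbr]
    rcases hsign with ⟨hN0, hle⟩ | ⟨hN0, hle⟩
    · have : N / (x * (1 - x)) ≤ 0 := div_nonpos_of_nonpos_of_nonneg hN0 hx01.le
      rw [div_le_div_iff₀ hγ0 hG]
      nlinarith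
    · have : 0 ≤ N / (x * (1 - x)) := by positivity
      gcongr
  · rw [← hS, hbr]
    have e : 1 + N / (x * (1 - x)) / G = (x * (1 - x) + N / G) / (x * (1 - x)) := by
      field_simp
    rw [e]
    positivity
  · rw [← hS, hbr]
    have e : x * S * (1 + N / (x * (1 - x)) / G) = S * (x * (1 - x) + N / G) / (1 - x) := by
      field_simp
    rw [e, div_le_iff₀ hx1]
    exact hP

/-- polynomial form of `Rc_core` -/
theorem Rc_poly {T y al γ T0 T1 A w G k K lK S N : ℝ} (hT0 : 0 < T0) (h1 : T0 ≤ T) (h2 : T ≤ T1)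
    (h3 : T1 < 1) (hy0 : 0 < y) (hA : A ≤ al) (hA0 : 0 ≤ A) (hw : 0 < w)
    (hk : 0 ≤ k) (hγ : γ = log ((1 + T) / (1 - T))) (hG : 0 < G) (hGγ : G ≤ γ)
    (hK : 0 < K) (hlK : log K ≤ lK)
    (hS : S = ((T1 ^ 2 + y) / w + (1 + y) * w) / 2)
    (hN : N = (lK - 1 - 2 / (1 + T1)) * y * (1 + y) + (1 + y) ^ 2 / K + 2 / (1 + T1) * y * S)
    (hN0 : 0 ≤ N)
    (hP : S * (y * (1 + y) + N / G) ≤ (k + y) * (A * T0 + y) * (1 + y)) :
    h0 T (-y) / γ ≤ (-k + -y) * ((al * T / (-y) - 1) / (√(T ^ 2 - -y) * √(1 - -y))) := by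
  have hT : 0 < T := hT0.trans_le h1
  have hx1 : 0 < 1 + y := by linarith
  have hT1p : 0 < 1 + T1 := by linarith
  have hx01 : 0 < y * (1 + y) := by positivity
  have hbr : (lK + (1 + y) / (K * y) - 1) - 2 / (1 + T1) + 2 * S / ((1 + y) * (1 + T1)) =
      N / (y * (1 + y)) := by
    rw [hN]
    field_simp
    ring
  refine Rc_core hT0 h1 h2 h3 hy0 hA hA0 hw hk hγ hG hGγ hK hlK ?_ ?_
  · rw [← hS, hbr]
    positivity
  · rw [← hS, hbr]
    have e : y * S * (1 + N / (y * (1 + y)) / G) = S * (y * (1 + y) + N / G) / (1 + y) := by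
      field_simp
    rw [e, div_le_iff₀ hx1]
    exact hP

end Pool.Agent.MP28e671
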