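import Mathlib
import Pool.Agent.MP28e671.NearPoly

set_option autoImplicit false

open Real Set

namespace Pool.Agent.MP28e671

theorem log_ge_of {n : ℝ} {p q : ℕ} (hq : 0 < q) (hn : 0 < n)
    (h : (2.7182818286 : ℝ) ^ p ≤ n ^ q) : (p : ℝ) / q ≤ log n := by
  have h1 : exp (p : ℝ) ≤ n ^ q := by
    refine le_trans ?_ h
    have : exp (p : ℝ) = exp 1 ^ p := by rw [← exp_nat_mul, mul_one]
    rw [this]
    exact pow_le_pow_left₀ (exp_pos 1).le exp_one_lt_d9.le p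
  have h2 := log_le_log (exp_pos _) h1
  rw [log_exp, log_pow] at h2
  have h3 : (0:ℝ) < q := by exact_mod_cast hq
  rw [div_le_iff₀ h3]
  linarith

theorem log_le_of {n : ℝ} {p q : ℕ} (hq : 0 < q) (hn : 0 < n)
    (h : n ^ q ≤ (2.7182818283 : ℝ) ^ p) : log n ≤ (p : ℝ) / q := by
  have h1 : n ^ q ≤ exp (p : ℝ) := by
    refine le_trans h ?_
    have : exp (p : ℝ) = exp 1 ^ p := by rw [← exp_nat_mul, mul_one]
    rw [this]
    exact pow_le_pow_left₀ (by norm_num) exp_one_gt_d9.le p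
  have h2 := log_le_log (by positivity) h1
  rw [log_exp, log_pow] at h2
  have h3 : (0:ℝ) < q := by exact_mod_cast hq
  rw [le_div_iff₀ h3]
  linarith

theorem log_K_le : log (18 / 5 : ℝ) ≤ 41 / 32 := by
  have := log_le_of (n := 18 / 5) (p := 41) (q := 32) (by norm_num) (by norm_num) (by norm_num)
  exact_mod_cast this

/-- box 1, positive side -/
theorem box_d1 {T γ x al : ℝ} (h1 : 9/10 ≤ T) (h2 : T ≤ 19/21)
    (hγ : γ = log ((1 + T) / (1 - T))) (hg0 : 209/71 ≤ γ) (hg1 : γ ≤ 3)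
    (hx0 : 0.4694 ≤ x) (hx1 : x ≤ 0.53045)
    (hal : 203/254 - 1.075 * (0.53045 - x) / (209/71) ≤ al) :
    h0 T x / γ ≤ (0.4 + x) * ((al * T / x - 1) / (√(T ^ 2 - x) * √(1 - x))) := by
  have a1 : 0 ≤ x - 0.4694 := by linarith
  have a2 : 0 ≤ 0.53045 - x := by linarith
  have b0 := mul_nonneg (mul_nonneg a1 a1) a1
  have b1 := mul_nonneg (mul_nonneg a1 a1) a2
  have b2 := mul_nonneg (mul_nonneg a1 a2) a2
  have b3 := mul_nonneg (mul_nonneg a2 a2) a2
  have c0 := mul_nonneg a1 a1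
  have c1 := mul_nonneg a1 a2
  have c2 := mul_nonneg a2 a2
  refine Rd_poly (T0 := 9/10) (T1 := 19/21) (w := 81/100) (G := 3) (by norm_num) h1 h2
      (by norm_num) (by linarith) (by nlinarith) hal (by norm_num; linarith) (by norm_num)
      (by norm_num) hγ (by linarith) (by norm_num) rfl rfl (Or.inl ⟨?_, hg1⟩) ?_ ?_
  · ring_nf; nlinarith
  · ring_nf; nlinarith
  · ring_nf; nlinarith

/-- box 1, negative side -/
theorem box_c1 {T γ y al : ℝ} (h1 : 9/10 ≤ T) (h2 : T ≤ 19/21)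
    (hγ : γ = log ((1 + T) / (1 - T))) (hg0 : 209/71 ≤ γ)
    (hy0 : 0.35 ≤ y) (hy1 : y ≤ 0.41725)
    (hal : 203/254 - 0.984 * (0.41725 - y) / (209/71) ≤ al) :
    h0 T (-y) / γ ≤ (-0.266 + -y) * ((al * T / (-y) - 1) / (√(T ^ 2 - -y) * √(1 - -y))) := by
  have a1 : 0 ≤ y - 0.35 := by linarith
  have a2 : 0 ≤ 0.41725 - y := by linarith
  have b0 := mul_nonneg (mul_nonneg a1 a1) a1
  have b1 := mul_nonneg (mul_nonneg a1 a1) a2
  have b2 := mul_nonneg (mul_nonneg a1 a2) a2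
  have b3 := mul_nonneg (mul_nonneg a2 a2) a2
  have c0 := mul_nonneg a1 a1
  have c1 := mul_nonneg a1 a2
  have c2 := mul_nonneg a2 a2
  refine Rc_poly (T0 := 9/10) (T1 := 19/21) (w := 93/100) (G := 209/71) (K := 18 / 5) (lK := 41 / 32)
    (by norm_num) h1 h2 (by norm_num) (by linarith) hal (by norm_num; linarith) (by norm_num)
    (by norm_num) hγ (by norm_num) hg0 (by norm_num) log_K_le rfl rfl ?_ ?_
  · ring_nf; nlinarith
  · ring_nf; nlinarith

/-- box 2, positive side -/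
theorem box_d2 {T γ x al : ℝ} (h1 : 19/21 ≤ T) (h2 : T ≤ 21/23)
    (hγ : γ = log ((1 + T) / (1 - T))) (hg0 : 149/50 ≤ γ) (hg1 : γ ≤ 31/10)
    (hx0 : 0.4694 ≤ x) (hx1 : x ≤ 0.53045)
    (hal : 149/186 - 1.075 * (0.53045 - x) / (149/50) ≤ al) :
    h0 T x / γ ≤ (0.4 + x) * ((al * T / x - 1) / (√(T ^ 2 - x) * √(1 - x))) := by
  have a1 : 0 ≤ x - 0.4694 := by linarith
  have a2 : 0 ≤ 0.53045 - x := by linarith
  have b0 := mul_nonneg (mul_nonneg a1 a1) a1
  have b1 := mul_nonneg (mul_nonneg a1 a1) a2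
  have b2 := mul_nonneg (mul_nonneg a1 a2) a2
  have b3 := mul_nonneg (mul_nonneg a2 a2) a2
  have c0 := mul_nonneg a1 a1
  have c1 := mul_nonneg a1 a2
  have c2 := mul_nonneg a2 a2
  refine Rd_poly (T0 := 19/21) (T1 := 21/23) (w := 4/5) (G := 31/10) (by norm_num) h1 h2
      (by norm_num) (by linarith) (by nlinarith) hal (by norm_num; linarith) (by norm_num)
      (by norm_num) hγ (by linarith) (by norm_num) rfl rfl (Or.inl ⟨?_, hg1⟩) ?_ ?_
  · ring_nf; nlinarith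
  · ring_nf; nlinarith
  · ring_nf; nlinarith

/-- box 2, negative side -/
theorem box_c2 {T γ y al : ℝ} (h1 : 19/21 ≤ T) (h2 : T ≤ 21/23)
    (hγ : γ = log ((1 + T) / (1 - T))) (hg0 : 149/50 ≤ γ)
    (hy0 : 0.35 ≤ y) (hy1 : y ≤ 0.41725)
    (hal : 149/186 - 0.984 * (0.41725 - y) / (149/50) ≤ al) :
    h0 T (-y) / γ ≤ (-0.266 + -y) * ((al * T / (-y) - 1) / (√(T ^ 2 - -y) * √(1 - -y))) := by
  have a1 : 0 ≤ y - 0.35 := by linarith
  have a2 : 0 ≤ 0.41725 - y := by linarith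
  have b0 := mul_nonneg (mul_nonneg a1 a1) a1
  have b1 := mul_nonneg (mul_nonneg a1 a1) a2
  have b2 := mul_nonneg (mul_nonneg a1 a2) a2
  have b3 := mul_nonneg (mul_nonneg a2 a2) a2
  have c0 := mul_nonneg a1 a1
  have c1 := mul_nonneg a1 a2
  have c2 := mul_nonneg a2 a2
  refine Rc_poly (T0 := 19/21) (T1 := 21/23) (w := 47/50) (G := 149/50) (K := 18 / 5) (lK := 41 / 32)
    (by norm_num) h1 h2 (by norm_num) (by linarith) hal (by norm_num; linarith) (by norm_num)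
    (by norm_num) hγ (by norm_num) hg0 (by norm_num) log_K_le rfl rfl ?_ ?_
  · ring_nf; nlinarith
  · ring_nf; nlinarith

/-- box 3, positive side -/
theorem box_d3 {T γ x al : ℝ} (h1 : 21/23 ≤ T) (h2 : T ≤ 12/13)
    (hγ : γ = log ((1 + T) / (1 - T))) (hg0 : 34/11 ≤ γ) (hg1 : γ ≤ 161/50)
    (hx0 : 0.4694 ≤ x) (hx1 : x ≤ 0.53045)
    (hal : 201/250 - 1.075 * (0.53045 - x) / (34/11) ≤ al) :
    h0 T x / γ ≤ (0.4 + x) * ((al * T / x - 1) / (√(T ^ 2 - x) * √(1 - x))) := by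
  have a1 : 0 ≤ x - 0.4694 := by linarith
  have a2 : 0 ≤ 0.53045 - x := by linarith
  have b0 := mul_nonneg (mul_nonneg a1 a1) a1
  have b1 := mul_nonneg (mul_nonneg a1 a1) a2
  have b2 := mul_nonneg (mul_nonneg a1 a2) a2
  have b3 := mul_nonneg (mul_nonneg a2 a2) a2
  have c0 := mul_nonneg a1 a1
  have c1 := mul_nonneg a1 a2
  have c2 := mul_nonneg a2 a2
  refine Rd_poly (T0 := 21/23) (T1 := 12/13) (w := 83/100) (G := 161/50) (by norm_num) h1 h2
      (by norm_num) (by linarith) (by nlinarith) hal (by norm_num; linarith) (by norm_num)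
      (by norm_num) hγ (by linarith) (by norm_num) rfl rfl (Or.inl ⟨?_, hg1⟩) ?_ ?_
  · ring_nf; nlinarith
  · ring_nf; nlinarith
  · ring_nf; nlinarith

/-- box 3, negative side -/
theorem box_c3 {T γ y al : ℝ} (h1 : 21/23 ≤ T) (h2 : T ≤ 12/13)
    (hγ : γ = log ((1 + T) / (1 - T))) (hg0 : 34/11 ≤ γ)
    (hy0 : 0.35 ≤ y) (hy1 : y ≤ 0.41725)
    (hal : 201/250 - 0.984 * (0.41725 - y) / (34/11) ≤ al) :
    h0 T (-y) / γ ≤ (-0.266 + -y) * ((al * T / (-y) - 1) / (√(T ^ 2 - -y) * √(1 - -y))) := by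
  have a1 : 0 ≤ y - 0.35 := by linarith
  have a2 : 0 ≤ 0.41725 - y := by linarith
  have b0 := mul_nonneg (mul_nonneg a1 a1) a1
  have b1 := mul_nonneg (mul_nonneg a1 a1) a2
  have b2 := mul_nonneg (mul_nonneg a1 a2) a2
  have b3 := mul_nonneg (mul_nonneg a2 a2) a2
  have c0 := mul_nonneg a1 a1
  have c1 := mul_nonneg a1 a2
  have c2 := mul_nonneg a2 a2
  refine Rc_poly (T0 := 21/23) (T1 := 12/13) (w := 19/20) (G := 34/11) (K := 18 / 5) (lK := 41 / 32)
    (by norm_num) h1 h2 (by norm_num) (by linarith) hal (by norm_num; linarith) (by norm_num)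
    (by norm_num) hγ (by norm_num) hg0 (by norm_num) log_K_le rfl rfl ?_ ?_
  · ring_nf; nlinarith
  · ring_nf; nlinarith

/-- box 4, positive side -/
theorem box_d4 {T γ x al : ℝ} (h1 : 12/13 ≤ T) (h2 : T ≤ 29/31)
    (hγ : γ = log ((1 + T) / (1 - T))) (hg0 : 16/5 ≤ γ) (hg1 : γ ≤ 58/17)
    (hx0 : 0.4694 ≤ x) (hx1 : x ≤ 0.53045)
    (hal : 72/89 - 1.075 * (0.53045 - x) / (16/5) ≤ al) :
    h0 T x / γ ≤ (0.4 + x) * ((al * T / x - 1) / (√(T ^ 2 - x) * √(1 - x))) := by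
  have a1 : 0 ≤ x - 0.4694 := by linarith
  have a2 : 0 ≤ 0.53045 - x := by linarith
  have b0 := mul_nonneg (mul_nonneg a1 a1) a1
  have b1 := mul_nonneg (mul_nonneg a1 a1) a2
  have b2 := mul_nonneg (mul_nonneg a1 a2) a2
  have b3 := mul_nonneg (mul_nonneg a2 a2) a2
  have c0 := mul_nonneg a1 a1
  have c1 := mul_nonneg a1 a2
  have c2 := mul_nonneg a2 a2
  rcases le_total ((1 - 2 * x) * (1 - x) - 2 / (1 + 29/31) * x * (1 - x) +
    2 / (1 + 29/31) * x * (((29/31) ^ 2 - x) / (43/50) + (1 - x) * (43/50)) / 2) 0 with hs | hs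
  · refine Rd_poly (T0 := 12/13) (T1 := 29/31) (w := 43/50) (G := 58/17) (by norm_num) h1 h2
      (by norm_num) (by linarith) (by nlinarith) hal (by norm_num; linarith) (by norm_num)
      (by norm_num) hγ (by linarith) (by norm_num) rfl rfl (Or.inl ⟨?_, hg1⟩) ?_ ?_
    · refine le_trans (le_of_eq ?_) hs; ring
    · ring_nf; nlinarith
    · ring_nf; nlinarith
  · refine Rd_poly (T0 := 12/13) (T1 := 29/31) (w := 43/50) (G := 16/5) (by norm_num) h1 h2
      (by norm_num) (by linarith) (by nlinarith) hal (by norm_num; linarith) (by norm_num)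
      (by norm_num) hγ (by linarith) (by norm_num) rfl rfl (Or.inr ⟨?_, hg0⟩) ?_ ?_
    · refine le_trans hs (le_of_eq ?_); ring
    · ring_nf; nlinarith
    · ring_nf; nlinarith

/-- box 4, negative side -/
theorem box_c4 {T γ y al : ℝ} (h1 : 12/13 ≤ T) (h2 : T ≤ 29/31)
    (hγ : γ = log ((1 + T) / (1 - T))) (hg0 : 16/5 ≤ γ)
    (hy0 : 0.35 ≤ y) (hy1 : y ≤ 0.41725)
    (hal : 72/89 - 0.984 * (0.41725 - y) / (16/5) ≤ al) :
    h0 T (-y) / γ ≤ (-0.266 + -y) * ((al * T / (-y) - 1) / (√(T ^ 2 - -y) * √(1 - -y))) := by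
  have a1 : 0 ≤ y - 0.35 := by linarith
  have a2 : 0 ≤ 0.41725 - y := by linarith
  have b0 := mul_nonneg (mul_nonneg a1 a1) a1
  have b1 := mul_nonneg (mul_nonneg a1 a1) a2
  have b2 := mul_nonneg (mul_nonneg a1 a2) a2
  have b3 := mul_nonneg (mul_nonneg a2 a2) a2
  have c0 := mul_nonneg a1 a1
  have c1 := mul_nonneg a1 a2
  have c2 := mul_nonneg a2 a2
  refine Rc_poly (T0 := 12/13) (T1 := 29/31) (w := 19/20) (G := 16/5) (K := 18 / 5) (lK := 41 / 32)
    (by norm_num) h1 h2 (by norm_num) (by linarith) hal (by norm_num; linarith) (by norm_num)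
    (by norm_num) hγ (by norm_num) hg0 (by norm_num) log_K_le rfl rfl ?_ ?_
  · ring_nf; nlinarith
  · ring_nf; nlinarith

/-- box 5, positive side -/
theorem box_d5 {T γ x al : ℝ} (h1 : 29/31 ≤ T) (h2 : T ≤ 39/41)
    (hγ : γ = log ((1 + T) / (1 - T))) (hg0 : 17/5 ≤ γ) (hg1 : γ ≤ 48/13)
    (hx0 : 0.4694 ≤ x) (hx1 : x ≤ 0.53045)
    (hal : 163/200 - 1.075 * (0.53045 - x) / (17/5) ≤ al) :
    h0 T x / γ ≤ (0.4 + x) * ((al * T / x - 1) / (√(T ^ 2 - x) * √(1 - x))) := by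
  have a1 : 0 ≤ x - 0.4694 := by linarith
  have a2 : 0 ≤ 0.53045 - x := by linarith
  have b0 := mul_nonneg (mul_nonneg a1 a1) a1
  have b1 := mul_nonneg (mul_nonneg a1 a1) a2
  have b2 := mul_nonneg (mul_nonneg a1 a2) a2
  have b3 := mul_nonneg (mul_nonneg a2 a2) a2
  have c0 := mul_nonneg a1 a1
  have c1 := mul_nonneg a1 a2
  have c2 := mul_nonneg a2 a2
  rcases le_total ((1 - 2 * x) * (1 - x) - 2 / (1 + 39/41) * x * (1 - x) +
    2 / (1 + 39/41) * x * (((39/41) ^ 2 - x) / (89/100) + (1 - x) * (89/100)) / 2) 0 with hs | hs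
  · refine Rd_poly (T0 := 29/31) (T1 := 39/41) (w := 89/100) (G := 48/13) (by norm_num) h1 h2
      (by norm_num) (by linarith) (by nlinarith) hal (by norm_num; linarith) (by norm_num)
      (by norm_num) hγ (by linarith) (by norm_num) rfl rfl (Or.inl ⟨?_, hg1⟩) ?_ ?_
    · refine le_trans (le_of_eq ?_) hs; ring
    · ring_nf; nlinarith
    · ring_nf; nlinarith
  · refine Rd_poly (T0 := 29/31) (T1 := 39/41) (w := 89/100) (G := 17/5) (by norm_num) h1 h2
      (by norm_num) (by linarith) (by nlinarith) hal (by norm_num; linarith) (by norm_num)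
      (by norm_num) hγ (by linarith) (by norm_num) rfl rfl (Or.inr ⟨?_, hg0⟩) ?_ ?_
    · refine le_trans hs (le_of_eq ?_); ring
    · ring_nf; nlinarith
    · ring_nf; nlinarith

/-- box 5, negative side -/
theorem box_c5 {T γ y al : ℝ} (h1 : 29/31 ≤ T) (h2 : T ≤ 39/41)
    (hγ : γ = log ((1 + T) / (1 - T))) (hg0 : 17/5 ≤ γ)
    (hy0 : 0.35 ≤ y) (hy1 : y ≤ 0.41725)
    (hal : 163/200 - 0.984 * (0.41725 - y) / (17/5) ≤ al) :
    h0 T (-y) / γ ≤ (-0.266 + -y) * ((al * T / (-y) - 1) / (√(T ^ 2 - -y) * √(1 - -y))) := by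
  have a1 : 0 ≤ y - 0.35 := by linarith
  have a2 : 0 ≤ 0.41725 - y := by linarith
  have b0 := mul_nonneg (mul_nonneg a1 a1) a1
  have b1 := mul_nonneg (mul_nonneg a1 a1) a2
  have b2 := mul_nonneg (mul_nonneg a1 a2) a2
  have b3 := mul_nonneg (mul_nonneg a2 a2) a2
  have c0 := mul_nonneg a1 a1
  have c1 := mul_nonneg a1 a2
  have c2 := mul_nonneg a2 a2
  refine Rc_poly (T0 := 29/31) (T1 := 39/41) (w := 97/100) (G := 17/5) (K := 18 / 5) (lK := 41 / 32)
    (by norm_num) h1 h2 (by norm_num) (by linarith) hal (by norm_num; linarith) (by norm_num)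
    (by norm_num) hγ (by norm_num) hg0 (by norm_num) log_K_le rfl rfl ?_ ?_
  · ring_nf; nlinarith
  · ring_nf; nlinarith

/-- box 6, positive side -/
theorem box_d6 {T γ x al : ℝ} (h1 : 39/41 ≤ T) (h2 : T ≤ 99/101)
    (hγ : γ = log ((1 + T) / (1 - T))) (hg0 : 92/25 ≤ γ) (hg1 : γ ≤ 60/13)
    (hx0 : 0.4694 ≤ x) (hx1 : x ≤ 0.53045)
    (hal : 33/40 - 1.075 * (0.53045 - x) / (92/25) ≤ al) :
    h0 T x / γ ≤ (0.4 + x) * ((al * T / x - 1) / (√(T ^ 2 - x) * √(1 - x))) := by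
  have a1 : 0 ≤ x - 0.4694 := by linarith
  have a2 : 0 ≤ 0.53045 - x := by linarith
  have b0 := mul_nonneg (mul_nonneg a1 a1) a1
  have b1 := mul_nonneg (mul_nonneg a1 a1) a2
  have b2 := mul_nonneg (mul_nonneg a1 a2) a2
  have b3 := mul_nonneg (mul_nonneg a2 a2) a2
  have c0 := mul_nonneg a1 a1
  have c1 := mul_nonneg a1 a2
  have c2 := mul_nonneg a2 a2
  rcases le_total ((1 - 2 * x) * (1 - x) - 2 / (1 + 99/101) * x * (1 - x) +
    2 / (1 + 99/101) * x * (((99/101) ^ 2 - x) / (24/25) + (1 - x) * (24/25)) / 2) 0 with hs | hs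
  · refine Rd_poly (T0 := 39/41) (T1 := 99/101) (w := 24/25) (G := 60/13) (by norm_num) h1 h2
      (by norm_num) (by linarith) (by nlinarith) hal (by norm_num; linarith) (by norm_num)
      (by norm_num) hγ (by linarith) (by norm_num) rfl rfl (Or.inl ⟨?_, hg1⟩) ?_ ?_
    · refine le_trans (le_of_eq ?_) hs; ring
    · ring_nf; nlinarith
    · ring_nf; nlinarith
  · refine Rd_poly (T0 := 39/41) (T1 := 99/101) (w := 24/25) (G := 92/25) (by norm_num) h1 h2
      (by norm_num) (by linarith) (by nlinarith) hal (by norm_num; linarith) (by norm_num)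
      (by norm_num) hγ (by linarith) (by norm_num) rfl rfl (Or.inr ⟨?_, hg0⟩) ?_ ?_
    · refine le_trans hs (le_of_eq ?_); ring
    · ring_nf; nlinarith
    · ring_nf; nlinarith

/-- box 6, negative side -/
theorem box_c6 {T γ y al : ℝ} (h1 : 39/41 ≤ T) (h2 : T ≤ 99/101)
    (hγ : γ = log ((1 + T) / (1 - T))) (hg0 : 92/25 ≤ γ)
    (hy0 : 0.35 ≤ y) (hy1 : y ≤ 0.41725)
    (hal : 33/40 - 0.984 * (0.41725 - y) / (92/25) ≤ al) :
    h0 T (-y) / γ ≤ (-0.266 + -y) * ((al * T / (-y) - 1) / (√(T ^ 2 - -y) * √(1 - -y))) := by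
  have a1 : 0 ≤ y - 0.35 := by linarith
  have a2 : 0 ≤ 0.41725 - y := by linarith
  have b0 := mul_nonneg (mul_nonneg a1 a1) a1
  have b1 := mul_nonneg (mul_nonneg a1 a1) a2
  have b2 := mul_nonneg (mul_nonneg a1 a2) a2
  have b3 := mul_nonneg (mul_nonneg a2 a2) a2
  have c0 := mul_nonneg a1 a1
  have c1 := mul_nonneg a1 a2
  have c2 := mul_nonneg a2 a2
  refine Rc_poly (T0 := 39/41) (T1 := 99/101) (w := 99/100) (G := 92/25) (K := 18 / 5) (lK := 41 / 32)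
    (by norm_num) h1 h2 (by norm_num) (by linarith) hal (by norm_num; linarith) (by norm_num)
    (by norm_num) hγ (by norm_num) hg0 (by norm_num) log_K_le rfl rfl ?_ ?_
  · ring_nf; nlinarith
  · ring_nf; nlinarith

end Pool.Agent.MP28e671
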