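import Mathlib
import Pool.Agent.MP28e671.NearDeriv

set_option autoImplicit false

open Real Set

namespace Pool.Agent.MP28e671

/-- Monotonicity of the (scaled) Green function difference along the path
`x(β) = (e + k (B - β)) / β`, `al(β) = a + (log B - log β) / γ`, from `β = B` down to `β = 2`. -/
theorem path_aux {T k B e γ a : ℝ} (hT0 : 0 < T) (hT1 : T ^ 2 < 1) (hB : 2 ≤ B) (hγ : 0 < γ)
    (hx : ∀ β ∈ Icc 2 B, (e + k * (B - β)) / β < T ^ 2 ∧ (e + k * (B - β)) / β ≠ 0)
    (hR : ∀ β ∈ Icc 2 B, h0 T ((e + k * (B - β)) / β) / γ ≤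
      (k + (e + k * (B - β)) / β) *
        (((a + (log B - log β) / γ) * T / ((e + k * (B - β)) / β) - 1) /
          (√(T ^ 2 - (e + k * (B - β)) / β) * √(1 - (e + k * (B - β)) / β))))
    (h : 0 ≤ hI T (e / B) - a * h0 T (e / B)) :
    0 ≤ hI T ((e + k * (B - 2)) / 2) -
      (a + (log B - log 2) / γ) * h0 T ((e + k * (B - 2)) / 2) := by
  set X : ℝ → ℝ := fun β => (e + k * (B - β)) / β with hX
  set A : ℝ → ℝ := fun β => a + (log B - log β) / γ with hA
  have hanti : AntitoneOn (fun β => hI T (X β) - A β * h0 T (X β)) (Icc 2 B) := by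
    have hder : ∀ β ∈ Icc 2 B, HasDerivAt (fun β => hI T (X β) - A β * h0 T (X β))
        (-(1 / β) * ((k + X β) * ((A β * T / X β - 1) / (√(T ^ 2 - X β) * √(1 - X β))) -
          h0 T (X β) / γ)) β := by
      intro β hβ
      have hβ0 : 0 < β := by have := hβ.1; linarith
      have h1 := (hx β hβ).1
      have h2 := (hx β hβ).2
      have dX : HasDerivAt X (-(k + X β) / β) β := by
        have e1 : HasDerivAt (fun β => e + k * (B - β)) (k * (0 - 1)) β :=
          (((hasDerivAt_const β B).sub (hasDerivAt_id β)).const_mul k).const_add e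
        have e2 := e1.div (hasDerivAt_id β) hβ0.ne'
        refine e2.congr_deriv ?_
        simp only [hX, id]
        field_simp
        ring
      have dA : HasDerivAt A (-(1 / (β * γ))) β := by
        have e1 := (((hasDerivAt_log hβ0.ne').const_sub (log B)).div_const γ).const_add a
        refine e1.congr_deriv ?_
        field_simp
      have h1' : X β < T ^ 2 := h1
      have h2' : X β ≠ 0 := h2
      have d1 := HasDerivAt.comp (h₂ := hI T) (h := X) β (hasDerivAt_hI hT1 h1') dX
      have d2 := HasDerivAt.comp (h₂ := h0 T) (h := X) β (hasDerivAt_h0 hT0 hT1 h1' h2') dX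
      have d3 := d1.sub (dA.mul d2)
      refine d3.congr_deriv ?_
      have h3 : 0 < √(1 - X β) := sqrt_pos.2 (by linarith)
      have h4 : 0 < √(T ^ 2 - X β) := sqrt_pos.2 (by linarith)
      simp only [Function.comp]
      generalize X β = x at *
      generalize A β = al at *
      generalize h0 T x = H at *
      field_simp
      ring
    refine antitoneOn_of_deriv_nonpos (convex_Icc 2 B)
      (fun β hβ => (hder β hβ).continuousAt.continuousWithinAt)
      (fun β hβ => ((hder β (interior_subset hβ)).differentiableAt).differentiableWithinAt) ?_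
    intro β hβ
    have hβ' := interior_subset hβ
    rw [(hder β hβ').deriv]
    have hβ0 : 0 < β := by have := hβ'.1; linarith
    have h5 := hR β hβ'
    have h6 : 0 < 1 / β := by positivity
    have h7 : 0 ≤ (k + X β) * ((A β * T / X β - 1) / (√(T ^ 2 - X β) * √(1 - X β))) -
          h0 T (X β) / γ := by
      simp only [hX, hA]
      linarith
    nlinarith [mul_nonneg h6.le h7]
  have hmem1 : (2:ℝ) ∈ Icc 2 B := ⟨le_rfl, hB⟩
  have hmem2 : B ∈ Icc 2 B := ⟨hB, le_rfl⟩
  have h8 := hanti hmem1 hmem2 hB
  simp only [hX, hA, sub_self, mul_zero, add_zero, zero_div] at h8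
  linarith

end Pool.Agent.MP28e671
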