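import Mathlib
import Pool.Agent.MP28e671.NearPath
import Pool.Agent.MP28e671.NearBox

set_option autoImplicit false

open Real Set

namespace Pool.Agent.MP28e671

theorem gamma_mono {T T0 : ℝ} (hT0 : 0 < T0) (hT : T0 ≤ T) (hT1 : T < 1) :
    log ((1 + T0) / (1 - T0)) ≤ log ((1 + T) / (1 - T)) := by
  apply log_le_log
  · have : 0 < 1 - T0 := by linarith
    positivity
  · have h1 : 0 < 1 - T := by linarith
    have h2 : 0 < 1 - T0 := by linarith
    rw [div_le_div_iff₀ h2 h1]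
    nlinarith

theorem Lc_ge {T T0 a0 : ℝ} (hT0 : 0 < T0) (hT : T0 ≤ T) (hT1 : T < 1) (ha : a0 ≤ T0)
    (ha0 : 0 ≤ a0) (hnum : a0 * log ((1 + T0) / (1 - T0)) ≤ log (2 / (1 - T0 ^ 2))) :
    a0 * log ((1 + T) / (1 - T)) ≤ log (2 / (1 - T ^ 2)) := by
  have h1 : 0 < 1 - T := by linarith
  have h2 : 0 < 1 - T0 := by linarith
  have h3 : 0 < 1 + T := by linarith
  have h4 : 0 < 1 + T0 := by linarith
  have e1 : log ((1 + T) / (1 - T)) = log (1 + T) - log (1 - T) := log_div h3.ne' h1.ne'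
  have e2 : log ((1 + T0) / (1 - T0)) = log (1 + T0) - log (1 - T0) := log_div h4.ne' h2.ne'
  have e3 : log (2 / (1 - T ^ 2)) = log 2 - log (1 + T) - log (1 - T) := by
    rw [show 1 - T ^ 2 = (1 + T) * (1 - T) by ring, log_div (by norm_num) (by positivity),
      log_mul h3.ne' h1.ne']
    ring
  have e4 : log (2 / (1 - T0 ^ 2)) = log 2 - log (1 + T0) - log (1 - T0) := by
    rw [show 1 - T0 ^ 2 = (1 + T0) * (1 - T0) by ring, log_div (by norm_num) (by positivity),
      log_mul h4.ne' h2.ne']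
    ring
  rw [e2, e4] at hnum
  rw [e1, e3]
  have hr : log (1 + T) - log (1 + T0) ≤ (T - T0) / (1 + T0) := by
    rw [← log_div h3.ne' h4.ne']
    have := log_le_sub_one_of_pos (div_pos h3 h4)
    have e : (1 + T) / (1 + T0) - 1 = (T - T0) / (1 + T0) := by field_simp; ring
    linarith
  have hv : (T - T0) / (1 - T0) ≤ log (1 - T0) - log (1 - T) := by
    have := log_le_sub_one_of_pos (div_pos h1 h2)
    rw [log_div h1.ne' h2.ne'] at this
    have e : (1 - T) / (1 - T0) - 1 = -((T - T0) / (1 - T0)) := by field_simp; ring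
    linarith
  have h5 : (1 + a0) * ((T - T0) / (1 + T0)) ≤ (1 - a0) * ((T - T0) / (1 - T0)) := by
    rw [← mul_div_assoc, ← mul_div_assoc, div_le_div_iff₀ h4 h2]
    have h6 : 0 ≤ T - T0 := by linarith
    have h7 : (1 + a0) * (T - T0) * (1 - T0) = (T - T0) * ((1 + a0) * (1 - T0)) := by ring
    have h8 : (1 - a0) * (T - T0) * (1 + T0) = (T - T0) * ((1 - a0) * (1 + T0)) := by ring
    rw [h7, h8]
    apply mul_le_mul_of_nonneg_left _ h6
    nlinarith
  have h9 : (1 + a0) * (log (1 + T) - log (1 + T0)) ≤ (1 + a0) * ((T - T0) / (1 + T0)) :=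
    mul_le_mul_of_nonneg_left hr (by linarith)
  have h10 : (1 - a0) * ((T - T0) / (1 - T0)) ≤ (1 - a0) * (log (1 - T0) - log (1 - T)) :=
    mul_le_mul_of_nonneg_left hv (by linarith)
  nlinarith

theorem mass_num {n m : ℝ} {p q : ℕ} (hq : 0 < q) (hn : 0 < n) (h : n ^ p ≤ m ^ q) :
    (p : ℝ) / q * log n ≤ log m := by
  have h2 := log_le_log (by positivity) h
  rw [log_pow, log_pow] at h2
  have h3 : (0:ℝ) < q := by exact_mod_cast hq
  rw [div_mul_eq_mul_div, div_le_iff₀ h3]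
  linarith

theorem mass_lt_aux {T : ℝ} (hT : 9 / 10 ≤ T) (hT1 : T < 1) :
    log (2 / (1 - T ^ 2)) < T * log ((1 + T) / (1 - T)) := by
  have h1 : 0 < 1 - T := by linarith
  have h3 : 0 < 1 + T := by linarith
  have e1 : log ((1 + T) / (1 - T)) = log (1 + T) - log (1 - T) := log_div h3.ne' h1.ne'
  have e3 : log (2 / (1 - T ^ 2)) = log 2 - log (1 + T) - log (1 - T) := by
    rw [show 1 - T ^ 2 = (1 + T) * (1 - T) by ring, log_div (by norm_num) (by positivity),
      log_mul h3.ne' h1.ne']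
    ring
  rw [e1, e3]
  -- log (1/(1-T)) ≤ log 10 + ((1/10)/(1-T) - 1)
  have hv : log (1 / 10) - log (1 - T) ≤ (1 / 10) / (1 - T) - 1 := by
    rw [← log_div (by norm_num) h1.ne']
    exact log_le_sub_one_of_pos (by positivity)
  have hv2 : (1 - T) * (log (1 / 10) - log (1 - T)) ≤ T - 9 / 10 := by
    have := mul_le_mul_of_nonneg_left hv h1.le
    have e : (1 - T) * ((1 / 10) / (1 - T) - 1) = T - 9 / 10 := by field_simp; ring
    linarith
  have hr : log (19 / 10) ≤ log (1 + T) := log_le_log (by norm_num) (by linarith)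
  -- numeric : 19^9 > (200/19)^10
  have hnum : log (200 / 19) < 9 / 10 * log 19 := by
    have h : log ((200 / 19 : ℝ) ^ 10) < log ((19:ℝ) ^ 9) :=
      log_lt_log (by norm_num) (by norm_num)
    rw [log_pow, log_pow] at h
    push_cast at h
    linarith
  have e5 : log (200 / 19 : ℝ) = log 2 - log (19 / 10) - log (1 / 10) := by
    rw [← log_div (by norm_num) (by norm_num), ← log_div (by norm_num) (by norm_num)]
    norm_num
  have e6 : log (19 : ℝ) = log (19 / 10) - log (1 / 10) := by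
    rw [← log_div (by norm_num) (by norm_num)]
    norm_num
  have h19 : (1:ℝ) ≤ log 19 := by
    have := log_ge_of (n := 19) (p := 1) (q := 1) (by norm_num) (by norm_num) (by norm_num)
    simpa using this
  have hlT : log (1 - T) ≤ log (1 / 10) := log_le_log h1 (by linarith)
  nlinarith

/-- Lower bound of `z = |c|`. -/
theorem z_bound {al z ε : ℝ} (hz0 : 0 < z) (hz : 1 ≤ z ^ al * (2 + z) ^ (1 - al))
    (hε : 0 ≤ ε) (hε1 : ε ≤ 0.065) (hal1 : al ≤ 1)
    (hal : 203 / 254 - ε / (209 / 71) ≤ al) : 0.7736 - 0.41 * ε ≤ z := by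
  by_contra hcon
  push Not at hcon
  have hal0 : 0.7769 ≤ al := by
    have : ε / (209 / 71) ≤ 0.0221 := by rw [div_le_iff₀ (by norm_num)]; linarith
    linarith
  have hlog : 0 ≤ al * log z + (1 - al) * log (2 + z) := by
    have h1 : 0 ≤ log (z ^ al * (2 + z) ^ (1 - al)) := log_nonneg hz
    rw [log_mul (by positivity) (by positivity), log_rpow hz0, log_rpow (by linarith)] at h1
    exact h1
  have hc1 : log z ≤ log 0.7736 + (z - 0.7736) / 0.7736 := by
    have := log_le_sub_one_of_pos (show 0 < z / 0.7736 by positivity)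
    rw [log_div hz0.ne' (by norm_num)] at this
    have e : z / 0.7736 - 1 = (z - 0.7736) / 0.7736 := by field_simp
    linarith
  have hc2 : log (2 + z) ≤ log 2.7736 + (z - 0.7736) / 2.7736 := by
    have := log_le_sub_one_of_pos (show 0 < (2 + z) / 2.7736 by positivity)
    rw [log_div (by positivity) (by norm_num)] at this
    have e : (2 + z) / 2.7736 - 1 = (z - 0.7736) / 2.7736 := by field_simp; ring
    linarith
  have hN1 : 203 * log 0.7736 + 51 * log 2.7736 ≤ 0 := by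
    have h : log ((0.7736 : ℝ) ^ 203 * 2.7736 ^ 51) ≤ 0 :=
      log_nonpos (by positivity) (by norm_num)
    rw [log_mul (by norm_num) (by norm_num), log_pow, log_pow] at h
    push_cast at h
    exact h
  have hN2 : log 2.7736 - log 0.7736 ≤ 41 / 32 := by
    rw [← log_div (by norm_num) (by norm_num)]
    refine le_trans (log_le_log (by norm_num) ?_) log_K_le
    norm_num
  have hN3 : 0 ≤ log 2.7736 - log 0.7736 := by
    have : log (0.7736 : ℝ) ≤ log 2.7736 := log_le_log (by norm_num) (by norm_num)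
    linarith
  set Lr : ℝ := log 2.7736 - log 0.7736 with hLr
  set u : ℝ := z - 0.7736 with hu
  have hu1 : u < -(0.41 * ε) := by rw [hu]; linarith
  have h1 : al * log z ≤ al * (log 0.7736 + u / 0.7736) :=
    mul_le_mul_of_nonneg_left hc1 (by linarith)
  have h2 : (1 - al) * log (2 + z) ≤ (1 - al) * (log 2.7736 + u / 2.7736) :=
    mul_le_mul_of_nonneg_left hc2 (by linarith)
  have h3 : 0 ≤ log 2.7736 - al * Lr + u * (al / 0.7736 + (1 - al) / 2.7736) := by
    have e : al * (log 0.7736 + u / 0.7736) + (1 - al) * (log 2.7736 + u / 2.7736) =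
      log 2.7736 - al * Lr + u * (al / 0.7736 + (1 - al) / 2.7736) := by
      rw [hLr]; ring
    linarith
  have h4 : (203 / 254 - ε / (209 / 71)) * Lr ≤ al * Lr := mul_le_mul_of_nonneg_right hal hN3
  have h5 : log 2.7736 - 203 / 254 * Lr ≤ 0 := by
    rw [hLr]; linarith
  have h6 : ε / (209 / 71) * Lr ≤ ε / (209 / 71) * (41 / 32) :=
    mul_le_mul_of_nonneg_left hN2 (by positivity)
  have h7 : 1.0847 ≤ al / 0.7736 + (1 - al) / 2.7736 := by
    have e : al / 0.7736 + (1 - al) / 2.7736 = 1 / 2.7736 + al * (1 / 0.7736 - 1 / 2.7736) := by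
      ring
    rw [e]
    have : (0:ℝ) ≤ 1 / 0.7736 - 1 / 2.7736 := by norm_num
    have := mul_le_mul_of_nonneg_right hal0 this
    refine le_trans ?_ (add_le_add_right this _)
    norm_num
  have h8 : u * (al / 0.7736 + (1 - al) / 2.7736) ≤ u * 1.0847 := by
    apply mul_le_mul_of_nonpos_left h7
    nlinarith
  have h9 : ε / (209 / 71) * (41 / 32) ≤ 0.436 * ε := by
    rw [div_mul_eq_mul_div, div_le_iff₀ (by norm_num)]
    linarith
  nlinarith

/-- Passing from the sign conditions to an admissible triple. -/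
theorem exists_adm {g xd xc : ℝ} (hg : 0 < g) (hm : mass g < tanh g) (hd0 : 0 < xd)
    (hd1 : xd < 2 * tanh g ^ 2) (hc : xc < 0)
    (h1 : 0 ≤ gI (2 * tanh g ^ 2) 2 xd - mass g * g0 (2 * tanh g ^ 2) 2 xd)
    (h2 : 0 ≤ gI (2 * tanh g ^ 2) 2 xc - mass g * g0 (2 * tanh g ^ 2) 2 xc) :
    ∃ a c, Adm g a c ∧ val g a c ≤ xd - xc := by
  have hB : (0:ℝ) < 2 := by norm_num
  have hm0 := mass_pos hg
  have hT0 := tanh_pos hg
  have hm1 : mass g < 1 := hm.trans (tanh_lt_one g)
  obtain ⟨yd, hyd, rfl⟩ := exists_y hB hd1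
  obtain ⟨yc, hyc, rfl⟩ := exists_y (g := g) hB (show xc < 2 * tanh g ^ 2 by nlinarith)
  have hydg : yd < g := (X_pos_iff hB hg hyd.le).1 hd0
  have hycg : g < yc := (X_neg_iff hB hg hyc.le).1 hc
  rw [phi_eq hB hg hyd.le, phi_nonneg_left hm0 hyd (tanh_strictMono hydg)] at h1
  rw [phi_eq hB hg hyc.le, phi_nonneg_right hm0 hT0 (tanh_strictMono hycg)] at h2
  have htc := tanh_continuous
  obtain ⟨a, ha1, ha2⟩ := intermediate_value_Icc' hydg.le
    (f := fun y => tanh g * tanh (y / mass g) - tanh y) (by fun_prop)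
    (show (0:ℝ) ∈ Icc _ _ from ⟨by
      have : tanh (g / mass g) < 1 := tanh_lt_one _
      nlinarith, by linarith⟩)
  obtain ⟨c, hc1, hc2⟩ := intermediate_value_Icc hycg.le
    (f := fun y => tanh y * tanh (y / mass g)) (by fun_prop)
    (show tanh g ∈ Icc _ _ from ⟨by
      have : tanh (g / mass g) < 1 := tanh_lt_one _
      nlinarith, h2⟩)
  simp only at ha2 hc2
  have hag : a < g := by
    rcases ha1.2.eq_or_lt with h | h
    · exfalso
      rw [h] at ha2
      have : tanh (g / mass g) < 1 := tanh_lt_one _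
      nlinarith
    · exact h
  have hgc : g < c := by
    rcases hc1.1.eq_or_lt with h | h
    · exfalso
      rw [← h] at hc2
      have : tanh (g / mass g) < 1 := tanh_lt_one _
      nlinarith
    · exact h
  refine ⟨a, c, ⟨hyd.trans_le ha1.1, hag, hgc, hm, by linarith, hc2⟩, ?_⟩
  have e : val g a c = X 2 g a - X 2 g c := by
    unfold val X
    ring
  rw [e]
  have h3 := X_anti' (g := g) hB hyd.le ha1.1
  have h4 := X_anti' (g := g) hB (hg.le.trans hgc.le) hc1.2
  linarith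

theorem box_all1 {T γ β x y al : ℝ} (h1 : 9 / 10 ≤ T) (h2 : T ≤ 19 / 21)
    (hγ : γ = log ((1 + T) / (1 - T)))
    (hal : al * γ = log (2 / (1 - T ^ 2)) + log 2 - log β) (hβ : 2 ≤ β)
    (hx : 0.4694 ≤ x) (hx' : (β - 2) / 2 ≤ 1.075 * (0.53045 - x))
    (hy : 0.35 ≤ y) (hy' : (β - 2) / 2 ≤ 0.984 * (0.41725 - y)) :
    h0 T x / γ ≤ (0.4 + x) * ((al * T / x - 1) / (√(T ^ 2 - x) * √(1 - x))) ∧
    h0 T (-y) / γ ≤ (-0.266 + -y) * ((al * T / (-y) - 1) / (√(T ^ 2 - -y) * √(1 - -y))) := by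
  have hG0 : (209 / 71 : ℝ) ≤ γ := by
    have h3 : (209 / 71 : ℝ) ≤ log 19 := by
      exact_mod_cast log_ge_of (n := 19) (p := 209) (q := 71) (by norm_num) (by norm_num)
        (by norm_num)
    have h4 := gamma_mono (T0 := 9 / 10) (by norm_num) h1 (by linarith)
    rw [show (1 + 9 / 10 : ℝ) / (1 - 9 / 10) = 19 by norm_num] at h4
    rw [hγ]
    linarith
  have hG1 : γ ≤ 3 := by
    have h3 : log 20 ≤ (3 / 1 : ℝ) := by
      exact_mod_cast log_le_of (n := 20) (p := 3) (q := 1) (by norm_num) (by norm_num)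
        (by norm_num)
    have h4 := gamma_mono (T := 19 / 21) (by linarith) h2 (by norm_num)
    rw [show (1 + 19 / 21 : ℝ) / (1 - 19 / 21) = 20 by norm_num] at h4
    rw [hγ]
    linarith
  have hLc : 203 / 254 * γ ≤ log (2 / (1 - T ^ 2)) := by
    rw [hγ]
    refine Lc_ge (T0 := 9 / 10) (by norm_num) h1 (by linarith) (by norm_num) (by norm_num) ?_
    rw [show (1 + 9 / 10 : ℝ) / (1 - 9 / 10) = 19 by norm_num,
      show (2:ℝ) / (1 - (9 / 10) ^ 2) = 200 / 19 by norm_num]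
    exact_mod_cast mass_num (n := 19) (m := 200 / 19) (p := 203) (q := 254)
      (by norm_num) (by norm_num) (by norm_num)
  have hγ0 : 0 < γ := lt_of_lt_of_le (by norm_num) hG0
  have hlog : log β - log 2 ≤ (β - 2) / 2 := by
    rw [← log_div (by linarith) (by norm_num)]
    have := log_le_sub_one_of_pos (show 0 < β / 2 by linarith)
    linarith
  have hal2 : 203 / 254 - (β - 2) / 2 / (209 / 71) ≤ al := by
    have h3 : (β - 2) / 2 / γ ≤ (β - 2) / 2 / (209 / 71) :=
      div_le_div_of_nonneg_left (by linarith) (by norm_num) hG0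
    have h4 : 203 / 254 - (β - 2) / 2 / γ ≤ al := by
      rw [sub_le_iff_le_add, ← sub_le_iff_le_add', ← mul_le_mul_iff_left₀ hγ0, sub_mul,
        div_mul_cancel₀ _ hγ0.ne']
      linarith
    linarith
  have hε : 0 ≤ (β - 2) / 2 := by linarith
  have hxT : x ≤ 0.53045 := by linarith
  have hyT : y ≤ 0.41725 := by linarith
  constructor
  · refine box_d1 h1 h2 hγ (by linarith) (by linarith) hx hxT ?_
    have : (β - 2) / 2 / (209 / 71) ≤ 1.075 * (0.53045 - x) / (209 / 71) := by gcongr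
    linarith
  · refine box_c1 h1 h2 hγ (by linarith) hy hyT ?_
    have : (β - 2) / 2 / (209 / 71) ≤ 0.984 * (0.41725 - y) / (209 / 71) := by gcongr
    linarith

theorem box_all2 {T γ β x y al : ℝ} (h1 : 19 / 21 ≤ T) (h2 : T ≤ 21 / 23)
    (hγ : γ = log ((1 + T) / (1 - T)))
    (hal : al * γ = log (2 / (1 - T ^ 2)) + log 2 - log β) (hβ : 2 ≤ β)
    (hx : 0.4694 ≤ x) (hx' : (β - 2) / 2 ≤ 1.075 * (0.53045 - x))
    (hy : 0.35 ≤ y) (hy' : (β - 2) / 2 ≤ 0.984 * (0.41725 - y)) :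
    h0 T x / γ ≤ (0.4 + x) * ((al * T / x - 1) / (√(T ^ 2 - x) * √(1 - x))) ∧
    h0 T (-y) / γ ≤ (-0.266 + -y) * ((al * T / (-y) - 1) / (√(T ^ 2 - -y) * √(1 - -y))) := by
  have hG0 : (149 / 50 : ℝ) ≤ γ := by
    have h3 : (149 / 50 : ℝ) ≤ log 20 := by
      exact_mod_cast log_ge_of (n := 20) (p := 149) (q := 50) (by norm_num) (by norm_num)
        (by norm_num)
    have h4 := gamma_mono (T0 := 19 / 21) (by norm_num) h1 (by linarith)
    rw [show (1 + 19 / 21 : ℝ) / (1 - 19 / 21) = 20 by norm_num] at h4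
    rw [hγ]
    linarith
  have hG1 : γ ≤ 31 / 10 := by
    have h3 : log 22 ≤ (31 / 10 : ℝ) := by
      exact_mod_cast log_le_of (n := 22) (p := 31) (q := 10) (by norm_num) (by norm_num)
        (by norm_num)
    have h4 := gamma_mono (T := 21 / 23) (by linarith) h2 (by norm_num)
    rw [show (1 + 21 / 23 : ℝ) / (1 - 21 / 23) = 22 by norm_num] at h4
    rw [hγ]
    linarith
  have hLc : 149 / 186 * γ ≤ log (2 / (1 - T ^ 2)) := by
    rw [hγ]
    refine Lc_ge (T0 := 19 / 21) (by norm_num) h1 (by linarith) (by norm_num) (by norm_num) ?_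
    rw [show (1 + 19 / 21 : ℝ) / (1 - 19 / 21) = 20 by norm_num,
      show (2:ℝ) / (1 - (19 / 21) ^ 2) = 441 / 40 by norm_num]
    exact_mod_cast mass_num (n := 20) (m := 441 / 40) (p := 149) (q := 186)
      (by norm_num) (by norm_num) (by norm_num)
  have hγ0 : 0 < γ := lt_of_lt_of_le (by norm_num) hG0
  have hlog : log β - log 2 ≤ (β - 2) / 2 := by
    rw [← log_div (by linarith) (by norm_num)]
    have := log_le_sub_one_of_pos (show 0 < β / 2 by linarith)
    linarith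
  have hal2 : 149 / 186 - (β - 2) / 2 / (149 / 50) ≤ al := by
    have h3 : (β - 2) / 2 / γ ≤ (β - 2) / 2 / (149 / 50) :=
      div_le_div_of_nonneg_left (by linarith) (by norm_num) hG0
    have h4 : 149 / 186 - (β - 2) / 2 / γ ≤ al := by
      rw [sub_le_iff_le_add, ← sub_le_iff_le_add', ← mul_le_mul_iff_left₀ hγ0, sub_mul,
        div_mul_cancel₀ _ hγ0.ne']
      linarith
    linarith
  have hε : 0 ≤ (β - 2) / 2 := by linarith
  have hxT : x ≤ 0.53045 := by linarith
  have hyT : y ≤ 0.41725 := by linarith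
  constructor
  · refine box_d2 h1 h2 hγ (by linarith) (by linarith) hx hxT ?_
    have : (β - 2) / 2 / (149 / 50) ≤ 1.075 * (0.53045 - x) / (149 / 50) := by gcongr
    linarith
  · refine box_c2 h1 h2 hγ (by linarith) hy hyT ?_
    have : (β - 2) / 2 / (149 / 50) ≤ 0.984 * (0.41725 - y) / (149 / 50) := by gcongr
    linarith

theorem box_all3 {T γ β x y al : ℝ} (h1 : 21 / 23 ≤ T) (h2 : T ≤ 12 / 13)
    (hγ : γ = log ((1 + T) / (1 - T)))
    (hal : al * γ = log (2 / (1 - T ^ 2)) + log 2 - log β) (hβ : 2 ≤ β)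
    (hx : 0.4694 ≤ x) (hx' : (β - 2) / 2 ≤ 1.075 * (0.53045 - x))
    (hy : 0.35 ≤ y) (hy' : (β - 2) / 2 ≤ 0.984 * (0.41725 - y)) :
    h0 T x / γ ≤ (0.4 + x) * ((al * T / x - 1) / (√(T ^ 2 - x) * √(1 - x))) ∧
    h0 T (-y) / γ ≤ (-0.266 + -y) * ((al * T / (-y) - 1) / (√(T ^ 2 - -y) * √(1 - -y))) := by
  have hG0 : (34 / 11 : ℝ) ≤ γ := by
    have h3 : (34 / 11 : ℝ) ≤ log 22 := by
      exact_mod_cast log_ge_of (n := 22) (p := 34) (q := 11) (by norm_num) (by norm_num)
        (by norm_num)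
    have h4 := gamma_mono (T0 := 21 / 23) (by norm_num) h1 (by linarith)
    rw [show (1 + 21 / 23 : ℝ) / (1 - 21 / 23) = 22 by norm_num] at h4
    rw [hγ]
    linarith
  have hG1 : γ ≤ 161 / 50 := by
    have h3 : log 25 ≤ (161 / 50 : ℝ) := by
      exact_mod_cast log_le_of (n := 25) (p := 161) (q := 50) (by norm_num) (by norm_num)
        (by norm_num)
    have h4 := gamma_mono (T := 12 / 13) (by linarith) h2 (by norm_num)
    rw [show (1 + 12 / 13 : ℝ) / (1 - 12 / 13) = 25 by norm_num] at h4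
    rw [hγ]
    linarith
  have hLc : 201 / 250 * γ ≤ log (2 / (1 - T ^ 2)) := by
    rw [hγ]
    refine Lc_ge (T0 := 21 / 23) (by norm_num) h1 (by linarith) (by norm_num) (by norm_num) ?_
    rw [show (1 + 21 / 23 : ℝ) / (1 - 21 / 23) = 22 by norm_num,
      show (2:ℝ) / (1 - (21 / 23) ^ 2) = 529 / 44 by norm_num]
    exact_mod_cast mass_num (n := 22) (m := 529 / 44) (p := 201) (q := 250)
      (by norm_num) (by norm_num) (by norm_num)
  have hγ0 : 0 < γ := lt_of_lt_of_le (by norm_num) hG0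
  have hlog : log β - log 2 ≤ (β - 2) / 2 := by
    rw [← log_div (by linarith) (by norm_num)]
    have := log_le_sub_one_of_pos (show 0 < β / 2 by linarith)
    linarith
  have hal2 : 201 / 250 - (β - 2) / 2 / (34 / 11) ≤ al := by
    have h3 : (β - 2) / 2 / γ ≤ (β - 2) / 2 / (34 / 11) :=
      div_le_div_of_nonneg_left (by linarith) (by norm_num) hG0
    have h4 : 201 / 250 - (β - 2) / 2 / γ ≤ al := by
      rw [sub_le_iff_le_add, ← sub_le_iff_le_add', ← mul_le_mul_iff_left₀ hγ0, sub_mul,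
        div_mul_cancel₀ _ hγ0.ne']
      linarith
    linarith
  have hε : 0 ≤ (β - 2) / 2 := by linarith
  have hxT : x ≤ 0.53045 := by linarith
  have hyT : y ≤ 0.41725 := by linarith
  constructor
  · refine box_d3 h1 h2 hγ (by linarith) (by linarith) hx hxT ?_
    have : (β - 2) / 2 / (34 / 11) ≤ 1.075 * (0.53045 - x) / (34 / 11) := by gcongr
    linarith
  · refine box_c3 h1 h2 hγ (by linarith) hy hyT ?_
    have : (β - 2) / 2 / (34 / 11) ≤ 0.984 * (0.41725 - y) / (34 / 11) := by gcongr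
    linarith

theorem box_all4 {T γ β x y al : ℝ} (h1 : 12 / 13 ≤ T) (h2 : T ≤ 29 / 31)
    (hγ : γ = log ((1 + T) / (1 - T)))
    (hal : al * γ = log (2 / (1 - T ^ 2)) + log 2 - log β) (hβ : 2 ≤ β)
    (hx : 0.4694 ≤ x) (hx' : (β - 2) / 2 ≤ 1.075 * (0.53045 - x))
    (hy : 0.35 ≤ y) (hy' : (β - 2) / 2 ≤ 0.984 * (0.41725 - y)) :
    h0 T x / γ ≤ (0.4 + x) * ((al * T / x - 1) / (√(T ^ 2 - x) * √(1 - x))) ∧
    h0 T (-y) / γ ≤ (-0.266 + -y) * ((al * T / (-y) - 1) / (√(T ^ 2 - -y) * √(1 - -y))) := by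
  have hG0 : (16 / 5 : ℝ) ≤ γ := by
    have h3 : (16 / 5 : ℝ) ≤ log 25 := by
      exact_mod_cast log_ge_of (n := 25) (p := 16) (q := 5) (by norm_num) (by norm_num)
        (by norm_num)
    have h4 := gamma_mono (T0 := 12 / 13) (by norm_num) h1 (by linarith)
    rw [show (1 + 12 / 13 : ℝ) / (1 - 12 / 13) = 25 by norm_num] at h4
    rw [hγ]
    linarith
  have hG1 : γ ≤ 58 / 17 := by
    have h3 : log 30 ≤ (58 / 17 : ℝ) := by
      exact_mod_cast log_le_of (n := 30) (p := 58) (q := 17) (by norm_num) (by norm_num)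
        (by norm_num)
    have h4 := gamma_mono (T := 29 / 31) (by linarith) h2 (by norm_num)
    rw [show (1 + 29 / 31 : ℝ) / (1 - 29 / 31) = 30 by norm_num] at h4
    rw [hγ]
    linarith
  have hLc : 72 / 89 * γ ≤ log (2 / (1 - T ^ 2)) := by
    rw [hγ]
    refine Lc_ge (T0 := 12 / 13) (by norm_num) h1 (by linarith) (by norm_num) (by norm_num) ?_
    rw [show (1 + 12 / 13 : ℝ) / (1 - 12 / 13) = 25 by norm_num,
      show (2:ℝ) / (1 - (12 / 13) ^ 2) = 338 / 25 by norm_num]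
    exact_mod_cast mass_num (n := 25) (m := 338 / 25) (p := 72) (q := 89)
      (by norm_num) (by norm_num) (by norm_num)
  have hγ0 : 0 < γ := lt_of_lt_of_le (by norm_num) hG0
  have hlog : log β - log 2 ≤ (β - 2) / 2 := by
    rw [← log_div (by linarith) (by norm_num)]
    have := log_le_sub_one_of_pos (show 0 < β / 2 by linarith)
    linarith
  have hal2 : 72 / 89 - (β - 2) / 2 / (16 / 5) ≤ al := by
    have h3 : (β - 2) / 2 / γ ≤ (β - 2) / 2 / (16 / 5) :=
      div_le_div_of_nonneg_left (by linarith) (by norm_num) hG0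
    have h4 : 72 / 89 - (β - 2) / 2 / γ ≤ al := by
      rw [sub_le_iff_le_add, ← sub_le_iff_le_add', ← mul_le_mul_iff_left₀ hγ0, sub_mul,
        div_mul_cancel₀ _ hγ0.ne']
      linarith
    linarith
  have hε : 0 ≤ (β - 2) / 2 := by linarith
  have hxT : x ≤ 0.53045 := by linarith
  have hyT : y ≤ 0.41725 := by linarith
  constructor
  · refine box_d4 h1 h2 hγ (by linarith) (by linarith) hx hxT ?_
    have : (β - 2) / 2 / (16 / 5) ≤ 1.075 * (0.53045 - x) / (16 / 5) := by gcongr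
    linarith
  · refine box_c4 h1 h2 hγ (by linarith) hy hyT ?_
    have : (β - 2) / 2 / (16 / 5) ≤ 0.984 * (0.41725 - y) / (16 / 5) := by gcongr
    linarith

theorem box_all5 {T γ β x y al : ℝ} (h1 : 29 / 31 ≤ T) (h2 : T ≤ 39 / 41)
    (hγ : γ = log ((1 + T) / (1 - T)))
    (hal : al * γ = log (2 / (1 - T ^ 2)) + log 2 - log β) (hβ : 2 ≤ β)
    (hx : 0.4694 ≤ x) (hx' : (β - 2) / 2 ≤ 1.075 * (0.53045 - x))
    (hy : 0.35 ≤ y) (hy' : (β - 2) / 2 ≤ 0.984 * (0.41725 - y)) :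
    h0 T x / γ ≤ (0.4 + x) * ((al * T / x - 1) / (√(T ^ 2 - x) * √(1 - x))) ∧
    h0 T (-y) / γ ≤ (-0.266 + -y) * ((al * T / (-y) - 1) / (√(T ^ 2 - -y) * √(1 - -y))) := by
  have hG0 : (17 / 5 : ℝ) ≤ γ := by
    have h3 : (17 / 5 : ℝ) ≤ log 30 := by
      exact_mod_cast log_ge_of (n := 30) (p := 17) (q := 5) (by norm_num) (by norm_num)
        (by norm_num)
    have h4 := gamma_mono (T0 := 29 / 31) (by norm_num) h1 (by linarith)
    rw [show (1 + 29 / 31 : ℝ) / (1 - 29 / 31) = 30 by norm_num] at h4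
    rw [hγ]
    linarith
  have hG1 : γ ≤ 48 / 13 := by
    have h3 : log 40 ≤ (48 / 13 : ℝ) := by
      exact_mod_cast log_le_of (n := 40) (p := 48) (q := 13) (by norm_num) (by norm_num)
        (by norm_num)
    have h4 := gamma_mono (T := 39 / 41) (by linarith) h2 (by norm_num)
    rw [show (1 + 39 / 41 : ℝ) / (1 - 39 / 41) = 40 by norm_num] at h4
    rw [hγ]
    linarith
  have hLc : 163 / 200 * γ ≤ log (2 / (1 - T ^ 2)) := by
    rw [hγ]
    refine Lc_ge (T0 := 29 / 31) (by norm_num) h1 (by linarith) (by norm_num) (by norm_num) ?_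
    rw [show (1 + 29 / 31 : ℝ) / (1 - 29 / 31) = 30 by norm_num,
      show (2:ℝ) / (1 - (29 / 31) ^ 2) = 961 / 60 by norm_num]
    exact_mod_cast mass_num (n := 30) (m := 961 / 60) (p := 163) (q := 200)
      (by norm_num) (by norm_num) (by norm_num)
  have hγ0 : 0 < γ := lt_of_lt_of_le (by norm_num) hG0
  have hlog : log β - log 2 ≤ (β - 2) / 2 := by
    rw [← log_div (by linarith) (by norm_num)]
    have := log_le_sub_one_of_pos (show 0 < β / 2 by linarith)
    linarith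
  have hal2 : 163 / 200 - (β - 2) / 2 / (17 / 5) ≤ al := by
    have h3 : (β - 2) / 2 / γ ≤ (β - 2) / 2 / (17 / 5) :=
      div_le_div_of_nonneg_left (by linarith) (by norm_num) hG0
    have h4 : 163 / 200 - (β - 2) / 2 / γ ≤ al := by
      rw [sub_le_iff_le_add, ← sub_le_iff_le_add', ← mul_le_mul_iff_left₀ hγ0, sub_mul,
        div_mul_cancel₀ _ hγ0.ne']
      linarith
    linarith
  have hε : 0 ≤ (β - 2) / 2 := by linarith
  have hxT : x ≤ 0.53045 := by linarith
  have hyT : y ≤ 0.41725 := by linarith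
  constructor
  · refine box_d5 h1 h2 hγ (by linarith) (by linarith) hx hxT ?_
    have : (β - 2) / 2 / (17 / 5) ≤ 1.075 * (0.53045 - x) / (17 / 5) := by gcongr
    linarith
  · refine box_c5 h1 h2 hγ (by linarith) hy hyT ?_
    have : (β - 2) / 2 / (17 / 5) ≤ 0.984 * (0.41725 - y) / (17 / 5) := by gcongr
    linarith

theorem box_all6 {T γ β x y al : ℝ} (h1 : 39 / 41 ≤ T) (h2 : T ≤ 99 / 101)
    (hγ : γ = log ((1 + T) / (1 - T)))
    (hal : al * γ = log (2 / (1 - T ^ 2)) + log 2 - log β) (hβ : 2 ≤ β)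
    (hx : 0.4694 ≤ x) (hx' : (β - 2) / 2 ≤ 1.075 * (0.53045 - x))
    (hy : 0.35 ≤ y) (hy' : (β - 2) / 2 ≤ 0.984 * (0.41725 - y)) :
    h0 T x / γ ≤ (0.4 + x) * ((al * T / x - 1) / (√(T ^ 2 - x) * √(1 - x))) ∧
    h0 T (-y) / γ ≤ (-0.266 + -y) * ((al * T / (-y) - 1) / (√(T ^ 2 - -y) * √(1 - -y))) := by
  have hG0 : (92 / 25 : ℝ) ≤ γ := by
    have h3 : (92 / 25 : ℝ) ≤ log 40 := by
      exact_mod_cast log_ge_of (n := 40) (p := 92) (q := 25) (by norm_num) (by norm_num)
        (by norm_num)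
    have h4 := gamma_mono (T0 := 39 / 41) (by norm_num) h1 (by linarith)
    rw [show (1 + 39 / 41 : ℝ) / (1 - 39 / 41) = 40 by norm_num] at h4
    rw [hγ]
    linarith
  have hG1 : γ ≤ 60 / 13 := by
    have h3 : log 100 ≤ (60 / 13 : ℝ) := by
      exact_mod_cast log_le_of (n := 100) (p := 60) (q := 13) (by norm_num) (by norm_num)
        (by norm_num)
    have h4 := gamma_mono (T := 99 / 101) (by linarith) h2 (by norm_num)
    rw [show (1 + 99 / 101 : ℝ) / (1 - 99 / 101) = 100 by norm_num] at h4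
    rw [hγ]
    linarith
  have hLc : 33 / 40 * γ ≤ log (2 / (1 - T ^ 2)) := by
    rw [hγ]
    refine Lc_ge (T0 := 39 / 41) (by norm_num) h1 (by linarith) (by norm_num) (by norm_num) ?_
    rw [show (1 + 39 / 41 : ℝ) / (1 - 39 / 41) = 40 by norm_num,
      show (2:ℝ) / (1 - (39 / 41) ^ 2) = 1681 / 80 by norm_num]
    exact_mod_cast mass_num (n := 40) (m := 1681 / 80) (p := 33) (q := 40)
      (by norm_num) (by norm_num) (by norm_num)
  have hγ0 : 0 < γ := lt_of_lt_of_le (by norm_num) hG0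
  have hlog : log β - log 2 ≤ (β - 2) / 2 := by
    rw [← log_div (by linarith) (by norm_num)]
    have := log_le_sub_one_of_pos (show 0 < β / 2 by linarith)
    linarith
  have hal2 : 33 / 40 - (β - 2) / 2 / (92 / 25) ≤ al := by
    have h3 : (β - 2) / 2 / γ ≤ (β - 2) / 2 / (92 / 25) :=
      div_le_div_of_nonneg_left (by linarith) (by norm_num) hG0
    have h4 : 33 / 40 - (β - 2) / 2 / γ ≤ al := by
      rw [sub_le_iff_le_add, ← sub_le_iff_le_add', ← mul_le_mul_iff_left₀ hγ0, sub_mul,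
        div_mul_cancel₀ _ hγ0.ne']
      linarith
    linarith
  have hε : 0 ≤ (β - 2) / 2 := by linarith
  have hxT : x ≤ 0.53045 := by linarith
  have hyT : y ≤ 0.41725 := by linarith
  constructor
  · refine box_d6 h1 h2 hγ (by linarith) (by linarith) hx hxT ?_
    have : (β - 2) / 2 / (92 / 25) ≤ 1.075 * (0.53045 - x) / (92 / 25) := by gcongr
    linarith
  · refine box_c6 h1 h2 hγ (by linarith) hy hyT ?_
    have : (β - 2) / 2 / (92 / 25) ≤ 0.984 * (0.41725 - y) / (92 / 25) := by gcongr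
    linarith

theorem path_facts {B d z β x y : ℝ} (hβ : 2 ≤ β) (hβB : β ≤ B) (hB2 : B ≤ 2.13) (hd : 1 ≤ d)
    (hz : 0.7736 - 0.41 * ((B - 2) / 2) ≤ z) (hJ : d + z + 2 / 3 * (B - 2) < 1.8345)
    (hx : x * β = d + 0.4 * (B - β)) (hy : y * β = z + 0.266 * (B - β)) :
    0.4694 ≤ x ∧ (β - 2) / 2 ≤ 1.075 * (0.53045 - x) ∧ 0.35 ≤ y ∧
      (β - 2) / 2 ≤ 0.984 * (0.41725 - y) := by
  have hβ0 : 0 < β := by linarith
  obtain ⟨e, he⟩ : ∃ e, e = (β - 2) / 2 := ⟨_, rfl⟩
  have he0 : 0 ≤ e := by linarith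
  have he1 : e ≤ 0.065 := by linarith
  have hee : 0 ≤ e * (0.065 - e) := mul_nonneg he0 (by linarith)
  have hβe : β = 2 + 2 * e := by linarith
  have hd1 : d + 0.4 * (B - β) ≤ 1.0609 - 0.9233 * e := by
    rw [hβe]; linarith
  have hz1 : z + 0.266 * (B - β) ≤ 0.8345 - 1.333 * e := by
    rw [hβe]; linarith
  have hz2 : 0.7736 - 0.41 * e ≤ z + 0.266 * (B - β) := by
    rw [hβe]; linarith
  refine ⟨?_, ?_, ?_, ?_⟩
  · rw [← mul_le_mul_iff_left₀ hβ0, hx, hβe]
    nlinarith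
  · have h1 : (β - 2) / 2 * β ≤ 1.075 * (0.53045 - x) * β := by
      rw [show 1.075 * (0.53045 - x) * β = 1.075 * (0.53045 * β - x * β) by ring, hx, ← he]
      have : 1.075 * (0.53045 * β - (1.0609 - 0.9233 * e)) ≤
        1.075 * (0.53045 * β - (d + 0.4 * (B - β))) := by linarith
      refine le_trans ?_ this
      rw [hβe]
      nlinarith
    exact (mul_le_mul_iff_left₀ hβ0).1 h1
  · rw [← mul_le_mul_iff_left₀ hβ0, hy]
    refine le_trans ?_ hz2
    rw [hβe]
    linarith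
  · have h1 : (β - 2) / 2 * β ≤ 0.984 * (0.41725 - y) * β := by
      rw [show 0.984 * (0.41725 - y) * β = 0.984 * (0.41725 * β - y * β) by ring, hy, ← he]
      have : 0.984 * (0.41725 * β - (0.8345 - 1.333 * e)) ≤
        0.984 * (0.41725 * β - (z + 0.266 * (B - β))) := by linarith
      refine le_trans ?_ this
      rw [hβe]
      nlinarith
    exact (mul_le_mul_iff_left₀ hβ0).1 h1

theorem near_R5 {B g al c d : ℝ} (hg : 0 < g) (hT0 : 9 / 10 ≤ tanh g) (hT1 : tanh g ≤ 99 / 101)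
    (hB : 2 ≤ B) (hB2 : B ≤ 2.13) (hrel : al * (2 * g) = log (4 * cosh g ^ 2 / B))
    (hal1 : al < 1) (hc : c < 0) (hd : 1 ≤ d)
    (hcφ : 0 ≤ gI (B * tanh g ^ 2) B c - al * g0 (B * tanh g ^ 2) B c)
    (hdφ : 0 ≤ gI (B * tanh g ^ 2) B d - al * g0 (B * tanh g ^ 2) B d)
    (hz : 1 ≤ |c| ^ al * (2 + |c|) ^ (1 - al)) (hJ : (d - c) + 2 / 3 * (B - 2) < 1.8345) :
    ∃ a c', Adm g a c' ∧ val g a c' ≤ (d - c) + 2 / 3 * (B - 2) := by
  set T := tanh g with hTdef
  have hTpos : 0 < T := tanh_pos hg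
  have hTlt : T < 1 := tanh_lt_one g
  have hT2 : T ^ 2 < 1 := by
    have := mul_self_lt_mul_self hTpos.le hTlt
    nlinarith
  obtain ⟨γ, hγdef⟩ : ∃ γ, γ = log ((1 + T) / (1 - T)) := ⟨_, rfl⟩
  have hγg : γ = 2 * g := by
    have h1 := artanh_tanh g
    rw [artanh_eq_half_log ⟨by linarith, by linarith⟩] at h1
    rw [hγdef]
    linarith
  have hγ0 : 0 < γ := by rw [hγg]; linarith
  have hcosh : cosh g ^ 2 = 1 / (1 - T ^ 2) := by
    have h1 := one_sub_tanh_sq g
    rw [← hTdef] at h1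
    rw [h1]
    field_simp
  have hB0 : 0 < B := by linarith
  have hrel' : al * γ = log (2 / (1 - T ^ 2)) + log 2 - log B := by
    rw [hγg, hrel, hcosh]
    have h1 : 0 < 1 - T ^ 2 := by linarith
    rw [show 4 * (1 / (1 - T ^ 2)) / B = 2 / (1 - T ^ 2) * 2 / B by ring,
      log_div (by positivity) hB0.ne', log_mul (by positivity) (by norm_num)]
  have hmass : mass g = al + (log B - log 2) / γ := by
    have h1 : 0 < 1 - T ^ 2 := by linarith
    unfold mass
    rw [hcosh, ← hγg, show 2 * (1 / (1 - T ^ 2)) = 2 / (1 - T ^ 2) by ring]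
    field_simp
    linarith
  have hmlt : mass g < T := by
    have h1 := mass_lt_aux hT0 hTlt
    rw [← hγdef] at h1
    unfold mass
    rw [hcosh, ← hγg, show 2 * (1 / (1 - T ^ 2)) = 2 / (1 - T ^ 2) by ring, div_lt_iff₀ hγ0]
    exact h1
  set z := -c with hzdef
  have hz0 : 0 < z := by linarith
  have habs : |c| = z := abs_of_neg hc
  rw [habs] at hz
  -- lower bound of `z`
  have hγ19 : (209 / 71 : ℝ) ≤ γ := by
    have h3 : (209 / 71 : ℝ) ≤ log 19 := by
      exact_mod_cast log_ge_of (n := 19) (p := 209) (q := 71) (by norm_num) (by norm_num)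
        (by norm_num)
    have h4 := gamma_mono (T0 := 9 / 10) (by norm_num) hT0 hTlt
    rw [show (1 + 9 / 10 : ℝ) / (1 - 9 / 10) = 19 by norm_num] at h4
    rw [hγdef]
    linarith
  have hLc : 203 / 254 * γ ≤ log (2 / (1 - T ^ 2)) := by
    rw [hγdef]
    refine Lc_ge (T0 := 9 / 10) (by norm_num) hT0 hTlt (by norm_num) (by norm_num) ?_
    rw [show (1 + 9 / 10 : ℝ) / (1 - 9 / 10) = 19 by norm_num,
      show (2:ℝ) / (1 - (9 / 10) ^ 2) = 200 / 19 by norm_num]
    exact_mod_cast mass_num (n := 19) (m := 200 / 19) (p := 203) (q := 254)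
      (by norm_num) (by norm_num) (by norm_num)
  have halB : 203 / 254 - (B - 2) / 2 / (209 / 71) ≤ al := by
    have hlog : log B - log 2 ≤ (B - 2) / 2 := by
      rw [← log_div (by linarith) (by norm_num)]
      have := log_le_sub_one_of_pos (show 0 < B / 2 by linarith)
      linarith
    have h3 : (B - 2) / 2 / γ ≤ (B - 2) / 2 / (209 / 71) :=
      div_le_div_of_nonneg_left (by linarith) (by norm_num) hγ19
    have h4 : 203 / 254 - (B - 2) / 2 / γ ≤ al := by
      rw [sub_le_iff_le_add, ← sub_le_iff_le_add', ← mul_le_mul_iff_left₀ hγ0, sub_mul,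
        div_mul_cancel₀ _ hγ0.ne']
      linarith
    linarith
  have hzl : 0.7736 - 0.41 * ((B - 2) / 2) ≤ z :=
    z_bound hz0 hz (by linarith) (by linarith) hal1.le halB
  have hJ' : d + z + 2 / 3 * (B - 2) < 1.8345 := by rw [hzdef]; linarith
  -- facts along the path
  have hfacts : ∀ β ∈ Icc 2 B, ∀ x y, x * β = d + 0.4 * (B - β) → y * β = z + 0.266 * (B - β) →
      0.4694 ≤ x ∧ (β - 2) / 2 ≤ 1.075 * (0.53045 - x) ∧ 0.35 ≤ y ∧
      (β - 2) / 2 ≤ 0.984 * (0.41725 - y) := by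
    intro β hβ x y hx hy
    exact path_facts hβ.1 hβ.2 hB2 hd hzl hJ' hx hy
  have key : ∀ β ∈ Icc 2 B, ∀ x y, x * β = d + 0.4 * (B - β) → y * β = z + 0.266 * (B - β) →
      h0 T x / γ ≤ (0.4 + x) * (((al + (log B - log β) / γ) * T / x - 1) /
        (√(T ^ 2 - x) * √(1 - x))) ∧
      h0 T (-y) / γ ≤ (-0.266 + -y) * (((al + (log B - log β) / γ) * T / (-y) - 1) /
        (√(T ^ 2 - -y) * √(1 - -y))) := by
    intro β hβ x y hx hy
    obtain ⟨f1, f2, f3, f4⟩ := hfacts β hβ x y hx hy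
    have hal : (al + (log B - log β) / γ) * γ = log (2 / (1 - T ^ 2)) + log 2 - log β := by
      rw [add_mul, hrel', div_mul_cancel₀ _ hγ0.ne']
      ring
    rcases le_total T (19 / 21) with h | h
    · exact box_all1 (by linarith) h hγdef hal hβ.1 f1 f2 f3 f4
    rcases le_total T (21 / 23) with h' | h'
    · exact box_all2 h h' hγdef hal hβ.1 f1 f2 f3 f4
    rcases le_total T (12 / 13) with h'' | h''
    · exact box_all3 h' h'' hγdef hal hβ.1 f1 f2 f3 f4
    rcases le_total T (29 / 31) with h3 | h3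
    · exact box_all4 h'' h3 hγdef hal hβ.1 f1 f2 f3 f4
    rcases le_total T (39 / 41) with h4 | h4
    · exact box_all5 h3 h4 hγdef hal hβ.1 f1 f2 f3 f4
    · exact box_all6 h4 hT1 hγdef hal hβ.1 f1 f2 f3 f4
  have hx_eq : ∀ β ∈ Icc 2 B, (d + 0.4 * (B - β)) / β * β = d + 0.4 * (B - β) := by
    intro β hβ
    have : β ≠ 0 := by have := hβ.1; linarith
    field_simp
  have hy_eq : ∀ β ∈ Icc 2 B, (z + 0.266 * (B - β)) / β * β = z + 0.266 * (B - β) := by
    intro β hβ
    have : β ≠ 0 := by have := hβ.1; linarith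
    field_simp
  have hy_neg : ∀ β : ℝ, (c + -0.266 * (B - β)) / β = -((z + 0.266 * (B - β)) / β) := by
    intro β
    rw [hzdef]
    ring
  have h2mem : (2:ℝ) ∈ Icc 2 B := ⟨le_rfl, hB⟩
  have hBmem : B ∈ Icc 2 B := ⟨hB, le_rfl⟩
  have hTsq : 0.81 ≤ T ^ 2 := by
    have := mul_self_le_mul_self (by norm_num : (0:ℝ) ≤ 9 / 10) hT0
    nlinarith
  -- initial conditions
  have hdB : d / B < T ^ 2 ∧ 0 < d / B := by
    have h1 := hfacts B hBmem _ _ (hx_eq B hBmem) (hy_eq B hBmem)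
    simp only [sub_self, mul_zero, add_zero] at h1
    constructor
    · linarith
    · positivity
  have hinit_d : 0 ≤ hI T (d / B) - al * h0 T (d / B) := by
    have h1 := hI_eq (T := T) (x := d / B) hB0 hT2 hdB.1
    have h2 := h0_eq (T := T) (x := d / B) hB0 hTpos hT2 hdB.1 hdB.2.ne'
    rw [mul_div_cancel₀ _ hB0.ne'] at h1 h2
    rw [← h1, ← h2]
    exact hdφ
  have hcB : c / B < T ^ 2 ∧ c / B < 0 := by
    have h1 : c / B < 0 := div_neg_of_neg_of_pos hc hB0
    exact ⟨by linarith [sq_nonneg T], h1⟩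
  have hinit_c : 0 ≤ hI T (c / B) - al * h0 T (c / B) := by
    have h1 := hI_eq (T := T) (x := c / B) hB0 hT2 hcB.1
    have h2 := h0_eq (T := T) (x := c / B) hB0 hTpos hT2 hcB.1 hcB.2.ne
    rw [mul_div_cancel₀ _ hB0.ne'] at h1 h2
    rw [← h1, ← h2]
    exact hcφ
  -- final conditions
  have hfin_d := path_aux (k := 0.4) (e := d) (a := al) hTpos hT2 hB hγ0
    (fun β hβ => by
      have h1 := hfacts β hβ _ _ (hx_eq β hβ) (hy_eq β hβ)
      have hε : 0 ≤ (β - 2) / 2 := by linarith [hβ.1]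
      constructor
      · linarith [h1.2.1]
      · intro h0; linarith [h1.1])
    (fun β hβ => (key β hβ _ _ (hx_eq β hβ) (hy_eq β hβ)).1) hinit_d
  have hfin_c := path_aux (k := -0.266) (e := c) (a := al) hTpos hT2 hB hγ0
    (fun β hβ => by
      have h1 := hfacts β hβ _ _ (hx_eq β hβ) (hy_eq β hβ)
      rw [hy_neg β]
      constructor
      · linarith [h1.2.2.1, sq_nonneg T]
      · intro h0; linarith [h1.2.2.1])
    (fun β hβ => by
      rw [hy_neg β]
      exact (key β hβ _ _ (hx_eq β hβ) (hy_eq β hβ)).2) hinit_c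
  rw [← hmass] at hfin_d hfin_c
  set d' := d + 0.4 * (B - 2) with hd'
  set c' := c + -0.266 * (B - 2) with hc'
  have hd'lt : d' / 2 < T ^ 2 := by
    have h1 := hfacts 2 h2mem _ _ (hx_eq 2 h2mem) (hy_eq 2 h2mem)
    have := h1.2.1
    rw [← hd'] at this
    linarith
  have hd'0 : 0 < d' := by rw [hd']; linarith
  have hc'0 : c' < 0 := by rw [hc']; linarith
  have hfd : 0 ≤ gI (2 * T ^ 2) 2 d' - mass g * g0 (2 * T ^ 2) 2 d' := by
    have h1 := hI_eq (T := T) (x := d' / 2) (B := 2) (by norm_num) hT2 hd'lt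
    have h2 := h0_eq (T := T) (x := d' / 2) (B := 2) (by norm_num) hTpos hT2 hd'lt
      (by positivity)
    rw [mul_div_cancel₀ _ (two_ne_zero)] at h1 h2
    rw [h1, h2]
    exact hfin_d
  have hfc : 0 ≤ gI (2 * T ^ 2) 2 c' - mass g * g0 (2 * T ^ 2) 2 c' := by
    have h3 : c' / 2 < T ^ 2 := by linarith [sq_nonneg T]
    have h1 := hI_eq (T := T) (x := c' / 2) (B := 2) (by norm_num) hT2 h3
    have h2 := h0_eq (T := T) (x := c' / 2) (B := 2) (by norm_num) hTpos hT2 h3
      (by intro h; linarith)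
    rw [mul_div_cancel₀ _ (two_ne_zero)] at h1 h2
    rw [h1, h2]
    exact hfin_c
  obtain ⟨a, c'', hadm, hval⟩ := exists_adm hg hmlt hd'0 (by linarith) hc'0 hfd hfc
  refine ⟨a, c'', hadm, hval.trans ?_⟩
  rw [hd', hc']
  linarith

end Pool.Agent.MP28e671
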