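import Mathlib
import Pool.Agent.MP28e671.Assembly

set_option autoImplicit false

open Real Set

namespace Pool.Agent.MP28e671

/-! ### Rational bounds for logarithms -/

theorem log_ratio_bounds {y : ℝ} (hy0 : 0 ≤ y) (hy1 : y < 1) (n : ℕ) :
    ∑ i ∈ Finset.range n, 2 * (1 / (2 * (i:ℝ) + 1)) * y ^ (2 * i + 1) ≤
        log (1 + y) - log (1 - y) ∧
      log (1 + y) - log (1 - y) ≤
        ∑ i ∈ Finset.range n, 2 * (1 / (2 * (i:ℝ) + 1)) * y ^ (2 * i + 1) +
          2 * y ^ (2 * n + 1) / ((2 * (n:ℝ) + 1) * (1 - y ^ 2)) := by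
  have hs := Real.hasSum_log_sub_log_of_abs_lt_one (x := y)
    (by rw [abs_of_nonneg hy0]; exact hy1)
  constructor
  · refine sum_le_hasSum _ (fun i _ => ?_) hs
    positivity
  · have h1 := (hasSum_nat_add_iff' n).2 hs
    have hy2 : y ^ 2 < 1 := by nlinarith
    have h2 : HasSum (fun i : ℕ => 2 * y ^ (2 * n + 1) / (2 * (n:ℝ) + 1) * (y ^ 2) ^ i)
        (2 * y ^ (2 * n + 1) / (2 * (n:ℝ) + 1) * (1 - y ^ 2)⁻¹) :=
      (hasSum_geometric_of_lt_one (by positivity) hy2).mul_left _
    have h3 := hasSum_le (fun i => ?_) h1 h2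
    · have h4 : 2 * y ^ (2 * n + 1) / (2 * (n:ℝ) + 1) * (1 - y ^ 2)⁻¹ =
          2 * y ^ (2 * n + 1) / ((2 * (n:ℝ) + 1) * (1 - y ^ 2)) := by
        rw [← div_div]; ring
      linarith
    · have h5 : y ^ (2 * (i + n) + 1) = y ^ (2 * n + 1) * (y ^ 2) ^ i := by ring
      rw [h5]
      push_cast
      have h6 : 1 / (2 * ((i:ℝ) + n) + 1) ≤ 1 / (2 * (n:ℝ) + 1) := by
        apply one_div_le_one_div_of_le (by positivity)
        have : (0:ℝ) ≤ i := by positivity
        linarith
      have h7 : 0 ≤ y ^ (2 * n + 1) * (y ^ 2) ^ i := by positivity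
      calc 2 * (1 / (2 * ((i:ℝ) + n) + 1)) * (y ^ (2 * n + 1) * (y ^ 2) ^ i)
          ≤ 2 * (1 / (2 * (n:ℝ) + 1)) * (y ^ (2 * n + 1) * (y ^ 2) ^ i) := by
            apply mul_le_mul_of_nonneg_right _ h7
            linarith
        _ = 2 * y ^ (2 * n + 1) / (2 * (n:ℝ) + 1) * (y ^ 2) ^ i := by ring

/-- `log x` for `x = 2^k (1+y)/(1-y)`. -/
theorem log_bounds_up {x y : ℝ} {k : ℕ} (hy0 : 0 ≤ y) (hy1 : y < 1)
    (hx : x = 2 ^ k * ((1 + y) / (1 - y))) (n : ℕ) :
    k * log 2 + ∑ i ∈ Finset.range n, 2 * (1 / (2 * (i:ℝ) + 1)) * y ^ (2 * i + 1) ≤ log x ∧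
      log x ≤ k * log 2 + (∑ i ∈ Finset.range n, 2 * (1 / (2 * (i:ℝ) + 1)) * y ^ (2 * i + 1) +
          2 * y ^ (2 * n + 1) / ((2 * (n:ℝ) + 1) * (1 - y ^ 2))) := by
  have h := log_ratio_bounds hy0 hy1 n
  have h1 : log x = k * log 2 + (log (1 + y) - log (1 - y)) := by
    rw [hx, Real.log_mul (by positivity) (div_pos (by linarith) (by linarith)).ne', Real.log_pow,
      Real.log_div (by linarith) (by linarith)]
  rw [h1]
  constructor <;> linarith [h.1, h.2]

/-- `log x` for `x = 2^k (1-y)/(1+y)`. -/
theorem log_bounds_down {x y : ℝ} {k : ℕ} (hy0 : 0 ≤ y) (hy1 : y < 1)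
    (hx : x = 2 ^ k * ((1 - y) / (1 + y))) (n : ℕ) :
    k * log 2 - (∑ i ∈ Finset.range n, 2 * (1 / (2 * (i:ℝ) + 1)) * y ^ (2 * i + 1) +
          2 * y ^ (2 * n + 1) / ((2 * (n:ℝ) + 1) * (1 - y ^ 2))) ≤ log x ∧
      log x ≤ k * log 2 - ∑ i ∈ Finset.range n, 2 * (1 / (2 * (i:ℝ) + 1)) * y ^ (2 * i + 1) := by
  have h := log_ratio_bounds hy0 hy1 n
  have h1 : log x = k * log 2 - (log (1 + y) - log (1 - y)) := by
    rw [hx, Real.log_mul (by positivity) (div_pos (by linarith) (by linarith)).ne', Real.log_pow,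
      Real.log_div (by linarith) (by linarith)]
    ring
  rw [h1]
  constructor <;> linarith [h.1, h.2]

theorem log_two_bounds : (0.693147180559:ℝ) < log 2 ∧ log 2 < 0.69314718056 := by
  have h := log_ratio_bounds (y := 1 / 3) (by norm_num) (by norm_num) 13
  have h1 : log (1 + 1 / 3 : ℝ) - log (1 - 1 / 3) = log 2 := by
    rw [← Real.log_div (by norm_num) (by norm_num)]; norm_num
  rw [h1] at h
  norm_num [Finset.sum_range_succ] at h
  constructor
  · refine lt_of_lt_of_le ?_ h.1; norm_num
  · refine lt_of_le_of_lt h.2 ?_; norm_num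

theorem log_q : (366066000451/100000000000:ℝ) ≤ log (38887/1000:ℝ) ∧ log (38887/1000:ℝ) ≤ (45758250057/12500000000:ℝ) := by
  have h := log_bounds_up (x := (38887/1000:ℝ)) (y := (6887/70887:ℝ)) (k := 5) (by norm_num) (by norm_num)
    (by norm_num) 6
  have h2 := log_two_bounds
  norm_num [Finset.sum_range_succ] at h
  constructor <;> linarith [h.1, h.2, h2.1, h2.2]

theorem log_q1 : (589768073/160000000:ℝ) ≤ log (39887/1000:ℝ) ∧ log (39887/1000:ℝ) ≤ (36860504563/10000000000:ℝ) := by
  have h := log_bounds_up (x := (39887/1000:ℝ)) (y := (7887/71887:ℝ)) (k := 5) (by norm_num) (by norm_num)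
    (by norm_num) 6
  have h2 := log_two_bounds
  norm_num [Finset.sum_range_succ] at h
  constructor <;> linarith [h.1, h.2, h2.1, h2.2]

theorem log_A : (144133490919/50000000000:ℝ) ≤ log (5581843/312500:ℝ) ∧ log (5581843/312500:ℝ) ≤ (288266981843/100000000000:ℝ) := by
  have h := log_bounds_up (x := (5581843/312500:ℝ)) (y := (581843/10581843:ℝ)) (k := 4) (by norm_num) (by norm_num)
    (by norm_num) 6
  have h2 := log_two_bounds
  norm_num [Finset.sum_range_succ] at h
  constructor <;> linarith [h.1, h.2, h2.1, h2.2]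

theorem log_C : (80300834143/20000000000:ℝ) ≤ log (55425607/1000000:ℝ) ∧ log (55425607/1000000:ℝ) ≤ (2509401067/625000000:ℝ) := by
  have h := log_bounds_down (x := (55425607/1000000:ℝ)) (y := (8574393/119425607:ℝ)) (k := 6) (by norm_num) (by norm_num)
    (by norm_num) 6
  have h2 := log_two_bounds
  norm_num [Finset.sum_range_succ] at h
  constructor <;> linarith [h.1, h.2, h2.1, h2.2]

theorem log_r1 : (349617202273/100000000000:ℝ) ≤ log (824723227/25000000:ℝ) ∧ log (824723227/25000000:ℝ) ≤ (174808601139/50000000000:ℝ) := by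
  have h := log_bounds_up (x := (824723227/25000000:ℝ)) (y := (24723227/1624723227:ℝ)) (k := 5) (by norm_num) (by norm_num)
    (by norm_num) 6
  have h2 := log_two_bounds
  norm_num [Finset.sum_range_succ] at h
  constructor <;> linarith [h.1, h.2, h2.1, h2.2]

theorem log_r2 : (121738504331/25000000000:ℝ) ≤ log (13026100563/100000000:ℝ) ∧ log (13026100563/100000000:ℝ) ≤ (486954017329/100000000000:ℝ) := by
  have h := log_bounds_up (x := (13026100563/100000000:ℝ)) (y := (226100563/25826100563:ℝ)) (k := 7) (by norm_num) (by norm_num)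
    (by norm_num) 6
  have h2 := log_two_bounds
  norm_num [Finset.sum_range_succ] at h
  constructor <;> linarith [h.1, h.2, h2.1, h2.2]


/-! ### Hyperbolic functions at half logarithms -/

theorem cosh_half_log {x : ℝ} (hx : 0 < x) : cosh (log x / 2) ^ 2 = (x + 1) ^ 2 / (4 * x) := by
  have h := Real.cosh_sq (log x / 2)
  have h1 : cosh (log x) = (x + x⁻¹) / 2 := Real.cosh_log hx
  have h2 : cosh (log x) = 2 * cosh (log x / 2) ^ 2 - 1 := by
    have := Real.cosh_two_mul (log x / 2)
    rw [show 2 * (log x / 2) = log x by ring] at this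
    linarith
  rw [h1] at h2
  have h3 : cosh (log x / 2) ^ 2 = ((x + x⁻¹) / 2 + 1) / 2 := by linarith
  rw [h3]
  field_simp
  ring

theorem tanh_half_log {x : ℝ} (hx : 0 < x) : tanh (log x / 2) = (x - 1) / (x + 1) := by
  have h1 : exp (log x / 2) ^ 2 = x := by
    rw [← Real.exp_nat_mul]
    rw [show ((2:ℕ):ℝ) * (log x / 2) = log x by push_cast; ring, Real.exp_log hx]
  have h2 : 0 < exp (log x / 2) := exp_pos _
  rw [Real.tanh_eq_sinh_div_cosh, Real.sinh_eq, Real.cosh_eq, Real.exp_neg]
  set e := exp (log x / 2) with he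
  have h3 : x + 1 ≠ 0 := by linarith
  rw [← h1] at h3 ⊢
  field_simp

/-- The test parameter. -/
noncomputable def gN : ℝ := log (38887 / 1000) / 2

theorem gN_pos : 0 < gN := by
  unfold gN; have := log_q.1; linarith

theorem tanh_gN : tanh gN = 37887 / 39887 := by
  unfold gN; rw [tanh_half_log (by norm_num)]; norm_num

theorem massN : mass gN = (2 * log (39887 / 1000) - log 2 - log (38887 / 1000)) /
    log (38887 / 1000) := by
  unfold mass gN
  rw [cosh_half_log (by norm_num), show 2 * (log (38887 / 1000) / 2) = log (38887 / 1000) by ring]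
  congr 1
  have h1 : (2:ℝ) * ((38887 / 1000 + 1) ^ 2 / (4 * (38887 / 1000))) =
      (39887 / 1000) ^ 2 / (2 * (38887 / 1000)) := by norm_num
  rw [h1, Real.log_div (by norm_num) (by norm_num), Real.log_mul (by norm_num) (by norm_num),
    Real.log_pow]
  push_cast; ring

theorem massN_lt : mass gN < tanh gN := by
  rw [massN, tanh_gN, div_lt_iff₀ (by linarith [log_q.1])]
  have h1 := log_q
  have h2 := log_q1
  have h3 := log_two_bounds
  nlinarith [h1.1, h1.2, h2.1, h2.2, h3.1, h3.2]

theorem massN_pos : 0 < mass gN := mass_pos gN_pos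

theorem phiN_A : 0 ≤ phi (mass gN) (tanh gN) (log (5581843 / 312500) / 2) := by
  have hq := log_q
  have hq1 := log_q1
  have h2 := log_two_bounds
  have hA := log_A
  have hr := log_r1
  unfold phi
  rw [tanh_half_log (by norm_num), tanh_gN, massN]
  have h1 : |((37887:ℝ) / 39887 + (5581843 / 312500 - 1) / (5581843 / 312500 + 1)) /
      (37887 / 39887 - (5581843 / 312500 - 1) / (5581843 / 312500 + 1))| ≤ 824723227/25000000 := by
    rw [abs_of_pos (by norm_num)]; norm_num
  have h1' : 0 < |((37887:ℝ) / 39887 + (5581843 / 312500 - 1) / (5581843 / 312500 + 1)) /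
      (37887 / 39887 - (5581843 / 312500 - 1) / (5581843 / 312500 + 1))| := by
    rw [abs_of_pos (by norm_num)]; norm_num
  have h3 := (Real.log_le_log h1' h1).trans hr.2
  set R := log |((37887:ℝ) / 39887 + (5581843 / 312500 - 1) / (5581843 / 312500 + 1)) /
      (37887 / 39887 - (5581843 / 312500 - 1) / (5581843 / 312500 + 1))| with hR
  have hqp : 0 < log (38887 / 1000 : ℝ) := by linarith [hq.1]
  have h4 : 0 ≤ log (5581843 / 312500) * log (38887 / 1000) -
      (2 * log (39887 / 1000) - log 2 - log (38887 / 1000)) * R := by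
    have e1 : (144133490919/50000000000:ℝ) * (366066000451/100000000000) ≤
        log (5581843 / 312500) * log (38887 / 1000) :=
      mul_le_mul hA.1 hq.1 (by norm_num) (le_trans (by norm_num) hA.1)
    have e2 : (2 * log (39887 / 1000) - log 2 - log (38887 / 1000)) * R ≤
        (2 * (36860504563/10000000000) - 0.693147180559 - 366066000451/100000000000) *
          (174808601139/50000000000) := by
      have e3 : 0 ≤ 2 * log (39887 / 1000) - log 2 - log (38887 / 1000) := by
        linarith [hq1.1, h2.2, hq.2]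
      calc (2 * log (39887 / 1000) - log 2 - log (38887 / 1000)) * R
          ≤ (2 * log (39887 / 1000) - log 2 - log (38887 / 1000)) *
            (174808601139/50000000000) := mul_le_mul_of_nonneg_left h3 e3
        _ ≤ _ := by
            apply mul_le_mul_of_nonneg_right _ (by norm_num)
            linarith [hq1.2, h2.1, hq.1]
    have e4 : (2 * (36860504563/10000000000:ℝ) - 0.693147180559 - 366066000451/100000000000) *
          (174808601139/50000000000) ≤
        (144133490919/50000000000:ℝ) * (366066000451/100000000000) := by norm_num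
    linarith
  have h5 : 2 * (log (5581843 / 312500) / 2) -
      (2 * log (39887 / 1000) - log 2 - log (38887 / 1000)) / log (38887 / 1000) * R =
      (log (5581843 / 312500) * log (38887 / 1000) -
      (2 * log (39887 / 1000) - log 2 - log (38887 / 1000)) * R) / log (38887 / 1000) := by
    field_simp
  rw [h5]
  exact div_nonneg h4 hqp.le

theorem phiN_C : 0 ≤ phi (mass gN) (tanh gN) (log (55425607 / 1000000) / 2) := by
  have hq := log_q
  have hq1 := log_q1
  have h2 := log_two_bounds
  have hA := log_C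
  have hr := log_r2
  unfold phi
  rw [tanh_half_log (by norm_num), tanh_gN, massN]
  have h1 : |((37887:ℝ) / 39887 + (55425607 / 1000000 - 1) / (55425607 / 1000000 + 1)) /
      (37887 / 39887 - (55425607 / 1000000 - 1) / (55425607 / 1000000 + 1))| ≤
        13026100563/100000000 := by
    rw [abs_of_neg (by norm_num)]; norm_num
  have h1' : 0 < |((37887:ℝ) / 39887 + (55425607 / 1000000 - 1) / (55425607 / 1000000 + 1)) /
      (37887 / 39887 - (55425607 / 1000000 - 1) / (55425607 / 1000000 + 1))| := by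
    rw [abs_of_neg (by norm_num)]; norm_num
  have h3 := (Real.log_le_log h1' h1).trans hr.2
  set R := log |((37887:ℝ) / 39887 + (55425607 / 1000000 - 1) / (55425607 / 1000000 + 1)) /
      (37887 / 39887 - (55425607 / 1000000 - 1) / (55425607 / 1000000 + 1))| with hR
  have hqp : 0 < log (38887 / 1000 : ℝ) := by linarith [hq.1]
  have h4 : 0 ≤ log (55425607 / 1000000) * log (38887 / 1000) -
      (2 * log (39887 / 1000) - log 2 - log (38887 / 1000)) * R := by
    have e1 : (80300834143/20000000000:ℝ) * (366066000451/100000000000) ≤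
        log (55425607 / 1000000) * log (38887 / 1000) :=
      mul_le_mul hA.1 hq.1 (by norm_num) (le_trans (by norm_num) hA.1)
    have e2 : (2 * log (39887 / 1000) - log 2 - log (38887 / 1000)) * R ≤
        (2 * (36860504563/10000000000) - 0.693147180559 - 366066000451/100000000000) *
          (486954017329/100000000000) := by
      have e3 : 0 ≤ 2 * log (39887 / 1000) - log 2 - log (38887 / 1000) := by
        linarith [hq1.1, h2.2, hq.2]
      calc (2 * log (39887 / 1000) - log 2 - log (38887 / 1000)) * R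
          ≤ (2 * log (39887 / 1000) - log 2 - log (38887 / 1000)) *
            (486954017329/100000000000) := mul_le_mul_of_nonneg_left h3 e3
        _ ≤ _ := by
            apply mul_le_mul_of_nonneg_right _ (by norm_num)
            linarith [hq1.2, h2.1, hq.1]
    have e4 : (2 * (36860504563/10000000000:ℝ) - 0.693147180559 - 366066000451/100000000000) *
          (486954017329/100000000000) ≤
        (80300834143/20000000000:ℝ) * (366066000451/100000000000) := by norm_num
    linarith
  have h5 : 2 * (log (55425607 / 1000000) / 2) -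
      (2 * log (39887 / 1000) - log 2 - log (38887 / 1000)) / log (38887 / 1000) * R =
      (log (55425607 / 1000000) * log (38887 / 1000) -
      (2 * log (39887 / 1000) - log 2 - log (38887 / 1000)) * R) / log (38887 / 1000) := by
    field_simp
  rw [h5]
  exact div_nonneg h4 hqp.le

theorem exists_admN : ∃ a c, Adm gN a c ∧ val gN a c < 1.8344305 := by
  have hg := gN_pos
  have hal := massN_pos
  have hlt := massN_lt
  have hal1 : mass gN < 1 := hlt.trans (tanh_lt_one gN)
  have hT : 0 < tanh gN := hal.trans hlt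
  obtain ⟨a, ha, hag, hra⟩ := exists_a hal hg hlt
  obtain ⟨c, hgc, hrc⟩ := exists_c hal hal1 hg
  have hadm : Adm gN a c := ⟨ha, hag, hgc, hlt, hra, hrc⟩
  refine ⟨a, c, hadm, ?_⟩
  have hcpos : 0 < c := hg.trans hgc
  set yA := log (5581843 / 312500 : ℝ) / 2 with hyA
  set yC := log (55425607 / 1000000 : ℝ) / 2 with hyC
  have pA : 0 < yA := by rw [hyA]; linarith [log_A.1]
  have pC : 0 < yC := by rw [hyC]; linarith [log_C.1]
  have tA : tanh yA < tanh gN := by
    rw [hyA, tanh_half_log (by norm_num), tanh_gN]; norm_num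
  have tC : tanh gN < tanh yC := by
    rw [hyC, tanh_half_log (by norm_num), tanh_gN]; norm_num
  have h1 : yA ≤ a := by
    by_contra hcon
    push Not at hcon
    have := (left_table hal hal1 hT ha hra pA).2 hcon
    have h2 := (phi_nonneg_left hal pA tA).1 phiN_A
    linarith
  have h2 : c ≤ yC := by
    by_contra hcon
    push Not at hcon
    have := (right_table hal hcpos hrc pC).1 hcon
    have h2 := (phi_nonneg_right hal hT tC).1 phiN_C
    linarith
  have h3 : cosh c ^ 2 ≤ cosh yC ^ 2 := by
    have : cosh c ≤ cosh yC := by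
      rw [cosh_le_cosh, abs_of_pos hcpos, abs_of_pos pC]; exact h2
    have := cosh_pos c
    nlinarith
  have h4 : cosh yA ^ 2 ≤ cosh a ^ 2 := by
    have : cosh yA ≤ cosh a := by
      rw [cosh_le_cosh, abs_of_pos ha, abs_of_pos pA]; exact h1
    have := cosh_pos yA
    nlinarith
  unfold val
  have h5 : cosh gN ^ 2 = (39887 / 1000) ^ 2 / (4 * (38887 / 1000)) := by
    unfold gN; rw [cosh_half_log (by norm_num)]; norm_num
  rw [hyC, cosh_half_log (by norm_num)] at h3
  rw [hyA, cosh_half_log (by norm_num)] at h4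
  rw [h5, div_lt_iff₀ (by norm_num)]
  calc 2 * (cosh c ^ 2 - cosh a ^ 2) ≤ 2 * ((55425607 / 1000000 + 1) ^ 2 /
        (4 * (55425607 / 1000000)) - (5581843 / 312500 + 1) ^ 2 / (4 * (5581843 / 312500))) := by
        linarith
    _ < _ := by norm_num

theorem vals_nonempty : vals.Nonempty := by
  obtain ⟨a, c, h, -⟩ := exists_admN
  exact ⟨_, gN, a, c, h, rfl⟩

theorem muStar_lt_sharp : muStar < 1.8344305 := by
  obtain ⟨a, c, h, h1⟩ := exists_admN
  exact (csInf_le vals_bdd ⟨gN, a, c, h, rfl⟩).trans_lt h1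

theorem muStar_lt : muStar < 1.8345 := muStar_lt_sharp.trans (by norm_num)

end Pool.Agent.MP28e671
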