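import Mathlib
import Pool.Agent.MP28e671.Final
import Pool.Agent.MP28e671.CalcGlue
import Pool.Agent.MP28e671.CalcR4
import Pool.Agent.MP28e671.NearR5
import Pool.Agent.MP28e671.NumMu

set_option autoImplicit false

open Real Set MeasureTheory Filter
open scoped ENNReal Topology

namespace Pool.Agent.MP28e671

theorem r4Stmt : R4Stmt := by
  intro g al B yc yd hg ht hal hal1 halT hB hB2 hgc hyd hydg hd1 hphid hphic hcm
  have hB0 : 0 < B := by linarith
  exact calc_R4 hg hB hal halT hB2 ht (hg.trans hgc) hyd rfl rfl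
    ((X_neg_iff hB0 hg (hg.trans hgc).le).2 hgc) hd1 hphic hphid hcm

theorem nearStmt : NearStmt := by
  intro B g al c d h1 h2 h3 h4 h5 h6 h7 h8 h9 h10 h11 h12 h13
  exact near_R5 h1 h2 h3 h4 h5 h6 h7 h8 h9 h10 h11 h12 h13

theorem calcStmt : CalcStmt := calc_glue r4Stmt nearStmt muStar_lt

theorem mu_eq : sInf measures = muStar :=
  main_of calcStmt vals_nonempty (by have := muStar_lt; norm_num at this ⊢; linarith)

theorem val_small {g a c : ℝ} (h : Adm g a c) (hg : 0.045 ≤ exp (-2 * g)) :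
    1.8345 ≤ val g a c := by
  have hg0 := h.g_pos
  obtain ⟨hz, hzz⟩ := adm_cmin h
  have h1 := adm_one_le measStmt h
  have hadm := h
  obtain ⟨ha, hag, hgc, hmT, hra, hrc⟩ := h
  have hc : X 2 g c < 0 := by linarith
  have hal := mass_pos hg0
  have h2 := calc_R4 (al := mass g) (B := 2) (g := g) (yc := c) (yd := a) hg0 (two_eq hg0)
    (mass_ge hg0) hmT.le le_rfl hg (hg0.trans hgc) ha.le rfl rfl hc h1
    ((phi_nonneg_right hal (tanh_pos hg0) (tanh_lt_tanh.2 hgc)).2 hrc.ge)
    ((phi_nonneg_left hal ha (tanh_lt_tanh.2 hag)).2 hra.le)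
    (by rw [abs_of_neg hc]; exact hzz)
  rw [val_eq]
  linarith

theorem mass_lt_tanh {g : ℝ} (hg : 0 < g) (hT : 9 / 10 ≤ tanh g) : mass g < tanh g := by
  have h := mass_lt_aux hT (tanh_lt_one g)
  have h1 : log ((1 + tanh g) / (1 - tanh g)) = 2 * g := by
    have e := artanh_tanh g
    rw [artanh_eq_half_log ⟨(neg_one_lt_tanh g).le, (tanh_lt_one g).le⟩] at e
    linarith
  have h2 : 2 / (1 - tanh g ^ 2) = 2 * cosh g ^ 2 := by
    rw [one_sub_tanh_sq]
    have := cosh_pos g
    field_simp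
  rw [h1, h2] at h
  unfold mass
  rw [div_lt_iff₀ (by positivity)]
  exact h

theorem is_attained : ∃ g a c, Adm g a c ∧ muStar = val g a c := by
  have e1 : ∀ x : ℝ, 0 < x → exp (-2 * (-log x / 2)) = x := by
    intro x hx
    rw [show -2 * (-log x / 2) = log x by ring, exp_log hx]
  have hl : log 0.01 < log 0.045 := log_lt_log (by norm_num) (by norm_num)
  have hl0 : log 0.045 < 0 := log_neg (by norm_num) (by norm_num)
  have hm : ∀ g ∈ Icc (-log 0.045 / 2) (-log 0.01 / 2), mass g < tanh g := by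
    intro g hg
    have hg0 : 0 < g := lt_of_lt_of_le (by linarith) hg.1
    refine mass_lt_tanh hg0 ?_
    have ht : exp (-2 * g) ≤ 0.045 := by
      rw [← e1 0.045 (by norm_num)]
      apply exp_le_exp.2
      linarith [hg.1]
    rw [tanh_eq_t, div_le_div_iff₀ (by norm_num) (by positivity)]
    norm_num at ht ⊢
    linarith
  have hout : ∀ g a c, Adm g a c → (g < -log 0.045 / 2 ∨ -log 0.01 / 2 < g) →
      (1.8345 : ℝ) ≤ val g a c := by
    intro g a c h hg
    rcases hg with hg | hg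
    · refine val_small h ?_
      rw [← e1 0.045 (by norm_num)]
      apply exp_le_exp.2
      linarith
    · refine val_large h ?_
      rw [← e1 0.01 (by norm_num)]
      apply exp_le_exp.2
      linarith
  obtain ⟨g, a, c, hg, hadm, hval⟩ := attained (by linarith) (by linarith) hm muStar_lt hout
  exact ⟨g, a, c, hadm, hval⟩

theorem exact_value :
    (∀ g : ℝ, 0 < g → mass g < tanh g → ∃! p : ℝ × ℝ, Adm g p.1 p.2) ∧
    IsLeast vals (sInf measures) ∧
    (∃ g a c, Adm g a c ∧ Psi g a = Psi g c ∧ sInf measures = val g a c) ∧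
    sInf measures < 1.8345 := by
  obtain ⟨g, a, c, hadm, hval⟩ := is_attained
  rw [mu_eq]
  refine ⟨?_, ⟨⟨g, a, c, hadm, hval⟩, fun y hy => csInf_le vals_bdd hy⟩, ⟨g, a, c, hadm, ?_, hval⟩,
    muStar_lt⟩
  · intro g hg hm
    obtain ⟨a, c, h⟩ := Adm.exists_of hg hm
    refine ⟨(a, c), h, ?_⟩
    rintro ⟨a', c'⟩ h'
    obtain ⟨e1, e2⟩ := Adm.unique h h'
    rw [e1, e2]
  · refine stationary hadm fun g' a' c' h' => ?_
    rw [← hval]
    exact csInf_le vals_bdd ⟨g', a', c', h', rfl⟩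

end Pool.Agent.MP28e671
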