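import Mathlib
import Pool.Agent.MP28e671.NumMu
import Pool.Agent.MP28e671.Stationary

set_option autoImplicit false

open Real Set

namespace Pool.Agent.MP28e671

/-- `log (2 cosh² g)` for `g = log q / 2` -/
noncomputable def Lq (q : ℝ) : ℝ := 2 * log (q + 1) - log 2 - log q

theorem mass_q {q : ℝ} (hq : 1 < q) : mass (log q / 2) = Lq q / log q := by
  unfold mass Lq
  have h0 : 0 < q := by linarith
  rw [cosh_half_log h0, show 2 * (log q / 2) = log q by ring]
  congr 1
  have h1 : (2:ℝ) * ((q + 1) ^ 2 / (4 * q)) = (q + 1) ^ 2 / (2 * q) := by field_simp; norm_num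
  rw [h1, Real.log_div (by positivity) (by positivity), Real.log_mul (by norm_num) h0.ne',
    Real.log_pow]
  push_cast; ring

theorem g_pos_q {q : ℝ} (hq : 1 < q) : 0 < log q / 2 := by
  have := log_pos hq; linarith

theorem phi_q_left {q A : ℝ} (hA : 1 < A) (hAq : A < q) :
    phi (mass (log q / 2)) (tanh (log q / 2)) (log A / 2) =
      (log A * log q - Lq q * log ((q * A - 1) / (q - A))) / log q := by
  have hq : 1 < q := hA.trans hAq
  have hlq : 0 < log q := log_pos hq
  unfold phi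
  rw [mass_q hq, tanh_half_log (by linarith), tanh_half_log (by linarith)]
  have h1 : |((q - 1) / (q + 1) + (A - 1) / (A + 1)) / ((q - 1) / (q + 1) - (A - 1) / (A + 1))| =
      (q * A - 1) / (q - A) := by
    have e : ((q - 1) / (q + 1) + (A - 1) / (A + 1)) / ((q - 1) / (q + 1) - (A - 1) / (A + 1)) =
      (q * A - 1) / (q - A) := by
      have n1 : q + 1 ≠ 0 := by linarith
      have n2 : A + 1 ≠ 0 := by linarith
      have n3 : q - A ≠ 0 := by linarith
      have e1 : (q - 1) / (q + 1) - (A - 1) / (A + 1) = 2 * (q - A) / ((q + 1) * (A + 1)) := by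
        field_simp; ring
      have e2 : (q - 1) / (q + 1) + (A - 1) / (A + 1) = 2 * (q * A - 1) / ((q + 1) * (A + 1)) := by
        field_simp; ring
      rw [e1, e2]
      field_simp
    rw [e, abs_of_pos]
    apply div_pos
    · nlinarith
    · linarith
  rw [h1]
  field_simp

theorem phi_q_right {q C : ℝ} (hq : 1 < q) (hC : q < C) :
    phi (mass (log q / 2)) (tanh (log q / 2)) (log C / 2) =
      (log C * log q - Lq q * log ((q * C - 1) / (C - q))) / log q := by
  have hlq : 0 < log q := log_pos hq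
  unfold phi
  rw [mass_q hq, tanh_half_log (by linarith), tanh_half_log (by linarith)]
  have h1 : |((q - 1) / (q + 1) + (C - 1) / (C + 1)) / ((q - 1) / (q + 1) - (C - 1) / (C + 1))| =
      (q * C - 1) / (C - q) := by
    have e : ((q - 1) / (q + 1) + (C - 1) / (C + 1)) / ((q - 1) / (q + 1) - (C - 1) / (C + 1)) =
      -((q * C - 1) / (C - q)) := by
      have n1 : q + 1 ≠ 0 := by linarith
      have n2 : C + 1 ≠ 0 := by linarith
      have n3 : C - q ≠ 0 := by linarith
      have n4 : q - C ≠ 0 := by intro h; apply n3; linarith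
      have e1 : (q - 1) / (q + 1) - (C - 1) / (C + 1) = 2 * (q - C) / ((q + 1) * (C + 1)) := by
        field_simp; ring
      have e2 : (q - 1) / (q + 1) + (C - 1) / (C + 1) = 2 * (q * C - 1) / ((q + 1) * (C + 1)) := by
        field_simp; ring
      rw [e1, e2]
      rw [show C - q = -(q - C) by ring, div_neg, neg_neg]
      field_simp
    rw [e, abs_neg, abs_of_pos]
    apply div_pos
    · nlinarith
    · linarith
  rw [h1]
  field_simp

theorem a_lower {q A a c : ℝ} (hA : 1 < A) (hAq : A < q) (H : Adm (log q / 2) a c)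
    (h : 0 ≤ log A * log q - Lq q * log ((q * A - 1) / (q - A))) : log A / 2 ≤ a := by
  have hq : 1 < q := hA.trans hAq
  have hg := g_pos_q hq
  have hlq : 0 < log q := log_pos hq
  have hal := mass_pos hg
  obtain ⟨ha, hag, hgc, hm, hra, hrc⟩ := H
  have hal1 : mass (log q / 2) < 1 := hm.trans (tanh_lt_one _)
  have hT := tanh_pos hg
  have hy : 0 < log A / 2 := g_pos_q hA
  have hyg : log A / 2 < log q / 2 := by
    have := log_lt_log (by linarith : (0:ℝ) < A) hAq; linarith
  by_contra hcon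
  push Not at hcon
  have h1 := (left_table hal hal1 hT ha hra hy).2 hcon
  have h2 := (phi_nonneg_left hal hy (tanh_lt_tanh.2 hyg)).1 (by
    rw [phi_q_left hA hAq]; exact div_nonneg h hlq.le)
  linarith

theorem a_upper {q A a c : ℝ} (hA : 1 < A) (hAq : A < q) (H : Adm (log q / 2) a c)
    (h : log A * log q - Lq q * log ((q * A - 1) / (q - A)) ≤ 0) : a ≤ log A / 2 := by
  have hq : 1 < q := hA.trans hAq
  have hg := g_pos_q hq
  have hlq : 0 < log q := log_pos hq
  have hal := mass_pos hg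
  obtain ⟨ha, hag, hgc, hm, hra, hrc⟩ := H
  have hal1 : mass (log q / 2) < 1 := hm.trans (tanh_lt_one _)
  have hT := tanh_pos hg
  have hy : 0 < log A / 2 := g_pos_q hA
  have hyg : log A / 2 < log q / 2 := by
    have := log_lt_log (by linarith : (0:ℝ) < A) hAq; linarith
  by_contra hcon
  push Not at hcon
  have h1 := (left_table hal hal1 hT ha hra hy).1 hcon
  have h2 := (phi_pos_left hal hy (tanh_lt_tanh.2 hyg)).2 h1
  rw [phi_q_left hA hAq] at h2
  have h3 := div_nonpos_of_nonpos_of_nonneg h hlq.le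
  linarith

theorem c_upper {q C a c : ℝ} (hq : 1 < q) (hC : q < C) (H : Adm (log q / 2) a c)
    (h : 0 ≤ log C * log q - Lq q * log ((q * C - 1) / (C - q))) : c ≤ log C / 2 := by
  have hg := g_pos_q hq
  have hlq : 0 < log q := log_pos hq
  have hal := mass_pos hg
  obtain ⟨ha, hag, hgc, hm, hra, hrc⟩ := H
  have hT := tanh_pos hg
  have hcpos : 0 < c := hg.trans hgc
  have hyg : log q / 2 < log C / 2 := by
    have := log_lt_log (by linarith : (0:ℝ) < q) hC; linarith
  have hy : 0 < log C / 2 := hg.trans hyg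
  by_contra hcon
  push Not at hcon
  have h1 := (right_table hal hcpos hrc hy).1 hcon
  have h2 := (phi_nonneg_right hal hT (tanh_lt_tanh.2 hyg)).1 (by
    rw [phi_q_right hq hC]; exact div_nonneg h hlq.le)
  linarith

theorem c_lower {q C a c : ℝ} (hq : 1 < q) (hC : q < C) (H : Adm (log q / 2) a c)
    (h : log C * log q - Lq q * log ((q * C - 1) / (C - q)) ≤ 0) : log C / 2 ≤ c := by
  have hg := g_pos_q hq
  have hlq : 0 < log q := log_pos hq
  have hal := mass_pos hg
  obtain ⟨ha, hag, hgc, hm, hra, hrc⟩ := H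
  have hT := tanh_pos hg
  have hcpos : 0 < c := hg.trans hgc
  have hyg : log q / 2 < log C / 2 := by
    have := log_lt_log (by linarith : (0:ℝ) < q) hC; linarith
  have hy : 0 < log C / 2 := hg.trans hyg
  by_contra hcon
  push Not at hcon
  have h1 := (right_table hal hcpos hrc hy).2 hcon
  have h2 := (phi_pos_right hal hT (tanh_lt_tanh.2 hyg)).2 h1
  rw [phi_q_right hq hC] at h2
  have h3 := div_nonpos_of_nonpos_of_nonneg h hlq.le
  linarith

/-- bounds of the hyperbolic quantities from bounds of the argument -/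
theorem hyp_upper {y A : ℝ} (hy : 0 < y) (hA : 1 < A) (h : y ≤ log A / 2) :
    cosh y ^ 2 ≤ (A + 1) ^ 2 / (4 * A) ∧ sinh y * cosh y ≤ (A - A⁻¹) / 4 := by
  have hA0 : 0 < A := by linarith
  constructor
  · rw [← cosh_half_log hA0]
    have : cosh y ≤ cosh (log A / 2) := by
      rw [cosh_le_cosh, abs_of_pos hy, abs_of_pos (hy.trans_le h)]; exact h
    exact pow_le_pow_left₀ (cosh_pos y).le this 2
  · have h1 : sinh (2 * y) ≤ sinh (log A) := sinh_le_sinh.2 (by linarith)
    rw [sinh_log hA0, sinh_two_mul] at h1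
    linarith

theorem hyp_lower {y A : ℝ} (hA : 1 < A) (h : log A / 2 ≤ y) :
    (A + 1) ^ 2 / (4 * A) ≤ cosh y ^ 2 ∧ (A - A⁻¹) / 4 ≤ sinh y * cosh y := by
  have hA0 : 0 < A := by linarith
  have hy := g_pos_q hA
  constructor
  · rw [← cosh_half_log hA0]
    have : cosh (log A / 2) ≤ cosh y := by
      rw [cosh_le_cosh, abs_of_pos hy, abs_of_pos (hy.trans_le h)]; exact h
    exact pow_le_pow_left₀ (cosh_pos _).le this 2
  · have h1 : sinh (log A) ≤ sinh (2 * y) := sinh_le_sinh.2 (by linarith)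
    rw [sinh_log hA0, sinh_two_mul] at h1
    linarith

theorem frac_lower {N1 N2 D n1 n2 d r : ℝ} (h1 : 0 ≤ n1) (h2 : 0 ≤ n2) (hN1 : n1 ≤ N1)
    (hN2 : n2 ≤ N2) (hD : 0 < D) (hd : D ≤ d) (hr0 : 0 ≤ r) (h : r * d < n1 * n2) :
    r < N1 * N2 / D := by
  rw [lt_div_iff₀ hD]
  calc r * D ≤ r * d := mul_le_mul_of_nonneg_left hd hr0
    _ < n1 * n2 := h
    _ ≤ N1 * N2 := mul_le_mul hN1 hN2 h2 (h1.trans hN1)

theorem frac_upper {N1 N2 D n1 n2 d r : ℝ} (h1 : 0 ≤ N1) (h2 : 0 ≤ N2) (hN1 : N1 ≤ n1)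
    (hN2 : N2 ≤ n2) (hd0 : 0 < d) (hd : d ≤ D) (hr0 : 0 ≤ r) (h : n1 * n2 < r * d) :
    N1 * N2 / D < r := by
  rw [div_lt_iff₀ (hd0.trans_le hd)]
  calc N1 * N2 ≤ n1 * n2 := mul_le_mul hN1 hN2 h2 (h1.trans hN1)
    _ < r * d := h
    _ ≤ r * D := mul_le_mul_of_nonneg_left hd hr0

end Pool.Agent.MP28e671
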