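import Mathlib
import Pool.Agent.MP28e671.NumTools

set_option autoImplicit false

open Real Set

namespace Pool.Agent.MP28e671

theorem E_nonneg {lA lq L lx a1 q1 L1 x1 : ℝ} (ha : a1 ≤ lA) (hq : q1 ≤ lq) (hL : L ≤ L1)
    (hx : lx ≤ x1) (ha0 : 0 ≤ a1) (hq0 : 0 ≤ q1) (hL0 : 0 ≤ L) (hx0 : 0 ≤ x1)
    (h : L1 * x1 ≤ a1 * q1) : 0 ≤ lA * lq - L * lx := by
  have e1 : L * lx ≤ L1 * x1 :=
    (mul_le_mul_of_nonneg_left hx hL0).trans (mul_le_mul_of_nonneg_right hL hx0)
  have e2 : a1 * q1 ≤ lA * lq := mul_le_mul ha hq hq0 (ha0.trans ha)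
  linarith

theorem E_nonpos {lA lq L lx a1 q1 L1 x1 : ℝ} (ha : lA ≤ a1) (hq : lq ≤ q1) (hL : L1 ≤ L)
    (hx : x1 ≤ lx) (ha0 : 0 ≤ lA) (hq0 : 0 ≤ q1) (hL0 : 0 ≤ L1) (hx0 : 0 ≤ x1)
    (h : a1 * q1 ≤ L1 * x1) : lA * lq - L * lx ≤ 0 := by
  have e1 : L1 * x1 ≤ L * lx := mul_le_mul hL hx hx0 (hL0.trans hL)
  have e2 : lA * lq ≤ a1 * q1 :=
    (mul_le_mul_of_nonneg_left hq ha0).trans (mul_le_mul_of_nonneg_right ha hq0)
  linarith

theorem lq_u : (183032974511/50000000000:ℝ) ≤ log (1944349/50000) ∧ log (1944349/50000) ≤ (366065949023/100000000000:ℝ) := by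
  have h := log_bounds_up (x := (1944349/50000:ℝ)) (y := (344349/3544349:ℝ)) (k := 5) (by norm_num) (by norm_num)
    (by norm_num) 6
  have h2 := log_two_bounds
  norm_num [Finset.sum_range_succ] at h
  constructor <;> linarith [h.1, h.2, h2.1, h2.2]

theorem lr_u : (92151248871/25000000000:ℝ) ≤ log (1994349/50000) ∧ log (1994349/50000) ≤ (184302497743/50000000000:ℝ) := by
  have h := log_bounds_up (x := (1994349/50000:ℝ)) (y := (394349/3594349:ℝ)) (k := 5) (by norm_num) (by norm_num)
    (by norm_num) 6
  have h2 := log_two_bounds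
  norm_num [Finset.sum_range_succ] at h
  constructor <;> linarith [h.1, h.2, h2.1, h2.2]

theorem L_u : (301829323889/100000000000:ℝ) ≤ Lq (1944349/50000) ∧ Lq (1944349/50000) ≤ (3018293238941/1000000000000:ℝ) := by
  have h1 := lq_u
  have h2 := lr_u
  have h3 := log_two_bounds
  have e : ((1944349/50000:ℝ) + 1) = 1994349/50000 := by norm_num
  unfold Lq
  rw [e]
  constructor <;> linarith [h1.1, h1.2, h2.1, h2.2, h3.1, h3.2]

theorem lAm_u : (144133463193/50000000000:ℝ) ≤ log (3572377539/200000000) ∧ log (3572377539/200000000) ≤ (72066731597/25000000000:ℝ) := by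
  have h := log_bounds_up (x := (3572377539/200000000:ℝ)) (y := (372377539/6772377539:ℝ)) (k := 4) (by norm_num) (by norm_num)
    (by norm_num) 5
  have h2 := log_two_bounds
  norm_num [Finset.sum_range_succ] at h
  constructor <;> linarith [h.1, h.2, h2.1, h2.2]

theorem xAm_u : (1398468573/400000000:ℝ) ≤ log (990849813653873/30035846150000) ∧ log (990849813653873/30035846150000) ≤ (349617143251/100000000000:ℝ) := by
  have h := log_bounds_up (x := (990849813653873/30035846150000:ℝ)) (y := (29702736853873/1951996890453873:ℝ)) (k := 5) (by norm_num) (by norm_num)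
    (by norm_num) 3
  have h2 := log_two_bounds
  norm_num [Finset.sum_range_succ] at h
  constructor <;> linarith [h.1, h.2, h2.1, h2.2]

theorem rAm_u {a c : ℝ} (H : Adm (log (1944349/50000) / 2) a c) : log (3572377539/200000000) / 2 ≤ a := by
  refine a_lower (by norm_num) (by norm_num) H ?_
  have e : ((1944349/50000:ℝ) * (3572377539/200000000) - 1) / (1944349/50000 - 3572377539/200000000) = 990849813653873/30035846150000 := by norm_num
  rw [e]
  exact E_nonneg lAm_u.1 lq_u.1 L_u.2 xAm_u.2 (by norm_num) (by norm_num)
    (le_trans (by norm_num) L_u.1) (by norm_num) (by norm_num)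

theorem lAp_u : (36033365813/12500000000:ℝ) ≤ log (4465471929/250000000) ∧ log (4465471929/250000000) ≤ (57653385301/20000000000:ℝ) := by
  have h := log_bounds_up (x := (4465471929/250000000:ℝ)) (y := (465471929/8465471929:ℝ)) (k := 4) (by norm_num) (by norm_num)
    (by norm_num) 5
  have h2 := log_two_bounds
  norm_num [Finset.sum_range_succ] at h
  constructor <;> linarith [h.1, h.2, h2.1, h2.2]

theorem xAp_u : (349617143467/100000000000:ℝ) ≤ log (176937466932229/5363543950000) ∧ log (176937466932229/5363543950000) ≤ (349617143469/100000000000:ℝ) := by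
  have h := log_bounds_up (x := (176937466932229/5363543950000:ℝ)) (y := (5304060532229/348570873332229:ℝ)) (k := 5) (by norm_num) (by norm_num)
    (by norm_num) 3
  have h2 := log_two_bounds
  norm_num [Finset.sum_range_succ] at h
  constructor <;> linarith [h.1, h.2, h2.1, h2.2]

theorem rAp_u {a c : ℝ} (H : Adm (log (1944349/50000) / 2) a c) : a ≤ log (4465471929/250000000) / 2 := by
  refine a_upper (by norm_num) (by norm_num) H ?_
  have e : ((1944349/50000:ℝ) * (4465471929/250000000) - 1) / (1944349/50000 - 4465471929/250000000) = 176937466932229/5363543950000 := by norm_num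
  rw [e]
  exact E_nonpos lAp_u.2 lq_u.2 L_u.1 xAp_u.1 (le_trans (by norm_num) lAp_u.1)
    (by norm_num) (by norm_num) (by norm_num) (by norm_num)

theorem lCm_u : (401504119093/100000000000:ℝ) ≤ log (55425578387/1000000000) ∧ log (55425578387/1000000000) ≤ (200752059547/50000000000:ℝ) := by
  have h := log_bounds_down (x := (55425578387/1000000000:ℝ)) (y := (8574421613/119425578387:ℝ)) (k := 6) (by norm_num) (by norm_num)
    (by norm_num) 5
  have h2 := log_two_bounds
  norm_num [Finset.sum_range_succ] at h
  constructor <;> linarith [h.1, h.2, h2.1, h2.2]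

theorem xCm_u : (243476983147/50000000000:ℝ) ≤ log (35905555970395021/275643306450000) ∧ log (35905555970395021/275643306450000) ≤ (60869245787/12500000000:ℝ) := by
  have h := log_bounds_up (x := (35905555970395021/275643306450000:ℝ)) (y := (623212744795021/71187899195995021:ℝ)) (k := 7) (by norm_num) (by norm_num)
    (by norm_num) 3
  have h2 := log_two_bounds
  norm_num [Finset.sum_range_succ] at h
  constructor <;> linarith [h.1, h.2, h2.1, h2.2]

theorem rCm_u {a c : ℝ} (H : Adm (log (1944349/50000) / 2) a c) : log (55425578387/1000000000) / 2 ≤ c := by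
  refine c_lower (by norm_num) (by norm_num) H ?_
  have e : ((1944349/50000:ℝ) * (55425578387/1000000000) - 1) / (55425578387/1000000000 - 1944349/50000) = 35905555970395021/275643306450000 := by norm_num
  rw [e]
  exact E_nonpos lCm_u.2 lq_u.2 L_u.1 xCm_u.1 (le_trans (by norm_num) lCm_u.1)
    (by norm_num) (by norm_num) (by norm_num) (by norm_num)

theorem lCp_u : (401504119131/100000000000:ℝ) ≤ log (6928197301/125000000) ∧ log (6928197301/125000000) ≤ (100376029783/25000000000:ℝ) := by
  have h := log_bounds_down (x := (6928197301/125000000:ℝ)) (y := (1071802699/14928197301:ℝ)) (k := 6) (by norm_num) (by norm_num)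
    (by norm_num) 5
  have h2 := log_two_bounds
  norm_num [Finset.sum_range_succ] at h
  constructor <;> linarith [h.1, h.2, h2.1, h2.2]

theorem xCp_u : (97390793241/20000000000:ℝ) ≤ log (195138891217421/1498061450000) ∧ log (195138891217421/1498061450000) ≤ (486953966207/100000000000:ℝ) := by
  have h := log_bounds_up (x := (195138891217421/1498061450000:ℝ)) (y := (3387025617421/386890756817421:ℝ)) (k := 7) (by norm_num) (by norm_num)
    (by norm_num) 3
  have h2 := log_two_bounds
  norm_num [Finset.sum_range_succ] at h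
  constructor <;> linarith [h.1, h.2, h2.1, h2.2]

theorem rCp_u {a c : ℝ} (H : Adm (log (1944349/50000) / 2) a c) : c ≤ log (6928197301/125000000) / 2 := by
  refine c_upper (by norm_num) (by norm_num) H ?_
  have e : ((1944349/50000:ℝ) * (6928197301/125000000) - 1) / (6928197301/125000000 - 1944349/50000) = 195138891217421/1498061450000 := by norm_num
  rw [e]
  exact E_nonneg lCp_u.1 lq_u.1 L_u.2 xCp_u.2 (by norm_num) (by norm_num)
    (le_trans (by norm_num) L_u.1) (by norm_num) (by norm_num)

theorem lq_v : (91516512971/25000000000:ℝ) ≤ log (1944351/50000) ∧ log (1944351/50000) ≤ (73213210377/20000000000:ℝ) := by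
  have h := log_bounds_up (x := (1944351/50000:ℝ)) (y := (344351/3544351:ℝ)) (k := 5) (by norm_num) (by norm_num)
    (by norm_num) 6
  have h2 := log_two_bounds
  norm_num [Finset.sum_range_succ] at h
  constructor <;> linarith [h.1, h.2, h2.1, h2.2]

theorem lr_v : (46075636971/12500000000:ℝ) ≤ log (1994351/50000) ∧ log (1994351/50000) ≤ (368605095769/100000000000:ℝ) := by
  have h := log_bounds_up (x := (1994351/50000:ℝ)) (y := (394351/3594351:ℝ)) (k := 5) (by norm_num) (by norm_num)
    (by norm_num) 6
  have h2 := log_two_bounds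
  norm_num [Finset.sum_range_succ] at h
  constructor <;> linarith [h.1, h.2, h2.1, h2.2]

theorem L_v : (60365884319/20000000000:ℝ) ≤ Lq (1944351/50000) ∧ Lq (1944351/50000) ≤ (3018294215981/1000000000000:ℝ) := by
  have h1 := lq_v
  have h2 := lr_v
  have h3 := log_two_bounds
  have e : ((1944351/50000:ℝ) + 1) = 1994351/50000 := by norm_num
  unfold Lq
  rw [e]
  constructor <;> linarith [h1.1, h1.2, h2.1, h2.2, h3.1, h3.2]

theorem lAm_v : (288267039689/100000000000:ℝ) ≤ log (17861907933/1000000000) ∧ log (17861907933/1000000000) ≤ (28826703969/10000000000:ℝ) := by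
  have h := log_bounds_up (x := (17861907933/1000000000:ℝ)) (y := (1861907933/33861907933:ℝ)) (k := 4) (by norm_num) (by norm_num)
    (by norm_num) 5
  have h2 := log_two_bounds
  norm_num [Finset.sum_range_succ] at h
  constructor <;> linarith [h.1, h.2, h2.1, h2.2]

theorem xAm_v : (174808632867/50000000000:ℝ) ≤ log (34679818551436483/1051255603350000) ∧ log (34679818551436483/1051255603350000) ≤ (69923453147/20000000000:ℝ) := by
  have h := log_bounds_up (x := (34679818551436483/1051255603350000:ℝ)) (y := (1039639244236483/68319997858636483:ℝ)) (k := 5) (by norm_num) (by norm_num)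
    (by norm_num) 3
  have h2 := log_two_bounds
  norm_num [Finset.sum_range_succ] at h
  constructor <;> linarith [h.1, h.2, h2.1, h2.2]

theorem rAm_v {a c : ℝ} (H : Adm (log (1944351/50000) / 2) a c) : log (17861907933/1000000000) / 2 ≤ a := by
  refine a_lower (by norm_num) (by norm_num) H ?_
  have e : ((1944351/50000:ℝ) * (17861907933/1000000000) - 1) / (1944351/50000 - 17861907933/1000000000) = 34679818551436483/1051255603350000 := by norm_num
  rw [e]
  exact E_nonneg lAm_v.1 lq_v.1 L_v.2 xAm_v.2 (by norm_num) (by norm_num)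
    (le_trans (by norm_num) L_v.1) (by norm_num) (by norm_num)

theorem lAp_v : (288267039807/100000000000:ℝ) ≤ log (8930953977/500000000) ∧ log (8930953977/500000000) ≤ (4504172497/1562500000:ℝ) := by
  have h := log_bounds_up (x := (8930953977/500000000:ℝ)) (y := (930953977/16930953977:ℝ)) (k := 4) (by norm_num) (by norm_num)
    (by norm_num) 5
  have h2 := log_two_bounds
  norm_num [Finset.sum_range_succ] at h
  constructor <;> linarith [h.1, h.2, h2.1, h2.2]

theorem xAp_v : (10925539561/3125000000:ℝ) ≤ log (17339909296133927/525627801150000) ∧ log (17339909296133927/525627801150000) ≤ (349617265953/100000000000:ℝ) := by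
  have h := log_bounds_up (x := (17339909296133927/525627801150000:ℝ)) (y := (519819659333927/34159998932933927:ℝ)) (k := 5) (by norm_num) (by norm_num)
    (by norm_num) 3
  have h2 := log_two_bounds
  norm_num [Finset.sum_range_succ] at h
  constructor <;> linarith [h.1, h.2, h2.1, h2.2]

theorem rAp_v {a c : ℝ} (H : Adm (log (1944351/50000) / 2) a c) : a ≤ log (8930953977/500000000) / 2 := by
  refine a_upper (by norm_num) (by norm_num) H ?_
  have e : ((1944351/50000:ℝ) * (8930953977/500000000) - 1) / (1944351/50000 - 8930953977/500000000) = 17339909296133927/525627801150000 := by norm_num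
  rw [e]
  exact E_nonpos lAp_v.2 lq_v.2 L_v.1 xAp_v.1 (le_trans (by norm_num) lAp_v.1)
    (by norm_num) (by norm_num) (by norm_num) (by norm_num)

theorem lCm_v : (16060168867/4000000000:ℝ) ≤ log (13856408811/250000000) ∧ log (13856408811/250000000) ≤ (401504221677/100000000000:ℝ) := by
  have h := log_bounds_down (x := (13856408811/250000000:ℝ)) (y := (2143591189/29856408811:ℝ)) (k := 6) (by norm_num) (by norm_num)
    (by norm_num) 5
  have h2 := log_two_bounds
  norm_num [Finset.sum_range_succ] at h
  constructor <;> linarith [h.1, h.2, h2.1, h2.2]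

theorem xCm_v : (486954069909/100000000000:ℝ) ≤ log (26929222328076661/206732690550000) ∧ log (26929222328076661/206732690550000) ≤ (486954069911/100000000000:ℝ) := by
  have h := log_bounds_up (x := (26929222328076661/206732690550000:ℝ)) (y := (467437937676661/53391006718476661:ℝ)) (k := 7) (by norm_num) (by norm_num)
    (by norm_num) 3
  have h2 := log_two_bounds
  norm_num [Finset.sum_range_succ] at h
  constructor <;> linarith [h.1, h.2, h2.1, h2.2]

theorem rCm_v {a c : ℝ} (H : Adm (log (1944351/50000) / 2) a c) : log (13856408811/250000000) / 2 ≤ c := by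
  refine c_lower (by norm_num) (by norm_num) H ?_
  have e : ((1944351/50000:ℝ) * (13856408811/250000000) - 1) / (13856408811/250000000 - 1944351/50000) = 26929222328076661/206732690550000 := by norm_num
  rw [e]
  exact E_nonpos lCm_v.2 lq_v.2 L_v.1 xCm_v.1 (le_trans (by norm_num) lCm_v.1)
    (by norm_num) (by norm_num) (by norm_num) (by norm_num)

theorem lCp_v : (401504221713/100000000000:ℝ) ≤ log (11085127053/200000000) ∧ log (11085127053/200000000) ≤ (80300844343/20000000000:ℝ) := by
  have h := log_bounds_down (x := (11085127053/200000000:ℝ)) (y := (1714872947/23885127053:ℝ)) (k := 6) (by norm_num) (by norm_num)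
    (by norm_num) 5
  have h2 := log_two_bounds
  norm_num [Finset.sum_range_succ] at h
  constructor <;> linarith [h.1, h.2, h2.1, h2.2]

theorem xCp_v : (24347703491/5000000000:ℝ) ≤ log (21543377870627603/165386152650000) ∧ log (21543377870627603/165386152650000) ≤ (243477034911/50000000000:ℝ) := by
  have h := log_bounds_up (x := (21543377870627603/165386152650000:ℝ)) (y := (373950331427603/42712805409827603:ℝ)) (k := 7) (by norm_num) (by norm_num)
    (by norm_num) 3
  have h2 := log_two_bounds
  norm_num [Finset.sum_range_succ] at h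
  constructor <;> linarith [h.1, h.2, h2.1, h2.2]

theorem rCp_v {a c : ℝ} (H : Adm (log (1944351/50000) / 2) a c) : c ≤ log (11085127053/200000000) / 2 := by
  refine c_upper (by norm_num) (by norm_num) H ?_
  have e : ((1944351/50000:ℝ) * (11085127053/200000000) - 1) / (11085127053/200000000 - 1944351/50000) = 21543377870627603/165386152650000 := by norm_num
  rw [e]
  exact E_nonneg lCp_v.1 lq_v.1 L_v.2 xCp_v.2 (by norm_num) (by norm_num)
    (le_trans (by norm_num) L_v.1) (by norm_num) (by norm_num)

end Pool.Agent.MP28e671
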