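import Mathlib
import Pool.Agent.MP28e671.NumCrit

set_option autoImplicit false

open Real Set

namespace Pool.Agent.MP28e671

theorem frac_mono {x s M x1 s1 M0 : ℝ} (hx : x ≤ x1) (hs : s ≤ s1) (hx0 : 0 ≤ x) (hs0 : 0 ≤ s)
    (hM0 : 0 < M0) (hM : M0 ≤ M) : x * s / M ≤ x1 * s1 / M0 := by
  have h1 : x * s ≤ x1 * s1 := mul_le_mul hx hs hs0 (hx0.trans hx)
  have h2 : 0 ≤ x * s := mul_nonneg hx0 hs0
  exact div_le_div₀ (h2.trans h1) h1 hM0 hM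

theorem Psi_a_lower {g a cg sg ca0 ca1 sa1 a1 m1 M0 r : ℝ}
    (hcg : cosh g ^ 2 = cg) (hsg : sinh g * cosh g = sg) (hsg0 : 0 ≤ sg)
    (h0 : ca0 ≤ cosh a ^ 2) (h1 : cosh a ^ 2 ≤ ca1) (h2 : sinh a * cosh a ≤ sa1)
    (ha0 : 0 < a) (ha : a ≤ a1) (hm : mass g ≤ m1) (hM : M0 ≤ mass g * g) (hM0 : 0 < M0)
    (hD : 0 < cosh a ^ 2 - cosh g ^ 2 + mass g * sinh g * cosh g)
    (hn1 : 0 ≤ cg - ca1) (hn2 : 0 ≤ ca0 - a1 * sa1 / M0) (hr : 0 ≤ r)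
    (h : r * (ca1 - cg + m1 * sg) < (cg - ca1) * (ca0 - a1 * sa1 / M0)) : r < Psi g a := by
  unfold Psi
  have hs0 : 0 ≤ sinh a * cosh a := mul_nonneg (sinh_nonneg_iff.2 ha0.le) (cosh_pos a).le
  have e1 := frac_mono ha h2 ha0.le hs0 hM0 hM
  have e2 : a * sinh a * cosh a / (mass g * g) = a * (sinh a * cosh a) / (mass g * g) := by ring
  refine frac_lower hn1 hn2 (by rw [hcg]; linarith) (by rw [e2]; linarith) hD ?_ hr h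
  rw [mul_assoc, hsg, hcg]
  have := mul_le_mul_of_nonneg_right hm hsg0
  linarith

theorem Psi_a_upper {g a cg sg ca0 ca1 sa0 a0 m0 M1 r : ℝ}
    (hcg : cosh g ^ 2 = cg) (hsg : sinh g * cosh g = sg) (hsg0 : 0 ≤ sg)
    (h0 : ca0 ≤ cosh a ^ 2) (h1 : cosh a ^ 2 ≤ ca1) (h2 : sa0 ≤ sinh a * cosh a)
    (hs0 : 0 ≤ sa0) (ha0 : 0 ≤ a0) (ha : a0 ≤ a) (hm : m0 ≤ mass g) (hM : mass g * g ≤ M1)
    (hMpos : 0 < mass g * g) (hN1 : cosh a ^ 2 ≤ cg)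
    (hN2 : 0 ≤ cosh a ^ 2 - a * sinh a * cosh a / (mass g * g))
    (hd : 0 < ca0 - cg + m0 * sg) (hr : 0 ≤ r)
    (h : (cg - ca0) * (ca1 - a0 * sa0 / M1) < r * (ca0 - cg + m0 * sg)) : Psi g a < r := by
  unfold Psi
  have e1 := frac_mono ha h2 ha0 hs0 hMpos hM
  have e2 : a * sinh a * cosh a / (mass g * g) = a * (sinh a * cosh a) / (mass g * g) := by ring
  refine frac_upper (by rw [hcg]; linarith) hN2 (by rw [hcg]; linarith)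
    (by rw [e2]; linarith) hd ?_ hr h
  rw [mul_assoc, hsg, hcg]
  have := mul_le_mul_of_nonneg_right hm hsg0
  linarith

theorem Psi_c_eq (g c : ℝ) : Psi g c = (cosh c ^ 2 - cosh g ^ 2) *
    (c * sinh c * cosh c / (mass g * g) - cosh c ^ 2) /
    (cosh c ^ 2 - cosh g ^ 2 + mass g * sinh g * cosh g) := by
  unfold Psi
  congr 1
  ring

theorem Psi_c_lower {g c cg sg cc0 cc1 sc0 c0 m1 M1 r : ℝ}
    (hcg : cosh g ^ 2 = cg) (hsg : sinh g * cosh g = sg) (hsg0 : 0 ≤ sg)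
    (h0 : cc0 ≤ cosh c ^ 2) (h1 : cosh c ^ 2 ≤ cc1) (h2 : sc0 ≤ sinh c * cosh c)
    (hs0 : 0 ≤ sc0) (hc0 : 0 ≤ c0) (hc : c0 ≤ c) (hm : mass g ≤ m1) (hM : mass g * g ≤ M1)
    (hMpos : 0 < mass g * g)
    (hD : 0 < cosh c ^ 2 - cosh g ^ 2 + mass g * sinh g * cosh g)
    (hn1 : 0 ≤ cc0 - cg) (hn2 : 0 ≤ c0 * sc0 / M1 - cc1) (hr : 0 ≤ r)
    (h : r * (cc1 - cg + m1 * sg) < (cc0 - cg) * (c0 * sc0 / M1 - cc1)) : r < Psi g c := by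
  rw [Psi_c_eq]
  have e1 := frac_mono hc h2 hc0 hs0 hMpos hM
  have e2 : c * sinh c * cosh c / (mass g * g) = c * (sinh c * cosh c) / (mass g * g) := by ring
  refine frac_lower hn1 hn2 (by rw [hcg]; linarith) (by rw [e2]; linarith) hD ?_ hr h
  rw [mul_assoc, hsg, hcg]
  have := mul_le_mul_of_nonneg_right hm hsg0
  linarith

theorem Psi_c_upper {g c cg sg cc0 cc1 sc1 c1 m0 M0 r : ℝ}
    (hcg : cosh g ^ 2 = cg) (hsg : sinh g * cosh g = sg) (hsg0 : 0 ≤ sg)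
    (h0 : cc0 ≤ cosh c ^ 2) (h1 : cosh c ^ 2 ≤ cc1) (h2 : sinh c * cosh c ≤ sc1)
    (hc0 : 0 < c) (hc : c ≤ c1) (hm : m0 ≤ mass g) (hM : M0 ≤ mass g * g) (hM0 : 0 < M0)
    (hN1 : cg ≤ cosh c ^ 2)
    (hN2 : 0 ≤ c * sinh c * cosh c / (mass g * g) - cosh c ^ 2)
    (hd : 0 < cc0 - cg + m0 * sg) (hr : 0 ≤ r)
    (h : (cc1 - cg) * (c1 * sc1 / M0 - cc0) < r * (cc0 - cg + m0 * sg)) : Psi g c < r := by
  rw [Psi_c_eq]
  have hs0 : 0 ≤ sinh c * cosh c := mul_nonneg (sinh_nonneg_iff.2 hc0.le) (cosh_pos c).le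
  have e1 := frac_mono hc h2 hc0.le hs0 hM0 hM
  have e2 : c * sinh c * cosh c / (mass g * g) = c * (sinh c * cosh c) / (mass g * g) := by ring
  refine frac_upper (by rw [hcg]; linarith) hN2 (by rw [hcg]; linarith)
    (by rw [e2]; linarith) hd ?_ hr h
  rw [mul_assoc, hsg, hcg]
  have := mul_le_mul_of_nonneg_right hm hsg0
  linarith

end Pool.Agent.MP28e671
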