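import Mathlib
import Pool.Agent.MP28e671.NumPsi

set_option autoImplicit false

open Real Set

namespace Pool.Agent.MP28e671

theorem crit_u {a c : ℝ} (H : Adm (log (1944349/50000) / 2) a c) :
    Psi (log (1944349/50000) / 2) c < Psi (log (1944349/50000) / 2) a ∧
      (351013419117/250000000000) ≤ cosh c ^ 2 / cosh (log (1944349/50000) / 2) ^ 2 ∧
      cosh a ^ 2 / cosh (log (1944349/50000) / 2) ^ 2 ≤ (4868384391031/10000000000000) := by
  have hA0 := rAm_u H
  have hA1 := rAp_u H
  have hC0 := rCm_u H
  have hC1 := rCp_u H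
  have hq := lq_u
  have hL := L_u
  have hmq := mass_q (q := (1944349/50000)) (by norm_num)
  have hcg := cosh_half_log (x := (1944349/50000)) (by norm_num)
  have hsg : sinh (log (1944349/50000) / 2) * cosh (log (1944349/50000) / 2) = (3777993033801/388869800000) := by
    have h1 := sinh_two_mul (log (1944349/50000) / 2)
    rw [show 2 * (log (1944349/50000) / 2) = log (1944349/50000) by ring, sinh_log (by norm_num)] at h1
    norm_num at h1 ⊢
    linarith
  have hcg' : cosh (log (1944349/50000) / 2) ^ 2 = (3977427933801/388869800000) := by rw [hcg]; norm_num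
  set g := log (1944349/50000) / 2 with hg
  have a0 : (144133463193/100000000000) ≤ a := le_trans (by linarith [lAm_u.1]) hA0
  have a1 : a ≤ (57653385301/40000000000) := hA1.trans (by linarith [lAp_u.2])
  have c0 : (401504119093/200000000000) ≤ c := le_trans (by linarith [lCm_u.1]) hC0
  have c1 : c ≤ (100376029783/50000000000) := hC1.trans (by linarith [lCp_u.2])
  have apos : 0 < a := lt_of_lt_of_le (by norm_num) a0
  have cpos : 0 < c := lt_of_lt_of_le (by norm_num) c0
  obtain ⟨ca1, sa1⟩ := hyp_upper apos (by norm_num) hA1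
  obtain ⟨ca0, sa0⟩ := hyp_lower (by norm_num) hA0
  obtain ⟨cc1, sc1⟩ := hyp_upper cpos (by norm_num) hC1
  obtain ⟨cc0, sc0⟩ := hyp_lower (by norm_num) hC0
  replace ca1 : cosh a ^ 2 ≤ (49794682100189/10000000000000) := ca1.trans (by norm_num)
  replace sa1 : sinh a * cosh a ≤ (11128689119953/2500000000000) := sa1.trans (by norm_num)
  replace ca0 : (12448670511963/2500000000000) ≤ cosh a ^ 2 := le_trans (by norm_num) ca0
  replace sa0 : (44514756427147/10000000000000) ≤ sinh a * cosh a := le_trans (by norm_num) sa0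
  replace cc1 : cosh c ^ 2 ≤ (143609051548383/10000000000000) := cc1.trans (by norm_num)
  replace sc1 : sinh c * cosh c ≤ (69259420245809/5000000000000) := sc1.trans (by norm_num)
  replace cc0 : (143609051495899/10000000000000) ≤ cosh c ^ 2 := le_trans (by norm_num) cc0
  replace sc0 : (1385188404391/100000000000) ≤ sinh c * cosh c := le_trans (by norm_num) sc0
  have hqp : 0 < log (1944349/50000) := lt_of_lt_of_le (by norm_num) hq.1
  have m0 : (4122608572233/5000000000000) ≤ mass g := by
    rw [hmq, le_div_iff₀ hqp]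
    exact le_trans (le_trans (mul_le_mul_of_nonneg_left hq.2 (by norm_num)) (by norm_num)) hL.1
  have m1 : mass g ≤ (8245217144629/10000000000000) := by
    rw [hmq, div_le_iff₀ hqp]
    exact hL.2.trans (le_trans (by norm_num) (mul_le_mul_of_nonneg_left hq.1 (by norm_num)))
  have hMe : mass g * g = Lq (1944349/50000) / 2 := by
    rw [hmq, hg]; field_simp
  have M0 : (301829323889/200000000000) ≤ mass g * g := by rw [hMe]; linarith [hL.1]
  have M1 : mass g * g ≤ (3018293238941/2000000000000) := by rw [hMe]; linarith [hL.2]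
  have Mpos : 0 < mass g * g := lt_of_lt_of_le (by norm_num) M0
  have m0s := mul_le_mul_of_nonneg_right m0 (by norm_num : (0:ℝ) ≤ (3777993033801/388869800000))
  have hDa : 0 < cosh a ^ 2 - cosh g ^ 2 + mass g * sinh g * cosh g := by
    rw [mul_assoc, hsg, hcg']
    norm_num at m0s ⊢
    linarith
  have hDc : 0 < cosh c ^ 2 - cosh g ^ 2 + mass g * sinh g * cosh g := by
    rw [mul_assoc, hsg, hcg']
    norm_num at m0s ⊢
    linarith
  have hK : (351013419117/250000000000) ≤ cosh c ^ 2 / cosh g ^ 2 := by
    rw [hcg', le_div_iff₀ (by norm_num)]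
    exact le_trans (by norm_num) cc0
  have hJ : cosh a ^ 2 / cosh g ^ 2 ≤ (4868384391031/10000000000000) := by
    rw [hcg', div_le_iff₀ (by norm_num)]
    exact ca1.trans (by norm_num)
  have hup : Psi g c < (13835756056617/10000000000000) := by
    refine Psi_c_upper hcg' hsg (by norm_num) cc0 cc1 sc1 cpos c1 m0 M0 (by norm_num)
      (by linarith) ?_ (by norm_num) (by norm_num) (by norm_num)
    have e1 := frac_mono c0 sc0 (by norm_num) (by norm_num) Mpos M1
    rw [show c * sinh c * cosh c / (mass g * g) = c * (sinh c * cosh c) / (mass g * g) by ring]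
    norm_num at e1
    linarith
  have hlo : (13835756056617/10000000000000) < Psi g a :=
    Psi_a_lower hcg' hsg (by norm_num) ca0 ca1 sa1 apos a1 m1 M0 (by norm_num) hDa
      (by norm_num) (by norm_num) (by norm_num) (by norm_num)
  exact ⟨hup.trans hlo, hK, hJ⟩

theorem crit_v {a c : ℝ} (H : Adm (log (1944351/50000) / 2) a c) :
    Psi (log (1944351/50000) / 2) a < Psi (log (1944351/50000) / 2) c ∧
      (219383389673/156250000000) ≤ cosh c ^ 2 / cosh (log (1944351/50000) / 2) ^ 2 ∧
      cosh a ^ 2 / cosh (log (1944351/50000) / 2) ^ 2 ≤ (2434192282763/5000000000000) := by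
  have hA0 := rAm_v H
  have hA1 := rAp_v H
  have hC0 := rCm_v H
  have hC1 := rCp_v H
  have hq := lq_v
  have hL := L_v
  have hmq := mass_q (q := (1944351/50000)) (by norm_num)
  have hcg := cosh_half_log (x := (1944351/50000)) (by norm_num)
  have hsg : sinh (log (1944351/50000) / 2) * cosh (log (1944351/50000) / 2) = (3778000811201/388870200000) := by
    have h1 := sinh_two_mul (log (1944351/50000) / 2)
    rw [show 2 * (log (1944351/50000) / 2) = log (1944351/50000) by ring, sinh_log (by norm_num)] at h1
    norm_num at h1 ⊢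
    linarith
  have hcg' : cosh (log (1944351/50000) / 2) ^ 2 = (3977435911201/388870200000) := by rw [hcg]; norm_num
  set g := log (1944351/50000) / 2 with hg
  have a0 : (288267039689/200000000000) ≤ a := le_trans (by linarith [lAm_v.1]) hA0
  have a1 : a ≤ (4504172497/3125000000) := hA1.trans (by linarith [lAp_v.2])
  have c0 : (16060168867/8000000000) ≤ c := le_trans (by linarith [lCm_v.1]) hC0
  have c1 : c ≤ (80300844343/40000000000) := hC1.trans (by linarith [lCp_v.2])
  have apos : 0 < a := lt_of_lt_of_le (by norm_num) a0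
  have cpos : 0 < c := lt_of_lt_of_le (by norm_num) c0
  obtain ⟨ca1, sa1⟩ := hyp_upper apos (by norm_num) hA1
  obtain ⟨ca0, sa0⟩ := hyp_lower (by norm_num) hA0
  obtain ⟨cc1, sc1⟩ := hyp_upper cpos (by norm_num) hC1
  obtain ⟨cc0, sc0⟩ := hyp_lower (by norm_num) hC0
  replace ca1 : cosh a ^ 2 ≤ (49794732536607/10000000000000) := ca1.trans (by norm_num)
  replace sa1 : sinh a * cosh a ≤ (22257403616697/5000000000000) := sa1.trans (by norm_num)
  replace ca0 : (49794732484271/10000000000000) ≤ cosh a ^ 2 := le_trans (by norm_num) ca0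
  replace sa0 : (5564350897591/1250000000000) ≤ sinh a * cosh a := le_trans (by norm_num) sa0
  replace cc1 : cosh c ^ 2 ≤ (143609193644613/10000000000000) := cc1.trans (by norm_num)
  replace sc1 : sinh c * cosh c ≤ (34629745670097/2500000000000) := sc1.trans (by norm_num)
  replace cc0 : (143609193592129/10000000000000) ≤ cosh c ^ 2 := le_trans (by norm_num) cc0
  replace sc0 : (13851898262787/1000000000000) ≤ sinh c * cosh c := le_trans (by norm_num) sc0
  have hqp : 0 < log (1944351/50000) := lt_of_lt_of_le (by norm_num) hq.1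
  have m0 : (8245217496699/10000000000000) ≤ mass g := by
    rw [hmq, le_div_iff₀ hqp]
    exact le_trans (le_trans (mul_le_mul_of_nonneg_left hq.2 (by norm_num)) (by norm_num)) hL.1
  have m1 : mass g ≤ (8245217496807/10000000000000) := by
    rw [hmq, div_le_iff₀ hqp]
    exact hL.2.trans (le_trans (by norm_num) (mul_le_mul_of_nonneg_left hq.1 (by norm_num)))
  have hMe : mass g * g = Lq (1944351/50000) / 2 := by
    rw [hmq, hg]; field_simp
  have M0 : (60365884319/40000000000) ≤ mass g * g := by rw [hMe]; linarith [hL.1]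
  have M1 : mass g * g ≤ (3018294215981/2000000000000) := by rw [hMe]; linarith [hL.2]
  have Mpos : 0 < mass g * g := lt_of_lt_of_le (by norm_num) M0
  have m0s := mul_le_mul_of_nonneg_right m0 (by norm_num : (0:ℝ) ≤ (3778000811201/388870200000))
  have hDa : 0 < cosh a ^ 2 - cosh g ^ 2 + mass g * sinh g * cosh g := by
    rw [mul_assoc, hsg, hcg']
    norm_num at m0s ⊢
    linarith
  have hDc : 0 < cosh c ^ 2 - cosh g ^ 2 + mass g * sinh g * cosh g := by
    rw [mul_assoc, hsg, hcg']
    norm_num at m0s ⊢
    linarith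
  have hK : (219383389673/156250000000) ≤ cosh c ^ 2 / cosh g ^ 2 := by
    rw [hcg', le_div_iff₀ (by norm_num)]
    exact le_trans (by norm_num) cc0
  have hJ : cosh a ^ 2 / cosh g ^ 2 ≤ (2434192282763/5000000000000) := by
    rw [hcg', div_le_iff₀ (by norm_num)]
    exact ca1.trans (by norm_num)
  have hup : Psi g a < (691787912299/500000000000) := by
    refine Psi_a_upper hcg' hsg (by norm_num) ca0 ca1 sa0 (by norm_num) (by norm_num) a0 m0 M1 Mpos
      (by linarith) ?_ (by norm_num) (by norm_num) (by norm_num)
    have hs0 : 0 ≤ sinh a * cosh a := le_trans (by norm_num) sa0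
    have e1 := frac_mono a1 sa1 apos.le hs0 (by norm_num) M0
    rw [show a * sinh a * cosh a / (mass g * g) = a * (sinh a * cosh a) / (mass g * g) by ring]
    norm_num at e1
    linarith
  have hlo : (691787912299/500000000000) < Psi g c :=
    Psi_c_lower hcg' hsg (by norm_num) cc0 cc1 sc0 (by norm_num) (by norm_num) c0 m1 M1 Mpos hDc
      (by norm_num) (by norm_num) (by norm_num) (by norm_num)
  exact ⟨hup.trans hlo, hK, hJ⟩

end Pool.Agent.MP28e671
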