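import Mathlib
import Pool.Agent.MP28e671.NearR5

set_option autoImplicit false

open Real Set

namespace Pool.Agent.MP28e671

/-- `2 artanh T` -/
noncomputable def gam (T : ℝ) : ℝ := log (1 + T) - log (1 - T)

/-- the mass as a function of `T = tanh g` -/
noncomputable def mT (T : ℝ) : ℝ := (log 2 - log (1 - T ^ 2)) / gam T

/-- ratio of the square roots -/
noncomputable def sr (T x : ℝ) : ℝ := √(T ^ 2 - x) / √(1 - x)

/-- `γ - s h0` -/
noncomputable def NN (T x : ℝ) : ℝ := gam T - sr T x * h0 T x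

theorem gam_hasDerivAt {T : ℝ} (hT0 : 0 < T) (hT1 : T < 1) :
    HasDerivAt gam (2 / (1 - T ^ 2)) T := by
  have h1 : HasDerivAt (fun T : ℝ => 1 + T) 1 T := (hasDerivAt_id T).const_add 1
  have h2 : HasDerivAt (fun T : ℝ => 1 - T) (-1) T := (hasDerivAt_id T).const_sub 1
  have p1 : 0 < 1 + T := by linarith
  have p2 : 0 < 1 - T := by linarith
  have p3 : 0 < 1 - T ^ 2 := by nlinarith
  have h3 := (h1.log p1.ne').sub (h2.log p2.ne')
  refine h3.congr_deriv ?_
  field_simp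
  ring

theorem gam_pos {T : ℝ} (hT0 : 0 < T) (hT1 : T < 1) : 0 < gam T := by
  unfold gam
  have := log_lt_log (show 0 < 1 - T by linarith) (show 1 - T < 1 + T by linarith)
  linarith

theorem Lc_hasDerivAt {T : ℝ} (hT2 : T ^ 2 < 1) :
    HasDerivAt (fun T : ℝ => log 2 - log (1 - T ^ 2)) (2 * T / (1 - T ^ 2)) T := by
  have h1 : HasDerivAt (fun T : ℝ => 1 - T ^ 2) (-(2 * T)) T := by
    have := ((hasDerivAt_id T).pow 2).const_sub 1
    refine this.congr_deriv ?_
    simp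
  have p3 : 0 < 1 - T ^ 2 := by linarith
  have h3 := (h1.log p3.ne').const_sub (log 2)
  refine h3.congr_deriv ?_
  ring

theorem mT_hasDerivAt {T : ℝ} (hT0 : 0 < T) (hT1 : T < 1) :
    HasDerivAt mT (2 * (T - mT T) / ((1 - T ^ 2) * gam T)) T := by
  have p3 : 0 < 1 - T ^ 2 := by nlinarith
  have p4 := gam_pos hT0 hT1
  have h1 := (Lc_hasDerivAt (T := T) (by linarith)).div (gam_hasDerivAt hT0 hT1) p4.ne'
  refine h1.congr_deriv ?_
  unfold mT
  field_simp

theorem sqrtT_hasDerivAt {T x : ℝ} (hx : x < T ^ 2) :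
    HasDerivAt (fun T : ℝ => √(T ^ 2 - x)) (T / √(T ^ 2 - x)) T := by
  have h1 : HasDerivAt (fun T : ℝ => T ^ 2 - x) (2 * T) T := by
    have := ((hasDerivAt_id T).pow 2).sub_const x
    refine this.congr_deriv ?_
    simp
  have h4 : 0 < √(T ^ 2 - x) := sqrt_pos.2 (by linarith)
  have h2 := h1.sqrt (by linarith)
  refine h2.congr_deriv ?_
  field_simp

theorem h0_hasDerivAt_T {T x : ℝ} (hT0 : 0 < T) (hT1 : T ^ 2 < 1) (hx : x < T ^ 2) :
    HasDerivAt (fun T => h0 T x) (2 * √(1 - x) / (√(T ^ 2 - x) * (1 - T ^ 2))) T := by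
  have h3 : 0 < √(1 - x) := sqrt_pos.2 (by linarith)
  have h4 : 0 < √(T ^ 2 - x) := sqrt_pos.2 (by linarith)
  have p3 : 0 < 1 - T ^ 2 := by linarith
  have d1 : HasDerivAt (fun T : ℝ => T * √(1 - x)) (1 * √(1 - x)) T :=
    (hasDerivAt_id T).mul_const _
  have d2 := sqrtT_hasDerivAt hx
  have h1 : HasDerivAt (fun T : ℝ => 1 - T ^ 2) (-(2 * T)) T := by
    have := ((hasDerivAt_id T).pow 2).const_sub 1
    refine this.congr_deriv ?_
    simp
  have d3 := ((((d1.add d2).log (by simp only [Pi.add_apply]; positivity)).const_mul 2).sub_const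
    (log x)).sub (h1.log p3.ne')
  refine d3.congr_deriv ?_
  simp only [Pi.add_apply]
  have hs1 : √(1 - x) ^ 2 = 1 - x := sq_sqrt (by linarith)
  have hs2 : √(T ^ 2 - x) ^ 2 = T ^ 2 - x := sq_sqrt (by linarith)
  set q := √(1 - x) with hq
  set p := √(T ^ 2 - x) with hp
  have hpos : 0 < T * q + p := by positivity
  have hx' : x = 1 - q ^ 2 := by linarith
  have hrel : T ^ 2 = p ^ 2 + 1 - q ^ 2 := by linarith
  field_simp
  linear_combination (-T) * hrel

theorem hI_hasDerivAt_T {T x : ℝ} (hT0 : 0 < T) (hT1 : T ^ 2 < 1) (hx : x < T ^ 2) :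
    HasDerivAt (fun T => hI T x) (2 * T * √(1 - x) / (√(T ^ 2 - x) * (1 - T ^ 2))) T := by
  have h3 : 0 < √(1 - x) := sqrt_pos.2 (by linarith)
  have h4 : 0 < √(T ^ 2 - x) := sqrt_pos.2 (by linarith)
  have p3 : 0 < 1 - T ^ 2 := by linarith
  have d2 := (sqrtT_hasDerivAt hx).const_add (√(1 - x))
  have h1 : HasDerivAt (fun T : ℝ => 1 - T ^ 2) (-(2 * T)) T := by
    have := ((hasDerivAt_id T).pow 2).const_sub 1
    refine this.congr_deriv ?_
    simp
  have d3 := ((d2.log (by positivity)).const_mul 2).sub (h1.log p3.ne')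
  refine d3.congr_deriv ?_
  have hs1 : √(1 - x) ^ 2 = 1 - x := sq_sqrt (by linarith)
  have hs2 : √(T ^ 2 - x) ^ 2 = T ^ 2 - x := sq_sqrt (by linarith)
  set q := √(1 - x) with hq
  set p := √(T ^ 2 - x) with hp
  have hpos : 0 < q + p := by positivity
  have hrel : T ^ 2 = p ^ 2 + 1 - q ^ 2 := by linarith
  field_simp
  linear_combination (-1) * hrel

end Pool.Agent.MP28e671
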