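import Mathlib
import Pool.Agent.MP28e671.UniqA

set_option autoImplicit false

open Real Set

namespace Pool.Agent.MP28e671

theorem h0_pos {T x : ℝ} (hT0 : 0 < T) (hT1 : T ^ 2 < 1) (hx : x < T ^ 2) (hx0 : x ≠ 0) :
    0 < h0 T x := by
  unfold h0
  have h3 : 0 < √(1 - x) := sqrt_pos.2 (by linarith)
  have h4 : 0 < √(T ^ 2 - x) := sqrt_pos.2 (by linarith)
  have hs1 : √(1 - x) ^ 2 = 1 - x := sq_sqrt (by linarith)
  have hs2 : √(T ^ 2 - x) ^ 2 = T ^ 2 - x := sq_sqrt (by linarith)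
  set q := √(1 - x) with hq
  set p := √(T ^ 2 - x) with hp
  have hpos : 0 < T * q + p := by positivity
  have hprod : (T * q + p) * (T * q - p) = x * (1 - T ^ 2) := by
    have : (T * q + p) * (T * q - p) = T ^ 2 * q ^ 2 - p ^ 2 := by ring
    rw [this, hs1, hs2]; ring
  have h5 : |x| * (1 - T ^ 2) < (T * q + p) ^ 2 := by
    have h6 : |x| * (1 - T ^ 2) = (T * q + p) * |T * q - p| := by
      rw [← abs_of_pos (show 0 < 1 - T ^ 2 by linarith), ← abs_mul, ← hprod, abs_mul,
        abs_of_pos hpos]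
    rw [h6, sq]
    apply mul_lt_mul_of_pos_left _ hpos
    rw [abs_lt]
    constructor <;> nlinarith
  have h7 : 0 < |x| := abs_pos.2 hx0
  have h8 := log_lt_log (mul_pos h7 (by linarith)) h5
  rw [log_mul h7.ne' (by linarith), log_abs, log_pow] at h8
  push_cast at h8
  linarith

theorem sr_pos {T x : ℝ} (hT1 : T ^ 2 < 1) (hx : x < T ^ 2) : 0 < sr T x := by
  unfold sr
  have h3 : 0 < √(1 - x) := sqrt_pos.2 (by linarith)
  have h4 : 0 < √(T ^ 2 - x) := sqrt_pos.2 (by linarith)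
  positivity

theorem sr_lt_one {T x : ℝ} (hT1 : T ^ 2 < 1) (hx : x < T ^ 2) : sr T x < 1 := by
  unfold sr
  have h3 : 0 < √(1 - x) := sqrt_pos.2 (by linarith)
  rw [div_lt_one h3]
  exact sqrt_lt_sqrt (by linarith) (by linarith)

theorem h0_expand' {T x : ℝ} (hT0 : 0 < T) (hT1 : T < 1) (hx : x < T ^ 2) (hx0 : x ≠ 0) :
    h0 T x = gam T + (log (1 - x) - log x) + 2 * log ((T + sr T x) / (1 + T)) := by
  have := h0_expand (γ := gam T) hT0 hT1 hx hx0 (by
    unfold gam
    rw [log_div (by linarith) (by linarith)])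
  exact this

theorem NN_pos {T x : ℝ} (hT0 : 0 < T) (hT1 : T < 1) (hx : x < T ^ 2) (hx0 : 1 / 2 ≤ x) :
    0 < NN T x := by
  have hT2 : T ^ 2 < 1 := by nlinarith
  have h1 := h0_pos hT0 hT2 hx (by linarith : x ≠ 0)
  have h2 := sr_pos hT2 hx
  have h3 := sr_lt_one hT2 hx
  have h4 := h0_expand' hT0 hT1 hx (by linarith : x ≠ 0)
  have h5 : log (1 - x) ≤ log x := log_le_log (by linarith) (by linarith)
  have h6 : log ((T + sr T x) / (1 + T)) < 0 := by
    apply log_neg
    · positivity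
    · rw [div_lt_one (by linarith)]
      linarith
  unfold NN
  nlinarith

theorem NN_hasDerivAt_T {T x : ℝ} (hT0 : 0 < T) (hT1 : T < 1) (hx : x < T ^ 2) :
    HasDerivAt (fun T => NN T x) (-(T * h0 T x / (√(T ^ 2 - x) * √(1 - x)))) T := by
  have hT2 : T ^ 2 < 1 := by nlinarith
  have h3 : 0 < √(1 - x) := sqrt_pos.2 (by linarith)
  have h4 : 0 < √(T ^ 2 - x) := sqrt_pos.2 (by linarith)
  have p3 : 0 < 1 - T ^ 2 := by linarith
  have d1 : HasDerivAt (fun T => sr T x) (T / √(T ^ 2 - x) / √(1 - x)) T :=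
    (sqrtT_hasDerivAt hx).div_const _
  have d2 := (gam_hasDerivAt hT0 hT1).sub (d1.mul (h0_hasDerivAt_T hT0 hT2 hx))
  refine d2.congr_deriv ?_
  unfold sr
  field_simp
  ring

theorem NN_T_anti {T1 T2 x : ℝ} (hT0 : 0 < T1) (h12 : T1 < T2) (hT2 : T2 < 1) (hx : x < T1 ^ 2)
    (hx0 : x ≠ 0) : NN T2 x < NN T1 x := by
  have hx' : ∀ T ∈ Icc T1 T2, x < T ^ 2 := by
    intro T hT
    have := hT.1
    nlinarith
  have hanti : StrictAntiOn (fun T => NN T x) (Icc T1 T2) := by
    refine strictAntiOn_of_deriv_neg (convex_Icc _ _) (fun T hT =>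
      (NN_hasDerivAt_T (by linarith [hT.1]) (by linarith [hT.2]) (hx' T hT)).continuousAt.continuousWithinAt) ?_
    intro T hT
    have hT' := interior_subset hT
    have hT0' : 0 < T := by linarith [hT'.1]
    have hT1' : T < 1 := by linarith [hT'.2]
    have hT2' : T ^ 2 < 1 := by nlinarith
    rw [(NN_hasDerivAt_T hT0' hT1' (hx' T hT')).deriv]
    have h1 := h0_pos hT0' hT2' (hx' T hT') hx0
    have h3 : 0 < √(1 - x) := sqrt_pos.2 (by linarith [hx' T hT'])
    have h4 : 0 < √(T ^ 2 - x) := sqrt_pos.2 (by linarith [hx' T hT'])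
    have : 0 < T * h0 T x / (√(T ^ 2 - x) * √(1 - x)) := by positivity
    linarith
  exact hanti ⟨le_rfl, h12.le⟩ ⟨h12.le, le_rfl⟩ h12

theorem NN_x_mono {T x1 x2 : ℝ} (hT0 : 0 < T) (hT1 : T < 1) (hx2 : 0 < x2) (h21 : x2 < x1)
    (hx1 : x1 < T ^ 2) : NN T x2 < NN T x1 := by
  have hT2 : T ^ 2 < 1 := by nlinarith
  have hs : sr T x1 < sr T x2 := by
    unfold sr
    have h3 : 0 < √(1 - x1) := sqrt_pos.2 (by linarith)
    have h4 : 0 < √(1 - x2) := sqrt_pos.2 (by linarith)
    rw [div_lt_div_iff₀ h3 h4, ← sqrt_mul (by linarith), ← sqrt_mul (by linarith)]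
    apply sqrt_lt_sqrt
    · exact mul_nonneg (by linarith) (by linarith)
    · nlinarith
  have hh : h0 T x1 < h0 T x2 := by
    unfold h0
    have h1 : √(1 - x1) < √(1 - x2) := sqrt_lt_sqrt (by linarith) (by linarith)
    have h2 : √(T ^ 2 - x1) < √(T ^ 2 - x2) := sqrt_lt_sqrt (by linarith) (by linarith)
    have h3 : 0 < √(1 - x1) := sqrt_pos.2 (by linarith)
    have h4 : 0 < √(T ^ 2 - x1) := sqrt_pos.2 (by linarith)
    have h5 : log (T * √(1 - x1) + √(T ^ 2 - x1)) < log (T * √(1 - x2) + √(T ^ 2 - x2)) := by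
      apply log_lt_log (by positivity)
      nlinarith
    have h6 : log x2 < log x1 := log_lt_log hx2 h21
    linarith
  have h1 := h0_pos hT0 hT2 hx1 (by linarith : x1 ≠ 0)
  have h2 := sr_pos hT2 hx1
  unfold NN
  have h3 := h0_pos hT0 hT2 (by linarith : x2 < T ^ 2) hx2.ne'
  nlinarith

/-- the rational factor, positive side -/
theorem rat_mono {p x1 x2 : ℝ} (hp : p ≤ 1) (hx2 : 0 < x2) (h21 : x2 < x1) (hx1 : x1 < p)  :
    x2 * (1 - x2) / (p - x2) < x1 * (1 - x1) / (p - x1) := by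
  have h1 : 0 < p - x1 := by linarith
  have h2 : 0 < p - x2 := by linarith
  rw [div_lt_div_iff₀ h2 h1]
  have e : x1 * (1 - x1) * (p - x2) - x2 * (1 - x2) * (p - x1) =
    (x1 - x2) * (p * (1 - x1 - x2) + x1 * x2) := by ring
  have h3 : 0 < p * (1 - x1 - x2) + x1 * x2 := by
    rcases le_total 0 (1 - x1 - x2) with h | h
    · have h5 : 0 < x1 * x2 := by nlinarith
      have h6 : 0 < p := by linarith
      positivity
    · have h5 : 0 < (1 - x1) * (1 - x2) := mul_pos (by linarith) (by linarith)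
      nlinarith
  have h4 : 0 < (x1 - x2) * (p * (1 - x1 - x2) + x1 * x2) := mul_pos (by linarith) h3
  linarith

theorem mT_lt_mono {T1 T2 : ℝ} (hT0 : 0 < T1) (h12 : T1 ≤ T2) (hT2 : T2 < 1) (h : mT T1 < T1) :
    mT T2 < T2 := by
  have key : ∀ T, 0 < T → T < 1 → (mT T < T ↔ 0 < T * gam T - (log 2 - log (1 - T ^ 2))) := by
    intro T h0 h1
    unfold mT
    rw [div_lt_iff₀ (gam_pos h0 h1)]
    constructor <;> intro h <;> linarith
  rw [key T1 hT0 (by linarith)] at h
  rw [key T2 (by linarith) hT2]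
  refine lt_of_lt_of_le h ?_
  have hmono : MonotoneOn (fun T => T * gam T - (log 2 - log (1 - T ^ 2))) (Icc T1 T2) := by
    have hd : ∀ T ∈ Icc T1 T2, HasDerivAt (fun T => T * gam T - (log 2 - log (1 - T ^ 2)))
        (gam T) T := by
      intro T hT
      have h0 : 0 < T := by linarith [hT.1]
      have h1 : T < 1 := by linarith [hT.2]
      have h2 : T ^ 2 < 1 := by nlinarith
      have := ((hasDerivAt_id T).mul (gam_hasDerivAt h0 h1)).sub (Lc_hasDerivAt h2)
      refine this.congr_deriv ?_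
      have : 1 - T ^ 2 ≠ 0 := by linarith
      simp only [id]
      field_simp
      ring
    refine monotoneOn_of_deriv_nonneg (convex_Icc _ _)
      (fun T hT => (hd T hT).continuousAt.continuousWithinAt)
      (fun T hT => (hd T (interior_subset hT)).differentiableAt.differentiableWithinAt) ?_
    intro T hT
    have hT' := interior_subset hT
    rw [(hd T hT').deriv]
    exact (gam_pos (by linarith [hT'.1]) (by linarith [hT'.2])).le
  exact hmono ⟨le_rfl, h12⟩ ⟨h12, le_rfl⟩ h12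

theorem mT_mono {T1 T2 : ℝ} (hT0 : 0 < T1) (h12 : T1 < T2) (hT2 : T2 < 1) (h : mT T1 < T1) :
    mT T1 < mT T2 := by
  have hmono : StrictMonoOn mT (Icc T1 T2) := by
    refine strictMonoOn_of_deriv_pos (convex_Icc _ _) (fun T hT =>
      (mT_hasDerivAt (by linarith [hT.1]) (by linarith [hT.2])).continuousAt.continuousWithinAt) ?_
    intro T hT
    have hT' := interior_subset hT
    have h0 : 0 < T := by linarith [hT'.1]
    have h1 : T < 1 := by linarith [hT'.2]
    rw [(mT_hasDerivAt h0 h1).deriv]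
    have h2 := mT_lt_mono hT0 hT'.1 h1 h
    have h3 := gam_pos h0 h1
    have h4 : 0 < 1 - T ^ 2 := by nlinarith
    have h5 : 0 < T - mT T := by linarith
    positivity
  exact hmono ⟨le_rfl, h12.le⟩ ⟨h12.le, le_rfl⟩ h12

/-- At fixed `x`, the potential increases with `T` as long as `NN > 0`. -/
theorem Phi_T_mono {T1 T2 x : ℝ} (hT0 : 0 < T1) (h12 : T1 < T2) (hT2 : T2 < 1) (hx : x < T1 ^ 2)
    (h : mT T1 < T1) (hN : ∀ T ∈ Icc T1 T2, 0 < NN T x) :
    hI T1 x - mT T1 * h0 T1 x < hI T2 x - mT T2 * h0 T2 x := by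
  have hx' : ∀ T ∈ Icc T1 T2, x < T ^ 2 := by
    intro T hT
    have := hT.1
    nlinarith
  have hd : ∀ T ∈ Icc T1 T2, HasDerivAt (fun T => hI T x - mT T * h0 T x)
      (2 * (T - mT T) / ((1 - T ^ 2) * gam T) * (NN T x * (√(1 - x) / √(T ^ 2 - x)))) T := by
    intro T hT
    have h0' : 0 < T := by linarith [hT.1]
    have h1 : T < 1 := by linarith [hT.2]
    have h2 : T ^ 2 < 1 := by nlinarith
    have h3 : 0 < √(1 - x) := sqrt_pos.2 (by linarith [hx' T hT])
    have h4 : 0 < √(T ^ 2 - x) := sqrt_pos.2 (by linarith [hx' T hT])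
    have h5 := gam_pos h0' h1
    have h6 : 0 < 1 - T ^ 2 := by linarith
    have := (hI_hasDerivAt_T h0' h2 (hx' T hT)).sub
      ((mT_hasDerivAt h0' h1).mul (h0_hasDerivAt_T h0' h2 (hx' T hT)))
    refine this.congr_deriv ?_
    unfold NN sr
    field_simp
    ring
  have hmono : StrictMonoOn (fun T => hI T x - mT T * h0 T x) (Icc T1 T2) := by
    refine strictMonoOn_of_deriv_pos (convex_Icc _ _) (fun T hT =>
      (hd T hT).continuousAt.continuousWithinAt) ?_
    intro T hT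
    have hT' := interior_subset hT
    have h0' : 0 < T := by linarith [hT'.1]
    have h1 : T < 1 := by linarith [hT'.2]
    have h2 : T ^ 2 < 1 := by nlinarith
    have h3 : 0 < √(1 - x) := sqrt_pos.2 (by linarith [hx' T hT'])
    have h4 : 0 < √(T ^ 2 - x) := sqrt_pos.2 (by linarith [hx' T hT'])
    rw [(hd T hT').deriv]
    have h5 := mT_lt_mono hT0 hT'.1 h1 h
    have h6 := gam_pos h0' h1
    have h7 : 0 < 1 - T ^ 2 := by linarith
    have h8 : 0 < T - mT T := by linarith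
    have h9 := hN T hT'
    positivity
  exact hmono ⟨le_rfl, h12.le⟩ ⟨h12.le, le_rfl⟩ h12

end Pool.Agent.MP28e671
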