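import Mathlib
import Pool.Agent.MP28e671.UniqB

set_option autoImplicit false

open Real Set

namespace Pool.Agent.MP28e671

theorem sr_hasDerivAt_x {T x : ℝ} (hT1 : T ^ 2 < 1) (hx : x < T ^ 2) :
    HasDerivAt (fun x => sr T x) (-((1 - T ^ 2) / (2 * √(T ^ 2 - x) * √(1 - x) ^ 3))) x := by
  have h3 : 0 < √(1 - x) := sqrt_pos.2 (by linarith)
  have h4 : 0 < √(T ^ 2 - x) := sqrt_pos.2 (by linarith)
  have d1 : HasDerivAt (fun x : ℝ => √(1 - x)) ((-1) / (2 * √(1 - x))) x :=
    ((hasDerivAt_id x).const_sub 1).sqrt (by simp; linarith)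
  have d2 : HasDerivAt (fun x : ℝ => √(T ^ 2 - x)) ((-1) / (2 * √(T ^ 2 - x))) x :=
    ((hasDerivAt_id x).const_sub (T ^ 2)).sqrt (by simp; linarith)
  have d3 := d2.div d1 h3.ne'
  refine d3.congr_deriv ?_
  have hs1 : √(1 - x) ^ 2 = 1 - x := sq_sqrt (by linarith)
  have hs2 : √(T ^ 2 - x) ^ 2 = T ^ 2 - x := sq_sqrt (by linarith)
  set q := √(1 - x) with hq
  set p := √(T ^ 2 - x) with hp
  have hrel : T ^ 2 = p ^ 2 + 1 - q ^ 2 := by linarith
  field_simp
  linear_combination (-1) * hrel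

theorem NN_hasDerivAt_x {T x : ℝ} (hT0 : 0 < T) (hT1 : T ^ 2 < 1) (hx : x < T ^ 2) (hx0 : x ≠ 0) :
    HasDerivAt (fun x => NN T x) ((1 - T ^ 2) * h0 T x / (2 * √(T ^ 2 - x) * √(1 - x) ^ 3) +
      T / (x * (1 - x))) x := by
  have h3 : 0 < √(1 - x) := sqrt_pos.2 (by linarith)
  have h4 : 0 < √(T ^ 2 - x) := sqrt_pos.2 (by linarith)
  have hs1 : √(1 - x) ^ 2 = 1 - x := sq_sqrt (by linarith)
  have d1 := ((sr_hasDerivAt_x hT1 hx).mul (hasDerivAt_h0 hT0 hT1 hx hx0)).const_sub (gam T)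
  refine d1.congr_deriv ?_
  unfold sr
  set q := √(1 - x) with hq
  set p := √(T ^ 2 - x) with hp
  rw [← hs1]
  field_simp
  ring

/-- `-NN` at a negative point -/
noncomputable def Nc (T y : ℝ) : ℝ := -NN T (-y)

theorem Nc_hasDerivAt {T y : ℝ} (hT0 : 0 < T) (hT1 : T ^ 2 < 1) (hy : 0 < y) :
    HasDerivAt (fun y => Nc T y) ((1 - T ^ 2) * h0 T (-y) / (2 * √(T ^ 2 + y) * √(1 + y) ^ 3) -
      T / (y * (1 + y))) y := by
  have h1 := NN_hasDerivAt_x (T := T) (x := -y) hT0 hT1 (by nlinarith [sq_nonneg T]) (by linarith)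
  have h2 := HasDerivAt.comp (h₂ := fun x => NN T x) (h := fun y : ℝ => -y) y h1
    (hasDerivAt_neg y)
  have h3 := h2.neg
  unfold Nc
  refine h3.congr_deriv ?_
  rw [sub_neg_eq_add, sub_neg_eq_add]
  field_simp
  ring

/-- The quantity attached to the outer root. -/
noncomputable def Cf (T p y : ℝ) : ℝ := Nc T y * (y * (1 + y) / (p + y))

/-- The quantity attached to the inner root. -/
noncomputable def Df (T p x : ℝ) : ℝ := NN T x * (x * (1 - x) / (p - x))

theorem Cf_mono {T p Y1 Y2 : ℝ} (hT0 : 0 < T) (hT1 : T < 1) (hp : 0 < p) (hY1 : 0 < Y1)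
    (h12 : Y1 < Y2)
    (hN : ∀ y ∈ Icc Y1 Y2, T * (p + y) ≤ Nc T y * (p * (1 + 2 * y) + y ^ 2)) :
    Cf T p Y1 < Cf T p Y2 := by
  have hT2 : T ^ 2 < 1 := by nlinarith
  have hd : ∀ y ∈ Icc Y1 Y2, HasDerivAt (fun y => Cf T p y)
      ((1 - T ^ 2) * h0 T (-y) / (2 * √(T ^ 2 + y) * √(1 + y) ^ 3) * (y * (1 + y) / (p + y)) +
        (Nc T y * (p * (1 + 2 * y) + y ^ 2) - T * (p + y)) / (p + y) ^ 2) y := by
    intro y hy
    have hy0 : 0 < y := by linarith [hy.1]
    have hpy : p + y ≠ 0 := by linarith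
    have d1 : HasDerivAt (fun y : ℝ => y * (1 + y)) (1 * (1 + y) + y * 1) y :=
      (hasDerivAt_id y).mul ((hasDerivAt_id y).const_add 1)
    have d2 : HasDerivAt (fun y : ℝ => p + y) 1 y := (hasDerivAt_id y).const_add p
    have d3 := (Nc_hasDerivAt hT0 hT2 hy0).mul (d1.div d2 hpy)
    refine d3.congr_deriv ?_
    have h3 : 0 < √(1 + y) := sqrt_pos.2 (by linarith)
    have h4 : 0 < √(T ^ 2 + y) := sqrt_pos.2 (by positivity)
    simp only [Pi.div_apply]
    generalize Nc T y = N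
    generalize h0 T (-y) = H
    generalize √(1 + y) = q at *
    generalize √(T ^ 2 + y) = r at *
    field_simp
    ring
  have hmono : StrictMonoOn (fun y => Cf T p y) (Icc Y1 Y2) := by
    refine strictMonoOn_of_deriv_pos (convex_Icc _ _) (fun y hy =>
      (hd y hy).continuousAt.continuousWithinAt) ?_
    intro y hy
    have hy' := interior_subset hy
    have hy0 : 0 < y := by linarith [hy'.1]
    rw [(hd y hy').deriv]
    have h1 := h0_pos (T := T) (x := -y) hT0 hT2 (by nlinarith [sq_nonneg T]) (by linarith)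
    have h2 : 0 < 1 - T ^ 2 := by linarith
    have h3 : 0 < √(1 + y) := sqrt_pos.2 (by linarith)
    have h4 : 0 < √(T ^ 2 + y) := sqrt_pos.2 (by positivity)
    have h5 := hN y hy'
    have h6 : 0 ≤ (Nc T y * (p * (1 + 2 * y) + y ^ 2) - T * (p + y)) / (p + y) ^ 2 := by
      apply div_nonneg (by linarith) (by positivity)
    have h7 : 0 < (1 - T ^ 2) * h0 T (-y) / (2 * √(T ^ 2 + y) * √(1 + y) ^ 3) *
        (y * (1 + y) / (p + y)) := by positivity
    linarith
  exact hmono ⟨le_rfl, h12.le⟩ ⟨h12.le, le_rfl⟩ h12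

theorem Df_mono {T p x1 x2 : ℝ} (hT0 : 0 < T) (hT1 : T < 1) (hp1 : p ≤ 1) (hx2 : 1 / 2 ≤ x2)
    (h21 : x2 < x1) (hx1 : x1 < T ^ 2) (hxp : x1 < p) : Df T p x2 < Df T p x1 := by
  unfold Df
  have h1 := NN_x_mono hT0 hT1 (by linarith : 0 < x2) h21 hx1
  have h2 := NN_pos hT0 hT1 (by linarith : x2 < T ^ 2) hx2
  have h3 := rat_mono hp1 (by linarith : 0 < x2) h21 hxp
  have h5 : 0 < 1 - x2 := by linarith
  have h4 : 0 < x2 * (1 - x2) / (p - x2) := by
    have : 0 < p - x2 := by linarith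
    have : 0 < x2 := by linarith
    positivity
  exact mul_lt_mul'' h1 h3 h2.le h4.le

theorem gam_bound {T : ℝ} (hT0 : 9 / 10 ≤ T) (hT1 : T < 1) : (1 - T ^ 2) * gam T ≤ 0.57 := by
  have h1T : 0 < 1 - T := by linarith
  have hv : log (1 / 10) - log (1 - T) ≤ (1 / 10) / (1 - T) - 1 := by
    rw [← log_div (by norm_num) h1T.ne']
    exact log_le_sub_one_of_pos (by positivity)
  have hv2 : (1 - T) * (log (1 / 10) - log (1 - T)) ≤ T - 9 / 10 := by
    have := mul_le_mul_of_nonneg_left hv h1T.le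
    have e : (1 - T) * ((1 / 10) / (1 - T) - 1) = T - 9 / 10 := by field_simp; ring
    linarith
  have h2 : log (1 + T) ≤ log 2 := log_le_log (by linarith) (by linarith)
  have h3 : log 2 - log (1 / 10 : ℝ) ≤ 3 := by
    rw [← log_div (by norm_num) (by norm_num)]
    have := log_le_of (n := 20) (p := 3) (q := 1) (by norm_num) (by norm_num) (by norm_num)
    norm_num at this ⊢
    exact this
  have h4 : (1 - T) * gam T ≤ 2.1 - 2 * T := by
    unfold gam
    have h5 : (1 - T) * (log (1 + T) - log (1 - T)) =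
        (1 - T) * (log (1 + T) - log 2) + (1 - T) * (log 2 - log (1 / 10)) +
          (1 - T) * (log (1 / 10) - log (1 - T)) := by
      ring
    have h6 : (1 - T) * (log (1 + T) - log 2) ≤ 0 :=
      mul_nonpos_of_nonneg_of_nonpos h1T.le (by linarith)
    have h7 : (1 - T) * (log 2 - log (1 / 10)) ≤ (1 - T) * 3 :=
      mul_le_mul_of_nonneg_left h3 h1T.le
    rw [h5]
    linarith
  have h5 : (1 - T ^ 2) * gam T = (1 + T) * ((1 - T) * gam T) := by ring
  rw [h5]
  have h6 : (1 + T) * ((1 - T) * gam T) ≤ (1 + T) * (2.1 - 2 * T) :=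
    mul_le_mul_of_nonneg_left h4 (by linarith)
  nlinarith

theorem poly_aux {y : ℝ} (hy0 : 0.35 ≤ y) (hy1 : y ≤ 0.5) :
    (1.38 - 1.28 * y) * (1.92 * (1 + y)) ≤
      (65 / 54 + 1 - (10 / 3) * (y / (1 + y))) * (1.92 * (1 + y) - 0.19) - 0.77007 := by
  have hy1p : 0 < 1 + y := by linarith
  have h3 : (65 / 54 + 1 - (10 / 3) * (y / (1 + y))) * (1.92 * (1 + y) - 0.19) - 0.77007 =
    ((65 / 54 + 1) * (1 + y) - (10 / 3) * y) * (1.92 * (1 + y) - 0.19) / (1 + y) - 0.77007 := by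
    field_simp
  rw [h3, le_sub_iff_add_le, le_div_iff₀ hy1p]
  have a1 : 0 ≤ y - 0.35 := by linarith
  have a2 : 0 ≤ 0.5 - y := by linarith
  ring_nf
  nlinarith [mul_nonneg a1 a2, mul_nonneg (mul_nonneg a1 a2) a1, mul_nonneg (mul_nonneg a1 a2) a2, sq_nonneg (y - 0.42), mul_nonneg a1 (sq_nonneg (y - 0.42)), mul_nonneg a2 (sq_nonneg (y - 0.42))]

/-- lower bound of `Nc` -/
theorem Nc_ge {T y : ℝ} (hT0 : 9 / 10 ≤ T) (hT1 : T < 1) (hy0 : 0.35 ≤ y) (hy1 : y ≤ 0.5) :
    1.38 - 1.28 * y ≤ Nc T y := by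
  have hTp : 0 < T := by linarith
  have hT2 : T ^ 2 < 1 := by nlinarith
  have hx : -y < T ^ 2 := by nlinarith [sq_nonneg T]
  have h0e := h0_expand' hTp hT1 hx (by linarith : -y ≠ 0)
  rw [sub_neg_eq_add, log_neg_eq_log] at h0e
  have hs0 := sr_pos hT2 hx
  have hs1 := sr_lt_one hT2 hx
  unfold Nc NN
  set s := sr T (-y) with hs
  -- lower bound for s
  have hssq : s ^ 2 = (T ^ 2 + y) / (1 + y) := by
    rw [hs, sr, sub_neg_eq_add, sub_neg_eq_add, div_pow, sq_sqrt (by positivity),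
      sq_sqrt (by linarith)]
  have hy1p : 0 < 1 + y := by linarith
  have hs92 : 0.92 ≤ s := by
    have h1 : (0.92:ℝ) ^ 2 ≤ s ^ 2 := by
      rw [hssq, le_div_iff₀ hy1p]
      nlinarith
    exact le_of_sq_le_sq h1 hs0.le
  have h1s : (1 - s) * (1.92 * (1 + y)) ≤ 1 - T ^ 2 := by
    have h1 : (1 - s) * (1 + s) = (1 - T ^ 2) / (1 + y) := by
      have : (1 - s) * (1 + s) = 1 - s ^ 2 := by ring
      rw [this, hssq]
      field_simp
      ring
    have h2 : (1 - s) * (1.92 * (1 + y)) ≤ (1 - s) * ((1 + s) * (1 + y)) := by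
      apply mul_le_mul_of_nonneg_left _ (by linarith)
      apply mul_le_mul_of_nonneg_right _ hy1p.le
      linarith
    have h3 : (1 - s) * ((1 + s) * (1 + y)) = 1 - T ^ 2 := by
      rw [← mul_assoc, h1]
      field_simp
    linarith
  -- lower bound for the last logarithm
  have hl1 : -((1 - s) / (T + s)) ≤ log ((T + s) / (1 + T)) := by
    have hpos : 0 < (T + s) / (1 + T) := by positivity
    have h1 := one_sub_inv_le_log_of_pos hpos
    have e : 1 - ((T + s) / (1 + T))⁻¹ = -((1 - s) / (T + s)) := by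
      rw [inv_div]
      field_simp
      ring
    linarith
  -- lower bound for log((1+y)/y)
  have hl2 : 65 / 54 + 1 - (10 / 3) * (y / (1 + y)) ≤ log (1 + y) - log y := by
    have h1 : log ((10 / 3 : ℝ) * (y / (1 + y))) ≤ (10 / 3) * (y / (1 + y)) - 1 :=
      log_le_sub_one_of_pos (by positivity)
    rw [log_mul (by norm_num) (by positivity),
      log_div (x := y) (y := 1 + y) (by linarith) (by linarith)] at h1
    have h2 : (65 / 54 : ℝ) ≤ log (10 / 3) := by
      exact_mod_cast log_ge_of (n := 10 / 3) (p := 65) (q := 54) (by norm_num) (by norm_num)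
        (by norm_num)
    linarith
  have hg := gam_bound hT0 hT1
  have hgp := gam_pos hTp hT1
  set L := log (1 + y) - log y with hL
  have hL1 : 0 ≤ L := by
    have := log_le_log (show 0 < y by linarith) (show y ≤ 1 + y by linarith)
    linarith
  have hL2 : L ≤ 1.36 := by
    have h1 : L ≤ log (1 / 0.35 + 1) := by
      rw [hL, ← log_div (by linarith) (by linarith)]
      apply log_le_log (by positivity)
      rw [add_comm 1 y, add_div, div_self (by linarith : y ≠ 0), add_comm]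
      gcongr
    refine h1.trans ?_
    have := log_le_of (n := 27 / 7) (p := 34) (q := 25) (by norm_num) (by norm_num) (by norm_num)
    norm_num at this ⊢
    linarith
  have hfrac : 2 * s / (T + s) ≤ 1.053 := by
    rw [div_le_iff₀ (by linarith)]
    nlinarith
  -- assemble
  have hN1 : L - (1 - s) * (L + 1.053 + gam T) ≤ -(gam T - s * h0 T (-y)) := by
    rw [h0e]
    have h1 : -(2 * ((1 - s) / (T + s))) ≤ 2 * log ((T + s) / (1 + T)) := by linarith
    have h2 : s * (gam T + L + -(2 * ((1 - s) / (T + s)))) ≤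
        s * (gam T + L + 2 * log ((T + s) / (1 + T))) :=
      mul_le_mul_of_nonneg_left (by linarith) hs0.le
    have h3 : s * (2 * ((1 - s) / (T + s))) ≤ (1 - s) * 1.053 := by
      have e : s * (2 * ((1 - s) / (T + s))) = (1 - s) * (2 * s / (T + s)) := by ring
      rw [e]
      exact mul_le_mul_of_nonneg_left hfrac (by linarith)
    have e1 : s * (gam T + L + -(2 * ((1 - s) / (T + s)))) =
      s * (gam T + L) - s * (2 * ((1 - s) / (T + s))) := by ring
    have e2 : L - (1 - s) * (L + 1.053 + gam T) = s * (gam T + L) - (1 - s) * 1.053 - gam T := by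
      ring
    linarith
  refine le_trans ?_ hN1
  have hu : (1 - s) * (L + 1.053 + gam T) * (1.92 * (1 + y)) ≤ 0.19 * (L + 1.053) + 0.57 := by
    have h1 : (1 - s) * (L + 1.053 + gam T) * (1.92 * (1 + y)) =
      ((1 - s) * (1.92 * (1 + y))) * (L + 1.053 + gam T) := by ring
    rw [h1]
    have h2 : ((1 - s) * (1.92 * (1 + y))) * (L + 1.053 + gam T) ≤
        (1 - T ^ 2) * (L + 1.053 + gam T) :=
      mul_le_mul_of_nonneg_right h1s (by linarith)
    have h3 : (1 - T ^ 2) * (L + 1.053) ≤ 0.19 * (L + 1.053) :=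
      mul_le_mul_of_nonneg_right (by nlinarith) (by linarith)
    have e3 : (1 - T ^ 2) * (L + 1.053 + gam T) =
      (1 - T ^ 2) * (L + 1.053) + (1 - T ^ 2) * gam T := by ring
    linarith
  -- L (1 - .19 u) - .77007 u ≥ line
  have h92 : 0 < 1.92 * (1 + y) := by linarith
  have hfin : (1.38 - 1.28 * y) * (1.92 * (1 + y)) ≤
      (L - (1 - s) * (L + 1.053 + gam T)) * (1.92 * (1 + y)) := by
    have h1 : (L - (1 - s) * (L + 1.053 + gam T)) * (1.92 * (1 + y)) ≥
        L * (1.92 * (1 + y) - 0.19) - 0.77007 := by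
      have e4 : (L - (1 - s) * (L + 1.053 + gam T)) * (1.92 * (1 + y)) =
        L * (1.92 * (1 + y)) - (1 - s) * (L + 1.053 + gam T) * (1.92 * (1 + y)) := by ring
      rw [e4]
      linarith
    refine le_trans ?_ h1
    have h2 : (65 / 54 + 1 - (10 / 3) * (y / (1 + y))) * (1.92 * (1 + y) - 0.19) ≤
        L * (1.92 * (1 + y) - 0.19) := mul_le_mul_of_nonneg_right hl2 (by linarith)
    exact (poly_aux hy0 hy1).trans (sub_le_sub_right h2 _)
  exact le_of_mul_le_mul_right hfin h92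

end Pool.Agent.MP28e671
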