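import Mathlib
import Pool.Agent.MP28e671.UniqC
import Pool.Agent.MP28e671.AdmFacts
import Pool.Agent.MP28e671.UpperMeasureFinal

set_option autoImplicit false

open Real Set

namespace Pool.Agent.MP28e671

section trans

variable {g y : ℝ}

theorem gam_tanh (hg : 0 < g) : gam (tanh g) = 2 * g := by
  have h1 := artanh_tanh g
  have h2 := tanh_pos hg
  have h3 := tanh_lt_one g
  rw [artanh_eq_half_log ⟨by linarith, by linarith⟩, log_div (by linarith) (by linarith)] at h1
  unfold gam
  linarith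

theorem mT_tanh (hg : 0 < g) : mT (tanh g) = mass g := by
  unfold mT mass
  rw [gam_tanh hg, one_sub_tanh_sq, log_div one_ne_zero (pow_pos (cosh_pos g) 2).ne', log_one,
    zero_sub, sub_neg_eq_add, ← log_mul (by norm_num) (pow_pos (cosh_pos g) 2).ne']

theorem X1_lt (hy : 0 < y) : X 1 g y < tanh g ^ 2 := by
  have := X_lt (B := 1) (g := g) one_pos hy
  rwa [one_mul] at this

theorem hI_X (hg : 0 < g) (hy : 0 < y) : hI (tanh g) (X 1 g y) = 2 * y := by
  have hT2 : tanh g ^ 2 < 1 := by
    have := tanh_pos hg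
    have := tanh_lt_one g
    nlinarith
  have h1 := hI_eq (T := tanh g) (x := X 1 g y) (B := 1) one_pos hT2 (X1_lt hy)
  rw [one_mul (X 1 g y), gI_X one_pos hy.le] at h1
  exact h1.symm

theorem h0_X (hg : 0 < g) (hy : 0 < y) (hx : X 1 g y ≠ 0) :
    h0 (tanh g) (X 1 g y) = log |(tanh g + tanh y) / (tanh g - tanh y)| := by
  have hT2 : tanh g ^ 2 < 1 := by
    have := tanh_pos hg
    have := tanh_lt_one g
    nlinarith
  have h1 := h0_eq (T := tanh g) (x := X 1 g y) (B := 1) one_pos (tanh_pos hg) hT2 (X1_lt hy) hx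
  rw [one_mul (X 1 g y), g0_X one_pos hg hy.le] at h1
  exact h1.symm

theorem phi_X (hg : 0 < g) (hy : 0 < y) (hx : X 1 g y ≠ 0) (al : ℝ) :
    hI (tanh g) (X 1 g y) - al * h0 (tanh g) (X 1 g y) = phi al (tanh g) y := by
  rw [hI_X hg hy, h0_X hg hy hx, phi]

theorem sr_X (hy : 0 < y) : sr (tanh g) (X 1 g y) = tanh y := by
  unfold sr
  have h1 := sqrt_B_sub_X (B := 1) (g := g) one_pos y
  have h2 := sqrt_b_sub_X (B := 1) (g := g) one_pos hy.le
  rw [one_mul] at h2
  rw [h1, h2, sqrt_one, tanh_eq_sinh_div_cosh]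
  have h3 := cosh_pos g
  have h4 := cosh_pos y
  field_simp

end trans

theorem X2_eq (g y : ℝ) : X 2 g y = 2 * X 1 g y := by
  unfold X; ring

/-- for an admissible triple the scaled inner end is at least `1/2` -/
theorem adm_half_le {g a c : ℝ} (h : Adm g a c) : 1 / 2 ≤ X 1 g a := by
  have := adm_one_le measStmt h
  rw [X2_eq] at this
  linarith

theorem adm_outer_le {g a c : ℝ} (h : Adm g a c) : -X 1 g c ≤ 1 / 2 := by
  by_contra hcon
  push Not at hcon
  have hg := h.g_pos
  have hal := mass_pos hg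
  have hT := tanh_pos hg
  have hmT : mass g < tanh g := h.2.2.2.1
  have hm1 : mass g < 1 := hmT.trans (tanh_lt_one g)
  have hgc : g < c := h.2.2.1
  have hb0 : 0 < 2 * tanh g ^ 2 := by positivity
  have hb2 : 2 * tanh g ^ 2 < 2 := by have := tanh_lt_one g; nlinarith
  have hsb : √(2 * tanh g ^ 2 / 2) = tanh g := by
    rw [mul_div_cancel_left₀ _ (two_ne_zero), sqrt_sq hT.le]
  obtain ⟨y, hy, hxy⟩ := exists_y (B := 2) (g := g) two_pos (show (-1:ℝ) < 2 * tanh g ^ 2 by
    linarith)
  have hgy : g < y := (X_neg_iff two_pos hg hy.le).1 (by rw [← hxy]; norm_num)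
  have hyc : y < c := by
    by_contra hcon2
    push Not at hcon2
    have := X_anti' (B := 2) (g := g) two_pos (hg.trans hgc).le hcon2
    rw [← hxy, X2_eq] at this
    linarith
  have h1 := (right_table hal (hg.trans hgc) h.2.2.2.2.2 hy).1 hyc
  have h2 : phi (mass g) (tanh g) y < 0 := by
    by_contra h3
    push Not at h3
    have := (phi_nonneg_right hal hT (tanh_strictMono hgy)).1 h3
    linarith
  rw [← phi_eq two_pos hg hy.le, ← hxy] at h2
  obtain ⟨ν, hν1, hν2, hν3, hν4, hν5, hν6⟩ := measStmt hb0 hb2 hal (by rw [hsb]; exact hmT.le)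
  have h5 := hν5 (-1) (by linarith) (by norm_num)
  rw [gI_zero two_pos hg, log_R hg, sub_self, add_zero] at h5
  have h6 : 0 ≤ ∫ s, log |(-1) - s| ∂ν := by
    refine MeasureTheory.integral_nonneg_of_ae ?_
    have e1 : ∀ᵐ s ∂ν, s ∈ Icc (0:ℝ) 2 := by
      rw [MeasureTheory.ae_iff]; exact hν2
    filter_upwards [e1] with s hs
    refine log_nonneg ?_
    rw [le_abs]
    right
    linarith [hs.1]
  linarith

/-- The inner end decreases with `g`. -/
theorem X_mono {g a c g' a' c' : ℝ} (h : Adm g a c) (h' : Adm g' a' c') (hgg : g < g') :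
    X 1 g' a' < X 1 g a := by
  have hg := h.g_pos
  have hg' := h'.g_pos
  have hhalf := adm_half_le h
  obtain ⟨ha, hag, hgc, hmT, hra, -⟩ := h
  obtain ⟨ha', hag', hgc', hmT', hra', -⟩ := h'
  have hx := X1_lt (g := g) ha
  have hTT : tanh g < tanh g' := tanh_strictMono hgg
  have hT := tanh_pos hg
  have hT1 := tanh_lt_one g'
  have h1 := Phi_T_mono (x := X 1 g a) hT hTT hT1 hx (by rw [mT_tanh hg]; exact hmT) (fun T hTm =>
    NN_pos (by linarith [hTm.1]) (by linarith [hTm.2]) (by nlinarith [hTm.1]) hhalf)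
  rw [mT_tanh hg, mT_tanh hg', phi_X hg ha (by linarith)] at h1
  rw [(phi_zero_left (mass_pos hg) ha (tanh_strictMono hag)).2 hra] at h1
  have hx' : X 1 g a < tanh g' ^ 2 := by nlinarith
  obtain ⟨y, hy, hxy⟩ := exists_y (B := 1) (g := g') one_pos (by rw [one_mul]; exact hx')
  rw [hxy] at h1
  have hyg : y < g' := (X_pos_iff one_pos hg' hy.le).1 (by rw [← hxy]; linarith)
  rw [phi_X hg' hy (by rw [← hxy]; linarith),
    phi_pos_left (mass_pos hg') hy (tanh_strictMono hyg)] at h1
  have hya : y < a' := by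
    by_contra hcon
    push Not at hcon
    rcases hcon.eq_or_lt with h | h
    · rw [h] at hra'
      linarith
    · have := (left_table (mass_pos hg') (hmT'.trans hT1) (tanh_pos hg') ha' hra' hy).2 h
      linarith
  rw [hxy]
  exact X_anti one_pos hy.le hya

/-- the ratio form of the stationarity equation, inner root -/
theorem Psi_left {g a c : ℝ} (h : Adm g a c) :
    X 1 g a < mass g * tanh g ∧
    Psi g a = cosh g ^ 2 / (2 * g) * Df (tanh g) (mass g * tanh g) (X 1 g a) := by
  have hg := h.g_pos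
  have hadm := h
  have hhalf := adm_half_le h
  obtain ⟨ha, hag, hgc, hmT, hra, -⟩ := h
  have hm := mass_pos hg
  have hC := cosh_pos g
  obtain ⟨E1, E2⟩ := (adm_iff_log ha hag hgc hmT).1 hadm
  have hD := trans_left ha hag E1
  have hTC : tanh g * cosh g = sinh g := by
    rw [tanh_eq_sinh_div_cosh, div_mul_cancel₀ _ hC.ne']
  have hX : X 1 g a = 1 - cosh a ^ 2 / cosh g ^ 2 := by unfold X; ring
  have hpX : X 1 g a < mass g * tanh g := by
    have h1 : X 1 g a * cosh g ^ 2 < mass g * tanh g * cosh g ^ 2 := by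
      have e1 : X 1 g a * cosh g ^ 2 = cosh g ^ 2 - cosh a ^ 2 := by
        rw [hX]; field_simp
      have e2 : mass g * tanh g * cosh g ^ 2 = mass g * sinh g * cosh g := by
        rw [← hTC]; ring
      rw [e1, e2]
      linarith
    exact lt_of_mul_lt_mul_right h1 (by positivity)
  refine ⟨hpX, ?_⟩
  have hphi := (phi_zero_left hm ha (tanh_strictMono hag)).2 hra
  rw [← phi_X hg ha (by linarith), hI_X hg ha] at hphi
  have hh0 : h0 (tanh g) (X 1 g a) = 2 * a / mass g := by
    field_simp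
    linarith
  unfold Psi Df NN
  rw [gam_tanh hg, sr_X ha, hh0, tanh_eq_sinh_div_cosh a]
  have e3 : cosh a ^ 2 - cosh g ^ 2 + mass g * sinh g * cosh g =
      cosh g ^ 2 * (mass g * tanh g - X 1 g a) := by
    rw [← hTC, hX]
    field_simp
    ring
  rw [e3]
  have e4 : 0 < mass g * tanh g - X 1 g a := by linarith
  have hA := cosh_pos a
  have e5 : cosh g ^ 2 - cosh a ^ 2 = cosh g ^ 2 * X 1 g a := by rw [hX]; field_simp
  have e6 : cosh a ^ 2 = cosh g ^ 2 * (1 - X 1 g a) := by rw [hX]; field_simp; ring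
  have e7 : cosh a ^ 2 - a * sinh a * cosh a / (mass g * g) =
      cosh a ^ 2 * (1 - a * (sinh a / cosh a) / (mass g * g)) := by
    field_simp
  rw [e5, e7]
  generalize sinh a / cosh a = ta
  rw [e6]
  generalize mass g * tanh g - X 1 g a = D at *
  generalize X 1 g a = x at *
  field_simp

/-- the ratio form of the stationarity equation, outer root -/
theorem Psi_right {g a c : ℝ} (h : Adm g a c) :
    Psi g c = cosh g ^ 2 / (2 * g) * Cf (tanh g) (mass g * tanh g) (-X 1 g c) := by
  have hg := h.g_pos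
  obtain ⟨ha, hag, hgc, hmT, -, hrc⟩ := h
  have hm := mass_pos hg
  have hT := tanh_pos hg
  have hC := cosh_pos g
  have hc : 0 < c := hg.trans hgc
  have hTC : tanh g * cosh g = sinh g := by
    rw [tanh_eq_sinh_div_cosh, div_mul_cancel₀ _ hC.ne']
  have hX : X 1 g c = 1 - cosh c ^ 2 / cosh g ^ 2 := by unfold X; ring
  have hXn : X 1 g c < 0 := (X_neg_iff one_pos hg hc.le).2 hgc
  have hphi := (phi_zero_right hm hT (tanh_strictMono hgc)).2 hrc
  rw [← phi_X hg hc (by linarith), hI_X hg hc] at hphi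
  have hh0 : h0 (tanh g) (X 1 g c) = 2 * c / mass g := by
    field_simp
    linarith
  unfold Psi Cf Nc NN
  rw [neg_neg, gam_tanh hg, sr_X hc, hh0, tanh_eq_sinh_div_cosh c]
  have e3 : cosh c ^ 2 - cosh g ^ 2 + mass g * sinh g * cosh g =
      cosh g ^ 2 * (mass g * tanh g + -X 1 g c) := by
    rw [← hTC, hX]
    field_simp
    ring
  rw [e3]
  have e4 : 0 < mass g * tanh g + -X 1 g c := by
    have : 0 < mass g * tanh g := by positivity
    linarith
  have hA := cosh_pos c
  have e5 : cosh g ^ 2 - cosh c ^ 2 = cosh g ^ 2 * X 1 g c := by rw [hX]; field_simp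
  have e6 : cosh c ^ 2 = cosh g ^ 2 * (1 + -X 1 g c) := by rw [hX]; field_simp; ring
  have e7 : cosh c ^ 2 - c * sinh c * cosh c / (mass g * g) =
      cosh c ^ 2 * (1 - c * (sinh c / cosh c) / (mass g * g)) := by
    field_simp
  rw [e5, e7]
  generalize sinh c / cosh c = ta
  rw [e6]
  generalize mass g * tanh g + -X 1 g c = D at *
  generalize X 1 g c = x at *
  field_simp

end Pool.Agent.MP28e671
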