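import Mathlib
import Pool.Agent.MP28e671.Attained
import Pool.Agent.MP28e671.Stationary

set_option autoImplicit false

open Real Set

namespace Pool.Agent.MP28e671

theorem hasDerivAt_tanh' (x : ℝ) : HasDerivAt tanh (1 / cosh x ^ 2) x := by
  have h1 := (hasDerivAt_sinh x).div (hasDerivAt_cosh x) (cosh_pos x).ne'
  have e : (fun y => sinh y / cosh y) = tanh := by
    funext y; rw [tanh_eq_sinh_div_cosh]
  have h2 : HasDerivAt tanh ((cosh x * cosh x - sinh x * sinh x) / cosh x ^ 2) x := by
    rw [← e]; exact h1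
  convert h2 using 2
  nlinarith [cosh_sq x]

/-- the gap `g (tanh g - mass g)` -/
theorem gap_hasDerivAt {g : ℝ} (hg : 0 < g) :
    HasDerivAt (fun x => x * (tanh x - mass x)) (g / cosh g ^ 2) g := by
  have h1 := (hasDerivAt_id g).mul ((hasDerivAt_tanh' g).sub (mass_hasDerivAt hg))
  have h2 : HasDerivAt (fun x => x * (tanh x - mass x))
    (1 * (tanh g - mass g) + g * (1 / cosh g ^ 2 - (tanh g - mass g) / g)) g := h1
  have e : 1 * (tanh g - mass g) + g * (1 / cosh g ^ 2 - (tanh g - mass g) / g) =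
      g / cosh g ^ 2 := by
    have : g * ((tanh g - mass g) / g) = tanh g - mass g := by field_simp
    rw [mul_sub g, this]; ring
  rwa [e] at h2

theorem gap_mono {g h : ℝ} (hg : 0 < g) (hgh : g ≤ h) (hm : mass g < tanh g) :
    mass h < tanh h := by
  have hmono : StrictMonoOn (fun x => x * (tanh x - mass x)) (Ioi 0) := by
    apply strictMonoOn_of_deriv_pos (convex_Ioi 0)
    · intro x hx
      exact (gap_hasDerivAt hx).continuousAt.continuousWithinAt
    · intro x hx
      rw [interior_Ioi] at hx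
      rw [(gap_hasDerivAt hx).deriv]
      have : 0 < x := hx
      have := cosh_pos x
      positivity
  rcases hgh.eq_or_lt with rfl | hlt
  · exact hm
  · have h1 := hmono hg (hg.trans hlt) hlt
    have h2 : 0 < g * (tanh g - mass g) := mul_pos hg (by linarith)
    have h3 : 0 < h * (tanh h - mass h) := h2.trans h1
    have h4 := (pos_iff_pos_of_mul_pos h3).1 (hg.trans hlt)
    linarith

/-- `tanh c * log (sinh (c + h) / sinh (c - h)) > 2 h` -/
theorem tanh_mul_log {h c : ℝ} (hh : 0 < h) (hc : h < c) :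
    2 * h < tanh c * (log (sinh (c + h)) - log (sinh (c - h))) := by
  set T := tanh h with hT
  have hT0 : 0 < T := tanh_pos hh
  have hTc : T < tanh c := tanh_lt_tanh.2 hc
  have hc0 : 0 < tanh c := hT0.trans hTc
  have hc1 : tanh c < 1 := tanh_lt_one c
  set u := T / tanh c with hu
  have hTu : T < u := by
    rw [hu, lt_div_iff₀ hc0]
    nlinarith
  have hu1 : u < 1 := by rw [hu, div_lt_one hc0]; exact hTc
  -- the log as `log ((1+u)/(1-u))`
  have ps1 : 0 < sinh (c + h) := sinh_pos_iff.2 (by linarith)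
  have ps2 : 0 < sinh (c - h) := sinh_pos_iff.2 (by linarith)
  have hL : log (sinh (c + h)) - log (sinh (c - h)) = log (1 + u) - log (1 - u) := by
    rw [← log_div ps1.ne' ps2.ne', ← log_div (by linarith) (by linarith)]
    congr 1
    rw [hu, hT, sinh_add, sinh_sub, tanh_eq_sinh_div_cosh, tanh_eq_sinh_div_cosh]
    have p1 := cosh_pos h
    have p2 := cosh_pos c
    have p3 : 0 < sinh c := sinh_pos_iff.2 (by linarith)
    have p4 : 0 < sinh c * cosh h - cosh c * sinh h := by rw [← sinh_sub]; exact ps2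
    rw [div_eq_div_iff p4.ne' (by
      have : 1 - sinh h / cosh h / (sinh c / cosh c) =
        (sinh c * cosh h - cosh c * sinh h) / (sinh c * cosh h) := by
          field_simp
      rw [this]; positivity)]
    field_simp
  have hLT : 2 * h = log (1 + T) - log (1 - T) := by
    have hT1 : T < 1 := tanh_lt_one h
    rw [← log_div (by linarith) (by linarith)]
    have : (1 + T) / (1 - T) = exp (2 * h) := by
      rw [hT, tanh_eq]
      have e1 : exp (2 * h) = exp h * exp h := by rw [← exp_add]; ring_nf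
      have e2 : exp h * exp (-h) = 1 := by rw [← exp_add]; simp
      have e3 : 0 < exp h := exp_pos h
      have e4 : 0 < exp (-h) := exp_pos _
      have e5 : 1 - (exp h - exp (-h)) / (exp h + exp (-h)) = 2 * exp (-h) / (exp h + exp (-h)) := by
        field_simp; ring
      have e6 : 1 + (exp h - exp (-h)) / (exp h + exp (-h)) = 2 * exp h / (exp h + exp (-h)) := by
        field_simp; ring
      rw [e5, e6, e1]
      field_simp
      nlinarith
    rw [this, log_exp]
  -- monotonicity of `T * (log (1+x) - log (1-x)) - 2 h x`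
  have hder : ∀ x ∈ Ico T 1, HasDerivAt (fun x => T * (log (1 + x) - log (1 - x)) - 2 * h * x)
      (T * (1 / (1 + x) - (-1) / (1 - x)) - 2 * h * 1) x := by
    intro x hx
    have a1 : HasDerivAt (fun x : ℝ => 1 + x) 1 x := by
      simpa using (hasDerivAt_id x).const_add (1:ℝ)
    have a2 : HasDerivAt (fun x : ℝ => 1 - x) (-1) x := by
      simpa using (hasDerivAt_id x).const_sub (1:ℝ)
    have n1 : (1:ℝ) + x ≠ 0 := (by linarith [hx.1] : (0:ℝ) < 1 + x).ne'
    have n2 : (1:ℝ) - x ≠ 0 := (by linarith [hx.2] : (0:ℝ) < 1 - x).ne'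
    exact (((a1.log n1).sub (a2.log n2)).const_mul T).sub
      ((hasDerivAt_id x).const_mul (2 * h))
  have hkey : 2 * h < 2 * T / (1 - T ^ 2) := by
    have h1 := self_lt_sinh_iff.2 (show 0 < 2 * h by linarith)
    rw [sinh_two_mul] at h1
    have p1 := cosh_pos h
    have : 2 * T / (1 - T ^ 2) = 2 * sinh h * cosh h := by
      have e : 1 - T ^ 2 = 1 / cosh h ^ 2 := by
        rw [hT, tanh_eq_sinh_div_cosh]
        field_simp
        nlinarith [cosh_sq h]
      rw [e, hT, tanh_eq_sinh_div_cosh]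
      field_simp
    rw [this]; exact h1
  have hmono : StrictMonoOn (fun x => T * (log (1 + x) - log (1 - x)) - 2 * h * x) (Ico T 1) := by
    apply strictMonoOn_of_deriv_pos (convex_Ico T 1)
    · intro x hx
      exact (hder x hx).continuousAt.continuousWithinAt
    · intro x hx
      rw [interior_Ico] at hx
      rw [(hder x ⟨hx.1.le, hx.2⟩).deriv]
      have q1 : 0 < 1 - x := by linarith [hx.2]
      have q2 : 0 < 1 + x := by linarith [hx.1]
      have q3 : 1 - x ^ 2 < 1 - T ^ 2 := by nlinarith [hx.1]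
      have q4 : 0 < 1 - x ^ 2 := by nlinarith
      have q5 : T * (1 / (1 + x) - (-1) / (1 - x)) = 2 * T / (1 - x ^ 2) := by
        have : 1 - x ^ 2 = (1 - x) * (1 + x) := by ring
        rw [this]
        field_simp
        ring
      have q6 : 2 * T / (1 - T ^ 2) < 2 * T / (1 - x ^ 2) := by
        apply div_lt_div_of_pos_left (by linarith) q4 q3
      rw [q5]
      linarith
  have hT1 : T < 1 := tanh_lt_one h
  have hfin := hmono ⟨le_refl T, hT1⟩ ⟨hTu.le, hu1⟩ hTu
  simp only at hfin
  rw [← hLT] at hfin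
  rw [hL]
  have hu2 : u * tanh c = T := by rw [hu]; field_simp
  have h5 : 2 * h * u < T * (log (1 + u) - log (1 - u)) := by nlinarith
  have hu0 : 0 < u := hT0.trans hTu
  rw [← hu2] at h5
  have h6 : u * (2 * h) < u * (tanh c * (log (1 + u) - log (1 - u))) := by nlinarith
  exact lt_of_mul_lt_mul_left h6 hu0.le

/-- the value of `c` along the curve `cosh c ^ 2 = K * cosh h ^ 2` -/
noncomputable def cK (K h : ℝ) : ℝ := arsinh (√(K * cosh h ^ 2 - 1))

theorem cK_spec {K h : ℝ} (hK : 1 < K) (hh : 0 < h) :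
    cosh (cK K h) ^ 2 = K * cosh h ^ 2 ∧ h < cK K h := by
  have p1 := one_lt_cosh.2 hh.ne'
  have h1 : 0 < K * cosh h ^ 2 - 1 := by nlinarith
  have h2 : cosh (cK K h) ^ 2 = K * cosh h ^ 2 := by
    rw [cosh_sq, cK, sinh_arsinh, sq_sqrt h1.le]; ring
  refine ⟨h2, ?_⟩
  have h3 : 0 ≤ cK K h := by
    rw [cK, arsinh_nonneg_iff]; exact sqrt_nonneg _
  by_contra hcon
  push Not at hcon
  have h4 : cosh (cK K h) ≤ cosh h := by
    rw [cosh_le_cosh, abs_of_nonneg h3, abs_of_pos hh]; exact hcon
  have h5 := cosh_pos (cK K h)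
  have h6 : cosh (cK K h) ^ 2 ≤ cosh h ^ 2 := pow_le_pow_left₀ h5.le h4 2
  have h7 : 0 < cosh h ^ 2 := by positivity
  have h8 : cosh h ^ 2 < K * cosh h ^ 2 := by nlinarith
  linarith

theorem cK_hasDerivAt {K h : ℝ} (hK : 1 < K) (hh : 0 < h) :
    HasDerivAt (cK K) (tanh h / tanh (cK K h)) h := by
  obtain ⟨s1, s2⟩ := cK_spec hK hh
  have p1 := one_lt_cosh.2 hh.ne'
  have h1 : 0 < K * cosh h ^ 2 - 1 := by nlinarith
  have d1 : HasDerivAt (fun x => K * cosh x ^ 2 - 1) (K * (2 * cosh h * sinh h)) h := by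
    have : HasDerivAt (fun x => K * cosh x ^ 2 - 1)
      (K * (((2:ℕ):ℝ) * cosh h ^ (2 - 1) * sinh h)) h :=
      (((hasDerivAt_cosh h).pow 2).const_mul K).sub_const 1
    have e : (K * (((2:ℕ):ℝ) * cosh h ^ (2 - 1) * sinh h)) = K * (2 * cosh h * sinh h) := by
      norm_num
    rwa [e] at this
  have d2 := (d1.sqrt h1.ne').arsinh
  have d3 : HasDerivAt (cK K) ((√(1 + √(K * cosh h ^ 2 - 1) ^ 2))⁻¹ *
      (K * (2 * cosh h * sinh h) / (2 * √(K * cosh h ^ 2 - 1)))) h := by
    exact d2
  convert d3 using 1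
  have e1 : √(1 + √(K * cosh h ^ 2 - 1) ^ 2) = cosh (cK K h) := by
    rw [sq_sqrt h1.le, show 1 + (K * cosh h ^ 2 - 1) = K * cosh h ^ 2 by ring, ← s1,
      sqrt_sq (cosh_pos _).le]
  have e2 : √(K * cosh h ^ 2 - 1) = sinh (cK K h) := by rw [cK, sinh_arsinh]
  rw [e1, e2, tanh_eq_sinh_div_cosh, tanh_eq_sinh_div_cosh]
  have p2 := cosh_pos (cK K h)
  have p3 := cosh_pos h
  have p4 : 0 < sinh (cK K h) := sinh_pos_iff.2 (hh.trans s2)
  field_simp
  rw [s1]; ring

/-- the function whose zero is the right root, along fixed `Y` -/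
noncomputable def PhiY (K h : ℝ) : ℝ :=
  mass h * (log (sinh (cK K h + h)) - log (sinh (cK K h - h))) - 2 * cK K h

theorem PhiY_hasDerivAt {K h : ℝ} (hK : 1 < K) (hh : 0 < h) :
    HasDerivAt (PhiY K) ((tanh h - mass h) * ((log (sinh (cK K h + h)) -
      log (sinh (cK K h - h))) / h - 2 / tanh (cK K h))) h := by
  obtain ⟨s1, s2⟩ := cK_spec hK hh
  have dc := cK_hasDerivAt hK hh
  have dc1 : HasDerivAt (fun x => cK K x + x) (tanh h / tanh (cK K h) + 1) h :=
    dc.add (hasDerivAt_id h)
  have dc2 : HasDerivAt (fun x => cK K x - x) (tanh h / tanh (cK K h) - 1) h :=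
    dc.sub (hasDerivAt_id h)
  have d1 := logsinh_hasDerivAt dc1 (by linarith)
  have d2 := logsinh_hasDerivAt dc2 (by linarith)
  have d3 := ((mass_hasDerivAt hh).mul (d1.sub d2)).sub (dc.const_mul 2)
  have d4 : HasDerivAt (PhiY K) ((tanh h - mass h) / h * (log (sinh (cK K h + h)) -
      log (sinh (cK K h - h))) + mass h * ((tanh h / tanh (cK K h) + 1) * cosh (cK K h + h) /
        sinh (cK K h + h) - (tanh h / tanh (cK K h) - 1) * cosh (cK K h - h) /
        sinh (cK K h - h)) - 2 * (tanh h / tanh (cK K h))) h := d3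
  convert d4 using 1
  set c := cK K h with hc
  have hc0 : 0 < c := hh.trans s2
  have p1 : 0 < sinh (c + h) := sinh_pos_iff.2 (by linarith)
  have p2 : 0 < sinh (c - h) := sinh_pos_iff.2 (by linarith)
  have p3 : 0 < sinh c := sinh_pos_iff.2 hc0
  have p4 := cosh_pos c
  have p5 := cosh_pos h
  have key : (tanh h / tanh c + 1) * cosh (c + h) /
        sinh (c + h) - (tanh h / tanh c - 1) * cosh (c - h) / sinh (c - h) = 2 / tanh c := by
    have q1 : (tanh h / tanh c + 1) = sinh (c + h) / (cosh h * sinh c) := by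
      rw [tanh_eq_sinh_div_cosh, tanh_eq_sinh_div_cosh, sinh_add]
      field_simp
      ring
    have q2 : (tanh h / tanh c - 1) = -(sinh (c - h) / (cosh h * sinh c)) := by
      rw [tanh_eq_sinh_div_cosh, tanh_eq_sinh_div_cosh, sinh_sub]
      field_simp
      ring
    rw [q1, q2]
    have q3 : sinh (c + h) / (cosh h * sinh c) * cosh (c + h) / sinh (c + h) =
      cosh (c + h) / (cosh h * sinh c) := by field_simp
    have q4 : -(sinh (c - h) / (cosh h * sinh c)) * cosh (c - h) / sinh (c - h) =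
      -(cosh (c - h) / (cosh h * sinh c)) := by field_simp
    rw [q3, q4, cosh_add, cosh_sub, tanh_eq_sinh_div_cosh]
    field_simp
    ring
  rw [key]
  field_simp
  ring

theorem PhiY_mono {K g h : ℝ} (hK : 1 < K) (hg : 0 < g) (hgh : g < h) (hm : mass g < tanh g) :
    PhiY K g < PhiY K h := by
  have hmono : StrictMonoOn (PhiY K) (Icc g h) := by
    apply strictMonoOn_of_deriv_pos (convex_Icc g h)
    · intro x hx
      exact (PhiY_hasDerivAt hK (hg.trans_le hx.1)).continuousAt.continuousWithinAt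
    · intro x hx
      rw [interior_Icc] at hx
      have hx0 : 0 < x := hg.trans hx.1
      rw [(PhiY_hasDerivAt hK hx0).deriv]
      have h1 := gap_mono hg hx.1.le hm
      obtain ⟨s1, s2⟩ := cK_spec hK hx0
      have h2 := tanh_mul_log hx0 s2
      have h3 : 0 < tanh (cK K x) := tanh_pos (hx0.trans s2)
      apply mul_pos (by linarith)
      rw [sub_pos, div_lt_div_iff₀ h3 hx0]
      linarith
  exact hmono ⟨le_refl g, hgh.le⟩ ⟨hgh.le, le_refl h⟩ hgh

/-- The quotient `cosh c / cosh g` increases with `g`. -/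
theorem Y_mono {g a c g' a' c' : ℝ} (H : Adm g a c) (H' : Adm g' a' c') (hgg : g < g') :
    cosh c ^ 2 / cosh g ^ 2 < cosh c' ^ 2 / cosh g' ^ 2 := by
  have hg := H.g_pos
  have hg' := H'.g_pos
  have hgc : g < c := H.2.2.1
  have hgc' : g' < c' := H'.2.2.1
  have hm : mass g < tanh g := H.2.2.2.1
  have hm' : mass g' < tanh g' := H'.2.2.2.1
  obtain ⟨-, E⟩ := (adm_iff_log H.1 H.2.1 hgc hm).1 H
  have hc : 0 < c := hg.trans hgc
  have hc' : 0 < c' := hg'.trans hgc'
  set K := cosh c ^ 2 / cosh g ^ 2 with hKdef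
  have pg := cosh_pos g
  have pg' := cosh_pos g'
  have hK : 1 < K := by
    rw [hKdef, one_lt_div (by positivity)]
    exact cosh_sq_lt hg.le hgc
  have hcK : cK K g = c := by
    obtain ⟨s1, s2⟩ := cK_spec hK hg
    rw [hKdef, div_mul_cancel₀ _ (by positivity)] at s1
    by_contra hne
    rcases lt_or_gt_of_ne hne with h1 | h1
    · have := cosh_sq_lt (hg.trans s2).le h1
      rw [← hKdef] at s1
      linarith
    · have := cosh_sq_lt hc.le h1
      rw [← hKdef] at s1
      linarith
  have h0 : PhiY K g = 0 := by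
    unfold PhiY
    rw [hcK]; linarith
  have h1 := PhiY_mono hK hg hgg hm
  rw [h0] at h1
  obtain ⟨s1, s2⟩ := cK_spec hK hg'
  set y := cK K g' with hy
  -- the potential at `y` is negative, hence `y < c'`
  have h2 : y < c' := by
    by_contra hcon
    push Not at hcon
    have hy0 : 0 < y := hc'.trans_le hcon
    have r1 := H'.2.2.2.2.2
    have r2 := (right_table (mass_pos hg') hc' r1 hy0)
    have r3 := (phi_nonneg_right (mass_pos hg') (tanh_pos hg') (tanh_lt_tanh.2 s2))
    have r4 := phi_right_log (al := mass g') hg' s2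
    unfold PhiY at h1
    rw [← hy] at h1
    have r5 : tanh g' ≤ tanh y * tanh (y / mass g') := by
      rcases hcon.eq_or_lt with h | h
      · rw [← h, r1]
      · exact (r2.2 h).le
    have r6 := r3.2 r5
    rw [r4] at r6
    linarith
  have h3 := cosh_sq_lt (hg'.trans s2).le h2
  rw [lt_div_iff₀ (by positivity), ← s1]
  exact h3

end Pool.Agent.MP28e671
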