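import Mathlib
import Pool.Agent.MP28e671.NumCrit2
import Pool.Agent.MP28e671.UniqD
import Pool.Agent.MP28e671.YMono
import Pool.Agent.MP28e671.FinalAll

set_option autoImplicit false

open Real Set

namespace Pool.Agent.MP28e671

/-- `log 38.88698 / 2` -/
noncomputable def gU : ℝ := log (1944349/50000) / 2

/-- `log 38.88702 / 2` -/
noncomputable def gV : ℝ := log (1944351/50000) / 2

theorem gU_pos : 0 < gU := g_pos_q (by norm_num)

theorem gV_pos : 0 < gV := g_pos_q (by norm_num)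

theorem tanh_gU : 9 / 10 ≤ tanh gU := by
  unfold gU; rw [tanh_half_log (by norm_num)]; norm_num

theorem tanh_gV : 9 / 10 ≤ tanh gV := by
  unfold gV; rw [tanh_half_log (by norm_num)]; norm_num

theorem loc_of (hT : ∀ {g a c : ℝ}, Adm g a c → Psi g a = Psi g c → 9 / 10 ≤ tanh g)
    (hR : ∀ {g a c g' a' c' : ℝ}, Adm g a c → Adm g' a' c' → 9 / 10 ≤ tanh g → g < g' →
      Psi g a ≤ Psi g c → Psi g' a' < Psi g' c')
    {g a c : ℝ} (H : Adm g a c) (hP : Psi g a = Psi g c) : gU < g ∧ g < gV := by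
  obtain ⟨au, cu, Hu⟩ := Adm.exists_of gU_pos (mass_lt_tanh gU_pos tanh_gU)
  obtain ⟨av, cv, Hv⟩ := Adm.exists_of gV_pos (mass_lt_tanh gV_pos tanh_gV)
  have h1 := (crit_u Hu).1
  have h2 := (crit_v Hv).1
  constructor
  · by_contra hcon
    push Not at hcon
    rcases hcon.eq_or_lt with h | h
    · subst h
      obtain ⟨e1, e2⟩ := Adm.unique H Hu
      subst e1 e2
      exact absurd hP h1.ne'
    · have := hR H Hu (hT H hP) h hP.le
      exact absurd h1 this.not_gt
  · by_contra hcon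
    push Not at hcon
    rcases hcon.eq_or_lt with h | h
    · subst h
      obtain ⟨e1, e2⟩ := Adm.unique H Hv
      subst e1 e2
      exact absurd hP h2.ne
    · have := hR Hv H tanh_gV h h2.le
      exact absurd hP this.ne

theorem val_gt {g a c : ℝ} (H : Adm g a c) (h1 : gU < g) (h2 : g < gV) :
    1.8344304 < val g a c := by
  obtain ⟨au, cu, Hu⟩ := Adm.exists_of gU_pos (mass_lt_tanh gU_pos tanh_gU)
  obtain ⟨av, cv, Hv⟩ := Adm.exists_of gV_pos (mass_lt_tanh gV_pos tanh_gV)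
  have e1 := (crit_u Hu).2.1
  have e2 := (crit_v Hv).2.2
  have e3 := Y_mono Hu H h1
  have e4 := X_mono H Hv h2
  unfold X at e4
  have e5 : cosh a ^ 2 / cosh g ^ 2 < cosh av ^ 2 / cosh gV ^ 2 := by linarith
  have e6 : val g a c = 2 * (cosh c ^ 2 / cosh g ^ 2 - cosh a ^ 2 / cosh g ^ 2) := by
    unfold val; ring
  rw [e6]
  change _ ≤ cosh cu ^ 2 / cosh gU ^ 2 at e1
  change cosh av ^ 2 / cosh gV ^ 2 ≤ _ at e2
  norm_num at e1 e2 ⊢
  linarith

theorem gUV : 1.83032 < gU ∧ gV < 1.83034 := by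
  have h1 := lq_u.1
  have h2 := lq_v.2
  unfold gU gV
  constructor
  · norm_num at h1 ⊢; linarith
  · norm_num at h2 ⊢; linarith

end Pool.Agent.MP28e671
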