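import Mathlib
import Pool.Agent.MP28e671.UniqD
import Pool.Agent.MP28e671.YMono

set_option autoImplicit false

open Real Set

namespace Pool.Agent.MP28e671

theorem Y_mono' {g a c g' a' c' : ℝ} (h : Adm g a c) (h' : Adm g' a' c') (hgg : g < g') :
    -X 1 g c < -X 1 g' c' := by
  have := Y_mono h h' hgg
  unfold X
  linarith

theorem mass_bounds {g : ℝ} (hg : 0 < g) (hT : 9 / 10 ≤ tanh g) : 203 / 254 ≤ mass g := by
  have h1 := gam_tanh hg
  have h2 := tanh_lt_one g
  have h3 : 203 / 254 * log ((1 + tanh g) / (1 - tanh g)) ≤ log (2 / (1 - tanh g ^ 2)) := by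
    refine Lc_ge (T0 := 9 / 10) (by norm_num) hT h2 (by norm_num) (by norm_num) ?_
    rw [show (1 + 9 / 10 : ℝ) / (1 - 9 / 10) = 19 by norm_num,
      show (2:ℝ) / (1 - (9 / 10) ^ 2) = 200 / 19 by norm_num]
    exact_mod_cast mass_num (n := 19) (m := 200 / 19) (p := 203) (q := 254)
      (by norm_num) (by norm_num) (by norm_num)
  have h4 : log ((1 + tanh g) / (1 - tanh g)) = 2 * g := by
    rw [log_div (by linarith) (by linarith)]; exact h1
  have h5 : log (2 / (1 - tanh g ^ 2)) = log (2 * cosh g ^ 2) := by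
    rw [one_sub_tanh_sq]
    congr 1
    field_simp
  rw [h4, h5] at h3
  unfold mass
  rw [le_div_iff₀ (by positivity)]
  exact h3

theorem adm_outer_ge {g a c : ℝ} (h : Adm g a c) (hT : 9 / 10 ≤ tanh g) : 0.35 ≤ -X 1 g c := by
  have hg := h.g_pos
  obtain ⟨hz, hzz⟩ := adm_cmin h
  have hm1 : mass g < 1 := h.2.2.2.1.trans (tanh_lt_one g)
  have hm := mass_bounds hg hT
  have := z_bound (ε := 0) hz hzz le_rfl (by norm_num) hm1.le (by linarith)
  rw [X2_eq] at this
  linarith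

theorem Cf_cond {T p y : ℝ} (hT0 : 9 / 10 ≤ T) (hT1 : T < 1) (hp : 0.719 ≤ p) (hy0 : 0.35 ≤ y)
    (hy1 : y ≤ 0.5) : T * (p + y) ≤ Nc T y * (p * (1 + 2 * y) + y ^ 2) := by
  have h1 := Nc_ge hT0 hT1 hy0 hy1
  have h2 : 0 < p * (1 + 2 * y) + y ^ 2 := by positivity
  have h3 : (1.38 - 1.28 * y) * (p * (1 + 2 * y) + y ^ 2) ≤
      Nc T y * (p * (1 + 2 * y) + y ^ 2) := mul_le_mul_of_nonneg_right h1 h2.le
  refine le_trans ?_ h3
  have h4 : T * (p + y) ≤ p + y := by nlinarith
  refine h4.trans ?_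
  have a1 : 0 ≤ y - 0.35 := by linarith
  have a2 : 0 ≤ 0.5 - y := by linarith
  -- coefficient of p
  have h5 : 0.4 ≤ (1.38 - 1.28 * y) * (1 + 2 * y) - 1 := by nlinarith
  have h6 : 0.719 * ((1.38 - 1.28 * y) * (1 + 2 * y) - 1) ≤
      p * ((1.38 - 1.28 * y) * (1 + 2 * y) - 1) := mul_le_mul_of_nonneg_right hp (by linarith)
  have h7 : y - (1.38 - 1.28 * y) * y ^ 2 ≤ 0.719 * ((1.38 - 1.28 * y) * (1 + 2 * y) - 1) := by
    nlinarith [mul_nonneg a1 a2, mul_nonneg (mul_nonneg a1 a2) a1, mul_nonneg (mul_nonneg a1 a2) a2]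
  nlinarith

theorem comb_aux {n1 n2 m1 m2 r v a1 a2 b1 b2 : ℝ} (hn : n2 < n1) (hn2 : 0 < n2) (hm : m1 < m2)
    (hm1 : 0 < m1) (hr : 0 < r) (hv : 0 < v) (ha1 : 0 < a1) (ha2 : 0 < a2) (hb1 : 0 < b1)
    (hb2 : 0 < b2) (hab : a1 * b2 ≤ a2 * b1) :
    n2 * (r / a2) * (m1 * (v / b1)) < n1 * (r / a1) * (m2 * (v / b2)) := by
  have h1 : n2 * m1 < n1 * m2 := mul_lt_mul'' hn hm hn2.le hm1.le
  have e1 : n2 * (r / a2) * (m1 * (v / b1)) = (n2 * m1) * (r * v) / (a2 * b1) := by field_simp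
  have e2 : n1 * (r / a1) * (m2 * (v / b2)) = (n1 * m2) * (r * v) / (a1 * b2) := by field_simp
  rw [e1, e2]
  have h2 : (n2 * m1) * (r * v) < (n1 * m2) * (r * v) := mul_lt_mul_of_pos_right h1 (by positivity)
  have h3 : 0 < (n2 * m1) * (r * v) := by positivity
  rw [div_lt_div_iff₀ (by positivity) (by positivity)]
  calc n2 * m1 * (r * v) * (a1 * b2) ≤ n2 * m1 * (r * v) * (a2 * b1) :=
        mul_le_mul_of_nonneg_left hab h3.le
    _ < n1 * m2 * (r * v) * (a2 * b1) := mul_lt_mul_of_pos_right h2 (by positivity)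

theorem mul_le_one_aux {a b : ℝ} (ha0 : 0 < a) (ha : a < 1) (hb0 : 0 < b) (hb : b < 1) :
    a * b ≤ 1 := by nlinarith

theorem sq_lt_one_aux {a : ℝ} (ha0 : 0 < a) (ha : a < 1) : a ^ 2 < 1 := by nlinarith

/-- `D / C` is strictly decreasing. -/
theorem ratio_lt {g a c g' a' c' : ℝ} (h : Adm g a c) (h' : Adm g' a' c')
    (hT9 : 9 / 10 ≤ tanh g) (hgg : g < g')
    (hCpos : 0 < Nc (tanh g) (-X 1 g c)) :
    Df (tanh g') (mass g' * tanh g') (X 1 g' a') * Cf (tanh g) (mass g * tanh g) (-X 1 g c) <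
      Df (tanh g) (mass g * tanh g) (X 1 g a) * Cf (tanh g') (mass g' * tanh g') (-X 1 g' c') := by
  have hg := h.g_pos
  have hg' := h'.g_pos
  have hT := tanh_pos hg
  have hT1 := tanh_lt_one g
  have hT' := tanh_pos hg'
  have hT1' := tanh_lt_one g'
  have hTT : tanh g < tanh g' := tanh_strictMono hgg
  have hm := mass_pos hg
  have hm' := mass_pos hg'
  have hmm : mass g < mass g' := by
    rw [← mT_tanh hg, ← mT_tanh hg']
    exact mT_mono hT hTT hT1' (by rw [mT_tanh hg]; exact h.2.2.2.1)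
  have hXX := X_mono h h' hgg
  have hYY := Y_mono' h h' hgg
  have hX2 := adm_half_le h'
  have hX1T := X1_lt (g := g) h.1
  have hX2T := X1_lt (g := g') h'.1
  have hpX := (Psi_left h).1
  have hY1 := adm_outer_ge h hT9
  have hY2 := adm_outer_le h'
  have hmT : mass g < tanh g := h.2.2.2.1
  have hmT' : mass g' < tanh g' := h'.2.2.2.1
  have hp1 : mass g * tanh g ≤ 1 := mul_le_one_aux hm (hmT.trans hT1) hT hT1
  have hpp : mass g * tanh g < mass g' * tanh g' := mul_lt_mul'' hmm hTT hm.le hT.le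
  have hp719 : 0.719 ≤ mass g' * tanh g' := by
    have h3 := mul_le_mul (mass_bounds hg hT9) hT9 (by norm_num) hm.le
    linarith
  have hT2sq := sq_lt_one_aux hT' hT1'
  have hmT0 : 0 < mass g * tanh g := mul_pos hm hT
  set T1 := tanh g
  set T2 := tanh g'
  set p1 := mass g * T1
  set p2 := mass g' * T2
  set X1 := X 1 g a
  set X2 := X 1 g' a'
  set Y1 := -X 1 g c
  set Y2 := -X 1 g' c'
  -- step 1
  have s1 : Df T1 p1 X2 < Df T1 p1 X1 := Df_mono hT hT1 hp1 hX2 hXX hX1T hpX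
  have s2 : Cf T2 p2 Y1 < Cf T2 p2 Y2 := Cf_mono hT' hT1' (by linarith) (by linarith) hYY
    (fun y hy => Cf_cond (by linarith) hT1' hp719 (by linarith [hy.1]) (by linarith [hy.2]))
  have hX2T1 : X2 < T1 ^ 2 := hXX.trans hX1T
  have s3 : NN T2 X2 < NN T1 X2 := NN_T_anti hT hTT hT1' hX2T1 (by linarith)
  have s4 : 0 < NN T2 X2 := NN_pos hT' hT1' hX2T hX2
  have s5 : Nc T1 Y1 < Nc T2 Y1 := by
    unfold Nc
    have := NN_T_anti (x := -Y1) hT hTT hT1' (by have := sq_nonneg T1; linarith) (by linarith)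
    linarith
  have hX20 : 0 < X2 * (1 - X2) := mul_pos (by linarith) (by linarith)
  have hY10 : 0 < Y1 * (1 + Y1) := mul_pos (by linarith) (by linarith)
  have hcross : (p1 - X2) * (p2 + Y1) ≤ (p2 - X2) * (p1 + Y1) := by
    have h3 : 0 ≤ (p2 - p1) * (X2 + Y1) := mul_nonneg (by linarith) (by linarith)
    have e : (p2 - X2) * (p1 + Y1) - (p1 - X2) * (p2 + Y1) = (p2 - p1) * (X2 + Y1) := by ring
    linarith
  have s6 := comb_aux (a1 := p1 - X2) (a2 := p2 - X2) (b1 := p1 + Y1) (b2 := p2 + Y1) s3 s4 s5 hCpos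
    hX20 hY10 (by linarith) (by linarith) (by linarith) (by linarith) hcross
  have hD : 0 < Df T1 p1 X2 :=
    mul_pos (by linarith) (div_pos hX20 (by linarith))
  have hC : 0 < Cf T2 p2 Y1 :=
    mul_pos (by linarith) (div_pos hY10 (by linarith))
  have s7 : Df T1 p1 X2 * Cf T2 p2 Y1 < Df T1 p1 X1 * Cf T2 p2 Y2 := mul_lt_mul'' s1 s2 hD.le hC.le
  refine lt_trans ?_ s7
  exact s6

theorem Df_pos {g a c : ℝ} (h : Adm g a c) :
    0 < Df (tanh g) (mass g * tanh g) (X 1 g a) := by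
  have hg := h.g_pos
  have h1 := NN_pos (tanh_pos hg) (tanh_lt_one g) (X1_lt h.1) (adm_half_le h)
  have h2 := (Psi_left h).1
  have h3 := adm_half_le h
  have h4 := X1_lt (g := g) h.1
  have h5 : X 1 g a < 1 := by
    have := tanh_pos hg
    have := tanh_lt_one g
    nlinarith
  unfold Df
  have h6 : 0 < mass g * tanh g - X 1 g a := by linarith
  have h7 : 0 < 1 - X 1 g a := by linarith
  have h8 : 0 < X 1 g a := by linarith
  positivity

theorem Nc_pos_of {g a c : ℝ} (h : Adm g a c) (hP : Psi g a = Psi g c) :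
    0 < Nc (tanh g) (-X 1 g c) ∧ Df (tanh g) (mass g * tanh g) (X 1 g a) =
      Cf (tanh g) (mass g * tanh g) (-X 1 g c) := by
  have hg := h.g_pos
  have hC := cosh_pos g
  have h1 := (Psi_left h).2
  have h2 := Psi_right h
  rw [h1, h2] at hP
  have h3 : cosh g ^ 2 / (2 * g) ≠ 0 := by positivity
  have h4 := mul_left_cancel₀ h3 hP
  refine ⟨?_, h4⟩
  have h5 := Df_pos h
  rw [h4] at h5
  unfold Cf at h5
  have hXn : X 1 g c < 0 := (X_neg_iff one_pos hg (hg.trans h.2.2.1).le).2 h.2.2.1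
  have hmp : 0 < mass g * tanh g := mul_pos (mass_pos hg) (tanh_pos hg)
  have h6 : 0 < -X 1 g c * (1 + -X 1 g c) / (mass g * tanh g + -X 1 g c) := by
    have h7 : 0 < -X 1 g c := by linarith
    positivity
  exact (pos_iff_pos_of_mul_pos h5).2 h6

theorem crit_unique_high {g a c g' a' c' : ℝ} (h : Adm g a c) (h' : Adm g' a' c')
    (hT9 : 9 / 10 ≤ tanh g) (hgg : g < g') (hP : Psi g a = Psi g c) (hP' : Psi g' a' = Psi g' c') :
    False := by
  obtain ⟨h1, h2⟩ := Nc_pos_of h hP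
  obtain ⟨-, h3⟩ := Nc_pos_of h' hP'
  have := ratio_lt h h' hT9 hgg h1
  rw [h2, h3] at this
  linarith [mul_comm (Cf (tanh g') (mass g' * tanh g') (-X 1 g' c'))
    (Cf (tanh g) (mass g * tanh g) (-X 1 g c))]

theorem Nc_le {T y : ℝ} (hT0 : 0 < T) (hT1 : T < 1) (hy : 0 < y) :
    Nc T y ≤ log (1 + y) - log y := by
  have hT2 : T ^ 2 < 1 := sq_lt_one_aux hT0 hT1
  have hx : -y < T ^ 2 := by have := sq_nonneg T; linarith
  have h0e := h0_expand' hT0 hT1 hx (by linarith : -y ≠ 0)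
  rw [sub_neg_eq_add, log_neg_eq_log] at h0e
  have hs0 := sr_pos hT2 hx
  have hs1 := sr_lt_one hT2 hx
  have h1 : log ((T + sr T (-y)) / (1 + T)) ≤ 0 := by
    apply log_nonpos
    · positivity
    · rw [div_le_one (by linarith)]
      linarith
  have h2 : 0 ≤ log (1 + y) - log y := by
    have := log_le_log hy (show y ≤ 1 + y by linarith)
    linarith
  have h3 := gam_pos hT0 hT1
  unfold Nc NN
  rw [h0e]
  have h4 : sr T (-y) * (gam T + (log (1 + y) - log y) + 2 * log ((T + sr T (-y)) / (1 + T))) ≤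
      sr T (-y) * (gam T + (log (1 + y) - log y)) :=
    mul_le_mul_of_nonneg_left (by linarith) hs0.le
  have h5 : sr T (-y) * (gam T + (log (1 + y) - log y)) ≤ 1 * (gam T + (log (1 + y) - log y)) :=
    mul_le_mul_of_nonneg_right hs1.le (by linarith)
  linarith

theorem Cf_le {T p y : ℝ} (hT0 : 0 < T) (hT1 : T < 1) (hy : 0 < y) (hy1 : y ≤ 1 / 2)
    (hp : 0.52 ≤ p) : Cf T p y ≤ 0.9 := by
  have h1 := Nc_le hT0 hT1 hy
  have hl : log (1 + y) - log y ≤ 41 / 32 + (1 + y) / (18 / 5 * y) - 1 := by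
    rw [← log_div (by linarith) hy.ne']
    have h6 : (1 + y) / y = 18 / 5 * ((1 + y) / (18 / 5 * y)) := by field_simp
    rw [h6, log_mul (by norm_num) (by positivity)]
    have h7 := log_le_sub_one_of_pos (show 0 < (1 + y) / (18 / 5 * y) by positivity)
    have h8 := log_K_le
    linarith
  unfold Cf
  have hfac : 0 < y * (1 + y) / (p + y) := by
    have : 0 < p + y := by linarith
    positivity
  have h2 : Nc T y * (y * (1 + y) / (p + y)) ≤
      (41 / 32 + (1 + y) / (18 / 5 * y) - 1) * (y * (1 + y) / (p + y)) :=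
    mul_le_mul_of_nonneg_right (h1.trans hl) hfac.le
  refine h2.trans ?_
  have hpy : 0 < p + y := by linarith
  have e : (41 / 32 + (1 + y) / (18 / 5 * y) - 1) * (y * (1 + y) / (p + y)) =
      (9 / 32 * y + 5 / 18 * (1 + y)) * (1 + y) / (p + y) := by
    field_simp
    ring
  rw [e, div_le_iff₀ hpy]
  nlinarith [mul_nonneg hy.le (show (0:ℝ) ≤ 1 / 2 - y by linarith)]

/-- no critical triple with `tanh g < 9/10` -/
theorem no_crit_low {g a c : ℝ} (h : Adm g a c) (hT9 : tanh g < 9 / 10) :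
    Psi g a ≠ Psi g c := by
  intro hP
  obtain ⟨-, h2⟩ := Nc_pos_of h hP
  have hg := h.g_pos
  have hT := tanh_pos hg
  have hT1 := tanh_lt_one g
  have hm := mass_pos hg
  have hmT : mass g < tanh g := h.2.2.2.1
  have hm725 := mass_ge hg
  have hXT := X1_lt (g := g) h.1
  have hpX := (Psi_left h).1
  have hp52 : 0.52 ≤ mass g * tanh g := by
    have := mul_le_mul hm725 (hm725.trans hmT.le) (by norm_num) hm.le
    linarith
  have hYn : 0 < -X 1 g c := by
    have := (X_neg_iff one_pos hg (hg.trans h.2.2.1).le).2 h.2.2.1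
    linarith
  have hC := Cf_le hT hT1 hYn (adm_outer_le h) hp52
  rw [← h2] at hC
  -- comparison triple at tanh = 9/10
  obtain ⟨g1, hg1⟩ : ∃ g1, g1 = artanh (9 / 10) := ⟨_, rfl⟩
  have hg10 : 0 < g1 := by rw [hg1]; exact artanh_pos ⟨by norm_num, by norm_num⟩
  have hTg1 : tanh g1 = 9 / 10 := by rw [hg1]; exact tanh_artanh ⟨by norm_num, by norm_num⟩
  have hgg : g < g1 := by
    rw [← tanh_lt_tanh, hTg1]; exact hT9
  have hm1T : mass g1 < tanh g1 := by
    rw [← mT_tanh hg10]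
    exact mT_lt_mono hT (tanh_strictMono hgg).le (tanh_lt_one g1) (by rw [mT_tanh hg]; exact hmT)
  obtain ⟨a1, c1, hadm1⟩ := Adm.exists_of hg10 hm1T
  have hXX := X_mono h hadm1 hgg
  have hX1 := adm_half_le hadm1
  have hX1T := X1_lt (g := g1) hadm1.1
  have hpX1 := (Psi_left hadm1).1
  have hmm : mass g < mass g1 := by
    rw [← mT_tanh hg, ← mT_tanh hg10]
    exact mT_mono hT (tanh_strictMono hgg) (tanh_lt_one g1) (by rw [mT_tanh hg]; exact hmT)
  -- numerics at 9/10
  have hgam : gam (9 / 10) = log 19 := by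
    unfold gam
    rw [← log_div (by norm_num) (by norm_num)]
    norm_num
  have hl19 : (209 / 71 : ℝ) ≤ log 19 := by
    exact_mod_cast log_ge_of (n := 19) (p := 209) (q := 71) (by norm_num) (by norm_num)
      (by norm_num)
  have hl14 : log 14 ≤ (37 / 14 : ℝ) := by
    exact_mod_cast log_le_of (n := 14) (p := 37) (q := 14) (by norm_num) (by norm_num)
      (by norm_num)
  have hl14' : 0 < log (14:ℝ) := log_pos (by norm_num)
  have hmass1 : mass g1 ≤ 4 / 5 := by
    rw [← mT_tanh hg10, hTg1]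
    unfold mT
    rw [hgam, ← log_div (by norm_num) (by norm_num), div_le_iff₀ (by linarith)]
    have h5 : log ((2 / (1 - (9 / 10) ^ 2) : ℝ) ^ 5) ≤ log ((19:ℝ) ^ 4) :=
      log_le_log (by norm_num) (by norm_num)
    rw [log_pow, log_pow] at h5
    push_cast at h5
    linarith
  have hmass1' := mass_bounds hg10 (by rw [hTg1])
  -- the point with `tanh y = 39/50`
  obtain ⟨y, hy⟩ : ∃ y, y = artanh (39 / 50) := ⟨_, rfl⟩
  have hy0 : 0 < y := by rw [hy]; exact artanh_pos ⟨by norm_num, by norm_num⟩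
  have hTy : tanh y = 39 / 50 := by rw [hy]; exact tanh_artanh ⟨by norm_num, by norm_num⟩
  have hyg1 : y < g1 := by
    rw [← tanh_lt_tanh, hTg1, hTy]; norm_num
  have hXy : X 1 g1 y = 504 / 979 := by
    have e1 := one_sub_tanh_sq g1
    have e2 := one_sub_tanh_sq y
    rw [hTg1] at e1
    rw [hTy] at e2
    have p1 := cosh_pos g1
    have p2 := cosh_pos y
    have e3 : cosh g1 ^ 2 = 100 / 19 := by
      rw [eq_div_iff (by positivity)] at e1
      linarith
    have e4 : cosh y ^ 2 = 2500 / 979 := by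
      rw [eq_div_iff (by positivity)] at e2
      linarith
    unfold X
    rw [e3, e4]
    norm_num
  have e2 : |((9:ℝ) / 10 + 39 / 50) / (9 / 10 - 39 / 50)| = 14 := by
    rw [abs_of_pos] <;> norm_num
  have hphi : phi (mass g1) (tanh g1) y < 0 := by
    unfold phi
    rw [hTg1, hTy]
    have e1 : 2 * y = log (89 / 11) := by
      rw [hy, artanh_eq_half_log ⟨by norm_num, by norm_num⟩]
      norm_num
      ring
    rw [e1, e2]
    have h5 : log ((89 / 11 : ℝ) ^ 54) ≤ log ((14:ℝ) ^ 43) :=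
      log_le_log (by norm_num) (by norm_num)
    rw [log_pow, log_pow] at h5
    push_cast at h5
    have h6 : 203 / 254 * log 14 ≤ mass g1 * log 14 :=
      mul_le_mul_of_nonneg_right hmass1' hl14'.le
    linarith
  have hya : a1 < y := by
    by_contra hcon
    push Not at hcon
    have h5 : tanh y ≤ tanh g1 * tanh (y / mass g1) := by
      rcases hcon.eq_or_lt with h | h
      · rw [h]; exact hadm1.2.2.2.2.1.le
      · exact ((left_table (mass_pos hg10) (hm1T.trans (tanh_lt_one g1)) (tanh_pos hg10) hadm1.1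
          hadm1.2.2.2.2.1 hy0).1 h).le
    have := (phi_nonneg_left (mass_pos hg10) hy0 (tanh_strictMono hyg1)).2 h5
    linarith
  have hX0 : 504 / 979 < X 1 g1 a1 := by
    rw [← hXy]
    exact X_anti one_pos hadm1.1.le hya
  have hNN : 0.88 ≤ NN (9 / 10) (504 / 979) := by
    unfold NN
    have e3 := sr_X (g := g1) hy0
    have e4 := h0_X hg10 hy0 (by rw [hXy]; norm_num)
    rw [hXy, hTg1] at e3 e4
    rw [hTy] at e3 e4
    rw [e3, e4, e2, hgam]
    linarith
  rw [hTg1] at hpX1 hX1T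
  -- chain
  have hp1 : mass g * tanh g ≤ 1 := mul_le_one_aux hm (hmT.trans hT1) hT hT1
  have s1 : Df (tanh g) (mass g * tanh g) (X 1 g1 a1) < Df (tanh g) (mass g * tanh g) (X 1 g a) :=
    Df_mono hT hT1 hp1 hX1 hXX hXT hpX
  have s3 : NN (9 / 10) (X 1 g1 a1) < NN (tanh g) (X 1 g1 a1) :=
    NN_T_anti hT hT9 (by norm_num) (hXX.trans hXT) (by linarith)
  have s4 : 0 < NN (9 / 10) (X 1 g1 a1) := NN_pos (by norm_num) (by norm_num) hX1T hX1
  have hpp : mass g * tanh g < mass g1 * (9 / 10) := mul_lt_mul'' hmm hT9 hm.le hT.le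
  have hr : 0 < X 1 g1 a1 * (1 - X 1 g1 a1) := mul_pos (by linarith) (by linarith)
  have s5 : Df (9 / 10) (mass g1 * (9 / 10)) (X 1 g1 a1) <
      Df (tanh g) (mass g * tanh g) (X 1 g1 a1) := by
    unfold Df
    apply mul_lt_mul'' s3 _ s4.le (div_pos hr (by linarith)).le
    apply div_lt_div_of_pos_left hr (by linarith) (by linarith)
  have s6 : Df (9 / 10) (mass g1 * (9 / 10)) (504 / 979) <
      Df (9 / 10) (mass g1 * (9 / 10)) (X 1 g1 a1) :=
    Df_mono (by norm_num) (by norm_num) (by linarith) (by norm_num) hX0 hX1T hpX1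
  have s7 : 0.9 < Df (9 / 10) (mass g1 * (9 / 10)) (504 / 979) := by
    unfold Df
    have h5 : 0 < mass g1 * (9 / 10) - 504 / 979 := by linarith
    have h6 : (504 / 979 * (1 - 504 / 979)) / (0.72 - 504 / 979) ≤
        504 / 979 * (1 - 504 / 979) / (mass g1 * (9 / 10) - 504 / 979) := by
      apply div_le_div_of_nonneg_left (by norm_num) h5 (by linarith)
    calc (0.9:ℝ) < 0.88 * ((504 / 979 * (1 - 504 / 979)) / (0.72 - 504 / 979)) := by norm_num
      _ ≤ NN (9 / 10) (504 / 979) * (504 / 979 * (1 - 504 / 979) /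
          (mass g1 * (9 / 10) - 504 / 979)) := by
        apply mul_le_mul hNN h6 (by norm_num) (by linarith)
  linarith

/-- The system `Adm g a c`, `Psi g a = Psi g c` has at most one solution. -/
theorem crit_unique {g a c g' a' c' : ℝ} (h : Adm g a c) (h' : Adm g' a' c')
    (hP : Psi g a = Psi g c) (hP' : Psi g' a' = Psi g' c') : g = g' ∧ a = a' ∧ c = c' := by
  have hT : 9 / 10 ≤ tanh g := by
    by_contra hcon
    push Not at hcon
    exact no_crit_low h hcon hP
  have hT' : 9 / 10 ≤ tanh g' := by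
    by_contra hcon
    push Not at hcon
    exact no_crit_low h' hcon hP'
  rcases lt_trichotomy g g' with hgg | hgg | hgg
  · exact (crit_unique_high h h' hT hgg hP hP').elim
  · subst hgg
    exact ⟨rfl, h.unique h'⟩
  · exact (crit_unique_high h' h hT' hgg hP' hP).elim

end Pool.Agent.MP28e671
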