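import Mathlib
import Pool.Agent.MP28e671.FinalAll
import Pool.Agent.MP28e671.UniqE
import Pool.Agent.MP28e671.NumLow

set_option autoImplicit false

open Real Set

namespace Pool.Agent.MP28e671

theorem crit_order {g a c g' a' c' : ℝ} (h : Adm g a c) (h' : Adm g' a' c')
    (hT9 : 9 / 10 ≤ tanh g) (hgg : g < g') (hP : Psi g a ≤ Psi g c) : Psi g' a' < Psi g' c' := by
  have hg := h.g_pos
  have hg' := h'.g_pos
  have hC := cosh_pos g
  have hC' := cosh_pos g'
  have h1 := (Psi_left h).2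
  have h2 := Psi_right h
  rw [h1, h2] at hP
  have h3 : 0 < cosh g ^ 2 / (2 * g) := by positivity
  have h4 := le_of_mul_le_mul_left hP h3
  have h5 := Df_pos h
  have h5' := Df_pos h'
  have h6 : 0 < Cf (tanh g) (mass g * tanh g) (-X 1 g c) := h5.trans_le h4
  have h7 : 0 < Nc (tanh g) (-X 1 g c) := by
    have h6' := h6
    unfold Cf at h6'
    have hXn : X 1 g c < 0 := (X_neg_iff one_pos hg (hg.trans h.2.2.1).le).2 h.2.2.1
    have hmp : 0 < mass g * tanh g := mul_pos (mass_pos hg) (tanh_pos hg)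
    have h8 : 0 < -X 1 g c * (1 + -X 1 g c) / (mass g * tanh g + -X 1 g c) := by
      have h9 : 0 < -X 1 g c := by linarith
      positivity
    exact (pos_iff_pos_of_mul_pos h6').2 h8
  have h8 := ratio_lt h h' hT9 hgg h7
  have h9 : 0 < Cf (tanh g') (mass g' * tanh g') (-X 1 g' c') := by
    have : 0 < Df (tanh g) (mass g * tanh g) (X 1 g a) *
        Cf (tanh g') (mass g' * tanh g') (-X 1 g' c') := lt_trans (mul_pos h5' h6) h8
    exact (pos_iff_pos_of_mul_pos this).1 h5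
  have h10 : Df (tanh g') (mass g' * tanh g') (X 1 g' a') <
      Cf (tanh g') (mass g' * tanh g') (-X 1 g' c') := by
    by_contra hcon
    push Not at hcon
    have h11 : Df (tanh g) (mass g * tanh g) (X 1 g a) *
        Cf (tanh g') (mass g' * tanh g') (-X 1 g' c') ≤
        Cf (tanh g) (mass g * tanh g) (-X 1 g c) *
        Df (tanh g') (mass g' * tanh g') (X 1 g' a') := mul_le_mul h4 hcon h9.le h6.le
    rw [mul_comm (Cf (tanh g) (mass g * tanh g) (-X 1 g c))] at h11
    linarith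
  have h12 := (Psi_left h').2
  have h13 := Psi_right h'
  rw [h12, h13]
  exact mul_lt_mul_of_pos_left h10 (by positivity)

theorem crit_loc {g a c : ℝ} (h : Adm g a c) (hP : Psi g a = Psi g c) : gU < g ∧ g < gV := by
  refine loc_of ?_ ?_ h hP
  · intro g a c h hP
    by_contra hcon
    push Not at hcon
    exact no_crit_low h hcon hP
  · intro g a c g' a' c' h h' hT hgg hP
    exact crit_order h h' hT hgg hP

theorem exact_unique :
    (∃! p : ℝ × ℝ × ℝ, Adm p.1 p.2.1 p.2.2 ∧ Psi p.1 p.2.1 = Psi p.1 p.2.2) ∧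
    (∀ g a c, Adm g a c → Psi g a = Psi g c →
      sInf measures = val g a c ∧ 1.83032 < g ∧ g < 1.83034) ∧
    (∀ g : ℝ, 0 < g → mass g < tanh g → ∃! p : ℝ × ℝ, Adm g p.1 p.2) ∧
    IsLeast vals (sInf measures) ∧
    1.8344304 < sInf measures ∧ sInf measures < 1.8344305 := by
  obtain ⟨h1, h2, ⟨g, a, c, hadm, hPsi, hval⟩, h4⟩ := exact_value
  refine ⟨⟨(g, a, c), ⟨hadm, hPsi⟩, ?_⟩, ?_, h1, h2, ?_, ?_⟩
  · rintro ⟨g', a', c'⟩ ⟨h', hP'⟩
    obtain ⟨e1, e2, e3⟩ := crit_unique h' hadm hP' hPsi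
    simp only at e1 e2 e3
    rw [e1, e2, e3]
  · intro g' a' c' h' hP'
    have hl := crit_loc h' hP'
    obtain ⟨e1, e2, e3⟩ := crit_unique h' hadm hP' hPsi
    subst e1 e2 e3
    exact ⟨hval, gUV.1.trans hl.1, hl.2.trans gUV.2⟩
  · rw [hval]
    obtain ⟨l1, l2⟩ := crit_loc hadm hPsi
    exact val_gt hadm l1 l2
  · rw [mu_eq]
    exact muStar_lt_sharp

end Pool.Agent.MP28e671
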