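import Mathlib
import Pool.Agent.MP28e671.FinalAll

set_option autoImplicit false

open Real Set

namespace Pool.Agent.MP28e671

namespace Low

/-! ### monotonicity of the elementary building block -/

/-- `(σ - 1) (1 / σ - t ^ 2)` -/
theorem u_le {σ A t t0 : ℝ} (hσ : 1 ≤ σ) (hA : σ ≤ A) (ht0 : 0 < t0) (ht : t0 ≤ t)
    (hAt : A * t ≤ 1) :
    (σ - 1) * (1 / σ - t ^ 2) ≤ (A - 1) * (1 / A - t0 ^ 2) := by
  have hσ0 : 0 < σ := by linarith
  have hA0 : 0 < A := by linarith
  have htp : 0 < t := by linarith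
  have h1 : (σ - 1) * (1 / σ - t ^ 2) ≤ (A - 1) * (1 / A - t ^ 2) := by
    have e : (A - 1) * (1 / A - t ^ 2) - (σ - 1) * (1 / σ - t ^ 2) =
        (A - σ) * (1 / (σ * A) - t ^ 2) := by field_simp; ring
    have h2 : t ^ 2 ≤ 1 / (σ * A) := by
      rw [le_div_iff₀ (by positivity)]
      have h3 : σ * t ≤ 1 := le_trans (mul_le_mul_of_nonneg_right hA htp.le) hAt
      have h4 : 0 ≤ A * t := by positivity
      calc t ^ 2 * (σ * A) = (A * t) * (σ * t) := by ring
        _ ≤ 1 * 1 := mul_le_mul hAt h3 (by positivity) (by norm_num)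
        _ = 1 := by norm_num
    have := mul_nonneg (sub_nonneg.2 hA) (sub_nonneg.2 h2)
    linarith
  have h2 : (A - 1) * (1 / A - t ^ 2) ≤ (A - 1) * (1 / A - t0 ^ 2) := by
    apply mul_le_mul_of_nonneg_left _ (by linarith)
    have : t0 ^ 2 ≤ t ^ 2 := pow_le_pow_left₀ ht0.le ht 2
    linarith
  linarith

/-- `(1 - σ) (1 / σ - t ^ 2)` -/
theorem v_le {σ C t t0 : ℝ} (hC0 : 0 < C) (hC : C ≤ σ) (hσ : σ ≤ 1) (ht0 : 0 < t0) (ht : t0 ≤ t)
    (ht1 : t ≤ 1) :
    (1 - σ) * (1 / σ - t ^ 2) ≤ (1 - C) * (1 / C - t0 ^ 2) := by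
  have hσ0 : 0 < σ := by linarith
  have htp : 0 < t := by linarith
  have h0 : 0 ≤ 1 / σ - t ^ 2 := by
    have h1 : 1 ≤ 1 / σ := by rw [le_div_iff₀ hσ0]; linarith
    have h2 : t ^ 2 ≤ 1 := by nlinarith
    linarith
  have h1 : 1 / σ - t ^ 2 ≤ 1 / C - t0 ^ 2 := by
    have h2 : 1 / σ ≤ 1 / C := one_div_le_one_div_of_le hC0 hC
    have : t0 ^ 2 ≤ t ^ 2 := pow_le_pow_left₀ ht0.le ht 2
    linarith
  exact mul_le_mul (by linarith) h1 h0 (by linarith)

/-- lower bound of the left expression -/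
theorem Pa_low {t t0 t1 al al0 al1 σ A0 A1 r r1 : ℝ} (ht0 : 0 < t0) (h0 : t0 ≤ t) (h1 : t ≤ t1)
    (ht1 : t1 < 1) (hA0 : 1 < A0) (hA : A0 ≤ σ) (hA' : σ ≤ A1) (hAt : A1 * t1 < 1)
    (ha0 : 0 < al0) (ha : al0 ≤ al) (ha' : al ≤ al1) (hr1 : 0 ≤ r1) (hr : r ≤ r1)
    (hden : (A1 - 1) * (1 / A1 - t0 ^ 2) < al0 * (1 - t1 ^ 2))
    (hq : 0 ≤ (1 + A0 * t0) ^ 2 - r1 * (1 - (A0 * t0) ^ 2)) :
    ((A0 - 1) * (1 / A0 - t1 ^ 2)) * ((1 + A0 * t0) ^ 2 - r1 * (1 - (A0 * t0) ^ 2)) /
      (A1 * (al1 * (1 - t0 ^ 2) - (A0 - 1) * (1 / A0 - t1 ^ 2))) ≤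
    ((σ - 1) * (1 / σ - t ^ 2)) * ((1 + σ * t) ^ 2 - r * (1 - (σ * t) ^ 2)) /
      (σ * (al * (1 - t ^ 2) - (σ - 1) * (1 / σ - t ^ 2))) ∧
    0 < al * (1 - t ^ 2) - (σ - 1) * (1 / σ - t ^ 2) := by
  have htp : 0 < t := by linarith
  have htl : t < 1 := by linarith
  have hσ : 1 < σ := by linarith
  have hσ0 : 0 < σ := by linarith
  have hA1t : A1 * t ≤ 1 := le_trans (mul_le_mul_of_nonneg_left h1 (by linarith)) hAt.le
  have hst : σ * t < 1 := by
    calc σ * t ≤ A1 * t1 := mul_le_mul hA' h1 htp.le (by linarith)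
      _ < 1 := hAt
  have hu1 : (A0 - 1) * (1 / A0 - t1 ^ 2) ≤ (σ - 1) * (1 / σ - t ^ 2) := by
    have hσt1 : σ * t1 ≤ 1 := le_trans (mul_le_mul_of_nonneg_right hA' (by linarith)) hAt.le
    exact (u_le hA0.le hA htp h1 hσt1)
  have hu2 : (σ - 1) * (1 / σ - t ^ 2) ≤ (A1 - 1) * (1 / A1 - t0 ^ 2) :=
    u_le hσ.le hA' ht0 h0 hA1t
  have hu0 : 0 ≤ (A0 - 1) * (1 / A0 - t1 ^ 2) := by
    apply mul_nonneg (by linarith)
    have hA0t : A0 * t1 < 1 := lt_of_le_of_lt
      (mul_le_mul_of_nonneg_right (hA.trans hA') (by linarith)) hAt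
    rw [sub_nonneg, le_div_iff₀ (by linarith)]
    nlinarith
  have ht2 : t ^ 2 ≤ t1 ^ 2 := pow_le_pow_left₀ htp.le h1 2
  have ht3 : t0 ^ 2 ≤ t ^ 2 := pow_le_pow_left₀ ht0.le h0 2
  have ht4 : t1 ^ 2 < 1 := by nlinarith
  have hβ : al0 * (1 - t1 ^ 2) ≤ al * (1 - t ^ 2) :=
    mul_le_mul ha (by linarith) (by linarith) (by linarith)
  have hβ' : al * (1 - t ^ 2) ≤ al1 * (1 - t0 ^ 2) :=
    mul_le_mul ha' (by linarith) (by linarith) (by linarith)
  have hden' : 0 < al * (1 - t ^ 2) - (σ - 1) * (1 / σ - t ^ 2) := by linarith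
  refine ⟨?_, hden'⟩
  have hs : A0 * t0 ≤ σ * t := mul_le_mul hA h0 ht0.le hσ0.le
  have hs0 : 0 < A0 * t0 := by positivity
  have hq1 : (1 + A0 * t0) ^ 2 - r1 * (1 - (A0 * t0) ^ 2) ≤
      (1 + σ * t) ^ 2 - r * (1 - (σ * t) ^ 2) := by
    have g1 : (1 + A0 * t0) ^ 2 ≤ (1 + σ * t) ^ 2 := pow_le_pow_left₀ (by linarith) (by linarith) 2
    have g2 : (A0 * t0) ^ 2 ≤ (σ * t) ^ 2 := pow_le_pow_left₀ hs0.le hs 2
    have g3 : (σ * t) ^ 2 < 1 := by nlinarith [hs0.trans_le hs]
    have g4 : r * (1 - (σ * t) ^ 2) ≤ r1 * (1 - (σ * t) ^ 2) :=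
      mul_le_mul_of_nonneg_right hr (by linarith)
    have g5 : r1 * (1 - (σ * t) ^ 2) ≤ r1 * (1 - (A0 * t0) ^ 2) :=
      mul_le_mul_of_nonneg_left (by linarith) hr1
    linarith
  apply div_le_div₀
  · exact mul_nonneg (hu0.trans hu1) (hq.trans hq1)
  · exact mul_le_mul hu1 hq1 hq (hu0.trans hu1)
  · positivity
  · exact mul_le_mul hA' (by linarith) hden'.le (by linarith)

/-- upper bound of the left expression -/
theorem Pa_high {t t0 t1 al al0 σ A0 A1 r r0 : ℝ} (ht0 : 0 < t0) (h0 : t0 ≤ t) (h1 : t ≤ t1)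
    (ht1 : t1 < 1) (hA0 : 1 < A0) (hA : A0 ≤ σ) (hA' : σ ≤ A1) (hAt : A1 * t1 < 1)
    (ha0 : 0 < al0) (ha : al0 ≤ al) (hr0 : 0 ≤ r0) (hr : r0 ≤ r)
    (hden : (A1 - 1) * (1 / A1 - t0 ^ 2) < al0 * (1 - t1 ^ 2))
    (hq : 0 ≤ (1 + A1 * t1) ^ 2 - r0 * (1 - (A1 * t1) ^ 2)) :
    ((σ - 1) * (1 / σ - t ^ 2)) * ((1 + σ * t) ^ 2 - r * (1 - (σ * t) ^ 2)) /
      (σ * (al * (1 - t ^ 2) - (σ - 1) * (1 / σ - t ^ 2))) ≤
    ((A1 - 1) * (1 / A1 - t0 ^ 2)) * ((1 + A1 * t1) ^ 2 - r0 * (1 - (A1 * t1) ^ 2)) /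
      (A0 * (al0 * (1 - t1 ^ 2) - (A1 - 1) * (1 / A1 - t0 ^ 2))) ∧
    0 < al * (1 - t ^ 2) - (σ - 1) * (1 / σ - t ^ 2) := by
  have htp : 0 < t := by linarith
  have htl : t < 1 := by linarith
  have hσ : 1 < σ := by linarith
  have hσ0 : 0 < σ := by linarith
  have hA1t : A1 * t ≤ 1 := le_trans (mul_le_mul_of_nonneg_left h1 (by linarith)) hAt.le
  have hst : σ * t < 1 := by
    calc σ * t ≤ A1 * t1 := mul_le_mul hA' h1 htp.le (by linarith)
      _ < 1 := hAt
  have hu2 : (σ - 1) * (1 / σ - t ^ 2) ≤ (A1 - 1) * (1 / A1 - t0 ^ 2) :=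
    u_le hσ.le hA' ht0 h0 hA1t
  have hu0 : 0 ≤ (σ - 1) * (1 / σ - t ^ 2) := by
    apply mul_nonneg (by linarith)
    rw [sub_nonneg, le_div_iff₀ (by linarith)]
    nlinarith
  have ht2 : t ^ 2 ≤ t1 ^ 2 := pow_le_pow_left₀ htp.le h1 2
  have ht3 : t0 ^ 2 ≤ t ^ 2 := pow_le_pow_left₀ ht0.le h0 2
  have ht4 : t1 ^ 2 < 1 := by nlinarith
  have hβ : al0 * (1 - t1 ^ 2) ≤ al * (1 - t ^ 2) :=
    mul_le_mul ha (by linarith) (by linarith) (by linarith)
  have hden' : 0 < al * (1 - t ^ 2) - (σ - 1) * (1 / σ - t ^ 2) := by linarith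
  refine ⟨?_, hden'⟩
  have hs : σ * t ≤ A1 * t1 := mul_le_mul hA' h1 htp.le (by linarith)
  have hs0 : 0 < σ * t := by positivity
  have hq1 : (1 + σ * t) ^ 2 - r * (1 - (σ * t) ^ 2) ≤
      (1 + A1 * t1) ^ 2 - r0 * (1 - (A1 * t1) ^ 2) := by
    have g1 : (1 + σ * t) ^ 2 ≤ (1 + A1 * t1) ^ 2 := pow_le_pow_left₀ (by linarith) (by linarith) 2
    have g2 : (σ * t) ^ 2 ≤ (A1 * t1) ^ 2 := pow_le_pow_left₀ hs0.le hs 2
    have g3 : (A1 * t1) ^ 2 < 1 := by nlinarith
    have g4 : r0 * (1 - (σ * t) ^ 2) ≤ r * (1 - (σ * t) ^ 2) :=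
      mul_le_mul_of_nonneg_right hr (by linarith)
    have g5 : r0 * (1 - (A1 * t1) ^ 2) ≤ r0 * (1 - (σ * t) ^ 2) :=
      mul_le_mul_of_nonneg_left (by linarith) hr0
    linarith
  apply div_le_div₀
  · exact mul_nonneg (hu0.trans hu2) hq
  · calc (σ - 1) * (1 / σ - t ^ 2) * ((1 + σ * t) ^ 2 - r * (1 - (σ * t) ^ 2)) ≤
        (σ - 1) * (1 / σ - t ^ 2) * ((1 + A1 * t1) ^ 2 - r0 * (1 - (A1 * t1) ^ 2)) :=
          mul_le_mul_of_nonneg_left hq1 hu0
      _ ≤ _ := mul_le_mul_of_nonneg_right hu2 hq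
  · apply mul_pos (by linarith); linarith
  · exact mul_le_mul hA (by linarith) (by linarith) hσ0.le

/-- upper bound of the right expression -/
theorem Pc_high {t t0 t1 al al0 σ C0 r r1 : ℝ} (ht0 : 0 < t0) (h0 : t0 ≤ t) (h1 : t ≤ t1)
    (ht1 : t1 < 1) (hC0 : 0 < C0) (hC : C0 ≤ σ) (hσ : σ < 1)
    (ha0 : 0 < al0) (ha : al0 ≤ al) (hr1 : 0 ≤ r1) (hr : r ≤ r1)
    (hq : 0 ≤ r1 * (1 - (C0 * t0) ^ 2) - (1 + C0 * t0) ^ 2) :
    ((1 - σ) * (1 / σ - t ^ 2)) * (r * (1 - (σ * t) ^ 2) - (1 + σ * t) ^ 2) /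
      (σ * (al * (1 - t ^ 2) + (1 - σ) * (1 / σ - t ^ 2))) ≤
    ((1 - C0) * (1 / C0 - t0 ^ 2)) * (r1 * (1 - (C0 * t0) ^ 2) - (1 + C0 * t0) ^ 2) /
      (C0 * (al0 * (1 - t1 ^ 2) + (1 - C0) * (1 / C0 - t0 ^ 2))) := by
  have htp : 0 < t := by linarith
  have htl : t < 1 := by linarith
  have hσ0 : 0 < σ := by linarith
  have ht2 : t ^ 2 ≤ t1 ^ 2 := pow_le_pow_left₀ htp.le h1 2
  have ht4 : t1 ^ 2 < 1 := by nlinarith
  set v := (1 - σ) * (1 / σ - t ^ 2) with hv
  set w := (1 - C0) * (1 / C0 - t0 ^ 2) with hw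
  have hvw : v ≤ w := v_le hC0 hC hσ.le ht0 h0 htl.le
  have hv0 : 0 < v := by
    apply mul_pos (by linarith)
    have h2 : 1 < 1 / σ := by rw [lt_div_iff₀ hσ0]; linarith
    nlinarith
  have hβ : al0 * (1 - t1 ^ 2) ≤ al * (1 - t ^ 2) :=
    mul_le_mul ha (by linarith) (by linarith) (by linarith)
  have hβ0 : 0 < al0 * (1 - t1 ^ 2) := mul_pos ha0 (by linarith)
  have hs : C0 * t0 ≤ σ * t := mul_le_mul hC h0 ht0.le hσ0.le
  have hs0 : 0 < C0 * t0 := by positivity
  have hst : σ * t < 1 := by nlinarith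
  have hq1 : r * (1 - (σ * t) ^ 2) - (1 + σ * t) ^ 2 ≤
      r1 * (1 - (C0 * t0) ^ 2) - (1 + C0 * t0) ^ 2 := by
    have g1 : (1 + C0 * t0) ^ 2 ≤ (1 + σ * t) ^ 2 := pow_le_pow_left₀ (by linarith) (by linarith) 2
    have g2 : (C0 * t0) ^ 2 ≤ (σ * t) ^ 2 := pow_le_pow_left₀ hs0.le hs 2
    have g3 : (σ * t) ^ 2 < 1 := by nlinarith [hs0.trans_le hs]
    have g4 : r * (1 - (σ * t) ^ 2) ≤ r1 * (1 - (σ * t) ^ 2) :=
      mul_le_mul_of_nonneg_right hr (by linarith)
    have g5 : r1 * (1 - (σ * t) ^ 2) ≤ r1 * (1 - (C0 * t0) ^ 2) :=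
      mul_le_mul_of_nonneg_left (by linarith) hr1
    linarith
  -- the fraction `v / (β + v)`
  have f1 : v / (al * (1 - t ^ 2) + v) ≤ w / (al0 * (1 - t1 ^ 2) + w) := by
    rw [div_le_div_iff₀ (by linarith) (by linarith)]
    nlinarith
  have f2 : 0 < v / (al * (1 - t ^ 2) + v) := div_pos hv0 (by linarith)
  have f3 : 1 / σ ≤ 1 / C0 := one_div_le_one_div_of_le hC0 hC
  have e1 : v * (r * (1 - (σ * t) ^ 2) - (1 + σ * t) ^ 2) / (σ * (al * (1 - t ^ 2) + v)) =
      (v / (al * (1 - t ^ 2) + v)) * (1 / σ) * (r * (1 - (σ * t) ^ 2) - (1 + σ * t) ^ 2) := by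
    have : al * (1 - t ^ 2) + v ≠ 0 := by linarith
    field_simp
  have e2 : w * (r1 * (1 - (C0 * t0) ^ 2) - (1 + C0 * t0) ^ 2) /
      (C0 * (al0 * (1 - t1 ^ 2) + w)) =
      (w / (al0 * (1 - t1 ^ 2) + w)) * (1 / C0) *
        (r1 * (1 - (C0 * t0) ^ 2) - (1 + C0 * t0) ^ 2) := by
    have : al0 * (1 - t1 ^ 2) + w ≠ 0 := by linarith
    field_simp
  rw [e1, e2]
  have f4 : v / (al * (1 - t ^ 2) + v) * (1 / σ) ≤ w / (al0 * (1 - t1 ^ 2) + w) * (1 / C0) :=
    mul_le_mul f1 f3 (by positivity) (f2.le.trans f1)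
  have f5 : 0 < v / (al * (1 - t ^ 2) + v) * (1 / σ) := by positivity
  calc v / (al * (1 - t ^ 2) + v) * (1 / σ) * (r * (1 - (σ * t) ^ 2) - (1 + σ * t) ^ 2) ≤
      v / (al * (1 - t ^ 2) + v) * (1 / σ) *
        (r1 * (1 - (C0 * t0) ^ 2) - (1 + C0 * t0) ^ 2) := mul_le_mul_of_nonneg_left hq1 f5.le
    _ ≤ _ := mul_le_mul_of_nonneg_right f4 hq

/-- lower bound of the right expression -/
theorem Pc_low {t t0 t1 al al1 σ C1 r r0 : ℝ} (ht0 : 0 < t0) (h0 : t0 ≤ t) (h1 : t ≤ t1)
    (ht1 : t1 < 1) (hσ0 : 0 < σ) (hC : σ ≤ C1) (hC1 : C1 < 1)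
    (ha0 : 0 < al) (ha : al ≤ al1) (hr0 : 0 ≤ r0) (hr : r0 ≤ r)
    (hq : 0 ≤ r0 * (1 - (C1 * t1) ^ 2) - (1 + C1 * t1) ^ 2) :
    ((1 - C1) * (1 / C1 - t1 ^ 2)) * (r0 * (1 - (C1 * t1) ^ 2) - (1 + C1 * t1) ^ 2) /
      (C1 * (al1 * (1 - t0 ^ 2) + (1 - C1) * (1 / C1 - t1 ^ 2))) ≤
    ((1 - σ) * (1 / σ - t ^ 2)) * (r * (1 - (σ * t) ^ 2) - (1 + σ * t) ^ 2) /
      (σ * (al * (1 - t ^ 2) + (1 - σ) * (1 / σ - t ^ 2))) := by
  have htp : 0 < t := by linarith
  have htl : t < 1 := by linarith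
  have ht1p : 0 < t1 := by linarith
  have hC1p : 0 < C1 := by linarith
  have ht2 : t ^ 2 ≤ t1 ^ 2 := pow_le_pow_left₀ htp.le h1 2
  have ht3 : t0 ^ 2 ≤ t ^ 2 := pow_le_pow_left₀ ht0.le h0 2
  have ht4 : t1 ^ 2 < 1 := by nlinarith
  set v := (1 - σ) * (1 / σ - t ^ 2) with hv
  set w := (1 - C1) * (1 / C1 - t1 ^ 2) with hw
  have hvw : w ≤ v := v_le hσ0 hC hC1.le htp h1 ht1.le
  have hw0 : 0 < w := by
    apply mul_pos (by linarith)
    have h2 : 1 < 1 / C1 := by rw [lt_div_iff₀ hC1p]; linarith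
    nlinarith
  have hβ : al * (1 - t ^ 2) ≤ al1 * (1 - t0 ^ 2) :=
    mul_le_mul ha (by linarith) (by linarith) (by linarith)
  have hβ0 : 0 < al * (1 - t ^ 2) := mul_pos ha0 (by linarith)
  have hs : σ * t ≤ C1 * t1 := mul_le_mul hC h1 htp.le hC1p.le
  have hs0 : 0 < σ * t := by positivity
  have hq1 : r0 * (1 - (C1 * t1) ^ 2) - (1 + C1 * t1) ^ 2 ≤
      r * (1 - (σ * t) ^ 2) - (1 + σ * t) ^ 2 := by
    have g1 : (1 + σ * t) ^ 2 ≤ (1 + C1 * t1) ^ 2 := pow_le_pow_left₀ (by linarith) (by linarith) 2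
    have g2 : (σ * t) ^ 2 ≤ (C1 * t1) ^ 2 := pow_le_pow_left₀ hs0.le hs 2
    have g3 : (C1 * t1) ^ 2 < 1 := by
      have : C1 * t1 < 1 := by nlinarith
      have : 0 < C1 * t1 := by positivity
      nlinarith
    have g4 : r0 * (1 - (σ * t) ^ 2) ≤ r * (1 - (σ * t) ^ 2) :=
      mul_le_mul_of_nonneg_right hr (by linarith)
    have g5 : r0 * (1 - (C1 * t1) ^ 2) ≤ r0 * (1 - (σ * t) ^ 2) :=
      mul_le_mul_of_nonneg_left (by linarith) hr0
    linarith
  have f1 : w / (al1 * (1 - t0 ^ 2) + w) ≤ v / (al * (1 - t ^ 2) + v) := by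
    rw [div_le_div_iff₀ (by linarith) (by linarith)]
    nlinarith
  have f2 : 0 < w / (al1 * (1 - t0 ^ 2) + w) := div_pos hw0 (by linarith)
  have f3 : 1 / C1 ≤ 1 / σ := one_div_le_one_div_of_le hσ0 hC
  have e1 : v * (r * (1 - (σ * t) ^ 2) - (1 + σ * t) ^ 2) / (σ * (al * (1 - t ^ 2) + v)) =
      (v / (al * (1 - t ^ 2) + v)) * (1 / σ) * (r * (1 - (σ * t) ^ 2) - (1 + σ * t) ^ 2) := by
    have : al * (1 - t ^ 2) + v ≠ 0 := by linarith
    field_simp
  have e2 : w * (r0 * (1 - (C1 * t1) ^ 2) - (1 + C1 * t1) ^ 2) /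
      (C1 * (al1 * (1 - t0 ^ 2) + w)) =
      (w / (al1 * (1 - t0 ^ 2) + w)) * (1 / C1) *
        (r0 * (1 - (C1 * t1) ^ 2) - (1 + C1 * t1) ^ 2) := by
    have : al1 * (1 - t0 ^ 2) + w ≠ 0 := by linarith
    field_simp
  rw [e1, e2]
  have f4 : w / (al1 * (1 - t0 ^ 2) + w) * (1 / C1) ≤ v / (al * (1 - t ^ 2) + v) * (1 / σ) :=
    mul_le_mul f1 f3 (by positivity) (f2.le.trans f1)
  exact mul_le_mul f4 hq1 hq (mul_nonneg (f2.le.trans f1) (by positivity))

/-! ### brackets of the parameters -/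

/-- The test with a positive outcome, `al ≤ k / N`. -/
theorem phi_pos' {al g σ t0 t1 : ℝ} {k N : ℕ} (hN : 0 < N) (hkN : k ≤ N)
    (hal0 : al ≤ (k:ℝ) / N) (hσ : 0 < σ) (hσ1 : σ ≠ 1)
    (ht0 : 0 < t0) (ht0' : t0 ≤ exp (-2 * g)) (ht1 : exp (-2 * g) ≤ t1) (ht1' : t1 ≤ 1)
    (hst : σ * t1 < 1)
    (hnum : σ ^ N * t1 ^ (N - k) * (1 - σ * t0 ^ 2) ^ k < |σ - 1| ^ k) :
    0 < phi al (tanh g) (-log (σ * exp (-2 * g)) / 2) := by
  rw [R4.phi_exp]
  set t := exp (-2 * g) with ht
  have htp : 0 < t := exp_pos _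
  have e1 : exp (-2 * (-log (σ * t) / 2)) = σ * t := by
    rw [show -2 * (-log (σ * t) / 2) = log (σ * t) by ring, exp_log (by positivity)]
  rw [e1]
  have hN' : (0:ℝ) < N := by exact_mod_cast hN
  have habs : 0 < |σ - 1| := abs_pos.2 (sub_ne_zero.2 hσ1)
  have h1 : σ * t ≤ σ * t1 := mul_le_mul_of_nonneg_left ht1 hσ.le
  have h2 : σ * t * t ≤ σ * t1 ^ 2 := by nlinarith
  have h2' : σ * t0 ^ 2 ≤ σ * t * t := by
    have : t0 ^ 2 ≤ t ^ 2 := pow_le_pow_left₀ ht0.le ht0' 2
    nlinarith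
  have h3 : σ * t1 ^ 2 < 1 := by nlinarith
  have hq1 : 0 < 1 - σ * t1 ^ 2 := by linarith
  have hq : 0 < 1 - σ * t * t := by linarith
  have hq0 : 0 < 1 - σ * t0 ^ 2 := by linarith
  have ht1p : 0 < t1 := lt_of_lt_of_le htp ht1
  have e2 : |(1 - σ * t * t) / (σ * t - t)| = (1 - σ * t * t) / (|σ - 1| * t) := by
    rw [abs_div, abs_of_pos hq, show σ * t - t = (σ - 1) * t by ring, abs_mul, abs_of_pos htp]
  rw [e2, log_div hq.ne' (by positivity), log_mul habs.ne' htp.ne', log_mul hσ.ne' htp.ne']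
  have hL : 0 ≤ log (1 - σ * t * t) - (log |σ - 1| + log t) := by
    rw [← log_mul habs.ne' htp.ne', sub_nonneg]
    apply log_le_log (by positivity)
    rcases le_total σ 1 with h | h
    · rw [abs_of_nonpos (by linarith)]
      have h11 : σ * t * t ≤ σ * t :=
        mul_le_of_le_one_right (by positivity) (ht1.trans ht1')
      nlinarith [ht1.trans ht1']
    · rw [abs_of_nonneg (by linarith)]
      have h12 : σ * t * (1 + t) ≤ 1 * (1 + t) :=
        mul_le_mul_of_nonneg_right (by linarith) (by linarith)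
      nlinarith
  have h4 : al * (log (1 - σ * t * t) - (log |σ - 1| + log t)) ≤
      (k:ℝ) / N * (log (1 - σ * t * t) - (log |σ - 1| + log t)) :=
    mul_le_mul_of_nonneg_right hal0 hL
  have h5 : log t ≤ log t1 := log_le_log htp ht1
  have h6 : log (1 - σ * t * t) ≤ log (1 - σ * t0 ^ 2) := log_le_log hq (by linarith)
  have h7 := log_lt_log (by positivity) hnum
  rw [log_mul (by positivity) (by positivity), log_mul (by positivity) (by positivity), log_pow,
    log_pow, log_pow, log_pow, Nat.cast_sub hkN] at h7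
  have hk : (k:ℝ) ≤ N := by exact_mod_cast hkN
  have hk0 : (0:ℝ) ≤ k := by positivity
  have h8 : 0 < (N:ℝ) * (-(log σ + log t) - (k:ℝ) / N * (log (1 - σ * t * t) -
      (log |σ - 1| + log t))) := by
    have e3 : (N:ℝ) * (-(log σ + log t) - (k:ℝ) / N *
        (log (1 - σ * t * t) - (log |σ - 1| + log t))) =
        -(N * log σ) - (N - k) * log t + k * log |σ - 1| - k * log (1 - σ * t * t) := by
      field_simp
      ring
    rw [e3]
    have h9 : (N - k : ℝ) * log t ≤ (N - k) * log t1 := mul_le_mul_of_nonneg_left h5 (by linarith)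
    have h10 : (k:ℝ) * log (1 - σ * t * t) ≤ k * log (1 - σ * t0 ^ 2) :=
      mul_le_mul_of_nonneg_left h6 hk0
    linarith
  have h9 := (mul_pos_iff_of_pos_left hN').1 h8
  linarith

section tests

variable {g a c σ t0 t1 : ℝ} {k N : ℕ}

theorem log_sigma (σ : ℝ) (hσ : 0 < σ) (g : ℝ) :
    -log (σ * exp (-2 * g)) / 2 = g - log σ / 2 := by
  rw [log_mul hσ.ne' (exp_pos _).ne', log_exp]; ring

theorem exp_of_lt {y : ℝ} (hσ : 0 < σ) (h : y < -log (σ * exp (-2 * g)) / 2) :
    σ * exp (-2 * g) < exp (-2 * y) := by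
  rw [← log_lt_iff_lt_exp (mul_pos hσ (exp_pos _))]
  linarith

theorem exp_of_le {y : ℝ} (hσ : 0 < σ) (h : -log (σ * exp (-2 * g)) / 2 ≤ y) :
    exp (-2 * y) ≤ σ * exp (-2 * g) := by
  rw [← le_log_iff_exp_le (mul_pos hσ (exp_pos _))]
  linarith

/-- `A0 < σ_a` -/
theorem a_test_neg (h : Adm g a c) (hN : 0 < N) (hkN : k ≤ N) (hal0 : (k:ℝ) / N ≤ mass g)
    (hσ1 : 1 < σ) (ht0 : 0 < t0) (ht0' : t0 ≤ exp (-2 * g)) (ht1 : exp (-2 * g) ≤ t1)
    (ht1' : t1 ≤ 1) (hst : σ * t1 < 1)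
    (hnum : |σ - 1| ^ k < σ ^ N * t0 ^ (N - k) * (1 - σ * t1 ^ 2) ^ k) :
    σ * exp (-2 * g) < exp (-2 * a) := by
  have hg := h.g_pos
  have hal := mass_pos hg
  have hT := tanh_pos hg
  obtain ⟨ha, hag, hgc, hmT, hra, hrc⟩ := h
  have hal1 : mass g < 1 := hmT.trans (tanh_lt_one g)
  have hσ : 0 < σ := by linarith
  have hneg := R4.phi_neg hN hkN hal0 hσ hσ1.ne' ht0 ht0' ht1 ht1' hst hnum
  apply exp_of_lt hσ
  set y0 := -log (σ * exp (-2 * g)) / 2 with hy0
  have hst' : σ * exp (-2 * g) < 1 :=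
    lt_of_le_of_lt (mul_le_mul_of_nonneg_left ht1 hσ.le) hst
  have hy0p : 0 < y0 := by
    have := log_neg (mul_pos hσ (exp_pos _)) hst'
    rw [hy0]; linarith
  have hy0g : y0 < g := by
    have h2 := log_pos hσ1
    rw [hy0, log_sigma σ hσ]; linarith
  by_contra hcon
  push Not at hcon
  have h1 : ¬ 0 ≤ phi (mass g) (tanh g) y0 := by linarith
  rw [phi_nonneg_left hal hy0p (tanh_lt_tanh.2 hy0g)] at h1
  rcases hcon.eq_or_lt with h2 | h2
  · rw [h2] at h1; exact h1 hra.le
  · exact h1 ((left_table hal hal1 hT ha hra hy0p).1 h2).le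

/-- `σ_a ≤ A1` -/
theorem a_test_pos (h : Adm g a c) (hN : 0 < N) (hkN : k ≤ N) (hal0 : mass g ≤ (k:ℝ) / N)
    (hσ1 : 1 < σ) (ht0 : 0 < t0) (ht0' : t0 ≤ exp (-2 * g)) (ht1 : exp (-2 * g) ≤ t1)
    (ht1' : t1 ≤ 1) (hst : σ * t1 < 1)
    (hnum : σ ^ N * t1 ^ (N - k) * (1 - σ * t0 ^ 2) ^ k < |σ - 1| ^ k) :
    exp (-2 * a) ≤ σ * exp (-2 * g) := by
  have hg := h.g_pos
  have hal := mass_pos hg
  have hT := tanh_pos hg
  obtain ⟨ha, hag, hgc, hmT, hra, hrc⟩ := h
  have hal1 : mass g < 1 := hmT.trans (tanh_lt_one g)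
  have hσ : 0 < σ := by linarith
  have hpos := phi_pos' hN hkN hal0 hσ hσ1.ne' ht0 ht0' ht1 ht1' hst hnum
  apply exp_of_le hσ
  set y0 := -log (σ * exp (-2 * g)) / 2 with hy0
  have hst' : σ * exp (-2 * g) < 1 :=
    lt_of_le_of_lt (mul_le_mul_of_nonneg_left ht1 hσ.le) hst
  have hy0p : 0 < y0 := by
    have := log_neg (mul_pos hσ (exp_pos _)) hst'
    rw [hy0]; linarith
  have hy0g : y0 < g := by
    have h2 := log_pos hσ1
    rw [hy0, log_sigma σ hσ]; linarith
  by_contra hcon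
  push Not at hcon
  rw [phi_pos_left hal hy0p (tanh_lt_tanh.2 hy0g)] at hpos
  have := (left_table hal hal1 hT ha hra hy0p).2 hcon
  linarith

/-- `σ_c ≤ C1` -/
theorem c_test_neg (h : Adm g a c) (hN : 0 < N) (hkN : k ≤ N) (hal0 : (k:ℝ) / N ≤ mass g)
    (hσ : 0 < σ) (hσ1 : σ < 1) (ht0 : 0 < t0) (ht0' : t0 ≤ exp (-2 * g))
    (ht1 : exp (-2 * g) ≤ t1) (ht1' : t1 ≤ 1) (hst : σ * t1 < 1)
    (hnum : |σ - 1| ^ k < σ ^ N * t0 ^ (N - k) * (1 - σ * t1 ^ 2) ^ k) :
    exp (-2 * c) ≤ σ * exp (-2 * g) := by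
  have hg := h.g_pos
  have hal := mass_pos hg
  have hT := tanh_pos hg
  obtain ⟨ha, hag, hgc, hmT, hra, hrc⟩ := h
  have hneg := R4.phi_neg hN hkN hal0 hσ hσ1.ne ht0 ht0' ht1 ht1' hst hnum
  apply exp_of_le hσ
  set y0 := -log (σ * exp (-2 * g)) / 2 with hy0
  have hgy0 : g < y0 := by
    have h2 := log_neg hσ hσ1
    rw [hy0, log_sigma σ hσ]; linarith
  have hy0p : 0 < y0 := hg.trans hgy0
  by_contra hcon
  push Not at hcon
  have h1 : ¬ 0 ≤ phi (mass g) (tanh g) y0 := by linarith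
  rw [phi_nonneg_right hal hT (tanh_lt_tanh.2 hgy0)] at h1
  exact h1 ((right_table hal (hg.trans hgc) hrc hy0p).2 hcon).le

/-- `C0 ≤ σ_c` -/
theorem c_test_pos (h : Adm g a c) (hN : 0 < N) (hkN : k ≤ N) (hal0 : mass g ≤ (k:ℝ) / N)
    (hσ : 0 < σ) (hσ1 : σ < 1) (ht0 : 0 < t0) (ht0' : t0 ≤ exp (-2 * g))
    (ht1 : exp (-2 * g) ≤ t1) (ht1' : t1 ≤ 1) (hst : σ * t1 < 1)
    (hnum : σ ^ N * t1 ^ (N - k) * (1 - σ * t0 ^ 2) ^ k < |σ - 1| ^ k) :
    σ * exp (-2 * g) ≤ exp (-2 * c) := by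
  have hg := h.g_pos
  have hal := mass_pos hg
  have hT := tanh_pos hg
  obtain ⟨ha, hag, hgc, hmT, hra, hrc⟩ := h
  have hpos := phi_pos' hN hkN hal0 hσ hσ1.ne ht0 ht0' ht1 ht1' hst hnum
  set y0 := -log (σ * exp (-2 * g)) / 2 with hy0
  have hgy0 : g < y0 := by
    have h2 := log_neg hσ hσ1
    rw [hy0, log_sigma σ hσ]; linarith
  have hy0p : 0 < y0 := hg.trans hgy0
  rw [phi_pos_right hal hT (tanh_lt_tanh.2 hgy0)] at hpos
  have hcy : c ≤ y0 := by
    by_contra hcon
    push Not at hcon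
    have := (right_table hal (hg.trans hgc) hrc hy0p).1 hcon
    linarith
  rcases hcy.eq_or_lt with h2 | h2
  · rw [h2, hy0, show -2 * (-log (σ * exp (-2 * g)) / 2) = log (σ * exp (-2 * g)) by ring,
      exp_log (mul_pos hσ (exp_pos _))]
  · rw [← log_le_iff_le_exp (mul_pos hσ (exp_pos _))]
    rw [hy0] at h2
    linarith

end tests

/-! ### the mass and the quotient -/

theorem log_mass {g : ℝ} (hg : 0 < g) : log (2 * cosh g ^ 2) = mass g * (2 * g) := by
  unfold mass; field_simp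

theorem two_cosh (g : ℝ) : 2 * cosh g ^ 2 = (1 + exp (-2 * g)) ^ 2 / (2 * exp (-2 * g)) := by
  rw [R4.cosh_sq_exp]
  have := exp_pos (-2 * g)
  field_simp
  ring

/-- monotonicity of `(1 + t)² / (2 t)` -/
theorem lam_anti {s t : ℝ} (hs : 0 < s) (hst : s ≤ t) (ht : t ≤ 1) :
    (1 + t) ^ 2 / (2 * t) ≤ (1 + s) ^ 2 / (2 * s) := by
  rw [div_le_div_iff₀ (by linarith) (by linarith)]
  nlinarith [mul_nonneg (sub_nonneg.2 hst) (show 0 ≤ 1 - s * t by nlinarith)]

section masses

variable {g t0 t1 : ℝ} {k N : ℕ}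

theorem mass_low (hg : 0 < g) (hN : 0 < N) (hkN : k ≤ N) (ht0 : 0 < t0)
    (ht0' : t0 ≤ exp (-2 * g)) (ht1 : exp (-2 * g) ≤ t1)
    (h : 2 ^ N * t1 ^ (N - k) ≤ (1 + t0) ^ (2 * N)) : (k:ℝ) / N ≤ mass g := by
  set t := exp (-2 * g) with ht
  have htp : 0 < t := exp_pos _
  have ht1p : 0 < t1 := lt_of_lt_of_le htp ht1
  have hN' : (0:ℝ) < N := by exact_mod_cast hN
  have h1 := log_le_log (by positivity) h
  rw [log_mul (by positivity) (by positivity), log_pow, log_pow, log_pow, Nat.cast_sub hkN] at h1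
  have hm := log_mass hg
  rw [two_cosh, ← ht, log_div (by positivity) (by positivity), log_pow, log_mul (by norm_num)
    htp.ne'] at hm
  have hlt : log t = -2 * g := by rw [ht, log_exp]
  have h2 : log t ≤ log t1 := log_le_log htp ht1
  have h3 : log (1 + t0) ≤ log (1 + t) := log_le_log (by positivity) (by linarith)
  push_cast at h1 hm
  have hk : (k:ℝ) ≤ N := by exact_mod_cast hkN
  have h4 : (N - k : ℝ) * log t ≤ (N - k) * log t1 := mul_le_mul_of_nonneg_left h2 (by linarith)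
  have h5 : (N:ℝ) * log (1 + t0) ≤ N * log (1 + t) := mul_le_mul_of_nonneg_left h3 hN'.le
  rw [div_le_iff₀ hN']
  have h6 : (k:ℝ) * (2 * g) ≤ mass g * N * (2 * g) := by
    have : mass g * N * (2 * g) = N * (2 * log (1 + t) - (log 2 + log t)) := by
      rw [hm]; ring
    rw [this]
    have e : (k:ℝ) * (2 * g) = -(k * log t) := by rw [hlt]; ring
    rw [e]
    linarith
  exact le_of_mul_le_mul_right h6 (by linarith)

theorem mass_high (hg : 0 < g) (hN : 0 < N) (hkN : k ≤ N) (ht0 : 0 < t0)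
    (ht0' : t0 ≤ exp (-2 * g)) (ht1 : exp (-2 * g) ≤ t1)
    (h : (1 + t1) ^ (2 * N) ≤ 2 ^ N * t0 ^ (N - k)) : mass g ≤ (k:ℝ) / N := by
  set t := exp (-2 * g) with ht
  have htp : 0 < t := exp_pos _
  have ht1p : 0 < t1 := lt_of_lt_of_le htp ht1
  have hN' : (0:ℝ) < N := by exact_mod_cast hN
  have h1 := log_le_log (by positivity) h
  rw [log_mul (by positivity) (by positivity), log_pow, log_pow, log_pow, Nat.cast_sub hkN] at h1
  have hm := log_mass hg
  rw [two_cosh, ← ht, log_div (by positivity) (by positivity), log_pow, log_mul (by norm_num)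
    htp.ne'] at hm
  have hlt : log t = -2 * g := by rw [ht, log_exp]
  have h2 : log t0 ≤ log t := log_le_log ht0 ht0'
  have h3 : log (1 + t) ≤ log (1 + t1) := log_le_log (by positivity) (by linarith)
  push_cast at h1 hm
  have hk : (k:ℝ) ≤ N := by exact_mod_cast hkN
  have h4 : (N - k : ℝ) * log t0 ≤ (N - k) * log t := mul_le_mul_of_nonneg_left h2 (by linarith)
  have h5 : (N:ℝ) * log (1 + t) ≤ N * log (1 + t1) := mul_le_mul_of_nonneg_left h3 hN'.le
  rw [le_div_iff₀ hN']
  have h6 : mass g * N * (2 * g) ≤ (k:ℝ) * (2 * g) := by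
    have : mass g * N * (2 * g) = N * (2 * log (1 + t) - (log 2 + log t)) := by
      rw [hm]; ring
    rw [this]
    have e : (k:ℝ) * (2 * g) = -(k * log t) := by rw [hlt]; ring
    rw [e]
    linarith
  exact le_of_mul_le_mul_right h6 (by linarith)

/-- upper bound of `y / (α g)`, where `s0 ≤ exp (-2 y)` -/
theorem rho_high {y s0 : ℝ} {p q : ℕ} (hg : 0 < g) (hq : 0 < q) (hs0 : 0 < s0)
    (hs : s0 ≤ exp (-2 * y)) (ht1 : exp (-2 * g) ≤ t1) (ht1' : t1 ≤ 1)
    (h : (2 * t1) ^ p ≤ (1 + t1) ^ (2 * p) * s0 ^ q) : y / (mass g * g) ≤ (p:ℝ) / q := by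
  have hm := log_mass hg
  have hmp := mass_pos hg
  rw [two_cosh] at hm
  set t := exp (-2 * g) with ht
  have htp : 0 < t := exp_pos _
  have ht1p : 0 < t1 := lt_of_lt_of_le htp ht1
  have hq' : (0:ℝ) < q := by exact_mod_cast hq
  have h1 := log_le_log (by positivity) h
  rw [log_mul (by positivity) (by positivity), log_pow, log_pow, log_pow] at h1
  have h2 : log s0 ≤ -2 * y := by rw [← log_exp (-2 * y)]; exact log_le_log hs0 hs
  have h3 := log_le_log (by positivity) (lam_anti htp ht1 ht1')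
  rw [hm, log_div (by positivity) (by positivity), log_pow] at h3
  push_cast at h1 h3
  rw [div_le_div_iff₀ (by positivity) hq']
  have h4 : (p:ℝ) * (2 * log (1 + t1) - log (2 * t1)) ≤ p * (mass g * (2 * g)) :=
    mul_le_mul_of_nonneg_left h3 (by positivity)
  have h5 : (q:ℝ) * log s0 ≤ q * (-2 * y) := mul_le_mul_of_nonneg_left h2 hq'.le
  linarith

/-- lower bound of `y / (α g)`, where `exp (-2 y) ≤ s1` -/
theorem rho_low {y s1 : ℝ} {p q : ℕ} (hg : 0 < g) (hq : 0 < q)
    (hs : exp (-2 * y) ≤ s1) (ht0 : 0 < t0) (ht0' : t0 ≤ exp (-2 * g))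
    (h : (1 + t0) ^ (2 * p) * s1 ^ q ≤ (2 * t0) ^ p) : (p:ℝ) / q ≤ y / (mass g * g) := by
  have hm := log_mass hg
  have hmp := mass_pos hg
  rw [two_cosh] at hm
  set t := exp (-2 * g) with ht
  have htp : 0 < t := exp_pos _
  have ht1 : t ≤ 1 := by rw [ht, exp_le_one_iff]; linarith
  have hs1 : 0 < s1 := lt_of_lt_of_le (exp_pos _) hs
  have hq' : (0:ℝ) < q := by exact_mod_cast hq
  have h1 := log_le_log (by positivity) h
  rw [log_mul (by positivity) (by positivity), log_pow, log_pow, log_pow] at h1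
  have h2 : -2 * y ≤ log s1 := by rw [← log_exp (-2 * y)]; exact log_le_log (exp_pos _) hs
  have h3 := log_le_log (by positivity) (lam_anti ht0 ht0' ht1)
  rw [hm, log_div (by positivity) (by positivity), log_pow] at h3
  push_cast at h1 h3
  rw [div_le_div_iff₀ hq' (by positivity)]
  have h4 : p * (mass g * (2 * g)) ≤ (p:ℝ) * (2 * log (1 + t0) - log (2 * t0)) :=
    mul_le_mul_of_nonneg_left h3 (by positivity)
  have h5 : (q:ℝ) * (-2 * y) ≤ q * log s1 := mul_le_mul_of_nonneg_left h2 hq'.le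
  linarith

end masses

/-! ### the function `Psi` in the coordinates -/

theorem sinh_mul_cosh_exp (y : ℝ) :
    sinh y * cosh y = (1 - exp (-2 * y) ^ 2) / (4 * exp (-2 * y)) := by
  rw [sinh_eq, cosh_eq]
  have h1 : exp (-2 * y) = exp (-y) * exp (-y) := by rw [← exp_add]; congr 1; ring
  have h3 : exp y * exp (-y) = 1 := by rw [← exp_add]; simp
  have h4 := exp_pos y
  have h5 := exp_pos (-y)
  rw [h1, eq_div_iff (by positivity)]
  calc (exp y - exp (-y)) / 2 * ((exp y + exp (-y)) / 2) * (4 * (exp (-y) * exp (-y))) =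
      (exp y * exp (-y)) ^ 2 - (exp (-y) * exp (-y)) ^ 2 := by ring
    _ = _ := by rw [h3]; ring

theorem Psi_eq {g y σ : ℝ} (hσ : 0 < σ) (hy : exp (-2 * y) = σ * exp (-2 * g))
    (hden : mass g * (1 - exp (-2 * g) ^ 2) - (σ - 1) * (1 / σ - exp (-2 * g) ^ 2) ≠ 0) :
    4 * exp (-2 * g) * Psi g y =
      ((σ - 1) * (1 / σ - exp (-2 * g) ^ 2)) * ((1 + σ * exp (-2 * g)) ^ 2 -
        y / (mass g * g) * (1 - (σ * exp (-2 * g)) ^ 2)) /
      (σ * (mass g * (1 - exp (-2 * g) ^ 2) - (σ - 1) * (1 / σ - exp (-2 * g) ^ 2))) := by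
  unfold Psi
  have e1 : cosh y ^ 2 - y * sinh y * cosh y / (mass g * g) =
      cosh y ^ 2 - y / (mass g * g) * (sinh y * cosh y) := by ring
  have e2 : cosh y ^ 2 - cosh g ^ 2 + mass g * sinh g * cosh g =
      cosh y ^ 2 - cosh g ^ 2 + mass g * (sinh g * cosh g) := by ring
  rw [e1, e2, sinh_mul_cosh_exp, sinh_mul_cosh_exp, R4.cosh_sq_exp g, R4.cosh_sq_exp y, hy]
  have ht := exp_pos (-2 * g)
  generalize exp (-2 * g) = t at *
  generalize y / (mass g * g) = r
  generalize mass g = m at *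
  have f1 : (1 + t) ^ 2 / (4 * t) - (1 + σ * t) ^ 2 / (4 * (σ * t)) =
      (σ - 1) * (1 / σ - t ^ 2) / (4 * t) := by field_simp; ring
  have f2 : (1 + σ * t) ^ 2 / (4 * (σ * t)) - r * ((1 - (σ * t) ^ 2) / (4 * (σ * t))) =
      ((1 + σ * t) ^ 2 - r * (1 - (σ * t) ^ 2)) / (4 * (σ * t)) := by field_simp
  have f3 : (1 + σ * t) ^ 2 / (4 * (σ * t)) - (1 + t) ^ 2 / (4 * t) +
      m * ((1 - t ^ 2) / (4 * t)) =
      (m * (1 - t ^ 2) - (σ - 1) * (1 / σ - t ^ 2)) / (4 * t) := by field_simp; ring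
  rw [f1, f2, f3]
  set D := m * (1 - t ^ 2) - (σ - 1) * (1 / σ - t ^ 2) with hD
  set U := (σ - 1) * (1 / σ - t ^ 2)
  field_simp

theorem Psi_eq' {g y σ : ℝ} (hσ : 0 < σ) (hy : exp (-2 * y) = σ * exp (-2 * g))
    (hden : mass g * (1 - exp (-2 * g) ^ 2) + (1 - σ) * (1 / σ - exp (-2 * g) ^ 2) ≠ 0) :
    4 * exp (-2 * g) * Psi g y =
      ((1 - σ) * (1 / σ - exp (-2 * g) ^ 2)) * (y / (mass g * g) * (1 - (σ * exp (-2 * g)) ^ 2) -
        (1 + σ * exp (-2 * g)) ^ 2) /
      (σ * (mass g * (1 - exp (-2 * g) ^ 2) + (1 - σ) * (1 / σ - exp (-2 * g) ^ 2))) := by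
  rw [Psi_eq hσ hy (by intro h; apply hden; rw [← h]; ring)]
  congr 1
  · ring
  · ring

/-! ### cells -/

section cells

variable {g a c t0 t1 : ℝ}

theorem sigma_eq (g y : ℝ) : exp (-2 * y) = exp (-2 * y) / exp (-2 * g) * exp (-2 * g) := by
  have := exp_pos (-2 * g)
  field_simp

/-- lower bound of the value on a cell -/
theorem val_cell {A C : ℝ} (ht0 : 0 < t0) (ht0' : t0 ≤ exp (-2 * g))
    (ht1 : exp (-2 * g) ≤ t1) (ht1' : t1 < 1) (hA : 1 < A) (hAt : A * t1 < 1)
    (hσa : A * exp (-2 * g) < exp (-2 * a)) (ha : 0 < a) (hC0 : 0 < C) (hC : C < 1)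
    (hσc : exp (-2 * c) ≤ C * exp (-2 * g)) :
    2 / (1 + t1) ^ 2 * ((1 / C - 1 / A) - (A - C) * t1 ^ 2) ≤ val g a c := by
  rw [val_eq, R4.X_exp 2 g a, R4.X_exp 2 g c]
  set t := exp (-2 * g) with ht
  have htp : 0 < t := exp_pos _
  have htl : t < 1 := by linarith
  set x := exp (-2 * a) / t with hx
  set z := exp (-2 * c) / t with hz
  have hxe : exp (-2 * a) = x * t := by rw [hx]; field_simp
  have hze : exp (-2 * c) = z * t := by rw [hz]; field_simp
  have hz0 : 0 < z := div_pos (exp_pos _) htp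
  rw [hxe] at hσa
  rw [hze] at hσc
  have h1 : A < x := lt_of_mul_lt_mul_right hσa htp.le
  have h2 : z ≤ C := le_of_mul_le_mul_right hσc htp
  have hxt : x * t < 1 := by
    rw [← hxe, exp_lt_one_iff]; linarith
  have hx0 : 0 < x := by linarith
  rw [hxe, hze]
  have e1 : 2 / (1 + t) ^ 2 * (1 + t ^ 2 - t * (x * t + 1 / (x * t))) -
      2 / (1 + t) ^ 2 * (1 + t ^ 2 - t * (z * t + 1 / (z * t))) =
      2 / (1 + t) ^ 2 * ((x - 1) * (1 / x - t ^ 2) + (1 - z) * (1 / z - t ^ 2)) := by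
    field_simp
    ring
  rw [e1]
  have h3 : (A - 1) * (1 / A - t ^ 2) ≤ (x - 1) * (1 / x - t ^ 2) :=
    u_le hA.le h1.le htp le_rfl hxt.le
  have h4 : (1 - C) * (1 / C - t ^ 2) ≤ (1 - z) * (1 / z - t ^ 2) :=
    v_le hz0 h2 hC.le htp le_rfl htl.le
  have e2 : (1 / C - 1 / A) - (A - C) * t ^ 2 =
      (A - 1) * (1 / A - t ^ 2) + (1 - C) * (1 / C - t ^ 2) := by
    field_simp
    ring
  have h5 : t ^ 2 ≤ t1 ^ 2 := pow_le_pow_left₀ htp.le ht1 2
  have h6 : (1 / C - 1 / A) - (A - C) * t1 ^ 2 ≤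
      (x - 1) * (1 / x - t ^ 2) + (1 - z) * (1 / z - t ^ 2) := by
    have : (A - C) * t ^ 2 ≤ (A - C) * t1 ^ 2 := mul_le_mul_of_nonneg_left h5 (by linarith)
    linarith
  have h7 : 0 ≤ (1 / C - 1 / A) - (A - C) * t1 ^ 2 := by
    have ht1p : 0 < t1 := by linarith
    have e3 : (1 / C - 1 / A) - (A - C) * t1 ^ 2 = (A - C) * (1 / (A * C) - t1 ^ 2) := by
      field_simp
    rw [e3]
    apply mul_nonneg (by linarith)
    rw [sub_nonneg, le_div_iff₀ (by positivity)]
    have e4 : t1 ^ 2 * (A * C) = (A * t1) * (C * t1) := by ring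
    rw [e4]
    have h8 : C * t1 ≤ 1 := by nlinarith
    have h9 : 0 ≤ A * t1 := by positivity
    nlinarith
  have h8 : 2 / (1 + t1) ^ 2 ≤ 2 / (1 + t) ^ 2 := by
    apply div_le_div_of_nonneg_left (by norm_num) (by positivity)
    exact pow_le_pow_left₀ (by positivity) (by linarith) 2
  exact mul_le_mul h8 h6 h7 (by positivity)

/-- exclusion by the sign `Psi g a > Psi g c` -/
theorem cell_sp {A0 A1 C0 al0 al1 r1 r1' : ℝ} (h : Adm g a c) (hPsi : Psi g a = Psi g c)
    (ht0 : 0 < t0) (ht0' : t0 ≤ exp (-2 * g)) (ht1 : exp (-2 * g) ≤ t1) (ht1' : t1 < 1)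
    (hA0 : 1 < A0) (hA1 : A1 * t1 < 1) (hσa : A0 * exp (-2 * g) < exp (-2 * a))
    (hσa' : exp (-2 * a) ≤ A1 * exp (-2 * g)) (hC0 : 0 < C0)
    (hσc : C0 * exp (-2 * g) ≤ exp (-2 * c))
    (hal0 : 0 < al0) (ha0 : al0 ≤ mass g) (ha1 : mass g ≤ al1)
    (hr1 : 0 ≤ r1) (hr : a / (mass g * g) ≤ r1) (hr1' : 0 ≤ r1') (hr' : c / (mass g * g) ≤ r1')
    (hden : (A1 - 1) * (1 / A1 - t0 ^ 2) < al0 * (1 - t1 ^ 2))
    (hq : 0 ≤ (1 + A0 * t0) ^ 2 - r1 * (1 - (A0 * t0) ^ 2))
    (hq' : 0 ≤ r1' * (1 - (C0 * t0) ^ 2) - (1 + C0 * t0) ^ 2)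
    (hfin : ((1 - C0) * (1 / C0 - t0 ^ 2)) * (r1' * (1 - (C0 * t0) ^ 2) - (1 + C0 * t0) ^ 2) /
        (C0 * (al0 * (1 - t1 ^ 2) + (1 - C0) * (1 / C0 - t0 ^ 2))) <
      ((A0 - 1) * (1 / A0 - t1 ^ 2)) * ((1 + A0 * t0) ^ 2 - r1 * (1 - (A0 * t0) ^ 2)) /
        (A1 * (al1 * (1 - t0 ^ 2) - (A0 - 1) * (1 / A0 - t1 ^ 2)))) : False := by
  have hg := h.g_pos
  obtain ⟨ha, hag, hgc, hmT, hra, hrc⟩ := h
  have htp : 0 < exp (-2 * g) := exp_pos _
  have hxe := sigma_eq g a
  have hze := sigma_eq g c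
  set x := exp (-2 * a) / exp (-2 * g) with hx
  set z := exp (-2 * c) / exp (-2 * g) with hz
  have hx0 : 0 < x := div_pos (exp_pos _) htp
  have hz0 : 0 < z := div_pos (exp_pos _) htp
  have hz1 : z < 1 := by
    rw [hz, div_lt_one htp, exp_lt_exp]; linarith
  rw [hxe] at hσa hσa'
  rw [hze] at hσc
  have h1 : A0 < x := lt_of_mul_lt_mul_right hσa htp.le
  have h2 : x ≤ A1 := le_of_mul_le_mul_right hσa' htp
  have h3 : C0 ≤ z := le_of_mul_le_mul_right hσc htp
  obtain ⟨k1, k2⟩ := Pa_low ht0 ht0' ht1 ht1' hA0 h1.le h2 hA1 hal0 ha0 ha1 hr1 hr hden hq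
  have k3 := Pc_high ht0 ht0' ht1 ht1' hC0 h3 hz1 hal0 ha0 hr1' hr' hq'
  rw [← Psi_eq hx0 hxe k2.ne'] at k1
  have k4 : 0 < mass g * (1 - exp (-2 * g) ^ 2) + (1 - z) * (1 / z - exp (-2 * g) ^ 2) := by
    have h5 : exp (-2 * g) ^ 2 < 1 := by nlinarith
    have h6 : 1 < 1 / z := by rw [lt_div_iff₀ hz0]; linarith
    have h7 := mass_pos hg
    have h8 : 0 < mass g * (1 - exp (-2 * g) ^ 2) := mul_pos h7 (by linarith)
    have h9 : 0 < (1 - z) * (1 / z - exp (-2 * g) ^ 2) := mul_pos (by linarith) (by linarith)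
    linarith
  rw [← Psi_eq' hz0 hze k4.ne'] at k3
  rw [hPsi] at k1
  linarith

/-- exclusion by the sign `Psi g a < Psi g c` -/
theorem cell_sm {A0 A1 C1 al0 al1 r0 r0' : ℝ} (h : Adm g a c) (hPsi : Psi g a = Psi g c)
    (ht0 : 0 < t0) (ht0' : t0 ≤ exp (-2 * g)) (ht1 : exp (-2 * g) ≤ t1) (ht1' : t1 < 1)
    (hA0 : 1 < A0) (hA1 : A1 * t1 < 1) (hσa : A0 * exp (-2 * g) < exp (-2 * a))
    (hσa' : exp (-2 * a) ≤ A1 * exp (-2 * g)) (hC1 : C1 < 1)
    (hσc : exp (-2 * c) ≤ C1 * exp (-2 * g))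
    (hal0 : 0 < al0) (ha0 : al0 ≤ mass g) (ha1 : mass g ≤ al1)
    (hr0 : 0 ≤ r0) (hr : r0 ≤ a / (mass g * g)) (hr0' : 0 ≤ r0') (hr' : r0' ≤ c / (mass g * g))
    (hden : (A1 - 1) * (1 / A1 - t0 ^ 2) < al0 * (1 - t1 ^ 2))
    (hq : 0 ≤ (1 + A1 * t1) ^ 2 - r0 * (1 - (A1 * t1) ^ 2))
    (hq' : 0 ≤ r0' * (1 - (C1 * t1) ^ 2) - (1 + C1 * t1) ^ 2)
    (hfin : ((A1 - 1) * (1 / A1 - t0 ^ 2)) * ((1 + A1 * t1) ^ 2 - r0 * (1 - (A1 * t1) ^ 2)) /
        (A0 * (al0 * (1 - t1 ^ 2) - (A1 - 1) * (1 / A1 - t0 ^ 2))) <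
      ((1 - C1) * (1 / C1 - t1 ^ 2)) * (r0' * (1 - (C1 * t1) ^ 2) - (1 + C1 * t1) ^ 2) /
        (C1 * (al1 * (1 - t0 ^ 2) + (1 - C1) * (1 / C1 - t1 ^ 2)))) : False := by
  have hg := h.g_pos
  obtain ⟨ha, hag, hgc, hmT, hra, hrc⟩ := h
  have htp : 0 < exp (-2 * g) := exp_pos _
  have hxe := sigma_eq g a
  have hze := sigma_eq g c
  set x := exp (-2 * a) / exp (-2 * g) with hx
  set z := exp (-2 * c) / exp (-2 * g) with hz
  have hx0 : 0 < x := div_pos (exp_pos _) htp
  have hz0 : 0 < z := div_pos (exp_pos _) htp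
  have hz1 : z < 1 := by
    rw [hz, div_lt_one htp, exp_lt_exp]; linarith
  rw [hxe] at hσa hσa'
  rw [hze] at hσc
  have h1 : A0 < x := lt_of_mul_lt_mul_right hσa htp.le
  have h2 : x ≤ A1 := le_of_mul_le_mul_right hσa' htp
  have h3 : z ≤ C1 := le_of_mul_le_mul_right hσc htp
  obtain ⟨k1, k2⟩ := Pa_high ht0 ht0' ht1 ht1' hA0 h1.le h2 hA1 hal0 ha0 hr0 hr hden hq
  have k3 := Pc_low ht0 ht0' ht1 ht1' hz0 h3 hC1 (mass_pos hg) ha1 hr0' hr' hq'
  rw [← Psi_eq hx0 hxe k2.ne'] at k1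
  have k4 : 0 < mass g * (1 - exp (-2 * g) ^ 2) + (1 - z) * (1 / z - exp (-2 * g) ^ 2) := by
    have h5 : exp (-2 * g) ^ 2 < 1 := by nlinarith
    have h6 : 1 < 1 / z := by rw [lt_div_iff₀ hz0]; linarith
    have h7 := mass_pos hg
    have h8 : 0 < mass g * (1 - exp (-2 * g) ^ 2) := mul_pos h7 (by linarith)
    have h9 : 0 < (1 - z) * (1 / z - exp (-2 * g) ^ 2) := mul_pos (by linarith) (by linarith)
    linarith
  rw [← Psi_eq' hz0 hze k4.ne'] at k3
  rw [hPsi] at k1
  linarith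

end cells

/-! ### the certificate -/

/-- `(k:ℝ) / N ≤ mass g` -/
def mlOk (M N k a b : ℕ) : Bool :=
  Nat.blt 0 N && (Nat.ble k N &&
    Nat.ble (2 ^ N * b ^ (N - k) * M ^ (2 * N)) ((M + a) ^ (2 * N) * M ^ (N - k)))

/-- `mass g ≤ (k:ℝ) / N` -/
def mhOk (M N k a b : ℕ) : Bool :=
  Nat.blt 0 N && (Nat.ble k N &&
    Nat.ble ((M + b) ^ (2 * N) * M ^ (N - k)) (2 ^ N * a ^ (N - k) * M ^ (2 * N)))

def pcU (N M D s k a b : ℕ) : Bool :=
  Nat.blt (s ^ N * b ^ (N - k) * (D * M ^ 2 - s * a ^ 2) ^ k)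
    (((s - D) + (D - s)) ^ k * (D ^ N * (M ^ (N - k) * M ^ (2 * k))))

def rhOk (M D b s0 p q : ℕ) : Bool :=
  Nat.blt 0 q && Nat.ble ((2 * b) ^ p * M ^ p * (D * M) ^ q) ((M + b) ^ (2 * p) * s0 ^ q)

def rlOk (M D a s1 p q : ℕ) : Bool :=
  Nat.blt 0 q && Nat.ble ((M + a) ^ (2 * p) * s1 ^ q) ((2 * a) ^ p * M ^ p * (D * M) ^ q)

inductive Tr where
  | v (N k A C : ℕ) : Tr
  | sp (N k N' k' A0 A1 C0 pa qa pc qc : ℕ) : Tr
  | sm (N k N' k' A0 A1 C1 pa qa pc qc : ℕ) : Tr
  | st (m : ℕ) (l r : Tr) : Tr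

/-- final inequality of `cell_sp` -/
def spQ (t0 t1 A0 A1 C0 al0 al1 r1 r1' : ℚ) : Bool :=
  decide ((A1 - 1) * (1 / A1 - t0 ^ 2) < al0 * (1 - t1 ^ 2)) &&
  (decide (0 ≤ (1 + A0 * t0) ^ 2 - r1 * (1 - (A0 * t0) ^ 2)) &&
  (decide (0 ≤ r1' * (1 - (C0 * t0) ^ 2) - (1 + C0 * t0) ^ 2) &&
  decide (((1 - C0) * (1 / C0 - t0 ^ 2)) * (r1' * (1 - (C0 * t0) ^ 2) - (1 + C0 * t0) ^ 2) /
        (C0 * (al0 * (1 - t1 ^ 2) + (1 - C0) * (1 / C0 - t0 ^ 2))) <
      ((A0 - 1) * (1 / A0 - t1 ^ 2)) * ((1 + A0 * t0) ^ 2 - r1 * (1 - (A0 * t0) ^ 2)) /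
        (A1 * (al1 * (1 - t0 ^ 2) - (A0 - 1) * (1 / A0 - t1 ^ 2))))))

/-- final inequality of `cell_sm` -/
def smQ (t0 t1 A0 A1 C1 al0 al1 r0 r0' : ℚ) : Bool :=
  decide ((A1 - 1) * (1 / A1 - t0 ^ 2) < al0 * (1 - t1 ^ 2)) &&
  (decide (0 ≤ (1 + A1 * t1) ^ 2 - r0 * (1 - (A1 * t1) ^ 2)) &&
  (decide (0 ≤ r0' * (1 - (C1 * t1) ^ 2) - (1 + C1 * t1) ^ 2) &&
  decide (((A1 - 1) * (1 / A1 - t0 ^ 2)) * ((1 + A1 * t1) ^ 2 - r0 * (1 - (A1 * t1) ^ 2)) /
        (A0 * (al0 * (1 - t1 ^ 2) - (A1 - 1) * (1 / A1 - t0 ^ 2))) <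
      ((1 - C1) * (1 / C1 - t1 ^ 2)) * (r0' * (1 - (C1 * t1) ^ 2) - (1 + C1 * t1) ^ 2) /
        (C1 * (al1 * (1 - t0 ^ 2) + (1 - C1) * (1 / C1 - t1 ^ 2))))))

/-- final inequality of `val_cell` -/
def vQ (L t1 A C : ℚ) : Bool :=
  decide (L ≤ 2 / (1 + t1) ^ 2 * ((1 / C - 1 / A) - (A - C) * t1 ^ 2))

def chk (L : ℚ) (M D : ℕ) : Tr → ℕ → ℕ → Bool
  | .v N k A C, a, b => mlOk M N k a b && (Nat.blt D A && (Nat.blt (A * b) (D * M) &&
      (R4.pc N M D A k a b && (Nat.blt 0 C && (Nat.blt C D && (R4.pc N M D C k a b &&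
      vQ L ((b : ℚ) / M) ((A : ℚ) / D) ((C : ℚ) / D)))))))
  | .sp N k N' k' A0 A1 C0 pa qa pc qc, a, b =>
      mlOk M N k a b && (mhOk M N' k' a b && (Nat.blt 0 k && (Nat.blt D A0 && (Nat.blt D A1 &&
      (Nat.blt (A0 * b) (D * M) &&
      (Nat.blt (A1 * b) (D * M) && (R4.pc N M D A0 k a b && (pcU N' M D A1 k' a b &&
      (Nat.blt 0 C0 && (Nat.blt C0 D && (pcU N' M D C0 k' a b &&
      (rhOk M D b (A0 * a) pa qa && (rhOk M D b (C0 * a) pc qc &&
      spQ ((a : ℚ) / M) ((b : ℚ) / M) ((A0 : ℚ) / D) ((A1 : ℚ) / D) ((C0 : ℚ) / D)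
        ((k : ℚ) / N) ((k' : ℚ) / N') ((pa : ℚ) / qa) ((pc : ℚ) / qc))))))))))))))
  | .sm N k N' k' A0 A1 C1 pa qa pc qc, a, b =>
      mlOk M N k a b && (mhOk M N' k' a b && (Nat.blt 0 k && (Nat.blt D A0 && (Nat.blt D A1 &&
      (Nat.blt (A0 * b) (D * M) &&
      (Nat.blt (A1 * b) (D * M) && (R4.pc N M D A0 k a b && (pcU N' M D A1 k' a b &&
      (Nat.blt 0 C1 && (Nat.blt C1 D && (R4.pc N M D C1 k a b &&
      (rlOk M D a (A1 * b) pa qa && (rlOk M D a (C1 * b) pc qc &&
      smQ ((a : ℚ) / M) ((b : ℚ) / M) ((A0 : ℚ) / D) ((A1 : ℚ) / D) ((C1 : ℚ) / D)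
        ((k : ℚ) / N) ((k' : ℚ) / N') ((pa : ℚ) / qa) ((pc : ℚ) / qc))))))))))))))
  | .st m l r, a, b => Nat.blt 0 m && (Nat.blt m M && (chk L M D l a m && chk L M D r m b))

section sound

variable {M D a b : ℕ} {g : ℝ}

theorem ml_sound {N k : ℕ} (hM : 0 < M) (ha : 0 < a) (hg : 0 < g)
    (h0 : (a:ℝ) / M ≤ exp (-2 * g)) (h1 : exp (-2 * g) ≤ (b:ℝ) / M)
    (h : mlOk M N k a b = true) : 0 < N ∧ k ≤ N ∧ (k:ℝ) / N ≤ mass g := by
  simp only [mlOk, Bool.and_eq_true, R4.ble_iff, R4.blt_iff] at h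
  obtain ⟨hN, hk, h⟩ := h
  refine ⟨hN, hk, ?_⟩
  have hM' : (0:ℝ) < M := by exact_mod_cast hM
  have ha' : (0:ℝ) < a := by exact_mod_cast ha
  apply mass_low hg hN hk (div_pos ha' hM') h0 h1
  have h' : (2:ℝ) ^ N * (b:ℝ) ^ (N - k) * (M:ℝ) ^ (2 * N) ≤
      ((M:ℝ) + a) ^ (2 * N) * (M:ℝ) ^ (N - k) := by exact_mod_cast h
  rw [show 1 + (a:ℝ) / M = (M + a) / M by field_simp, div_pow, div_pow, ← mul_div_assoc,
    div_le_div_iff₀ (by positivity) (by positivity)]
  exact h'

theorem mh_sound {N k : ℕ} (hM : 0 < M) (ha : 0 < a) (hg : 0 < g)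
    (h0 : (a:ℝ) / M ≤ exp (-2 * g)) (h1 : exp (-2 * g) ≤ (b:ℝ) / M)
    (h : mhOk M N k a b = true) : 0 < N ∧ k ≤ N ∧ mass g ≤ (k:ℝ) / N := by
  simp only [mhOk, Bool.and_eq_true, R4.ble_iff, R4.blt_iff] at h
  obtain ⟨hN, hk, h⟩ := h
  refine ⟨hN, hk, ?_⟩
  have hM' : (0:ℝ) < M := by exact_mod_cast hM
  have ha' : (0:ℝ) < a := by exact_mod_cast ha
  apply mass_high hg hN hk (div_pos ha' hM') h0 h1
  have h' : ((M:ℝ) + b) ^ (2 * N) * (M:ℝ) ^ (N - k) ≤
      (2:ℝ) ^ N * (a:ℝ) ^ (N - k) * (M:ℝ) ^ (2 * N) := by exact_mod_cast h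
  rw [show 1 + (b:ℝ) / M = (M + b) / M by field_simp, div_pow, div_pow, ← mul_div_assoc,
    div_le_div_iff₀ (by positivity) (by positivity)]
  exact h'

theorem pcU_sound {N s k : ℕ} (hM : 0 < M) (hD : 0 < D)
    (haM : a ≤ M) (hsa : s * a < D * M) (h : pcU N M D s k a b = true) :
    ((s:ℝ) / D) ^ N * ((b:ℝ) / M) ^ (N - k) * (1 - (s:ℝ) / D * ((a:ℝ) / M) ^ 2) ^ k <
      |(s:ℝ) / D - 1| ^ k := by
  have hM' : (0:ℝ) < M := by exact_mod_cast hM
  have hD' : (0:ℝ) < D := by exact_mod_cast hD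
  unfold pcU at h
  rw [R4.blt_iff] at h
  have hsub : s * a ^ 2 ≤ D * M ^ 2 := by
    calc s * a ^ 2 = s * a * a := by ring
      _ ≤ D * M * M := Nat.mul_le_mul hsa.le haM
      _ = _ := by ring
  have habs : (((s - D) + (D - s) : ℕ) : ℝ) = |(s:ℝ) - D| := by
    rcases le_total s D with h1 | h1
    · rw [Nat.sub_eq_zero_of_le h1, zero_add, Nat.cast_sub h1, abs_of_nonpos (by
        have : (s:ℝ) ≤ D := by exact_mod_cast h1
        linarith)]
      ring
    · rw [Nat.sub_eq_zero_of_le h1, add_zero, Nat.cast_sub h1, abs_of_nonneg (by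
        have : (D:ℝ) ≤ s := by exact_mod_cast h1
        linarith)]
  have h' : (s:ℝ) ^ N * (b:ℝ) ^ (N - k) * ((D:ℝ) * (M:ℝ) ^ 2 - s * (a:ℝ) ^ 2) ^ k <
      (((s - D) + (D - s) : ℕ) : ℝ) ^ k * ((D:ℝ) ^ N * ((M:ℝ) ^ (N - k) * (M:ℝ) ^ (2 * k))) := by
    have := (Nat.cast_lt (α := ℝ)).2 h
    rw [Nat.cast_mul, Nat.cast_mul, Nat.cast_mul, Nat.cast_mul, Nat.cast_mul, Nat.cast_pow,
      Nat.cast_pow, Nat.cast_pow, Nat.cast_pow, Nat.cast_pow, Nat.cast_pow, Nat.cast_pow,
      Nat.cast_sub hsub] at this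
    push_cast at this ⊢
    exact this
  rw [habs] at h'
  have e1 : |(s:ℝ) / D - 1| ^ k = |(s:ℝ) - D| ^ k / (D:ℝ) ^ k := by
    rw [← div_pow]; congr 1
    rw [show (s:ℝ) / D - 1 = ((s:ℝ) - D) / D by field_simp, abs_div, abs_of_pos hD']
  have e2 : 1 - (s:ℝ) / D * ((a:ℝ) / M) ^ 2 = ((D:ℝ) * (M:ℝ) ^ 2 - s * (a:ℝ) ^ 2) / (D * M ^ 2) := by
    field_simp
  rw [e1, e2, div_pow, div_pow, div_pow, lt_div_iff₀ (by positivity)]
  have e3 : (s:ℝ) ^ N / (D:ℝ) ^ N * ((b:ℝ) ^ (N - k) / (M:ℝ) ^ (N - k)) *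
      (((D:ℝ) * (M:ℝ) ^ 2 - s * (a:ℝ) ^ 2) ^ k / ((D:ℝ) * (M:ℝ) ^ 2) ^ k) * (D:ℝ) ^ k =
      ((s:ℝ) ^ N * (b:ℝ) ^ (N - k) * ((D:ℝ) * (M:ℝ) ^ 2 - s * (a:ℝ) ^ 2) ^ k) /
        ((D:ℝ) ^ N * ((M:ℝ) ^ (N - k) * (M:ℝ) ^ (2 * k))) := by
    rw [mul_pow (D:ℝ) ((M:ℝ) ^ 2) k, ← pow_mul]
    field_simp
  rw [e3, div_lt_iff₀ (by positivity)]
  exact h'

theorem rh_sound {y : ℝ} {s0 p q : ℕ} (hM : 0 < M) (hD : 0 < D) (hbM : b ≤ M) (hs0 : 0 < s0)
    (hg : 0 < g) (h1 : exp (-2 * g) ≤ (b:ℝ) / M) (hs : (s0:ℝ) / (D * M) ≤ exp (-2 * y))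
    (h : rhOk M D b s0 p q = true) : y / (mass g * g) ≤ (p:ℝ) / q := by
  simp only [rhOk, Bool.and_eq_true, R4.ble_iff, R4.blt_iff] at h
  obtain ⟨hq, h⟩ := h
  have hM' : (0:ℝ) < M := by exact_mod_cast hM
  have hD' : (0:ℝ) < D := by exact_mod_cast hD
  have hs' : (0:ℝ) < s0 := by exact_mod_cast hs0
  apply rho_high hg hq (by positivity) hs h1 ((div_le_one hM').2 (by exact_mod_cast hbM))
  have h' : (2 * (b:ℝ)) ^ p * (M:ℝ) ^ p * ((D:ℝ) * M) ^ q ≤
      ((M:ℝ) + b) ^ (2 * p) * (s0:ℝ) ^ q := by exact_mod_cast h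
  rw [show 1 + (b:ℝ) / M = (M + b) / M by field_simp, show 2 * ((b:ℝ) / M) = (2 * b) / M by ring,
    div_pow, div_pow, div_pow, div_mul_div_comm, div_le_div_iff₀ (by positivity) (by positivity)]
  calc (2 * (b:ℝ)) ^ p * ((M:ℝ) ^ (2 * p) * ((D:ℝ) * M) ^ q) =
      ((2 * (b:ℝ)) ^ p * (M:ℝ) ^ p * ((D:ℝ) * M) ^ q) * (M:ℝ) ^ p := by
        rw [two_mul p, pow_add]; ring
    _ ≤ (((M:ℝ) + b) ^ (2 * p) * (s0:ℝ) ^ q) * (M:ℝ) ^ p :=
        mul_le_mul_of_nonneg_right h' (by positivity)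

theorem rl_sound {y : ℝ} {s1 p q : ℕ} (hM : 0 < M) (hD : 0 < D) (ha : 0 < a)
    (hg : 0 < g) (h0 : (a:ℝ) / M ≤ exp (-2 * g)) (hs : exp (-2 * y) ≤ (s1:ℝ) / (D * M))
    (h : rlOk M D a s1 p q = true) : (p:ℝ) / q ≤ y / (mass g * g) := by
  simp only [rlOk, Bool.and_eq_true, R4.ble_iff, R4.blt_iff] at h
  obtain ⟨hq, h⟩ := h
  have hM' : (0:ℝ) < M := by exact_mod_cast hM
  have hD' : (0:ℝ) < D := by exact_mod_cast hD
  have ha' : (0:ℝ) < a := by exact_mod_cast ha
  apply rho_low hg hq hs (by positivity) h0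
  have h' : ((M:ℝ) + a) ^ (2 * p) * (s1:ℝ) ^ q ≤
      (2 * (a:ℝ)) ^ p * (M:ℝ) ^ p * ((D:ℝ) * M) ^ q := by exact_mod_cast h
  rw [show 1 + (a:ℝ) / M = (M + a) / M by field_simp, show 2 * ((a:ℝ) / M) = (2 * a) / M by ring,
    div_pow, div_pow, div_pow, div_mul_div_comm, div_le_div_iff₀ (by positivity) (by positivity)]
  calc ((M:ℝ) + a) ^ (2 * p) * (s1:ℝ) ^ q * (M:ℝ) ^ p ≤
      ((2 * (a:ℝ)) ^ p * (M:ℝ) ^ p * ((D:ℝ) * M) ^ q) * (M:ℝ) ^ p :=
        mul_le_mul_of_nonneg_right h' (by positivity)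
    _ = (2 * (a:ℝ)) ^ p * ((M:ℝ) ^ (2 * p) * ((D:ℝ) * M) ^ q) := by
        rw [two_mul p, pow_add]; ring

theorem chk_sound {L : ℚ} {x z : ℝ} (hM : 0 < M) (hD : 0 < D) (H : Adm g x z)
    (hPsi : Psi g x = Psi g z) :
    ∀ (T : Tr) (a b : ℕ), chk L M D T a b = true → 0 < a → b < M →
      (a:ℝ) / M ≤ exp (-2 * g) → exp (-2 * g) ≤ (b:ℝ) / M → (L:ℝ) ≤ val g x z := by
  have hM' : (0:ℝ) < M := by exact_mod_cast hM
  have hD' : (0:ℝ) < D := by exact_mod_cast hD
  have hg := H.g_pos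
  have hx := H.1
  intro T
  induction T with
  | v N k A C =>
    intro a b h ha hb h0 h1
    have ha' : (0:ℝ) < a := by exact_mod_cast ha
    have hb1 : (b:ℝ) / M < 1 := (div_lt_one hM').2 (by exact_mod_cast hb)
    simp only [chk, Bool.and_eq_true, R4.blt_iff] at h
    obtain ⟨g1, g2, g3, g4, g5, g6, g7, g8⟩ := h
    obtain ⟨hN, hk, hm⟩ := ml_sound hM ha hg h0 h1 g1
    have hA1 : 1 < (A:ℝ) / D := by rw [one_lt_div hD']; exact_mod_cast g2
    have hAt : (A:ℝ) / D * ((b:ℝ) / M) < 1 := by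
      rw [div_mul_div_comm, div_lt_one (by positivity)]; exact_mod_cast g3
    have hC' : (0:ℝ) < C := by exact_mod_cast g5
    have hC1 : (C:ℝ) / D < 1 := by rw [div_lt_one hD']; exact_mod_cast g6
    have hC0 : (0:ℝ) < (C:ℝ) / D := by positivity
    have hCb : C * b < D * M := Nat.mul_lt_mul_of_lt_of_le g6 hb.le hM
    have hCt : (C:ℝ) / D * ((b:ℝ) / M) < 1 := by
      rw [div_mul_div_comm, div_lt_one (by positivity)]; exact_mod_cast hCb
    have hpA := R4.pc_sound hM hD ha hb.le (by omega) g3 g4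
    have hpC := R4.pc_sound hM hD ha hb.le g5 hCb g7
    have tA := a_test_neg H hN hk hm hA1 (div_pos ha' hM') h0 h1 hb1.le hAt hpA
    have tC := c_test_neg H hN hk hm hC0 hC1 (div_pos ha' hM') h0 h1 hb1.le hCt hpC
    have hv := val_cell (div_pos ha' hM') h0 h1 hb1 hA1 hAt tA hx hC0 hC1 tC
    refine le_trans ?_ hv
    simp only [vQ, decide_eq_true_eq] at g8
    have g9 := (Rat.cast_le (K := ℝ)).2 g8
    push_cast at g9
    exact g9
  | sp N k N' k' A0 A1 C0 pa qa pc qc =>
    intro a b h ha hb h0 h1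
    exfalso
    have ha' : (0:ℝ) < a := by exact_mod_cast ha
    have hb1 : (b:ℝ) / M < 1 := (div_lt_one hM').2 (by exact_mod_cast hb)
    simp only [chk, Bool.and_eq_true, R4.blt_iff] at h
    obtain ⟨g1, g2, g3, g4, g4', g5, g6, g7, g8, g9, g10, g11, g12, g13, g14⟩ := h
    obtain ⟨hN, hk, hm⟩ := ml_sound hM ha hg h0 h1 g1
    obtain ⟨hN2, hk2, hm2⟩ := mh_sound hM ha hg h0 h1 g2
    have hN' : (0:ℝ) < N := by exact_mod_cast hN
    have hk' : (0:ℝ) < k := by exact_mod_cast g3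
    have hA0 : 1 < (A0:ℝ) / D := by rw [one_lt_div hD']; exact_mod_cast g4
    have hA1 : 1 < (A1:ℝ) / D := by rw [one_lt_div hD']; exact_mod_cast g4'
    have hA0t : (A0:ℝ) / D * ((b:ℝ) / M) < 1 := by
      rw [div_mul_div_comm, div_lt_one (by positivity)]; exact_mod_cast g5
    have hA1t : (A1:ℝ) / D * ((b:ℝ) / M) < 1 := by
      rw [div_mul_div_comm, div_lt_one (by positivity)]; exact_mod_cast g6
    have hA0' : (0:ℝ) < A0 := by
      have : 0 < A0 := by omega
      exact_mod_cast this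
    have hC0' : (0:ℝ) < C0 := by exact_mod_cast g9
    have hC0 : (0:ℝ) < (C0:ℝ) / D := by positivity
    have hC1 : (C0:ℝ) / D < 1 := by rw [div_lt_one hD']; exact_mod_cast g10
    have hCb : C0 * b < D * M := Nat.mul_lt_mul_of_lt_of_le g10 hb.le hM
    have hCt : (C0:ℝ) / D * ((b:ℝ) / M) < 1 := by
      rw [div_mul_div_comm, div_lt_one (by positivity)]; exact_mod_cast hCb
    have hab : a ≤ b := by
      have : (a:ℝ) / M ≤ (b:ℝ) / M := h0.trans h1
      rw [div_le_div_iff_of_pos_right hM'] at this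
      exact_mod_cast this
    have hp1 := R4.pc_sound hM hD ha hb.le (by omega) g5 g7
    have hp2 := pcU_sound hM hD (by omega) (lt_of_le_of_lt (Nat.mul_le_mul le_rfl hab) g6) g8
    have hp3 := pcU_sound hM hD (by omega) (lt_of_le_of_lt (Nat.mul_le_mul le_rfl hab) hCb) g11
    have t1 := a_test_neg H hN hk hm hA0 (div_pos ha' hM') h0 h1 hb1.le hA0t hp1
    have t2 := a_test_pos H hN2 hk2 hm2 hA1 (div_pos ha' hM') h0 h1 hb1.le hA1t hp2
    have t3 := c_test_pos H hN2 hk2 hm2 hC0 hC1 (div_pos ha' hM') h0 h1 hb1.le hCt hp3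
    have r1 := rh_sound (y := x) hM hD hb.le (s0 := A0 * a) (Nat.mul_pos (by omega) ha) hg h1 (by
      refine le_trans ?_ t1.le
      push_cast
      rw [mul_div_mul_comm]
      exact mul_le_mul_of_nonneg_left h0 (by positivity)) g12
    have r2 := rh_sound (y := z) hM hD hb.le (s0 := C0 * a) (Nat.mul_pos g9 ha) hg h1 (by
      refine le_trans ?_ t3
      push_cast
      rw [mul_div_mul_comm]
      exact mul_le_mul_of_nonneg_left h0 (by positivity)) g13
    simp only [spQ, Bool.and_eq_true, decide_eq_true_eq] at g14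
    obtain ⟨q1, q2, q3, q4⟩ := g14
    have q1' := (Rat.cast_lt (K := ℝ)).2 q1
    have q2' := (Rat.cast_le (K := ℝ)).2 q2
    have q3' := (Rat.cast_le (K := ℝ)).2 q3
    have q4' := (Rat.cast_lt (K := ℝ)).2 q4
    push_cast at q1' q2' q3' q4'
    exact cell_sp H hPsi (div_pos ha' hM') h0 h1 hb1 hA0 hA1t t1 t2 hC0 t3 (by positivity) hm hm2
      (by positivity) r1 (by positivity) r2 q1' q2' q3' q4'
  | sm N k N' k' A0 A1 C1 pa qa pc qc =>
    intro a b h ha hb h0 h1
    exfalso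
    have ha' : (0:ℝ) < a := by exact_mod_cast ha
    have hb1 : (b:ℝ) / M < 1 := (div_lt_one hM').2 (by exact_mod_cast hb)
    simp only [chk, Bool.and_eq_true, R4.blt_iff] at h
    obtain ⟨g1, g2, g3, g4, g4', g5, g6, g7, g8, g9, g10, g11, g12, g13, g14⟩ := h
    obtain ⟨hN, hk, hm⟩ := ml_sound hM ha hg h0 h1 g1
    obtain ⟨hN2, hk2, hm2⟩ := mh_sound hM ha hg h0 h1 g2
    have hN' : (0:ℝ) < N := by exact_mod_cast hN
    have hk' : (0:ℝ) < k := by exact_mod_cast g3
    have hA0 : 1 < (A0:ℝ) / D := by rw [one_lt_div hD']; exact_mod_cast g4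
    have hA1 : 1 < (A1:ℝ) / D := by rw [one_lt_div hD']; exact_mod_cast g4'
    have hA0t : (A0:ℝ) / D * ((b:ℝ) / M) < 1 := by
      rw [div_mul_div_comm, div_lt_one (by positivity)]; exact_mod_cast g5
    have hA1t : (A1:ℝ) / D * ((b:ℝ) / M) < 1 := by
      rw [div_mul_div_comm, div_lt_one (by positivity)]; exact_mod_cast g6
    have hC1' : (0:ℝ) < C1 := by exact_mod_cast g9
    have hC0 : (0:ℝ) < (C1:ℝ) / D := by positivity
    have hC1 : (C1:ℝ) / D < 1 := by rw [div_lt_one hD']; exact_mod_cast g10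
    have hCb : C1 * b < D * M := Nat.mul_lt_mul_of_lt_of_le g10 hb.le hM
    have hCt : (C1:ℝ) / D * ((b:ℝ) / M) < 1 := by
      rw [div_mul_div_comm, div_lt_one (by positivity)]; exact_mod_cast hCb
    have hab : a ≤ b := by
      have : (a:ℝ) / M ≤ (b:ℝ) / M := h0.trans h1
      rw [div_le_div_iff_of_pos_right hM'] at this
      exact_mod_cast this
    have hp1 := R4.pc_sound hM hD ha hb.le (by omega) g5 g7
    have hp2 := pcU_sound hM hD (by omega) (lt_of_le_of_lt (Nat.mul_le_mul le_rfl hab) g6) g8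
    have hp3 := R4.pc_sound hM hD ha hb.le g9 hCb g11
    have t1 := a_test_neg H hN hk hm hA0 (div_pos ha' hM') h0 h1 hb1.le hA0t hp1
    have t2 := a_test_pos H hN2 hk2 hm2 hA1 (div_pos ha' hM') h0 h1 hb1.le hA1t hp2
    have t3 := c_test_neg H hN hk hm hC0 hC1 (div_pos ha' hM') h0 h1 hb1.le hCt hp3
    have r1 := rl_sound (y := x) hM hD ha (s1 := A1 * b) hg h0 (by
      refine le_trans t2 ?_
      push_cast
      rw [mul_div_mul_comm]
      exact mul_le_mul_of_nonneg_left h1 (by positivity)) g12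
    have r2 := rl_sound (y := z) hM hD ha (s1 := C1 * b) hg h0 (by
      refine le_trans t3 ?_
      push_cast
      rw [mul_div_mul_comm]
      exact mul_le_mul_of_nonneg_left h1 (by positivity)) g13
    simp only [smQ, Bool.and_eq_true, decide_eq_true_eq] at g14
    obtain ⟨q1, q2, q3, q4⟩ := g14
    have q1' := (Rat.cast_lt (K := ℝ)).2 q1
    have q2' := (Rat.cast_le (K := ℝ)).2 q2
    have q3' := (Rat.cast_le (K := ℝ)).2 q3
    have q4' := (Rat.cast_lt (K := ℝ)).2 q4
    push_cast at q1' q2' q3' q4'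
    exact cell_sm H hPsi (div_pos ha' hM') h0 h1 hb1 hA0 hA1t t1 t2 hC1 t3 (by positivity) hm hm2
      (by positivity) r1 (by positivity) r2 q1' q2' q3' q4'
  | st m l r ihl ihr =>
    intro a b h ha hb h0 h1
    simp only [chk, Bool.and_eq_true, R4.blt_iff] at h
    obtain ⟨g1, g2, g3, g4⟩ := h
    rcases le_total (exp (-2 * g)) ((m:ℝ) / M) with h5 | h5
    · exact ihl _ _ g3 ha g2 h0 h5
    · exact ihr _ _ g4 g1 hb h5 h1

end sound

/-! ### the certificate for `0.01 ≤ t ≤ 0.045` -/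

def T0 : Tr :=
  .st 24218750000 (.st 23671875000 (.st 23398437500 (.sm 29 24 99 82 2147544708347 2165608817901
  702396977548 20 21 25 19) (.sm 81 67 64 53 2149363807752 2171276435744 702419617736 20 21 25 19))
  (.st 23945312500 (.st 23808593750 (.sm 133 110 197 163 2155921333232 2164863547378 702052007647 22
  23 33 25) (.sm 127 105 110 91 2155608145477 2166801280668 702164554586 22 23 33 25)) (.st
  24082031250 (.sm 75 62 133 110 2158009067154 2167768407510 702052819141 22 23 37 28) (.sm 121 100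
  52 43 2158752999359 2169598181682 702077823176 21 22 37 28)))) (.st 24765625000 (.st 24492187500
  (.st 24355468750 (.sm 213 176 75 62 2160417998239 2169802663394 702026993404 21 22 37 28) (.sm 23
  19 98 81 2161373545321 2171735911304 702034474413 21 22 41 31)) (.st 24628906250 (.sm 155 128 144
  119 2161226298146 2173578608113 702132283651 21 22 41 31) (.sm 109 90 23 19 2163387905189
  2173092113328 702040759328 21 22 45 34))) (.st 25039062500 (.st 24902343750 (.sm 149 123 224 185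
  2164590914397 2174156117956 702027813167 21 22 45 34) (.st 24970703125 (.sm 212 175 109 90
  2168006505272 2173101013794 701836217393 43 45 57 43) (.sm 292 241 86 71 2168070300331
  2173487180924 701873603704 43 45 61 46))) (.st 25175781250 (.st 25107421875 (.sm 103 85 149 123
  2168555373568 2174284920267 701876698462 21 22 61 46) (.sm 143 118 63 52 2169496086902
  2174668297394 701842784357 21 22 65 49)) (.st 25244140625 (.sm 223 184 166 137 2170509296224
  2175207025598 701803046574 21 22 69 52) (.st 25278320312 (.sm 303 250 143 118 2172010609168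
  2174326642366 701724658648 43 45 81 61) (.sm 583 481 183 151 2172396560007 2174733041838
  701714633365 64 67 81 61))))))
def T1 : Tr :=
  .st 25709838867 (.st 25707702636 (.st 25706634521 (.sm 1231 1015 701 578 2176975778017
  2177056634505 701610308731 85 89 842 633) (.sm 587 484 644 531 2176985512208 2177054344668
  701610184658 85 89 141 106)) (.st 25708770751 (.sm 1117 921 1231 1015 2176993202905 2177065849995
  701610224865 85 89 141 106) (.st 25709304809 (.sm 1647 1358 587 484 2177015295206 2177060502980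
  701609119950 744 779 850 639) (.sm 2707 2232 1704 1405 2177023681735 2177060916870 701608775000
  744 779 709 533)))) (.st 25711975097 (.st 25710906982 (.st 25710372924 (.sm 530 437 1117 921
  2177028474857 2177068192487 701608718919 829 868 709 533) (.sm 2063 1701 2177 1795 2177030120528
  2177071170582 701608915852 914 957 709 533)) (.st 25711441039 (.sm 1003 827 530 437 2177031014269
  2177073508742 701609173230 999 1046 568 427) (.sm 1476 1217 2593 2138 2177036118277 2177077858137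
  701609092154 1084 1135 568 427))) (.st 25713043212 (.st 25712509154 (.st 25712242125 (.sm 1476
  1217 2536 2091 2177051095094 2177074194589 701608223758 829 868 427 321) (.sm 1949 1607 1003 827
  2177053504103 2177075945093 701608194717 914 957 427 321)) (.st 25712776183 (.sm 2422 1997 2479
  2044 2177057877100 2177077564799 701608007803 914 957 427 321) (.sm 3841 3167 1476 1217
  2177060649691 2177081048824 701607949537 999 1046 1140 857))) (.st 25713577270 (.st 25713310241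
  (.sm 473 390 1949 1607 2177060125060 2177083457756 701608156316 1084 1135 1140 857) (.sm 6092 5023
  2895 2387 2177062542321 2177085767648 701608126613 1084 1135 713 536)) (.st 25713844299 (.sm 3254
  2683 5260 4337 2177065601315 2177088455242 701608045325 1169 1224 713 536) (.st 25713977813 (.sm
  3254 2683 8457 6973 2177073089581 2177082692442 701607611154 999 1046 999 751) (.sm 2781 2293 5146
  4243 2177075209682 2177084084365 701607523037 999 1046 1285 966))))))
def T2 : Tr :=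
  .st 25714645385 (.st 25714378356 (.st 25714244842 (.sm 4143 3416 3727 3073 2177075161838
  2177085540285 701607609185 999 1046 1285 966) (.sm 1835 1513 2781 2293 2177076977683 2177086467613
  701607545524 1084 1135 1285 966)) (.st 25714511870 (.sm 3197 2636 2308 1903 2177078230498
  2177087932506 701607527122 1084 1135 1571 1181) (.st 25714578627 (.sm 4559 3759 1835 1513
  2177080982127 2177086350717 701607389819 999 1046 2715 2041) (.sm 7283 6005 5032 4149
  2177081970083 2177086643444 701607351556 999 1046 3287 2471)))) (.st 25714912414 (.st 25714778899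
  (.st 25714712142 (.sm 1362 1123 3197 2636 2177082371106 2177087603544 701607360472 999 1046 3573
  2686) (.sm 6337 5225 4559 3759 2177082554404 2177088470352 701607386889 1084 1135 3859 2901)) (.st
  25714845656 (.sm 3613 2979 10007 8251 2177083150083 2177089061344 701607380157 1084 1135 4717
  3546) (.sm 5864 4835 10423 8594 2177084326596 2177088840349 701607326738 1084 1135 5575 4191)))
  (.st 25715045928 (.st 25714979171 (.sm 2251 1856 4975 4102 2177085090022 2177089583774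
  701607306523 1084 1135 7291 5481) (.sm 3140 2589 3613 2979 2177084902730 2177090638281
  701607362729 1084 1135 286 215)) (.st 25715112685 (.st 25715079306 (.sm 3140 2589 14395 11869
  2177086774766 2177089330072 701607254191 2083 2181 7295 5484) (.sm 7169 5911 7642 6301
  2177087061783 2177089865233 701607251695 1084 1135 6437 4839)) (.st 25715146064 (.sm 4029 3322
  8531 7034 2177087490618 2177090129232 701607237800 1084 1135 5865 4409) (.sm 4918 4055 3140 2589
  2177087690228 2177090518870 701607242331 1084 1135 5293 3979)))))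
def T3 : Tr :=
  .st 25715546606 (.st 25715529917 (.st 25715521572 (.st 25715517400 (.st 25715515314 (.v 31417
  25904 2177092029962 701607120564) (.v 12389 10215 2177092050895 701607120167)) (.st 25715519486
  (.v 30528 25171 2177092070746 701607119858) (.v 42028 34653 2177092083745 701607120098))) (.st
  25715525744 (.st 25715523658 (.v 29639 24438 2177092107005 701607119515) (.v 46889 38661
  2177092133876 701607118641)) (.st 25715527830 (.v 5750 4741 2177092138321 701607119569) (.v 50861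
  41936 2177092146955 701607120161)))) (.st 25715538261 (.st 25715534089 (.st 25715532003 (.v 27861
  22972 2177092164248 701607120057) (.v 22111 18231 2177092198863 701607118561)) (.st 25715536175
  (.v 16361 13490 2177092216974 701607118391) (.v 26972 22239 2177092242292 701607117642))) (.st
  25715542433 (.st 25715540347 (.v 10611 8749 2177092249846 701607118320) (.v 26083 21506
  2177092255678 701607119137)) (.st 25715544519 (.v 15472 12757 2177092277930 701607118635) (.v
  20333 16765 2177092290046 701607118947))))) (.st 25715563295 (.st 25715554950 (.st 25715550778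
  (.st 25715548692 (.v 25194 20773 2177092319933 701607117831) (.v 34916 28789 2177092345142
  701607117090)) (.st 25715552864 (.v 59221 48829 2177092368261 701607116518) (.v 4861 4008
  2177092376109 701607117173))) (.st 25715559122 (.st 25715557036 (.v 52582 43355 2177092377613
  701607118338) (.v 33138 27323 2177092402503 701607117623)) (.st 25715561208 (.v 23416 19307
  2177092423317 701607117236) (.v 18555 15299 2177092448120 701607116528)))) (.st 25715571640 (.st
  25715567467 (.sp 22527 18574 33138 27323 2177092401626 2177092695415 701607100653 1084 1135 7730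
  5811) (.sp 8833 7283 18555 15299 2177092445123 2177092741061 701607099557 1084 1135 9591 7210))
  (.st 25715575812 (.sp 12805 10558 13694 11291 2177092433454 2177092800325 701607097365 1084 1135
  9591 7210) (.sp 16777 13833 8833 7283 2177092482313 2177092796959 701607100208 12009 12574 11452
  8609))))
def T4 : Tr :=
  .st 25715579985 (.st 25715513228 (.st 25715479849 (.st 25715463160 (.st 25715454815 (.sm 11084
  9139 14640 12071 2177091289901 2177091885255 701607138753 1084 1135 2433 1829) (.sm 19501 16079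
  12862 10605 2177091321520 2177091964031 701607141355 7673 8034 2433 1829)) (.st 25715471504 (.sm
  17723 14613 11084 9139 2177091386522 2177091993485 701607141274 6589 6899 7013 5272) (.st
  25715475676 (.sm 17723 14613 19501 16079 2177091620508 2177091907314 701607127708 1084 1135 4580
  3443) (.sm 8417 6940 9306 7673 2177091639732 2177091943827 701607128734 1084 1135 11307 8500))))
  (.st 25715496538 (.st 25715488193 (.st 25715484021 (.sm 15945 13147 17723 14613 2177091648173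
  2177091972315 701607130628 1084 1135 6727 5057) (.sm 23473 19354 26140 21553 2177091725719
  2177092057286 701607126966 1084 1135 6727 5057)) (.st 25715492365 (.sm 7528 6207 32779 27027
  2177091760051 2177092055305 701607126778 14177 14844 6727 5057) (.sm 21695 17888 15945 13147
  2177091787675 2177092116176 701607127130 10925 11439 8874 6671))) (.st 25715504883 (.st
  25715500710 (.sm 20806 17155 7528 6207 2177091807758 2177092111859 701607128088 10925 11439 8874
  6671) (.sm 40723 33577 29223 24095 2177091872734 2177092162327 701607125437 9841 10304 11021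
  8285)) (.st 25715509055 (.st 25715506969 (.v 60640 49999 2177091972182 701607120065) (.v 72140
  59481 2177091964145 701607121996)) (.st 25715511141 (.v 32306 26637 2177091985001 701607121606)
  (.v 25667 21163 2177092025653 701607119624)))))) T3) (.st 25715646742 (.st 25715613363 (.st
  25715596674 (.st 25715588329 (.st 25715584157 (.sp 20749 17108 21638 17841 2177092556982
  2177092837469 701607099523 9841 10304 13313 10008) (.sp 36637 30208 12805 10558 2177092597061
  2177092901456 701607096951 8757 9169 17035 12806)) (.st 25715592501 (.sp 3972 3275 16777 13833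
  2177092613852 2177092950316 701607095596 8757 9169 1861 1399) (.sp 30887 25467 28693 23658
  2177092612137 2177092976389 701607096072 7673 8034 1861 1399))) (.st 25715605018 (.sp 11027 9092
  24721 20383 2177092514406 2177093230768 701607080867 1084 1135 7158 5381) (.sp 7055 5817 30887
  25467 2177092560853 2177093197958 701607088648 1084 1135 5297 3982))) (.st 25715630052 (.st
  25715621707 (.sp 17193 14176 14999 12367 2177092674014 2177093305450 701607085151 1084 1135 5297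
  3982) (.sp 13221 10901 11027 9092 2177092715489 2177093450407 701607078644 1084 1135 5297 3982))
  (.sp 3083 2542 7055 5817 2177092589823 2177093732491 701607066455 1084 1135 5011 3767))) (.st
  25715680121 (.st 25715663431 (.sp 11443 9435 10138 8359 2177092644625 2177093995050 701607055637
  1084 1135 5011 3767) (.sp 13637 11244 3083 2542 2177092831335 2177093997071 701607065763 1084 1135
  1575 1184)) (.st 25715696810 (.sp 12748 10511 14526 11977 2177092880124 2177094138869 701607064652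
  1084 1135 1575 1184) (.sp 7471 6160 8360 6893 2177093193046 2177094365466 701607056726 1084 1135
  1575 1184))))
def T5 : Tr :=
  .st 25715446471 (.st 25715312957 (.st 25715246200 (.st 25715212821 (.sm 5807 4788 7169 5911
  2177088113362 2177090805885 701607228894 1084 1135 4721 3549) (.sm 7585 6254 8947 7377
  2177088386149 2177090833431 701607227542 1084 1135 4435 3334)) (.st 25715279578 (.sm 10252 8453
  4918 4055 2177088757726 2177091434300 701607218249 1084 1135 4149 3119) (.sm 15586 12851 6696 5521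
  2177089144169 2177091485413 701607207761 2253 2359 3863 2904))) (.st 25715379714 (.st 25715346335
  (.st 25715329646 (.sm 19142 15783 10252 8453 2177089886258 2177091100954 701607169081 1084 1135
  3291 2474) (.sm 28921 23846 12030 9919 2177090063642 2177091331184 701607165111 1084 1135 3005
  2259)) (.st 25715363024 (.sm 66259 54632 15586 12851 2177090211404 2177091487396 701607163521 1084
  1135 3005 2259) (.sm 53756 44323 22698 18715 2177090127944 2177091625119 701607180517 1084 1135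
  3005 2259))) (.st 25715413092 (.st 25715396403 (.sm 26197 21600 39589 32642 2177090274350
  2177091784066 701607179036 1084 1135 3005 2259) (.sm 17307 14270 889 733 2177090420108
  2177091837862 701607177608 3337 3494 2719 2044)) (.st 25715429781 (.st 25715421436 (.sm 18196
  15003 31531 25998 2177090934042 2177091551009 701607146782 1084 1135 5152 3873) (.sm 15529 12804
  24419 20134 2177091012852 2177091633128 701607145590 1084 1135 7585 5702)) (.st 25715438126 (.sm
  13751 11338 19974 16469 2177091109787 2177091717257 701607142942 1084 1135 7585 5702) (.sm 11973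
  9872 16418 13537 2177091166484 2177091773231 701607143529 1084 1135 2433 1829)))))) T4
def T6 : Tr :=
  .st 25715980529 (.st 25715847014 (.st 25715780257 (.st 25715746878 (.st 25715730189 (.sp 11859
  9778 5277 4351 2177093331341 2177094502374 701607056009 1084 1135 1575 1184) (.sp 25023 20632 7471
  6160 2177093503667 2177094600264 701607058428 3337 3494 4439 3337)) (.st 25715763567 (.sp 25439
  20975 9665 7969 2177093445811 2177094864737 701607047457 3337 3494 4439 3337) (.sp 12275 10121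
  16247 13396 2177093632669 2177095053209 701607042595 3337 3494 4439 3337))) (.st 25715813635 (.sp
  5693 4694 14053 11587 2177093470120 2177096052561 701606983236 1084 1135 1289 969) (.sp 3499 2885
  12275 10121 2177093673545 2177095975910 701607009972 1084 1135 1289 969))) (.st 25715913771 (.st
  25715880392 (.sp 4804 3961 5693 4694 2177093742615 2177096284520 701607005741 1084 1135 1289 969)
  (.sp 6109 5037 3499 2885 2177094179323 2177096487973 701607009963 1084 1135 1289 969)) (.st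
  25715947150 (.sp 8719 7189 8303 6846 2177094565803 2177096919697 701606995836 1084 1135 3581 2692)
  (.sp 16549 13645 4804 3961 2177094893926 2177097486678 701606970837 2253 2359 2292 1723)))) (.st
  25716114043 (.st 25716047286 (.st 25716013907 (.sp 1305 1076 7414 6113 2177095153755 2177097604003
  701606981981 2253 2359 2292 1723) (.sp 10856 8951 11329 9341 2177095062300 2177098016974
  701606969361 2253 2359 2292 1723)) (.sp 4331 3571 11329 9341 2177094440854 2177099888989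
  701606860827 1084 1135 1003 754)) (.st 25716180800 (.sp 3026 2495 10856 8951 2177095196332
  2177099748731 701606913251 1084 1135 2723 2047) (.sp 6468 5333 5636 4647 2177095577402
  2177100662302 701606880968 1084 1135 1720 1293)))
def T7 : Tr :=
  .st 25717315673 (.st 25716781615 (.st 25716514586 (.st 25716381072 (.st 25716314315 (.sp 1721 1419
  3026 2495 2177096137150 2177100825157 701606909028 1084 1135 1720 1293) (.sp 5579 4600 4747 3914
  2177096489793 2177101677357 701606881678 1084 1135 1720 1293)) (.st 25716447829 (.sp 3858 3181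
  8189 6752 2177097676955 2177102792352 701606833204 1169 1224 1720 1293) (.sp 2137 1762 9021 7438
  2177097781634 2177102693421 701606882306 1169 1224 2437 1832))) (.st 25716648100 (.sp 2553 2105
  5579 4600 2177096963910 2177105862580 701606711447 999 1046 1865 1402) (.sp 3385 2791 2137 1762
  2177097334605 2177107154434 701606689909 999 1046 1148 863))) (.st 25717048644 (.st 25716915129
  (.sp 4217 3477 2553 2105 2177099026320 2177108221455 701606686441 999 1046 1148 863) (.sp 5881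
  4849 2969 2448 2177100411625 2177110031508 701606623250 1084 1135 1148 863)) (.st 25717182158 (.sp
  10457 8622 3801 3134 2177101542653 2177111186300 701606612727 1084 1135 1148 863) (.sp 416 343
  5049 4163 2177101935752 2177112643481 701606577900 1084 1135 1579 1187)))) (.st 25717849731 (.st
  25717582702 (.st 25717449187 (.sp 9927 8185 7545 6221 2177102151333 2177114083542 701606544448
  1169 1224 1579 1187) (.sp 5767 4755 15865 13081 2177103342963 2177115385039 701606522134 1169 1224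
  2010 1511)) (.sp 2855 2354 416 343 2177100860299 2177120681169 701606264194 829 868 1438 1081))
  (.st 25718116760 (.sp 2023 1668 5767 4755 2177103287954 2177122088296 701606315688 914 957 1007
  757) (.sp 1607 1325 3271 2697 2177106275088 2177124924016 701606252355 999 1046 1007 757)))
def T8 : Tr :=
  .st 25705566406 (.st 25697021484 (.st 25692749023 (.st 25690612792 (.sm 1841 1518 7085 5842
  2176773724066 2176936888448 701615992373 319 334 137 103) (.sm 1442 1189 3323 2740 2176795103286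
  2176955859072 701615590457 404 423 137 103)) (.st 25694885253 (.sm 1157 954 2183 1800
  2176811272671 2176975496724 701615607473 85 89 552 415) (.sm 986 813 1613 1330 2176832749927
  2176993933045 701615197683 85 89 415 312))) (.st 25701293945 (.st 25699157714 (.sm 872 719 1271
  1048 2176858615775 2177011113030 701614435040 85 89 415 312) (.sm 758 625 1100 907 2176874359955
  2177039586653 701614486238 85 89 278 209)) (.st 25703430175 (.sm 701 578 929 766 2176906645839
  2177056631256 701613207461 85 89 278 209) (.st 25704498290 (.sm 1345 1109 1573 1297 2176951218192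
  2177036482820 701610966205 574 601 560 421) (.sm 644 531 1459 1203 2176964271564 2177041024751
  701610575283 659 690 701 527))))) (.st 25714111328 T1 (.st 25718383789 (.st 25716247558 (.st
  25715179443 T2 (.st 25715713500 T5 T6)) T7) (.st 25720520019 (.st 25719451904 (.st 25718917846
  (.st 25718650817 (.sp 1191 982 2439 2011 2177106153812 2177128734356 701606110684 999 1046 1007
  757) (.sp 3157 2603 1607 1325 2177109743233 2177128789619 701606270836 1084 1135 576 433)) (.st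
  25719184875 (.sp 2741 2260 2798 2307 2177112164868 2177133009152 701606096277 1169 1224 576 433)
  (.sp 775 639 1191 982 2177112791845 2177136104925 701606012043 1169 1224 576 433))) (.st
  25719985961 (.sp 1909 1574 1191 982 2177110348776 2177151080527 701605143867 659 690 866 651) (.sp
  1493 1231 775 639 2177109995652 2177150281440 701605537277 744 779 866 651))) (.st 25721588134
  (.st 25721054076 (.sp 1852 1527 1909 1574 2177119636938 2177155376801 701605456919 829 868 1011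
  760) (.sp 3288 2711 1134 935 2177125007522 2177163567529 701605127775 914 957 1156 869)) (.st
  25722122192 (.sp 359 296 1493 1231 2177127625269 2177169896186 701604948296 999 1046 1301 978)
  (.sp 2815 2321 2570 2119 2177128183696 2177173458571 701604991151 999 1046 1736 1305))))))
def T9 : Tr :=
  .st 25739746093 (.st 25731201171 (.st 25726928710 (.st 25724792480 (.st 25723724365 (.st
  25723190307 (.sp 1738 1433 5442 4487 2177134185949 2177180056628 701604790022 1169 1224 145 109)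
  (.sp 1379 1137 4251 3505 2177143022564 2177178045468 701605280830 85 89 145 109)) (.sp 661 545
  2456 2025 2177125950698 2177201066986 701604101534 489 512 729 548)) (.st 25725860595 (.sp 963 794
  1379 1137 2177132969100 2177217997646 701603399159 574 601 584 439) (.sp 1265 1043 1681 1386
  2177150837577 2177229019914 701603171642 659 690 439 330))) (.st 25729064940 (.st 25727996825 (.sp
  2775 2288 1624 1339 2177159976071 2177232267471 701603568950 85 89 439 330) (.sp 2963 2443 1265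
  1043 2177156291091 2177240885003 701603534687 85 89 439 330)) (.st 25730133055 (.sp 1453 1198 1869
  1541 2177169232516 2177258390359 701602786162 85 89 439 330) (.sp 849 700 302 249 2177175520595
  2177262502263 701603113990 85 89 294 221)))) (.st 25735473632 (.st 25733337401 (.sp 792 653 302
  249 2177140312751 2177322396862 701599642647 319 334 443 333) (.sp 1037 855 849 700 2177182178014
  2177325453867 701600713490 85 89 149 112)) (.st 25737609862 (.sp 245 202 547 451 2177184717665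
  2177353782443 701599753593 85 89 149 112) (.sp 1413 1165 792 653 2177202405896 2177379866926
  701598974059 85 89 149 112)))) (.st 25748291015 (.st 25744018554 (.st 25741882323 (.sp 678 559
  1527 1259 2177216578892 2177403456034 701598395058 85 89 149 112) (.sp 1111 916 245 202
  2177256845186 2177424259656 701598039882 85 89 451 339)) (.sp 809 667 245 202 2177202832113
  2177544034584 701591100260 234 245 153 115)) (.st 25752563476 (.sp 188 155 678 559 2177226647957
  2177575873281 701591175042 234 245 153 115) (.sp 695 573 621 512 2177234853849 2177591710585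
  701592535148 85 89 310 233)))
def T10 : Tr :=
  .st 25722656250 (.st 25654296875 (.st 25620117187 (.st 25603027343 (.sm 365 301 348 287
  2175437200027 2176723718916 701659937862 106 111 113 85) (.st 25611572265 (.sm 576 475 713 588
  2175848313238 2176550837068 701637582015 85 89 121 91) (.sm 690 569 673 555 2175868405161
  2176517958497 701641239091 85 89 121 91))) (.st 25637207031 (.st 25628662109 (.sm 268 221 365 301
  2175950335059 2176638556413 701639917429 85 89 246 185) (.sm 325 268 211 174 2176022609610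
  2176689076866 701639373036 85 89 125 94)) (.st 25645751953 (.sm 382 315 479 395 2176144375375
  2176784260092 701634845473 85 89 125 94) (.sm 496 409 268 221 2176229957842 2176909852437
  701633230461 85 89 125 94)))) (.st 25688476562 (.st 25671386718 (.st 25662841796 (.st 25658569335
  (.sm 553 456 382 315 2176417035650 2176744754993 701623550375 149 156 262 197) (.sm 667 550 439
  362 2176457711569 2176777607272 701622913673 234 245 262 197)) (.st 25667114257 (.sm 781 644 496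
  409 2176521267381 2176830274565 701620436489 85 89 262 197) (.sm 1066 879 610 503 2176553489909
  2176853748055 701620479901 85 89 133 100))) (.st 25679931640 (.st 25675659179 (.sm 1579 1302 724
  597 2176595229230 2176907323618 701619757801 85 89 133 100) (.sm 3232 2665 895 738 2176632106051
  2176959427371 701619426817 85 89 133 100)) (.st 25684204101 (.sm 4121 3398 1294 1067 2176611091261
  2176991061471 701623751894 85 89 133 100) (.sm 1784 1471 2092 1725 2176649478175 2177035308852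
  701623299208 85 89 270 203)))) T8)) (.st 25791015625 (.st 25756835937 T9 (.st 25773925781 (.st
  25765380859 (.st 25761108398 (.sp 507 418 1185 977 2177312709811 2177651653926 701590352287 85 89
  310 233) (.sp 319 263 1259 1038 2177342168086 2177644486749 701593559978 85 89 157 118)) (.sp 712
  587 188 155 2177268350626 2177945132821 701574780332 149 156 161 121)) (.st 25782470703 (.sp 131
  108 319 263 2177351009937 2177941618363 701580325748 149 156 165 124) (.sp 467 385 450 371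
  2177352269048 2178078596499 701574590758 85 89 165 124)))) (.st 25825195312 (.st 25808105468 (.st
  25799560546 (.sp 336 277 131 108 2177497759656 2178070820519 701580476951 85 89 165 124) (.sp 205
  169 598 493 2177525386791 2178123781959 701581486636 85 89 169 127)) (.st 25816650390 (.sp 484 399
  336 277 2177617202458 2178217405590 701579232246 85 89 169 127) (.sp 632 521 541 446 2177665607800
  2178375460864 701571807506 85 89 173 130))) (.st 25842285156 (.sp 723 596 205 169 2177551599766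
  2178723566024 701554600711 64 67 185 139) (.sp 757 624 279 230 2177497945840 2178945652890
  701547305563 64 67 189 142))))
def T11 : Tr :=
  .st 25859375000 (.st 25585937500 (.st 25449218750 (.st 25380859375 (.st 25346679687 (.sm 737 608
  223 184 2172245914454 2175337140318 701748003756 64 67 85 64) (.sm 337 278 383 316 2172621454561
  2175617828849 701738810113 64 67 85 64)) (.st 25415039062 (.sm 217 179 40 33 2172985472456
  2175631195022 701730552623 64 67 89 67) (.sm 177 146 457 377 2173565168100 2175796821489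
  701704881625 85 89 89 67))) (.st 25517578125 (.st 25483398437 (.sm 234 193 257 212 2173474934658
  2176137336096 701733312511 85 89 93 70) (.st 25500488281 (.sm 234 193 491 405 2174435788623
  2175806462396 701677302179 64 67 105 79) (.sm 331 273 451 372 2174726572747 2176088215132
  701664417587 64 67 105 79))) (.st 25551757812 (.st 25534667968 (.sm 97 80 371 306 2174753886212
  2176047164091 701672778345 64 67 105 79) (.sm 445 367 234 193 2174896277832 2176357982253
  701671859458 85 89 109 82)) (.st 25568847656 (.sm 251 207 525 433 2175114514662 2176482072309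
  701664827951 85 89 109 82) (.sm 154 127 97 80 2175217566856 2176675214429 701667079267 85 89 109
  82))))) T10) (.st 26132812500 (.st 25996093750 (.st 25927734375 (.st 25893554687 (.st 25876464843
  (.sp 387 319 427 352 2177725844309 2179177702403 701539214496 64 67 193 145) (.sp 239 197 74 61
  2177887705922 2179194330996 701548393498 85 89 201 151)) (.st 25910644531 (.sp 165 136 461 380
  2177995390527 2179244628913 701554870808 85 89 205 154) (.sp 256 211 313 258 2178127294217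
  2179518668208 701543415489 85 89 209 157))) (.st 25961914062 (.sp 91 75 239 197 2177973911026
  2180281189558 701503760621 64 67 253 190) (.sp 199 164 165 136 2178123063776 2180862953494
  701478204997 64 67 273 205))) (.st 26064453125 (.st 26030273437 (.sp 108 89 91 75 2178397378623
  2180845941416 701500557185 64 67 289 217) (.sp 233 192 290 239 2178769379074 2181244785667
  701489641209 64 67 313 235)) (.st 26098632812 (.sp 267 220 307 253 2178785444291 2181704029089
  701473906067 64 67 341 256) (.sp 142 117 233 192 2179349744763 2181637312160 701500198370 85 89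
  373 280)))) (.st 26269531250 (.st 26201171875 (.sp 193 159 233 192 2178697691716 2183545715325
  701390604681 43 45 4 3) (.sp 278 229 142 117 2179237950955 2184121781144 701386566723 43 45 4 3))
  (.st 26337890625 (.sp 448 369 176 145 2179962639518 2184850534280 701370372797 43 45 4 3) (.sp 17
  14 227 187 2179946832325 2185649063229 701348649461 43 45 415 311))))
def T12 : Tr :=
  .st 23125000000 (.st 20937500000 (.st 19843750000 (.st 19296875000 (.sm 6 5 67 56 2096813548560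
  2149510192130 703872287992 19 20 22 17) (.sm 173 144 103 86 2100511007228 2154365405342
  703918708206 19 20 22 17)) (.st 20390625000 (.sm 89 74 235 196 2104706165772 2158405407715
  703918459932 18 19 22 17) (.sm 65 54 227 189 2111671497032 2154452047250 703673318362 19 20 13
  10))) (.st 22031250000 (.st 21484375000 (.st 21210937500 (.sm 65 54 95 79 2128155775157
  2148045156502 702613643467 23 24 17 13) (.sm 53 44 77 64 2128188467009 2150440140700 702792020122
  22 23 17 13)) (.st 21757812500 (.sm 47 39 65 54 2130679433016 2152934981682 702758910642 22 23 17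
  13) (.sm 88 73 59 49 2135365705100 2157379378170 702538863566 21 22 38 29))) (.st 22578125000 (.st
  22304687500 (.sm 76 63 100 83 2134992103420 2158207978009 702749072366 21 22 21 16) (.sm 35 29 88
  73 2137693981685 2159764690319 702697491976 21 22 21 16)) (.st 22851562500 (.sm 64 53 41 34
  2139356442745 2163834153114 702733635877 21 22 21 16) (.sm 93 77 111 92 2144902801948
  2165514548580 702442891713 20 21 21 16))))) (.st 25312500000 T0 (.st 26406250000 T11 (.st
  26953125000 (.st 26679687500 (.st 26542968750 (.st 26474609375 (.sp 555 457 329 271 2180295090990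
  2186369149363 701333186249 21 22 339 254) (.sp 300 247 618 509 2180871197834 2187039507004
  701321686814 21 22 291 218)) (.st 26611328125 (.sp 215 177 17 14 2181627194533 2187539095071
  701323739359 21 22 255 191) (.sp 164 135 402 331 2182271600631 2187291221036 701385040395 21 22
  231 173))) (.st 26816406250 (.st 26748046875 (.sp 130 107 266 219 2182787426470 2188083069605
  701363868921 21 22 207 155) (.sp 113 93 198 163 2183674255162 2188856450816 701344188228 21 22 187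
  140)) (.sp 79 65 164 135 2182270723163 2191744827974 701200718508 21 22 99 74))) (.st 27226562500
  (.st 27089843750 (.sp 62 51 113 93 2183046608243 2193133540213 701174207391 21 22 91 68) (.sp 107
  88 96 79 2184587939663 2195535757768 701068141782 21 22 83 62)) (.st 27363281250 (.sp 45 37 141
  116 2185295635194 2196033016013 701111786227 21 22 75 56) (.sp 118 97 62 51 2186275544822
  2198095422261 701032739218 21 22 71 53))))))
def T13 : Tr :=
  .st 36250000000 (.st 31875000000 (.st 29687500000 (.st 28593750000 (.st 28046875000 (.st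
  27773437500 (.sp 129 106 62 51 2185157693071 2205639545552 700613396052 22 23 43 32) (.sp 123 101
  45 37 2184315508059 2207813163033 700609452634 21 22 39 29)) (.st 28320312500 (.sp 67 55 73 60
  2188135652763 2210756173162 700546151906 21 22 39 29) (.sp 39 32 28 23 2189898304625 2210926054485
  700696348233 21 22 35 26))) (.st 29140625000 (.sp 61 50 28 23 2184883373994 2225896775389
  699886838731 22 23 23 17) (.sp 94 77 39 32 2191741452384 2226938742888 700131947977 21 22 23 17)))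
  (.st 30781250000 (.st 30234375000 (.sp 11 9 50 41 2192060919203 2233926433438 699928604962 21 22
  19 14) (.sp 137 112 61 50 2196657454054 2243635898561 699526458841 20 21 19 14)) (.st 31328125000
  (.sp 71 58 105 86 2201827335939 2248752125098 699467920854 20 21 19 14) (.sp 49 40 11 9
  2207511086526 2250076513501 699687502918 19 20 19 14)))) (.st 34062500000 (.st 32968750000 (.sp 27
  22 11 9 2199168493504 2279515523076 698213318998 22 23 11 8) (.sp 43 35 60 49 2214172186170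
  2284815036768 698464908146 20 21 11 8)) (.st 35156250000 (.sp 16 13 38 31 2220190658606
  2299829886540 698038102827 19 20 11 8) (.sp 53 43 27 22 2229889392042 2313047271908 697747235816
  18 19 18 13)))) (.st 40625000000 (.st 38437500000 (.sp 26 21 27 22 2202840445055 2372125097176
  695123695274 23 24 7 5) (.sp 31 25 16 13 2236559024821 2391362799163 695124936976 19 20 7 5)) (.st
  42812500000 (.sp 41 33 37 30 2264866526055 2420536698149 694536664127 16 17 17 12) (.sp 61 49 21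
  17 2292217264478 2456431757978 693604301247 14 15 10 7)))
def TT : Tr :=
  .st 27500000000 (.st 18750000000 (.st 14375000000 (.st 12187500000 (.st 11093750000 (.st
  10546875000 (.sm 27 23 48 41 2031245628409 2088537102023 703126910299 23 24 21 17) (.sm 20 17 34
  29 2029728298554 2094933554072 703779305305 22 23 5 4)) (.st 11640625000 (.sm 53 45 27 23
  2039883190235 2102639087840 703270306011 22 23 5 4) (.sm 46 39 20 17 2045472970094 2098586195700
  703204673132 23 24 5 4))) (.st 13281250000 (.st 12734375000 (.sm 13 11 33 28 2044436424917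
  2098898894555 703771476595 23 24 5 4) (.sm 58 49 46 39 2047568721902 2111083663012 703924984535 22
  23 24 19)) (.st 13828125000 (.sm 32 27 13 11 2053565878168 2108079830514 703796687648 22 23 19 15)
  (.sm 70 59 58 49 2061609879329 2109646315992 703471447945 22 23 19 15)))) (.st 16562500000 (.st
  15468750000 (.st 14921875000 (.sm 82 69 32 27 2062385323572 2114367501576 703828487921 22 23 14
  11) (.sm 69 58 70 59 2069699383254 2121354038474 703565797637 21 22 14 11)) (.st 16015625000 (.sm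
  56 47 82 69 2071031623921 2120739300638 703857283594 21 22 14 11) (.sm 31 26 44 37 2081814342041
  2131887420835 703271261493 21 22 14 11))) (.st 17656250000 (.st 17109375000 (.sm 43 36 56 47
  2079605234225 2127261834211 703876701335 21 22 23 18) (.sm 55 46 31 26 2086032588920 2137438898488
  703686349432 20 21 9 7)) (.st 18203125000 (.sm 73 61 80 67 2093519633753 2138169578676
  703400454359 20 21 9 7) (.sm 121 101 49 41 2098548715408 2145046579521 703335880941 19 20 9 7)))))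
  T12) T13

theorem TT_ok : chk (18344304001 / 10000000000) (10 ^ 12) (10 ^ 12) TT (10 ^ 10) (45 * 10 ^ 9) =
    true := by decide +kernel

end Low

/-- numerical lower bound of the exact value -/
theorem muStar_gt : 1.8344304 < muStar := by
  obtain ⟨-, -, ⟨g, a, c, hadm, hPsi, hval⟩, -⟩ := exact_value
  rw [mu_eq] at hval
  rw [hval]
  by_cases h1 : exp (-2 * g) ≤ 0.01
  · exact lt_of_lt_of_le (by norm_num) (val_large hadm h1)
  by_cases h2 : 0.045 ≤ exp (-2 * g)
  · exact lt_of_lt_of_le (by norm_num) (val_small hadm h2)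
  push Not at h1 h2
  have h3 := Low.chk_sound (M := 10 ^ 12) (D := 10 ^ 12) (by positivity) (by positivity) hadm hPsi
    Low.TT (10 ^ 10) (45 * 10 ^ 9) Low.TT_ok (by positivity) (by norm_num)
    (by push_cast; norm_num at h1 ⊢; linarith) (by push_cast; norm_num at h2 ⊢; linarith)
  refine lt_of_lt_of_le ?_ h3
  push_cast
  norm_num

/-- seven decimals of the exact value -/
theorem mu_digits : 1.8344304 < sInf measures ∧ sInf measures < 1.8344305 := by
  rw [mu_eq]
  exact ⟨muStar_gt, muStar_lt_sharp⟩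


end Pool.Agent.MP28e671
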