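import Mathlib
import Pool.Agent.MP28e671.NumLow
import Pool.Agent.MP28e671.UniqE

set_option autoImplicit false

open Real Set

namespace Pool.Agent.MP28e671

theorem sign_mono {g a c g' a' c' : ℝ} (h : Adm g a c) (h' : Adm g' a' c')
    (hT : 9 / 10 ≤ tanh g) (hgg : g < g') (hP : Psi g a ≤ Psi g c) : Psi g' a' < Psi g' c' := by
  have hg := h.g_pos
  have hg' := h'.g_pos
  have hC := cosh_pos g
  have hC' := cosh_pos g'
  have h1 := (Psi_left h).2
  have h2 := Psi_right h
  have h1' := (Psi_left h').2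
  have h2' := Psi_right h'
  have hk : 0 < cosh g ^ 2 / (2 * g) := by positivity
  have hk' : 0 < cosh g' ^ 2 / (2 * g') := by positivity
  rw [h1, h2] at hP
  have hDC : Df (tanh g) (mass g * tanh g) (X 1 g a) ≤ Cf (tanh g) (mass g * tanh g) (-X 1 g c) :=
    le_of_mul_le_mul_left hP hk
  have hD := Df_pos h
  have hD' := Df_pos h'
  have hCf : 0 < Cf (tanh g) (mass g * tanh g) (-X 1 g c) := hD.trans_le hDC
  have hN : 0 < Nc (tanh g) (-X 1 g c) := by
    have h5 := hCf
    unfold Cf at h5
    have hXn : X 1 g c < 0 := (X_neg_iff one_pos hg (hg.trans h.2.2.1).le).2 h.2.2.1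
    have hmp : 0 < mass g * tanh g := mul_pos (mass_pos hg) (tanh_pos hg)
    have h6 : 0 < -X 1 g c * (1 + -X 1 g c) / (mass g * tanh g + -X 1 g c) := by
      have h7 : 0 < -X 1 g c := by linarith
      positivity
    exact (pos_iff_pos_of_mul_pos h5).2 h6
  have := ratio_lt h h' hT hgg hN
  rw [h1', h2']
  apply mul_lt_mul_of_pos_left _ hk'
  by_contra hcon
  push Not at hcon
  have a1 := mul_le_mul_of_nonneg_left hcon hD.le
  have a2 := mul_le_mul_of_nonneg_right hDC hD'.le
  linarith [mul_comm (Df (tanh g') (mass g' * tanh g') (X 1 g' a'))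
    (Cf (tanh g) (mass g * tanh g) (-X 1 g c))]

/-- the critical triple is located in a tiny interval -/
theorem crit_loc {g a c : ℝ} (H : Adm g a c) (hP : Psi g a = Psi g c) : gU < g ∧ g < gV :=
  loc_of (fun H' hP' => by
    by_contra hcon
    push Not at hcon
    exact no_crit_low H' hcon hP')
    (fun H1 H2 hT hlt hle => sign_mono H1 H2 hT hlt hle) H hP

theorem crit_loc_digits {g a c : ℝ} (H : Adm g a c) (hP : Psi g a = Psi g c) :
    1.83032 < g ∧ g < 1.83034 ∧ 1.8344304 < val g a c := by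
  obtain ⟨h1, h2⟩ := crit_loc H hP
  have h3 := gUV
  exact ⟨h3.1.trans h1, h2.trans h3.2, val_gt H h1 h2⟩

theorem crit_exists : ∃ g a c, Adm g a c ∧ Psi g a = Psi g c ∧ muStar = val g a c := by
  obtain ⟨g, a, c, hadm, hval⟩ := is_attained
  refine ⟨g, a, c, hadm, ?_, hval⟩
  refine stationary hadm fun g' a' c' h' => ?_
  rw [← hval]
  exact csInf_le vals_bdd ⟨g', a', c', h', rfl⟩

/-- light proof of the lower digits -/
theorem muStar_gt_light : 1.8344304 < muStar := by
  obtain ⟨g, a, c, H, hP, hv⟩ := crit_exists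
  rw [hv]
  exact (crit_loc_digits H hP).2.2

end Pool.Agent.MP28e671
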