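import Pool.Agent.MP28e671.Basic

set_option autoImplicit false

open Set MeasureTheory
open scoped ENNReal

namespace Pool.Agent.MP28e671

variable {n : ℕ}

/-- the component of a point of `E` -/
theorem exists_component {a : Fin n → ℝ} (ha : ∀ i, a i ∈ Icc (0:ℝ) 2) {x0 : ℝ}
    (hx0 : P a x0 < 1) :
    ∃ c d : ℝ, c < x0 ∧ x0 < d ∧ 1 ≤ P a c ∧ 1 ≤ P a d ∧ ∀ x ∈ Ioo c d, P a x < 1 := by
  set T : Set ℝ := {y | 1 ≤ P a y} with hT
  have hTc : IsClosed T := isClosed_le continuous_const (P_continuous a)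
  have hx0l : -1 < x0 := by
    by_contra h
    exact absurd hx0 (not_lt.2 (P_large ha (Or.inl (not_lt.1 h))))
  have hx0r : x0 < 3 := by
    by_contra h
    exact absurd hx0 (not_lt.2 (P_large ha (Or.inr (not_lt.1 h))))
  have hne1 : (T ∩ Iic x0).Nonempty := ⟨-1, P_large ha (Or.inl le_rfl), hx0l.le⟩
  have hne2 : (T ∩ Ici x0).Nonempty := ⟨3, P_large ha (Or.inr le_rfl), hx0r.le⟩
  have hb1 : BddAbove (T ∩ Iic x0) := ⟨x0, fun y hy => hy.2⟩
  have hb2 : BddBelow (T ∩ Ici x0) := ⟨x0, fun y hy => hy.2⟩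
  have hc := (hTc.inter isClosed_Iic).csSup_mem hne1 hb1
  have hd := (hTc.inter isClosed_Ici).csInf_mem hne2 hb2
  set c := sSup (T ∩ Iic x0)
  set d := sInf (T ∩ Ici x0)
  have hcx : c < x0 := lt_of_le_of_ne hc.2 (by
    intro h
    have : 1 ≤ P a c := hc.1
    rw [h] at this
    linarith)
  have hxd : x0 < d := lt_of_le_of_ne hd.2 (by
    intro h
    have : 1 ≤ P a d := hd.1
    rw [← h] at this
    linarith)
  refine ⟨c, d, hcx, hxd, hc.1, hd.1, ?_⟩
  intro x hx
  by_contra hcon
  have hcon' : x ∈ T := not_lt.1 hcon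
  rcases le_total x x0 with h | h
  · exact absurd (le_csSup hb1 ⟨hcon', h⟩) (not_le.2 hx.1)
  · exact absurd (csInf_le hb2 ⟨hcon', h⟩) (not_le.2 hx.2)

/-- a component contains a root -/
theorem exists_root_mem {a : Fin n → ℝ} {c d x : ℝ} (hc : 1 ≤ P a c) (hd : 1 ≤ P a d)
    (hx : x ∈ Ioo c d) (hP : P a x < 1) : ∃ i, a i ∈ Ioo c d := by
  by_contra hcon
  simp only [not_exists] at hcon
  refine absurd hP (not_lt.2 ?_)
  obtain ⟨hx1, hx2⟩ := hx
  have hdc : 0 < d - c := by linarith
  set l : ℝ := (d - x) / (d - c) with hl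
  have hl0 : 0 ≤ l := div_nonneg (by linarith) hdc.le
  have hl1 : 0 ≤ 1 - l := by
    rw [hl, sub_nonneg, div_le_one hdc]; linarith
  have hxe : x = l * c + (1 - l) * d := by
    rw [hl]; field_simp; ring
  have key : ∀ i, |c - a i| ^ l * |d - a i| ^ (1 - l) ≤ |x - a i| := by
    intro i
    have h1 := Real.geom_mean_le_arith_mean2_weighted hl0 hl1 (abs_nonneg (c - a i))
      (abs_nonneg (d - a i)) (by ring)
    refine h1.trans (le_of_eq ?_)
    have h2 := hcon i
    rw [mem_Ioo, not_and_or, not_lt, not_lt] at h2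
    rcases h2 with h2 | h2
    · rw [abs_of_nonneg (by linarith), abs_of_nonneg (by linarith), abs_of_nonneg (by linarith)]
      rw [hxe]; ring
    · rw [abs_of_nonpos (by linarith), abs_of_nonpos (by linarith), abs_of_nonpos (by linarith)]
      rw [hxe]; ring
  have h3 : P a c ^ l * P a d ^ (1 - l) ≤ P a x := by
    unfold P
    rw [← Real.finsetProd_rpow _ _ (fun i _ => abs_nonneg _),
      ← Real.finsetProd_rpow _ _ (fun i _ => abs_nonneg _), ← Finset.prod_mul_distrib]
    exact Finset.prod_le_prod (fun i _ => mul_nonneg (Real.rpow_nonneg (abs_nonneg _) _)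
      (Real.rpow_nonneg (abs_nonneg _) _)) fun i _ => key i
  have h4 : 1 ≤ P a c ^ l := Real.one_le_rpow hc hl0
  have h5 : 1 ≤ P a d ^ (1 - l) := Real.one_le_rpow hd hl1
  nlinarith

/-- the ratio lemma -/
theorem ratio_lemma {a : Fin n → ℝ} {c d r : ℝ} (hc : 1 ≤ P a c) (hd : 1 ≤ P a d)
    (hr : ∀ i, a i ∈ Ioo c d → a i = r) (hex : ∃ i, a i ∈ Ioo c d)
    (hm : P a ((c + d) / 2) < 1) : (c + d - 2 * r) ^ 2 < 4 * ((r - c) * (d - r)) := by
  classical
  set S : Finset (Fin n) := Finset.univ.filter fun i => a i ∈ Ioo c d with hS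
  obtain ⟨i0, hi0⟩ := hex
  have hr0 : r ∈ Ioo c d := by rw [← hr i0 hi0]; exact hi0
  have hcard : 0 < S.card := Finset.card_pos.2 ⟨i0, Finset.mem_filter.2 ⟨Finset.mem_univ _, hi0⟩⟩
  set m : ℝ := (c + d) / 2 with hmd
  have hsplit : ∀ (f : Fin n → ℝ), ∏ i, f i = (∏ i ∈ S, f i) * ∏ i ∈ Sᶜ, f i :=
    fun f => (Finset.prod_mul_prod_compl S f).symm
  have hSr : ∀ y, ∏ i ∈ S, |y - a i| = |y - r| ^ S.card := by
    intro y
    rw [Finset.prod_congr rfl (g := fun _ => |y - r|), Finset.prod_const]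
    intro i hi
    rw [hr i (Finset.mem_filter.1 hi).2]
  have hpq : |c - r| * |d - r| = (r - c) * (d - r) := by
    rw [abs_of_nonpos (by linarith [hr0.1]), abs_of_nonneg (by linarith [hr0.2])]; ring
  have hpq0 : 0 < (r - c) * (d - r) := mul_pos (by linarith [hr0.1]) (by linarith [hr0.2])
  -- outside roots
  have hout : (∏ i ∈ Sᶜ, |c - a i|) * (∏ i ∈ Sᶜ, |d - a i|) ≤ (∏ i ∈ Sᶜ, |m - a i|) ^ 2 := by
    rw [← Finset.prod_mul_distrib, ← Finset.prod_pow]
    refine Finset.prod_le_prod (fun i _ => mul_nonneg (abs_nonneg _) (abs_nonneg _)) ?_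
    intro i hi
    have h2 : a i ∉ Ioo c d := fun h =>
      (Finset.mem_compl.1 hi) (Finset.mem_filter.2 ⟨Finset.mem_univ _, h⟩)
    rw [sq_abs]
    have hcd : c < d := hr0.1.trans hr0.2
    rw [mem_Ioo, not_and_or, not_lt, not_lt] at h2
    rcases h2 with h2 | h2
    · rw [abs_of_nonneg (by linarith), abs_of_nonneg (by linarith)]
      rw [hmd]; nlinarith [sq_nonneg (d - c)]
    · rw [abs_of_nonpos (by linarith), abs_of_nonpos (by linarith)]
      rw [hmd]; nlinarith [sq_nonneg (d - c)]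
  have h1 : 1 ≤ P a c * P a d := one_le_mul_of_one_le_of_one_le hc hd
  have h2 : P a c * P a d = ((r - c) * (d - r)) ^ S.card *
      ((∏ i ∈ Sᶜ, |c - a i|) * (∏ i ∈ Sᶜ, |d - a i|)) := by
    unfold P
    rw [hsplit, hsplit (fun i => |d - a i|), hSr, hSr, ← hpq, mul_pow]
    ring
  have h3 : P a m ^ 2 = ((m - r) ^ 2) ^ S.card * (∏ i ∈ Sᶜ, |m - a i|) ^ 2 := by
    unfold P
    rw [hsplit, hSr, mul_pow, ← sq_abs (m - r)]
    ring
  have h4 : P a m ^ 2 < 1 := by
    have := P_nonneg a m
    nlinarith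
  have h5 : ((m - r) ^ 2) ^ S.card < ((r - c) * (d - r)) ^ S.card := by
    have hA : 0 ≤ ((m - r) ^ 2) ^ S.card := by positivity
    have hB : 0 < ((r - c) * (d - r)) ^ S.card := by positivity
    set A := ((m - r) ^ 2) ^ S.card
    set B := ((r - c) * (d - r)) ^ S.card
    set X := (∏ i ∈ Sᶜ, |c - a i|) * (∏ i ∈ Sᶜ, |d - a i|)
    set Y := (∏ i ∈ Sᶜ, |m - a i|) ^ 2
    have hBX : 1 ≤ B * X := by rw [← h2]; exact h1
    have hAY : A * Y < 1 := by rw [← h3]; exact h4
    have h6 : A * X ≤ A * Y := mul_le_mul_of_nonneg_left hout hA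
    have h7 : A * (B * X) < B := by nlinarith
    nlinarith
  have h6 : (m - r) ^ 2 < (r - c) * (d - r) :=
    lt_of_pow_lt_pow_left₀ _ hpq0.le h5
  rw [hmd] at h6
  nlinarith

/-- the numerical inequality -/
theorem numeric {w s : ℝ} (hw : 0.1715 ≤ w) (hs : 0 ≤ s) (hws : w + s < 1) :
    Real.log 2 * Real.log (1 + s) < (-Real.log w) * (-Real.log (1 - (w + s) ^ 2)) := by
  have hw0 : 0 < w := by linarith
  have hl2 := Real.log_two_lt_d9
  have hl2' := Real.log_two_gt_d9
  have hls : Real.log (1 + s) ≤ s := by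
    have := Real.log_le_sub_one_of_pos (show 0 < 1 + s by linarith)
    linarith
  have hls0 : 0 ≤ Real.log (1 + s) := Real.log_nonneg (by linarith)
  have hlw0 : 1 - w ≤ -Real.log w := by
    have := Real.log_le_sub_one_of_pos hw0
    linarith
  have hv : 0 < 1 - (w + s) ^ 2 := by nlinarith
  rcases le_or_gt w 0.8 with h | h
  · have h1 : (w + s) ^ 2 ≤ -Real.log (1 - (w + s) ^ 2) := by
      have := Real.log_le_sub_one_of_pos hv
      linarith
    have h2 : 2 * (1 - w) / (1 + w) ≤ -Real.log w := by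
      have h3 := Real.le_log_one_add_of_nonneg (show 0 ≤ (1 - w) / w from
        div_nonneg (by linarith) hw0.le)
      have h4 : 1 + (1 - w) / w = w⁻¹ := by field_simp; ring
      rw [h4, Real.log_inv] at h3
      refine le_trans (le_of_eq ?_) h3
      have h5 : (1 - w) / w + 2 = (1 + w) / w := by field_simp; ring
      rw [h5]
      field_simp
    have h3 : 0.1733 < w * (2 * (1 - w) / (1 + w)) := by
      rw [mul_div_assoc', lt_div_iff₀ (by linarith)]
      nlinarith
    have h4 : 0.1733 < w * (-Real.log w) :=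
      lt_of_lt_of_le h3 (mul_le_mul_of_nonneg_left h2 hw0.le)
    have h5 : (-Real.log w) * (w + s) ^ 2 ≤ (-Real.log w) * (-Real.log (1 - (w + s) ^ 2)) :=
      mul_le_mul_of_nonneg_left h1 (by linarith)
    refine lt_of_lt_of_le ?_ h5
    rcases hs.eq_or_lt with h0 | h0
    · rw [← h0]
      simp only [add_zero, Real.log_one, mul_zero]
      exact mul_pos (by linarith) (by positivity)
    · have h6 : 4 * (w * s) ≤ (w + s) ^ 2 := by nlinarith [sq_nonneg (w - s)]
      have h7 : (-Real.log w) * (4 * (w * s)) ≤ (-Real.log w) * (w + s) ^ 2 :=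
        mul_le_mul_of_nonneg_left h6 (by linarith)
      refine lt_of_lt_of_le ?_ h7
      have h8 : Real.log 2 * Real.log (1 + s) ≤ 0.6932 * s := by nlinarith
      nlinarith
  · have h1 : Real.log 2 < -Real.log (1 - (w + s) ^ 2) := by
      have h2 : 1 - (w + s) ^ 2 < 2⁻¹ := by nlinarith
      have := Real.log_lt_log hv h2
      rw [Real.log_inv] at this
      linarith
    have h2 : Real.log (1 + s) < -Real.log w := by linarith
    have h3 : 0 < Real.log 2 := by linarith
    nlinarith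

set_option maxHeartbeats 4000000 in
/-- the component of `1` does not contain an interior root (asymmetric form) -/
theorem not_interior {a : Fin n → ℝ} (ha : ∀ i, a i ∈ Icc (0:ℝ) 2) {c d r : ℝ}
    (h1 : (1:ℝ) ∈ Ioo c d) (hc : 1 ≤ P a c) (hd : 1 ≤ P a d) (hcd : ∀ x ∈ Ioo c d, P a x < 1)
    (hr : ∀ i, a i ∈ Ioo c d → a i = r)
    (hL : ∃ i, a i ≤ c) (hR : ∃ i, d ≤ a i)
    (hLR : (Finset.univ.filter fun i => a i ≤ c).card ≤ (Finset.univ.filter fun i => d ≤ a i).card) :
    False := by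
  classical
  set S : Finset (Fin n) := Finset.univ.filter fun i => a i ∈ Ioo c d with hS
  set L : Finset (Fin n) := Finset.univ.filter fun i => a i ≤ c with hLd
  set R : Finset (Fin n) := Finset.univ.filter fun i => d ≤ a i with hRd
  obtain ⟨h1c, h1d⟩ := h1
  have hex : ∃ i, a i ∈ Ioo c d := exists_root_mem hc hd ⟨h1c, h1d⟩ (hcd 1 ⟨h1c, h1d⟩)
  have hrat := ratio_lemma hc hd hr hex (hcd _ ⟨by linarith, by linarith⟩)
  obtain ⟨i0, hi0⟩ := hex
  have hr0 : r ∈ Ioo c d := by rw [← hr i0 hi0]; exact hi0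
  obtain ⟨iL, hiL⟩ := hL
  obtain ⟨iR, hiR⟩ := hR
  have hc0 : 0 < c := by
    have h2 := (ha iL).1
    rcases lt_or_eq_of_le hiL with h3 | h3
    · linarith
    · exact absurd h3 (ne_of_one_le hc iL)
  have hd2 : d < 2 := by
    have h2 := (ha iR).2
    rcases lt_or_eq_of_le hiR with h3 | h3
    · linarith
    · exact absurd h3.symm (ne_of_one_le hd iR)
  have hsplit : ∀ (f : Fin n → ℝ), ∑ i, f i = ∑ i ∈ S, f i + ∑ i ∈ L, f i + ∑ i ∈ R, f i := by
    intro f
    have hdis1 : Disjoint S L := by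
      rw [Finset.disjoint_left]
      intro i hi1 hi2
      simp only [hS, hLd, Finset.mem_filter, mem_Ioo] at hi1 hi2
      linarith [hi1.2.1, hi2.2]
    have hdis2 : Disjoint (S ∪ L) R := by
      rw [Finset.disjoint_left]
      intro i hi1 hi2
      simp only [hS, hLd, hRd, Finset.mem_filter, mem_Ioo, Finset.mem_union] at hi1 hi2
      rcases hi1 with hi1 | hi1
      · linarith [hi1.2.2, hi2.2]
      · linarith [hi1.2, hi2.2]
    rw [← Finset.sum_union hdis1, ← Finset.sum_union hdis2]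
    refine Finset.sum_congr ?_ fun _ _ => rfl
    ext i
    simp only [hS, hLd, hRd, Finset.mem_filter, mem_Ioo, Finset.mem_union, Finset.mem_univ,
      true_and, true_iff]
    rcases le_or_gt (a i) c with h2 | h2
    · exact Or.inl (Or.inr h2)
    · rcases lt_or_ge (a i) d with h3 | h3
      · exact Or.inl (Or.inl ⟨h2, h3⟩)
      · exact Or.inr h3
  have hlogP : ∀ y, 1 ≤ P a y → 0 ≤ ∑ i, Real.log |y - a i| := by
    intro y hy
    rw [← Real.log_prod (fun i _ => abs_ne_zero.2 (sub_ne_zero.2 (ne_of_one_le hy i).symm))]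
    exact Real.log_nonneg hy
  have hm1 : (1:ℝ) ≤ S.card := by
    exact_mod_cast Finset.card_pos.2 ⟨i0, Finset.mem_filter.2 ⟨Finset.mem_univ _, hi0⟩⟩
  have hr1 : (1:ℝ) ≤ R.card := by
    exact_mod_cast Finset.card_pos.2 ⟨iR, Finset.mem_filter.2 ⟨Finset.mem_univ _, hiR⟩⟩
  have hlr : (L.card : ℝ) ≤ R.card := by exact_mod_cast hLR
  have hl0 : (0:ℝ) ≤ L.card := by positivity
  -- inequality at d
  have hD : 0 ≤ S.card * Real.log (d - r) + L.card * Real.log d + R.card * Real.log (2 - d) := by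
    refine (hlogP d hd).trans ?_
    rw [hsplit]
    refine add_le_add (add_le_add ?_ ?_) ?_
    · rw [← nsmul_eq_mul]
      refine Finset.sum_le_card_nsmul _ _ _ fun i hi => ?_
      rw [hr i (Finset.mem_filter.1 hi).2, abs_of_nonneg (by linarith [hr0.2])]
    · rw [← nsmul_eq_mul]
      refine Finset.sum_le_card_nsmul _ _ _ fun i hi => ?_
      have h2 := (Finset.mem_filter.1 hi).2
      have h3 := (ha i).1
      rw [abs_of_nonneg (by linarith)]
      exact Real.log_le_log (by linarith) (by linarith)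
    · rw [← nsmul_eq_mul]
      refine Finset.sum_le_card_nsmul _ _ _ fun i hi => ?_
      have h2 := (Finset.mem_filter.1 hi).2
      have h3 := (ha i).2
      have h4 : d < a i := lt_of_le_of_ne h2 (ne_of_one_le hd i).symm
      rw [abs_of_nonpos (by linarith)]
      exact Real.log_le_log (by linarith) (by linarith)
  -- inequality at c
  have hC : 0 ≤ S.card * Real.log (r - c) + L.card * Real.log c + R.card * Real.log (2 - c) := by
    refine (hlogP c hc).trans ?_
    rw [hsplit]
    refine add_le_add (add_le_add ?_ ?_) ?_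
    · rw [← nsmul_eq_mul]
      refine Finset.sum_le_card_nsmul _ _ _ fun i hi => ?_
      rw [hr i (Finset.mem_filter.1 hi).2, abs_of_nonpos (by linarith [hr0.1])]
      exact le_of_eq (by congr 1; ring)
    · rw [← nsmul_eq_mul]
      refine Finset.sum_le_card_nsmul _ _ _ fun i hi => ?_
      have h2 := (Finset.mem_filter.1 hi).2
      have h3 := (ha i).1
      have h4 : a i < c := lt_of_le_of_ne h2 (ne_of_one_le hc i)
      rw [abs_of_nonneg (by linarith)]
      exact Real.log_le_log (by linarith) (by linarith)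
    · rw [← nsmul_eq_mul]
      refine Finset.sum_le_card_nsmul _ _ _ fun i hi => ?_
      have h2 := (Finset.mem_filter.1 hi).2
      have h3 := (ha i).2
      rw [abs_of_nonpos (by linarith)]
      exact Real.log_le_log (by linarith) (by linarith)
  have hr00 : 0 < r := by linarith [hr0.1]
  have hld : 0 ≤ Real.log d := Real.log_nonneg h1d.le
  have hlc : Real.log c ≤ 0 := Real.log_nonpos hc0.le h1c.le
  -- the product d (2-d)
  have hdd : Real.log d + Real.log (2 - d) = Real.log (1 - (d - 1) ^ 2) := by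
    rw [← Real.log_mul (by linarith) (by linarith)]
    congr 1; ring
  have hdd0 : Real.log (1 - (d - 1) ^ 2) ≤ 0 :=
    Real.log_nonpos (by nlinarith) (by nlinarith [sq_nonneg (d - 1)])
  have hD2 : R.card * (-Real.log (1 - (d - 1) ^ 2)) ≤ S.card * Real.log (d - r) := by
    rw [← hdd]
    nlinarith
  have hdr1 : 1 ≤ d - r := by
    by_contra hcon
    have h2 : Real.log (d - r) < 0 := Real.log_neg (by linarith [hr0.2]) (not_le.1 hcon)
    nlinarith
  have hw : 0.1715 ≤ r := by
    by_contra hcon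
    push Not at hcon
    have h2 : r - c < 0.1715 := by linarith
    have h3 : 0 < r - c := by linarith [hr0.1]
    have h4 : (c + d - 2 * r) = (d - r) - (r - c) := by ring
    rw [h4] at hrat
    set p := r - c
    set q := d - r
    nlinarith
  have hC2 : S.card * (-Real.log r) ≤ R.card * Real.log 2 := by
    have h2 : Real.log (r - c) ≤ Real.log r := Real.log_le_log (by linarith [hr0.1]) (by linarith)
    have h3 : Real.log (2 - c) ≤ Real.log 2 := Real.log_le_log (by linarith) (by linarith)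
    have h4 : (L.card : ℝ) * Real.log c ≤ 0 := mul_nonpos_of_nonneg_of_nonpos hl0 hlc
    nlinarith
  have hnum := numeric hw (s := d - r - 1) (by linarith) (by linarith)
  rw [show r + (d - r - 1) = d - 1 by ring, show 1 + (d - r - 1) = d - r by ring] at hnum
  have hlr0 : 0 ≤ -Real.log r := by
    have := Real.log_nonpos hr00.le (by linarith)
    linarith
  have hldr : 0 ≤ Real.log (d - r) := Real.log_nonneg hdr1
  have hmul : (S.card * (-Real.log r)) * (R.card * (-Real.log (1 - (d - 1) ^ 2))) ≤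
      (R.card * Real.log 2) * (S.card * Real.log (d - r)) :=
    mul_le_mul hC2 hD2 (by nlinarith) (by have := Real.log_two_gt_d9; positivity)
  have hSR : (0:ℝ) < S.card * R.card := by positivity
  have := mul_lt_mul_of_pos_left hnum hSR
  nlinarith

end Pool.Agent.MP28e671
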