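import Pool.Agent.MP28e671.CaseReduction
import Pool.Agent.MP28e671.Block

set_option autoImplicit false

open Set MeasureTheory
open scoped ENNReal

namespace Pool.Agent.MP28e671

variable {n : ℕ}

/-- the data attached to the components to the right of `d` -/
structure Comp (a : Fin n → ℝ) (d : ℝ) (A : Finset ℝ) (p q : ℝ → ℝ) : Prop where
  hA : ∀ t, t ∈ A ↔ (d < t ∧ ∃ i, a i = t)
  hp : ∀ t ∈ A, p t < t
  hq : ∀ t ∈ A, t < q t
  hPp : ∀ t ∈ A, 1 ≤ P a (p t)
  hPq : ∀ t ∈ A, 1 ≤ P a (q t)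
  hPm : ∀ t ∈ A, ∀ x ∈ Ioo (p t) (q t), P a x < 1
  hd : ∀ t ∈ A, d ≤ p t
  hlt : ∀ t ∈ A, ∀ t' ∈ A, t < t' → q t ≤ p t'

theorem exists_comp {a : Fin n → ℝ} (ha : ∀ i, a i ∈ Icc (0:ℝ) 2) {d : ℝ} (hPd : 1 ≤ P a d)
    (hg : Gap a) : ∃ (A : Finset ℝ) (p q : ℝ → ℝ), Comp a d A p q := by
  classical
  set A : Finset ℝ := (Finset.univ.image a).filter fun t => d < t with hA
  have hA' : ∀ t, t ∈ A ↔ (d < t ∧ ∃ i, a i = t) := by
    intro t
    rw [hA, Finset.mem_filter, Finset.mem_image]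
    constructor
    · rintro ⟨⟨i, -, hi⟩, h⟩; exact ⟨h, i, hi⟩
    · rintro ⟨h, i, hi⟩; exact ⟨⟨i, Finset.mem_univ _, hi⟩, h⟩
  have key : ∀ t : ℝ, ∃ p q : ℝ, t ∈ A → (p < t ∧ t < q ∧ 1 ≤ P a p ∧ 1 ≤ P a q ∧
      ∀ x ∈ Ioo p q, P a x < 1) := by
    intro t
    by_cases ht : t ∈ A
    · obtain ⟨-, i, hi⟩ := (hA' t).1 ht
      obtain ⟨p, q, h1, h2, h3, h4, h5⟩ := exists_component ha (x0 := t) (by
        rw [← hi, P_root]; exact zero_lt_one)
      exact ⟨p, q, fun _ => ⟨h1, h2, h3, h4, h5⟩⟩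
    · exact ⟨0, 0, fun h => absurd h ht⟩
  choose p q hpq using key
  refine ⟨A, p, q, hA', fun t ht => (hpq t ht).1, fun t ht => (hpq t ht).2.1,
    fun t ht => (hpq t ht).2.2.1, fun t ht => (hpq t ht).2.2.2.1,
    fun t ht => (hpq t ht).2.2.2.2, ?_, ?_⟩
  · intro t ht
    by_contra hcon
    have h1 := (hpq t ht).2.2.2.2 d ⟨not_le.1 hcon, ((hA' t).1 ht).1.trans (hpq t ht).2.1⟩
    linarith
  · intro t ht t' ht' htt
    obtain ⟨-, i, hi⟩ := (hA' t).1 ht
    obtain ⟨-, j, hj⟩ := (hA' t').1 ht'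
    obtain ⟨x, hx, hPx⟩ := hg i j (by rw [hi, hj]; exact htt)
    rw [hi, hj] at hx
    have h1 : q t ≤ x := by
      by_contra hcon
      have := (hpq t ht).2.2.2.2 x ⟨(hpq t ht).1.trans hx.1, not_le.1 hcon⟩
      linarith
    have h2 : x ≤ p t' := by
      by_contra hcon
      have := (hpq t' ht').2.2.2.2 x ⟨not_le.1 hcon, hx.2.trans (hpq t' ht').2.1⟩
      linarith
    exact h1.trans h2

section
variable {a : Fin n → ℝ} {d : ℝ} {A : Finset ℝ} {p q : ℝ → ℝ}

/-- total length of the components left of `t` -/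
noncomputable def sh (A : Finset ℝ) (p q : ℝ → ℝ) (t : ℝ) : ℝ :=
  ∑ t' ∈ A.filter (fun t' => t' < t), (q t' - p t')

/-- weight of a root -/
noncomputable def wgt (a : Fin n → ℝ) (t : ℝ) : ℝ :=
  ((Finset.univ.filter fun i => a i = t).card : ℝ) / n

theorem wgt_nonneg (a : Fin n → ℝ) (t : ℝ) : 0 ≤ wgt a t := by unfold wgt; positivity

theorem Comp.len_pos (C : Comp a d A p q) {t : ℝ} (ht : t ∈ A) : 0 < q t - p t := by
  linarith [C.hp t ht, C.hq t ht]

theorem Comp.sh_nonneg (C : Comp a d A p q) (t : ℝ) : 0 ≤ sh A p q t :=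
  Finset.sum_nonneg fun _ ht => (C.len_pos (Finset.mem_filter.1 ht).1).le

theorem Comp.sh_mono (C : Comp a d A p q) {t t' : ℝ} (h : t ≤ t') :
    sh A p q t ≤ sh A p q t' := by
  refine Finset.sum_le_sum_of_subset_of_nonneg ?_ ?_
  · intro x hx
    rw [Finset.mem_filter] at hx ⊢
    exact ⟨hx.1, hx.2.trans_le h⟩
  · intro x hx _
    exact (C.len_pos (Finset.mem_filter.1 hx).1).le

theorem Comp.sh_step (C : Comp a d A p q) {t t' : ℝ} (ht : t ∈ A) (h : t < t') :
    sh A p q t + (q t - p t) ≤ sh A p q t' := by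
  classical
  unfold sh
  have h1 : t ∉ A.filter (fun x => x < t) := by simp
  rw [add_comm, ← Finset.sum_insert (f := fun z => q z - p z) h1]
  refine Finset.sum_le_sum_of_subset_of_nonneg ?_ ?_
  · intro x hx
    rw [Finset.mem_insert, Finset.mem_filter] at hx
    rw [Finset.mem_filter]
    rcases hx with hx | hx
    · rw [hx]; exact ⟨ht, h⟩
    · exact ⟨hx.1, hx.2.trans h⟩
  · intro x hx _
    exact (C.len_pos (Finset.mem_filter.1 hx).1).le

theorem Comp.sh_next (C : Comp a d A p q) {t t' : ℝ} (ht : t ∈ A) (h : t < t')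
    (hnext : ∀ x ∈ A, t < x → t' ≤ x) : sh A p q t' = sh A p q t + (q t - p t) := by
  classical
  refine le_antisymm ?_ (C.sh_step ht h)
  unfold sh
  have h1 : t ∉ A.filter (fun x => x < t) := by simp
  rw [add_comm, ← Finset.sum_insert (f := fun z => q z - p z) h1]
  refine Finset.sum_le_sum_of_subset_of_nonneg ?_ ?_
  · intro x hx
    rw [Finset.mem_filter] at hx
    rw [Finset.mem_insert, Finset.mem_filter]
    rcases lt_trichotomy x t with h2 | h2 | h2
    · exact Or.inr ⟨hx.1, h2⟩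
    · exact Or.inl h2
    · exact absurd hx.2 (not_lt.2 (hnext x hx.1 h2))
  · intro x hx _
    rw [Finset.mem_insert] at hx
    rcases hx with hx | hx
    · rw [hx]; exact (C.len_pos ht).le
    · exact (C.len_pos (Finset.mem_filter.1 hx).1).le

/-- relative position of the root in its component -/
noncomputable def th (p q : ℝ → ℝ) (t : ℝ) : ℝ := (t - p t) / (q t - p t)

theorem Comp.th_pos (C : Comp a d A p q) {t : ℝ} (ht : t ∈ A) : 0 < th p q t :=
  div_pos (by linarith [C.hp t ht]) (C.len_pos ht)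

theorem Comp.th_lt (C : Comp a d A p q) {t : ℝ} (ht : t ∈ A) : th p q t < 1 := by
  unfold th
  rw [div_lt_one (C.len_pos ht)]
  linarith [C.hq t ht]

theorem Comp.th_mul (C : Comp a d A p q) {t : ℝ} (ht : t ∈ A) :
    th p q t * (q t - p t) = t - p t := div_mul_cancel₀ _ (C.len_pos ht).ne'

/-- potential of the block of the root `t` -/
noncomputable def blk (A : Finset ℝ) (p q : ℝ → ℝ) (t x : ℝ) : ℝ :=
  Lam (p t + sh A p q t) (q t - p t) (th p q t) x

theorem Comp.blk_left (C : Comp a d A p q) {t x : ℝ} (ht : t ∈ A)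
    (hx : x ≤ p t + sh A p q t) : Real.log (t + sh A p q t - x) ≤ blk A p q t x := by
  have h := Lam_left (C.len_pos ht) (C.th_pos ht) (C.th_lt ht) hx
  rw [C.th_mul ht] at h
  refine le_trans (le_of_eq ?_) h
  congr 1; ring

theorem Comp.blk_right (C : Comp a d A p q) {t x : ℝ} (ht : t ∈ A)
    (hx : q t + sh A p q t + (q t - p t) ≤ x) :
    Real.log (x - sh A p q t - (q t - p t) - t) ≤ blk A p q t x := by
  have h := Lam_right (C.len_pos ht) (C.th_pos ht) (C.th_lt ht) (P := p t + sh A p q t) (x := x)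
    (by linarith)
  rw [C.th_mul ht] at h
  refine le_trans (le_of_eq ?_) h
  congr 1; ring

theorem Comp.blk_mid (C : Comp a d A p q) {t x : ℝ} (ht : t ∈ A)
    (hx1 : p t + sh A p q t ≤ x) (hx2 : x ≤ q t + sh A p q t + (q t - p t)) :
    ∃ τ : ℝ, 0 ≤ τ ∧ τ ≤ 1 ∧ x - sh A p q t - (q t - p t) ≤ p t + τ * (q t - p t) ∧
      p t + τ * (q t - p t) ≤ x - sh A p q t ∧
      (1 - τ) * Real.log (t - p t) + τ * Real.log (q t - t) ≤ blk A p q t x := by
  obtain ⟨τ, t1, t2, t3, t4, t5⟩ := Lam_mid (C.len_pos ht) (C.th_pos ht) (C.th_lt ht)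
    (P := p t + sh A p q t) (x := x) hx1 (by linarith)
  refine ⟨τ, t1, t2, by linarith, by linarith, ?_⟩
  rw [C.th_mul ht, show (1 - th p q t) * (q t - p t) = q t - t by
    rw [sub_mul, C.th_mul ht]; ring] at t5
  exact t5

/-- the sum over the roots -/
theorem Comp.sum_eq (C : Comp a d A p q) (h0 : ∀ i, a i = 0 ∨ d < a i) (hd : 0 ≤ d)
    (f : ℝ → ℝ) : (∑ i, f (a i)) / n = wgt a 0 * f 0 + ∑ t ∈ A, wgt a t * f t := by
  classical
  have h1 : ∑ i, f (a i) = ∑ t ∈ insert 0 A, ∑ i ∈ Finset.univ.filter (fun i => a i = t), f (a i) := by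
    rw [Finset.sum_fiberwise_of_maps_to]
    intro i _
    rw [Finset.mem_insert]
    rcases h0 i with h | h
    · exact Or.inl h
    · exact Or.inr ((C.hA _).2 ⟨h, i, rfl⟩)
  have h2 : ∀ t, ∑ i ∈ Finset.univ.filter (fun i => a i = t), f (a i) =
      ((Finset.univ.filter fun i => a i = t).card : ℝ) * f t := by
    intro t
    rw [Finset.sum_congr rfl (g := fun _ => f t), Finset.sum_const, nsmul_eq_mul]
    intro i hi
    rw [(Finset.mem_filter.1 hi).2]
  have h3 : (0:ℝ) ∉ A := fun h => by linarith [((C.hA 0).1 h).1]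
  rw [h1, Finset.sum_insert h3, h2, add_div, Finset.sum_div]
  congr 1
  · unfold wgt; ring
  · refine Finset.sum_congr rfl fun t _ => ?_
    rw [h2]; unfold wgt; ring

theorem Comp.U_nonneg (C : Comp a d A p q) (h0 : ∀ i, a i = 0 ∨ d < a i) (hd : 0 ≤ d) {x : ℝ}
    (hx : 1 ≤ P a x) : 0 ≤ wgt a 0 * Real.log |x| + ∑ t ∈ A, wgt a t * Real.log |x - t| := by
  have h1 := C.sum_eq h0 hd (fun t => Real.log |x - t|)
  simp only [sub_zero] at h1
  rw [← h1]
  refine div_nonneg ?_ (by positivity)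
  rw [← Real.log_prod (fun i _ => abs_ne_zero.2 (sub_ne_zero.2 (ne_of_one_le hx i).symm))]
  exact Real.log_nonneg hx

/-- the new potential -/
noncomputable def Uh (a : Fin n → ℝ) (A : Finset ℝ) (p q : ℝ → ℝ) (x : ℝ) : ℝ :=
  wgt a 0 * Real.log |x| + ∑ t ∈ A, wgt a t * blk A p q t x

theorem Comp.Uh_left (C : Comp a d A p q) (h0 : ∀ i, a i = 0 ∨ d < a i) (hd : 0 ≤ d) {x : ℝ}
    (hx : 1 ≤ P a x) (hxd : x ≤ d) : 0 ≤ Uh a A p q x := by
  refine (C.U_nonneg h0 hd hx).trans ?_
  unfold Uh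
  refine add_le_add le_rfl (Finset.sum_le_sum fun t ht => ?_)
  refine mul_le_mul_of_nonneg_left ?_ (wgt_nonneg a t)
  have h1 := C.hd t ht
  have h2 := C.hp t ht
  have h3 := C.sh_nonneg t
  refine le_trans ?_ (C.blk_left ht (by linarith))
  rw [abs_of_nonpos (by linarith)]
  exact Real.log_le_log (by linarith) (by linarith)

/-- gap points -/
theorem Comp.Uh_gap (C : Comp a d A p q) (h0 : ∀ i, a i = 0 ∨ d < a i) (hd : 0 < d) {x y s : ℝ}
    (hy : 1 ≤ P a y) (hdy : d ≤ y) (hxy : x = y + s) (hs : 0 ≤ s)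
    (hL : ∀ t ∈ A, t < y → q t ≤ y ∧ sh A p q t + (q t - p t) ≤ s)
    (hR : ∀ t ∈ A, y ≤ t → y ≤ p t ∧ s ≤ sh A p q t) : 0 ≤ Uh a A p q x := by
  refine (C.U_nonneg h0 hd.le hy).trans ?_
  unfold Uh
  refine add_le_add (mul_le_mul_of_nonneg_left ?_ (wgt_nonneg a 0))
    (Finset.sum_le_sum fun t ht => mul_le_mul_of_nonneg_left ?_ (wgt_nonneg a t))
  · rw [abs_of_pos (by linarith), abs_of_pos (by linarith)]
    exact Real.log_le_log (by linarith) (by linarith)
  · rcases lt_or_ge t y with h | h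
    · obtain ⟨h1, h2⟩ := hL t ht h
      refine le_trans ?_ (C.blk_right ht (by linarith))
      rw [abs_of_pos (by linarith)]
      exact Real.log_le_log (by linarith) (by linarith)
    · obtain ⟨h1, h2⟩ := hR t ht h
      have h3 := C.hp t ht
      refine le_trans ?_ (C.blk_left ht (by linarith))
      rw [abs_of_nonpos (by linarith)]
      exact Real.log_le_log (by linarith) (by linarith)

/-- block points -/
theorem Comp.Uh_blk (C : Comp a d A p q) (h0 : ∀ i, a i = 0 ∨ d < a i) (hd : 0 < d) {x t : ℝ}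
    (ht : t ∈ A) (hx1 : p t + sh A p q t ≤ x) (hx2 : x ≤ q t + sh A p q t + (q t - p t)) :
    0 ≤ Uh a A p q x := by
  classical
  obtain ⟨τ, t1, t2, t3, t4, t5⟩ := C.blk_mid ht hx1 hx2
  have hpt := C.hp t ht
  have hqt := C.hq t ht
  have hdt := C.hd t ht
  have hst := C.sh_nonneg t
  set y := p t + τ * (q t - p t) with hy
  have hyp : p t ≤ y := by rw [hy]; nlinarith
  have hyq : y ≤ q t := by rw [hy]; nlinarith
  have hyc : y = (1 - τ) * p t + τ * q t := by rw [hy]; ring
  have hUp := C.U_nonneg h0 hd.le (C.hPp t ht)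
  have hUq := C.U_nonneg h0 hd.le (C.hPq t ht)
  -- concavity of the logarithm
  have hconc : ∀ {A B : ℝ}, 0 < A → 0 < B →
      (1 - τ) * Real.log A + τ * Real.log B ≤ Real.log ((1 - τ) * A + τ * B) := by
    intro A B hA hB
    have h1 := Real.geom_mean_le_arith_mean2_weighted (show 0 ≤ 1 - τ by linarith) t1 hA.le hB.le
      (by ring)
    have h2 := Real.log_le_log (mul_pos (Real.rpow_pos_of_pos hA (1 - τ))
      (Real.rpow_pos_of_pos hB τ)) h1
    rwa [Real.log_mul (Real.rpow_pos_of_pos hA _).ne' (Real.rpow_pos_of_pos hB _).ne',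
      Real.log_rpow hA, Real.log_rpow hB] at h2
  -- termwise bound for the other roots
  have hother : ∀ t' ∈ A.erase t, (1 - τ) * Real.log |p t - t'| + τ * Real.log |q t - t'| ≤
      blk A p q t' x := by
    intro t' ht'
    obtain ⟨hne, ht'A⟩ := Finset.mem_erase.1 ht'
    rcases lt_or_gt_of_ne hne with h | h
    · -- `t'` left of `t`
      have h1 := C.hlt t' ht'A t ht h
      have h2 := C.sh_step ht'A h
      have h3 := C.hq t' ht'A
      refine le_trans ?_ (C.blk_right ht'A (by linarith))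
      rw [abs_of_pos (by linarith), abs_of_pos (by linarith)]
      refine (hconc (by linarith) (by linarith)).trans (Real.log_le_log ?_ ?_)
      · nlinarith
      · nlinarith
    · have h1 := C.hlt t ht t' ht'A h
      have h2 := C.sh_step ht h
      have h3 := C.hp t' ht'A
      refine le_trans ?_ (C.blk_left ht'A (by linarith))
      rw [abs_of_neg (by linarith), abs_of_neg (by linarith)]
      refine (hconc (by linarith) (by linarith)).trans (Real.log_le_log ?_ ?_)
      · nlinarith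
      · nlinarith
  have hzero : (1 - τ) * Real.log |p t| + τ * Real.log |q t| ≤ Real.log |x| := by
    rw [abs_of_pos (by linarith), abs_of_pos (by linarith), abs_of_pos (by linarith)]
    refine (hconc (by linarith) (by linarith)).trans (Real.log_le_log ?_ ?_)
    · nlinarith
    · nlinarith
  have hself : (1 - τ) * Real.log |p t - t| + τ * Real.log |q t - t| ≤ blk A p q t x := by
    rw [abs_of_neg (by linarith), abs_of_pos (by linarith), neg_sub]
    exact t5
  have hall : ∀ t' ∈ A, (1 - τ) * Real.log |p t - t'| + τ * Real.log |q t - t'| ≤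
      blk A p q t' x := by
    intro t' ht'
    by_cases h : t' = t
    · rw [h]; exact hself
    · exact hother t' (Finset.mem_erase.2 ⟨h, ht'⟩)
  have hfin : (1 - τ) * (wgt a 0 * Real.log |p t| + ∑ t' ∈ A, wgt a t' * Real.log |p t - t'|) +
      τ * (wgt a 0 * Real.log |q t| + ∑ t' ∈ A, wgt a t' * Real.log |q t - t'|) ≤
      Uh a A p q x := by
    unfold Uh
    have e1 : (1 - τ) * (wgt a 0 * Real.log |p t| + ∑ t' ∈ A, wgt a t' * Real.log |p t - t'|) +
      τ * (wgt a 0 * Real.log |q t| + ∑ t' ∈ A, wgt a t' * Real.log |q t - t'|) =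
      wgt a 0 * ((1 - τ) * Real.log |p t| + τ * Real.log |q t|) +
      ∑ t' ∈ A, wgt a t' * ((1 - τ) * Real.log |p t - t'| + τ * Real.log |q t - t'|) := by
      rw [mul_add, mul_add, Finset.mul_sum, Finset.mul_sum, add_add_add_comm,
        ← Finset.sum_add_distrib]
      congr 1
      · ring
      · exact Finset.sum_congr rfl fun _ _ => by ring
    rw [e1]
    exact add_le_add (mul_le_mul_of_nonneg_left hzero (wgt_nonneg a 0))
      (Finset.sum_le_sum fun t' ht' => mul_le_mul_of_nonneg_left (hall t' ht') (wgt_nonneg a t'))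
  refine le_trans ?_ hfin
  exact add_nonneg (mul_nonneg (by linarith) hUp) (mul_nonneg t1 hUq)

/-- the new potential is nonnegative to the right of `d` -/
theorem Comp.Uh_nonneg (C : Comp a d A p q) (h0 : ∀ i, a i = 0 ∨ d < a i) (hd : 0 < d)
    (hout : ∀ x, d ≤ x → (∀ t ∈ A, x ≤ p t ∨ q t ≤ x) → 1 ≤ P a x) {x : ℝ}
    (hx : d ≤ x) : 0 ≤ Uh a A p q x := by
  classical
  set T : Finset ℝ := A.filter fun t => p t + sh A p q t ≤ x with hT
  by_cases hTe : T.Nonempty
  · -- the last block starting before `x`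
    set t := T.max' hTe with htd
    have htT : t ∈ T := Finset.max'_mem _ _
    obtain ⟨htA, htx⟩ := Finset.mem_filter.1 htT
    have hmax : ∀ t' ∈ A, t < t' → x < p t' + sh A p q t' := by
      intro t' ht' h
      by_contra hcon
      have : t' ∈ T := Finset.mem_filter.2 ⟨ht', not_lt.1 hcon⟩
      exact absurd (Finset.le_max' T t' this) (not_le.2 h)
    by_cases hx2 : x ≤ q t + sh A p q t + (q t - p t)
    · exact C.Uh_blk h0 hd htA htx hx2
    · push Not at hx2
      have hlen := C.len_pos htA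
      have hdt := C.hd t htA
      have hst := C.sh_nonneg t
      set s := sh A p q t + (q t - p t) with hs
      set y := x - s with hy
      have hyq : q t < y := by rw [hy, hs]; linarith
      -- roots to the right
      have hR : ∀ t' ∈ A, t < t' → y < p t' ∧ s ≤ sh A p q t' := by
        intro t' ht' h
        refine ⟨?_, C.sh_step htA h⟩
        -- the next root
        set R : Finset ℝ := A.filter fun z => t < z with hRd
        have hRne : R.Nonempty := ⟨t', Finset.mem_filter.2 ⟨ht', h⟩⟩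
        set t1 := R.min' hRne with ht1
        have ht1R : t1 ∈ R := Finset.min'_mem _ _
        obtain ⟨ht1A, ht1t⟩ := Finset.mem_filter.1 ht1R
        have hnext : sh A p q t1 = sh A p q t + (q t - p t) :=
          C.sh_next htA ht1t fun z hz hzt => Finset.min'_le R z (Finset.mem_filter.2 ⟨hz, hzt⟩)
        have h1 := hmax t1 ht1A ht1t
        rw [hnext] at h1
        have h2 : y < p t1 := by rw [hy, hs]; linarith
        rcases (Finset.min'_le R t' (Finset.mem_filter.2 ⟨ht', h⟩)).eq_or_lt with h3 | h3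
        · rw [← h3]; exact h2
        · have h4 := C.hlt t1 ht1A t' ht' h3
          linarith [C.hp t1 ht1A, C.hq t1 ht1A]
      have hqt := C.hq t htA
      have hLq : ∀ t' ∈ A, t' ≤ t → q t' ≤ y ∧ sh A p q t' + (q t' - p t') ≤ s := by
        intro t' ht' h
        rcases h.eq_or_lt with h1 | h1
        · rw [h1]; exact ⟨hyq.le, le_rfl⟩
        · have h2 := C.hlt t' ht' t htA h1
          have h3 := C.sh_step ht' h1
          exact ⟨by linarith [C.hp t htA], by rw [hs]; linarith⟩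
      refine C.Uh_gap h0 hd (y := y) (s := s) (hout y (by linarith) ?_) (by linarith) (by rw [hy]; ring)
        (by rw [hs]; linarith) ?_ ?_
      · intro t' ht'
        rcases le_or_gt t' t with h | h
        · exact Or.inr (hLq t' ht' h).1
        · exact Or.inl (hR t' ht' h).1.le
      · intro t' ht' h
        refine hLq t' ht' ?_
        by_contra hcon
        have h1 := hR t' ht' (not_le.1 hcon)
        linarith [C.hp t' ht']
      · intro t' ht' h
        have h1 : t < t' := by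
          by_contra hcon
          have h2 := (hLq t' ht' (not_lt.1 hcon)).1
          linarith [C.hq t' ht']
        exact ⟨(hR t' ht' h1).1.le, (hR t' ht' h1).2⟩
  · -- all blocks start after `x`
    have hall : ∀ t ∈ A, x < p t + sh A p q t := by
      intro t ht
      by_contra hcon
      exact hTe ⟨t, Finset.mem_filter.2 ⟨ht, not_lt.1 hcon⟩⟩
    have hxp : ∀ t ∈ A, x < p t := by
      intro t ht
      have hAne : A.Nonempty := ⟨t, ht⟩
      set t0 := A.min' hAne with ht0
      have ht0A : t0 ∈ A := Finset.min'_mem _ _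
      have hs0 : sh A p q t0 = 0 := by
        unfold sh
        rw [Finset.filter_eq_empty_iff.2, Finset.sum_empty]
        intro z hz
        exact not_lt.2 (Finset.min'_le A z hz)
      have h1 := hall t0 ht0A
      rw [hs0, add_zero] at h1
      rcases (Finset.min'_le A t ht).eq_or_lt with h2 | h2
      · rw [← h2]; exact h1
      · have h3 := C.hlt t0 ht0A t ht h2
        linarith [C.hp t0 ht0A, C.hq t0 ht0A]
    refine C.Uh_gap h0 hd (y := x) (s := 0) (hout x hx fun t ht => Or.inl (hxp t ht).le) hx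
      (by ring) le_rfl ?_ ?_
    · intro t ht h
      linarith [hxp t ht, C.hp t ht]
    · intro t ht _
      exact ⟨(hxp t ht).le, C.sh_nonneg t⟩

theorem Comp.out (C : Comp a d A p q) (ha : ∀ i, a i ∈ Icc (0:ℝ) 2) (hPd : 1 ≤ P a d) {x : ℝ}
    (hx : d ≤ x) (h : ∀ t ∈ A, x ≤ p t ∨ q t ≤ x) : 1 ≤ P a x := by
  by_contra hcon
  push Not at hcon
  obtain ⟨c', d', h1, h2, h3, h4, h5⟩ := exists_component ha hcon
  obtain ⟨i, hi⟩ := exists_root_mem h3 h4 ⟨h1, h2⟩ hcon
  have hdc : d ≤ c' := by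
    by_contra hc
    have := h5 d ⟨not_le.1 hc, by
      rcases hx.eq_or_lt with h6 | h6
      · rw [h6]; exact h2
      · linarith⟩
    linarith
  have htA : a i ∈ A := (C.hA _).2 ⟨lt_of_le_of_lt hdc hi.1, i, rfl⟩
  rcases h _ htA with h6 | h6
  · have := h5 (p (a i)) ⟨by linarith, by linarith [C.hp _ htA, hi.2]⟩
    linarith [C.hPp _ htA]
  · have := h5 (q (a i)) ⟨by linarith [C.hq _ htA, hi.1], by linarith⟩
    linarith [C.hPq _ htA]

/-- the volume of the set -/
theorem Comp.vol (C : Comp a d A p q) {c : ℝ} (hcd : c ≤ d) (hE : ∀ x ∈ Ioo c d, P a x < 1) :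
    ENNReal.ofReal ((d - c) + ∑ t ∈ A, (q t - p t)) ≤ volume (E a) := by
  classical
  have h1 : volume (⋃ t ∈ A, Ioo (p t) (q t)) = ∑ t ∈ A, volume (Ioo (p t) (q t)) := by
    refine measure_biUnion_finset ?_ fun _ _ => measurableSet_Ioo
    intro t ht t' ht' hne
    rw [Function.onFun, Set.disjoint_left]
    rintro x ⟨hx1, hx2⟩ ⟨hx3, hx4⟩
    rcases lt_or_gt_of_ne hne with h | h
    · linarith [C.hlt t ht t' ht' h]
    · linarith [C.hlt t' ht' t ht h]
  have h2 : volume (Ioo c d ∪ ⋃ t ∈ A, Ioo (p t) (q t)) =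
      volume (Ioo c d) + volume (⋃ t ∈ A, Ioo (p t) (q t)) := by
    refine measure_union ?_ (Finset.measurableSet_biUnion _ fun _ _ => measurableSet_Ioo)
    rw [Set.disjoint_left]
    intro x hx hx'
    rw [mem_iUnion₂] at hx'
    obtain ⟨t, ht, hxt⟩ := hx'
    linarith [C.hd t ht, hx.2, hxt.1]
  have h3 : Ioo c d ∪ ⋃ t ∈ A, Ioo (p t) (q t) ⊆ E a := by
    intro x hx
    rcases hx with hx | hx
    · exact hE x hx
    · rw [mem_iUnion₂] at hx
      obtain ⟨t, ht, hxt⟩ := hx
      exact C.hPm t ht x hxt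
  refine le_trans (le_of_eq ?_) (measure_mono h3)
  rw [h2, h1, ENNReal.ofReal_add (by linarith) (Finset.sum_nonneg fun t ht => (C.len_pos ht).le),
    Real.volume_Ioo, ENNReal.ofReal_sum_of_nonneg fun t ht => (C.len_pos ht).le]
  simp only [Real.volume_Ioo]

end

theorem wgt_sum (hn : 0 < n) {a : Fin n → ℝ} {d : ℝ} {A : Finset ℝ} {p q : ℝ → ℝ}
    (C : Comp a d A p q) (h0 : ∀ i, a i = 0 ∨ d < a i) (hd : 0 ≤ d) :
    wgt a 0 + ∑ t ∈ A, wgt a t = 1 := by
  have h1 := C.sum_eq h0 hd (fun _ => 1)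
  simp only [mul_one, Finset.sum_const, Finset.card_univ, Fintype.card_fin, nsmul_eq_mul] at h1
  rw [← h1]
  have : (n:ℝ) ≠ 0 := by exact_mod_cast hn.ne'
  field_simp

/-- **Theorem A (surgery).** -/
theorem surgery (hn : 0 < n) {a : Fin n → ℝ} (ha : ∀ i, a i ∈ Icc (0:ℝ) 2) (hG : Good a) :
    ∃ c d δ B : ℝ, c < 0 ∧ 1 ≤ d ∧ 0 < δ ∧ 2 ≤ B ∧ B ≤ 2 + 3 / 2 * δ ∧ d < B ∧
      1 ≤ P a c ∧ 1 ≤ P a d ∧ 1 / 2 ≤ wgt a 0 ∧ wgt a 0 < 1 ∧
      (∀ i, a i = 0 ∨ d < a i) ∧ (∀ x ∈ Ioo c d, P a x < 1) ∧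
      ENNReal.ofReal ((d - c) + δ) ≤ volume (E a) ∧
      ∃ (N : ℕ) (m u v : Fin N → ℝ), (∀ j, 0 ≤ m j) ∧ ∑ j, m j = 1 - wgt a 0 ∧
        (∀ j, d ≤ u j) ∧ (∀ j, u j < v j) ∧ (∀ j, v j ≤ B) ∧
        0 ≤ wgt a 0 * Real.log |c| + ∑ j, m j * G (u j) (v j) c ∧
        0 ≤ wgt a 0 * Real.log |d| + ∑ j, m j * G (u j) (v j) d ∧
        ∀ x ∈ Icc d B, 0 ≤ wgt a 0 * Real.log |x| + ∑ j, m j * G (u j) (v j) x := by
  classical
  obtain ⟨c, d, hc0, hd1, hPc, hPd, hcd, -, ⟨i2, hi2⟩, h0, hhalf, hgap⟩ := hG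
  obtain ⟨A, p, q, C⟩ := exists_comp ha hPd hgap
  have hd0 : 0 < d := by linarith
  have hd2 : d < 2 := by
    rcases h0 i2 with h | h
    · rw [hi2] at h; norm_num at h
    · rwa [hi2] at h
  have h2A : (2:ℝ) ∈ A := (C.hA 2).2 ⟨hd2, i2, hi2⟩
  set δ : ℝ := ∑ t ∈ A, (q t - p t) with hδ
  have hδ2 : q 2 - p 2 ≤ δ :=
    Finset.single_le_sum (f := fun t => q t - p t) (fun t ht => (C.len_pos ht).le) h2A
  have hδ0 : 0 < δ := lt_of_lt_of_le (C.len_pos h2A) hδ2
  set B : ℝ := q 2 + δ with hB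
  -- the last component is longer to the left
  have hsym : q 2 - 2 ≤ 2 - p 2 := by
    by_contra hcon
    push Not at hcon
    have h1 : 1 ≤ P a (2 + (2 - p 2)) := by
      refine (C.hPp 2 h2A).trans (P_mono fun i => ?_)
      have h3 := (ha i).2
      have h4 := C.hp 2 h2A
      rw [abs_of_nonneg (a := 2 + (2 - p 2) - a i) (by linarith), abs_le]
      constructor <;> linarith
    have h2 := C.hPm 2 h2A (2 + (2 - p 2)) ⟨by linarith [C.hp 2 h2A], by linarith⟩
    linarith
  have hB2 : 2 ≤ B := by linarith [C.hq 2 h2A]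
  have hB3 : B ≤ 2 + 3 / 2 * δ := by rw [hB]; linarith
  have hsum := wgt_sum hn C h0 hd0.le
  have hn' : (0:ℝ) < n := by exact_mod_cast hn
  have hα : 1 / 2 ≤ wgt a 0 := by
    unfold wgt
    rw [le_div_iff₀ hn']
    have : (n:ℝ) ≤ 2 * ((Finset.univ.filter fun i => a i = 0).card : ℝ) := by exact_mod_cast hhalf
    linarith
  have hα1 : wgt a 0 < 1 := by
    have h1 : 0 < wgt a 2 := by
      unfold wgt
      refine div_pos ?_ hn'
      exact_mod_cast Finset.card_pos.2 ⟨i2, Finset.mem_filter.2 ⟨Finset.mem_univ _, hi2⟩⟩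
    have h2 : wgt a 2 ≤ ∑ t ∈ A, wgt a t :=
      Finset.single_le_sum (f := fun t => wgt a t) (fun t _ => wgt_nonneg a t) h2A
    linarith
  -- the pieces, indexed by pairs
  let ι := A × Bool
  let m' : ι → ℝ := fun z => wgt a z.1 * (if z.2 then wt (th p q z.1) else 1 - wt (th p q z.1))
  let u' : ι → ℝ := fun z => if z.2 then
      hb (p z.1 + sh A p q z.1) (q z.1 - p z.1) (th p q z.1) else p z.1 + sh A p q z.1
  let v' : ι → ℝ := fun z => if z.2 then
      hb (p z.1 + sh A p q z.1) (q z.1 - p z.1) (th p q z.1) + (q z.1 - p z.1)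
      else p z.1 + sh A p q z.1 + 2 * (q z.1 - p z.1)
  let e := Fintype.equivFin ι
  have hUh : ∀ x, wgt a 0 * Real.log |x| + ∑ j, m' (e.symm j) * G (u' (e.symm j)) (v' (e.symm j)) x
      = Uh a A p q x := by
    intro x
    unfold Uh
    congr 1
    rw [Equiv.sum_comp e.symm (fun z => m' z * G (u' z) (v' z) x), Fintype.sum_prod_type,
      ← Finset.sum_coe_sort A]
    refine Finset.sum_congr rfl fun t _ => ?_
    rw [Fintype.sum_bool]
    simp only [m', u', v', blk, Lam, if_true, Bool.false_eq_true, if_false]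
    ring
  have hbnd : ∀ t ∈ A, q t + sh A p q t + (q t - p t) ≤ B := by
    intro t ht
    have h1 : t ≤ 2 := by
      obtain ⟨-, i, hi⟩ := (C.hA t).1 ht
      rw [← hi]; exact (ha i).2
    have h2 : q t ≤ q 2 := by
      rcases h1.eq_or_lt with h3 | h3
      · rw [h3]
      · linarith [C.hlt t ht 2 h2A h3, C.hp 2 h2A, C.hq 2 h2A]
    have h3 : sh A p q t + (q t - p t) ≤ δ := by
      unfold sh
      have h4 : t ∉ A.filter (fun x => x < t) := by simp
      rw [add_comm, ← Finset.sum_insert (f := fun z => q z - p z) h4]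
      refine Finset.sum_le_sum_of_subset_of_nonneg ?_ fun z hz _ => (C.len_pos hz).le
      intro z hz
      rw [Finset.mem_insert] at hz
      rcases hz with hz | hz
      · rw [hz]; exact ht
      · exact (Finset.mem_filter.1 hz).1
    rw [hB]; linarith
  have hm' : ∀ z, 0 ≤ m' z := by
    rintro ⟨⟨t, ht⟩, b⟩
    have h1 := wt_nonneg (C.th_lt ht)
    have h2 := wt_le_one (C.th_pos ht) (C.th_lt ht)
    cases b
    · simp only [m', Bool.false_eq_true, if_false]
      exact mul_nonneg (wgt_nonneg a t) (by linarith)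
    · simp only [m', if_true]
      exact mul_nonneg (wgt_nonneg a t) h1
  have hu' : ∀ z, d ≤ u' z := by
    rintro ⟨⟨t, ht⟩, b⟩
    have h1 := C.hd t ht
    have h2 := C.sh_nonneg t
    have h3 := C.len_pos ht
    cases b
    · simp only [u', Bool.false_eq_true, if_false]; linarith
    · simp only [u', if_true]
      unfold hb
      split_ifs <;> linarith
  have huv' : ∀ z, u' z < v' z := by
    rintro ⟨⟨t, ht⟩, b⟩
    have h3 := C.len_pos ht
    cases b
    · simp only [u', v', Bool.false_eq_true, if_false]; linarith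
    · simp only [u', v', if_true]; linarith
  have hv' : ∀ z, v' z ≤ B := by
    rintro ⟨⟨t, ht⟩, b⟩
    have h3 := C.len_pos ht
    have h4 := hbnd t ht
    cases b
    · simp only [v', Bool.false_eq_true, if_false]; linarith
    · simp only [v', if_true]
      unfold hb
      split_ifs <;> linarith
  refine ⟨c, d, δ, B, hc0, hd1, hδ0, hB2, hB3, by linarith, hPc, hPd, hα, hα1, h0, hcd,
    C.vol (by linarith) hcd, Fintype.card ι, fun j => m' (e.symm j), fun j => u' (e.symm j),
    fun j => v' (e.symm j), fun j => hm' _, ?_, fun j => hu' _, fun j => huv' _,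
    fun j => hv' _, ?_, ?_, ?_⟩
  · rw [Equiv.sum_comp e.symm m', Fintype.sum_prod_type]
    have : ∑ t : A, ∑ b : Bool, m' (t, b) = ∑ t ∈ A, wgt a t := by
      rw [← Finset.sum_coe_sort A]
      refine Finset.sum_congr rfl fun t _ => ?_
      rw [Fintype.sum_bool]
      simp only [m', if_true, Bool.false_eq_true, if_false]
      ring
    rw [this]; linarith
  · rw [hUh]; exact C.Uh_left h0 hd0.le hPc (by linarith)
  · rw [hUh]; exact C.Uh_left h0 hd0.le hPd le_rfl
  · intro x hx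
    rw [hUh]
    exact C.Uh_nonneg h0 hd0 (fun y hy hy' => C.out ha hPd hy hy') hx.1

end Pool.Agent.MP28e671
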